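import Pool.Agent.Lib.MP_37c7bf_BJ.Defs

/-!
Affine families of linear maps have kernels of least dimension almost everywhere; predicates on
positions that survive almost every change of one coordinate have common points.
-/

open MeasureTheory Module Topology
open scoped RealInnerProductSpace

namespace Pool.Agent.BJ

open Pool.Agent.H26R (E3 crossE)

/-- Auxiliary matrix witnessing that the kernel is small. -/
lemma exists_witness_affine {Y Z' : Type*} [AddCommGroup Y] [Module ℝ Y] [FiniteDimensional ℝ Y]
    [AddCommGroup Z'] [Module ℝ Z'] (A : Y →ₗ[ℝ] Z') :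
    ∃ (n : ℕ) (F : (Y →ₗ[ℝ] Z') →ₗ[ℝ] Matrix (Fin n) (Fin n) ℝ), F A = 1 ∧
      ∀ B, (F B).det ≠ 0 → finrank ℝ (LinearMap.ker B) ≤ finrank ℝ (LinearMap.ker A) := by
  obtain ⟨U, hU⟩ := Submodule.exists_isCompl (LinearMap.ker A)
  have hinj : LinearMap.ker (A.comp U.subtype) = ⊥ := by
    rw [LinearMap.ker_eq_bot']
    intro u hu
    have h1 : (u : Y) ∈ LinearMap.ker A := hu
    have h2 : (u : Y) ∈ LinearMap.ker A ⊓ U := ⟨h1, u.2⟩
    rw [hU.inf_eq_bot] at h2
    exact Subtype.ext (by simpa using h2)
  obtain ⟨S, hS⟩ := (A.comp U.subtype).exists_leftInverse_of_injective hinj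
  let b := Module.finBasis ℝ U
  let F : (Y →ₗ[ℝ] Z') →ₗ[ℝ] Matrix (Fin (finrank ℝ U)) (Fin (finrank ℝ U)) ℝ :=
    { toFun := fun B => LinearMap.toMatrix b b (S.comp (B.comp U.subtype))
      map_add' := by
        intro p q
        rw [← map_add]
        congr 1
        ext u
        simp
      map_smul' := by
        intro c p
        rw [RingHom.id_apply, ← map_smul]
        congr 1
        ext u
        simp }
  refine ⟨finrank ℝ U, F, ?_, ?_⟩
  · change LinearMap.toMatrix b b (S.comp (A.comp U.subtype)) = 1
    rw [hS, LinearMap.toMatrix_id]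
  · intro B hp
    have hdet : LinearMap.det (S.comp (B.comp U.subtype)) ≠ 0 := by
      rwa [← LinearMap.det_toMatrix b]
    have hker : LinearMap.ker (S.comp (B.comp U.subtype)) = ⊥ := by
      by_contra hne
      exact hdet (LinearMap.det_eq_zero_iff_ker_ne_bot.mpr hne)
    have hdisj : LinearMap.ker B ⊓ U = ⊥ := by
      rw [eq_bot_iff]
      rintro y ⟨hy, hyU⟩
      have : (⟨y, hyU⟩ : U) ∈ LinearMap.ker (S.comp (B.comp U.subtype)) := by
        have hy' : B y = 0 := hy
        simp [hy']
      rw [hker] at this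
      simpa using congrArg Subtype.val ((Submodule.mem_bot ℝ).1 this)
    have h1 : finrank ℝ (LinearMap.ker B) + finrank ℝ U ≤ finrank ℝ Y := by
      have := Submodule.finrank_sup_add_finrank_inf_eq (LinearMap.ker B) U
      rw [hdisj, finrank_bot, add_zero] at this
      rw [← this]
      exact Submodule.finrank_le _
    have h2 : finrank ℝ (LinearMap.ker A) + finrank ℝ U = finrank ℝ Y :=
      Submodule.finrank_add_eq_of_isCompl hU
    omega

/-- A generic member of an affine family has kernel at most as large as a given member. -/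
lemma ae_finrank_ker_affine {X Y Z' : Type*} [NormedAddCommGroup X] [NormedSpace ℝ X]
    [FiniteDimensional ℝ X] [MeasurableSpace X] [BorelSpace X] (μ : Measure X)
    [μ.IsAddHaarMeasure] [AddCommGroup Y] [Module ℝ Y] [FiniteDimensional ℝ Y]
    [AddCommGroup Z'] [Module ℝ Z'] (L0 : Y →ₗ[ℝ] Z') (L : X →ₗ[ℝ] Y →ₗ[ℝ] Z') (p₀ : X) :
    ∀ᵐ p ∂μ, finrank ℝ (LinearMap.ker (L0 + L p)) ≤ finrank ℝ (LinearMap.ker (L0 + L p₀)) := by
  obtain ⟨n, F, hF, h⟩ := exists_witness_affine (L0 + L p₀)
  let M : X →ₗ[ℝ] Matrix (Fin n) (Fin n) ℝ := F.comp L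
  have hM : ∀ p, F (L0 + L p) = F L0 + M p := fun p => map_add F _ _
  have hc : Continuous fun p => (F (L0 + L p)).det := by
    simp_rw [hM]
    exact (continuous_const.add (LinearMap.continuous_of_finiteDimensional M)).matrix_det
  have hnull : μ {p : X | (F (L0 + L p)).det = 0} = 0 := by
    refine Pool.Agent.H26R.null_of_lines μ (isClosed_eq hc continuous_const).measurableSet p₀ ?_
    intro x
    refine ((Pool.Agent.H26R.finite_bad (M (x - p₀))).subset ?_).countable
    intro t ht
    have h1 : F (L0 + L (p₀ + t • (x - p₀))) = 1 + t • M (x - p₀) := by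
      rw [map_add L, map_smul, ← add_assoc, map_add, hF, map_smul]
      rfl
    have h2 : (F (L0 + L (p₀ + t • (x - p₀)))).det = 0 := ht
    rw [h1] at h2
    exact h2
  have : ∀ᵐ p ∂μ, (F (L0 + L p)).det ≠ 0 := by
    rw [ae_iff]
    simpa using hnull
  filter_upwards [this] with p hp
  exact h _ hp

/-- The part of the velocity which depends on the point. -/
noncomputable def evB : E3 →ₗ[ℝ] Kil →ₗ[ℝ] E3 :=
  LinearMap.mk₂ ℝ (fun x S => crossE S.1 x)
    (fun _ _ _ => Pool.Agent.H26R.crossE_add_right _ _ _)
    (fun _ _ _ => Pool.Agent.H26R.crossE_smul_right _ _ _)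
    (fun _ _ _ => Pool.Agent.H26R.crossE_add_left _ _ _)
    (fun _ _ _ => Pool.Agent.H26R.crossE_smul_left _ _ _)

lemma evB_apply (x : E3) (S : Kil) : evB x S = crossE S.1 x := rfl

lemma ev_eq (x : E3) : ev x = LinearMap.snd ℝ E3 E3 + evB x := by
  apply LinearMap.ext
  intro S
  rw [ev_apply, LinearMap.add_apply, LinearMap.snd_apply, evB_apply, add_comm]

/-- The kernel on a subspace. -/
lemma finrank_inf_ker {Y Z' : Type*} [AddCommGroup Y] [Module ℝ Y]
    [AddCommGroup Z'] [Module ℝ Z'] (W : Submodule ℝ Y) (f : Y →ₗ[ℝ] Z') :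
    finrank ℝ ↥(W ⊓ LinearMap.ker f) = finrank ℝ (LinearMap.ker (f.comp W.subtype)) := by
  have h1 : (LinearMap.ker (f.comp W.subtype)).map W.subtype = W ⊓ LinearMap.ker f := by
    rw [LinearMap.ker_comp, Submodule.map_comap_subtype]
  rw [← h1]
  exact (LinearEquiv.finrank_eq (Submodule.equivMapOfInjective W.subtype W.injective_subtype
    (LinearMap.ker (f.comp W.subtype)))).symm

/-- The common kernel on a subspace of the evaluation at a point is smallest almost everywhere. -/
lemma ae_finrank_inf_ker_ev (W : Submodule ℝ Kil) (x₀ : E3) :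
    ∀ᵐ x : E3 ∂volume, finrank ℝ ↥(W ⊓ LinearMap.ker (ev x)) ≤
      finrank ℝ ↥(W ⊓ LinearMap.ker (ev x₀)) := by
  let L : E3 →ₗ[ℝ] W →ₗ[ℝ] E3 := evB.compl₂ W.subtype
  have hL : ∀ x, (ev x).comp W.subtype = (LinearMap.snd ℝ E3 E3).comp W.subtype + L x := by
    intro x
    rw [ev_eq, LinearMap.add_comp]
    rfl
  have h := ae_finrank_ker_affine (volume : Measure E3)
    ((LinearMap.snd ℝ E3 E3).comp W.subtype) L x₀
  filter_upwards [h] with x hx
  rw [finrank_inf_ker, finrank_inf_ker, hL, hL]
  exact hx

/-- A predicate on positions that survives almost every change of one coordinate. -/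
def Stable {J : Type} [DecidableEq J] (Q : (J → E3) → Prop) : Prop :=
  ∀ p, Q p → ∀ j, ∀ᵐ x : E3 ∂volume, Q (Function.update p j x)

/-- Finitely many nonempty stable predicates have a common point. -/
lemma exists_common {J C : Type} [Finite J] [DecidableEq J] [Finite C]
    (Q : C → (J → E3) → Prop) (hs : ∀ c, Stable (Q c)) (hne : ∀ c, ∃ p, Q c p) :
    ∃ p, ∀ c, Q c p := by
  cases nonempty_fintype J
  have key : ∀ A : Finset J, ∃ y : J → E3, ∀ c, ∃ p, Q c p ∧ ∀ j ∈ A, p j = y j := by
    intro A
    induction A using Finset.induction_on with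
    | empty =>
      refine ⟨0, fun c => ?_⟩
      obtain ⟨p, hp⟩ := hne c
      exact ⟨p, hp, fun j hj => absurd hj (Finset.notMem_empty j)⟩
    | insert j A hj ih =>
      obtain ⟨y, hy⟩ := ih
      choose p hp hpy using hy
      have h1 : ∀ᵐ x : E3 ∂volume, ∀ c, Q c (Function.update (p c) j x) :=
        ae_all_iff.2 fun c => hs c (p c) (hp c) j
      obtain ⟨x, hx⟩ := h1.exists
      refine ⟨Function.update y j x, fun c => ⟨_, hx c, ?_⟩⟩
      intro k hk
      by_cases hkj : k = j
      · subst hkj
        rw [Function.update_self, Function.update_self]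
      · rw [Function.update_of_ne hkj, Function.update_of_ne hkj]
        exact hpy c k (Finset.mem_of_mem_insert_of_ne hk hkj)
  obtain ⟨y, hy⟩ := key Finset.univ
  refine ⟨y, fun c => ?_⟩
  obtain ⟨p, hp, hpy⟩ := hy c
  have : p = y := funext fun j => hpy j (Finset.mem_univ j)
  rwa [this] at hp

/-- A function on the points of a stable predicate that does not change under a change of one
coordinate is constant. -/
lemma Stable.const {J T : Type} [Finite J] [DecidableEq J] {Q : (J → E3) → Prop}
    (hs : Stable Q) (c : (J → E3) → T)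
    (hc : ∀ p, Q p → ∀ j x, Q (Function.update p j x) → c (Function.update p j x) = c p)
    {p q : J → E3} (hp : Q p) (hq : Q q) : c p = c q := by
  cases nonempty_fintype J
  have key : ∀ A : Finset J, ∃ p' q' : J → E3, Q p' ∧ Q q' ∧ c p' = c p ∧ c q' = c q ∧
      ∀ j ∈ A, p' j = q' j := by
    intro A
    induction A using Finset.induction_on with
    | empty => exact ⟨p, q, hp, hq, rfl, rfl, fun j hj => absurd hj (Finset.notMem_empty j)⟩
    | insert j A hj ih =>
      obtain ⟨p', q', hp', hq', h1, h2, h3⟩ := ih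
      obtain ⟨x, hx1, hx2⟩ := ((hs p' hp' j).and (hs q' hq' j)).exists
      refine ⟨_, _, hx1, hx2, (hc p' hp' j x hx1).trans h1, (hc q' hq' j x hx2).trans h2, ?_⟩
      intro k hk
      by_cases hkj : k = j
      · subst hkj
        rw [Function.update_self, Function.update_self]
      · rw [Function.update_of_ne hkj, Function.update_of_ne hkj]
        exact h3 k (Finset.mem_of_mem_insert_of_ne hk hkj)
  obtain ⟨p', q', -, -, h1, h2, h3⟩ := key Finset.univ
  have : p' = q' := funext fun j => h3 j (Finset.mem_univ j)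
  rw [← h1, ← h2, this]

section
variable {ι J : Type} [Finite ι] [Finite J]

omit [Finite ι] [Finite J] in
lemma zdim_le (a b : J → ι) (E : Finset J) (r : Setoid ι) (p : J → E3) :
    zdim a b E r ≤ finrank ℝ (Z a b E r p) :=
  Nat.sInf_le ⟨p, rfl⟩

/-- The difference of the motions of the two ends of a joint. -/
noncomputable def dif (a b : J → ι) (k : J) : (ι → Kil) →ₗ[ℝ] Kil :=
  LinearMap.proj (R := ℝ) (φ := fun _ : ι => Kil) (a k) - LinearMap.proj (b k)

omit [Finite ι] [Finite J] in
lemma dif_apply (a b : J → ι) (k : J) (S : ι → Kil) : dif a b k S = S (a k) - S (b k) := rfl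

open Classical in
/-- The welding equations. -/
noncomputable def weq (r : Setoid ι) : (ι → Kil) →ₗ[ℝ] (ι × ι → Kil) :=
  LinearMap.pi fun q => if r q.1 q.2 then
    LinearMap.proj (R := ℝ) (φ := fun _ : ι => Kil) q.1 - LinearMap.proj q.2 else 0

open Classical in
/-- The equations of the joints. -/
noncomputable def jeq (a b : J → ι) (E : Finset J) (p : J → E3) : (ι → Kil) →ₗ[ℝ] (J → E3) :=
  LinearMap.pi fun k => if k ∈ E then (ev (p k)).comp (dif a b k) else 0

open Classical in
omit [Finite ι] in
lemma weq_apply (r : Setoid ι) (S : ι → Kil) (q : ι × ι) :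
    weq r S q = if r q.1 q.2 then S q.1 - S q.2 else 0 := by
  unfold weq
  rw [LinearMap.pi_apply]
  split_ifs <;> rfl

open Classical in
omit [Finite ι] [Finite J] in
lemma jeq_apply (a b : J → ι) (E : Finset J) (p : J → E3) (S : ι → Kil) (k : J) :
    jeq a b E p S k = if k ∈ E then ev (p k) (S (a k) - S (b k)) else 0 := by
  unfold jeq
  rw [LinearMap.pi_apply]
  split_ifs <;> rfl

omit [Finite ι] [Finite J] in
lemma Z_eq_ker (a b : J → ι) (E : Finset J) (r : Setoid ι) (p : J → E3) :
    Z a b E r p = LinearMap.ker ((weq r).prod (jeq a b E p)) := by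
  classical
  ext S
  rw [mem_Z, LinearMap.ker_prod, Submodule.mem_inf, LinearMap.mem_ker, LinearMap.mem_ker]
  constructor
  · rintro ⟨h1, h2⟩
    constructor
    · funext q
      rw [weq_apply]
      split_ifs with h
      · rw [h1 _ _ h, sub_self]
        rfl
      · rfl
    · funext k
      rw [jeq_apply]
      split_ifs with h
      · rw [map_sub, h2 k h, sub_self]
        rfl
      · rfl
  · rintro ⟨h1, h2⟩
    constructor
    · intro u v h
      have h3 := congrFun h1 (u, v)
      rw [weq_apply, if_pos h] at h3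
      exact sub_eq_zero.1 h3
    · intro k hk
      have h3 := congrFun h2 k
      rw [jeq_apply, if_pos hk, map_sub] at h3
      exact sub_eq_zero.1 h3

open Classical in
/-- The constant part of the equations as functions of the position of one joint. -/
noncomputable def jeq0 (a b : J → ι) (E : Finset J) (p : J → E3) (j : J) :
    (ι → Kil) →ₗ[ℝ] (J → E3) :=
  LinearMap.pi fun k => if k ∈ E then
    (if k = j then (LinearMap.snd ℝ E3 E3).comp (dif a b k) else (ev (p k)).comp (dif a b k))
    else 0

open Classical in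
omit [Finite ι] [Finite J] in
lemma jeq0_apply (a b : J → ι) (E : Finset J) (p : J → E3) (j : J) (S : ι → Kil) (k : J) :
    jeq0 a b E p j S k = if k ∈ E then
      (if k = j then (S (a k) - S (b k)).2 else ev (p k) (S (a k) - S (b k))) else 0 := by
  unfold jeq0
  rw [LinearMap.pi_apply]
  split_ifs <;> rfl

open Classical in
/-- The linear part of the equations as functions of the position of one joint. -/
noncomputable def jeq1 (a b : J → ι) (E : Finset J) (j : J) :
    E3 →ₗ[ℝ] (ι → Kil) →ₗ[ℝ] ((ι × ι → Kil) × (J → E3)) :=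
  LinearMap.mk₂ ℝ (fun x S => (0, fun k => if k ∈ E ∧ k = j then
      crossE (S (a k) - S (b k)).1 x else 0))
    (by
      intro x y S
      refine Prod.ext (by simp) (funext fun k => ?_)
      simp only [Prod.snd_add, Pi.add_apply]
      split_ifs
      · exact Pool.Agent.H26R.crossE_add_right _ _ _
      · simp)
    (by
      intro c x S
      refine Prod.ext (by simp) (funext fun k => ?_)
      simp only [Prod.smul_snd, Pi.smul_apply]
      split_ifs
      · exact Pool.Agent.H26R.crossE_smul_right _ _ _
      · simp)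
    (by
      intro x S T
      refine Prod.ext (by simp) (funext fun k => ?_)
      simp only [Prod.snd_add, Pi.add_apply]
      split_ifs
      · rw [← Pool.Agent.H26R.crossE_add_left, ← Prod.fst_add, add_sub_add_comm]
      · simp)
    (by
      intro c x S
      refine Prod.ext (by simp) (funext fun k => ?_)
      simp only [Prod.smul_snd, Pi.smul_apply]
      split_ifs
      · rw [← Pool.Agent.H26R.crossE_smul_left, ← Prod.smul_fst, smul_sub]
      · simp)

open Classical in
omit [Finite ι] [Finite J] in
lemma jeq1_apply (a b : J → ι) (E : Finset J) (j : J) (x : E3) (S : ι → Kil) :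
    jeq1 a b E j x S = (0, fun k => if k ∈ E ∧ k = j then
      crossE (S (a k) - S (b k)).1 x else 0) := rfl

omit [Finite ι] [Finite J] in
lemma prod_eq [DecidableEq J] (a b : J → ι) (E : Finset J) (r : Setoid ι) (p : J → E3) (j : J)
    (x : E3) : (weq r).prod (jeq a b E (Function.update p j x)) =
      (weq r).prod (jeq0 a b E p j) + jeq1 a b E j x := by
  apply LinearMap.ext
  intro S
  rw [LinearMap.add_apply]
  refine Prod.ext ?_ ?_
  · show weq r S = weq r S + (jeq1 a b E j x S).1
    rw [jeq1_apply, add_zero]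
  · show jeq a b E (Function.update p j x) S = jeq0 a b E p j S + (jeq1 a b E j x S).2
    funext k
    rw [Pi.add_apply, jeq_apply, jeq0_apply, jeq1_apply]
    dsimp only
    by_cases hk : k ∈ E
    · by_cases hkj : k = j
      · subst hkj
        rw [if_pos hk, if_pos hk, if_pos rfl, if_pos ⟨hk, rfl⟩, Function.update_self, ev_apply,
          add_comm]
      · rw [if_pos hk, if_pos hk, if_neg hkj, if_neg (fun h => hkj h.2),
          Function.update_of_ne hkj, add_zero]
    · rw [if_neg hk, if_neg hk, if_neg (fun h => hk h.1), add_zero]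

omit [Finite J] in
lemma stable_aux [DecidableEq J] (a b : J → ι) (E : Finset J) (r : Setoid ι) :
    Stable (fun p => finrank ℝ (Z a b E r p) = zdim a b E r) := by
  intro p hp j
  have h := ae_finrank_ker_affine (volume : Measure E3) ((weq r).prod (jeq0 a b E p j))
    (jeq1 a b E j) (p j)
  filter_upwards [h] with x hx
  rw [← prod_eq, ← prod_eq, ← Z_eq_ker, ← Z_eq_ker, Function.update_eq_self, hp] at hx
  exact le_antisymm hx (zdim_le a b E r _)

lemma Good.stable [DecidableEq J] (a b : J → ι) : Stable (Good a b) := by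
  intro p hp j
  have : Finite (Setoid ι) := by
    apply Finite.of_injective (fun r : Setoid ι => fun u v => r u v)
    intro r s h
    exact Setoid.ext fun u v => by rw [show r u v = s u v from congrFun (congrFun h u) v]
  have h1 : ∀ᵐ x : E3 ∂volume, ∀ q : Finset J × Setoid ι,
      finrank ℝ (Z a b q.1 q.2 (Function.update p j x)) = zdim a b q.1 q.2 :=
    ae_all_iff.2 fun q => stable_aux a b q.1 q.2 p (hp q.1 q.2) j
  filter_upwards [h1] with x hx
  exact fun E r => hx (E, r)

lemma exists_good (a b : J → ι) : ∃ p, Good a b p := by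
  classical
  have : Finite (Setoid ι) := by
    apply Finite.of_injective (fun r : Setoid ι => fun u v => r u v)
    intro r s h
    exact Setoid.ext fun u v => by rw [show r u v = s u v from congrFun (congrFun h u) v]
  obtain ⟨p, hp⟩ := exists_common (C := Finset J × Setoid ι)
    (fun q p => finrank ℝ (Z a b q.1 q.2 p) = zdim a b q.1 q.2)
    (fun q => stable_aux a b q.1 q.2)
    (fun q => Nat.sInf_mem (Set.range_nonempty _))
  exact ⟨p, fun E r => hp (E, r)⟩

end

end Pool.Agent.BJ
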