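import Pool.Agent.Lib.MP_37c7bf_BJ.Rank

/-!
Bodies with ball joints and bars.  The joints and the end points of the bars are the elements of
`V`; the point `x` lies on the bodies `a x` and `b x` (equal if `x` lies on one body only).  The
graph `L` is the graph of bars; its edges join points lying on one body only.
-/

open MeasureTheory Module Topology
open scoped RealInnerProductSpace

namespace Pool.Agent.BJ

open Pool.Agent.H26R (E3 crossE)

/-! ### Affine families of linear maps -/

/-- The linear maps `A x` depend on `x` in an affine way. -/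
def IsAff {X Y Z' : Type*} [AddCommGroup X] [Module ℝ X] [AddCommGroup Y] [Module ℝ Y]
    [AddCommGroup Z'] [Module ℝ Z'] (A : X → (Y →ₗ[ℝ] Z')) : Prop :=
  ∃ (L0 : Y →ₗ[ℝ] Z') (L : X →ₗ[ℝ] Y →ₗ[ℝ] Z'), ∀ x, A x = L0 + L x

section
variable {X Y Z' Z'' : Type*} [AddCommGroup X] [Module ℝ X] [AddCommGroup Y] [Module ℝ Y]
    [AddCommGroup Z'] [Module ℝ Z'] [AddCommGroup Z''] [Module ℝ Z'']

lemma IsAff.const (A : Y →ₗ[ℝ] Z') : IsAff (fun _ : X => A) :=
  ⟨A, 0, fun x => by simp⟩

lemma IsAff.add {A B : X → (Y →ₗ[ℝ] Z')} (hA : IsAff A) (hB : IsAff B) :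
    IsAff (fun x => A x + B x) := by
  obtain ⟨A0, A1, hA⟩ := hA
  obtain ⟨B0, B1, hB⟩ := hB
  refine ⟨A0 + B0, A1 + B1, fun x => ?_⟩
  change A x + B x = _
  rw [hA, hB, LinearMap.add_apply]
  abel

lemma IsAff.prod {A : X → (Y →ₗ[ℝ] Z')} {B : X → (Y →ₗ[ℝ] Z'')} (hA : IsAff A) (hB : IsAff B) :
    IsAff (fun x => (A x).prod (B x)) := by
  obtain ⟨A0, A1, hA⟩ := hA
  obtain ⟨B0, B1, hB⟩ := hB
  refine ⟨A0.prod B0, LinearMap.mk₂ ℝ (fun x S => (A1 x S, B1 x S)) (by intros; simp)
    (by intros; simp) (by intros; simp) (by intros; simp), fun x => ?_⟩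
  change (A x).prod (B x) = _
  rw [hA, hB]
  apply LinearMap.ext
  intro S
  rfl

lemma IsAff.pi {K : Type*} {A : K → X → (Y →ₗ[ℝ] Z')} (hA : ∀ k, IsAff (A k)) :
    IsAff (fun x => LinearMap.pi fun k => A k x) := by
  choose A0 A1 hA using hA
  refine ⟨LinearMap.pi A0, LinearMap.mk₂ ℝ (fun x S k => A1 k x S) (by intros; ext; simp)
    (by intros; ext; simp) (by intros; ext; simp) (by intros; ext; simp), fun x => ?_⟩
  apply LinearMap.ext
  intro S
  funext k
  change A k x S = A0 k S + A1 k x S
  rw [hA]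
  rfl

end

lemma IsAff.ae {Y Z' : Type*} [AddCommGroup Y] [Module ℝ Y] [FiniteDimensional ℝ Y]
    [AddCommGroup Z'] [Module ℝ Z'] {A : E3 → (Y →ₗ[ℝ] Z')} (hA : IsAff A) (p₀ : E3) :
    ∀ᵐ p : E3 ∂volume, finrank ℝ (LinearMap.ker (A p)) ≤ finrank ℝ (LinearMap.ker (A p₀)) := by
  obtain ⟨L0, L, h⟩ := hA
  have := ae_finrank_ker_affine (volume : Measure E3) L0 L p₀
  filter_upwards [this] with p hp
  rw [h, h]
  exact hp

section
variable {ι V : Type}

lemma IsAff.ev_comp (f : (ι → Kil) →ₗ[ℝ] Kil) : IsAff (fun x : E3 => (ev x).comp f) := by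
  refine ⟨(LinearMap.snd ℝ E3 E3).comp f, evB.compl₂ f, fun x => ?_⟩
  change (ev x).comp f = _
  rw [ev_eq, LinearMap.add_comp]
  rfl

/-- The length condition of a bar from the point `X` on the body `u` to the point `Y` on the
body `v`. -/
noncomputable def barf (X Y : E3) (u v : ι) : (ι → Kil) →ₗ[ℝ] ℝ :=
  (innerₛₗ ℝ (X - Y)).comp ((ev X).comp (LinearMap.proj (R := ℝ) (φ := fun _ : ι => Kil) u) -
    (ev Y).comp (LinearMap.proj v))

lemma barf_apply (X Y : E3) (u v : ι) (S : ι → Kil) :
    barf X Y u v S = ⟪ev X (S u) - ev Y (S v), X - Y⟫ := by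
  rw [real_inner_comm]
  rfl

lemma barf_symm (X Y : E3) (u v : ι) : barf X Y u v = barf Y X v u := by
  apply LinearMap.ext
  intro S
  rw [barf_apply, barf_apply, ← neg_sub (ev Y (S v)), ← neg_sub Y X, inner_neg_neg]

lemma barf_affine (Y : E3) (u v : ι) : IsAff (fun X : E3 => barf X Y u v) := by
  refine ⟨⟨⟨fun S => -⟪(S u).2 - ev Y (S v), Y⟫, ?_⟩, ?_⟩,
    LinearMap.mk₂ ℝ (fun X S => ⟪(S u).2 - ev Y (S v), X⟫ - ⟪crossE (S u).1 X, Y⟫) ?_ ?_ ?_ ?_,
    fun X => ?_⟩
  · intro S T
    simp only [Pi.add_apply, Prod.snd_add, map_add, inner_sub_left, inner_add_left]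
    ring
  · intro c S
    simp only [Pi.smul_apply, Prod.smul_snd, map_smul, inner_sub_left, real_inner_smul_left,
      smul_eq_mul, RingHom.id_apply]
    ring
  · intro X X' S
    simp only [inner_add_right, Pool.Agent.H26R.crossE_add_right, inner_add_left]
    ring
  · intro c X S
    simp only [real_inner_smul_right, Pool.Agent.H26R.crossE_smul_right, real_inner_smul_left,
      smul_eq_mul]
    ring
  · intro X S T
    simp only [Pi.add_apply, Prod.snd_add, Prod.fst_add, map_add, inner_sub_left, inner_add_left,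
      Pool.Agent.H26R.crossE_add_left]
    ring
  · intro c X S
    simp only [Pi.smul_apply, Prod.smul_snd, Prod.smul_fst, map_smul, inner_sub_left,
      real_inner_smul_left, Pool.Agent.H26R.crossE_smul_left, smul_eq_mul]
    ring
  · apply LinearMap.ext
    intro S
    rw [barf_apply, LinearMap.add_apply, LinearMap.mk₂_apply]
    change _ = -⟪(S u).2 - ev Y (S v), Y⟫ + (⟪(S u).2 - ev Y (S v), X⟫ - ⟪crossE (S u).1 X, Y⟫)
    have h : ⟪crossE (S u).1 X, X⟫ = 0 := by
      rw [real_inner_comm]
      exact Pool.Agent.H26R.inner_crossE_self _ _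
    rw [ev_apply X]
    simp only [inner_sub_left, inner_sub_right, inner_add_left]
    rw [h]
    ring

open Classical in
/-- The equations of the bars. -/
noncomputable def beq (a : V → ι) (L : SimpleGraph V) (p : V → E3) :
    (ι → Kil) →ₗ[ℝ] (V × V → ℝ) :=
  LinearMap.pi fun q => if L.Adj q.1 q.2 then barf (p q.1) (p q.2) (a q.1) (a q.2) else 0

open Classical in
lemma beq_apply (a : V → ι) (L : SimpleGraph V) (p : V → E3) (S : ι → Kil) (q : V × V) :
    beq a L p S q = if L.Adj q.1 q.2 then
      ⟪ev (p q.1) (S (a q.1)) - ev (p q.2) (S (a q.2)), p q.1 - p q.2⟫ else 0 := by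
  unfold beq
  rw [LinearMap.pi_apply]
  split_ifs
  · rw [barf_apply]
  · rfl

lemma beq_affine [DecidableEq V] (a : V → ι) (L : SimpleGraph V) (p : V → E3) (j : V) :
    IsAff (fun x : E3 => beq a L (Function.update p j x)) := by
  classical
  refine IsAff.pi fun q => ?_
  by_cases h : L.Adj q.1 q.2
  · simp only [h, if_true]
    by_cases h1 : q.1 = j
    · have h2 : q.2 ≠ j := fun h2 => h.ne (h1.trans h2.symm)
      simp only [h1, Function.update_self, Function.update_of_ne h2]
      exact barf_affine _ _ _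
    · by_cases h2 : q.2 = j
      · simp only [h2, Function.update_self, Function.update_of_ne h1]
        simp only [barf_symm (p q.1)]
        exact barf_affine _ _ _
      · simp only [Function.update_of_ne h1, Function.update_of_ne h2]
        exact IsAff.const _
  · simp only [h, if_false]
    exact IsAff.const _

lemma jeq_affine [DecidableEq V] (a b : V → ι) (E : Finset V) (p : V → E3) (j : V) :
    IsAff (fun x : E3 => jeq a b E (Function.update p j x)) := by
  classical
  refine IsAff.pi fun k => ?_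
  by_cases h : k ∈ E
  · simp only [h, if_true]
    by_cases h1 : k = j
    · subst h1
      simp only [Function.update_self]
      exact IsAff.ev_comp _
    · simp only [Function.update_of_ne h1]
      exact IsAff.const _
  · simp only [h, if_false]
    exact IsAff.const _

end

/-- Codimension count for finitely many linear functionals. -/
lemma finrank_inf_functionals {F : Type*} (W : Submodule ℝ Kil) (φ : F → Kil →ₗ[ℝ] ℝ)
    (B : Finset F) :
    finrank ℝ W ≤ finrank ℝ ↥(W ⊓ ⨅ f ∈ B, LinearMap.ker (φ f)) + B.card := by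
  classical
  induction B using Finset.induction_on with
  | empty =>
    have h1 : W ⊓ ⨅ f ∈ (∅ : Finset F), LinearMap.ker (φ f) = W := by simp
    rw [h1]
    simp
  | insert f B hf ih =>
    rw [Finset.card_insert_of_notMem hf, Finset.iInf_insert]
    have h1 : W ⊓ (LinearMap.ker (φ f) ⊓ ⨅ f ∈ B, LinearMap.ker (φ f)) =
        (W ⊓ ⨅ f ∈ B, LinearMap.ker (φ f)) ⊓ LinearMap.ker (φ f) := by
      rw [inf_comm (LinearMap.ker (φ f)), inf_assoc]
    rw [h1]
    have h2 := finrank_inf_ker (W ⊓ ⨅ f ∈ B, LinearMap.ker (φ f)) (φ f)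
    have h3 := LinearMap.finrank_range_add_finrank_ker
      ((φ f).comp (W ⊓ ⨅ f ∈ B, LinearMap.ker (φ f)).subtype)
    have h4 : finrank ℝ (LinearMap.range
        ((φ f).comp (W ⊓ ⨅ f ∈ B, LinearMap.ker (φ f)).subtype)) ≤ 1 := by
      refine (Submodule.finrank_le _).trans ?_
      rw [finrank_self]
    omega

section
variable {ι V : Type} [Fintype V]

/-- Motions of the structure with bars. -/
noncomputable def ZB (a b : V → ι) (L : SimpleGraph V) (r : Setoid ι) (p : V → E3) :
    Submodule ℝ (ι → Kil) where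
  carrier := {S | S ∈ Z a b Finset.univ r p ∧
    ∀ x y, L.Adj x y → ⟪ev (p x) (S (a x)) - ev (p y) (S (a y)), p x - p y⟫ = 0}
  add_mem' := by
    rintro S T ⟨h1, h2⟩ ⟨h3, h4⟩
    refine ⟨Submodule.add_mem _ h1 h3, fun x y h => ?_⟩
    rw [Pi.add_apply, Pi.add_apply, map_add, map_add, add_sub_add_comm, inner_add_left,
      h2 x y h, h4 x y h, add_zero]
  zero_mem' := ⟨Submodule.zero_mem _, fun x y _ => by simp⟩
  smul_mem' := by
    rintro c S ⟨h1, h2⟩
    refine ⟨Submodule.smul_mem _ c h1, fun x y h => ?_⟩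
    rw [Pi.smul_apply, Pi.smul_apply, map_smul, map_smul, ← smul_sub, real_inner_smul_left,
      h2 x y h, mul_zero]

lemma mem_ZB {a b : V → ι} {L : SimpleGraph V} {r : Setoid ι} {p : V → E3} {S : ι → Kil} :
    S ∈ ZB a b L r p ↔ S ∈ Z a b Finset.univ r p ∧
      ∀ x y, L.Adj x y → ⟪ev (p x) (S (a x)) - ev (p y) (S (a y)), p x - p y⟫ = 0 := Iff.rfl

/-- The least dimension of the space of motions with bars. -/
noncomputable def zB (a b : V → ι) (L : SimpleGraph V) (r : Setoid ι) : ℕ :=
  sInf (Set.range fun p : V → E3 => finrank ℝ (ZB a b L r p))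

/-- Positions for which all spaces of motions with bars have least dimension. -/
def GoodB (a b : V → ι) (p : V → E3) : Prop :=
  ∀ L r, finrank ℝ (ZB a b L r p) = zB a b L r

open Classical in
/-- The number of bars between the two classes of the pair `e`. -/
noncomputable def ff (a : V → ι) (L : SimpleGraph V) (r : Setoid ι) (e : Sym2 (Quotient r)) : ℕ :=
  (Finset.univ.filter fun f : Sym2 V => f ∈ L.edgeSet ∧
    Sym2.map (fun x => Quotient.mk r (a x)) f = e).card

open Classical in
/-- The expected dimension with bars. -/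
noncomputable def valB [Fintype ι] (a b : V → ι) (L : SimpleGraph V) (r : Setoid ι) : ℤ :=
  6 * (Fintype.card (Quotient r) : ℤ) -
    ∑ e : Sym2 (Quotient r), if e.IsDiag then 0 else
      min 6 (hh (dd a b Finset.univ r e) + ff a L r e)


omit [Fintype V] in
lemma mem_ker_beq {a : V → ι} {L : SimpleGraph V} {p : V → E3} {S : ι → Kil} :
    S ∈ LinearMap.ker (beq a L p) ↔
      ∀ x y, L.Adj x y → ⟪ev (p x) (S (a x)) - ev (p y) (S (a y)), p x - p y⟫ = 0 := by
  classical
  rw [LinearMap.mem_ker]
  constructor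
  · intro h x y hxy
    have h1 := congrFun h (x, y)
    rw [beq_apply, if_pos hxy] at h1
    exact h1
  · intro h
    funext q
    rw [beq_apply]
    split_ifs with hq
    · exact h _ _ hq
    · rfl

lemma ZB_eq_ker (a b : V → ι) (L : SimpleGraph V) (r : Setoid ι) (p : V → E3) :
    ZB a b L r p =
      LinearMap.ker (((weq r).prod (jeq a b Finset.univ p)).prod (beq a L p)) := by
  ext S
  rw [LinearMap.ker_prod, Submodule.mem_inf, ← Z_eq_ker, mem_ker_beq, mem_ZB]

lemma zB_le (a b : V → ι) (L : SimpleGraph V) (r : Setoid ι) (p : V → E3) :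
    zB a b L r ≤ finrank ℝ (ZB a b L r p) :=
  Nat.sInf_le ⟨p, rfl⟩

lemma stableB_aux [Finite ι] [DecidableEq V] (a b : V → ι) (L : SimpleGraph V) (r : Setoid ι) :
    Stable (fun p => finrank ℝ (ZB a b L r p) = zB a b L r) := by
  intro p hp j
  have h : IsAff (fun x : E3 => ((weq r).prod (jeq a b Finset.univ (Function.update p j x))).prod
      (beq a L (Function.update p j x))) :=
    ((IsAff.const _).prod (jeq_affine a b Finset.univ p j)).prod (beq_affine a L p j)
  filter_upwards [h.ae (p j)] with x hx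
  rw [← ZB_eq_ker, ← ZB_eq_ker, Function.update_eq_self, hp] at hx
  exact le_antisymm hx (zB_le a b L r _)

lemma GoodB.stable [Finite ι] [DecidableEq V] (a b : V → ι) : Stable (GoodB a b) := by
  intro p hp j
  have : Finite (Setoid ι) := by
    apply Finite.of_injective (fun r : Setoid ι => fun u v => r u v)
    intro r s h
    exact Setoid.ext fun u v => by rw [show r u v = s u v from congrFun (congrFun h u) v]
  have h1 : ∀ᵐ x : E3 ∂volume, ∀ q : SimpleGraph V × Setoid ι,
      finrank ℝ (ZB a b q.1 q.2 (Function.update p j x)) = zB a b q.1 q.2 :=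
    ae_all_iff.2 fun q => stableB_aux a b q.1 q.2 p (hp q.1 q.2) j
  filter_upwards [h1] with x hx
  exact fun E r => hx (E, r)

lemma exists_goodB [Finite ι] (a b : V → ι) : ∃ p, GoodB a b p := by
  classical
  have : Finite (Setoid ι) := by
    apply Finite.of_injective (fun r : Setoid ι => fun u v => r u v)
    intro r s h
    exact Setoid.ext fun u v => by rw [show r u v = s u v from congrFun (congrFun h u) v]
  obtain ⟨p, hp⟩ := exists_common (C := SimpleGraph V × Setoid ι)
    (fun q p => finrank ℝ (ZB a b q.1 q.2 p) = zB a b q.1 q.2)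
    (fun q => stableB_aux a b q.1 q.2)
    (fun q => Nat.sInf_mem (Set.range_nonempty _))
  exact ⟨p, fun L r => hp (L, r)⟩

/-! ### The lower bound -/

lemma bar_cond (X Y : E3) (T T' : Kil) :
    ⟪ev X T - ev Y T', X - Y⟫ = ⟪ev X (T - T'), X - Y⟫ := by
  rw [inner_sub_left, ← ev_along T' X Y, ← inner_sub_left, ← map_sub]

open Classical in
omit [Fintype V] in
/-- The joints between two classes leave enough freedom. -/
lemma joint_bound (a b : V → ι) (E : Finset V) (r : Setoid ι) (p : V → E3)
    (e : Sym2 (Quotient r)) :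
    ∃ A : Submodule ℝ Kil, (∀ T ∈ A, ∀ j ∈ E, pr a b r j = e → ev (p j) T = 0) ∧
      (6 : ℤ) ≤ finrank ℝ A + hh (dd a b E r e) := by
  have hddcard : dd a b E r e = (E.filter fun j => pr a b r j = e).card := rfl
  by_cases h0 : dd a b E r e = 0
  · refine ⟨⊤, fun T _ j hj he => ?_, ?_⟩
    · exfalso
      have h2 : j ∈ E.filter fun j => pr a b r j = e := Finset.mem_filter.2 ⟨hj, he⟩
      rw [Finset.card_eq_zero.1 (hddcard.symm.trans h0)] at h2
      exact Finset.notMem_empty _ h2
    · rw [finrank_top, finrank_Kil, h0]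
      simp [hh]
  by_cases h1 : dd a b E r e = 1
  · obtain ⟨j1, hj1⟩ := Finset.card_eq_one.1 (hddcard.symm.trans h1)
    refine ⟨LinearMap.ker (ev (p j1)), fun T hT j hj he => ?_, ?_⟩
    · have h3 : j ∈ E.filter fun j => pr a b r j = e := Finset.mem_filter.2 ⟨hj, he⟩
      rw [hj1, Finset.mem_singleton] at h3
      rw [h3]
      exact hT
    · rw [finrank_ker_ev, h1]
      simp [hh]
  by_cases h2 : dd a b E r e = 2
  · obtain ⟨j1, j2, -, hj12⟩ := Finset.card_eq_two.1 (hddcard.symm.trans h2)
    refine ⟨LinearMap.ker (ev (p j1)) ⊓ LinearMap.ker (ev (p j2)), fun T hT j hj he => ?_, ?_⟩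
    · have h3 : j ∈ E.filter fun j => pr a b r j = e := Finset.mem_filter.2 ⟨hj, he⟩
      rw [hj12, Finset.mem_insert, Finset.mem_singleton] at h3
      rcases h3 with rfl | rfl
      · exact hT.1
      · exact hT.2
    · have h4 := one_le_finrank_inf (p j1) (p j2)
      rw [h2]
      simp only [hh]
      norm_num
      omega
  · refine ⟨⊥, fun T hT j hj he => ?_, ?_⟩
    · rw [(Submodule.mem_bot ℝ).1 hT, map_zero]
    · have h4 : hh (dd a b E r e) = 6 := by
        unfold hh
        rw [if_neg h0, if_neg h1, if_neg h2]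
      rw [h4]
      simp

/-- The bars between classes that form a pair in `F`. -/
def barsIn (a : V → ι) (L : SimpleGraph V) (r : Setoid ι) (F : Finset (Sym2 (Quotient r))) :
    SimpleGraph V where
  Adj x y := L.Adj x y ∧ s(Quotient.mk r (a x), Quotient.mk r (a y)) ∈ F
  symm := ⟨fun x y h => ⟨h.1.symm, by rw [Sym2.eq_swap]; exact h.2⟩⟩
  loopless := ⟨fun _ h => h.1.ne rfl⟩

open Classical in
/-- The motions when only the joints and the bars between the pairs in `F` are active. -/
noncomputable def WF (a b : V → ι) (L : SimpleGraph V) (r : Setoid ι) (p : V → E3)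
    (F : Finset (Sym2 (Quotient r))) : Submodule ℝ (ι → Kil) :=
  Z a b (Finset.univ.filter fun j => pr a b r j ∈ F) r p ⊓
    LinearMap.ker (beq a (barsIn a L r F) p)

lemma mem_WF {a b : V → ι} {L : SimpleGraph V} {r : Setoid ι} {p : V → E3}
    {F : Finset (Sym2 (Quotient r))} {S : ι → Kil} :
    S ∈ WF a b L r p F ↔ (∀ u v, r u v → S u = S v) ∧
      (∀ j, pr a b r j ∈ F → ev (p j) (S (a j)) = ev (p j) (S (b j))) ∧
      ∀ x y, L.Adj x y → s(Quotient.mk r (a x), Quotient.mk r (a y)) ∈ F →
        ⟪ev (p x) (S (a x)) - ev (p y) (S (a y)), p x - p y⟫ = 0 := by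
  classical
  unfold WF
  rw [Submodule.mem_inf, mem_ker_beq, mem_Z]
  constructor
  · rintro ⟨⟨h1, h2⟩, h3⟩
    exact ⟨h1, fun j hj => h2 j (Finset.mem_filter.2 ⟨Finset.mem_univ j, hj⟩),
      fun x y hxy hF => h3 x y ⟨hxy, hF⟩⟩
  · rintro ⟨h1, h2, h3⟩
    exact ⟨⟨h1, fun j hj => h2 j (Finset.mem_filter.1 hj).2⟩, fun x y h => h3 x y h.1 h.2⟩

lemma WF_univ [Fintype ι] (a b : V → ι) (L : SimpleGraph V) (r : Setoid ι) (p : V → E3)
    [Fintype (Quotient r)] [DecidableEq (Quotient r)] :
    WF a b L r p Finset.univ = ZB a b L r p := by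
  ext S
  rw [mem_WF, mem_ZB, mem_Z]
  constructor
  · rintro ⟨h1, h2, h3⟩
    exact ⟨⟨h1, fun j _ => h2 j (Finset.mem_univ _)⟩, fun x y h => h3 x y h (Finset.mem_univ _)⟩
  · rintro ⟨⟨h1, h2⟩, h3⟩
    exact ⟨h1, fun j _ => h2 j (Finset.mem_univ _), fun x y h _ => h3 x y h⟩

lemma WF_empty (a b : V → ι) (L : SimpleGraph V) (r : Setoid ι) (p : V → E3) :
    WF a b L r p ∅ = Z a b ∅ r p := by
  ext S
  rw [mem_WF, mem_Z]
  constructor
  · rintro ⟨h1, -, -⟩
    exact ⟨h1, fun j hj => absurd hj (Finset.notMem_empty j)⟩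
  · rintro ⟨h1, -⟩
    exact ⟨h1, fun j hj => absurd hj (Finset.notMem_empty _),
      fun x y _ h => absurd h (Finset.notMem_empty _)⟩

open Classical in
lemma bars_step [Finite ι] (a b : V → ι) (L : SimpleGraph V) (r : Setoid ι) (p : V → E3)
    (e : Sym2 (Quotient r)) (F : Finset (Sym2 (Quotient r))) :
    (finrank ℝ (WF a b L r p F) : ℤ) ≤ finrank ℝ (WF a b L r p (insert e F)) +
      if e.IsDiag then 0 else min 6 (hh (dd a b Finset.univ r e) + ff a L r e) := by
  have hmem : ∀ S : ι → Kil, S ∈ WF a b L r p (insert e F) ↔ S ∈ WF a b L r p F ∧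
      (∀ j, pr a b r j = e → ev (p j) (S (a j)) = ev (p j) (S (b j))) ∧
      ∀ x y, L.Adj x y → s(Quotient.mk r (a x), Quotient.mk r (a y)) = e →
        ⟪ev (p x) (S (a x)) - ev (p y) (S (a y)), p x - p y⟫ = 0 := by
    intro S
    rw [mem_WF, mem_WF]
    constructor
    · rintro ⟨h1, h2, h3⟩
      exact ⟨⟨h1, fun j hj => h2 j (Finset.mem_insert_of_mem hj),
        fun x y hxy hF => h3 x y hxy (Finset.mem_insert_of_mem hF)⟩,
        fun j hj => h2 j (hj ▸ Finset.mem_insert_self _ _),
        fun x y hxy he => h3 x y hxy (he ▸ Finset.mem_insert_self _ _)⟩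
    · rintro ⟨⟨h1, h2, h3⟩, h4, h5⟩
      refine ⟨h1, fun j hj => ?_, fun x y hxy hF => ?_⟩
      · rcases Finset.mem_insert.1 hj with h | h
        · exact h4 j h
        · exact h2 j h
      · rcases Finset.mem_insert.1 hF with h | h
        · exact h5 x y hxy h
        · exact h3 x y hxy h
  obtain ⟨u0, v0, he0⟩ : ∃ u0 v0 : ι, e = s(Quotient.mk r u0, Quotient.mk r v0) := by
    induction e using Sym2.ind with
    | _ C D =>
      obtain ⟨u0, rfl⟩ := Quotient.exists_rep C
      obtain ⟨v0, rfl⟩ := Quotient.exists_rep D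
      exact ⟨u0, v0, rfl⟩
  by_cases hd : e.IsDiag
  · rw [if_pos hd, add_zero]
    have h1 : WF a b L r p (insert e F) = WF a b L r p F := by
      ext S
      rw [hmem]
      refine ⟨fun h => h.1, fun h => ⟨h, fun j he => ?_, fun x y hxy he => ?_⟩⟩
      · have h2 : Quotient.mk r (a j) = Quotient.mk r (b j) := by
          rw [← he] at hd
          exact Sym2.mk_isDiag_iff.1 hd
        rw [(mem_WF.1 h).1 _ _ (Quotient.exact h2)]
      · have h2 : Quotient.mk r (a x) = Quotient.mk r (a y) := by
          rw [← he] at hd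
          exact Sym2.mk_isDiag_iff.1 hd
        rw [(mem_WF.1 h).1 _ _ (Quotient.exact h2), bar_cond, sub_self, map_zero,
          inner_zero_left]
    rw [h1]
  rw [if_neg hd]
  let g : (ι → Kil) →ₗ[ℝ] Kil :=
    LinearMap.proj (R := ℝ) (φ := fun _ : ι => Kil) u0 - LinearMap.proj v0
  have hg : ∀ S : ι → Kil, g S = S u0 - S v0 := fun _ => rfl
  have hmain : ∀ A : Submodule ℝ Kil, (∀ T ∈ A, (∀ j, pr a b r j = e → ev (p j) T = 0) ∧
      ∀ x y, L.Adj x y → s(Quotient.mk r (a x), Quotient.mk r (a y)) = e →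
        ⟪ev (p x) T, p x - p y⟫ = 0) →
      finrank ℝ (WF a b L r p F) + finrank ℝ A ≤ finrank ℝ (WF a b L r p (insert e F)) + 6 := by
    intro A hA
    refine (finrank_inf_comap (WF a b L r p F) g A).trans ?_
    have h1 : WF a b L r p F ⊓ A.comap g ≤ WF a b L r p (insert e F) := by
      rintro S ⟨h1, h2⟩
      rw [hmem]
      obtain ⟨h3, h4⟩ := hA _ h2
      have hS := (mem_WF.1 h1).1
      refine ⟨h1, fun j hj => ?_, fun x y hxy he => ?_⟩
      · have h5 := h3 j hj
        rw [hg, map_sub, sub_eq_zero] at h5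
        have h6 : s(Quotient.mk r (a j), Quotient.mk r (b j)) =
          s(Quotient.mk r u0, Quotient.mk r v0) := hj.trans he0
        rcases Sym2.eq_iff.1 h6 with ⟨h7, h8⟩ | ⟨h7, h8⟩
        · rw [hS _ _ (Quotient.exact h7), hS _ _ (Quotient.exact h8), h5]
        · rw [hS _ _ (Quotient.exact h7), hS _ _ (Quotient.exact h8), h5]
      · have h5 := h4 x y hxy he
        rw [hg] at h5
        have h6 := he.trans he0
        rw [bar_cond]
        rcases Sym2.eq_iff.1 h6 with ⟨h7, h8⟩ | ⟨h7, h8⟩
        · rw [hS _ _ (Quotient.exact h7), hS _ _ (Quotient.exact h8), h5]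
        · rw [hS _ _ (Quotient.exact h7), hS _ _ (Quotient.exact h8), ← neg_sub, map_neg,
            inner_neg_left, h5, neg_zero]
    have h2 := Submodule.finrank_mono h1
    omega
  have hb1 := hmain ⊥ (by
    intro T hT
    rw [(Submodule.mem_bot ℝ).1 hT]
    exact ⟨fun j _ => map_zero _, fun x y _ _ => by rw [map_zero, inner_zero_left]⟩)
  rw [finrank_bot] at hb1
  obtain ⟨A1, hA1, hA1d⟩ := joint_bound a b Finset.univ r p e
  set B : Finset (Sym2 V) := Finset.univ.filter fun f : Sym2 V => f ∈ L.edgeSet ∧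
    Sym2.map (fun x => Quotient.mk r (a x)) f = e with hB
  have hBc : ff a L r e = B.card := rfl
  let φ : Sym2 V → Kil →ₗ[ℝ] ℝ := fun f =>
    (innerₛₗ ℝ (p (Quot.out f).1 - p (Quot.out f).2)).comp (ev (p (Quot.out f).1))
  have hφ : ∀ f T, φ f T = ⟪ev (p (Quot.out f).1) T, p (Quot.out f).1 - p (Quot.out f).2⟫ := by
    intro f T
    rw [real_inner_comm]
    rfl
  have h3 := finrank_inf_functionals A1 φ B
  have hb2 := hmain (A1 ⊓ ⨅ f ∈ B, LinearMap.ker (φ f)) (by
    intro T hT
    rw [Submodule.mem_inf] at hT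
    refine ⟨fun j hj => hA1 T hT.1 j (Finset.mem_univ j) hj, fun x y hxy he => ?_⟩
    have h4 : s(x, y) ∈ B := by
      rw [hB, Finset.mem_filter]
      exact ⟨Finset.mem_univ _, hxy, by rw [Sym2.map_mk]; exact he⟩
    have h5 : T ∈ LinearMap.ker (φ s(x, y)) := by
      have h6 := hT.2
      rw [Submodule.mem_iInf] at h6
      have h7 := h6 s(x, y)
      rw [Submodule.mem_iInf] at h7
      exact h7 h4
    rw [LinearMap.mem_ker, hφ] at h5
    have h6 : s((Quot.out s(x, y)).1, (Quot.out s(x, y)).2) = s(x, y) := Quot.out_eq s(x, y)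
    rcases Sym2.eq_iff.1 h6 with ⟨h7, h8⟩ | ⟨h7, h8⟩
    · rw [h7, h8] at h5
      exact h5
    · rw [h7, h8] at h5
      rw [ev_along, ← neg_sub (p y) (p x), inner_neg_right, h5, neg_zero])
  rw [hBc]
  have h4 : (6 : ℤ) ≤ finrank ℝ ↥(A1 ⊓ ⨅ f ∈ B, LinearMap.ker (φ f)) +
      (hh (dd a b Finset.univ r e) + B.card) := by
    have : (finrank ℝ A1 : ℤ) ≤ finrank ℝ ↥(A1 ⊓ ⨅ f ∈ B, LinearMap.ker (φ f)) + B.card := by
      exact_mod_cast h3
    linarith
  have h5 : (finrank ℝ (WF a b L r p F) : ℤ) ≤ finrank ℝ (WF a b L r p (insert e F)) + 6 := by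
    exact_mod_cast hb1
  have h6 : (finrank ℝ (WF a b L r p F) : ℤ) + finrank ℝ ↥(A1 ⊓ ⨅ f ∈ B, LinearMap.ker (φ f)) ≤
      finrank ℝ (WF a b L r p (insert e F)) + 6 := by
    exact_mod_cast hb2
  rcases le_total (6 : ℤ) (hh (dd a b Finset.univ r e) + B.card) with h7 | h7
  · rw [min_eq_left h7]
    exact h5
  · rw [min_eq_right h7]
    linarith

/-- Lower bound, valid for all graphs of bars. -/
theorem valB_le [Fintype ι] (a b : V → ι) (L : SimpleGraph V)
    (hL : ∀ x y, L.Adj x y → a x = b x) (r : Setoid ι) (p : V → E3) :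
    valB a b L r ≤ finrank ℝ (ZB a b L r p) := by
  classical
  have key : ∀ F : Finset (Sym2 (Quotient r)),
      (finrank ℝ (Z a b ∅ r p) : ℤ) ≤ finrank ℝ (WF a b L r p F) +
          ∑ e ∈ F, if e.IsDiag then 0 else min 6 (hh (dd a b Finset.univ r e) + ff a L r e) := by
    intro F
    induction F using Finset.induction_on with
    | empty =>
      rw [WF_empty]
      simp
    | insert e F he ih =>
      rw [Finset.sum_insert he]
      have h1 := bars_step a b L r p e F
      linarith
  have h1 := key Finset.univ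
  rw [WF_univ, finrank_Z_empty, Nat.card_eq_fintype_card] at h1
  unfold valB
  push_cast at h1
  linarith

/-- A finite acyclic graph with an edge has a leaf. -/
lemma exists_leaf (L : SimpleGraph V) (hac : L.IsAcyclic) (hne : L ≠ ⊥) :
    ∃ x y, L.Adj x y ∧ ∀ z, L.Adj y z → z = x := by
  obtain ⟨u0, v0, h0⟩ := SimpleGraph.ne_bot_iff_exists_adj.1 hne
  have : Nonempty V := ⟨u0⟩
  have ⟨u, v, p, hp, hmax⟩ := SimpleGraph.Walk.exists_isPath_forall_isPath_length_le_length L
  have hnil : ¬p.Nil := by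
    intro hnil
    have h1 := hmax u0 v0 _ (SimpleGraph.Path.singleton h0).2
    rw [SimpleGraph.Walk.length_eq_zero_iff.2 hnil] at h1
    simp at h1
  refine ⟨p.snd, u, (p.adj_snd hnil).symm, fun w hadj => ?_⟩
  apply hac.eq_snd_of_adj_start hp hadj
  have : ¬(p.cons hadj.symm).IsPath := by grind [SimpleGraph.Walk.length_cons]
  grind [hp.cons]

/-! ### The rank formula with bars (BARS2) -/

lemma mem_ZB_weld {a b : V → ι} {L : SimpleGraph V} {r : Setoid ι} {p : V → E3} {u v : ι}
    {S : ι → Kil} : S ∈ ZB a b L (weld r u v) p ↔ S ∈ ZB a b L r p ∧ S u = S v := by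
  rw [mem_ZB, mem_ZB, mem_Z_weld]
  tauto

lemma ZB_mono {a b : V → ι} {L L' : SimpleGraph V} {r s : Setoid ι} {p : V → E3} (hL : L' ≤ L)
    (hr : r ≤ s) : ZB a b L s p ≤ ZB a b L' r p := by
  intro S hS
  rw [mem_ZB] at hS ⊢
  exact ⟨Z_mono (Finset.Subset.refl _) hr hS.1, fun x y h => hS.2 x y (hL h)⟩

/-- The positions of points lying on one body only and on no bar do not matter. -/
lemma ZB_congr {a b : V → ι} {L : SimpleGraph V} {r : Setoid ι} {p q : V → E3}
    (h : ∀ x, p x = q x ∨ (a x = b x ∧ ∀ y, ¬ L.Adj x y)) : ZB a b L r p = ZB a b L r q := by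
  have key : ∀ p q : V → E3, (∀ x, p x = q x ∨ (a x = b x ∧ ∀ y, ¬ L.Adj x y)) →
      ZB a b L r p ≤ ZB a b L r q := by
    intro p q h S hS
    rw [mem_ZB, mem_Z] at hS ⊢
    obtain ⟨⟨h1, h2⟩, h3⟩ := hS
    refine ⟨⟨h1, fun j hj => ?_⟩, fun x y hxy => ?_⟩
    · rcases h j with hj' | ⟨hj', -⟩
      · rw [← hj']
        exact h2 j hj
      · rw [hj']
    · have hx : p x = q x := (h x).resolve_right fun h' => h'.2 y hxy
      have hy : p y = q y := (h y).resolve_right fun h' => h'.2 x hxy.symm
      rw [← hx, ← hy]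
      exact h3 x y hxy
  refine le_antisymm (key p q h) (key q p fun x => ?_)
  rcases h x with h' | h'
  · exact Or.inl h'.symm
  · exact Or.inr h'

lemma bar_eq_inner (A B : Kil) (x y : E3) :
    ⟪ev x A - ev y B, x - y⟫ = ⟪ev x (A - B), x - y⟫ := by
  rw [map_sub, inner_sub_left, inner_sub_left, ← ev_along B x y]

lemma bar_symm (A B : Kil) (x y : E3) :
    ⟪ev x A - ev y B, x - y⟫ = ⟪ev y B - ev x A, y - x⟫ := by
  rw [← neg_sub (ev y B), ← neg_sub y, inner_neg_neg]

lemma mem_ZB_del {a b : V → ι} {L : SimpleGraph V} {r : Setoid ι} {p : V → E3} {x y : V}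
    (hxy : L.Adj x y) {S : ι → Kil} :
    S ∈ ZB a b L r p ↔ S ∈ ZB a b (L.deleteEdges {s(x, y)}) r p ∧
      ⟪ev (p x) (S (a x)) - ev (p y) (S (a y)), p x - p y⟫ = 0 := by
  constructor
  · intro hS
    exact ⟨ZB_mono (SimpleGraph.deleteEdges_le _) le_rfl hS, hS.2 x y hxy⟩
  · rintro ⟨hS, h⟩
    refine ⟨hS.1, fun u v huv => ?_⟩
    by_cases he : s(u, v) = s(x, y)
    · rw [Sym2.eq_iff] at he
      rcases he with ⟨rfl, rfl⟩ | ⟨rfl, rfl⟩
      · exact h
      · rw [bar_symm]
        exact h
    · exact hS.2 u v (SimpleGraph.deleteEdges_adj.2 ⟨huv, he⟩)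

/-- A vector orthogonal to almost all vectors from a point is zero. -/
lemma eq_zero_of_ae_inner {v c : E3} (h : ∀ᵐ t : E3 ∂volume, ⟪v, c - t⟫ = 0) : v = 0 := by
  have h1 : ∀ᵐ t : E3 ∂volume, ⟪v, c - (t + v)⟫ = 0 :=
    (measurePreserving_add_right (volume : Measure E3) v).quasiMeasurePreserving.ae h
  obtain ⟨t, ht, ht'⟩ := (h.and h1).exists
  have h2 : ⟪v, v⟫ = 0 := by
    have h3 : ⟪v, c - t⟫ - ⟪v, c - (t + v)⟫ = ⟪v, v⟫ := by
      rw [← inner_sub_right]
      congr 1
      abel
    rw [← h3, ht, ht', sub_zero]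
  exact inner_self_eq_zero.1 h2

/-- The image of a subspace cut out by one equation loses at most one dimension. -/
lemma finrank_map_inf_ker {Y T : Type*} [AddCommGroup Y] [Module ℝ Y] [FiniteDimensional ℝ Y]
    [AddCommGroup T] [Module ℝ T] (K : Submodule ℝ Y) (φ : Y →ₗ[ℝ] T) (l : Y →ₗ[ℝ] ℝ) :
    finrank ℝ (K.map φ) ≤ finrank ℝ ((K ⊓ LinearMap.ker l).map φ) + 1 := by
  by_cases h : ∃ v ∈ K, l v ≠ 0
  · obtain ⟨v, hv, hlv⟩ := h
    have h1 : K.map φ ≤ (K ⊓ LinearMap.ker l).map φ ⊔ Submodule.span ℝ {φ v} := by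
      rintro _ ⟨u, hu, rfl⟩
      rw [Submodule.mem_sup]
      refine ⟨φ (u - (l u / l v) • v), ⟨_, ⟨K.sub_mem hu (K.smul_mem _ hv), ?_⟩, rfl⟩,
        (l u / l v) • φ v, Submodule.smul_mem _ _ (Submodule.mem_span_singleton_self _), ?_⟩
      · rw [SetLike.mem_coe, LinearMap.mem_ker, map_sub, map_smul, smul_eq_mul,
          div_mul_cancel₀ _ hlv, sub_self]
      · rw [map_sub, map_smul, sub_add_cancel]
    calc finrank ℝ (K.map φ)
        ≤ finrank ℝ ↥((K ⊓ LinearMap.ker l).map φ ⊔ Submodule.span ℝ {φ v}) :=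
          Submodule.finrank_mono h1
      _ ≤ finrank ℝ ((K ⊓ LinearMap.ker l).map φ) + finrank ℝ (Submodule.span ℝ {φ v}) :=
          Submodule.finrank_add_le_finrank_add_finrank _ _
      _ ≤ _ := by
          have := finrank_span_le_card (R := ℝ) ({φ v} : Set T)
          simp only [Set.toFinset_singleton, Finset.card_singleton] at this
          omega
  · push Not at h
    have h1 : K ⊓ LinearMap.ker l = K := inf_eq_left.2 fun v hv => h v hv
    rw [h1]
    omega

section
variable [Finite ι] {a b : V → ι} {L L' : SimpleGraph V} {r s : Setoid ι}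

omit [Finite ι] in
lemma zB_le' (p : V → E3) : zB a b L r ≤ finrank ℝ (ZB a b L r p) := Nat.sInf_le ⟨p, rfl⟩

lemma zB_mono (hL : L' ≤ L) (hr : r ≤ s) : zB a b L s ≤ zB a b L' r := by
  obtain ⟨p, hp⟩ : zB a b L' r ∈ Set.range fun p : V → E3 => finrank ℝ (ZB a b L' r p) :=
    Nat.sInf_mem (Set.range_nonempty _)
  rw [← hp]
  exact (zB_le' p).trans (Submodule.finrank_mono (ZB_mono hL hr))

/-- A leaf bar between two bodies which move relative to each other is independent. -/
lemma zB_lt (hL : ∀ x y, L.Adj x y → a x = b x) (hdeg : ∀ x, (L.neighborSet x).ncard ≤ 2)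
    {x y : V} (hxy : L.Adj x y) (hleaf : ∀ z, L.Adj y z → z = x)
    (hw : zB a b (L.deleteEdges {s(x, y)}) (weld r (a x) (a y)) <
      zB a b (L.deleteEdges {s(x, y)}) r) :
    zB a b L r < zB a b (L.deleteEdges {s(x, y)}) r := by
  classical
  set L' := L.deleteEdges {s(x, y)} with hL'
  have hle' : L' ≤ L := SimpleGraph.deleteEdges_le _
  have hxney : x ≠ y := hxy.ne
  by_contra hcon
  have heq : zB a b L r = zB a b L' r :=
    le_antisymm (zB_mono hle' le_rfl) (not_lt.1 hcon)
  have h1 : ∀ p, GoodB a b p → ZB a b L r p = ZB a b L' r p := by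
    intro p hp
    apply Submodule.eq_of_le_of_finrank_eq (ZB_mono hle' le_rfl)
    rw [hp, hp, heq]
  have h2 : ∀ p, GoodB a b p → ∀ S ∈ ZB a b L' r p, ev (p x) (S (a x) - S (a y)) = 0 := by
    intro p hp S hS
    apply eq_zero_of_ae_inner (c := p x)
    filter_upwards [GoodB.stable a b p hp y] with t ht
    have h3 : ZB a b L' r p = ZB a b L' r (Function.update p y t) := by
      apply ZB_congr
      intro z
      by_cases hz : z = y
      · subst hz
        refine Or.inr ⟨hL z x hxy.symm, fun w hw' => ?_⟩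
        rw [hL', SimpleGraph.deleteEdges_adj] at hw'
        have := hleaf w hw'.1
        subst this
        exact hw'.2 (Sym2.eq_swap)
      · rw [Function.update_of_ne hz]
        exact Or.inl rfl
    rw [h3, ← h1 _ ht] at hS
    have h4 := hS.2 x y hxy
    rw [Function.update_self, Function.update_of_ne hxney, bar_eq_inner] at h4
    exact h4
  obtain ⟨p, hp⟩ := exists_goodB a b
  -- all bars at `x` removed
  let L'' : SimpleGraph V := L'.deleteEdges {e | x ∈ e}
  have hle'' : L'' ≤ L' := SimpleGraph.deleteEdges_le _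
  have hL''x : ∀ z, ¬ L''.Adj x z := by
    intro z hz
    exact (SimpleGraph.deleteEdges_adj.1 hz).2 (Sym2.mem_mk_left x z)
  -- at most one bar at `x` is left
  have huniq : ∀ z z', L'.Adj x z → L'.Adj x z' → z = z' := by
    intro z z' hz hz'
    by_contra hne
    have hzy : z ≠ y := by
      rintro rfl
      exact (SimpleGraph.deleteEdges_adj.1 hz).2 rfl
    have hzy' : z' ≠ y := by
      rintro rfl
      exact (SimpleGraph.deleteEdges_adj.1 hz').2 rfl
    have h3 : ({y, z, z'} : Set V) ⊆ L.neighborSet x := by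
      rintro w (rfl | rfl | rfl)
      · exact hxy
      · exact hle' hz
      · exact hle' hz'
    have h4 : ({y, z, z'} : Set V).ncard = 3 := by
      rw [Set.ncard_eq_three]
      exact ⟨y, z, z', hzy.symm, hzy'.symm, hne, rfl⟩
    have h5 := Set.ncard_le_ncard h3 (Set.toFinite _)
    have := hdeg x
    omega
  obtain ⟨x', hx'⟩ : ∃ x', ∀ z, L'.Adj x z → z = x' := by
    by_cases h : ∃ z, L'.Adj x z
    · obtain ⟨z, hz⟩ := h
      exact ⟨z, fun z' hz' => huniq z' z hz' hz⟩
    · push Not at h
      exact ⟨x, fun z hz => absurd hz (h z)⟩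
  let φ : (ι → Kil) →ₗ[ℝ] Kil :=
    LinearMap.proj (R := ℝ) (φ := fun _ : ι => Kil) (a x) - LinearMap.proj (a y)
  have hφ : ∀ S, φ S = S (a x) - S (a y) := fun S => rfl
  set K := ZB a b L'' r p with hK
  set W := K.map φ with hW
  have hKt : ∀ t, K = ZB a b L'' r (Function.update p x t) := by
    intro t
    apply ZB_congr
    intro z
    by_cases hz : z = x
    · subst hz
      exact Or.inr ⟨hL z y hxy, hL''x⟩
    · rw [Function.update_of_ne hz]
      exact Or.inl rfl
  -- the key inequality
  have hkey : ∀ t, GoodB a b (Function.update p x t) →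
      finrank ℝ W ≤ finrank ℝ ↥(W ⊓ LinearMap.ker (ev t)) + 1 := by
    intro t ht
    let l : (ι → Kil) →ₗ[ℝ] ℝ :=
      { toFun := fun S => ⟪ev t (S (a x)) - ev (p x') (S (a x')), t - p x'⟫
        map_add' := by
          intro S T
          rw [Pi.add_apply, Pi.add_apply, map_add, map_add, add_sub_add_comm, inner_add_left]
        map_smul' := by
          intro c S
          rw [Pi.smul_apply, Pi.smul_apply, map_smul, map_smul, ← smul_sub, real_inner_smul_left,
            RingHom.id_apply, smul_eq_mul] }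
    have h3 : (K ⊓ LinearMap.ker l).map φ ≤ W ⊓ LinearMap.ker (ev t) := by
      rintro _ ⟨S, ⟨hS, hlS⟩, rfl⟩
      refine ⟨⟨S, hS, rfl⟩, ?_⟩
      have hlS' : ⟪ev t (S (a x)) - ev (p x') (S (a x')), t - p x'⟫ = 0 := hlS
      have hS2 : S ∈ ZB a b L'' r (Function.update p x t) := by
        rw [← hKt t]
        exact hS
      have hS3 : S ∈ ZB a b L' r (Function.update p x t) := by
        refine ⟨hS2.1, fun u v huv => ?_⟩
        have hbar : ∀ v, L'.Adj x v → ⟪ev (Function.update p x t x) (S (a x)) -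
            ev (Function.update p x t v) (S (a v)), Function.update p x t x -
              Function.update p x t v⟫ = 0 := by
          intro v hv
          have hvx : v ≠ x := hv.ne.symm
          rw [Function.update_self, Function.update_of_ne hvx, hx' v hv]
          exact hlS'
        by_cases hu : u = x
        · subst hu
          exact hbar v huv
        · by_cases hv : v = x
          · subst hv
            rw [bar_symm]
            exact hbar u huv.symm
          · apply hS2.2 u v
            refine SimpleGraph.deleteEdges_adj.2 ⟨huv, ?_⟩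
            intro hmem
            rcases Sym2.mem_iff.1 hmem with h | h
            · exact hu h.symm
            · exact hv h.symm
      have h4 := h2 _ ht S hS3
      rw [Function.update_self] at h4
      exact h4
    calc finrank ℝ W ≤ finrank ℝ ((K ⊓ LinearMap.ker l).map φ) + 1 := finrank_map_inf_ker K φ l
      _ ≤ _ := by
          have := Submodule.finrank_mono h3
          omega
  -- evaluation at a generic point
  have hgen : ∀ᵐ t : E3 ∂volume, GoodB a b (Function.update p x t) ∧
      W ⊓ LinearMap.ker (ev t) = ⊥ := by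
    by_cases hW2 : finrank ℝ W ≤ 2
    · filter_upwards [GoodB.stable a b p hp x, eval_two W hW2] with t ht ht'
      exact ⟨ht, ht'⟩
    · exfalso
      by_cases hW3 : finrank ℝ W = 3
      · obtain ⟨t, ht, ht'⟩ := ((GoodB.stable a b p hp x).and (eval_three W hW3)).exists
        have := hkey t ht
        omega
      · obtain ⟨t, ht, ht'⟩ := ((GoodB.stable a b p hp x).and
          (eval_four W (by omega))).exists
        have := hkey t ht
        omega
  obtain ⟨t, ht, hbot⟩ := hgen.exists
  have h3 : ZB a b L' r (Function.update p x t) ≤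
      ZB a b L' (weld r (a x) (a y)) (Function.update p x t) := by
    intro S hS
    rw [mem_ZB_weld]
    refine ⟨hS, ?_⟩
    have h4 := h2 _ ht S hS
    rw [Function.update_self] at h4
    have h5 : φ S ∈ W ⊓ LinearMap.ker (ev t) := by
      refine ⟨⟨S, ?_, rfl⟩, h4⟩
      rw [SetLike.mem_coe, hKt t]
      exact ZB_mono hle'' le_rfl hS
    rw [hbot, Submodule.mem_bot, hφ] at h5
    exact sub_eq_zero.1 h5
  have h4 := Submodule.finrank_mono h3
  rw [ht, ht] at h4
  omega

end

lemma hh_le (d : ℕ) : hh d ≤ 6 := by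
  unfold hh
  split_ifs <;> norm_num

lemma ff_bot (a : V → ι) (s : Setoid ι) (e : Sym2 (Quotient s)) : ff a ⊥ s e = 0 := by
  unfold ff
  rw [Finset.card_eq_zero]
  apply Finset.eq_empty_of_forall_notMem
  intro f hf
  simp only [Finset.mem_filter] at hf
  have h := hf.2.1
  rw [SimpleGraph.edgeSet_bot] at h
  exact h

lemma valB_bot [Fintype ι] (a b : V → ι) (s : Setoid ι) :
    valB a b ⊥ s = val a b Finset.univ s := by
  classical
  unfold valB val
  congr 1
  refine Finset.sum_congr rfl fun e _ => ?_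
  split_ifs
  · rfl
  · rw [ff_bot, Nat.cast_zero, add_zero, min_eq_right (hh_le _)]

open Classical in
lemma ff_del {L : SimpleGraph V} (a : V → ι) (s : Setoid ι) {x y : V} (hxy : L.Adj x y)
    (e : Sym2 (Quotient s)) :
    ff a L s e = ff a (L.deleteEdges {s(x, y)}) s e +
      if s(Quotient.mk s (a x), Quotient.mk s (a y)) = e then 1 else 0 := by
  unfold ff
  have hset : (Finset.univ.filter fun f : Sym2 V => f ∈ L.edgeSet ∧
      Sym2.map (fun x => Quotient.mk s (a x)) f = e) =
      (Finset.univ.filter fun f : Sym2 V => f ∈ (L.deleteEdges {s(x, y)}).edgeSet ∧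
        Sym2.map (fun x => Quotient.mk s (a x)) f = e) ∪
      (if s(Quotient.mk s (a x), Quotient.mk s (a y)) = e then {s(x, y)} else ∅) := by
    ext f
    rw [Finset.mem_union, Finset.mem_filter, Finset.mem_filter, SimpleGraph.edgeSet_deleteEdges]
    by_cases hf : f = s(x, y)
    · subst hf
      rw [Sym2.map_mk]
      split_ifs with h
      · simp [h, hxy]
      · simp [h]
    · have : f ∉ (if s(Quotient.mk s (a x), Quotient.mk s (a y)) = e then
          ({s(x, y)} : Finset (Sym2 V)) else ∅) := by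
        split_ifs
        · rwa [Finset.mem_singleton]
        · exact Finset.notMem_empty _
      simp [this, hf]
  rw [hset, Finset.card_union_of_disjoint]
  · refine congrArg₂ (· + ·) (by congr) ?_
    split_ifs <;> simp
  · rw [Finset.disjoint_left]
    intro f hf hf'
    rw [Finset.mem_filter, SimpleGraph.edgeSet_deleteEdges] at hf
    split_ifs at hf' with h
    · rw [Finset.mem_singleton] at hf'
      exact hf.2.1.2 hf'
    · exact absurd hf' (Finset.notMem_empty _)

lemma valB_del_loop [Fintype ι] {L : SimpleGraph V} (a b : V → ι) (s : Setoid ι) {x y : V}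
    (hxy : L.Adj x y) (h : s (a x) (a y)) :
    valB a b (L.deleteEdges {s(x, y)}) s = valB a b L s := by
  classical
  unfold valB
  congr 1
  refine Finset.sum_congr rfl fun e _ => ?_
  split_ifs with he
  · rfl
  · rw [ff_del a s hxy e, if_neg, add_zero]
    rintro rfl
    apply he
    rw [Sym2.mk_isDiag_iff]
    exact Quotient.sound h

lemma valB_del_le [Fintype ι] {L : SimpleGraph V} (a b : V → ι) (s : Setoid ι) {x y : V}
    (hxy : L.Adj x y) : valB a b (L.deleteEdges {s(x, y)}) s ≤ valB a b L s + 1 := by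
  classical
  unfold valB
  have h1 : ∑ e : Sym2 (Quotient s), (if e.IsDiag then 0 else
      min 6 (hh (dd a b Finset.univ s e) + ff a L s e)) ≤
      ∑ e : Sym2 (Quotient s), ((if e.IsDiag then 0 else
        min 6 (hh (dd a b Finset.univ s e) + ff a (L.deleteEdges {s(x, y)}) s e)) +
        if s(Quotient.mk s (a x), Quotient.mk s (a y)) = e then (1 : ℤ) else 0) := by
    refine Finset.sum_le_sum fun e _ => ?_
    rw [ff_del a s hxy e]
    by_cases he : e.IsDiag
    · rw [if_pos he, if_pos he]
      split_ifs <;> simp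
    · rw [if_neg he, if_neg he]
      split_ifs
      · push_cast
        omega
      · push_cast
        omega
  rw [Finset.sum_add_distrib, Finset.sum_ite_eq, if_pos (Finset.mem_univ _)] at h1
  linarith

/-- The rank formula for bodies with ball joints and bars forming a linear forest. -/
theorem bars_formula [Fintype ι] (a b : V → ι) (L : SimpleGraph V)
    (hL : ∀ x y, L.Adj x y → a x = b x) (hac : L.IsAcyclic)
    (hdeg : ∀ x, (L.neighborSet x).ncard ≤ 2) (r : Setoid ι) :
    ∃ s, r ≤ s ∧ (zB a b L r : ℤ) ≤ valB a b L s := by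
  classical
  suffices H : ∀ n m : ℕ, ∀ (L : SimpleGraph V) (r : Setoid ι),
      (∀ x y, L.Adj x y → a x = b x) → L.IsAcyclic → (∀ x, (L.neighborSet x).ncard ≤ 2) →
      L.edgeSet.ncard = n → Nat.card (Quotient r) = m →
      ∃ s, r ≤ s ∧ (zB a b L r : ℤ) ≤ valB a b L s from
    H _ _ L r hL hac hdeg rfl rfl
  intro n
  induction n using Nat.strong_induction_on with
  | _ n ihn =>
    intro m
    induction m using Nat.strong_induction_on with
    | _ m ihm =>
      intro L r hL hac hdeg hn hm
      by_cases hbot : L = ⊥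
      · subst hbot
        obtain ⟨s, hs, h⟩ := rank_formula a b Finset.univ r
        refine ⟨s, hs, ?_⟩
        rw [valB_bot]
        have h1 : zB a b ⊥ r = zdim a b Finset.univ r := by
          unfold zB zdim
          congr 2
          funext p
          have : ZB a b ⊥ r p = Z a b Finset.univ r p := by
            ext S
            rw [mem_ZB]
            exact ⟨fun h => h.1, fun h => ⟨h, fun x y hxy => absurd hxy (by simp)⟩⟩
          rw [this]
        rw [h1]
        exact h
      · obtain ⟨x, y, hxy, hleaf⟩ := exists_leaf L hac hbot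
        set L' := L.deleteEdges {s(x, y)} with hL'
        have hle' : L' ≤ L := SimpleGraph.deleteEdges_le _
        have hn' : L'.edgeSet.ncard < n := by
          rw [← hn]
          apply Set.ncard_lt_ncard _ (Set.toFinite _)
          rw [Set.ssubset_iff_exists]
          refine ⟨SimpleGraph.edgeSet_mono hle', s(x, y), hxy, ?_⟩
          rw [hL', SimpleGraph.edgeSet_deleteEdges]
          exact fun h => h.2 rfl
        have hh1 : ∀ x y, L'.Adj x y → a x = b x := fun x y h => hL x y (hle' h)
        have hh2 : L'.IsAcyclic := hac.anti hle'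
        have hh3 : ∀ x, (L'.neighborSet x).ncard ≤ 2 := fun z =>
          (Set.ncard_le_ncard (fun w hw => hle' hw) (Set.toFinite _)).trans (hdeg z)
        by_cases hr : r (a x) (a y)
        · -- the bar lies inside a body
          obtain ⟨s, hs, h⟩ := ihn _ hn' _ L' r hh1 hh2 hh3 rfl rfl
          refine ⟨s, hs, ?_⟩
          rw [← valB_del_loop a b s hxy (hs hr)]
          refine le_trans ?_ h
          exact_mod_cast zB_mono hle' le_rfl
        · by_cases hw : zB a b L' (weld r (a x) (a y)) < zB a b L' r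
          · have h1 := zB_lt hL hdeg hxy hleaf hw
            obtain ⟨s, hs, h⟩ := ihn _ hn' _ L' r hh1 hh2 hh3 rfl rfl
            refine ⟨s, hs, ?_⟩
            have h2 := valB_del_le a b s hxy
            have h3 : (zB a b L r : ℤ) + 1 ≤ zB a b L' r := by exact_mod_cast h1
            linarith
          · have heq : zB a b L' (weld r (a x) (a y)) = zB a b L' r :=
              le_antisymm (zB_mono le_rfl (le_weld _ _ _)) (not_lt.1 hw)
            obtain ⟨p, hp⟩ := exists_goodB a b
            have h1 : ZB a b L' (weld r (a x) (a y)) p = ZB a b L' r p := by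
              apply Submodule.eq_of_le_of_finrank_eq (ZB_mono le_rfl (le_weld _ _ _))
              rw [hp, hp, heq]
            have h2 : ZB a b L (weld r (a x) (a y)) p = ZB a b L r p := by
              ext S
              rw [mem_ZB_del hxy, mem_ZB_del hxy, ← hL', h1]
            have h3 : zB a b L (weld r (a x) (a y)) = zB a b L r := by
              rw [← hp, ← hp, h2]
            obtain ⟨s, hs, h⟩ := ihm _ (hm ▸ card_quotient_lt (lt_weld hr)) L
              (weld r (a x) (a y)) hL hac hdeg hn rfl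
            exact ⟨s, (le_weld _ _ _).trans hs, h3 ▸ h⟩

end

end Pool.Agent.BJ
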