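import Pool.Agent.Lib.MP_37c7bf_BJ.Eval

/-!
The triangle lemma: if the three bars of a triangle impose dependent conditions on a space `W` of
pairs of relative motions (of bodies `u`, `v` with respect to `w`) for all positions of the
triangle, then `S.1 = c • S.2` on `W`.
-/

open MeasureTheory Module Topology
open scoped RealInnerProductSpace

namespace Pool.Agent.BJ

open Pool.Agent.H26R (E3 crossE)

namespace ClaimT

/-- A 3 x 3 determinant. -/
def det3 (a b c : Fin 3 → ℝ) : ℝ :=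
  a 0 * (b 1 * c 2 - b 2 * c 1) - a 1 * (b 0 * c 2 - b 2 * c 0) + a 2 * (b 0 * c 1 - b 1 * c 0)

lemma det3_eq_zero {a b c l : Fin 3 → ℝ} (hl : l ≠ 0)
    (h : ∀ i, l 0 * a i + l 1 * b i + l 2 * c i = 0) : det3 a b c = 0 := by
  have h0 := h 0
  have h1 := h 1
  have h2 := h 2
  have e0 : l 0 * det3 a b c = 0 := by
    unfold det3
    linear_combination (b 1 * c 2 - b 2 * c 1) * h0 - (b 0 * c 2 - b 2 * c 0) * h1 +
      (b 0 * c 1 - b 1 * c 0) * h2
  have e1 : l 1 * det3 a b c = 0 := by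
    unfold det3
    linear_combination (-(a 1 * c 2 - a 2 * c 1)) * h0 + (a 0 * c 2 - a 2 * c 0) * h1 -
      (a 0 * c 1 - a 1 * c 0) * h2
  have e2 : l 2 * det3 a b c = 0 := by
    unfold det3
    linear_combination (a 1 * b 2 - a 2 * b 1) * h0 - (a 0 * b 2 - a 2 * b 0) * h1 +
      (a 0 * b 1 - a 1 * b 0) * h2
  by_contra hne
  apply hl
  funext i
  fin_cases i
  · exact (mul_eq_zero.mp e0).resolve_right hne
  · exact (mul_eq_zero.mp e1).resolve_right hne
  · exact (mul_eq_zero.mp e2).resolve_right hne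

lemma ev_add (x v : E3) (T : Kil) : ev (x + v) T = ev x T + crossE T.1 v := by
  rw [ev_apply, ev_apply, Pool.Agent.H26R.crossE_add_right]
  abel

lemma inner_crossE_self' (ω x : E3) : ⟪crossE ω x, x⟫ = 0 := by
  rw [real_inner_comm]
  exact Pool.Agent.H26R.inner_crossE_self ω x

section
variable {M : Type*} [AddCommGroup M] [Module ℝ M]
  (s t : M →ₗ[ℝ] Kil)

/-- The three bars of every triangle are dependent. -/
def Dep : Prop := ∀ x y z : E3, ∃ l : Fin 3 → ℝ, l ≠ 0 ∧ ∀ S : M,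
  l 0 * ⟪ev x (s S - t S), x - y⟫ + l 1 * ⟪ev y (t S), y - z⟫ + l 2 * ⟪ev x (s S), x - z⟫ = 0

variable {s t}

lemma Dep.det (h : Dep s t) (x y z : E3) (S : Fin 3 → M) :
    det3 (fun i => ⟪ev x (s (S i) - t (S i)), x - y⟫) (fun i => ⟪ev y (t (S i)), y - z⟫)
      (fun i => ⟪ev x (s (S i)), x - z⟫) = 0 := by
  obtain ⟨l, hl, h⟩ := h x y z
  exact det3_eq_zero hl fun i => h (S i)

lemma Dep.det1 (h : Dep s t) (x v w : E3) (S : Fin 3 → M) :
    det3 (fun i => ⟪ev x (s (S i)), v⟫) (fun i => ⟪ev x (t (S i)), v⟫)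
      (fun i => ⟪ev x (s (S i)), w⟫) = 0 := by
  have h1 := h.det x (x + v) (x + w) S
  have h2 := h.det x (x + v) (x - w) S
  have e0 : ∀ T : Kil, ⟪ev x T, x - (x + v)⟫ = -⟪ev x T, v⟫ := by
    intro T
    rw [show x - (x + v) = -v by abel, inner_neg_right]
  have e1 : ∀ T : Kil, ⟪ev x T, x - (x + w)⟫ = -⟪ev x T, w⟫ := by
    intro T
    rw [show x - (x + w) = -w by abel, inner_neg_right]
  have e2 : ∀ T : Kil, ⟪ev x T, x - (x - w)⟫ = ⟪ev x T, w⟫ := by
    intro T
    rw [show x - (x - w) = w by abel]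
  have e3 : ∀ T : Kil, ⟪ev (x + v) T, x + v - (x + w)⟫ =
      ⟪ev x T, v⟫ - ⟪ev (x + v) T, w⟫ := by
    intro T
    rw [show x + v - (x + w) = v - w by abel, inner_sub_right, ev_add, inner_add_left,
      inner_crossE_self']
    ring
  have e4 : ∀ T : Kil, ⟪ev (x + v) T, x + v - (x - w)⟫ =
      ⟪ev x T, v⟫ + ⟪ev (x + v) T, w⟫ := by
    intro T
    rw [show x + v - (x - w) = v + w by abel, inner_add_right, ev_add, inner_add_left,
      inner_crossE_self']
    ring
  simp only [e0, e1, e2, e3, e4, map_sub, inner_sub_left] at h1 h2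
  unfold det3 at h1 h2 ⊢
  linear_combination (1 / 2) * h1 - (1 / 2) * h2

lemma Dep.det2 (h : Dep s t) (x v w : E3) (S : Fin 3 → M) :
    det3 (fun i => ⟪ev x (s (S i)), v⟫) (fun i => ⟪ev x (t (S i)), v⟫)
      (fun i => ⟪ev x (t (S i)), w⟫) = 0 := by
  have h1 := h.det (x - v) x (x + w) S
  have h2 := h.det (x - v) x (x - w) S
  have hv : ∀ T : Kil, ⟪ev (x - v) T, v⟫ = ⟪ev x T, v⟫ := by
    intro T
    have : ev x T = ev (x - v) T + crossE T.1 v := by
      rw [← ev_add, sub_add_cancel]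
    rw [this, inner_add_left, inner_crossE_self', add_zero]
  have e0 : ∀ T : Kil, ⟪ev (x - v) T, x - v - x⟫ = -⟪ev x T, v⟫ := by
    intro T
    rw [show x - v - x = -v by abel, inner_neg_right, hv]
  have e1 : ∀ T : Kil, ⟪ev x T, x - (x + w)⟫ = -⟪ev x T, w⟫ := by
    intro T
    rw [show x - (x + w) = -w by abel, inner_neg_right]
  have e2 : ∀ T : Kil, ⟪ev x T, x - (x - w)⟫ = ⟪ev x T, w⟫ := by
    intro T
    rw [show x - (x - w) = w by abel]
  have e3 : ∀ T : Kil, ⟪ev (x - v) T, x - v - (x + w)⟫ =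
      -⟪ev x T, v⟫ - ⟪ev (x - v) T, w⟫ := by
    intro T
    rw [show x - v - (x + w) = -v - w by abel, inner_sub_right, inner_neg_right, hv]
  have e4 : ∀ T : Kil, ⟪ev (x - v) T, x - v - (x - w)⟫ =
      -⟪ev x T, v⟫ + ⟪ev (x - v) T, w⟫ := by
    intro T
    rw [show x - v - (x - w) = -v + w by abel, inner_add_right, inner_neg_right, hv]
  simp only [e0, e1, e2, e3, e4, map_sub, inner_sub_left] at h1 h2
  unfold det3 at h1 h2 ⊢
  linear_combination (1 / 2) * h1 - (1 / 2) * h2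

end

/-! ### Linear forms -/

lemma eq_zero_of_forall {a e : E3} (ha : a ≠ 0) (h : ∀ v, ⟪a, v⟫ ≠ 0 → ⟪e, v⟫ = 0) : e = 0 := by
  by_cases hae : ⟪a, e⟫ = 0
  · have h1 : ⟪a, a + e⟫ ≠ 0 := by
      rw [inner_add_right, hae, add_zero]
      exact inner_self_ne_zero.mpr ha
    have h2 := h _ h1
    rw [inner_add_right, real_inner_comm, hae, zero_add] at h2
    exact inner_self_eq_zero.mp h2
  · exact inner_self_eq_zero.mp (h e hae)

lemma mul_of_forms {a a' b b' : E3} (hi : LinearIndependent ℝ ![a, a'])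
    (h : ∀ v, ⟪a, v⟫ * ⟪b', v⟫ = ⟪a', v⟫ * ⟪b, v⟫) : ∃ c : ℝ, b = c • a := by
  have hnot : a' ∉ (ℝ ∙ a) := by
    intro hmem
    obtain ⟨c, hc⟩ := Submodule.mem_span_singleton.mp hmem
    rw [LinearIndependent.pair_iff] at hi
    have := (hi c (-1) (by rw [← hc]; module)).2
    norm_num at this
  have h0 : ∃ v0 ∈ (ℝ ∙ a)ᗮ, ⟪a', v0⟫ ≠ 0 := by
    by_contra hcon
    push Not at hcon
    apply hnot
    rw [← Submodule.orthogonal_orthogonal (ℝ ∙ a), Submodule.mem_orthogonal]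
    intro v hv
    rw [real_inner_comm]
    exact hcon v hv
  obtain ⟨v0, hv0, hv0'⟩ := h0
  have key : ∀ v ∈ (ℝ ∙ a)ᗮ, ⟪a', v⟫ ≠ 0 → ⟪b, v⟫ = 0 := by
    intro v hv hv'
    have h1 := h v
    rw [(Submodule.mem_orthogonal_singleton_iff_inner_right.mp hv), zero_mul] at h1
    exact (mul_eq_zero.mp h1.symm).resolve_left hv'
  have hb : b ∈ (ℝ ∙ a)ᗮᗮ := by
    rw [Submodule.mem_orthogonal]
    intro v hv
    rw [real_inner_comm]
    by_cases hv' : ⟪a', v⟫ = 0
    · have h1 := key (v0 + v) (Submodule.add_mem _ hv0 hv)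
        (by rw [inner_add_right, hv', add_zero]; exact hv0')
      rw [inner_add_right, key v0 hv0 hv0', zero_add] at h1
      exact h1
    · exact key v hv hv'
  rw [Submodule.orthogonal_orthogonal] at hb
  obtain ⟨c, hc⟩ := Submodule.mem_span_singleton.mp hb
  exact ⟨c, hc.symm⟩

lemma exists_smul_of_forms {M : Type*} [AddCommGroup M] [Module ℝ M] (A B : M →ₗ[ℝ] E3)
    (h : ∀ v S T, ⟪A S, v⟫ * ⟪B T, v⟫ = ⟪A T, v⟫ * ⟪B S, v⟫) {S T : M}
    (hi : LinearIndependent ℝ ![A S, A T]) : ∃ c : ℝ, ∀ R, B R = c • A R := by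
  obtain ⟨c, hc⟩ := mul_of_forms (b := B S) (b' := B T) hi (fun v => h v S T)
  have hne : A S ≠ 0 := by
    have := hi.ne_zero 0
    simpa using this
  refine ⟨c, fun R => ?_⟩
  have : B R - c • A R = 0 := by
    apply eq_zero_of_forall hne
    intro v hv
    have h1 := h v S R
    rw [hc, inner_smul_left] at h1
    simp only [conj_trivial] at h1
    have h2 : ⟪A S, v⟫ * (⟪B R, v⟫ - c * ⟪A R, v⟫) = 0 := by
      linear_combination h1
    rw [inner_sub_left, inner_smul_left]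
    simp only [conj_trivial]
    exact (mul_eq_zero.mp h2).resolve_left hv
  exact sub_eq_zero.mp this

/-- Almost every point is off a given plane. -/
lemma ae_inner_ne {e : E3} (he : e ≠ 0) (x : E3) : ∀ᵐ y : E3 ∂volume, ⟪e, y - x⟫ ≠ 0 := by
  have h1 : (volume : Measure E3) ((AffineSubspace.mk' x (ℝ ∙ e)ᗮ : AffineSubspace ℝ E3) : Set E3)
      = 0 := by
    apply Measure.addHaar_affineSubspace
    intro htop
    have h2 : (ℝ ∙ e)ᗮ = ⊤ := by
      have := congrArg AffineSubspace.direction htop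
      rwa [AffineSubspace.direction_mk', AffineSubspace.direction_top] at this
    have h3 : e ∈ (ℝ ∙ e)ᗮ := h2 ▸ Submodule.mem_top
    exact he (inner_self_eq_zero.mp (Submodule.mem_orthogonal_singleton_iff_inner_right.mp h3))
  rw [ae_iff]
  refine measure_mono_null ?_ h1
  intro y hy
  simp only [Set.mem_ofPred_eq, not_not] at hy
  rw [SetLike.mem_coe, AffineSubspace.mem_mk', vsub_eq_sub,
    Submodule.mem_orthogonal_singleton_iff_inner_right]
  exact hy

section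
variable {M : Type*} [AddCommGroup M] [Module ℝ M]
  {s t : M →ₗ[ℝ] Kil}

lemma ae_indep (h : 2 ≤ finrank ℝ (LinearMap.range s)) :
    ∃ S T : M, ∀ᵐ x : E3 ∂volume, LinearIndependent ℝ ![ev x (s S), ev x (s T)] := by
  have hnt : Nontrivial (LinearMap.range s) := by
    apply Module.nontrivial_of_finrank_pos (R := ℝ)
    omega
  obtain ⟨u, hu⟩ := exists_ne (0 : LinearMap.range s)
  obtain ⟨w, hw⟩ := exists_linearIndependent_pair_of_one_lt_finrank (R := ℝ) (by omega) hu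
  obtain ⟨S, hS⟩ := u.2
  obtain ⟨T, hT⟩ := w.2
  refine ⟨S, T, ?_⟩
  have hi : LinearIndependent ℝ ![s S, s T] := by
    have h1 := hw.map' (LinearMap.range s).subtype (Submodule.ker_subtype _)
    have e : ![s S, s T] = (LinearMap.range s).subtype ∘ ![u, w] := by
      funext i
      fin_cases i <;> simp [hS, hT]
    rw [e]
    exact h1
  have h2 := eval_two (Submodule.span ℝ (Set.range ![s S, s T])) (by
    rw [finrank_span_eq_card hi]
    simp)
  filter_upwards [h2] with x hx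
  have h1 := hi.map (f := ev x) (disjoint_iff.mpr hx)
  have e : ![ev x (s S), ev x (s T)] = ev x ∘ ![s S, s T] := by
    funext i
    fin_cases i <;> simp
  rw [e]
  exact h1

/-- If the forms of `s` and `t` in every direction are dependent at a non-negligible set of
points, then `t` is a multiple of `s`. -/
lemma smul_of_frequently [FiniteDimensional ℝ M] (h3 : 3 ≤ finrank ℝ M)
    (hinj : ∀ S, s S = 0 → t S = 0 → S = 0) (hs : s ≠ 0) (ht : t ≠ 0)
    (hB : ∃ᶠ x : E3 in ae volume, ∀ v S T,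
      ⟪ev x (s S), v⟫ * ⟪ev x (t T), v⟫ = ⟪ev x (s T), v⟫ * ⟪ev x (t S), v⟫) :
    ∃ c : ℝ, c ≠ 0 ∧ t = c • s := by
  obtain ⟨S1, hS1⟩ : ∃ S, s S ≠ 0 := by
    by_contra hcon
    push Not at hcon
    exact hs (LinearMap.ext hcon)
  obtain ⟨T1, hT1⟩ : ∃ S, t S ≠ 0 := by
    by_contra hcon
    push Not at hcon
    exact ht (LinearMap.ext hcon)
  have hsx := ae_ev_ne hS1
  have htx := ae_ev_ne hT1
  have hrank : 2 ≤ finrank ℝ (LinearMap.range s) ∨ 2 ≤ finrank ℝ (LinearMap.range t) := by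
    by_contra hcon
    push Not at hcon
    have h1 : finrank ℝ M ≤ finrank ℝ (LinearMap.range s × LinearMap.range t) := by
      apply LinearMap.finrank_le_finrank_of_injective (f := s.rangeRestrict.prod t.rangeRestrict)
      rw [← LinearMap.ker_eq_bot, LinearMap.ker_eq_bot']
      intro S hS
      have h4 := congrArg Prod.fst hS
      have h5 := congrArg Prod.snd hS
      exact hinj S (congrArg Subtype.val h4) (congrArg Subtype.val h5)
    rw [Module.finrank_prod] at h1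
    omega
  -- at almost all of these points `t` is a nonzero multiple of `s`
  have hmul : ∀ᵐ x : E3 ∂volume, (∀ v S T,
      ⟪ev x (s S), v⟫ * ⟪ev x (t T), v⟫ = ⟪ev x (s T), v⟫ * ⟪ev x (t S), v⟫) →
      ∃ c : ℝ, c ≠ 0 ∧ ∀ S, ev x (t S) = c • ev x (s S) := by
    rcases hrank with h2 | h2
    · obtain ⟨S, T, hST⟩ := ae_indep h2
      filter_upwards [hST, htx] with x hx1 hx2 hx3
      obtain ⟨c, hc⟩ := exists_smul_of_forms ((ev x).comp s) ((ev x).comp t) hx3 hx1
      refine ⟨c, ?_, hc⟩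
      rintro rfl
      apply hx2
      have := hc T1
      simpa using this
    · obtain ⟨S, T, hST⟩ := ae_indep h2
      filter_upwards [hST, hsx] with x hx1 hx2 hx3
      obtain ⟨c, hc⟩ := exists_smul_of_forms ((ev x).comp t) ((ev x).comp s)
        (fun v S T => by
          have := hx3 v T S
          simp only [LinearMap.comp_apply]
          linear_combination this) hx1
      have hc0 : c ≠ 0 := by
        rintro rfl
        apply hx2
        have := hc S1
        simpa using this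
      refine ⟨c⁻¹, inv_ne_zero hc0, fun S => ?_⟩
      have := hc S
      simp only [LinearMap.comp_apply] at this
      rw [this, smul_smul, inv_mul_cancel₀ hc0, one_smul]
  -- choose the first point
  obtain ⟨x, hx, hx1, hx2⟩ := (hB.and_eventually (hmul.and hsx)).exists
  obtain ⟨c, hc0, hc⟩ := hx1 hx
  refine ⟨c, hc0, ?_⟩
  by_contra hne
  obtain ⟨R, hR⟩ : ∃ R, t R - c • s R ≠ 0 := by
    by_contra hcon
    push Not at hcon
    exact hne (LinearMap.ext fun R => by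
      rw [LinearMap.smul_apply]
      exact sub_eq_zero.mp (hcon R))
  obtain ⟨y, hy, ⟨hy1, hy2⟩, hy3⟩ :=
    (hB.and_eventually ((hmul.and (ae_inner_ne hx2 x)).and (ae_ev_ne hR))).exists
  obtain ⟨d, hd0, hd⟩ := hy1 hy
  have e1 : ⟪ev x (t S1), y - x⟫ = c * ⟪ev x (s S1), y - x⟫ := by
    rw [hc, inner_smul_left]
    rfl
  have e2 : ⟪ev x (t S1), y - x⟫ = d * ⟪ev x (s S1), y - x⟫ := by
    rw [ev_symm, ev_symm (s S1), hd, inner_smul_left]
    simp only [conj_trivial]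
    ring
  have hcd : c = d := by
    have : (c - d) * ⟪ev x (s S1), y - x⟫ = 0 := by
      linear_combination e2 - e1
    have := (mul_eq_zero.mp this).resolve_right hy2
    linarith
  apply hy3
  rw [map_sub, map_smul, hd R, hcd, sub_self]

/-- For dependent triangles: unless `t` is a multiple of `s`, the pair of velocities at almost
every point has rank at most two. -/
lemma ae_rank_le [FiniteDimensional ℝ M] (h3 : 3 ≤ finrank ℝ M)
    (hinj : ∀ S, s S = 0 → t S = 0 → S = 0) (hs : s ≠ 0) (ht : t ≠ 0) (hd : Dep s t)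
    (hne : ¬ ∃ c : ℝ, c ≠ 0 ∧ t = c • s) :
    ∀ᵐ x : E3 ∂volume, finrank ℝ M ≤
      finrank ℝ ↥(LinearMap.ker ((ev x).comp s) ⊓ LinearMap.ker ((ev x).comp t)) + 2 := by
  have h1 : ¬ ∃ᶠ x : E3 in ae volume, ∀ v S T,
      ⟪ev x (s S), v⟫ * ⟪ev x (t T), v⟫ = ⟪ev x (s T), v⟫ * ⟪ev x (t S), v⟫ :=
    fun h => hne (smul_of_frequently h3 hinj hs ht h)
  rw [Filter.not_frequently] at h1
  filter_upwards [h1] with x hx
  push Not at hx
  obtain ⟨v, S, T, hST⟩ := hx
  let f : M →ₗ[ℝ] ℝ := (innerₛₗ ℝ v).comp ((ev x).comp s)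
  let g : M →ₗ[ℝ] ℝ := (innerₛₗ ℝ v).comp ((ev x).comp t)
  have hf : ∀ R, f R = ⟪ev x (s R), v⟫ := fun R => by
    simp only [f, LinearMap.comp_apply, innerₛₗ_apply_apply]
    exact real_inner_comm _ _
  have hg : ∀ R, g R = ⟪ev x (t R), v⟫ := fun R => by
    simp only [g, LinearMap.comp_apply, innerₛₗ_apply_apply]
    exact real_inner_comm _ _
  have hle : LinearMap.ker (f.prod g) ≤
      LinearMap.ker ((ev x).comp s) ⊓ LinearMap.ker ((ev x).comp t) := by
    intro R hR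
    rw [LinearMap.mem_ker, LinearMap.prod_apply] at hR
    have hfR : ⟪ev x (s R), v⟫ = 0 := by
      rw [← hf]
      exact congrArg Prod.fst hR
    have hgR : ⟪ev x (t R), v⟫ = 0 := by
      rw [← hg]
      exact congrArg Prod.snd hR
    have hδ : ⟪ev x (s S), v⟫ * ⟪ev x (t T), v⟫ - ⟪ev x (s T), v⟫ * ⟪ev x (t S), v⟫ ≠ 0 :=
      sub_ne_zero.mpr hST
    constructor
    · rw [SetLike.mem_coe, LinearMap.mem_ker, LinearMap.comp_apply]
      have hall : ∀ w, ⟪ev x (s R), w⟫ = 0 := by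
        intro w
        have h4 := hd.det1 x v w ![S, T, R]
        simp only [det3, Matrix.cons_val_zero, Matrix.cons_val_one, Matrix.cons_val, hfR, hgR] at h4
        have h5 : (⟪ev x (s S), v⟫ * ⟪ev x (t T), v⟫ - ⟪ev x (s T), v⟫ * ⟪ev x (t S), v⟫) *
            ⟪ev x (s R), w⟫ = 0 := by
          linear_combination h4
        exact (mul_eq_zero.mp h5).resolve_left hδ
      exact inner_self_eq_zero.mp (hall _)
    · rw [SetLike.mem_coe, LinearMap.mem_ker, LinearMap.comp_apply]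
      have hall : ∀ w, ⟪ev x (t R), w⟫ = 0 := by
        intro w
        have h4 := hd.det2 x v w ![S, T, R]
        simp only [det3, Matrix.cons_val_zero, Matrix.cons_val_one, Matrix.cons_val, hfR, hgR] at h4
        have h5 : (⟪ev x (s S), v⟫ * ⟪ev x (t T), v⟫ - ⟪ev x (s T), v⟫ * ⟪ev x (t S), v⟫) *
            ⟪ev x (t R), w⟫ = 0 := by
          linear_combination h4
        exact (mul_eq_zero.mp h5).resolve_left hδ
      exact inner_self_eq_zero.mp (hall _)
  have h4 := LinearMap.finrank_range_add_finrank_ker (f.prod g)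
  have h5 : finrank ℝ (LinearMap.range (f.prod g)) ≤ 2 := by
    have := Submodule.finrank_le (LinearMap.range (f.prod g))
    rw [Module.finrank_prod, Module.finrank_self] at this
    omega
  have h6 := Submodule.finrank_mono hle
  omega

lemma finrank_eq_map_add [FiniteDimensional ℝ M] (f : M →ₗ[ℝ] Kil) (K : Submodule ℝ M) :
    finrank ℝ K = finrank ℝ (K.map f) + finrank ℝ ↥(K ⊓ LinearMap.ker f) := by
  have h1 := LinearMap.finrank_range_add_finrank_ker (f.domRestrict K)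
  have h2 : LinearMap.range (f.domRestrict K) = K.map f := LinearMap.range_domRestrict K f
  have h3 : (LinearMap.ker (f.domRestrict K)).map K.subtype = K ⊓ LinearMap.ker f := by
    ext R
    simp only [Submodule.mem_map, LinearMap.mem_ker, Submodule.mem_inf, Submodule.subtype_apply,
      LinearMap.domRestrict_apply, Subtype.exists, exists_and_right, exists_eq_right]
    constructor
    · rintro ⟨h, h'⟩
      exact ⟨h, h'⟩
    · rintro ⟨h, h'⟩
      exact ⟨h, h'⟩
  rw [← h1, h2, ← h3, Submodule.finrank_map_subtype_eq]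

lemma ae_finrank_inf_ker (V : Submodule ℝ Kil) : ∀ᵐ x : E3 ∂volume,
    (1 ≤ finrank ℝ V → finrank ℝ ↥(V ⊓ LinearMap.ker (ev x)) + 1 ≤ finrank ℝ V) ∧
    (2 ≤ finrank ℝ V → finrank ℝ ↥(V ⊓ LinearMap.ker (ev x)) + 2 ≤ finrank ℝ V) ∧
    (4 ≤ finrank ℝ V → finrank ℝ ↥(V ⊓ LinearMap.ker (ev x)) + 3 ≤ finrank ℝ V) := by
  rcases le_or_gt (finrank ℝ V) 2 with h | h
  · filter_upwards [eval_two V h] with x hx
    rw [hx, finrank_bot]
    omega
  · rcases eq_or_ne (finrank ℝ V) 3 with h' | h'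
    · filter_upwards [eval_three V h'] with x hx
      omega
    · filter_upwards [eval_four V (by omega)] with x hx
      omega

/-- If the pair of velocities at almost every point has rank at most two, then `s` is injective
and the space has dimension three. -/
lemma inj_of_rank [FiniteDimensional ℝ M] (h3 : 3 ≤ finrank ℝ M)
    (hinj : ∀ S, s S = 0 → t S = 0 → S = 0) (hs : s ≠ 0)
    (hr : ∀ᵐ x : E3 ∂volume, finrank ℝ M ≤
      finrank ℝ ↥(LinearMap.ker ((ev x).comp s) ⊓ LinearMap.ker ((ev x).comp t)) + 2) :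
    finrank ℝ M = 3 ∧ ∀ S, s S = 0 → S = 0 := by
  set V := LinearMap.range s with hV
  set N := (LinearMap.ker s).map t with hN
  have hbot : LinearMap.ker s ⊓ LinearMap.ker t = ⊥ := by
    rw [Submodule.eq_bot_iff]
    rintro S ⟨h1, h2⟩
    exact hinj S h1 h2
  have e1 : finrank ℝ M = finrank ℝ V + finrank ℝ (LinearMap.ker s) :=
    (LinearMap.finrank_range_add_finrank_ker s).symm
  have e2 : finrank ℝ (LinearMap.ker s) = finrank ℝ N := by
    rw [finrank_eq_map_add t, hbot, finrank_bot, add_zero]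
  have hV0 : 1 ≤ finrank ℝ V := by
    rw [Nat.one_le_iff_ne_zero]
    intro h0
    rw [Submodule.finrank_eq_zero, hV, LinearMap.range_eq_bot] at h0
    exact hs h0
  obtain ⟨x, ⟨⟨hx, hx1⟩, hx2⟩⟩ := ((hr.and (ae_finrank_inf_ker V)).and (ae_finrank_inf_ker N)).exists
  set K := LinearMap.ker ((ev x).comp s) ⊓ LinearMap.ker ((ev x).comp t) with hK
  have e3 := finrank_eq_map_add s K
  have e4 : finrank ℝ (K.map s) ≤ finrank ℝ ↥(V ⊓ LinearMap.ker (ev x)) := by
    apply Submodule.finrank_mono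
    rintro _ ⟨S, hS, rfl⟩
    exact ⟨LinearMap.mem_range_self s S, hS.1⟩
  have e5 := finrank_eq_map_add t (K ⊓ LinearMap.ker s)
  have e6 : K ⊓ LinearMap.ker s ⊓ LinearMap.ker t = ⊥ := by
    rw [Submodule.eq_bot_iff]
    rintro S ⟨⟨_, h1⟩, h2⟩
    exact hinj S h1 h2
  have e7 : finrank ℝ ((K ⊓ LinearMap.ker s).map t) ≤ finrank ℝ ↥(N ⊓ LinearMap.ker (ev x)) := by
    apply Submodule.finrank_mono
    rintro _ ⟨S, hS, rfl⟩
    exact ⟨Submodule.mem_map_of_mem hS.2, hS.1.2⟩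
  rw [e6, finrank_bot] at e5
  have e8 : finrank ℝ ↥(N ⊓ LinearMap.ker (ev x)) ≤ finrank ℝ N :=
    Submodule.finrank_mono inf_le_left
  have h0 : finrank ℝ N = 0 ∧ finrank ℝ M = 3 := by
    omega
  refine ⟨h0.2, fun S hS => ?_⟩
  have h1 : LinearMap.ker s = ⊥ := by
    rw [← Submodule.finrank_eq_zero (R := ℝ), e2, h0.1]
  have h2 : S ∈ LinearMap.ker s := hS
  rw [h1] at h2
  exact h2

lemma ae_inj_on [FiniteDimensional ℝ M] (hM : finrank ℝ M = 3) (hsi : ∀ S, s S = 0 → S = 0)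
    (Q : Submodule ℝ M) (hQ : Q ≠ ⊤) : ∀ᵐ y : E3 ∂volume, ∀ S ∈ Q, ev y (s S) = 0 → S = 0 := by
  have h1 : finrank ℝ Q < finrank ℝ M := Submodule.finrank_lt hQ
  have h2 : finrank ℝ (Q.map s) ≤ finrank ℝ Q := Submodule.finrank_map_le s Q
  filter_upwards [eval_two (Q.map s) (by omega)] with y hy S hS hyS
  apply hsi
  have h3 : s S ∈ Q.map s ⊓ LinearMap.ker (ev y) := ⟨Submodule.mem_map_of_mem hS, hyS⟩
  rw [hy] at h3
  exact h3

/-- The main step. -/
theorem smul_of_dep [FiniteDimensional ℝ M] (h3 : 3 ≤ finrank ℝ M)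
    (hinj : ∀ S, s S = 0 → t S = 0 → S = 0) (hs : s ≠ 0) (ht : t ≠ 0) (hst : s ≠ t)
    (hd : Dep s t) : ∃ c : ℝ, c ≠ 0 ∧ t = c • s := by
  by_contra hne
  have hr := ae_rank_le h3 hinj hs ht hd hne
  obtain ⟨hM, hsi⟩ := inj_of_rank h3 hinj hs hr
  obtain ⟨-, hti⟩ := inj_of_rank (s := t) (t := s) h3 (fun S h1 h2 => hinj S h2 h1) ht (by
    filter_upwards [hr] with x hx
    rwa [inf_comm])
  obtain ⟨R, hR⟩ : ∃ R, s R - t R ≠ 0 := by
    by_contra hcon
    push Not at hcon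
    exact hst (LinearMap.ext fun R => sub_eq_zero.mp (hcon R))
  obtain ⟨R', hR'⟩ : ∃ S, s S ≠ 0 := by
    by_contra hcon
    push Not at hcon
    exact hs (LinearMap.ext hcon)
  -- a common kernel vector
  have hker : ∀ x : E3, finrank ℝ M ≤
      finrank ℝ ↥(LinearMap.ker ((ev x).comp s) ⊓ LinearMap.ker ((ev x).comp t)) + 2 →
      ∃ S, S ≠ 0 ∧ ev x (s S) = 0 ∧ ev x (t S) = 0 := by
    intro x hx
    have h1 : LinearMap.ker ((ev x).comp s) ⊓ LinearMap.ker ((ev x).comp t) ≠ ⊥ := by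
      intro h0
      rw [h0, finrank_bot] at hx
      omega
    obtain ⟨S, hS, hS0⟩ := Submodule.exists_mem_ne_zero_of_ne_bot h1
    exact ⟨S, hS0, hS.1, hS.2⟩
  obtain ⟨x, ⟨hx, hxR⟩, hxR'⟩ := ((hr.and (ae_ev_ne hR)).and (ae_ev_ne hR')).exists
  obtain ⟨Kx, hKx, hKxs, hKxt⟩ := hker x hx
  have htKx : t Kx ≠ 0 := fun h => hKx (hti _ h)
  have hQx : LinearMap.ker ((ev x).comp s) ≠ ⊤ := by
    intro h0
    apply hxR'
    have : R' ∈ LinearMap.ker ((ev x).comp s) := h0 ▸ Submodule.mem_top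
    exact this
  obtain ⟨y, ⟨⟨⟨hy, hyR⟩, hyQ⟩, hyt⟩⟩ :=
    (((hr.and (ae_inner_ne hxR x)).and (ae_inj_on hM hsi _ hQx)).and (ae_ev_ne htKx)).exists
  obtain ⟨Ky, hKy, hKys, hKyt⟩ := hker y hy
  have hxKy : ev x (s Ky) ≠ 0 := fun h => hKy (hyQ Ky h hKys)
  let φ : M →ₗ[ℝ] ℝ := (innerₛₗ ℝ (x - y)).comp ((ev x).comp (s - t))
  have hφ : ∀ S, φ S = ⟪ev x (s S - t S), x - y⟫ := fun S => by
    simp only [φ, LinearMap.comp_apply, innerₛₗ_apply_apply, LinearMap.sub_apply]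
    exact real_inner_comm _ _
  have hφR : φ R ≠ 0 := by
    rw [hφ, ← neg_sub y x, inner_neg_right]
    exact neg_ne_zero.mpr hyR
  have hP : LinearMap.ker φ ≠ ⊤ := by
    intro h0
    apply hφR
    have : R ∈ LinearMap.ker φ := h0 ▸ Submodule.mem_top
    exact this
  obtain ⟨z, ⟨⟨⟨hz, hzP⟩, hzy⟩, hzx⟩⟩ :=
    (((hr.and (ae_inj_on hM hsi _ hP)).and (ae_inner_ne hyt y)).and (ae_inner_ne hxKy x)).exists
  obtain ⟨Kz, hKz, hKzs, hKzt⟩ := hker z hz
  have hφKz : φ Kz ≠ 0 := fun h => hKz (hzP Kz h hKzs)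
  obtain ⟨l, hl, hlS⟩ := hd x y z
  have l0 : l 0 = 0 := by
    have h1 := hlS Kz
    rw [ev_along (t Kz) y z, hKzt, inner_zero_left, ev_along (s Kz) x z, hKzs, inner_zero_left,
      mul_zero, mul_zero, add_zero, add_zero, ← hφ] at h1
    exact (mul_eq_zero.mp h1).resolve_right hφKz
  have l1 : l 1 = 0 := by
    have h1 := hlS Kx
    rw [map_sub, hKxs, hKxt, sub_zero, inner_zero_left, inner_zero_left, mul_zero, mul_zero,
      zero_add, add_zero, ← neg_sub z y, inner_neg_right] at h1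
    exact (mul_eq_zero.mp h1).resolve_right (neg_ne_zero.mpr hzy)
  have l2 : l 2 = 0 := by
    have h1 := hlS Ky
    rw [ev_along _ x y, map_sub, hKys, hKyt, sub_zero, inner_zero_left, inner_zero_left, mul_zero,
      mul_zero, zero_add, zero_add, ← neg_sub z x, inner_neg_right] at h1
    exact (mul_eq_zero.mp h1).resolve_right (neg_ne_zero.mpr hzx)
  apply hl
  funext i
  fin_cases i
  · exact l0
  · exact l1
  · exact l2

end

end ClaimT

theorem claimT (W : Submodule ℝ (Kil × Kil)) (h3 : 3 ≤ finrank ℝ W)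
    (h1 : ∃ S ∈ W, S.1 ≠ 0) (h2 : ∃ S ∈ W, S.2 ≠ 0) (h12 : ∃ S ∈ W, S.1 ≠ S.2)
    (hdep : ∀ x y z : E3, ∃ l : Fin 3 → ℝ, l ≠ 0 ∧ ∀ S ∈ W,
      l 0 * ⟪ev x (S.1 - S.2), x - y⟫ + l 1 * ⟪ev y S.2, y - z⟫ +
        l 2 * ⟪ev x S.1, x - z⟫ = 0) :
    ∃ c : ℝ, c ≠ 0 ∧ c ≠ 1 ∧ ∀ S ∈ W, S.1 = c • S.2 := by
  let s : W →ₗ[ℝ] Kil := (LinearMap.fst ℝ Kil Kil).comp W.subtype
  let t : W →ₗ[ℝ] Kil := (LinearMap.snd ℝ Kil Kil).comp W.subtype
  have hs : s ≠ 0 := by
    obtain ⟨S, hS, hne⟩ := h1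
    intro h0
    exact hne (LinearMap.congr_fun h0 ⟨S, hS⟩)
  have ht : t ≠ 0 := by
    obtain ⟨S, hS, hne⟩ := h2
    intro h0
    exact hne (LinearMap.congr_fun h0 ⟨S, hS⟩)
  have hst : s ≠ t := by
    obtain ⟨S, hS, hne⟩ := h12
    intro h0
    exact hne (LinearMap.congr_fun h0 ⟨S, hS⟩)
  have hd : ClaimT.Dep s t := by
    intro x y z
    obtain ⟨l, hl, hlS⟩ := hdep x y z
    exact ⟨l, hl, fun S => hlS S.1 S.2⟩
  obtain ⟨c, hc0, hc⟩ := ClaimT.smul_of_dep h3
    (fun S h1 h2 => Subtype.ext (Prod.ext h1 h2)) hs ht hst hd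
  have hc' : ∀ S ∈ W, S.2 = c • S.1 := fun S hS => LinearMap.congr_fun hc ⟨S, hS⟩
  refine ⟨c⁻¹, inv_ne_zero hc0, ?_, fun S hS => ?_⟩
  · intro h
    rw [inv_eq_one] at h
    obtain ⟨S, hS, hne⟩ := h12
    apply hne
    rw [hc' S hS, h, one_smul]
  · rw [hc' S hS, smul_smul, inv_mul_cancel₀ hc0, one_smul]

end Pool.Agent.BJ
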