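import Pool.Agent.Lib.MP_37c7bf_BJ.GraphDefs
import Pool.Agent.Lib.MP_37c7bf_co_helper26.Kernel

/-!
Claw-free graphs of minimum degree at least six: the clusters.
-/

open MeasureTheory Module Topology
open scoped RealInnerProductSpace

namespace Pool.Agent.BJ

open Pool.Agent.H26R (E3 crossE GenericallyRigid Flex Spans RX)

section
variable {V : Type} [DecidableEq V]

/-- Clusters: complete graphs on four vertices, octahedra, unions of two clusters with three
common vertices, a cluster together with a vertex having three neighbours in it. -/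
inductive Cluster (Γ : SimpleGraph V) : Finset V → Prop
  | clique {X : Finset V} : X.card = 4 → Γ.IsClique (X : Set V) → Cluster Γ X
  | octahedron {u : Fin 3 → V} {w : Fin 3 → V} :
      (∀ i j, i ≠ j → Γ.Adj (u i) (u j) ∧ Γ.Adj (w i) (w j) ∧ Γ.Adj (u i) (w j)) →
      Function.Injective u → Function.Injective w → (∀ i j, u i ≠ w j) →
      Cluster Γ (Finset.univ.image u ∪ Finset.univ.image w)
  | union {X Y : Finset V} : Cluster Γ X → Cluster Γ Y → 3 ≤ (X ∩ Y).card → Cluster Γ (X ∪ Y)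
  | insert {X T : Finset V} {v : V} : Cluster Γ X → v ∉ X → T ⊆ X → T.card = 3 →
      (∀ t ∈ T, Γ.Adj v t) → Cluster Γ (insert v X)

/-- A triangle of `Γ` none of whose edges lies in a cluster. -/
def LeftTriangle (Γ : SimpleGraph V) (T : Finset V) : Prop :=
  T.card = 3 ∧ Γ.IsClique (T : Set V) ∧
    ∀ x ∈ T, ∀ y ∈ T, x ≠ y → ∀ X, Cluster Γ X → ¬ (x ∈ X ∧ y ∈ X)

/-- The bodies of `Γ`: its maximal clusters and its triangles none of whose edges lies in a
cluster. -/
def Body (Γ : SimpleGraph V) : Type :=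
  {X : Finset V // Maximal (Cluster Γ) X ∨ LeftTriangle Γ X}

/-- The vertex set of a body. -/
def Body.verts {Γ : SimpleGraph V} (X : Body Γ) : Finset V := X.1

/-- No vertex has three pairwise nonadjacent neighbours. -/
def ClawFree (Γ : SimpleGraph V) : Prop :=
  ∀ v x y z, Γ.Adj v x → Γ.Adj v y → Γ.Adj v z → x ≠ y → x ≠ z → y ≠ z →
    Γ.Adj x y ∨ Γ.Adj x z ∨ Γ.Adj y z

end

/-! ### Combinatorics of clusters -/

section Comb
variable {V : Type} [DecidableEq V] {Γ : SimpleGraph V}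

lemma Cluster.exists_three {X : Finset V} (h : Cluster Γ X) :
    ∀ v ∈ X, ∃ T : Finset V, T ⊆ X ∧ T.card = 3 ∧ ∀ t ∈ T, Γ.Adj v t := by
  induction h with
  | @clique X hc hq =>
    intro v hv
    refine ⟨X.erase v, Finset.erase_subset _ _, by rw [Finset.card_erase_of_mem hv, hc], ?_⟩
    intro t ht
    rw [Finset.mem_erase] at ht
    exact hq hv ht.2 (Ne.symm ht.1)
  | @octahedron u w hadj hu hw huw =>
    intro v hv
    rw [Finset.mem_union, Finset.mem_image, Finset.mem_image] at hv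
    rcases hv with ⟨i, -, rfl⟩ | ⟨i, -, rfl⟩
    · have h1 : i ≠ i + 1 := by fin_cases i <;> decide
      have h2 : i ≠ i + 2 := by fin_cases i <;> decide
      have h3 : i + 1 ≠ i + 2 := by fin_cases i <;> decide
      refine ⟨{u (i + 1), u (i + 2), w (i + 1)}, ?_, ?_, ?_⟩
      · intro t ht
        simp only [Finset.mem_insert, Finset.mem_singleton] at ht
        rcases ht with rfl | rfl | rfl
        · exact Finset.mem_union_left _ (Finset.mem_image_of_mem _ (Finset.mem_univ _))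
        · exact Finset.mem_union_left _ (Finset.mem_image_of_mem _ (Finset.mem_univ _))
        · exact Finset.mem_union_right _ (Finset.mem_image_of_mem _ (Finset.mem_univ _))
      · exact Finset.card_eq_three.2 ⟨_, _, _, hu.ne h3, huw _ _, huw _ _, rfl⟩
      · intro t ht
        simp only [Finset.mem_insert, Finset.mem_singleton] at ht
        rcases ht with rfl | rfl | rfl
        · exact (hadj _ _ h1).1
        · exact (hadj _ _ h2).1
        · exact (hadj _ _ h1).2.2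
    · have h1 : i ≠ i + 1 := by fin_cases i <;> decide
      have h2 : i ≠ i + 2 := by fin_cases i <;> decide
      have h3 : i + 1 ≠ i + 2 := by fin_cases i <;> decide
      refine ⟨{w (i + 1), w (i + 2), u (i + 1)}, ?_, ?_, ?_⟩
      · intro t ht
        simp only [Finset.mem_insert, Finset.mem_singleton] at ht
        rcases ht with rfl | rfl | rfl
        · exact Finset.mem_union_right _ (Finset.mem_image_of_mem _ (Finset.mem_univ _))
        · exact Finset.mem_union_right _ (Finset.mem_image_of_mem _ (Finset.mem_univ _))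
        · exact Finset.mem_union_left _ (Finset.mem_image_of_mem _ (Finset.mem_univ _))
      · exact Finset.card_eq_three.2 ⟨_, _, _, hw.ne h3, (huw _ _).symm, (huw _ _).symm, rfl⟩
      · intro t ht
        simp only [Finset.mem_insert, Finset.mem_singleton] at ht
        rcases ht with rfl | rfl | rfl
        · exact (hadj _ _ h1).2.1
        · exact (hadj _ _ h2).2.1
        · exact (hadj _ _ h1.symm).2.2.symm
  | @union X Y _ _ _ ihX ihY =>
    intro v hv
    rcases Finset.mem_union.1 hv with hv | hv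
    · obtain ⟨T, h1, h2, h3⟩ := ihX v hv
      exact ⟨T, h1.trans Finset.subset_union_left, h2, h3⟩
    · obtain ⟨T, h1, h2, h3⟩ := ihY v hv
      exact ⟨T, h1.trans Finset.subset_union_right, h2, h3⟩
  | @insert X T v _ _ hT hc hadj ih =>
    intro x hx
    rcases Finset.mem_insert.1 hx with rfl | hx
    · exact ⟨T, hT.trans (Finset.subset_insert _ _), hc, hadj⟩
    · obtain ⟨T', h1, h2, h3⟩ := ih x hx
      exact ⟨T', h1.trans (Finset.subset_insert _ _), h2, h3⟩

lemma max_eq {X Y : Finset V} (hX : Maximal (Cluster Γ) X) (hY : Maximal (Cluster Γ) Y)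
    {a b c : V} (hab : a ≠ b) (hac : a ≠ c) (hbc : b ≠ c) (haX : a ∈ X) (hbX : b ∈ X)
    (hcX : c ∈ X) (haY : a ∈ Y) (hbY : b ∈ Y) (hcY : c ∈ Y) : X = Y := by
  have hcard : 3 ≤ (X ∩ Y).card := by
    have h3 : ({a, b, c} : Finset V).card = 3 := Finset.card_eq_three.2 ⟨a, b, c, hab, hac, hbc, rfl⟩
    rw [← h3]
    refine Finset.card_le_card ?_
    intro t ht
    simp only [Finset.mem_insert, Finset.mem_singleton] at ht
    rcases ht with rfl | rfl | rfl
    · exact Finset.mem_inter.2 ⟨haX, haY⟩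
    · exact Finset.mem_inter.2 ⟨hbX, hbY⟩
    · exact Finset.mem_inter.2 ⟨hcX, hcY⟩
  have hU : Cluster Γ (X ∪ Y) := Cluster.union hX.prop hY.prop hcard
  have e1 : X = X ∪ Y := le_antisymm Finset.subset_union_left (hX.2 hU Finset.subset_union_left)
  have e2 : Y = X ∪ Y := le_antisymm Finset.subset_union_right (hY.2 hU Finset.subset_union_right)
  rw [e1]; exact e2.symm

lemma mem_of_three {X : Finset V} (hX : Maximal (Cluster Γ) X) {v a b c : V}
    (hab : a ≠ b) (hac : a ≠ c) (hbc : b ≠ c) (ha : a ∈ X) (hb : b ∈ X) (hc : c ∈ X)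
    (hva : Γ.Adj v a) (hvb : Γ.Adj v b) (hvc : Γ.Adj v c) : v ∈ X := by
  by_contra hv
  have hI : Cluster Γ (insert v X) := by
    refine Cluster.insert (T := {a, b, c}) hX.prop hv ?_
      (Finset.card_eq_three.2 ⟨a, b, c, hab, hac, hbc, rfl⟩) ?_
    · intro t ht
      simp only [Finset.mem_insert, Finset.mem_singleton] at ht
      rcases ht with rfl | rfl | rfl <;> assumption
    · intro t ht
      simp only [Finset.mem_insert, Finset.mem_singleton] at ht
      rcases ht with rfl | rfl | rfl <;> assumption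
  exact hv (hX.2 hI (Finset.subset_insert _ _) (Finset.mem_insert_self _ _))

lemma nbrs {X : Finset V} (hX : Maximal (Cluster Γ) X) {v : V} (hv : v ∈ X) :
    ∃ a b c, a ≠ b ∧ a ≠ c ∧ b ≠ c ∧ a ∈ X ∧ b ∈ X ∧ c ∈ X ∧ Γ.Adj v a ∧ Γ.Adj v b ∧
      Γ.Adj v c := by
  obtain ⟨T, hT, hc, hadj⟩ := hX.prop.exists_three v hv
  obtain ⟨a, b, c, hab, hac, hbc, rfl⟩ := Finset.card_eq_three.1 hc
  have ha : a ∈ ({a, b, c} : Finset V) := by simp
  have hb : b ∈ ({a, b, c} : Finset V) := by simp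
  have hc' : c ∈ ({a, b, c} : Finset V) := by simp
  exact ⟨a, b, c, hab, hac, hbc, hT ha, hT hb, hT hc', hadj _ ha, hadj _ hb, hadj _ hc'⟩

/-- A neighbour outside the cluster has two nonneighbours among the neighbours inside. -/
lemma exists_two_nonadj {X : Finset V} (hX : Maximal (Cluster Γ) X) {v a : V} (hv : v ∈ X)
    (hva : Γ.Adj v a) (ha : a ∉ X) :
    ∃ b b', b ≠ b' ∧ b ∈ X ∧ b' ∈ X ∧ Γ.Adj v b ∧ Γ.Adj v b' ∧ ¬ Γ.Adj a b ∧ ¬ Γ.Adj a b' := by
  obtain ⟨x, y, z, hxy, hxz, hyz, hx, hy, hz, hvx, hvy, hvz⟩ := nbrs hX hv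
  by_cases h1 : Γ.Adj a x
  · refine ⟨y, z, hyz, hy, hz, hvy, hvz, fun h => ?_, fun h => ?_⟩
    · exact ha (mem_of_three hX hvx.ne hvy.ne hxy hv hx hy hva.symm h1 h)
    · exact ha (mem_of_three hX hvx.ne hvz.ne hxz hv hx hz hva.symm h1 h)
  · by_cases h2 : Γ.Adj a y
    · refine ⟨x, z, hxz, hx, hz, hvx, hvz, h1, fun h => ?_⟩
      exact ha (mem_of_three hX hvy.ne hvz.ne hyz hv hy hz hva.symm h2 h)
    · exact ⟨x, y, hxy, hx, hy, hvx, hvy, h1, h2⟩

/-- A neighbour of a vertex lying in two clusters lies in one of them. -/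
lemma mem_or_mem (hcl : ClawFree Γ) {X Y : Finset V} (hX : Maximal (Cluster Γ) X)
    (hY : Maximal (Cluster Γ) Y) (hne : X ≠ Y) {v a : V} (hvX : v ∈ X) (hvY : v ∈ Y)
    (hva : Γ.Adj v a) : a ∈ X ∨ a ∈ Y := by
  by_contra hcon
  simp only [not_or] at hcon
  obtain ⟨haX, haY⟩ := hcon
  obtain ⟨b, b', hbb, hb, hb', hvb, hvb', hab, hab'⟩ := exists_two_nonadj hX hvX hva haX
  obtain ⟨c, c', hcc, hc, hc', hvc, hvc', hac, hac'⟩ := exists_two_nonadj hY hvY hva haY
  have key : ∀ d, d ∈ Y → Γ.Adj v d → ¬ Γ.Adj a d → d ∈ X := by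
    intro d hd hvd had
    by_cases h1 : d = b
    · rw [h1]; exact hb
    by_cases h2 : d = b'
    · rw [h2]; exact hb'
    have had' : a ≠ d := fun h => haY (h ▸ hd)
    have hab0 : a ≠ b := fun h => haX (h ▸ hb)
    have hab0' : a ≠ b' := fun h => haX (h ▸ hb')
    have g1 : Γ.Adj b d := by
      rcases hcl v a b d hva hvb hvd hab0 had' (Ne.symm h1) with h | h | h
      · exact absurd h hab
      · exact absurd h had
      · exact h
    have g2 : Γ.Adj b' d := by
      rcases hcl v a b' d hva hvb' hvd hab0' had' (Ne.symm h2) with h | h | h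
      · exact absurd h hab'
      · exact absurd h had
      · exact h
    exact mem_of_three hX hvb.ne hvb'.ne hbb hvX hb hb' hvd.symm g1.symm g2.symm
  exact hne (max_eq hX hY hvc.ne hvc'.ne hcc hvX (key c hc hvc hac) (key c' hc' hvc' hac') hvY
    hc hc')

/-- Neighbours outside a cluster are adjacent. -/
lemma out_adj (hcl : ClawFree Γ) {X : Finset V} (hX : Maximal (Cluster Γ) X) {v w w' : V}
    (hv : v ∈ X) (hvw : Γ.Adj v w) (hvw' : Γ.Adj v w') (hw : w ∉ X) (hw' : w' ∉ X)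
    (hne : w ≠ w') : Γ.Adj w w' := by
  by_contra hn
  obtain ⟨x, y, z, hxy, hxz, hyz, hx, hy, hz, hvx, hvy, hvz⟩ := nbrs hX hv
  have key : ∀ t, t ∈ X → Γ.Adj v t → Γ.Adj w t ∨ Γ.Adj w' t := by
    intro t ht hvt
    rcases hcl v w w' t hvw hvw' hvt hne (fun h => hw (h ▸ ht)) (fun h => hw' (h ▸ ht)) with
      h | h | h
    · exact absurd h hn
    · exact Or.inl h
    · exact Or.inr h
  have k1 : ∀ s t, s ≠ t → s ∈ X → t ∈ X → Γ.Adj v s → Γ.Adj v t → ¬ (Γ.Adj w s ∧ Γ.Adj w t) := by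
    rintro s t hst hs ht hvs hvt ⟨h1, h2⟩
    exact hw (mem_of_three hX hvs.ne hvt.ne hst hv hs ht hvw.symm h1 h2)
  have k2 : ∀ s t, s ≠ t → s ∈ X → t ∈ X → Γ.Adj v s → Γ.Adj v t →
      ¬ (Γ.Adj w' s ∧ Γ.Adj w' t) := by
    rintro s t hst hs ht hvs hvt ⟨h1, h2⟩
    exact hw' (mem_of_three hX hvs.ne hvt.ne hst hv hs ht hvw'.symm h1 h2)
  have a1 := k1 x y hxy hx hy hvx hvy
  have a2 := k1 x z hxz hx hz hvx hvz
  have a3 := k1 y z hyz hy hz hvy hvz
  have b1 := k2 x y hxy hx hy hvx hvy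
  have b2 := k2 x z hxz hx hz hvx hvz
  have b3 := k2 y z hyz hy hz hvy hvz
  rcases key x hx hvx with h1 | h1 <;> rcases key y hy hvy with h2 | h2 <;>
    rcases key z hz hvz with h3 | h3 <;>
    first
      | exact a1 ⟨h1, h2⟩
      | exact a2 ⟨h1, h3⟩
      | exact a3 ⟨h2, h3⟩
      | exact b1 ⟨h1, h2⟩
      | exact b2 ⟨h1, h3⟩
      | exact b3 ⟨h2, h3⟩

lemma exists_max [Finite V] {X : Finset V} (h : Cluster Γ X) :
    ∃ Y, X ⊆ Y ∧ Maximal (Cluster Γ) Y := by
  obtain ⟨Y, h1, h2⟩ := Finite.exists_le_maximal h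
  exact ⟨Y, h1, h2⟩

lemma exists_max_four [Finite V] {a b c d : V} (hab : Γ.Adj a b) (hac : Γ.Adj a c)
    (had : Γ.Adj a d) (hbc : Γ.Adj b c) (hbd : Γ.Adj b d) (hcd : Γ.Adj c d) :
    ∃ Y, Maximal (Cluster Γ) Y ∧ a ∈ Y ∧ b ∈ Y ∧ c ∈ Y ∧ d ∈ Y := by
  have hC : Cluster Γ ({a, b, c, d} : Finset V) := by
    refine Cluster.clique ?_ ?_
    · rw [Finset.card_insert_of_notMem, Finset.card_eq_three.2 ⟨b, c, d, hbc.ne, hbd.ne, hcd.ne, rfl⟩]
      simp only [Finset.mem_insert, Finset.mem_singleton, not_or]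
      exact ⟨hab.ne, hac.ne, had.ne⟩
    · intro x hx y hy hxy
      simp only [Finset.coe_insert, Finset.coe_singleton, Set.mem_insert_iff,
        Set.mem_singleton_iff] at hx hy
      rcases hx with rfl | rfl | rfl | rfl <;> rcases hy with rfl | rfl | rfl | rfl <;>
        first
          | exact absurd rfl hxy
          | assumption
          | (apply SimpleGraph.Adj.symm; assumption)
  obtain ⟨Y, h1, h2⟩ := exists_max hC
  exact ⟨Y, h2, h1 (by simp), h1 (by simp), h1 (by simp), h1 (by simp)⟩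

/-- A vertex of one cluster only has at most two neighbours outside. -/
lemma two_out [Finite V] (hcl : ClawFree Γ) {X : Finset V} (hX : Maximal (Cluster Γ) X)
    {v a b c : V} (hv : v ∈ X) (huniq : ∀ Y, Maximal (Cluster Γ) Y → v ∈ Y → Y = X)
    (hva : Γ.Adj v a) (hvb : Γ.Adj v b) (hvc : Γ.Adj v c) (ha : a ∉ X) (hb : b ∉ X)
    (hc : c ∉ X) (hab : a ≠ b) (hac : a ≠ c) (hbc : b ≠ c) : False := by
  have h1 := out_adj hcl hX hv hva hvb ha hb hab
  have h2 := out_adj hcl hX hv hva hvc ha hc hac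
  have h3 := out_adj hcl hX hv hvb hvc hb hc hbc
  obtain ⟨Y, hY, hvY, haY, -, -⟩ := exists_max_four hva hvb hvc h1 h2 h3
  rw [huniq Y hY hvY] at haY
  exact ha haY

lemma triangle_of_six {N : Finset V} (hN : 6 ≤ N.card)
    (h : ∀ x ∈ N, ∀ y ∈ N, ∀ z ∈ N, x ≠ y → x ≠ z → y ≠ z →
      Γ.Adj x y ∨ Γ.Adj x z ∨ Γ.Adj y z) :
    ∃ x ∈ N, ∃ y ∈ N, ∃ z ∈ N, Γ.Adj x y ∧ Γ.Adj x z ∧ Γ.Adj y z := by
  classical
  obtain ⟨a, ha⟩ : N.Nonempty := Finset.card_pos.1 (by omega)
  have hc : (N.erase a).card = N.card - 1 := Finset.card_erase_of_mem ha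
  have hsum := Finset.card_filter_add_card_filter_not (s := N.erase a) (fun x => Γ.Adj a x)
  have hor : 2 < ((N.erase a).filter fun x => Γ.Adj a x).card ∨
      2 < ((N.erase a).filter fun x => ¬ Γ.Adj a x).card := by omega
  rcases hor with h1 | h1
  · obtain ⟨x, y, z, hx, hy, hz, hxy, hxz, hyz⟩ := Finset.two_lt_card_iff.1 h1
    rw [Finset.mem_filter, Finset.mem_erase] at hx hy hz
    rcases h x hx.1.2 y hy.1.2 z hz.1.2 hxy hxz hyz with h2 | h2 | h2
    · exact ⟨a, ha, x, hx.1.2, y, hy.1.2, hx.2, hy.2, h2⟩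
    · exact ⟨a, ha, x, hx.1.2, z, hz.1.2, hx.2, hz.2, h2⟩
    · exact ⟨a, ha, y, hy.1.2, z, hz.1.2, hy.2, hz.2, h2⟩
  · obtain ⟨x, y, z, hx, hy, hz, hxy, hxz, hyz⟩ := Finset.two_lt_card_iff.1 h1
    rw [Finset.mem_filter, Finset.mem_erase] at hx hy hz
    have key : ∀ s t, s ∈ N → t ∈ N → s ≠ a → t ≠ a → s ≠ t → ¬ Γ.Adj a s → ¬ Γ.Adj a t →
        Γ.Adj s t := by
      intro s t hs ht hsa hta hst h2 h3
      rcases h a ha s hs t ht (Ne.symm hsa) (Ne.symm hta) hst with h4 | h4 | h4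
      · exact absurd h4 h2
      · exact absurd h4 h3
      · exact h4
    exact ⟨x, hx.1.2, y, hy.1.2, z, hz.1.2, key x y hx.1.2 hy.1.2 hx.1.1 hy.1.1 hxy hx.2 hy.2,
      key x z hx.1.2 hz.1.2 hx.1.1 hz.1.1 hxz hx.2 hz.2,
      key y z hy.1.2 hz.1.2 hy.1.1 hz.1.1 hyz hy.2 hz.2⟩

lemma exists_max_mem [Finite V] (hcl : ClawFree Γ) (hdeg : ∀ v, 6 ≤ (Γ.neighborSet v).ncard)
    (v : V) : ∃ X, Maximal (Cluster Γ) X ∧ v ∈ X := by
  classical
  have hfin : (Γ.neighborSet v).Finite := Set.toFinite _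
  have h6 : 6 ≤ hfin.toFinset.card := by
    rw [← Set.ncard_eq_toFinset_card _ hfin]; exact hdeg v
  obtain ⟨x, hx, y, hy, z, hz, hxy, hxz, hyz⟩ := triangle_of_six (Γ := Γ) h6 (by
    intro x hx y hy z hz hxy hxz hyz
    rw [Set.Finite.mem_toFinset] at hx hy hz
    exact hcl v x y z hx hy hz hxy hxz hyz)
  rw [Set.Finite.mem_toFinset] at hx hy hz
  obtain ⟨Y, hY, hvY, -⟩ := exists_max_four hx hy hz hxy hxz hyz
  exact ⟨Y, hY, hvY⟩

lemma not_three (hcl : ClawFree Γ) {X Y Z : Finset V} (hX : Maximal (Cluster Γ) X)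
    (hY : Maximal (Cluster Γ) Y) (hZ : Maximal (Cluster Γ) Z) {v : V} (hvX : v ∈ X)
    (hvY : v ∈ Y) (hvZ : v ∈ Z) : X = Y ∨ X = Z ∨ Y = Z := by
  by_contra hcon
  simp only [not_or] at hcon
  obtain ⟨hXY, hXZ, hYZ⟩ := hcon
  obtain ⟨x, y, z, hxy, hxz, hyz, hx, hy, hz, hvx, hvy, hvz⟩ := nbrs hX hvX
  have kY : ∀ s t, s ≠ t → s ∈ X → t ∈ X → Γ.Adj v s → Γ.Adj v t → ¬ (s ∈ Y ∧ t ∈ Y) := by
    rintro s t hst hs ht hvs hvt ⟨h1, h2⟩
    exact hXY (max_eq hX hY hvs.ne hvt.ne hst hvX hs ht hvY h1 h2)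
  have kZ : ∀ s t, s ≠ t → s ∈ X → t ∈ X → Γ.Adj v s → Γ.Adj v t → ¬ (s ∈ Z ∧ t ∈ Z) := by
    rintro s t hst hs ht hvs hvt ⟨h1, h2⟩
    exact hXZ (max_eq hX hZ hvs.ne hvt.ne hst hvX hs ht hvZ h1 h2)
  have a1 := kY x y hxy hx hy hvx hvy
  have a2 := kY x z hxz hx hz hvx hvz
  have a3 := kY y z hyz hy hz hvy hvz
  have b1 := kZ x y hxy hx hy hvx hvy
  have b2 := kZ x z hxz hx hz hvx hvz
  have b3 := kZ y z hyz hy hz hvy hvz
  rcases mem_or_mem hcl hY hZ hYZ hvY hvZ hvx with h1 | h1 <;>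
    rcases mem_or_mem hcl hY hZ hYZ hvY hvZ hvy with h2 | h2 <;>
    rcases mem_or_mem hcl hY hZ hYZ hvY hvZ hvz with h3 | h3 <;>
    first
      | exact a1 ⟨h1, h2⟩
      | exact a2 ⟨h1, h3⟩
      | exact a3 ⟨h2, h3⟩
      | exact b1 ⟨h1, h2⟩
      | exact b2 ⟨h1, h3⟩
      | exact b3 ⟨h2, h3⟩

/-- The two other vertices of a left-over triangle. -/
lemma LeftTriangle.others {T : Finset V} (hT : LeftTriangle Γ T) {x : V} (hx : x ∈ T) :
    ∃ y z, y ≠ z ∧ Γ.Adj x y ∧ Γ.Adj x z ∧ Γ.Adj y z ∧ T = {x, y, z} ∧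
      ∀ X, Cluster Γ X → x ∈ X → y ∉ X ∧ z ∉ X := by
  obtain ⟨hc, hq, hno⟩ := hT
  have hc2 : (T.erase x).card = 2 := by rw [Finset.card_erase_of_mem hx, hc]
  obtain ⟨y, z, hyz, he⟩ := Finset.card_eq_two.1 hc2
  have hy : y ∈ T.erase x := by rw [he]; simp
  have hz : z ∈ T.erase x := by rw [he]; simp
  rw [Finset.mem_erase] at hy hz
  refine ⟨y, z, hyz, hq hx hy.2 (Ne.symm hy.1), hq hx hz.2 (Ne.symm hz.1), hq hy.2 hz.2 hyz, ?_, ?_⟩
  · rw [← Finset.insert_erase hx, he]
  · intro X hX hxX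
    exact ⟨fun h => hno x hx y hy.2 (Ne.symm hy.1) X hX ⟨hxX, h⟩,
      fun h => hno x hx z hz.2 (Ne.symm hz.1) X hX ⟨hxX, h⟩⟩

/-- A vertex of a left-over triangle lies in one maximal cluster only. -/
lemma LeftTriangle.unique (hcl : ClawFree Γ) {T : Finset V} (hT : LeftTriangle Γ T) {x : V}
    (hx : x ∈ T) {X Y : Finset V} (hX : Maximal (Cluster Γ) X) (hY : Maximal (Cluster Γ) Y)
    (hxX : x ∈ X) (hxY : x ∈ Y) : X = Y := by
  by_contra hne
  obtain ⟨y, z, -, hxy, -, -, -, hno⟩ := hT.others hx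
  rcases mem_or_mem hcl hX hY hne hxX hxY hxy with h | h
  · exact (hno X hX.prop hxX).1 h
  · exact (hno Y hY.prop hxY).1 h

/-- Neighbours outside the cluster of a vertex of a left-over triangle lie in the triangle. -/
lemma LeftTriangle.mem [Finite V] (hcl : ClawFree Γ) {T : Finset V} (hT : LeftTriangle Γ T)
    {x w : V} (hx : x ∈ T) {X : Finset V} (hX : Maximal (Cluster Γ) X) (hxX : x ∈ X)
    (hxw : Γ.Adj x w) (hw : w ∉ X) : w ∈ T := by
  obtain ⟨y, z, hyz, hxy, hxz, -, he, hno⟩ := hT.others hx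
  by_contra hwT
  have hwy : w ≠ y := by rintro rfl; apply hwT; rw [he]; simp
  have hwz : w ≠ z := by rintro rfl; apply hwT; rw [he]; simp
  exact two_out hcl hX hxX (fun Y hY hxY => hT.unique hcl hx hY hX hxY hxX) hxw hxy hxz hw
    (hno X hX.prop hxX).1 (hno X hX.prop hxX).2 hwy hwz hyz

lemma LeftTriangle.eq [Finite V] (hcl : ClawFree Γ) (hdeg : ∀ v, 6 ≤ (Γ.neighborSet v).ncard)
    {S T : Finset V} (hS : LeftTriangle Γ S) (hT : LeftTriangle Γ T) {x : V} (hxS : x ∈ S)
    (hxT : x ∈ T) : S = T := by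
  obtain ⟨X, hX, hxX⟩ := exists_max_mem hcl hdeg x
  obtain ⟨y, z, -, hxy, hxz, -, he, hno⟩ := hS.others hxS
  refine Finset.eq_of_subset_of_card_le ?_ (by rw [hS.1, hT.1])
  rw [he]
  intro t ht
  simp only [Finset.mem_insert, Finset.mem_singleton] at ht
  rcases ht with rfl | rfl | rfl
  · exact hxT
  · exact hT.mem hcl hxT hX hxX hxy (hno X hX.prop hxX).1
  · exact hT.mem hcl hxT hX hxX hxz (hno X hX.prop hxX).2

/-- The end of a bar lies in one body only, a maximal cluster. -/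
lemma bar_body [Finite V] (hcl : ClawFree Γ) {x y : V}
    (h : (bars Γ (Body.verts (Γ := Γ))).Adj x y) {X : Finset V} (hX : Maximal (Cluster Γ) X)
    (hxX : x ∈ X) (i : Body Γ) (hi : x ∈ i.verts) : i.verts = X := by
  have hyX : y ∉ X := fun hy => h.2 ⟨X, Or.inl hX⟩ ⟨hxX, hy⟩
  obtain ⟨Y, hY | hY⟩ := i
  · by_contra hne
    have hne' : Y ≠ X := hne
    have hxY : x ∈ Y := hi
    rcases mem_or_mem hcl hY hX hne' hxY hxX h.1 with h1 | h1
    · exact h.2 ⟨Y, Or.inl hY⟩ ⟨hxY, h1⟩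
    · exact hyX h1
  · exact absurd ⟨hi, hY.mem hcl hi hX hxX h.1 hyX⟩ (h.2 ⟨Y, Or.inr hY⟩)

lemma bar_unique [Finite V] (hcl : ClawFree Γ) {x y : V}
    (h : (bars Γ (Body.verts (Γ := Γ))).Adj x y) {X : Finset V} (hX : Maximal (Cluster Γ) X)
    (hxX : x ∈ X) (Y : Finset V) (hY : Maximal (Cluster Γ) Y) (hxY : x ∈ Y) : Y = X :=
  bar_body hcl h hX hxX ⟨Y, Or.inl hY⟩ hxY

end Comb

section
variable {V : Type} [DecidableEq V]

/-- Complete graphs on four vertices. -/
theorem rx_clique [Fintype V] {Γ : SimpleGraph V} {X : Finset V} (h4 : X.card = 4)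
    (hX : Γ.IsClique (X : Set V)) : RX Γ (X : Set V) := by
  have hcard : Fintype.card X = 4 := by rw [Fintype.card_coe, h4]
  obtain ⟨f⟩ : Nonempty (Fin 4 ↪ X) := by
    rw [Function.Embedding.nonempty_iff_card_le]; simp [h4]
  have hne : ∀ i j : Fin 4, i ≠ j → (f i : V) ≠ f j := fun i j hij h =>
    hij (f.injective (Subtype.ext h))
  obtain ⟨p, hp⟩ := (Pool.Agent.H26R.ae_spans (hne 0 1 (by decide)) (hne 0 2 (by decide))
    (hne 0 3 (by decide)) (hne 1 2 (by decide)) (hne 1 3 (by decide))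
    (hne 2 3 (by decide))).exists
  refine ⟨p, ?_⟩
  rw [SimpleGraph.induce_eq_top.2 hX]
  exact Pool.Agent.H26R.finrank_Flex_top_le ⟨f 0, f 1, f 2, f 3, hp⟩

/-- Gluing along three vertices. -/
theorem rx_union [Fintype V] {Γ : SimpleGraph V} {X Y : Finset V}
    (hY4 : 4 ≤ Y.card) (hX : RX Γ (X : Set V)) (hY : RX Γ (Y : Set V))
    (h3 : 3 ≤ (X ∩ Y).card) : RX Γ ((X ∪ Y : Finset V) : Set V) := by
  classical
  obtain ⟨T, hT, hT3⟩ := Finset.exists_subset_card_eq h3
  obtain ⟨a, b, c, hab, hac, hbc, rfl⟩ := Finset.card_eq_three.1 hT3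
  have haX := Finset.mem_inter.1 (hT (Finset.mem_insert_self a _))
  have hbX := Finset.mem_inter.1 (hT (show b ∈ ({a, b, c} : Finset V) by simp))
  have hcX := Finset.mem_inter.1 (hT (show c ∈ ({a, b, c} : Finset V) by simp))
  have hex : ∀ Z : Finset V, 4 ≤ Z.card → ∃ d ∈ Z, a ≠ d ∧ b ≠ d ∧ c ≠ d := by
    intro Z hZ
    obtain ⟨d, hd, hd'⟩ := Finset.exists_mem_notMem_of_card_lt_card
      (show ({a, b, c} : Finset V).card < Z.card by rw [hT3]; omega)
    simp only [Finset.mem_insert, Finset.mem_singleton, not_or] at hd'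
    exact ⟨d, hd, Ne.symm hd'.1, Ne.symm hd'.2.1, Ne.symm hd'.2.2⟩
  obtain ⟨e, heY, hae, hbe, hce⟩ := hex Y hY4
  have h1 := Pool.Agent.H26R.ae_spans hab hac hae hbc hbe hce
  obtain ⟨p, ⟨hs, hmX⟩, hmY⟩ := ((h1.and hX.ae).and hY.ae).exists
  have hXU : (X : Set V) ⊆ ((X ∪ Y : Finset V) : Set V) := by
    intro z hz; exact Finset.mem_coe.2 (Finset.mem_union_left _ hz)
  have hYU : (Y : Set V) ⊆ ((X ∪ Y : Finset V) : Set V) := by
    intro z hz; exact Finset.mem_coe.2 (Finset.mem_union_right _ hz)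
  refine ⟨p, le_trans ?_ hmX⟩
  apply LinearMap.finrank_le_finrank_of_injective
    (f := Pool.Agent.H26R.resMap Γ hXU p)
  rw [← LinearMap.ker_eq_bot, LinearMap.ker_eq_bot']
  rintro ⟨v, hv⟩ h0
  have hvX : ∀ y (hy : y ∈ X), v ⟨y, hXU hy⟩ = 0 := fun y hy =>
    congrFun (congrArg Subtype.val h0) ⟨y, hy⟩
  have hF := Pool.Agent.H26R.Flex_eq_range_triv (p := fun x : (Y : Set V) => p x)
    ⟨⟨a, haX.2⟩, ⟨b, hbX.2⟩, ⟨c, hcX.2⟩, ⟨e, heY⟩, hs⟩ hmY
  have hmem := Pool.Agent.H26R.restrict_mem hYU hv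
  rw [hF] at hmem
  obtain ⟨z, hz⟩ := hmem
  have hz' : ∀ y (hy : y ∈ Y), Pool.Agent.H26R.K z.1 (p y) + z.2 = v ⟨y, hYU hy⟩ := fun y hy =>
    congrFun hz ⟨y, hy⟩
  have za := (hz' a haX.2).trans (hvX a haX.1)
  have zb := (hz' b hbX.2).trans (hvX b hbX.1)
  have zc := (hz' c hcX.2).trans (hvX c hcX.1)
  have z1 : z.1 = 0 := by
    apply Pool.Agent.H26R.crossE_eq_zero_of hs
    · rw [map_sub, ← add_sub_add_right_eq_sub _ _ z.2, za, zb, sub_zero]
    · rw [map_sub, ← add_sub_add_right_eq_sub _ _ z.2, za, zc, sub_zero]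
  have z2 : z.2 = 0 := by
    rw [z1] at za
    simpa using za
  apply Subtype.ext
  funext y
  rcases y with ⟨y, hy⟩
  rcases Finset.mem_union.1 (Finset.mem_coe.1 hy) with hy' | hy'
  · exact hvX y hy'
  · have := hz' y hy'
    rw [z1, z2] at this
    change v ⟨y, hy⟩ = 0
    rw [← this]
    simp

/-- Octahedra. -/
theorem rx_octahedron [Fintype V] {Γ : SimpleGraph V} {u w : Fin 3 → V}
    (h : ∀ i j, i ≠ j → Γ.Adj (u i) (u j) ∧ Γ.Adj (w i) (w j) ∧ Γ.Adj (u i) (w j))
    (hu : Function.Injective u) (hw : Function.Injective w) (huw : ∀ i j, u i ≠ w j) :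
    RX Γ ((Finset.univ.image u ∪ Finset.univ.image w : Finset V) : Set V) := by
  classical
  rw [Pool.Agent.H26R.RX_iff]
  have hcyc : ∃ p, finrank ℝ (Flex (Pool.Agent.H26R.jn (SimpleGraph.cycleGraph 4)
      (⊥ : SimpleGraph (Fin 2))) p) ≤ 6 := by
    refine Pool.Agent.H26R.join_two (Fintype.card_fin 2) SimpleGraph.cycleGraph_connected
      (Or.inr fun hac => ?_)
    exact SimpleGraph.isAcyclic_iff_free_cycleGraph.1 hac 4 (by norm_num)
      (SimpleGraph.IsContained.refl _)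
  let F : Fin 4 ⊕ Fin 2 → V := Sum.elim ![u 1, u 2, w 1, w 2] ![u 0, w 0]
  have hmem : ∀ x, F x ∈ ((Finset.univ.image u ∪ Finset.univ.image w : Finset V) : Set V) := by
    intro x
    rw [Finset.mem_coe, Finset.mem_union, Finset.mem_image, Finset.mem_image]
    rcases x with x | x
    · fin_cases x
      · exact Or.inl ⟨1, Finset.mem_univ _, rfl⟩
      · exact Or.inl ⟨2, Finset.mem_univ _, rfl⟩
      · exact Or.inr ⟨1, Finset.mem_univ _, rfl⟩
      · exact Or.inr ⟨2, Finset.mem_univ _, rfl⟩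
    · fin_cases x
      · exact Or.inl ⟨0, Finset.mem_univ _, rfl⟩
      · exact Or.inr ⟨0, Finset.mem_univ _, rfl⟩
  have u01 : u 0 ≠ u 1 := fun e => absurd (hu e) (by decide)
  have u02 : u 0 ≠ u 2 := fun e => absurd (hu e) (by decide)
  have u12 : u 1 ≠ u 2 := fun e => absurd (hu e) (by decide)
  have w01 : w 0 ≠ w 1 := fun e => absurd (hw e) (by decide)
  have w02 : w 0 ≠ w 2 := fun e => absurd (hw e) (by decide)
  have w12 : w 1 ≠ w 2 := fun e => absurd (hw e) (by decide)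
  have hinj : Function.Injective F := by
    rintro (x | x) (y | y) hxy <;> fin_cases x <;> fin_cases y <;>
      simp [F, u01, u02, u12, w01, w02, w12, u01.symm, u02.symm, u12.symm, w01.symm, w02.symm,
        w12.symm, huw, (huw _ _).symm] at hxy ⊢
  have hsurj : ∀ z ∈ ((Finset.univ.image u ∪ Finset.univ.image w : Finset V) : Set V),
      ∃ x, F x = z := by
    intro z hz
    rw [Finset.mem_coe, Finset.mem_union, Finset.mem_image, Finset.mem_image] at hz
    rcases hz with ⟨i, -, rfl⟩ | ⟨i, -, rfl⟩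
    · fin_cases i
      · exact ⟨Sum.inr 0, rfl⟩
      · exact ⟨Sum.inl 0, rfl⟩
      · exact ⟨Sum.inl 1, rfl⟩
    · fin_cases i
      · exact ⟨Sum.inr 1, rfl⟩
      · exact ⟨Sum.inl 2, rfl⟩
      · exact ⟨Sum.inl 3, rfl⟩
  let φ : Fin 4 ⊕ Fin 2 ≃
      ((Finset.univ.image u ∪ Finset.univ.image w : Finset V) : Set V) :=
    Equiv.ofBijective (fun x => ⟨F x, hmem x⟩)
      ⟨fun x y hxy => hinj (congrArg Subtype.val hxy), fun z => by
        obtain ⟨x, hx⟩ := hsurj z z.2
        exact ⟨x, Subtype.ext hx⟩⟩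
  refine Pool.Agent.H26R.exists_of_equiv φ ?_ hcyc
  have hA : ∀ x y, (Pool.Agent.H26R.jn (SimpleGraph.cycleGraph 4)
      (⊥ : SimpleGraph (Fin 2))).Adj x y → Γ.Adj (F x) (F y) := by
    have a01 := h 0 1 (by decide)
    have a02 := h 0 2 (by decide)
    have a12 := h 1 2 (by decide)
    have a10 := h 1 0 (by decide)
    have a20 := h 2 0 (by decide)
    have a21 := h 2 1 (by decide)
    rintro (x | x) (y | y) hxy
    · rw [Pool.Agent.H26R.jn_inl_inl] at hxy
      fin_cases x <;> fin_cases y <;> first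
        | exact absurd hxy (by decide)
        | exact a12.1
        | exact a12.1.symm
        | exact a12.2.1
        | exact a12.2.1.symm
        | exact a12.2.2
        | exact a12.2.2.symm
        | exact a21.2.2
        | exact a21.2.2.symm
    · fin_cases x <;> fin_cases y <;> first
        | exact a10.1
        | exact a20.1
        | exact a10.2.1
        | exact a20.2.1
        | exact a10.2.2
        | exact a20.2.2
        | exact a01.2.2.symm
        | exact a02.2.2.symm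
    · fin_cases x <;> fin_cases y <;> first
        | exact a01.1
        | exact a02.1
        | exact a01.2.1
        | exact a02.2.1
        | exact a01.2.2
        | exact a02.2.2
        | exact a10.2.2.symm
        | exact a20.2.2.symm
    · rw [Pool.Agent.H26R.jn_inr_inr] at hxy
      exact absurd hxy (by simp)
  intro i j hij
  exact hA i j hij

/-- Clusters are generically rigid. -/
theorem Cluster.rx [Fintype V] {Γ : SimpleGraph V} {X : Finset V} (h : Cluster Γ X) :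
    4 ≤ X.card ∧ RX Γ (X : Set V) := by
  induction h with
  | clique h4 hX => exact ⟨h4.ge, rx_clique h4 hX⟩
  | @octahedron u w h hu hw huw =>
    refine ⟨?_, rx_octahedron h hu hw huw⟩
    have hdis : Disjoint (Finset.univ.image u) (Finset.univ.image w) := by
      rw [Finset.disjoint_left]
      intro x hx hx'
      obtain ⟨i, -, rfl⟩ := Finset.mem_image.1 hx
      obtain ⟨j, -, hj⟩ := Finset.mem_image.1 hx'
      exact huw i j hj.symm
    rw [Finset.card_union_of_disjoint hdis, Finset.card_image_of_injective _ hu,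
      Finset.card_image_of_injective _ hw]
    simp
  | @union X Y _ _ h3 hX hY =>
    exact ⟨hX.1.trans (Finset.card_le_card Finset.subset_union_left),
      rx_union hY.1 hX.2 hY.2 h3⟩
  | @insert X T v _ hv hT h3 hadj hX =>
    refine ⟨hX.1.trans (Finset.card_le_card (Finset.subset_insert v X)), ?_⟩
    obtain ⟨a, b, c, hab, hac, hbc, rfl⟩ := Finset.card_eq_three.1 h3
    have ha : a ∈ ({a, b, c} : Finset V) := by simp
    have hb : b ∈ ({a, b, c} : Finset V) := by simp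
    have hc : c ∈ ({a, b, c} : Finset V) := by simp
    rw [Finset.coe_insert]
    exact Pool.Agent.H26R.RX_insert (by simpa using hv) (hT ha) (hT hb) (hT hc) hab hac hbc
      (hadj a ha) (hadj b hb) (hadj c hc) hX.2

variable [Fintype V] {Γ : SimpleGraph V}

/-- In a claw-free graph of minimum degree at least six the bodies form a body system. -/
theorem claw_bodySystem (hcl : ClawFree Γ) (hdeg : ∀ v, 6 ≤ (Γ.neighborSet v).ncard) :
    BodySystem Γ (Body.verts (Γ := Γ)) := by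
  classical
  refine ⟨?_, ?_, ?_, ?_⟩
  · rintro ⟨X, hX | hX⟩
    · left
      obtain ⟨h4, hrx⟩ := hX.prop.rx
      refine ⟨h4, ?_⟩
      have hcard : 4 ≤ Fintype.card ((X : Finset V) : Set V) := by
        rw [← Nat.card_eq_fintype_card, Nat.card_coe_set_eq, Set.ncard_coe_finset]; exact h4
      exact (Pool.Agent.H26R.genericallyRigid_iff hcard _).2
        ((Pool.Agent.H26R.RX_iff Γ (X : Set V)).1 hrx)
    · right
      exact ⟨hX.1, hX.2.1⟩
  · intro x
    obtain ⟨X, hX, hx⟩ := exists_max_mem hcl hdeg x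
    exact ⟨⟨X, Or.inl hX⟩, hx⟩
  · rintro x ⟨X, hX⟩ ⟨Y, hY⟩ ⟨Z, hZ⟩ hx hy hz
    change x ∈ X at hx
    change x ∈ Y at hy
    change x ∈ Z at hz
    suffices h : X = Y ∨ X = Z ∨ Y = Z by
      rcases h with h | h | h
      · exact Or.inl (Subtype.ext h)
      · exact Or.inr (Or.inl (Subtype.ext h))
      · exact Or.inr (Or.inr (Subtype.ext h))
    rcases hX with hX | hX <;> rcases hY with hY | hY <;> rcases hZ with hZ | hZ
    · exact not_three hcl hX hY hZ hx hy hz
    · exact Or.inl (hZ.unique hcl hz hX hY hx hy)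
    · exact Or.inr (Or.inl (hY.unique hcl hy hX hZ hx hz))
    · exact Or.inr (Or.inr (hY.eq hcl hdeg hZ hy hz))
    · exact Or.inr (Or.inr (hX.unique hcl hx hY hZ hy hz))
    · exact Or.inr (Or.inl (hX.eq hcl hdeg hZ hx hz))
    · exact Or.inl (hX.eq hcl hdeg hY hx hy)
    · exact Or.inl (hX.eq hcl hdeg hY hx hy)
  · intro x y h i j hi hj
    obtain ⟨X, hX, hx⟩ := exists_max_mem hcl hdeg x
    have h1 := bar_body hcl h hX hx i hi
    have h2 := bar_body hcl h hX hx j hj
    exact Subtype.ext (h1.trans h2.symm)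

/-- Every vertex is an end of at most two bars. -/
theorem claw_deg (hcl : ClawFree Γ) (hdeg : ∀ v, 6 ≤ (Γ.neighborSet v).ncard) (x : V) :
    ((bars Γ (Body.verts (Γ := Γ))).neighborSet x).ncard ≤ 2 := by
  by_contra hcon
  rw [not_le, Set.two_lt_ncard_iff] at hcon
  obtain ⟨a, b, c, ha, hb, hc, hab, hac, hbc⟩ := hcon
  rw [SimpleGraph.mem_neighborSet] at ha hb hc
  obtain ⟨X, hX, hx⟩ := exists_max_mem hcl hdeg x
  have hout : ∀ y, (bars Γ (Body.verts (Γ := Γ))).Adj x y → y ∉ X :=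
    fun y hy h => hy.2 ⟨X, Or.inl hX⟩ ⟨hx, h⟩
  exact two_out hcl hX hx (bar_unique hcl ha hX hx) ha.1 hb.1 hc.1 (hout a ha) (hout b hb)
    (hout c hc) hab hac hbc

/-- Two bars with a common end: the other ends lie in the same body and are adjacent. -/
lemma bar_bar (hcl : ClawFree Γ) (hdeg : ∀ v, 6 ≤ (Γ.neighborSet v).ncard) {a b c : V}
    (hab : (bars Γ (Body.verts (Γ := Γ))).Adj a b) (hbc : (bars Γ (Body.verts (Γ := Γ))).Adj b c)
    (hac : a ≠ c) : Γ.Adj a c ∧ ∀ i : Body Γ, a ∈ i.verts ↔ c ∈ i.verts := by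
  obtain ⟨Y, hY, hbY⟩ := exists_max_mem hcl hdeg b
  have haY : a ∉ Y := fun h => hab.2 ⟨Y, Or.inl hY⟩ ⟨h, hbY⟩
  have hcY : c ∉ Y := fun h => hbc.2 ⟨Y, Or.inl hY⟩ ⟨hbY, h⟩
  have hadj : Γ.Adj a c := out_adj hcl hY hbY hab.1.symm hbc.1 haY hcY hac
  refine ⟨hadj, ?_⟩
  -- a common cluster
  have hex : ∃ X, Maximal (Cluster Γ) X ∧ a ∈ X ∧ c ∈ X := by
    by_contra hno
    have hT : LeftTriangle Γ {a, b, c} := by
      refine ⟨Finset.card_eq_three.2 ⟨a, b, c, hab.1.ne, hac, hbc.1.ne, rfl⟩, ?_, ?_⟩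
      · intro x hx y hy hxy
        simp only [Finset.coe_insert, Finset.coe_singleton, Set.mem_insert_iff,
          Set.mem_singleton_iff] at hx hy
        have h1 := hab.1
        have h2 := hbc.1
        rcases hx with rfl | rfl | rfl <;> rcases hy with rfl | rfl | rfl <;>
          first
            | exact absurd rfl hxy
            | assumption
            | (apply SimpleGraph.Adj.symm; assumption)
      · intro x hx y hy hxy X hX
        obtain ⟨Z, hXZ, hZ⟩ := exists_max hX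
        have e1 : ¬ (a ∈ X ∧ b ∈ X) := fun h => hab.2 ⟨Z, Or.inl hZ⟩ ⟨hXZ h.1, hXZ h.2⟩
        have e2 : ¬ (b ∈ X ∧ c ∈ X) := fun h => hbc.2 ⟨Z, Or.inl hZ⟩ ⟨hXZ h.1, hXZ h.2⟩
        have e3 : ¬ (a ∈ X ∧ c ∈ X) := fun h => hno ⟨Z, hZ, hXZ h.1, hXZ h.2⟩
        simp only [Finset.mem_insert, Finset.mem_singleton] at hx hy
        rintro ⟨g1, g2⟩
        rcases hx with rfl | rfl | rfl <;> rcases hy with rfl | rfl | rfl <;>
          first
            | exact hxy rfl
            | exact e1 ⟨g1, g2⟩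
            | exact e1 ⟨g2, g1⟩
            | exact e2 ⟨g1, g2⟩
            | exact e2 ⟨g2, g1⟩
            | exact e3 ⟨g1, g2⟩
            | exact e3 ⟨g2, g1⟩
    exact hab.2 ⟨{a, b, c}, Or.inr hT⟩ ⟨by simp [Body.verts], by simp [Body.verts]⟩
  obtain ⟨X, hX, haX, hcX⟩ := hex
  intro i
  constructor
  · intro h
    rw [bar_body hcl hab hX haX i h]; exact hcX
  · intro h
    rw [bar_body hcl hbc.symm hX hcX i h]; exact haX

omit [DecidableEq V] [Fintype V] in
/-- The vertices of a cycle as a periodic sequence. -/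
lemma exists_seq {L : SimpleGraph V} (h : ¬ L.IsAcyclic) :
    ∃ (n : ℕ) (g : ℕ → V), 3 ≤ n ∧ (∀ i, L.Adj (g i) (g (i + 1))) ∧
      ∀ i j, g i = g j ↔ i % n = j % n := by
  unfold SimpleGraph.IsAcyclic at h
  simp only [not_forall, not_not] at h
  obtain ⟨v, c, hc⟩ := h
  have hlen := hc.three_le_length
  refine ⟨c.length, fun i => c.getVert (i % c.length), hlen, ?_, ?_⟩
  · intro i
    have hi : i % c.length < c.length := Nat.mod_lt _ (by omega)
    by_cases h1 : i % c.length + 1 < c.length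
    · have h2 : (i + 1) % c.length = i % c.length + 1 := by
        rw [Nat.add_mod, Nat.mod_eq_of_lt (show 1 < c.length by omega), Nat.mod_eq_of_lt h1]
      change L.Adj (c.getVert (i % c.length)) (c.getVert ((i + 1) % c.length))
      rw [h2]
      exact c.adj_getVert_succ hi
    · have h3 : i % c.length + 1 = c.length := by omega
      have h2 : (i + 1) % c.length = 0 := by
        rw [Nat.add_mod, Nat.mod_eq_of_lt (show 1 < c.length by omega), h3, Nat.mod_self]
      change L.Adj (c.getVert (i % c.length)) (c.getVert ((i + 1) % c.length))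
      rw [h2, SimpleGraph.Walk.getVert_zero]
      have := c.adj_getVert_succ hi
      rw [h3, SimpleGraph.Walk.getVert_length] at this
      exact this
  · intro i j
    constructor
    · intro h
      have hi : i % c.length < c.length := Nat.mod_lt _ (by omega)
      have hj : j % c.length < c.length := Nat.mod_lt _ (by omega)
      exact hc.getVert_injOn' (by rw [Set.mem_ofPred_eq]; omega) (by rw [Set.mem_ofPred_eq]; omega) h
    · intro h
      change c.getVert (i % c.length) = c.getVert (j % c.length)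
      rw [h]

lemma hh_nonneg' (d : ℕ) : 0 ≤ hh d := by
  unfold hh
  split_ifs <;> norm_num

omit [DecidableEq V] in
lemma barNo_comm {ι : Type} (L : SimpleGraph V) (B : ι → Finset V) {m : ℕ} (f : ι → Fin m)
    (k l : Fin m) : barNo L B f k l = barNo L B f l k := by
  classical
  unfold barNo
  refine Finset.card_bij' (fun q _ => q.swap) (fun q _ => q.swap) ?_ ?_ ?_ ?_
  · intro q hq
    rw [Finset.mem_filter] at hq ⊢
    exact ⟨Finset.mem_univ _, hq.2.1.symm, hq.2.2.2, hq.2.2.1⟩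
  · intro q hq
    rw [Finset.mem_filter] at hq ⊢
    exact ⟨Finset.mem_univ _, hq.2.1.symm, hq.2.2.2, hq.2.2.1⟩
  · intro q _
    exact Prod.swap_swap q
  · intro q _
    exact Prod.swap_swap q

omit [DecidableEq V] in
lemma card_le_barNo {ι : Type} {L : SimpleGraph V} {B : ι → Finset V} {m : ℕ} {f : ι → Fin m}
    {k l : Fin m} (s : Finset (V × V)) (h : ∀ q ∈ s, L.Adj q.1 q.2 ∧ (∃ i, q.1 ∈ B i ∧ f i = k) ∧
      ∃ j, q.2 ∈ B j ∧ f j = l) : s.card ≤ barNo L B f k l := by
  classical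
  unfold barNo
  refine Finset.card_le_card fun q hq => ?_
  rw [Finset.mem_filter]
  exact ⟨Finset.mem_univ _, h q hq⟩

omit [DecidableEq V] in
lemma barNo_congr {ι : Type} {L L' : SimpleGraph V} {B : ι → Finset V} {m : ℕ} {f : ι → Fin m}
    {k l : Fin m} (h : ∀ x y, (∃ i, x ∈ B i ∧ f i = k) → (∃ j, y ∈ B j ∧ f j = l) →
      (L.Adj x y ↔ L'.Adj x y)) : barNo L B f k l = barNo L' B f k l := by
  classical
  unfold barNo
  congr 1
  refine Finset.filter_congr fun q _ => ?_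
  constructor
  · rintro ⟨h1, h2, h3⟩
    exact ⟨(h _ _ h2 h3).1 h1, h2, h3⟩
  · rintro ⟨h1, h2, h3⟩
    exact ⟨(h _ _ h2 h3).2 h1, h2, h3⟩

/-- A linear forest of bars with the same partition condition. -/
theorem claw_forest (hcl : ClawFree Γ) (hdeg : ∀ v, 6 ≤ (Γ.neighborSet v).ncard)
    (h : Cond (bars Γ (Body.verts (Γ := Γ))) (Body.verts (Γ := Γ))) :
    ∃ L : SimpleGraph V, L ≤ bars Γ (Body.verts (Γ := Γ)) ∧ L.IsAcyclic ∧
      Cond L (Body.verts (Γ := Γ)) := by
  classical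
  obtain ⟨L, hLmin⟩ := exists_minimal_of_wellFoundedLT
    (fun L : SimpleGraph V => L ≤ bars Γ (Body.verts (Γ := Γ)) ∧ Cond L (Body.verts (Γ := Γ)))
    ⟨_, le_rfl, h⟩
  refine ⟨L, hLmin.prop.1, ?_, hLmin.prop.2⟩
  by_contra hcyc
  obtain ⟨n, g, hn, hadj, hg⟩ := exists_seq hcyc
  have hb : ∀ i, (bars Γ (Body.verts (Γ := Γ))).Adj (g i) (g (i + 1)) :=
    fun i => hLmin.prop.1 (hadj i)
  have hne : ∀ i d, 0 < d → d < n → g i ≠ g (i + d) := by
    intro i d hd hdn he
    rw [hg] at he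
    have h1 : n ∣ i + d - i := (Nat.modEq_iff_dvd' (Nat.le_add_right i d)).1 he
    rw [Nat.add_sub_cancel_left] at h1
    exact absurd (Nat.le_of_dvd hd h1) (by omega)
  have hper : ∀ i, g (i + n) = g i := by
    intro i
    rw [hg, Nat.add_mod_right]
  have hbb : ∀ i, Γ.Adj (g i) (g (i + 2)) ∧ ∀ b : Body Γ, g i ∈ b.verts ↔ g (i + 2) ∈ b.verts :=
    fun i => bar_bar hcl hdeg (hb i) (hb (i + 1)) (hne i 2 (by omega) (by omega))
  have hpar : ∀ (b : Body Γ) (m i : ℕ), g i ∈ b.verts ↔ g (i + 2 * m) ∈ b.verts := by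
    intro b m
    induction m with
    | zero => intro i; rfl
    | succ m ih =>
      intro i
      rw [ih i, (hbb (i + 2 * m)).2 b]
      rfl
  obtain ⟨X, hX, hX0⟩ := exists_max_mem hcl hdeg (g 0)
  obtain ⟨Y, hY, hY0⟩ := exists_max_mem hcl hdeg (g 1)
  have hXe : ∀ m, g (2 * m) ∈ X := by
    intro m
    have := (hpar ⟨X, Or.inl hX⟩ m 0).1 hX0
    rw [Nat.zero_add] at this
    exact this
  have hYo : ∀ m, g (2 * m + 1) ∈ Y := by
    intro m
    have := (hpar ⟨Y, Or.inl hY⟩ m 1).1 hY0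
    rw [Nat.add_comm] at this
    exact this
  have hno : ∀ b : Body Γ, ¬ (g 0 ∈ b.verts ∧ g 1 ∈ b.verts) := (hb 0).2
  -- the length is even
  have heven : n % 2 = 0 := by
    by_contra hodd
    have h1 : n = 2 * (n / 2) + 1 := by omega
    have h2 := hYo (n / 2)
    rw [← h1] at h2
    have h3 : g n = g 0 := by
      have := hper 0
      rw [Nat.zero_add] at this
      exact this
    rw [h3] at h2
    exact hno ⟨Y, Or.inl hY⟩ ⟨h2, hY0⟩
  have h4 : n ≠ 4 := by
    intro h4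
    subst h4
    have e0 : g 4 = g 0 := hper 0
    have h30 := (hb 3).1
    rw [e0] at h30
    obtain ⟨Z, hZ, h0, h1, -⟩ := exists_max_four (hb 0).1 (hbb 0).1 h30.symm (hb 1).1 (hbb 1).1
      (hb 2).1
    exact hno ⟨Z, Or.inl hZ⟩ ⟨h0, h1⟩
  have h6 : n ≠ 6 := by
    intro h6
    subst h6
    have e0 : g 6 = g 0 := hper 0
    have e1 : g 7 = g 1 := hper 1
    have a50 := (hb 5).1
    rw [e0] at a50
    have a40 := (hbb 4).1
    rw [e0] at a40
    have a51 := (hbb 5).1
    rw [e1] at a51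
    have hC : Cluster Γ (Finset.univ.image ![g 0, g 2, g 4] ∪ Finset.univ.image ![g 3, g 5, g 1]) := by
      refine Cluster.octahedron ?_ ?_ ?_ ?_
      · intro i j hij
        fin_cases i <;> fin_cases j <;> first | exact absurd rfl hij | skip
        · exact ⟨(hbb 0).1, (hbb 3).1, a50.symm⟩
        · exact ⟨a40.symm, (hbb 1).1.symm, (hb 0).1⟩
        · exact ⟨(hbb 0).1.symm, (hbb 3).1.symm, (hb 2).1⟩
        · exact ⟨(hbb 2).1, a51, (hb 1).1.symm⟩
        · exact ⟨a40, (hbb 1).1, (hb 3).1.symm⟩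
        · exact ⟨(hbb 2).1.symm, a51.symm, (hb 4).1⟩
      · intro i j hij
        fin_cases i <;> fin_cases j <;> first | rfl | skip
        · exact absurd hij (hne 0 2 (by omega) (by omega))
        · exact absurd hij (hne 0 4 (by omega) (by omega))
        · exact absurd hij.symm (hne 0 2 (by omega) (by omega))
        · exact absurd hij (hne 2 2 (by omega) (by omega))
        · exact absurd hij.symm (hne 0 4 (by omega) (by omega))
        · exact absurd hij.symm (hne 2 2 (by omega) (by omega))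
      · intro i j hij
        fin_cases i <;> fin_cases j <;> first | rfl | skip
        · exact absurd hij (hne 3 2 (by omega) (by omega))
        · exact absurd hij.symm (hne 1 2 (by omega) (by omega))
        · exact absurd hij.symm (hne 3 2 (by omega) (by omega))
        · exact absurd hij.symm (hne 1 4 (by omega) (by omega))
        · exact absurd hij (hne 1 2 (by omega) (by omega))
        · exact absurd hij (hne 1 4 (by omega) (by omega))
      · intro i j
        fin_cases i <;> fin_cases j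
        · exact hne 0 3 (by omega) (by omega)
        · exact hne 0 5 (by omega) (by omega)
        · exact hne 0 1 (by omega) (by omega)
        · exact hne 2 1 (by omega) (by omega)
        · exact hne 2 3 (by omega) (by omega)
        · exact (hne 1 1 (by omega) (by omega)).symm
        · exact (hne 3 1 (by omega) (by omega)).symm
        · exact hne 4 1 (by omega) (by omega)
        · exact (hne 1 3 (by omega) (by omega)).symm
    obtain ⟨Z, hCZ, hZ⟩ := exists_max hC
    refine hno ⟨Z, Or.inl hZ⟩ ⟨hCZ ?_, hCZ ?_⟩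
    · exact Finset.mem_union_left _ (Finset.mem_image.2 ⟨0, Finset.mem_univ _, rfl⟩)
    · exact Finset.mem_union_right _ (Finset.mem_image.2 ⟨2, Finset.mem_univ _, rfl⟩)
  have h8 : 8 ≤ n := by omega
  -- remove the bar from `g 0` to `g 1`
  have hL' : L.deleteEdges {s(g 0, g 1)} ≤ L := SimpleGraph.deleteEdges_le _
  have hcond : Cond (L.deleteEdges {s(g 0, g 1)}) (Body.verts (Γ := Γ)) := by
    intro m f hf
    refine (hLmin.prop.2 m f hf).trans (Finset.sum_le_sum ?_)
    intro q _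
    have key : ∀ k l, f ⟨X, Or.inl hX⟩ = k → f ⟨Y, Or.inl hY⟩ = l →
        6 ≤ barNo (L.deleteEdges {s(g 0, g 1)}) (Body.verts (Γ := Γ)) f k l := by
      intro k l hk hl
      let φ : Fin 6 → V × V := fun t =>
        (g (2 * ((t : ℕ) / 2) + 2), g (2 * (((t : ℕ) + 1) / 2) + 1))
      have hinj : Function.Injective φ := by
        intro t t' htt
        have e1 : g (2 * ((t : ℕ) / 2) + 2) = g (2 * ((t' : ℕ) / 2) + 2) :=
          congrArg Prod.fst htt
        have e2 : g (2 * (((t : ℕ) + 1) / 2) + 1) = g (2 * (((t' : ℕ) + 1) / 2) + 1) :=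
          congrArg Prod.snd htt
        rw [hg, Nat.mod_eq_of_lt (by omega), Nat.mod_eq_of_lt (by omega)] at e1 e2
        ext
        omega
      have hc6 : (Finset.univ.image φ).card = 6 := by
        rw [Finset.card_image_of_injective _ hinj, Finset.card_univ, Fintype.card_fin]
      rw [← hc6]
      refine card_le_barNo _ ?_
      intro q hq
      obtain ⟨t, -, rfl⟩ := Finset.mem_image.1 hq
      refine ⟨?_, ⟨⟨X, Or.inl hX⟩, ?_, hk⟩, ⟨⟨Y, Or.inl hY⟩, ?_, hl⟩⟩
      · rw [SimpleGraph.deleteEdges_adj]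
        constructor
        · change L.Adj (g (2 * ((t : ℕ) / 2) + 2)) (g (2 * (((t : ℕ) + 1) / 2) + 1))
          rcases Nat.mod_two_eq_zero_or_one (t : ℕ) with ht | ht
          · have e1 : 2 * ((t : ℕ) / 2) + 2 = (2 * (((t : ℕ) + 1) / 2) + 1) + 1 := by omega
            rw [e1]
            exact (hadj _).symm
          · have e1 : 2 * (((t : ℕ) + 1) / 2) + 1 = (2 * ((t : ℕ) / 2) + 2) + 1 := by omega
            rw [e1]
            exact hadj _
        · intro hmem
          rw [Set.mem_singleton_iff, Sym2.eq_iff] at hmem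
          have e0 : g (2 * ((t : ℕ) / 2) + 2) ≠ g 0 := by
            have := hne 0 (2 * ((t : ℕ) / 2) + 2) (by omega) (by omega)
            rw [Nat.zero_add] at this
            exact this.symm
          have e1 : g (2 * ((t : ℕ) / 2) + 2) ≠ g 1 := by
            have := hne 1 (2 * ((t : ℕ) / 2) + 1) (by omega) (by omega)
            rw [show 1 + (2 * ((t : ℕ) / 2) + 1) = 2 * ((t : ℕ) / 2) + 2 by omega] at this
            exact this.symm
          rcases hmem with hmem | hmem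
          · exact e0 hmem.1
          · exact e1 hmem.1
      · have := hXe ((t : ℕ) / 2 + 1)
        rw [Nat.mul_add] at this
        exact this
      · exact hYo (((t : ℕ) + 1) / 2)
    have big : 6 ≤ barNo (L.deleteEdges {s(g 0, g 1)}) (Body.verts (Γ := Γ)) f q.1 q.2 →
        min 6 (hh (jointNo (Body.verts (Γ := Γ)) f q.1 q.2) +
          (barNo L (Body.verts (Γ := Γ)) f q.1 q.2 : ℤ)) ≤
        min 6 (hh (jointNo (Body.verts (Γ := Γ)) f q.1 q.2) +
          (barNo (L.deleteEdges {s(g 0, g 1)}) (Body.verts (Γ := Γ)) f q.1 q.2 : ℤ)) := by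
      intro h6
      refine (min_le_left _ _).trans (le_min le_rfl ?_)
      have h1 := hh_nonneg' (jointNo (Body.verts (Γ := Γ)) f q.1 q.2)
      have h2 : (6 : ℤ) ≤ (barNo (L.deleteEdges {s(g 0, g 1)}) (Body.verts (Γ := Γ)) f q.1 q.2 : ℤ) := by
        exact_mod_cast h6
      linarith
    by_cases c1 : f ⟨X, Or.inl hX⟩ = q.1 ∧ f ⟨Y, Or.inl hY⟩ = q.2
    · exact big (key _ _ c1.1 c1.2)
    by_cases c2 : f ⟨Y, Or.inl hY⟩ = q.1 ∧ f ⟨X, Or.inl hX⟩ = q.2
    · refine big ?_
      rw [barNo_comm]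
      exact key _ _ c2.2 c2.1
    have heq : barNo L (Body.verts (Γ := Γ)) f q.1 q.2 =
        barNo (L.deleteEdges {s(g 0, g 1)}) (Body.verts (Γ := Γ)) f q.1 q.2 := by
      refine barNo_congr fun x y hP hQ => ?_
      rw [SimpleGraph.deleteEdges_adj]
      refine ⟨fun hxy => ⟨hxy, fun hmem => ?_⟩, fun hxy => hxy.1⟩
      rw [Set.mem_singleton_iff, Sym2.eq_iff] at hmem
      obtain ⟨i, hi, hfi⟩ := hP
      obtain ⟨j, hj, hfj⟩ := hQ
      rcases hmem with ⟨hx, hy⟩ | ⟨hx, hy⟩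
      · have hxv : g 0 ∈ i.verts := hx ▸ hi
        have hyv : g 1 ∈ j.verts := hy ▸ hj
        have e1 : i = ⟨X, Or.inl hX⟩ := Subtype.ext (bar_body hcl (hb 0) hX hX0 i hxv)
        have e2 : j = ⟨Y, Or.inl hY⟩ := Subtype.ext (bar_body hcl (hb 0).symm hY hY0 j hyv)
        exact c1 ⟨by rw [← e1]; exact hfi, by rw [← e2]; exact hfj⟩
      · have hxv : g 1 ∈ i.verts := hx ▸ hi
        have hyv : g 0 ∈ j.verts := hy ▸ hj
        have e1 : i = ⟨Y, Or.inl hY⟩ := Subtype.ext (bar_body hcl (hb 0).symm hY hY0 i hxv)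
        have e2 : j = ⟨X, Or.inl hX⟩ := Subtype.ext (bar_body hcl (hb 0) hX hX0 j hyv)
        exact c2 ⟨by rw [← e1]; exact hfi, by rw [← e2]; exact hfj⟩
    rw [heq]
  have hle := hLmin.2 ⟨hL'.trans hLmin.prop.1, hcond⟩ hL'
  have hbad := hle (hadj 0)
  rw [SimpleGraph.deleteEdges_adj] at hbad
  exact hbad.2 rfl

end

end Pool.Agent.BJ
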