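import Pool.Agent.Lib.MP_37c7bf_BJ.GP

/-!
Free vertices: vertices lying on a body of their own.
-/

open MeasureTheory Module Topology
open scoped RealInnerProductSpace

namespace Pool.Agent.BJ

open Pool.Agent.H26R (E3 crossE)

section
variable {ι V : Type}

/-- The vertices in `Fr` are free: each is the only point on its body. -/
structure FreeSys (a b : V → ι) (Fr : Set V) : Prop where
  same : ∀ v ∈ Fr, a v = b v
  alone : ∀ v ∈ Fr, ∀ w, (a w = a v ∨ b w = a v) → w = v

/-- The body of `v` is not welded to another body. -/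
def Iso (a : V → ι) (s : Setoid ι) (v : V) : Prop := ∀ i, s i (a v) → i = a v

/-- The number of free vertices which are not welded to anything. -/
noncomputable def nIso (a : V → ι) (Fr : Set V) (s : Setoid ι) : ℕ :=
  {v | v ∈ Fr ∧ Iso a s v}.ncard

/-- All edges at `v` deleted. -/
def delV (L : SimpleGraph V) (v : V) : SimpleGraph V := L.deleteEdges {e | v ∈ e}

lemma delV_adj {L : SimpleGraph V} {v x y : V} :
    (delV L v).Adj x y ↔ L.Adj x y ∧ x ≠ v ∧ y ≠ v := by
  unfold delV
  rw [SimpleGraph.deleteEdges_adj]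
  simp only [Set.mem_ofPred_eq, Sym2.mem_iff, not_or]
  constructor
  · rintro ⟨h1, h2, h3⟩
    exact ⟨h1, Ne.symm h2, Ne.symm h3⟩
  · rintro ⟨h1, h2, h3⟩
    exact ⟨h1, Ne.symm h2, Ne.symm h3⟩

open Classical in
/-- Rotations of the bodies of the vertices in `N`, as a family of motions. -/
noncomputable def rotN (a : V → ι) (N : Set V) (p : V → E3) :
    (∀ v : N, LinearMap.ker (ev (p v))) →ₗ[ℝ] (ι → Kil) :=
  LinearMap.pi fun i => if h : ∃ v : N, a v = i then
    (Submodule.subtype _).comp (LinearMap.proj h.choose) else 0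

lemma rotN_of_not {a : V → ι} {N : Set V} {p : V → E3} {i : ι} (h : ∀ v ∈ N, a v ≠ i)
    (T : ∀ v : N, LinearMap.ker (ev (p v))) : rotN a N p T i = 0 := by
  classical
  unfold rotN
  rw [LinearMap.pi_apply, dif_neg]
  · rfl
  · rintro ⟨v, hv⟩
    exact h v v.2 hv

lemma rotN_of_mem {a : V → ι} {N : Set V} (hN : ∀ v ∈ N, ∀ w ∈ N, a v = a w → v = w) {p : V → E3} (v : N)
    (T : ∀ v : N, LinearMap.ker (ev (p v))) : rotN a N p T (a v) = T v := by
  classical
  have h : ∃ w : N, a w = a v := ⟨v, rfl⟩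
  have h1 : h.choose = v := Subtype.ext (hN _ h.choose.2 _ v.2 h.choose_spec)
  unfold rotN
  rw [LinearMap.pi_apply, dif_pos h]
  change ((T h.choose : LinearMap.ker (ev (p h.choose))) : Kil) = T v
  rw [h1]

variable [Fintype V] [Fintype ι] {a b : V → ι} {Fr : Set V}

lemma exists_goodB_GP (a b : V → ι) : ∃ p : V → E3, GoodB a b p ∧ GP p := by
  classical
  obtain ⟨p, hp⟩ := exists_common (J := V) (C := Bool)
    (fun c p => if c = true then GP p else GoodB a b p)
    (fun c => by
      cases c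
      · exact GoodB.stable a b
      · exact GP.stable)
    (fun c => by
      cases c
      · exact exists_goodB a b
      · exact exists_GP)
  exact ⟨p, hp false, hp true⟩

omit [Fintype V] [Fintype ι] in
/-- Inner products with independent vectors can be prescribed. -/
lemma exists_inner_eq {k : ℕ} {d : Fin k → E3} (hd : LinearIndependent ℝ d) (c : Fin k → ℝ) :
    ∃ u : E3, ∀ i, ⟪u, d i⟫ = c i := by
  obtain ⟨f, hf⟩ := LinearMap.exists_extend ((Module.Basis.span hd).constr ℝ c)
  refine ⟨(InnerProductSpace.toDual ℝ E3).symm (LinearMap.toContinuousLinearMap f), fun i => ?_⟩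
  rw [InnerProductSpace.toDual_symm_apply]
  have h1 : f (d i) = ((Module.Basis.span hd).constr ℝ c) (Module.Basis.span hd i) := by
    rw [← hf]
    simp only [LinearMap.comp_apply, Submodule.subtype_apply]
    rw [Module.Basis.span_apply]
  rw [Module.Basis.constr_basis] at h1
  exact h1

omit [Fintype V] [Fintype ι] in
/-- A vector orthogonal to three independent vectors is zero. -/
lemma eq_zero_of_inner_indep {d : Fin 3 → E3} (hd : LinearIndependent ℝ d) {u : E3}
    (h : ∀ i, ⟪u, d i⟫ = 0) : u = 0 := by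
  have hsp : Submodule.span ℝ (Set.range d) = ⊤ := by
    apply hd.span_eq_top_of_card_eq_finrank'
    simp
  have h1 : Submodule.span ℝ (Set.range d) ≤ LinearMap.ker (innerₛₗ ℝ u) := by
    rw [Submodule.span_le]
    rintro _ ⟨i, rfl⟩
    rw [SetLike.mem_coe, LinearMap.mem_ker]
    exact h i
  rw [hsp] at h1
  have h2 : u ∈ LinearMap.ker (innerₛₗ ℝ u) := h1 Submodule.mem_top
  rw [LinearMap.mem_ker] at h2
  exact inner_self_eq_zero.1 h2

omit [Fintype V] [Fintype ι] in
lemma GP.indep {p : V → E3} (hp : GP p) {k : ℕ} (hk : k ≤ 3) {v : V} {y : Fin k → V}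
    (hy : Function.Injective y) (hyv : ∀ i, y i ≠ v) :
    LinearIndependent ℝ fun i => p v - p (y i) := by
  have hneg : ∀ {n : ℕ} {u w : Fin n → E3}, LinearIndependent ℝ u → (∀ i, w i = - u i) →
      LinearIndependent ℝ w := by
    intro n u w hu hw
    have h1 := hu.units_smul (fun _ => (-1 : ℝˣ))
    have h2 : w = (fun _ : Fin n => (-1 : ℝˣ)) • u := by
      funext i
      rw [hw i]
      simp
    rw [h2]
    exact h1
  have h01 : ∀ {i j : Fin k}, i ≠ j → y i ≠ y j := fun h h' => h (hy h')
  interval_cases k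
  · exact linearIndependent_empty_type
  · have : (fun i => p v - p (y i)) = ![p v - p (y 0)] := by
      funext i
      fin_cases i
      rfl
    rw [this]
    refine LinearIndependent.of_subsingleton 0 ?_
    simp only [Matrix.cons_val_zero]
    exact sub_ne_zero.2 fun h => hyv 0 (hp.1 h).symm
  · refine hneg (hp.2.1 v (y 0) (y 1) (hyv 0).symm (hyv 1).symm (h01 (by decide))) ?_
    intro i
    fin_cases i <;> simp
  · refine hneg (hp.2.2 v (y 0) (y 1) (y 2) (hyv 0).symm (hyv 1).symm (hyv 2).symm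
      (h01 (by decide)) (h01 (by decide)) (h01 (by decide))) ?_
    intro i
    fin_cases i <;> simp

open Classical in
omit [Fintype ι] in
/-- The motion of an isolated free vertex is arbitrary. -/
lemma single_mem_ZB (hF : FreeSys a b Fr) {L : SimpleGraph V} {r : Setoid ι} {v : V} (hv : v ∈ Fr)
    (hiso : Iso a r v) (hLv : ∀ x y, L.Adj x y → x ≠ v ∧ y ≠ v) (p : V → E3) (T : Kil) :
    (Pi.single (a v) T : ι → Kil) ∈ ZB a b L r p := by
  rw [mem_ZB, mem_Z]
  have hne : ∀ x, x ≠ v → a x ≠ a v := fun x hx h => hx (hF.alone v hv x (Or.inl h))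
  refine ⟨⟨fun u w h => ?_, fun j _ => ?_⟩, fun x y hxy => ?_⟩
  · by_cases hu : u = a v
    · subst hu
      rw [hiso w (r.symm h)]
    · by_cases hw : w = a v
      · subst hw
        exact absurd (hiso u h) hu
      · rw [Pi.single_eq_of_ne hu, Pi.single_eq_of_ne hw]
  · by_cases h1 : a j = a v
    · have := hF.alone v hv j (Or.inl h1)
      subst this
      rw [← hF.same j hv]
    · by_cases h2 : b j = a v
      · have := hF.alone v hv j (Or.inr h2)
        subst this
        exact absurd rfl h1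
      · rw [Pi.single_eq_of_ne h1, Pi.single_eq_of_ne h2]
  · obtain ⟨hx, hy⟩ := hLv x y hxy
    rw [Pi.single_eq_of_ne (hne x hx), Pi.single_eq_of_ne (hne y hy)]
    simp

/-- Independent bars at a free vertex. -/
lemma free_cut (hF : FreeSys a b Fr) {L : SimpleGraph V} {r : Setoid ι} {v : V} (hv : v ∈ Fr)
    (hiso : Iso a r v) (hLv : ∀ x y, L.Adj x y → x ≠ v ∧ y ≠ v) {p : V → E3} {k : ℕ}
    (y : Fin k → V) (hy : ∀ i, y i ≠ v) (hind : LinearIndependent ℝ fun i => p v - p (y i))
    (W : Submodule ℝ (ι → Kil)) (hW : ∀ S ∈ W, S ∈ ZB a b L r p ∧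
      ∀ i, ⟪ev (p v) (S (a v)) - ev (p (y i)) (S (a (y i))), p v - p (y i)⟫ = 0) :
    finrank ℝ W + k ≤ finrank ℝ (ZB a b L r p) := by
  classical
  let Φ : (ι → Kil) →ₗ[ℝ] (Fin k → ℝ) :=
    LinearMap.pi fun i => barf (p v) (p (y i)) (a v) (a (y i))
  have hΦ : ∀ S i, Φ S i = ⟪ev (p v) (S (a v)) - ev (p (y i)) (S (a (y i))), p v - p (y i)⟫ :=
    fun S i => barf_apply _ _ _ _ _
  have hne : ∀ i, a (y i) ≠ a v := fun i h => hy i (hF.alone v hv _ (Or.inl h))
  have hsurj : LinearMap.range (Φ.domRestrict (ZB a b L r p)) = ⊤ := by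
    rw [LinearMap.range_eq_top]
    intro c
    obtain ⟨u, hu⟩ := exists_inner_eq hind c
    obtain ⟨T, hT⟩ := ev_surjective (p v) u
    refine ⟨⟨Pi.single (a v) T, single_mem_ZB hF hv hiso hLv p T⟩, ?_⟩
    funext i
    rw [LinearMap.domRestrict_apply]
    change Φ (Pi.single (a v) T) i = c i
    rw [hΦ, Pi.single_eq_same, Pi.single_eq_of_ne (hne i), map_zero, sub_zero, hT, hu]
  have h1 := LinearMap.finrank_range_add_finrank_ker (Φ.domRestrict (ZB a b L r p))
  rw [hsurj, finrank_top, Module.finrank_fin_fun] at h1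
  have h2 : finrank ℝ W ≤ finrank ℝ (LinearMap.ker (Φ.domRestrict (ZB a b L r p))) := by
    have h3 : W ≤ (LinearMap.ker (Φ.domRestrict (ZB a b L r p))).map (ZB a b L r p).subtype := by
      intro S hS
      obtain ⟨h4, h5⟩ := hW S hS
      refine ⟨⟨S, h4⟩, ?_, rfl⟩
      rw [SetLike.mem_coe, LinearMap.mem_ker, LinearMap.domRestrict_apply]
      funext i
      change Φ S i = 0
      rw [hΦ, h5 i]
    have h6 := Submodule.finrank_mono h3
    rwa [Submodule.finrank_map_subtype_eq] at h6
  omega

/-- Welding newly free vertices loses their trivial rotations. -/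
theorem emb (hF : FreeSys a b Fr) (L : SimpleGraph V) (hL : ∀ x y, L.Adj x y → a x = b x)
    {r s : Setoid ι} (hrs : r ≤ s)
    (hbig : ∀ v ∈ Fr, ¬ Iso a s v → 3 ≤ {x | s (a x) (a v)}.ncard) :
    zB a b L s + 3 * nIso a Fr r ≤ zB a b L r + 3 * nIso a Fr s := by
  classical
  obtain ⟨p, hp⟩ := exists_common (C := Bool)
    (fun c (p : V → E3) => cond c (GoodB a b p) (GP p))
    (fun c => by cases c; exacts [GP.stable, GoodB.stable a b])
    (fun c => by cases c; exacts [exists_GP, exists_goodB a b])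
  have hpG : GoodB a b p := hp true
  have hpP : GP p := hp false
  -- the newly welded free vertices
  set N : Set V := {v | v ∈ Fr ∧ Iso a r v ∧ ¬ Iso a s v} with hNdef
  have hIso : ∀ v, Iso a s v → Iso a r v := fun v h i hi => h i (hrs hi)
  have hcard : nIso a Fr r = N.ncard + nIso a Fr s := by
    unfold nIso
    have h1 : {v | v ∈ Fr ∧ Iso a r v} = N ∪ {v | v ∈ Fr ∧ Iso a s v} := by
      ext v
      simp only [hNdef, Set.mem_ofPred_eq, Set.mem_union]
      constructor
      · rintro ⟨h1, h2⟩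
        by_cases h3 : Iso a s v
        · exact Or.inr ⟨h1, h3⟩
        · exact Or.inl ⟨h1, h2, h3⟩
      · rintro (⟨h1, h2, -⟩ | ⟨h1, h2⟩)
        · exact ⟨h1, h2⟩
        · exact ⟨h1, hIso v h2⟩
    rw [h1, Set.ncard_union_eq]
    rw [Set.disjoint_left]
    rintro v hv hv'
    exact hv.2.2 hv'.2
  have hN : ∀ v ∈ N, ∀ w ∈ N, a v = a w → v = w := fun v hv w hw h =>
    hF.alone w hw.1 v (Or.inl h)
  -- the rotations vanish at all points
  have hval : ∀ (T : ∀ v : N, LinearMap.ker (ev (p v))) (x : V) (i : ι), (i = a x ∨ i = b x) →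
      ev (p x) (rotN a N p T i) = 0 := by
    intro T x i hi
    by_cases h : ∃ v ∈ N, a v = i
    · obtain ⟨v, hv, rfl⟩ := h
      have hxv : x = v := hF.alone v hv.1 x (by
        rcases hi with h | h
        · exact Or.inl h.symm
        · exact Or.inr h.symm)
      subst hxv
      have h1 := rotN_of_mem hN (⟨x, hv⟩ : N) T
      change rotN a N p T (a x) = _ at h1
      rw [h1]
      exact (T ⟨x, hv⟩).2
    · push Not at h
      rw [rotN_of_not h, map_zero]
  have hinj : Function.Injective (rotN a N p) := by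
    intro T T' h
    funext v
    apply Subtype.ext
    rw [← rotN_of_mem hN v T, ← rotN_of_mem hN v T', h]
  have hK : finrank ℝ (LinearMap.range (rotN a N p)) = 3 * N.ncard := by
    rw [LinearMap.finrank_range_of_inj hinj, Module.finrank_pi_fintype]
    simp only [finrank_ker_ev, Finset.sum_const, smul_eq_mul, Finset.card_univ]
    rw [mul_comm, Set.ncard_eq_toFinset_card', Set.toFinset_card]
  have hKr : LinearMap.range (rotN a N p) ≤ ZB a b L r p := by
    rintro _ ⟨T, rfl⟩
    rw [mem_ZB, mem_Z]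
    refine ⟨⟨fun u w huw => ?_, fun x _ => ?_⟩, fun x y _ => ?_⟩
    · by_cases hu : ∃ v ∈ N, a v = u
      · obtain ⟨v, hv, rfl⟩ := hu
        rw [hv.2.1 w (r.symm huw)]
      · by_cases hw : ∃ v ∈ N, a v = w
        · obtain ⟨v, hv, rfl⟩ := hw
          rw [hv.2.1 u huw]
        · push Not at hu hw
          rw [rotN_of_not hu, rotN_of_not hw]
    · rw [hval T x _ (Or.inl rfl), hval T x _ (Or.inr rfl)]
    · rw [hval T x _ (Or.inl rfl), hval T y _ (Or.inl rfl), sub_zero, inner_zero_left]
  have hbot : ZB a b L s p ⊓ LinearMap.range (rotN a N p) = ⊥ := by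
    rw [eq_bot_iff]
    rintro _ ⟨hS, T, rfl⟩
    rw [Submodule.mem_bot]
    funext i
    by_cases h : ∃ v ∈ N, a v = i
    · obtain ⟨v, hv, rfl⟩ := h
      have h3 := hbig v hv.1 hv.2.2
      obtain ⟨x, y, z, hx, hy, hz, hxy, hxz, hyz⟩ :=
        (Set.two_lt_ncard_iff (Set.toFinite _)).1 h3
      have key : ∀ x, s (a x) (a v) → ev (p x) (rotN a N p T (a v)) = 0 := by
        intro x hx
        rw [← hS.1.1 _ _ hx]
        exact hval T x _ (Or.inl rfl)
      exact hpP.eq_zero hxy hxz hyz (key x hx) (key y hy) (key z hz)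
    · push Not at h
      exact rotN_of_not h T
  have h1 := Submodule.finrank_sup_add_finrank_inf_eq (ZB a b L s p)
    (LinearMap.range (rotN a N p))
  rw [hbot, finrank_bot, add_zero, hK, hpG] at h1
  have h2 := Submodule.finrank_mono (sup_le (ZB_mono (a := a) (b := b) (p := p) (le_refl L) hrs) hKr)
  rw [h1, hpG] at h2
  omega

omit [Fintype V] [Fintype ι] in
lemma ncard_pair_le' (x y : V) : ({x, y} : Set V).ncard ≤ 2 := by
  have h1 := Set.ncard_insert_le x ({y} : Set V)
  rw [Set.ncard_singleton] at h1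
  omega

omit [Fintype ι] in
lemma exists_neighbors {L : SimpleGraph V} {v : V} {k : ℕ} (hdeg : k ≤ (L.neighborSet v).ncard) :
    ∃ y : Fin k → V, Function.Injective y ∧ ∀ i, L.Adj v (y i) := by
  classical
  obtain ⟨t, ht, htk⟩ := Set.exists_subset_card_eq hdeg
  rw [Set.ncard_eq_toFinset_card'] at htk
  let e := t.toFinset.equivFinOfCardEq htk
  refine ⟨fun i => (e.symm i).1, fun i j h => ?_, fun i => ?_⟩
  · exact e.symm.injective (Subtype.ext h)
  · have := (e.symm i).2
    rw [Set.mem_toFinset] at this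
    exact ht this

/-- The bars of a free vertex: up to three bars are independent. -/
theorem ext0 (hF : FreeSys a b Fr) (L : SimpleGraph V) (hL : ∀ x y, L.Adj x y → a x = b x)
    (r : Setoid ι) {v : V} (hv : v ∈ Fr) (hiso : Iso a r v) {k : ℕ} (hk : k ≤ 3)
    (hdeg : k ≤ (L.neighborSet v).ncard) :
    zB a b L r + k ≤ zB a b (delV L v) r := by
  obtain ⟨p, hp, hgp⟩ := exists_goodB_GP a b
  obtain ⟨y, hy, hyL⟩ := exists_neighbors hdeg
  rw [← hp L r, ← hp (delV L v) r]
  have hyv : ∀ i, y i ≠ v := fun i => (hyL i).ne'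
  refine free_cut hF hv hiso (fun x z h => (delV_adj.1 h).2) y hyv (hgp.indep hk hy hyv) _ ?_
  intro S hS
  exact ⟨ZB_mono (SimpleGraph.deleteEdges_le _) le_rfl hS, fun i => hS.2 _ _ (hyL i)⟩

/-- A free vertex with at least four bars: one-extension. -/
theorem ext1 (hF : FreeSys a b Fr) (L : SimpleGraph V) (hL : ∀ x y, L.Adj x y → a x = b x)
    (r : Setoid ι) {v : V} (hv : v ∈ Fr) (hiso : Iso a r v)
    (hdeg : 4 ≤ (L.neighborSet v).ncard) {x y : V} (hx : L.Adj v x) (hy : L.Adj v y)
    (hxy : x ≠ y) :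
    zB a b L r + 3 ≤ zB a b (delV L v ⊔ SimpleGraph.edge x y) r := by
  classical
  obtain ⟨q, hq, hgp⟩ := exists_goodB_GP a b
  -- two further neighbours
  obtain ⟨z, hz, hzx, hzy⟩ : ∃ z, L.Adj v z ∧ z ≠ x ∧ z ≠ y := by
    by_contra! hcon
    have h1 : L.neighborSet v ⊆ {x, y} := by
      intro z hz
      by_cases h : z = x
      · exact Or.inl h
      · exact Or.inr (hcon z hz h)
    have h2 := (Set.ncard_le_ncard h1 (Set.toFinite _)).trans (ncard_pair_le' x y)
    omega
  obtain ⟨w, hw, hwx, hwy, hwz⟩ : ∃ w, L.Adj v w ∧ w ≠ x ∧ w ≠ y ∧ w ≠ z := by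
    by_contra! hcon
    have h1 : L.neighborSet v ⊆ {x, y, z} := by
      intro w hw
      by_cases h : w = x
      · exact Or.inl h
      · by_cases h' : w = y
        · exact Or.inr (Or.inl h')
        · exact Or.inr (Or.inr (hcon w hw h h'))
    have h2 := Set.ncard_le_ncard h1 (Set.toFinite _)
    have h3 : ({x, y, z} : Set V).ncard ≤ 3 := by
      have := Set.ncard_insert_le x ({y, z} : Set V)
      have := ncard_pair_le' y z
      omega
    omega
  set L1 := delV L v ⊔ SimpleGraph.edge x y with hL1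
  have hL1v : ∀ u w, L1.Adj u w → u ≠ v ∧ w ≠ v := by
    intro u w h
    rw [hL1, SimpleGraph.sup_adj] at h
    rcases h with h | h
    · exact (delV_adj.1 h).2
    · rw [SimpleGraph.edge_adj] at h
      rcases h.1 with ⟨rfl, rfl⟩ | ⟨rfl, rfl⟩
      · exact ⟨hx.ne', hy.ne'⟩
      · exact ⟨hy.ne', hx.ne'⟩
  set m : E3 := (1 / 2 : ℝ) • (q x + q y) with hm
  set q' : V → E3 := Function.update q v m with hq'
  have hqv : q' v = m := Function.update_self _ _ _
  have hqo : ∀ u, u ≠ v → q' u = q u := fun u hu => Function.update_of_ne hu _ _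
  have hcongr : ZB a b L1 r q' = ZB a b L1 r q := by
    apply ZB_congr
    intro u
    by_cases hu : u = v
    · subst hu
      exact Or.inr ⟨hF.same _ hv, fun w hw => (hL1v _ _ hw).1 rfl⟩
    · exact Or.inl (hqo u hu)
  have h1 : zB a b L r ≤ finrank ℝ (ZB a b L r q') := zB_le a b L r q'
  have h2 : finrank ℝ (ZB a b L r q') + 3 ≤ finrank ℝ (ZB a b L1 r q') := by
    refine free_cut hF hv hiso hL1v (k := 3) ![x, z, w] ?_ ?_ _ ?_
    · intro i
      fin_cases i
      · exact hx.ne'
      · exact hz.ne'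
      · exact hw.ne'
    · have hind := hgp.2.2 x y z w hxy hzx.symm hwx.symm hzy.symm hwy.symm hwz.symm
      rw [Fintype.linearIndependent_iff] at hind ⊢
      intro g hg
      have e : ∑ i, (![(g 0 + g 1 + g 2) / 2, -g 1, -g 2] : Fin 3 → ℝ) i •
          (![q y - q x, q z - q x, q w - q x] : Fin 3 → E3) i = 0 := by
        rw [← hg]
        simp only [Fin.sum_univ_three, Matrix.cons_val_zero, Matrix.cons_val_one,
          Matrix.cons_val_two, Matrix.head_cons, Matrix.tail_cons]
        rw [hqv, hqo x hx.ne', hqo z hz.ne', hqo w hw.ne', hm]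
        module
      have h0 := hind _ e
      have g1 : g 1 = 0 := by simpa using h0 1
      have g2 : g 2 = 0 := by simpa using h0 2
      have g0 : g 0 = 0 := by
        have := h0 0
        simp only [Matrix.cons_val_zero] at this
        rw [g1, g2] at this
        linarith
      intro i
      fin_cases i
      · exact g0
      · exact g1
      · exact g2
    · intro S hS
      have hbar : ∀ u, L.Adj v u → ⟪ev (q' v) (S (a v)) - ev (q' u) (S (a u)), q' v - q' u⟫ = 0 :=
        fun u hu => hS.2 _ _ hu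
      refine ⟨⟨hS.1, fun u u' huu => ?_⟩, fun i => ?_⟩
      · rw [hL1, SimpleGraph.sup_adj] at huu
        rcases huu with h | h
        · exact hS.2 _ _ (delV_adj.1 h).1
        · have hxy' : ⟪ev (q' x) (S (a x)) - ev (q' y) (S (a y)), q' x - q' y⟫ = 0 := by
            have e1 := hbar x hx
            have e2 := hbar y hy
            rw [hqv] at e1 e2
            have d1 : m - q' x = (-1 / 2 : ℝ) • (q' x - q' y) := by
              rw [hqo x hx.ne', hqo y hy.ne', hm]
              module
            have d2 : m - q' y = (1 / 2 : ℝ) • (q' x - q' y) := by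
              rw [hqo x hx.ne', hqo y hy.ne', hm]
              module
            rw [d1, real_inner_smul_right] at e1
            rw [d2, real_inner_smul_right] at e2
            have e3 : ⟪ev (q' x) (S (a x)) - ev (q' y) (S (a y)), q' x - q' y⟫ =
                ⟪ev m (S (a v)) - ev (q' y) (S (a y)), q' x - q' y⟫ -
                ⟪ev m (S (a v)) - ev (q' x) (S (a x)), q' x - q' y⟫ := by
              rw [← inner_sub_left]
              congr 1
              abel
            rw [e3]
            linarith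
          rw [SimpleGraph.edge_adj] at h
          rcases h.1 with ⟨rfl, rfl⟩ | ⟨rfl, rfl⟩
          · exact hxy'
          · rw [bar_symm]
            exact hxy'
      · fin_cases i
        · exact hbar x hx
        · exact hbar z hz
        · exact hbar w hw
  rw [hcongr, hq L1 r] at h2
  omega

/-- A free vertex with three bars to one class moves with this class. -/
theorem abs3 (hF : FreeSys a b Fr) (L : SimpleGraph V) (hL : ∀ x y, L.Adj x y → a x = b x)
    (s : Setoid ι) {v : V} (hv : v ∈ Fr) (hiso : Iso a s v) {j : ι}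
    (h3 : 3 ≤ {y | L.Adj v y ∧ s (a y) j}.ncard) :
    zB a b L s ≤ zB a b L (weld s (a v) j) + 3 := by
  classical
  obtain ⟨p, hp, hgp⟩ := exists_goodB_GP a b
  obtain ⟨t, ht, htk⟩ := Set.exists_subset_card_eq h3
  rw [Set.ncard_eq_toFinset_card'] at htk
  let e := t.toFinset.equivFinOfCardEq htk
  let y : Fin 3 → V := fun i => (e.symm i).1
  have hyinj : Function.Injective y := fun i j h => e.symm.injective (Subtype.ext h)
  have hyt : ∀ i, L.Adj v (y i) ∧ s (a (y i)) j := by
    intro i
    have := (e.symm i).2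
    rw [Set.mem_toFinset] at this
    exact ht this
  have hind := hgp.indep (le_refl 3) hyinj (fun i => (hyt i).1.ne')
  let δ : (ι → Kil) →ₗ[ℝ] Kil :=
    LinearMap.proj (R := ℝ) (φ := fun _ : ι => Kil) (a v) - LinearMap.proj j
  have hδ : ∀ S, δ S = S (a v) - S j := fun S => rfl
  rw [← hp L s, ← hp L (weld s (a v) j)]
  have h1 := LinearMap.finrank_range_add_finrank_ker (δ.domRestrict (ZB a b L s p))
  have h2 : finrank ℝ (LinearMap.ker (δ.domRestrict (ZB a b L s p))) ≤
      finrank ℝ (ZB a b L (weld s (a v) j) p) := by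
    have h4 : (LinearMap.ker (δ.domRestrict (ZB a b L s p))).map (ZB a b L s p).subtype ≤
        ZB a b L (weld s (a v) j) p := by
      rintro _ ⟨S, hS, rfl⟩
      rw [mem_ZB_weld]
      refine ⟨S.2, ?_⟩
      rw [SetLike.mem_coe, LinearMap.mem_ker, LinearMap.domRestrict_apply, hδ, sub_eq_zero] at hS
      exact hS
    have h5 := Submodule.finrank_mono h4
    rwa [Submodule.finrank_map_subtype_eq] at h5
  have h6 : finrank ℝ (LinearMap.range (δ.domRestrict (ZB a b L s p))) ≤ 3 := by
    refine le_trans (Submodule.finrank_mono ?_) (finrank_ker_ev (p v)).le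
    rintro _ ⟨S, rfl⟩
    rw [LinearMap.mem_ker, LinearMap.domRestrict_apply, hδ]
    have h7 : ∀ i, ⟪ev (p v) (S.1 (a v) - S.1 j), p v - p (y i)⟫ = 0 := by
      intro i
      have h8 := S.2.2 v (y i) (hyt i).1
      rw [S.2.1.1 _ _ (hyt i).2, bar_eq_inner] at h8
      exact h8
    exact eq_zero_of_inner_indep hind h7
  omega

/-- Four pairwise adjacent free vertices form a rigid body. -/
theorem abs4 (hF : FreeSys a b Fr) (L : SimpleGraph V) (hL : ∀ x y, L.Adj x y → a x = b x)
    (s : Setoid ι) {w : Fin 4 → V} (hw : Function.Injective w) (hfr : ∀ i, w i ∈ Fr)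
    (hiso : ∀ i, Iso a s (w i)) (hadj : ∀ i j, i ≠ j → L.Adj (w i) (w j)) :
    zB a b L s ≤ zB a b L (weld (weld (weld s (a (w 0)) (a (w 1))) (a (w 0)) (a (w 2)))
      (a (w 0)) (a (w 3))) + 12 := by
  classical
  obtain ⟨p, hp, hgp⟩ := exists_goodB_GP a b
  set s' := weld (weld (weld s (a (w 0)) (a (w 1))) (a (w 0)) (a (w 2)))
      (a (w 0)) (a (w 3)) with hs'
  let δ : (ι → Kil) →ₗ[ℝ] (Fin 4 → Kil) := LinearMap.pi fun i =>
    LinearMap.proj (R := ℝ) (φ := fun _ : ι => Kil) (a (w i)) - LinearMap.proj (a (w 0))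
  have hδ : ∀ S i, δ S i = S (a (w i)) - S (a (w 0)) := fun S i => rfl
  rw [← hp L s, ← hp L s']
  have h1 := LinearMap.finrank_range_add_finrank_ker (δ.domRestrict (ZB a b L s p))
  have h2 : finrank ℝ (LinearMap.ker (δ.domRestrict (ZB a b L s p))) ≤
      finrank ℝ (ZB a b L s' p) := by
    have h4 : (LinearMap.ker (δ.domRestrict (ZB a b L s p))).map (ZB a b L s p).subtype ≤
        ZB a b L s' p := by
      rintro _ ⟨S, hS, rfl⟩
      rw [SetLike.mem_coe, LinearMap.mem_ker, LinearMap.domRestrict_apply] at hS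
      have hS' : ∀ i, S.1 (a (w 0)) = S.1 (a (w i)) := by
        intro i
        have := congrFun hS i
        rw [hδ, Pi.zero_apply, sub_eq_zero] at this
        exact this.symm
      rw [hs', mem_ZB_weld, mem_ZB_weld, mem_ZB_weld]
      exact ⟨⟨⟨S.2, hS' 1⟩, hS' 2⟩, hS' 3⟩
    have h5 := Submodule.finrank_mono h4
    rwa [Submodule.finrank_map_subtype_eq] at h5
  -- the range
  let κ : (∀ i : Fin 4, LinearMap.ker (ev (p (w i)))) →ₗ[ℝ] (Fin 4 → Kil) :=
    LinearMap.pi fun i => (LinearMap.ker (ev (p (w i)))).subtype.comp (LinearMap.proj i) -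
      (LinearMap.ker (ev (p (w 0)))).subtype.comp (LinearMap.proj 0)
  have hκ : ∀ (k : ∀ i : Fin 4, LinearMap.ker (ev (p (w i)))) i,
      κ k i = (k i : Kil) - (k 0 : Kil) := fun k i => rfl
  have hκr : finrank ℝ (LinearMap.range κ) ≤ 12 := by
    refine (LinearMap.finrank_range_le κ).trans ?_
    rw [Module.finrank_pi_fintype]
    simp only [finrank_ker_ev]
    simp
  have h6 : finrank ℝ (LinearMap.range (δ.domRestrict (ZB a b L s p))) ≤ 12 := by
    refine le_trans (Submodule.finrank_mono ?_) hκr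
    rintro _ ⟨S, rfl⟩
    -- the velocities of the four points
    let B : Finset V := Finset.univ.image w
    have hB : 3 ≤ B.card := by
      rw [Finset.card_image_of_injective _ hw]
      simp
    let q : V → E3 := fun x => ev (p x) (S.1 (a x))
    obtain ⟨T, hT⟩ := hgp.clique hB (q := q) (by
      intro x hx y hy hxy
      simp only [B, Finset.mem_image, Finset.mem_univ, true_and] at hx hy
      obtain ⟨i, rfl⟩ := hx
      obtain ⟨j, rfl⟩ := hy
      have hij : i ≠ j := fun h => hxy (by rw [h])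
      have := S.2.2 _ _ (hadj i j hij)
      rw [real_inner_comm]
      exact this)
    have hk : ∀ i, S.1 (a (w i)) - T ∈ LinearMap.ker (ev (p (w i))) := by
      intro i
      rw [LinearMap.mem_ker, map_sub, sub_eq_zero]
      exact hT (w i) (Finset.mem_image_of_mem _ (Finset.mem_univ i))
    refine ⟨fun i => ⟨S.1 (a (w i)) - T, hk i⟩, ?_⟩
    funext i
    rw [hκ]
    change (S.1 (a (w i)) - T) - (S.1 (a (w 0)) - T) = S.1 (a (w i)) - S.1 (a (w 0))
    abel
  omega

end

end Pool.Agent.BJ
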