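import Pool.Agent.Lib.MP_37c7bf_BJ.Max2
import Pool.Agent.Lib.MP_37c7bf_BJ.Free

/-!
The rank formula for bodies, joints, bars and free vertices of degree at most four.
-/

open MeasureTheory Module Topology
open scoped RealInnerProductSpace

namespace Pool.Agent.BJ

open Pool.Agent.H26R (E3 crossE)

section
variable {ι V : Type}

/-- The class of structures: unwelded free vertices have at most four bars, at every other vertex
at most two bars leave the class. -/
structure Cls (a : V → ι) (Fr : Set V) (L : SimpleGraph V) (r : Setoid ι) : Prop where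
  free : ∀ v ∈ Fr, Iso a r v → (L.neighborSet v).ncard ≤ 4
  body : ∀ v, ¬ (v ∈ Fr ∧ Iso a r v) → {y | L.Adj v y ∧ ¬ r (a v) (a y)}.ncard ≤ 2

/-- Every welded free vertex has at least three bars inside its class. -/
def Red (a : V → ι) (Fr : Set V) (L : SimpleGraph V) (r : Setoid ι) : Prop :=
  ∀ v ∈ Fr, ¬ Iso a r v → 3 ≤ {y | L.Adj v y ∧ r (a v) (a y)}.ncard

lemma weld_iff {s : Setoid ι} {i j x y : ι} :
    weld s i j x y ↔ s x y ∨ (s x i ∧ s j y) ∨ (s x j ∧ s i y) := by
  constructor
  · intro h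
    let t : Setoid ι :=
      { r := fun x y => s x y ∨ (s x i ∧ s j y) ∨ (s x j ∧ s i y)
        iseqv := by
          refine ⟨fun x => Or.inl (s.refl x), ?_, ?_⟩
          · rintro x y (h | ⟨h1, h2⟩ | ⟨h1, h2⟩)
            · exact Or.inl (s.symm h)
            · exact Or.inr (Or.inr ⟨s.symm h2, s.symm h1⟩)
            · exact Or.inr (Or.inl ⟨s.symm h2, s.symm h1⟩)
          · rintro x y z (h | ⟨h1, h2⟩ | ⟨h1, h2⟩) (g | ⟨g1, g2⟩ | ⟨g1, g2⟩)
            · exact Or.inl (s.trans h g)
            · exact Or.inr (Or.inl ⟨s.trans h g1, g2⟩)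
            · exact Or.inr (Or.inr ⟨s.trans h g1, g2⟩)
            · exact Or.inr (Or.inl ⟨h1, s.trans h2 g⟩)
            · exact Or.inr (Or.inl ⟨h1, g2⟩)
            · exact Or.inl (s.trans h1 g2)
            · exact Or.inr (Or.inr ⟨h1, s.trans h2 g⟩)
            · exact Or.inl (s.trans h1 g2)
            · exact Or.inr (Or.inr ⟨h1, g2⟩) }
    have hle : weld s i j ≤ t := by
      apply weld_le
      · intro x y h
        exact Or.inl h
      · exact Or.inr (Or.inl ⟨s.refl i, s.refl j⟩)
    exact hle h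
  · have hsw := le_weld s i j
    have hw := weld_rel s i j
    rintro (h | ⟨h1, h2⟩ | ⟨h1, h2⟩)
    · exact hsw h
    · exact (weld s i j).trans (hsw h1) ((weld s i j).trans hw (hsw h2))
    · exact (weld s i j).trans (hsw h1) ((weld s i j).trans ((weld s i j).symm hw) (hsw h2))

lemma Iso.anti {a : V → ι} {r s : Setoid ι} (h : r ≤ s) {v : V} (hv : Iso a s v) : Iso a r v :=
  fun i hi => hv i (h hi)

variable [Fintype V] [Fintype ι] {a b : V → ι} {Fr : Set V}

lemma nIso_anti {r s : Setoid ι} (h : r ≤ s) : nIso a Fr s ≤ nIso a Fr r :=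
  Set.ncard_le_ncard (fun _ hv => ⟨hv.1, hv.2.anti h⟩) (Set.toFinite _)

/-- Welding one more free vertex. -/
lemma nIso_lt {r s : Setoid ι} (h : r ≤ s) {v : V} (hv : v ∈ Fr) (h1 : Iso a r v)
    (h2 : ¬ Iso a s v) : nIso a Fr s + 1 ≤ nIso a Fr r := by
  apply Nat.succ_le_of_lt
  apply Set.ncard_lt_ncard _ (Set.toFinite _)
  have hsub : {v | v ∈ Fr ∧ Iso a s v} ⊆ {v | v ∈ Fr ∧ Iso a r v} :=
    fun _ hv => ⟨hv.1, hv.2.anti h⟩
  rw [Set.ssubset_iff_of_subset hsub]
  exact ⟨v, ⟨hv, h1⟩, fun h3 => h2 h3.2⟩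

/-- Two vertices, one of them free and isolated, are not in one class. -/
lemma FreeSys.not_rel (hF : FreeSys a b Fr) {s : Setoid ι} {v w : V} (hv : v ∈ Fr)
    (hiso : Iso a s v) (hne : w ≠ v) : ¬ s (a w) (a v) :=
  fun h => hne (hF.alone v hv w (Or.inl (hiso _ h)))

/-- A vertex which is not constrained at all. -/
lemma unc (hF : FreeSys a b Fr) {L : SimpleGraph V} (hL : ∀ x y, L.Adj x y → a x = b x)
    {r s : Setoid ι} (hrs : r ≤ s) {v : V} (hv : v ∈ Fr) (h1 : Iso a r v) (h2 : ¬ Iso a s v)
    (h0 : ∀ y, ¬ L.Adj v y) : zB a b L s < zB a b L r := by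
  classical
  obtain ⟨p, hp⟩ := exists_goodB a b
  rw [← hp, ← hp]
  apply Submodule.finrank_lt_finrank_of_lt
  refine lt_of_le_of_ne (ZB_mono le_rfl hrs) ?_
  intro heq
  obtain ⟨T, hT⟩ : ∃ T : Kil, T ≠ 0 := exists_ne 0
  have hmem : Pi.single (a v) T ∈ ZB a b L r p := by
    rw [mem_ZB, mem_Z]
    refine ⟨⟨?_, ?_⟩, ?_⟩
    · intro i j hij
      by_cases hi : i = a v
      · subst hi
        rw [h1 j (r.symm hij)]
      · have hj : j ≠ a v := by
          rintro rfl
          exact hi (h1 i hij)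
        rw [Pi.single_eq_of_ne hi, Pi.single_eq_of_ne hj]
    · intro x _
      by_cases hx : x = v
      · subst hx
        rw [hF.same x hv]
      · have h3 : a x ≠ a v := fun h => hx (hF.alone v hv x (Or.inl h))
        have h4 : b x ≠ a v := fun h => hx (hF.alone v hv x (Or.inr h))
        rw [Pi.single_eq_of_ne h3, Pi.single_eq_of_ne h4]
    · intro x y hxy
      have hx : x ≠ v := by
        rintro rfl
        exact h0 y hxy
      have hy : y ≠ v := by
        rintro rfl
        exact h0 x hxy.symm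
      have h3 : a x ≠ a v := fun h => hx (hF.alone v hv x (Or.inl h))
      have h4 : a y ≠ a v := fun h => hy (hF.alone v hv y (Or.inl h))
      rw [Pi.single_eq_of_ne h3, Pi.single_eq_of_ne h4, map_zero, map_zero, sub_zero,
        inner_zero_left]
  rw [← heq, mem_ZB, mem_Z] at hmem
  unfold Iso at h2
  push Not at h2
  obtain ⟨i, hi, hne⟩ := h2
  have h3 := hmem.1.1 i (a v) hi
  rw [Pi.single_eq_of_ne hne, Pi.single_eq_same] at h3
  exact hT h3.symm

/-- Implied bars stay implied after welding. -/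
lemma zB_implied {L0 L1 : SimpleGraph V} (hle : L0 ≤ L1) {r s : Setoid ι} (hrs : r ≤ s)
    (h : zB a b L1 r = zB a b L0 r) : zB a b L1 s = zB a b L0 s := by
  obtain ⟨p, hp⟩ := exists_goodB a b
  have h1 : ZB a b L1 r p = ZB a b L0 r p := by
    apply Submodule.eq_of_le_of_finrank_eq (ZB_mono hle le_rfl)
    rw [hp, hp, h]
  have h2 : ZB a b L1 s p = ZB a b L0 s p := by
    apply le_antisymm (ZB_mono hle le_rfl)
    intro S hS
    have h3 : S ∈ ZB a b L1 r p := by
      rw [h1]
      exact ZB_mono le_rfl hrs hS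
    exact ⟨hS.1, h3.2⟩
  rw [← hp, ← hp, h2]

/-- Deleting bars gains at most their number. -/
lemma valB_le_of_le {L0 L : SimpleGraph V} (hle : L0 ≤ L) (s : Setoid ι) :
    valB a b L0 s ≤ valB a b L s + ((L.edgeSet \ L0.edgeSet).ncard : ℤ) := by
  obtain ⟨n, hn⟩ : ∃ n, (L.edgeSet \ L0.edgeSet).ncard = n := ⟨_, rfl⟩
  induction n generalizing L with
  | zero =>
    rw [hn, Nat.cast_zero, add_zero]
    rw [Set.ncard_eq_zero (Set.toFinite _), Set.diff_eq_empty] at hn
    have : L = L0 := le_antisymm (SimpleGraph.edgeSet_subset_edgeSet.1 hn) hle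
    rw [this]
  | succ n ih =>
    obtain ⟨e, he⟩ := Set.nonempty_of_ncard_ne_zero (s := L.edgeSet \ L0.edgeSet) (by omega)
    induction e with
    | _ x y =>
    have hxy : L.Adj x y := he.1
    have h1 : L0 ≤ L.deleteEdges {s(x, y)} := by
      intro u w huw
      rw [SimpleGraph.deleteEdges_adj]
      refine ⟨hle huw, fun h => ?_⟩
      rw [Set.mem_singleton_iff] at h
      apply he.2
      rw [← h]
      exact huw
    have h2 : ((L.deleteEdges {s(x, y)}).edgeSet \ L0.edgeSet).ncard = n := by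
      have h3 : (L.deleteEdges {s(x, y)}).edgeSet \ L0.edgeSet =
          (L.edgeSet \ L0.edgeSet) \ {s(x, y)} := by
        rw [SimpleGraph.edgeSet_deleteEdges, Set.diff_diff_comm]
      rw [h3, Set.ncard_diff_singleton_of_mem he, hn]
      rfl
    have h4 := ih h1 h2
    have h5 := valB_del_le a b s hxy
    rw [h2] at h4
    rw [hn]
    push_cast
    linarith

lemma ncard_incidence (L : SimpleGraph V) (v : V) :
    (L.edgeSet \ (delV L v).edgeSet).ncard = (L.neighborSet v).ncard := by
  have h : L.edgeSet \ (delV L v).edgeSet = (fun y => s(v, y)) '' (L.neighborSet v) := by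
    ext e
    induction e with
    | _ x y =>
    constructor
    · rintro ⟨h1, h2⟩
      rw [SimpleGraph.mem_edgeSet] at h1 h2
      rw [delV_adj] at h2
      by_cases hx : x = v
      · subst hx
        exact ⟨y, h1, rfl⟩
      · have hy : y = v := by
          by_contra hy
          exact h2 ⟨h1, hx, hy⟩
        subst hy
        exact ⟨x, h1.symm, Sym2.eq_swap⟩
    · rintro ⟨z, hz, hzz⟩
      rw [SimpleGraph.mem_neighborSet] at hz
      have h1 : s(x, y) ∈ L.edgeSet := by
        rw [← hzz]
        exact hz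
      refine ⟨h1, fun h2 => ?_⟩
      rw [SimpleGraph.mem_edgeSet, delV_adj] at h2
      rw [Sym2.eq_iff] at hzz
      rcases hzz with ⟨h3, _⟩ | ⟨h3, _⟩
      · exact h2.2.1 h3.symm
      · exact h2.2.2 h3.symm
  rw [h]
  apply Set.ncard_image_of_injective
  intro y z hyz
  rw [Sym2.eq_iff] at hyz
  rcases hyz with ⟨_, h3⟩ | ⟨h3, h4⟩
  · exact h3
  · rw [h4, h3]

/-! ### The partitions used in the induction step -/

/-- The partitions which are rigid for the structure `L0` (all bars at `v` deleted), with room for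
one more bar at every neighbour of `v`. -/
structure QQ (a b : V → ι) (Fr : Set V) (L L0 : SimpleGraph V) (v : V) (r s : Setoid ι) : Prop where
  le : r ≤ s
  red : Red a Fr L0 s
  cls : Cls a Fr L0 s
  room1 : ∀ w, L.Adj v w → w ∈ Fr → Iso a s w → (L0.neighborSet w).ncard ≤ 3
  room2 : ∀ w, L.Adj v w → ¬ (w ∈ Fr ∧ Iso a s w) →
    {y | L0.Adj w y ∧ ¬ s (a w) (a y)}.ncard ≤ 1
  iso : Iso a s v
  rigid : zB a b L0 r + 3 * nIso a Fr s ≤ zB a b L0 s + 3 * nIso a Fr r

lemma ncard_split {L : SimpleGraph V} {s : Setoid ι} (a : V → ι) (v : V) :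
    {y | L.Adj v y ∧ s (a v) (a y)}.ncard + {y | L.Adj v y ∧ ¬ s (a v) (a y)}.ncard =
      (L.neighborSet v).ncard := by
  rw [← Set.ncard_union_eq _ (Set.toFinite _) (Set.toFinite _)]
  · congr 1
    ext y
    simp only [Set.mem_union, Set.mem_setOf_eq, SimpleGraph.mem_neighborSet]
    tauto
  · rw [Set.disjoint_left]
    rintro y hy hy'
    exact hy'.2 hy.2

/-- Coarsening a good partition. -/
lemma QQ.step {L L0 : SimpleGraph V} {v : V} {r s t : Setoid ι}
    (hL0v : ∀ y, ¬ L0.Adj v y) (hvF : v ∈ Fr)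
    (h : QQ a b Fr L L0 v r s) (hst : s ≤ t) (hred : Red a Fr L0 t)
    (hz : zB a b L0 s + 3 * nIso a Fr t ≤ zB a b L0 t + 3 * nIso a Fr s) :
    QQ a b Fr L L0 v r t := by
  have hmono : ∀ x, {y | L0.Adj x y ∧ ¬ t (a x) (a y)}.ncard ≤
      {y | L0.Adj x y ∧ ¬ s (a x) (a y)}.ncard := by
    intro x
    exact Set.ncard_le_ncard (fun y hy => ⟨hy.1, fun h => hy.2 (hst h)⟩) (Set.toFinite _)
  refine ⟨h.le.trans hst, hred, ⟨?_, ?_⟩, ?_, ?_, ?_, ?_⟩
  · intro u hu hi
    exact h.cls.free u hu (hi.anti hst)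
  · intro x hx
    by_cases hx' : x ∈ Fr ∧ Iso a s x
    · have h1 := hred x hx'.1 fun h2 => hx ⟨hx'.1, h2⟩
      have h2 := h.cls.free x hx'.1 hx'.2
      have h3 := ncard_split (L := L0) (s := t) a x
      omega
    · exact (hmono x).trans (h.cls.body x hx')
  · intro w hw hwF hi
    exact h.room1 w hw hwF (hi.anti hst)
  · intro w hw hi
    by_cases hx' : w ∈ Fr ∧ Iso a s w
    · have h1 := hred w hx'.1 fun h2 => hi ⟨hx'.1, h2⟩
      have h2 := h.room1 w hw hx'.1 hx'.2
      have h3 := ncard_split (L := L0) (s := t) a w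
      omega
    · exact (hmono w).trans (h.room2 w hw hx')
  · by_contra hi
    have h1 := hred v hvF hi
    have h2 : {y | L0.Adj v y ∧ t (a v) (a y)} = ∅ := by
      ext y
      simp [hL0v y]
    rw [h2, Set.ncard_empty] at h1
    omega
  · have := h.rigid
    omega

/-- Every welded free vertex lies in a class with at least four points. -/
def Big4 (a : V → ι) (Fr : Set V) (t : Setoid ι) : Prop :=
  ∀ u ∈ Fr, ¬ Iso a t u → 4 ≤ {x | t (a x) (a u)}.ncard

lemma Red.big4 {L : SimpleGraph V} {t : Setoid ι} (hR : Red a Fr L t) : Big4 a Fr t := by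
  intro u hu hi
  have h1 := hR u hu hi
  have h2 : insert u {y | L.Adj u y ∧ t (a u) (a y)} ⊆ {x | t (a x) (a u)} := by
    rintro x (rfl | hx)
    · exact t.refl _
    · exact t.symm hx.2
  have h3 := Set.ncard_le_ncard h2 (Set.toFinite _)
  rw [Set.ncard_insert_of_notMem (fun h => h.1.ne rfl) (Set.toFinite _)] at h3
  omega

/-- The cost of a pair of classes containing an isolated free vertex. -/
lemma cost_iso (hF : FreeSys a b Fr) {L : SimpleGraph V} {t : Setoid ι} {u : V} (hu : u ∈ Fr)
    (hi : Iso a t u) {j : ι} (hj : ¬ t (a u) j) :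
    hh (dd a b Finset.univ t s(Quotient.mk t (a u), Quotient.mk t j)) +
      (ff a L t s(Quotient.mk t (a u), Quotient.mk t j) : ℤ) ≤ (L.neighborSet u).ncard := by
  classical
  have h1 : dd a b Finset.univ t s(Quotient.mk t (a u), Quotient.mk t j) = 0 := by
    unfold dd
    rw [Finset.card_eq_zero]
    apply Finset.eq_empty_of_forall_notMem
    intro x hx
    rw [Finset.mem_filter] at hx
    have h2 := hx.2
    unfold pr at h2
    rw [Sym2.eq_iff] at h2
    have key : ∀ x, (Quotient.mk t (a x) = Quotient.mk t (a u) ∨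
        Quotient.mk t (b x) = Quotient.mk t (a u)) → x = u := by
      rintro x (h | h)
      · exact hF.alone u hu x (Or.inl (hi _ (Quotient.exact h)))
      · exact hF.alone u hu x (Or.inr (hi _ (Quotient.exact h)))
    rcases h2 with ⟨h3, h4⟩ | ⟨h3, h4⟩
    · obtain rfl := key x (Or.inl h3)
      rw [← hF.same x hu] at h4
      exact hj (Quotient.exact h4)
    · obtain rfl := key x (Or.inr h4)
      exact hj (Quotient.exact h3)
  have h2 : ff a L t s(Quotient.mk t (a u), Quotient.mk t j) ≤ (L.neighborSet u).ncard := by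
    unfold ff
    rw [← Set.ncard_image_of_injective (L.neighborSet u) (f := fun y => s(u, y))
      (fun y z hyz => by
        rw [Sym2.eq_iff] at hyz
        rcases hyz with ⟨_, h3⟩ | ⟨h3, h4⟩
        · exact h3
        · rw [h4, h3]), ← Set.ncard_coe_finset]
    apply Set.ncard_le_ncard _ (Set.toFinite _)
    intro e he
    rw [Finset.mem_coe, Finset.mem_filter] at he
    induction e with
    | _ x y =>
    obtain ⟨_, hxy, h3⟩ := he
    rw [SimpleGraph.mem_edgeSet] at hxy
    rw [Sym2.map_mk, Sym2.eq_iff] at h3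
    have key : ∀ x, Quotient.mk t (a x) = Quotient.mk t (a u) → x = u := by
      intro x h
      exact hF.alone u hu x (Or.inl (hi _ (Quotient.exact h)))
    rcases h3 with ⟨h4, h5⟩ | ⟨h4, h5⟩
    · obtain rfl := key x h4
      exact ⟨y, hxy, rfl⟩
    · obtain rfl := key y h5
      exact ⟨x, hxy.symm, Sym2.eq_swap⟩
  rw [h1]
  have h3 : hh 0 = 0 := rfl
  rw [h3, zero_add]
  exact_mod_cast h2

/-- The number of isolated free vertices with a bar. -/
noncomputable def act (a : V → ι) (Fr : Set V) (L : SimpleGraph V) (r : Setoid ι) : ℕ :=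
  {u | u ∈ Fr ∧ Iso a r u ∧ ∃ y, L.Adj u y}.ncard

lemma hL_sup {L0 : SimpleGraph V} (hL0 : ∀ x y, L0.Adj x y → a x = b x) {w w' : V}
    (hw : a w = b w) (hw' : a w' = b w') (x y : V) (h : (L0 ⊔ SimpleGraph.edge w w').Adj x y) :
    a x = b x := by
  rw [SimpleGraph.sup_adj, SimpleGraph.edge_adj] at h
  rcases h with h | ⟨⟨rfl, rfl⟩ | ⟨rfl, rfl⟩, _⟩
  · exact hL0 x y h
  · exact hw
  · exact hw'

/-- The number of isolated free vertices after isolating a vertex of a big class. -/
lemma nIso_iso {t : Setoid ι} (hF : FreeSys a b Fr) (hbig : Big4 a Fr t) {u : V} (hu : u ∈ Fr)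
    (hi : ¬ Iso a t u) :
    nIso a Fr (iso t (a u)) ≤ nIso a Fr t + 1 ∧
      ∀ v ∈ Fr, ¬ Iso a (iso t (a u)) v → 3 ≤ {x | iso t (a u) (a x) (a v)}.ncard := by
  have key : ∀ v ∈ Fr, v ≠ u → ¬ Iso a t v → 3 ≤ {x | iso t (a u) (a x) (a v)}.ncard := by
    intro v hv hne hvi
    have h1 := hbig v hv hvi
    have hav : a v ≠ a u := fun h => hne (hF.alone u hu v (Or.inl h))
    have h2 : {x | t (a x) (a v)} ⊆ insert u {x | iso t (a u) (a x) (a v)} := by
      intro x hx
      by_cases hxu : x = u
      · exact Or.inl hxu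
      · refine Or.inr (Or.inr ⟨hx, fun h => hxu (hF.alone u hu x (Or.inl h)), hav⟩)
    have h3 := Set.ncard_le_ncard h2 (Set.toFinite _)
    have h4 := Set.ncard_insert_le u {x | iso t (a u) (a x) (a v)}
    omega
  constructor
  · have hsub : {v | v ∈ Fr ∧ Iso a (iso t (a u)) v} ⊆ insert u {v | v ∈ Fr ∧ Iso a t v} := by
      rintro v ⟨hv, hvi⟩
      by_cases hvu : v = u
      · exact Or.inl hvu
      · right
        refine ⟨hv, ?_⟩
        by_contra hcon
        have h1 := key v hv hvu hcon
        have h2 : {x | iso t (a u) (a x) (a v)} ⊆ {v} := by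
          intro x hx
          exact hF.alone v hv x (Or.inl (hvi _ hx))
        have h3 := Set.ncard_le_ncard h2 (Set.toFinite _)
        rw [Set.ncard_singleton] at h3
        omega
    have h3 := Set.ncard_le_ncard hsub (Set.toFinite _)
    exact h3.trans (Set.ncard_insert_le _ _)
  · intro v hv hvi
    by_cases hvu : v = u
    · subst hvu
      exfalso
      apply hvi
      rintro i (h | ⟨_, _, h⟩)
      · exact h
      · exact absurd rfl h
    · by_cases hvt : Iso a t v
      · exfalso
        apply hvi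
        rintro i (h | ⟨h, _, _⟩)
        · exact h
        · exact hvt i h
      · exact key v hv hvu hvt

lemma ff_mono (a : V → ι) {L0 L1 : SimpleGraph V} (h : L0 ≤ L1) (t : Setoid ι)
    (e : Sym2 (Quotient t)) : ff a L0 t e ≤ ff a L1 t e := by
  unfold ff
  apply Finset.card_le_card
  intro f hf
  simp only [Finset.mem_filter, Finset.mem_univ, true_and] at hf ⊢
  exact ⟨SimpleGraph.edgeSet_mono h hf.1, hf.2⟩

/-- Isolating, valid for bars deleted. -/
lemma le_iso {s t : Setoid ι} (hst : s ≤ t) {u : V} (hi : Iso a s u) : s ≤ iso t (a u) := by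
  intro i j hij
  by_cases h : i = j
  · exact Or.inl h
  · refine Or.inr ⟨hst hij, ?_, ?_⟩
    · rintro rfl
      exact h (hi j (s.symm hij)).symm
    · rintro rfl
      exact h (hi i hij)

/-- Neighbours of `v` in different classes of a maximal rigid partition are adjacent. -/
lemma claimM (hF : FreeSys a b Fr) {L L0 : SimpleGraph V} (hL : ∀ x y, L.Adj x y → a x = b x)
    {v : V} (hv : v ∈ Fr) (hL0 : L0 = delV L v) {r s : Setoid ι}
    (hs : QQ a b Fr L L0 v r s)
    (hmin : ∀ t, QQ a b Fr L L0 v r t → Nat.card (Quotient s) ≤ Nat.card (Quotient t))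
    {n : ℕ} (hn : act a Fr L r = n) (hvr : Iso a r v)
    (hIH : ∀ (L' : SimpleGraph V) (r' : Setoid ι), (∀ x y, L'.Adj x y → a x = b x) →
      Cls a Fr L' r' → Red a Fr L' r' → act a Fr L' r' < n →
      ∃ s, r' ≤ s ∧ Red a Fr L' s ∧
        (zB a b L' r' : ℤ) + 3 * nIso a Fr s ≤ valB a b L' s + 3 * nIso a Fr r')
    (himp : ∀ x y, L.Adj v x → L.Adj v y → x ≠ y →
      zB a b (L0 ⊔ SimpleGraph.edge x y) r = zB a b L0 r)
    {w w' : V} (hw : L.Adj v w) (hw' : L.Adj v w') (hne : ¬ s (a w) (a w')) :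
    L0.Adj w w' := by
  classical
  by_contra hadj
  have hww : w ≠ w' := by
    rintro rfl
    exact hne (s.refl _)
  have hle0 : L0 ≤ L := by
    rw [hL0]
    exact SimpleGraph.deleteEdges_le _
  have hhL0 : ∀ x y, L0.Adj x y → a x = b x := fun x y h => hL x y (hle0 h)
  have hL0v : ∀ y, ¬ L0.Adj v y := by
    intro y h
    rw [hL0, delV_adj] at h
    exact h.2.1 rfl
  have hwv : w ≠ v := hw.ne'
  have hwv' : w' ≠ v := hw'.ne'
  set L1 := L0 ⊔ SimpleGraph.edge w w' with hL1
  have hle1 : L0 ≤ L1 := le_sup_left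
  have hL1adj : ∀ x y, L1.Adj x y ↔ L0.Adj x y ∨ s(x, y) = s(w, w') := by
    intro x y
    rw [hL1, SimpleGraph.sup_adj, SimpleGraph.edge_adj, Sym2.eq_iff]
    constructor
    · rintro (h | ⟨h, _⟩)
      · exact Or.inl h
      · exact Or.inr h
    · rintro (h | h)
      · exact Or.inl h
      · refine Or.inr ⟨h, ?_⟩
        rcases h with ⟨rfl, rfl⟩ | ⟨rfl, rfl⟩
        · exact hww
        · exact hww.symm
  have hhL1 : ∀ x y, L1.Adj x y → a x = b x :=
    hL_sup hhL0 (hL w v hw.symm) (hL w' v hw'.symm)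
  have hL1v : ∀ y, ¬ L1.Adj v y := by
    intro y h
    rw [hL1adj, Sym2.eq_iff] at h
    rcases h with h | ⟨h, _⟩ | ⟨h, _⟩
    · exact hL0v y h
    · exact hwv h.symm
    · exact hwv' h.symm
  -- the extra edge is implied
  have hz1 : zB a b L1 s = zB a b L0 s := zB_implied hle1 hs.le (himp w w' hw hw' hww)
  -- neighbours in `L1`
  have hnb : ∀ x, {y | L1.Adj x y} ⊆ {y | L0.Adj x y} ∪ (if x = w then {w'} else
      if x = w' then {w} else ∅) := by
    intro x y hy
    rw [Set.mem_setOf_eq, hL1adj, Sym2.eq_iff] at hy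
    rcases hy with h | ⟨rfl, rfl⟩ | ⟨rfl, rfl⟩
    · exact Or.inl h
    · right; rw [if_pos rfl]; rfl
    · right; rw [if_neg hww.symm, if_pos rfl]; rfl
  have hcl1 : Cls a Fr L1 s := by
    refine ⟨?_, ?_⟩
    · intro x hx hi
      have h1 : L1.neighborSet x ⊆ L0.neighborSet x ∪ (if x = w then {w'} else
          if x = w' then {w} else ∅) := hnb x
      have h2 := Set.ncard_le_ncard h1 (Set.toFinite _)
      have h3 := Set.ncard_union_le (L0.neighborSet x) (if x = w then ({w'} : Set V) else
          if x = w' then {w} else ∅)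
      by_cases hxw : x = w
      · rw [if_pos hxw, Set.ncard_singleton] at h3
        rw [if_pos hxw] at h2
        have := hs.room1 w hw (hxw ▸ hx) (hxw ▸ hi)
        rw [hxw] at h2 h3 ⊢
        omega
      · by_cases hxw' : x = w'
        · rw [if_neg hxw, if_pos hxw', Set.ncard_singleton] at h3
          rw [if_neg hxw, if_pos hxw'] at h2
          have := hs.room1 w' hw' (hxw' ▸ hx) (hxw' ▸ hi)
          rw [hxw'] at h2 h3 ⊢
          omega
        · rw [if_neg hxw, if_neg hxw', Set.ncard_empty] at h3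
          rw [if_neg hxw, if_neg hxw'] at h2
          have := hs.cls.free x hx hi
          omega
    · intro x hx
      have h1 : {y | L1.Adj x y ∧ ¬ s (a x) (a y)} ⊆ {y | L0.Adj x y ∧ ¬ s (a x) (a y)} ∪
          (if x = w then {w'} else if x = w' then {w} else ∅) := by
        intro y hy
        rcases hnb x hy.1 with h | h
        · exact Or.inl ⟨h, hy.2⟩
        · exact Or.inr h
      have h2 := Set.ncard_le_ncard h1 (Set.toFinite _)
      have h3 := Set.ncard_union_le {y | L0.Adj x y ∧ ¬ s (a x) (a y)}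
        (if x = w then ({w'} : Set V) else if x = w' then {w} else ∅)
      by_cases hxw : x = w
      · rw [if_pos hxw, Set.ncard_singleton] at h3
        rw [if_pos hxw] at h2
        have := hs.room2 w hw (hxw ▸ hx)
        rw [hxw] at h2 h3 ⊢
        omega
      · by_cases hxw' : x = w'
        · rw [if_neg hxw, if_pos hxw', Set.ncard_singleton] at h3
          rw [if_neg hxw, if_pos hxw'] at h2
          have := hs.room2 w' hw' (hxw' ▸ hx)
          rw [hxw'] at h2 h3 ⊢
          omega
        · rw [if_neg hxw, if_neg hxw', Set.ncard_empty] at h3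
          rw [if_neg hxw, if_neg hxw'] at h2
          have := hs.cls.body x hx
          omega
  have hred1 : Red a Fr L1 s := by
    intro x hx hi
    refine (hs.red x hx hi).trans (Set.ncard_le_ncard ?_ (Set.toFinite _))
    exact fun y hy => ⟨hle1 hy.1, hy.2⟩
  have hact1 : act a Fr L1 s < n := by
    rw [← hn]
    apply Set.ncard_lt_ncard _ (Set.toFinite _)
    have hsub : {u | u ∈ Fr ∧ Iso a s u ∧ ∃ y, L1.Adj u y} ⊆
        {u | u ∈ Fr ∧ Iso a r u ∧ ∃ y, L.Adj u y} := by
      rintro u ⟨h1, h2, y, hy⟩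
      refine ⟨h1, h2.anti hs.le, ?_⟩
      rw [hL1adj, Sym2.eq_iff] at hy
      rcases hy with h | ⟨rfl, _⟩ | ⟨rfl, _⟩
      · exact ⟨y, hle0 h⟩
      · exact ⟨v, hw.symm⟩
      · exact ⟨v, hw'.symm⟩
    rw [Set.ssubset_iff_of_subset hsub]
    exact ⟨v, ⟨hv, hvr, w, hw⟩, fun h => by
      obtain ⟨_, _, y, hy⟩ := h
      exact hL1v y hy⟩
  obtain ⟨t0, ht0, htR, htv⟩ := hIH L1 s hhL1 hcl1 hred1 hact1
  -- a tight partition with the least number of classes
  let TT : Setoid ι → Prop := fun t => s ≤ t ∧ Big4 a Fr t ∧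
    (zB a b L1 s : ℤ) + 3 * nIso a Fr t ≤ valB a b L1 t + 3 * nIso a Fr s
  obtain ⟨t, ⟨hst, hbig, hval⟩, htmin⟩ : ∃ t, TT t ∧ ∀ t', TT t' →
      Nat.card (Quotient t) ≤ Nat.card (Quotient t') := by
    let m := sInf {k | ∃ t, TT t ∧ Nat.card (Quotient t) = k}
    obtain ⟨t, ht, hm⟩ : m ∈ {k | ∃ t, TT t ∧ Nat.card (Quotient t) = k} :=
      Nat.sInf_mem ⟨_, t0, ⟨ht0, htR.big4, htv⟩, rfl⟩
    refine ⟨t, ht, fun t' ht' => ?_⟩
    rw [hm]
    exact Nat.sInf_le ⟨t', ht', rfl⟩
  -- no saturated pair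
  have hunsat : ∀ e : Sym2 (Quotient t), ¬ e.IsDiag →
      hh (dd a b Finset.univ t e) + (ff a L1 t e : ℤ) < 6 := by
    intro e he
    by_contra hcon
    push Not at hcon
    induction e with
    | _ x y =>
    induction x using Quotient.inductionOn with
    | _ i =>
    induction y using Quotient.inductionOn with
    | _ j =>
    have hij : ¬ t i j := fun h => he (by
      rw [Sym2.mk_isDiag_iff]
      exact Quotient.sound h)
    have hnot : ∀ u ∈ Fr, Iso a t u → ∀ i j, ¬ t i j →
        6 ≤ hh (dd a b Finset.univ t s(Quotient.mk t i, Quotient.mk t j)) +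
          (ff a L1 t s(Quotient.mk t i, Quotient.mk t j) : ℤ) → ¬ t i (a u) := by
      intro u hu hi i j hij hsat h
      have h1 := hi i h
      subst h1
      have h2 := cost_iso hF (L := L1) hu hi hij
      have h3 := hcl1.free u hu (hi.anti hst)
      have h4 : ((L1.neighborSet u).ncard : ℤ) ≤ 4 := by exact_mod_cast h3
      linarith
    have hTT : TT (weld t i j) := by
      refine ⟨hst.trans (le_weld _ _ _), ?_, ?_⟩
      · intro u hu hi
        by_cases hi' : Iso a t u
        · exfalso
          apply hi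
          intro k hk
          rw [weld_iff] at hk
          rcases hk with h | ⟨_, h⟩ | ⟨_, h⟩
          · exact hi' k h
          · refine absurd h (hnot u hu hi' j i (fun h => hij (t.symm h)) ?_)
            rwa [Sym2.eq_swap]
          · exact absurd h (hnot u hu hi' i j hij hcon)
        · refine (hbig u hu hi').trans (Set.ncard_le_ncard ?_ (Set.toFinite _))
          exact fun x hx => le_weld t i j hx
      · have h1 := valB_weld_of_sat a b L1 t hij hcon
        have h2 : (nIso a Fr (weld t i j) : ℤ) ≤ nIso a Fr t := by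
          exact_mod_cast nIso_anti (le_weld t i j)
        linarith
    have h1 := htmin _ hTT
    have h2 := card_quotient_lt (lt_weld hij)
    omega
  -- all inequalities are equalities
  have hemb : (zB a b L0 t : ℤ) + 3 * nIso a Fr s ≤ zB a b L0 s + 3 * nIso a Fr t := by
    have := emb hF L0 hhL0 hst (fun u hu hi => le_trans (by norm_num) (hbig u hu hi))
    exact_mod_cast this
  have hlow : valB a b L0 t ≤ zB a b L0 t := by
    obtain ⟨p, hp⟩ := exists_goodB a b
    rw [← hp]
    exact valB_le a b L0 hhL0 t p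
  have hanti : valB a b L1 t ≤ valB a b L0 t := valB_anti a b t hle1
  rw [hz1] at hval
  -- the ends of the new bar are in one class
  have htw : t (a w) (a w') := by
    by_contra hcon
    have h1 := valB_add_bar a b L0 L1 t hww hadj hL1adj hcon
      (le_of_lt (hunsat _ (fun h => hcon (by
        rw [Sym2.mk_isDiag_iff] at h
        exact Quotient.exact h))))
    linarith
  -- the new partition is admissible
  have hredt : Red a Fr L0 t := by
    intro u hu hi
    by_cases hi' : Iso a s u
    · obtain ⟨h1, h2⟩ := nIso_iso hF hbig hu hi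
      have h3 : valB a b L0 t + 6 - ({y | L0.Adj u y ∧ t (a u) (a y)}.ncard : ℤ) ≤
          valB a b L0 (iso t (a u)) := by
        apply valB_iso a b L0 t (hF.same u hu) (hF.alone u hu) hhL0
        · unfold Iso at hi
          push Not at hi
          obtain ⟨i, hi1, hi2⟩ := hi
          exact ⟨i, hi2, hi1⟩
        · exact (hs.cls.free u hu hi').trans (by norm_num)
        · intro e he
          have h4 := hunsat e he
          have h5 : ff a L0 t e ≤ ff a L1 t e := ff_mono a hle1 t e
          have h6 : (ff a L0 t e : ℤ) ≤ ff a L1 t e := by exact_mod_cast h5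
          linarith
      have h4 : valB a b L0 (iso t (a u)) ≤ zB a b L0 (iso t (a u)) := by
        obtain ⟨p, hp⟩ := exists_goodB a b
        rw [← hp]
        exact valB_le a b L0 hhL0 _ p
      have h5 : (zB a b L0 (iso t (a u)) : ℤ) + 3 * nIso a Fr s ≤
          zB a b L0 s + 3 * nIso a Fr (iso t (a u)) := by
        have := emb hF L0 hhL0 (le_iso hst hi') h2
        exact_mod_cast this
      have h6 : (nIso a Fr (iso t (a u)) : ℤ) ≤ nIso a Fr t + 1 := by exact_mod_cast h1
      have h7 : (3 : ℤ) ≤ ({y | L0.Adj u y ∧ t (a u) (a y)}.ncard : ℤ) := by linarith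
      exact_mod_cast h7
    · refine (hs.red u hu hi').trans (Set.ncard_le_ncard ?_ (Set.toFinite _))
      exact fun y hy => ⟨hy.1, hst hy.2⟩
  have hrig : zB a b L0 s + 3 * nIso a Fr t ≤ zB a b L0 t + 3 * nIso a Fr s := by
    have : (zB a b L0 s : ℤ) + 3 * nIso a Fr t ≤ zB a b L0 t + 3 * nIso a Fr s := by linarith
    exact_mod_cast this
  have hq := hs.step hL0v hv hst hredt hrig
  have h1 := hmin t hq
  have h2 : s < t := lt_of_le_of_ne hst fun h => hne (h ▸ htw)
  have h3 := card_quotient_lt h2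
  omega

/-- A maximal rigid partition has all neighbours of `v` in one class. -/
lemma claimN (hF : FreeSys a b Fr) {L L0 : SimpleGraph V} (hL : ∀ x y, L.Adj x y → a x = b x)
    {v : V} (hv : v ∈ Fr) (hL0 : L0 = delV L v) {r s : Setoid ι}
    (hs : QQ a b Fr L L0 v r s)
    (hmin : ∀ t, QQ a b Fr L L0 v r t → Nat.card (Quotient s) ≤ Nat.card (Quotient t))
    (hfour : (L.neighborSet v).ncard = 4)
    (hM : ∀ w w', L.Adj v w → L.Adj v w' → ¬ s (a w) (a w') → L0.Adj w w') :
    ∀ w w', L.Adj v w → L.Adj v w' → s (a w) (a w') := by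
  classical
  have hle0 : L0 ≤ L := by
    rw [hL0]
    exact SimpleGraph.deleteEdges_le _
  have hhL0 : ∀ x y, L0.Adj x y → a x = b x := fun x y h => hL x y (hle0 h)
  have hL0v : ∀ y, ¬ L0.Adj v y := by
    intro y h
    rw [hL0, delV_adj] at h
    exact h.2.1 rfl
  -- a coarser admissible partition is impossible
  have hno : ∀ t, s < t → Red a Fr L0 t →
      zB a b L0 s + 3 * nIso a Fr t ≤ zB a b L0 t + 3 * nIso a Fr s → False := by
    intro t hst hred hz
    have h1 := hmin t (hs.step hL0v hv hst.le hred hz)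
    have h2 := card_quotient_lt hst
    omega
  -- the set of neighbours in other classes
  have hout : ∀ w, L.Adj v w → ¬ (w ∈ Fr ∧ Iso a s w) →
      {w' | L.Adj v w' ∧ ¬ s (a w) (a w')}.ncard ≤ 1 := by
    intro w hw hi
    refine le_trans (Set.ncard_le_ncard ?_ (Set.toFinite _)) (hs.room2 w hw hi)
    exact fun w' hw' => ⟨hM w w' hw hw'.1 hw'.2, hw'.2⟩
  by_contra hcon
  push Not at hcon
  obtain ⟨w1, w2, hw1, hw2, h12⟩ := hcon
  by_cases hall : ∀ w, L.Adj v w → w ∈ Fr ∧ Iso a s w
  · -- all neighbours are isolated free vertices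
    have hcardF : (L.neighborSet v).toFinset.card = 4 := by
      rw [← hfour, Set.ncard_eq_toFinset_card']
    obtain ⟨e⟩ : Nonempty (Fin 4 ≃ (L.neighborSet v).toFinset) :=
      ⟨(Finset.equivFinOfCardEq hcardF).symm⟩
    let w : Fin 4 → V := fun i => (e i : V)
    have hwadj : ∀ i, L.Adj v (w i) := by
      intro i
      have := (e i).2
      rw [Set.mem_toFinset] at this
      exact this
    have hwinj : Function.Injective w := fun i j h => e.injective (Subtype.ext h)
    have hws : ∀ i j, i ≠ j → ¬ s (a (w i)) (a (w j)) := fun i j hij =>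
      hF.not_rel (hall _ (hwadj j)).1 (hall _ (hwadj j)).2 (fun h => hij (hwinj h))
    have hww : ∀ i j, i ≠ j → L0.Adj (w i) (w j) := fun i j hij =>
      hM _ _ (hwadj i) (hwadj j) (hws i j hij)
    set t := weld (weld (weld s (a (w 0)) (a (w 1))) (a (w 0)) (a (w 2)))
      (a (w 0)) (a (w 3)) with ht
    have hst : s ≤ t := ((le_weld _ _ _).trans (le_weld _ _ _)).trans (le_weld _ _ _)
    have ht0 : ∀ i, t (a (w 0)) (a (w i)) := by
      intro i
      fin_cases i
      · exact t.refl _
      · exact le_weld _ _ _ (le_weld _ _ _ (weld_rel s (a (w 0)) (a (w 1))))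
      · exact le_weld _ _ _ (weld_rel _ (a (w 0)) (a (w 2)))
      · exact weld_rel _ (a (w 0)) (a (w 3))
    have htt : ∀ i j, t (a (w i)) (a (w j)) := fun i j =>
      t.trans (t.symm (ht0 i)) (ht0 j)
    have hrel : ∀ x y, t x y → s x y ∨ (∃ i, s x (a (w i))) ∧ ∃ j, s y (a (w j)) := by
      let t' : Setoid ι :=
        { r := fun x y => s x y ∨ (∃ i, s x (a (w i))) ∧ ∃ j, s y (a (w j))
          iseqv := by
            refine ⟨fun x => Or.inl (s.refl x), ?_, ?_⟩
            · rintro x y (h | ⟨h1, h2⟩)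
              · exact Or.inl (s.symm h)
              · exact Or.inr ⟨h2, h1⟩
            · rintro x y z (h | ⟨⟨i, h1⟩, ⟨j, h2⟩⟩) (g | ⟨⟨i', g1⟩, ⟨j', g2⟩⟩)
              · exact Or.inl (s.trans h g)
              · exact Or.inr ⟨⟨i', s.trans h g1⟩, ⟨j', g2⟩⟩
              · exact Or.inr ⟨⟨i, h1⟩, ⟨j, s.trans (s.symm g) h2⟩⟩
              · exact Or.inr ⟨⟨i, h1⟩, ⟨j', g2⟩⟩ }
      have hle : t ≤ t' := by
        refine weld_le (weld_le (weld_le (fun x y h => Or.inl h) ?_) ?_) ?_
        · exact Or.inr ⟨⟨0, s.refl _⟩, ⟨1, s.refl _⟩⟩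
        · exact Or.inr ⟨⟨0, s.refl _⟩, ⟨2, s.refl _⟩⟩
        · exact Or.inr ⟨⟨0, s.refl _⟩, ⟨3, s.refl _⟩⟩
      intro x y h
      exact hle h
    have hni : ∀ i, ¬ Iso a t (w i) := by
      intro i hi
      obtain ⟨j, hj⟩ : ∃ j : Fin 4, j ≠ i := exists_ne i
      have h1 := hi _ (htt j i)
      exact hws j i hj (by rw [h1])
    have hiso : ∀ u ∈ Fr, Iso a s u → (∀ i, u ≠ w i) → Iso a t u := by
      intro u hu hi hne j hj
      rcases hrel _ _ hj with h | ⟨_, ⟨i, h⟩⟩
      · exact hi j h
      · exact absurd (s.symm h) (hF.not_rel hu hi (fun h => hne i h.symm))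
    apply hno t
    · refine lt_of_le_of_ne hst fun h => hws 0 1 (by decide) ?_
      rw [h]
      exact htt 0 1
    · intro u hu hi
      by_cases hi' : Iso a s u
      · have h1 : ∃ i, u = w i := by
          by_contra hc
          push Not at hc
          exact hi (hiso u hu hi' hc)
        obtain ⟨i, rfl⟩ := h1
        have h2 : (Set.range w) \ {w i} ⊆ {y | L0.Adj (w i) y ∧ t (a (w i)) (a y)} := by
          rintro _ ⟨⟨j, rfl⟩, hj⟩
          have hji : i ≠ j := fun h => hj (by rw [h]; rfl)
          exact ⟨hww i j hji, htt i j⟩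
        have h3 := Set.ncard_le_ncard h2 (Set.toFinite _)
        rw [Set.ncard_diff_singleton_of_mem (Set.mem_range_self i), ← Set.image_univ,
          Set.ncard_image_of_injective _ hwinj, Set.ncard_univ, Nat.card_eq_fintype_card,
          Fintype.card_fin] at h3
        omega
      · refine (hs.red u hu hi').trans (Set.ncard_le_ncard ?_ (Set.toFinite _))
        exact fun y hy => ⟨hy.1, hst hy.2⟩
    · have h1 := abs4 hF L0 hhL0 s hwinj (fun i => (hall _ (hwadj i)).1)
        (fun i => (hall _ (hwadj i)).2) hww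
      rw [← ht] at h1
      have h2 : nIso a Fr t + 4 ≤ nIso a Fr s := by
        have h3 : {u | u ∈ Fr ∧ Iso a t u} ⊆ {u | u ∈ Fr ∧ Iso a s u} \ Set.range w := by
          rintro u ⟨hu, hui⟩
          refine ⟨⟨hu, hui.anti hst⟩, ?_⟩
          rintro ⟨i, rfl⟩
          exact hni i hui
        have h4 := Set.ncard_le_ncard h3 (Set.toFinite _)
        have h5 : Set.range w ⊆ {u | u ∈ Fr ∧ Iso a s u} := by
          rintro _ ⟨i, rfl⟩
          exact hall _ (hwadj i)
        have h6 := Set.ncard_diff_add_ncard_of_subset h5 (Set.toFinite _)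
        have h7 : (Set.range w).ncard = 4 := by
          rw [← Set.image_univ, Set.ncard_image_of_injective _ hwinj, Set.ncard_univ,
            Nat.card_eq_fintype_card, Fintype.card_fin]
        unfold nIso
        omega
      omega
  · push Not at hall
    obtain ⟨w0, hw0, hw0'⟩ := hall
    have hw0'' : ¬ (w0 ∈ Fr ∧ Iso a s w0) := fun h => hw0' h.1 h.2
    have h1 := hout w0 hw0 hw0''
    -- some neighbour is in another class
    obtain ⟨u, hu, hu0⟩ : ∃ u, L.Adj v u ∧ ¬ s (a w0) (a u) := by
      by_contra hc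
      push Not at hc
      exact h12 (s.trans (s.symm (hc w1 hw1)) (hc w2 hw2))
    have h2 : ∀ w, L.Adj v w → w ≠ u → s (a w0) (a w) := by
      intro w hw hne
      by_contra hc
      have h3 : ({u, w} : Set V) ⊆ {w' | L.Adj v w' ∧ ¬ s (a w0) (a w')} := by
        rintro x (rfl | rfl)
        · exact ⟨hu, hu0⟩
        · exact ⟨hw, hc⟩
      have h4 := Set.ncard_le_ncard h3 (Set.toFinite _)
      rw [Set.ncard_pair hne.symm] at h4
      omega
    have hthree : 3 ≤ {y | L0.Adj u y ∧ s (a y) (a w0)}.ncard := by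
      have h3 : (L.neighborSet v) \ {u} ⊆ {y | L0.Adj u y ∧ s (a y) (a w0)} := by
        rintro y ⟨hy, hyu⟩
        have h4 := h2 y hy hyu
        refine ⟨hM u y hu hy fun h => hu0 (s.trans h4 (s.symm h)), s.symm h4⟩
      have h4 := Set.ncard_le_ncard h3 (Set.toFinite _)
      rw [Set.ncard_diff_singleton_of_mem (show u ∈ L.neighborSet v from hu), hfour] at h4
      exact h4
    have huF : u ∈ Fr ∧ Iso a s u := by
      by_contra hc
      have h3 := hout u hu hc
      have h4 : (L.neighborSet v) \ {u} ⊆ {w' | L.Adj v w' ∧ ¬ s (a u) (a w')} := by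
        rintro y ⟨hy, hyu⟩
        exact ⟨hy, fun h => hu0 (s.trans (h2 y hy hyu) (s.symm h))⟩
      have h5 := Set.ncard_le_ncard h4 (Set.toFinite _)
      rw [Set.ncard_diff_singleton_of_mem (show u ∈ L.neighborSet v from hu), hfour] at h5
      omega
    have hst : s ≤ weld s (a u) (a w0) := le_weld _ _ _
    apply hno (weld s (a u) (a w0))
    · exact lt_weld fun h => hu0 (s.symm h)
    · intro x hx hi
      by_cases hi' : Iso a s x
      · have hxu : x = u := by
          by_contra hxu
          apply hi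
          intro j hj
          rw [weld_iff] at hj
          have hx0 : x ≠ w0 := by
            rintro rfl
            exact hw0'' ⟨hx, hi'⟩
          rcases hj with h | ⟨_, h⟩ | ⟨_, h⟩
          · exact hi' j h
          · exact absurd h (hF.not_rel hx hi' (Ne.symm hx0))
          · exact absurd h (hF.not_rel hx hi' (Ne.symm hxu))
        subst hxu
        refine hthree.trans (Set.ncard_le_ncard ?_ (Set.toFinite _))
        rintro y ⟨hy1, hy2⟩
        refine ⟨hy1, ?_⟩
        rw [weld_iff]
        exact Or.inr (Or.inl ⟨s.refl _, s.symm hy2⟩)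
      · refine (hs.red x hx hi').trans (Set.ncard_le_ncard ?_ (Set.toFinite _))
        exact fun y hy => ⟨hy.1, hst hy.2⟩
    · have h3 := abs3 hF L0 hhL0 s huF.1 huF.2 hthree
      have h4 := nIso_lt hst huF.1 huF.2 (fun h => by
        have h5 := h (a w0) ((weld s (a u) (a w0)).symm (weld_rel s (a u) (a w0)))
        rw [h5] at hu0
        exact hu0 (s.refl _))
      omega

/-- The rank formula for bodies, joints, bars and free vertices of degree at most four. -/
theorem points (hF : FreeSys a b Fr) (L : SimpleGraph V) (hL : ∀ x y, L.Adj x y → a x = b x)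
    (r : Setoid ι) (hC : Cls a Fr L r) (hR : Red a Fr L r) :
    ∃ s, r ≤ s ∧ Red a Fr L s ∧
      (zB a b L r : ℤ) + 3 * nIso a Fr s ≤ valB a b L s + 3 * nIso a Fr r := by
  classical
  obtain ⟨n, hn⟩ : ∃ n, act a Fr L r = n := ⟨_, rfl⟩
  induction n using Nat.strong_induction_on generalizing L r with
  | _ n ih =>
  by_cases h0 : ∀ v ∈ Fr, Iso a r v → ∀ y, ¬ L.Adj v y
  · -- no free vertex with a bar
    obtain ⟨s, hs, hval⟩ := max2 a b L hL r (by
      intro x
      by_cases hx : x ∈ Fr ∧ Iso a r x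
      · have h1 : {y | L.Adj x y ∧ ¬ r (a x) (a y)} = ∅ := by
          ext y
          simp [h0 x hx.1 hx.2 y]
        rw [h1, Set.ncard_empty]
        omega
      · exact hC.body x hx)
    refine ⟨s, hs, ?_, ?_⟩
    · intro u hu hi
      by_cases hi' : Iso a r u
      · exfalso
        have h1 := unc hF hL hs hu hi' hi (h0 u hu hi')
        have h2 : valB a b L s ≤ zB a b L s := by
          obtain ⟨p, hp⟩ := exists_goodB a b
          rw [← hp]
          exact valB_le a b L hL s p
        have h3 : (zB a b L s : ℤ) < zB a b L r := by exact_mod_cast h1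
        linarith
      · refine (hR u hu hi').trans (Set.ncard_le_ncard ?_ (Set.toFinite _))
        exact fun y hy => ⟨hy.1, hs hy.2⟩
    · have h1 : (nIso a Fr s : ℤ) ≤ nIso a Fr r := by exact_mod_cast nIso_anti hs
      linarith
  push Not at h0
  obtain ⟨v, hv, hvr, y0, hy0⟩ := h0
  obtain ⟨L0, hL0⟩ : ∃ L0, L0 = delV L v := ⟨_, rfl⟩
  have hle0 : L0 ≤ L := by
    rw [hL0]
    exact SimpleGraph.deleteEdges_le _
  have hhL0 : ∀ x y, L0.Adj x y → a x = b x := fun x y h => hL x y (hle0 h)
  have hL0v : ∀ y, ¬ L0.Adj v y := by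
    intro y h
    rw [hL0, delV_adj] at h
    exact h.2.1 rfl
  have hL0adj : ∀ x y, L0.Adj x y ↔ L.Adj x y ∧ x ≠ v ∧ y ≠ v := by
    intro x y
    rw [hL0, delV_adj]
  have hdeg := hC.free v hv hvr
  -- the structure with the bars at `v` deleted
  have hR0 : Red a Fr L0 r := by
    intro u hu hi
    refine (hR u hu hi).trans (Set.ncard_le_ncard ?_ (Set.toFinite _))
    rintro y ⟨hy1, hy2⟩
    have huv : u ≠ v := by
      rintro rfl
      exact hi hvr
    have hyv : y ≠ v := by
      rintro rfl
      exact hF.not_rel hv hvr huv hy2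
    exact ⟨(hL0adj u y).2 ⟨hy1, huv, hyv⟩, hy2⟩
  have hC0 : Cls a Fr L0 r := by
    refine ⟨?_, ?_⟩
    · intro u hu hi
      exact (Set.ncard_le_ncard (fun y hy => hle0 hy) (Set.toFinite _)).trans (hC.free u hu hi)
    · intro u hu
      have h1 : {y | L0.Adj u y ∧ ¬ r (a u) (a y)} ⊆ {y | L.Adj u y ∧ ¬ r (a u) (a y)} :=
        fun y hy => ⟨hle0 hy.1, hy.2⟩
      exact (Set.ncard_le_ncard h1 (Set.toFinite _)).trans (hC.body u hu)
  have hact : ∀ s, r ≤ s → act a Fr L0 s < n := by
    intro s hs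
    rw [← hn]
    apply Set.ncard_lt_ncard _ (Set.toFinite _)
    have hsub : {u | u ∈ Fr ∧ Iso a s u ∧ ∃ y, L0.Adj u y} ⊆
        {u | u ∈ Fr ∧ Iso a r u ∧ ∃ y, L.Adj u y} := by
      rintro u ⟨h1, h2, y, hy⟩
      exact ⟨h1, h2.anti hs, y, hle0 hy⟩
    rw [Set.ssubset_iff_of_subset hsub]
    exact ⟨v, ⟨hv, hvr, y0, hy0⟩, fun h => by
      obtain ⟨_, _, y, hy⟩ := h
      exact hL0v y hy⟩
  have hisov : ∀ s, Red a Fr L0 s → Iso a s v := by
    intro s hs
    by_contra hi
    have h1 := hs v hv hi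
    have h2 : {y | L0.Adj v y ∧ s (a v) (a y)} = ∅ := by
      ext y
      simp [hL0v y]
    rw [h2, Set.ncard_empty] at h1
    omega
  have hRL : ∀ s, Red a Fr L0 s → Red a Fr L s := by
    intro s hs u hu hi
    refine (hs u hu hi).trans (Set.ncard_le_ncard ?_ (Set.toFinite _))
    exact fun y hy => ⟨hle0 hy.1, hy.2⟩
  by_cases hA : zB a b L r + (L.neighborSet v).ncard ≤ zB a b L0 r
  · -- all bars at `v` are independent
    obtain ⟨s, hs, hs1, hs2⟩ := ih _ (hact r le_rfl) L0 hhL0 r hC0 hR0 rfl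
    refine ⟨s, hs, hRL s hs1, ?_⟩
    have h1 := valB_le_of_le (a := a) (b := b) hle0 s
    rw [hL0, ncard_incidence, ← hL0] at h1
    have h2 : (zB a b L r : ℤ) + (L.neighborSet v).ncard ≤ zB a b L0 r := by exact_mod_cast hA
    linarith
  · -- the neighbours of `v` are rigid
    have hfour : (L.neighborSet v).ncard = 4 := by
      by_contra hne
      apply hA
      have h3 : (L.neighborSet v).ncard ≤ 3 := by omega
      have := ext0 hF L hL r hv hvr h3 le_rfl
      rw [hL0]
      exact this
    have h3 : zB a b L r + 3 ≤ zB a b L0 r := by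
      rw [hL0]
      exact ext0 hF L hL r hv hvr le_rfl (by omega)
    have hz : zB a b L0 r = zB a b L r + 3 := by omega
    have himp : ∀ x y, L.Adj v x → L.Adj v y → x ≠ y →
        zB a b (L0 ⊔ SimpleGraph.edge x y) r = zB a b L0 r := by
      intro x y hx hy hxy
      apply le_antisymm (zB_mono le_sup_left le_rfl)
      have := ext1 hF L hL r hv hvr (by omega) hx hy hxy
      rw [← hL0] at this
      omega
    have hIH : ∀ (L' : SimpleGraph V) (r' : Setoid ι), (∀ x y, L'.Adj x y → a x = b x) →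
        Cls a Fr L' r' → Red a Fr L' r' → act a Fr L' r' < n →
        ∃ s, r' ≤ s ∧ Red a Fr L' s ∧
          (zB a b L' r' : ℤ) + 3 * nIso a Fr s ≤ valB a b L' s + 3 * nIso a Fr r' := by
      intro L' r' h1 h2 h3 h4
      exact ih _ h4 L' h1 r' h2 h3 rfl
    have hqr : QQ a b Fr L L0 v r r := by
      refine ⟨le_rfl, hR0, hC0, ?_, ?_, hvr, le_rfl⟩
      · intro w hw hwF hi
        have h4 := hC.free w hwF hi
        have h5 : L0.neighborSet w ⊆ (L.neighborSet w) \ {v} := by
          intro y hy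
          rw [SimpleGraph.mem_neighborSet, hL0adj] at hy
          exact ⟨hy.1, hy.2.2⟩
        have h6 := Set.ncard_le_ncard h5 (Set.toFinite _)
        rw [Set.ncard_diff_singleton_of_mem (show v ∈ L.neighborSet w from hw.symm)] at h6
        omega
      · intro w hw hi
        have h4 := hC.body w hi
        have h5 : {y | L0.Adj w y ∧ ¬ r (a w) (a y)} ⊆
            {y | L.Adj w y ∧ ¬ r (a w) (a y)} \ {v} := by
          rintro y ⟨hy1, hy2⟩
          rw [hL0adj] at hy1
          exact ⟨⟨hy1.1, hy2⟩, hy1.2.2⟩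
        have h6 := Set.ncard_le_ncard h5 (Set.toFinite _)
        rw [Set.ncard_diff_singleton_of_mem (show v ∈ {y | L.Adj w y ∧ ¬ r (a w) (a y)} from
          ⟨hw.symm, hF.not_rel hv hvr hw.ne'⟩)] at h6
        omega
    obtain ⟨s, hs, hmin⟩ : ∃ s, QQ a b Fr L L0 v r s ∧ ∀ t, QQ a b Fr L L0 v r t →
        Nat.card (Quotient s) ≤ Nat.card (Quotient t) := by
      let m := sInf {k | ∃ t, QQ a b Fr L L0 v r t ∧ Nat.card (Quotient t) = k}
      obtain ⟨t, ht, hm⟩ : m ∈ {k | ∃ t, QQ a b Fr L L0 v r t ∧ Nat.card (Quotient t) = k} :=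
        Nat.sInf_mem ⟨_, r, hqr, rfl⟩
      refine ⟨t, ht, fun t' ht' => ?_⟩
      rw [hm]
      exact Nat.sInf_le ⟨t', ht', rfl⟩
    have hM : ∀ w w', L.Adj v w → L.Adj v w' → ¬ s (a w) (a w') → L0.Adj w w' :=
      fun w w' hw hw' hne => claimM hF hL hv hL0 hs hmin hn hvr hIH himp hw hw' hne
    have hN := claimN hF hL hv hL0 hs hmin hfour hM
    obtain ⟨s1, hs1, hs1R, hs1v⟩ := hIH L0 s hhL0 hs.cls hs.red (hact s hs.le)
    have hv1 := hisov s1 hs1R
    have hle12 : s1 ≤ weld s1 (a v) (a y0) := le_weld _ _ _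
    refine ⟨weld s1 (a v) (a y0), (hs.le.trans hs1).trans hle12, ?_, ?_⟩
    · intro u hu hi
      by_cases hi' : Iso a s1 u
      · have huv : u = v := by
          by_contra huv
          apply hi
          intro j hj
          rw [weld_iff] at hj
          have hy0u : y0 ≠ u := by
            rintro rfl
            -- the class of `y0` contains the other neighbours of `v`
            obtain ⟨w, hw, hwy⟩ : ∃ w ∈ L.neighborSet v, w ≠ y0 := by
              apply Set.exists_ne_of_one_lt_ncard
              omega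
            have h4 := hN w y0 hw hy0
            exact hF.not_rel hu hi' hwy (hs1 h4)
          rcases hj with h | ⟨_, h⟩ | ⟨_, h⟩
          · exact hi' j h
          · exact absurd h (hF.not_rel hu hi' hy0u)
          · exact absurd h (hF.not_rel hu hi' (Ne.symm huv))
        subst huv
        have h4 : L.neighborSet u ⊆
            {y | L.Adj u y ∧ weld s1 (a u) (a y0) (a u) (a y)} := by
          intro y hy
          refine ⟨hy, ?_⟩
          rw [weld_iff]
          exact Or.inr (Or.inl ⟨s1.refl _, hs1 (hN y0 y hy0 hy)⟩)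
        have h5 := Set.ncard_le_ncard h4 (Set.toFinite _)
        omega
      · refine (hRL s1 hs1R u hu hi').trans (Set.ncard_le_ncard ?_ (Set.toFinite _))
        exact fun y hy => ⟨hy.1, hle12 hy.2⟩
    · have h4 : valB a b L (weld s1 (a v) (a y0)) = valB a b L0 (weld s1 (a v) (a y0)) := by
        apply valB_congr
        intro x y hxy
        rw [hL0adj]
        constructor
        · intro h
          refine ⟨h, ?_, ?_⟩
          · rintro rfl
            apply hxy
            rw [weld_iff]
            exact Or.inr (Or.inl ⟨s1.refl _, hs1 (hN y0 y hy0 h)⟩)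
          · rintro rfl
            apply hxy
            rw [weld_iff]
            exact Or.inr (Or.inr ⟨hs1 (hN x y0 h.symm hy0), s1.refl _⟩)
        · exact fun h => h.1
      have h5 := valB_weld a b L0 s1 (a v) (a y0)
      have h6 := nIso_lt hle12 hv hv1 (fun h => by
        have h7 := h (a y0) ((weld s1 (a v) (a y0)).symm (weld_rel s1 (a v) (a y0)))
        exact hy0.ne' (hF.alone v hv y0 (Or.inl h7)))
      have h7 := hs.rigid
      have h8 : (zB a b L0 r : ℤ) = zB a b L r + 3 := by exact_mod_cast hz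
      have h9 : (nIso a Fr (weld s1 (a v) (a y0)) : ℤ) + 1 ≤ nIso a Fr s1 := by
        exact_mod_cast h6
      have h10 : (zB a b L0 r : ℤ) + 3 * nIso a Fr s ≤ zB a b L0 s + 3 * nIso a Fr r := by
        exact_mod_cast h7
      rw [h4]
      linarith

end

end Pool.Agent.BJ
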