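import Pool.Agent.Lib.MP_37c7bf_BJ.Defs

/-!
Body systems of a graph and the partition condition.
-/

open MeasureTheory Module Topology
open scoped RealInnerProductSpace

namespace Pool.Agent.BJ

open Pool.Agent.H26R (E3 crossE GenericallyRigid)

section
variable {V ι : Type}

/-- The edges that lie in no body. -/
def bars (Γ : SimpleGraph V) (B : ι → Finset V) : SimpleGraph V where
  Adj x y := Γ.Adj x y ∧ ∀ i, ¬ (x ∈ B i ∧ y ∈ B i)
  symm := ⟨fun _ _ h => ⟨h.1.symm, fun i hi => h.2 i hi.symm⟩⟩
  loopless := ⟨fun _ h => h.1.ne rfl⟩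

/-- `B` is a body system of `Γ`: every body induces a generically rigid subgraph on at least four
vertices or is a triangle of `Γ`; every vertex lies in one or two bodies; the end points of an
edge lying in no body lie in one body only. -/
structure BodySystem (Γ : SimpleGraph V) (B : ι → Finset V) : Prop where
  rigid : ∀ i, (4 ≤ (B i).card ∧ GenericallyRigid (Γ.induce (B i : Set V))) ∨
    ((B i).card = 3 ∧ Γ.IsClique (B i : Set V))
  cover : ∀ x, ∃ i, x ∈ B i
  two : ∀ x i j k, x ∈ B i → x ∈ B j → x ∈ B k → i = j ∨ i = k ∨ j = k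
  one : ∀ x y, (bars Γ B).Adj x y → ∀ i j, x ∈ B i → x ∈ B j → i = j

open Classical in
/-- The number of joints (common vertices) of part `k` and part `l` of a partition `f` of the
bodies. -/
noncomputable def jointNo [Fintype V] (B : ι → Finset V) {m : ℕ} (f : ι → Fin m) (k l : Fin m) :
    ℕ :=
  (Finset.univ.filter fun x : V => (∃ i, x ∈ B i ∧ f i = k) ∧ ∃ j, x ∈ B j ∧ f j = l).card

open Classical in
/-- The number of edges of `L` from part `k` to part `l`. -/
noncomputable def barNo [Fintype V] (L : SimpleGraph V) (B : ι → Finset V) {m : ℕ}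
    (f : ι → Fin m) (k l : Fin m) : ℕ :=
  (Finset.univ.filter fun q : V × V => L.Adj q.1 q.2 ∧ (∃ i, q.1 ∈ B i ∧ f i = k) ∧
    ∃ j, q.2 ∈ B j ∧ f j = l).card

/-- The partition condition: for every partition of the bodies into `m` parts, the sum over all
pairs of parts of `min 6 (h (number of joints) + number of bars)` is at least `6 (m - 1)`. -/
def Cond [Fintype V] (L : SimpleGraph V) (B : ι → Finset V) : Prop :=
  ∀ (m : ℕ) (f : ι → Fin m), Function.Surjective f →
    6 * (m : ℤ) - 6 ≤ ∑ q ∈ (Finset.univ : Finset (Fin m × Fin m)).filter (fun q => q.1 < q.2),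
      min 6 (hh (jointNo B f q.1 q.2) + (barNo L B f q.1 q.2 : ℤ))

end

end Pool.Agent.BJ
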