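import Pool.Agent.Lib.MP_37c7bf_BJ.Bars
import Pool.Agent.Lib.MP_37c7bf_BJ.GraphDefs

/-!
Translation between setoids on the bodies and partitions `f : ι → Fin m`, and between the motions
of the structure of bodies and the flexes of the graph.
-/

open MeasureTheory Module Topology
open scoped RealInnerProductSpace

namespace Pool.Agent.BJ

open Pool.Agent.H26R (E3 crossE GenericallyRigid Flex Spans RX rig mem_Flex)

/-- The points of a set of vertices are not collinear: a stable predicate. -/
lemma stable_nonColAt {V : Type} [Finite V] [DecidableEq V] (B : Finset V) :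
    Stable fun p : V → E3 => ∀ S : Kil, (∀ x ∈ B, ev (p x) S = 0) → S = 0 := by
  intro p hp j
  let L0 : Kil →ₗ[ℝ] (B → E3) :=
    LinearMap.pi fun v => if (v : V) = j then LinearMap.snd ℝ E3 E3 else ev (p v)
  let L : E3 →ₗ[ℝ] Kil →ₗ[ℝ] (B → E3) :=
    LinearMap.mk₂ ℝ (fun x S v => if (v : V) = j then crossE S.1 x else 0)
      (by
        intro x y S; funext v
        by_cases h : (v : V) = j
        · simp only [h, if_true, Pi.add_apply, Pool.Agent.H26R.crossE_add_right]
        · simp only [h, if_false, Pi.add_apply, add_zero])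
      (by
        intro c x S; funext v
        by_cases h : (v : V) = j
        · simp only [h, if_true, Pi.smul_apply, Pool.Agent.H26R.crossE_smul_right]
        · simp only [h, if_false, Pi.smul_apply, smul_zero])
      (by
        intro x S T; funext v
        by_cases h : (v : V) = j
        · simp only [h, if_true, Pi.add_apply, Prod.fst_add, Pool.Agent.H26R.crossE_add_left]
        · simp only [h, if_false, Pi.add_apply, add_zero])
      (by
        intro c x S; funext v
        by_cases h : (v : V) = j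
        · simp only [h, if_true, Pi.smul_apply, Prod.smul_fst, Pool.Agent.H26R.crossE_smul_left]
        · simp only [h, if_false, Pi.smul_apply, smul_zero])
  have key : ∀ x S (v : B), (L0 + L x) S v = ev (Function.update p j x v) S := by
    intro x S v
    rw [LinearMap.add_apply, Pi.add_apply]
    by_cases h : (v : V) = j
    · simp only [L0, L, LinearMap.pi_apply, LinearMap.mk₂_apply, h, if_true,
        LinearMap.snd_apply, Function.update_self, ev_apply]
      abel
    · simp only [L0, L, LinearMap.pi_apply, LinearMap.mk₂_apply, h, if_false, add_zero]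
      rw [Function.update_of_ne h]
  have h0 : LinearMap.ker (L0 + L (p j)) = ⊥ := by
    rw [LinearMap.ker_eq_bot']
    intro S hS
    refine hp S fun x hx => ?_
    have h1 := congrFun hS ⟨x, hx⟩
    rw [key, Function.update_eq_self] at h1
    exact h1
  filter_upwards [ae_finrank_ker_affine (volume : Measure E3) L0 L (p j)] with x hx S hS
  rw [h0, finrank_bot, Nat.le_zero, Submodule.finrank_eq_zero] at hx
  have h1 : S ∈ LinearMap.ker (L0 + L x) := by
    rw [LinearMap.mem_ker]
    funext v
    rw [key]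
    exact hS v v.2
  rw [hx] at h1
  simpa using h1

lemma crossE_single_zero {ω : E3} (h0 : crossE ω (EuclideanSpace.single 0 1) = 0)
    (h1 : crossE ω (EuclideanSpace.single 1 1) = 0) : ω = 0 := by
  have c1 := congrArg (fun z : E3 => z 1) h0
  have c2 := congrArg (fun z : E3 => z 2) h0
  have c3 := congrArg (fun z : E3 => z 2) h1
  simp [crossE] at c1 c2 c3
  apply Pool.Agent.H26R.e3_ext
  intro k; fin_cases k
  · exact c3
  · exact c2
  · exact c1

/-- Restricted flexes: bounding the dimension is a stable predicate. -/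
lemma stable_flex_comp {V V' : Type} [Finite V] [Finite V'] [DecidableEq V]
    (G : SimpleGraph V') (f : V' → V) (k : ℕ) :
    Stable fun p : V → E3 => finrank ℝ (Flex G (fun x => p (f x))) ≤ k := by
  intro p hp j
  let R : (V → E3) →ₗ[ℝ] (V' → E3) := LinearMap.funLeft ℝ E3 f
  let L0 : (V' → E3) →ₗ[ℝ] (Pool.Agent.H26R.DEdge G → ℝ) := rig G (R (Function.update p j 0))
  let L : E3 →ₗ[ℝ] (V' → E3) →ₗ[ℝ] (Pool.Agent.H26R.DEdge G → ℝ) :=
    (rig G).comp (R.comp (LinearMap.single ℝ (fun _ : V => E3) j))
  have key : ∀ x : E3, L0 + L x = rig G (fun y => Function.update p j x (f y)) := by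
    intro x
    have h1 : (fun y => Function.update p j x (f y)) =
        R (Function.update p j 0) + R (LinearMap.single ℝ (fun _ : V => E3) j x) := by
      rw [← map_add]
      funext y
      rw [LinearMap.funLeft_apply, Pi.add_apply, LinearMap.single_apply]
      by_cases h : f y = j
      · rw [h, Function.update_self, Function.update_self, Pi.single_eq_same, zero_add]
      · rw [Function.update_of_ne h, Function.update_of_ne h, Pi.single_eq_of_ne h, add_zero]
    rw [h1, map_add]
    rfl
  filter_upwards [ae_finrank_ker_affine (volume : Measure E3) L0 L (p j)] with x hx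
  rw [key, key, Function.update_eq_self] at hx
  exact hx.trans hp

section
variable {V ι : Type} [Fintype V] [Fintype ι]

/-- The two bodies of a vertex. -/
lemma BodySystem.exists_ends {Γ : SimpleGraph V} {B : ι → Finset V} (hB : BodySystem Γ B) :
    ∃ a b : V → ι, (∀ x i, x ∈ B i ↔ i = a x ∨ i = b x) ∧
      ∀ x y, (bars Γ B).Adj x y → a x = b x := by
  classical
  have h : ∀ x, ∃ q : ι × ι, ∀ i, x ∈ B i ↔ i = q.1 ∨ i = q.2 := by
    intro x
    obtain ⟨i0, hi0⟩ := hB.cover x
    by_cases h1 : ∃ j, x ∈ B j ∧ j ≠ i0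
    · obtain ⟨j, hj, hne⟩ := h1
      refine ⟨(i0, j), fun i => ⟨fun hi => ?_, ?_⟩⟩
      · rcases hB.two x i i0 j hi hi0 hj with h2 | h2 | h2
        · exact Or.inl h2
        · exact Or.inr h2
        · exact absurd h2.symm hne
      · rintro (rfl | rfl)
        · exact hi0
        · exact hj
    · push Not at h1
      refine ⟨(i0, i0), fun i => ⟨fun hi => Or.inl (h1 i hi), ?_⟩⟩
      rintro (rfl | rfl)
      · exact hi0
      · exact hi0
  choose q hq using h
  refine ⟨fun x => (q x).1, fun x => (q x).2, hq, fun x y hxy => ?_⟩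
  exact hB.one x y hxy _ _ ((hq x _).2 (Or.inl rfl)) ((hq x _).2 (Or.inr rfl))

omit [Fintype ι] in
lemma jointNo_set (B : ι → Finset V) {m : ℕ} (f : ι → Fin m) (k l : Fin m) :
    ∃ S : Finset V, jointNo B f k l = S.card ∧
      ∀ x, x ∈ S ↔ (∃ i, x ∈ B i ∧ f i = k) ∧ ∃ j, x ∈ B j ∧ f j = l := by
  classical
  refine ⟨_, rfl, fun x => ?_⟩
  rw [Finset.mem_filter]
  exact and_iff_right (Finset.mem_univ _)

omit [Fintype ι] in
lemma barNo_set (L : SimpleGraph V) (B : ι → Finset V) {m : ℕ} (f : ι → Fin m) (k l : Fin m) :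
    ∃ S : Finset (V × V), barNo L B f k l = S.card ∧
      ∀ q, q ∈ S ↔ L.Adj q.1 q.2 ∧ (∃ i, q.1 ∈ B i ∧ f i = k) ∧ ∃ j, q.2 ∈ B j ∧ f j = l := by
  classical
  refine ⟨_, rfl, fun q => ?_⟩
  rw [Finset.mem_filter]
  exact and_iff_right (Finset.mem_univ _)

/-- The expected dimension in terms of a surjection of the bodies onto `Fin m`. -/
lemma valB_eq {B : ι → Finset V} {a b : V → ι} (hab : ∀ x i, x ∈ B i ↔ i = a x ∨ i = b x)
    (L : SimpleGraph V) (hL : ∀ x y, L.Adj x y → a x = b x) {m : ℕ} (f : ι → Fin m)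
    (hf : Function.Surjective f) (s : Setoid ι) (hs : ∀ i j, s i j ↔ f i = f j) :
    valB a b L s = 6 * (m : ℤ) -
      ∑ q ∈ (Finset.univ : Finset (Fin m × Fin m)).filter (fun q => q.1 < q.2),
        min 6 (hh (jointNo B f q.1 q.2) + (barNo L B f q.1 q.2 : ℤ)) := by
  classical
  -- the quotient is `Fin m`
  let φ : Quotient s → Fin m := fun x => Quotient.liftOn x f fun i j h => (hs i j).1 h
  have hφm : ∀ i, φ (Quotient.mk s i) = f i := fun _ => rfl
  have hφ : Function.Bijective φ := by
    constructor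
    · intro x y
      induction x using Quotient.inductionOn with
      | h x =>
        induction y using Quotient.inductionOn with
        | h y =>
          intro h
          exact Quotient.sound ((hs x y).2 h)
    · intro k
      obtain ⟨i, rfl⟩ := hf k
      exact ⟨Quotient.mk s i, rfl⟩
  let e : Quotient s ≃ Fin m := Equiv.ofBijective φ hφ
  have he : ∀ i, e (Quotient.mk s i) = f i := fun _ => rfl
  have hes : ∀ i k, Quotient.mk s i = e.symm k ↔ f i = k := by
    intro i k
    rw [Equiv.eq_symm_apply, he]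
  have hcard : Fintype.card (Quotient s) = m := by
    rw [Fintype.card_congr e, Fintype.card_fin]
  -- joints
  have hjoint : ∀ k l : Fin m, k ≠ l →
      dd a b Finset.univ s s(e.symm k, e.symm l) = jointNo B f k l := by
    intro k l hkl
    obtain ⟨S, hS, hmem⟩ := jointNo_set B f k l
    rw [hS]
    unfold dd
    congr 1
    ext x
    rw [Finset.mem_filter, hmem, and_iff_right (Finset.mem_univ _)]
    unfold pr
    rw [Sym2.eq_iff, hes, hes, hes, hes]
    constructor
    · rintro (⟨h1, h2⟩ | ⟨h1, h2⟩)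
      · exact ⟨⟨a x, (hab x _).2 (Or.inl rfl), h1⟩, ⟨b x, (hab x _).2 (Or.inr rfl), h2⟩⟩
      · exact ⟨⟨b x, (hab x _).2 (Or.inr rfl), h2⟩, ⟨a x, (hab x _).2 (Or.inl rfl), h1⟩⟩
    · rintro ⟨⟨i, hi, hik⟩, ⟨j, hj, hjl⟩⟩
      rcases (hab x i).1 hi with rfl | rfl <;> rcases (hab x j).1 hj with rfl | rfl
      · exact absurd (hik.symm.trans hjl) hkl
      · exact Or.inl ⟨hik, hjl⟩
      · exact Or.inr ⟨hjl, hik⟩
      · exact absurd (hik.symm.trans hjl) hkl
  -- bars
  have hend : ∀ x y, L.Adj x y → ∀ k, (∃ i, x ∈ B i ∧ f i = k) ↔ f (a x) = k := by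
    intro x y hxy k
    constructor
    · rintro ⟨i, hi, hik⟩
      rcases (hab x i).1 hi with rfl | rfl
      · exact hik
      · rw [hL x y hxy]
        exact hik
    · intro h
      exact ⟨a x, (hab x _).2 (Or.inl rfl), h⟩
  have hbar : ∀ k l : Fin m, k ≠ l →
      ff a L s s(e.symm k, e.symm l) = barNo L B f k l := by
    intro k l hkl
    obtain ⟨S, hS, hmem⟩ := barNo_set L B f k l
    rw [hS]
    unfold ff
    symm
    apply Finset.card_bij (fun q _ => s(q.1, q.2))
    · rintro ⟨x, y⟩ hq
      rw [hmem] at hq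
      obtain ⟨hadj, h1, h2⟩ := hq
      rw [hend x y hadj] at h1
      rw [hend y x hadj.symm] at h2
      rw [Finset.mem_filter]
      refine ⟨Finset.mem_univ _, hadj, ?_⟩
      rw [Sym2.map_mk]
      exact congrArg₂ (fun x y => s(x, y)) ((hes _ _).2 h1) ((hes _ _).2 h2)
    · rintro ⟨x, y⟩ hq ⟨x', y'⟩ hq' hqq
      rw [hmem] at hq hq'
      obtain ⟨hadj, h1, h2⟩ := hq
      obtain ⟨hadj', h1', h2'⟩ := hq'
      rw [hend x y hadj] at h1
      rw [hend y x hadj.symm] at h2
      rw [hend x' y' hadj'] at h1'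
      rw [hend y' x' hadj'.symm] at h2'
      rcases Sym2.eq_iff.1 hqq with ⟨h3, h4⟩ | ⟨h3, h4⟩
      · exact Prod.ext h3 h4
      · exfalso
        apply hkl
        change x = y' at h3
        rw [← h1, h3]
        exact h2'
    · intro t ht
      induction t using Sym2.inductionOn with
      | hf x y =>
        rw [Finset.mem_filter] at ht
        obtain ⟨-, hadj, h1⟩ := ht
        rw [SimpleGraph.mem_edgeSet] at hadj
        rw [Sym2.map_mk, Sym2.eq_iff, hes, hes, hes, hes] at h1
        rcases h1 with ⟨h1, h2⟩ | ⟨h1, h2⟩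
        · refine ⟨(x, y), ?_, rfl⟩
          rw [hmem]
          exact ⟨hadj, (hend x y hadj k).2 h1, (hend y x hadj.symm l).2 h2⟩
        · refine ⟨(y, x), ?_, Sym2.eq_swap⟩
          rw [hmem]
          exact ⟨hadj.symm, (hend y x hadj.symm k).2 h2, (hend x y hadj l).2 h1⟩
  -- the sums
  unfold valB
  rw [hcard]
  congr 1
  have h1 : (∑ t : Sym2 (Quotient s), if t.IsDiag then 0 else
      min 6 (hh (dd a b Finset.univ s t) + (ff a L s t : ℤ))) =
      ∑ t ∈ (Finset.univ : Finset (Sym2 (Quotient s))).filter (fun t => ¬ t.IsDiag),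
        min 6 (hh (dd a b Finset.univ s t) + (ff a L s t : ℤ)) := by
    rw [Finset.sum_filter]
    refine Finset.sum_congr rfl fun t _ => ?_
    by_cases ht : t.IsDiag
    · rw [if_pos ht, if_neg (not_not.2 ht)]
    · rw [if_neg ht, if_pos ht]
  rw [h1]
  symm
  apply Finset.sum_bij (fun q _ => s(e.symm q.1, e.symm q.2))
  · rintro ⟨k, l⟩ hq
    rw [Finset.mem_filter] at hq
    rw [Finset.mem_filter]
    refine ⟨Finset.mem_univ _, fun hd => ?_⟩
    have h2 : e.symm k = e.symm l := Sym2.mk_isDiag_iff.1 hd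
    exact hq.2.ne (e.symm.injective h2)
  · rintro ⟨k, l⟩ hq ⟨k', l'⟩ hq' hqq
    rw [Finset.mem_filter] at hq hq'
    rcases Sym2.eq_iff.1 hqq with ⟨h3, h4⟩ | ⟨h3, h4⟩
    · exact Prod.ext (e.symm.injective h3) (e.symm.injective h4)
    · exfalso
      have h5 : k = l' := e.symm.injective h3
      have h6 : l = k' := e.symm.injective h4
      have h7 : k < l := hq.2
      have h8 : k' < l' := hq'.2
      rw [h5, h6] at h7
      exact absurd h7 (not_lt.2 h8.le)
  · intro t ht
    induction t using Sym2.inductionOn with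
    | hf x y =>
      rw [Finset.mem_filter] at ht
      have hxy : x ≠ y := fun h => ht.2 (Sym2.mk_isDiag_iff.2 h)
      have hne : e x ≠ e y := fun h => hxy (e.injective h)
      rcases lt_or_gt_of_ne hne with h2 | h2
      · refine ⟨(e x, e y), ?_, ?_⟩
        · rw [Finset.mem_filter]
          exact ⟨Finset.mem_univ _, h2⟩
        · change s(e.symm (e x), e.symm (e y)) = s(x, y)
          rw [Equiv.symm_apply_apply, Equiv.symm_apply_apply]
      · refine ⟨(e y, e x), ?_, ?_⟩
        · rw [Finset.mem_filter]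
          exact ⟨Finset.mem_univ _, h2⟩
        · change s(e.symm (e y), e.symm (e x)) = s(x, y)
          rw [Equiv.symm_apply_apply, Equiv.symm_apply_apply, Sym2.eq_swap]
  · rintro ⟨k, l⟩ hq
    rw [Finset.mem_filter] at hq
    have hkl : k ≠ l := hq.2.ne
    change _ = min 6 (hh (dd a b Finset.univ s s(e.symm k, e.symm l)) +
      (ff a L s s(e.symm k, e.symm l) : ℤ))
    rw [hjoint k l hkl, hbar k l hkl]

/-- `Cond` in terms of `valB`. -/
theorem cond_iff {B : ι → Finset V} {a b : V → ι} (hab : ∀ x i, x ∈ B i ↔ i = a x ∨ i = b x)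
    (L : SimpleGraph V) (hL : ∀ x y, L.Adj x y → a x = b x) :
    Cond L B ↔ ∀ s : Setoid ι, valB a b L s ≤ 6 := by
  classical
  constructor
  · intro h s
    let e : Quotient s ≃ Fin (Fintype.card (Quotient s)) := Fintype.equivFin _
    have hs : ∀ i j, s i j ↔ e (Quotient.mk s i) = e (Quotient.mk s j) := by
      intro i j
      rw [e.injective.eq_iff, Quotient.eq]
    have hsurj : Function.Surjective fun i => e (Quotient.mk s i) := by
      intro k
      obtain ⟨x, rfl⟩ := e.surjective k
      induction x using Quotient.inductionOn with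
      | h x => exact ⟨x, rfl⟩
    have h1 := h _ (fun i => e (Quotient.mk s i)) hsurj
    rw [valB_eq hab L hL (fun i => e (Quotient.mk s i)) hsurj s hs]
    linarith
  · intro h m f hf
    have h1 := h (Setoid.ker f)
    rw [valB_eq hab L hL f hf (Setoid.ker f) fun i j => Setoid.ker_def] at h1
    linarith

/-- Three points of the body `i` are not collinear. -/
def NonCol (B : ι → Finset V) (p : V → E3) : Prop :=
  ∀ i, ∀ S : Kil, (∀ x ∈ B i, ev (p x) S = 0) → S = 0

lemma NonCol.stable [DecidableEq V] {B : ι → Finset V} (hB : ∀ i, 3 ≤ (B i).card) :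
    Stable (NonCol B) := by
  intro p hp j
  have h1 : ∀ i, ∀ᵐ x : E3 ∂volume, ∀ S : Kil,
      (∀ y ∈ B i, ev (Function.update p j x y) S = 0) → S = 0 :=
    fun i => stable_nonColAt (B i) p (hp i) j
  filter_upwards [ae_all_iff.2 h1] with x hx i
  exact hx i

omit [Fintype V] in
lemma exists_nonColAt [DecidableEq V] {B : Finset V} (hB : 3 ≤ B.card) :
    ∃ p : V → E3, ∀ S : Kil, (∀ x ∈ B, ev (p x) S = 0) → S = 0 := by
  obtain ⟨a, b, c, ha, hb, hc, hab, hac, hbc⟩ := Finset.two_lt_card_iff.1 hB
  refine ⟨fun v => if v = b then EuclideanSpace.single 0 1 else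
    if v = c then EuclideanSpace.single 1 1 else 0, fun S hS => ?_⟩
  have h1 := hS a ha
  have h2 := hS b hb
  have h3 := hS c hc
  simp only [hab, hac, if_false] at h1
  simp only [if_true] at h2
  simp only [hbc.symm, if_false, if_true] at h3
  rw [ev_apply] at h1 h2 h3
  have hz : crossE S.1 (0 : E3) = 0 := by
    have := Pool.Agent.H26R.crossE_smul_right (0 : ℝ) S.1 (0 : E3)
    rwa [zero_smul, zero_smul] at this
  rw [hz, zero_add] at h1
  rw [h1, add_zero] at h2 h3
  exact Prod.ext (crossE_single_zero h2 h3) h1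

lemma exists_nonCol {B : ι → Finset V} (hB : ∀ i, 3 ≤ (B i).card) : ∃ p, NonCol B p := by
  classical
  exact exists_common (fun i (p : V → E3) => ∀ S : Kil, (∀ x ∈ B i, ev (p x) S = 0) → S = 0)
    (fun i => stable_nonColAt (B i)) fun i => exists_nonColAt (hB i)

/-- The velocities of the vertices. -/
noncomputable def vel (a : V → ι) (p : V → E3) : (ι → Kil) →ₗ[ℝ] (V → E3) :=
  LinearMap.pi fun x => (ev (p x)).comp (LinearMap.proj (a x))

omit [Fintype V] [Fintype ι] in
lemma vel_apply (a : V → ι) (p : V → E3) (S : ι → Kil) (x : V) :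
    vel a p S x = ev (p x) (S (a x)) := rfl

/-- From motions of the bodies to flexes of the graph. -/
theorem finrank_ZB_le {Γ : SimpleGraph V} {B : ι → Finset V} {a b : V → ι}
    (hab : ∀ x i, x ∈ B i ↔ i = a x ∨ i = b x) (s : Setoid ι) {p : V → E3} (hp : NonCol B p) :
    finrank ℝ (ZB a b (bars Γ B) s p) ≤ finrank ℝ (Flex Γ p) := by
  classical
  have hval : ∀ S ∈ ZB a b (bars Γ B) s p, ∀ x i, x ∈ B i → vel a p S x = ev (p x) (S i) := by
    intro S hS x i hxi
    rw [vel_apply]
    rcases (hab x i).1 hxi with rfl | rfl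
    · rfl
    · exact hS.1.2 x (Finset.mem_univ x)
  have hmap : ∀ S ∈ ZB a b (bars Γ B) s p, vel a p S ∈ Flex Γ p := by
    intro S hS
    rw [Pool.Agent.H26R.mem_Flex]
    intro x y hxy
    rw [real_inner_comm]
    by_cases hbar : (bars Γ B).Adj x y
    · exact hS.2 x y hbar
    · have : ∃ i, x ∈ B i ∧ y ∈ B i := by
        by_contra hcon
        push Not at hcon
        exact hbar ⟨hxy, fun i hi => hcon i hi.1 hi.2⟩
      obtain ⟨i, hxi, hyi⟩ := this
      rw [hval S hS x i hxi, hval S hS y i hyi, inner_sub_left, ev_along, sub_self]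
  have hinj : Function.Injective ((vel a p).restrict hmap) := by
    rw [← LinearMap.ker_eq_bot, LinearMap.ker_eq_bot']
    rintro ⟨S, hS⟩ h0
    have h1 : vel a p S = 0 := congrArg Subtype.val h0
    apply Subtype.ext
    funext i
    apply hp i (S i)
    intro x hx
    rw [← hval S hS x i hx, h1]
    rfl
  exact LinearMap.finrank_le_finrank_of_injective hinj

/-- From flexes of the graph to motions of the bodies: at positions where all bodies are
infinitesimally rigid. -/
theorem finrank_Flex_le_ZB {Γ : SimpleGraph V} {B : ι → Finset V} {a b : V → ι}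
    (hab : ∀ x i, x ∈ B i ↔ i = a x ∨ i = b x) {L : SimpleGraph V} (hL : L ≤ bars Γ B)
    {p : V → E3}
    (hp : ∀ i, ∀ v ∈ Flex Γ p, ∃ S : Kil, ∀ x ∈ B i, v x = ev (p x) S) :
    finrank ℝ (Flex Γ p) ≤ finrank ℝ (ZB a b L ⊥ p) := by
  classical
  have hle : Flex Γ p ≤ (ZB a b L ⊥ p).map (vel a p) := by
    intro v hv
    choose S hS using fun i => hp i v hv
    have ha : ∀ x, x ∈ B (a x) := fun x => (hab x _).2 (Or.inl rfl)
    have hb : ∀ x, x ∈ B (b x) := fun x => (hab x _).2 (Or.inr rfl)
    refine ⟨S, ⟨⟨?_, ?_⟩, ?_⟩, ?_⟩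
    · intro u w huw
      have : u = w := huw
      rw [this]
    · intro x _
      rw [← hS _ x (ha x), ← hS _ x (hb x)]
    · intro x y hxy
      rw [← hS _ x (ha x), ← hS _ y (ha y), real_inner_comm]
      exact Pool.Agent.H26R.mem_Flex.1 hv x y (hL hxy).1
    · funext x
      rw [vel_apply, ← hS _ x (ha x)]
  exact (Submodule.finrank_mono hle).trans (Submodule.finrank_map_le _ _)

/-- All bodies are infinitesimally rigid. -/
def BodyRigid (Γ : SimpleGraph V) (B : ι → Finset V) (p : V → E3) : Prop :=
  ∀ i, ∀ v : V → E3, (∀ x ∈ B i, ∀ y ∈ B i, Γ.Adj x y → ⟪p x - p y, v x - v y⟫ = 0) →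
    ∃ S : Kil, ∀ x ∈ B i, v x = ev (p x) S

/-- A triangle has positions with a six-dimensional space of flexes. -/
lemma exists_flex_triangle {W : Type} [Fintype W] {G : SimpleGraph W}
    (hW : Fintype.card W = 3) (hG : ∀ x y, x ≠ y → G.Adj x y) :
    ∃ p : W → E3, finrank ℝ (Flex G p) ≤ 6 := by
  classical
  obtain ⟨a, b, c, hab, hac, hbc, huniv⟩ := Finset.card_eq_three.1
    (show (Finset.univ : Finset W).card = 3 by rw [Finset.card_univ]; exact hW)
  let p : W → E3 := fun v => if v = b then EuclideanSpace.single 0 1 else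
    if v = c then EuclideanSpace.single 1 1 else 0
  have pa : p a = 0 := by simp only [p, hab, hac, if_false]
  have pb : p b = EuclideanSpace.single 0 1 := by simp only [p, if_true]
  have pc : p c = EuclideanSpace.single 1 1 := by simp only [p, hbc.symm, if_false, if_true]
  refine ⟨p, ?_⟩
  let R : (W → E3) →ₗ[ℝ] (E3 × ℝ × ℝ × ℝ) :=
    (LinearMap.proj a).prod
      (((innerₛₗ ℝ (EuclideanSpace.single 1 1 : E3)).comp (LinearMap.proj b)).prod
        (((innerₛₗ ℝ (EuclideanSpace.single 2 1 : E3)).comp (LinearMap.proj b)).prod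
          ((innerₛₗ ℝ (EuclideanSpace.single 2 1 : E3)).comp (LinearMap.proj c))))
  have hR : LinearMap.ker (R.comp (Flex G p).subtype) = ⊥ := by
    rw [LinearMap.ker_eq_bot']
    rintro ⟨v, hv⟩ h0
    have e1 : v a = 0 := congrArg Prod.fst h0
    have e2 : ⟪(EuclideanSpace.single 1 1 : E3), v b⟫ = 0 := congrArg (fun z => z.2.1) h0
    have e3 : ⟪(EuclideanSpace.single 2 1 : E3), v b⟫ = 0 := congrArg (fun z => z.2.2.1) h0
    have e4 : ⟪(EuclideanSpace.single 2 1 : E3), v c⟫ = 0 := congrArg (fun z => z.2.2.2) h0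
    have f1 := mem_Flex.1 hv b a (hG b a hab.symm)
    have f2 := mem_Flex.1 hv c a (hG c a hac.symm)
    have f3 := mem_Flex.1 hv b c (hG b c hbc)
    rw [pa, pb, e1, sub_zero, sub_zero] at f1
    rw [pa, pc, e1, sub_zero, sub_zero] at f2
    rw [pb, pc, inner_sub_left, inner_sub_right, inner_sub_right, f1, f2, e2] at f3
    have f4 : ⟪(EuclideanSpace.single 0 1 : E3), v c⟫ = 0 := by linarith
    rw [EuclideanSpace.inner_single_left] at e2 e3 e4 f1 f2 f4
    have vb : v b = 0 := by
      apply Pool.Agent.H26R.e3_ext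
      intro k; fin_cases k
      · simpa using f1
      · simpa using e2
      · simpa using e3
    have vc : v c = 0 := by
      apply Pool.Agent.H26R.e3_ext
      intro k; fin_cases k
      · simpa using f4
      · simpa using f2
      · simpa using e4
    apply Subtype.ext
    funext w
    have hw : w ∈ ({a, b, c} : Finset W) := by rw [← huniv]; exact Finset.mem_univ w
    simp only [Finset.mem_insert, Finset.mem_singleton] at hw
    rcases hw with rfl | rfl | rfl
    · exact e1
    · exact vb
    · exact vc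
  have := LinearMap.finrank_le_finrank_of_injective (LinearMap.ker_eq_bot.1 hR)
  refine this.trans ?_
  simp [Module.finrank_prod]

omit [Fintype V] [Fintype ι] in
/-- Extension of positions of the points of a body. -/
lemma exists_restrict (X : Set V) (q : X → E3) : ∃ p : V → E3, (fun x : X => p x) = q := by
  classical
  refine ⟨fun v => if h : v ∈ X then q ⟨v, h⟩ else 0, ?_⟩
  funext x
  simp

/-- For a body system there are positions with all bodies infinitesimally rigid, also jointly
with any nonempty stable predicate. -/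
theorem BodySystem.exists_bodyRigid {Γ : SimpleGraph V} {B : ι → Finset V}
    (hB : BodySystem Γ B) [DecidableEq V] (Q : (V → E3) → Prop) (hQ : Stable Q)
    (hne : ∃ p, Q p) : ∃ p, Q p ∧ BodyRigid Γ B p := by
  have h3 : ∀ i, 3 ≤ (B i).card := by
    intro i
    rcases hB.rigid i with h | h <;> omega
  let QQ : Option (ι × Bool) → (V → E3) → Prop := fun c p => match c with
    | none => Q p
    | some (i, false) => ∀ S : Kil, (∀ x ∈ B i, ev (p x) S = 0) → S = 0
    | some (i, true) => finrank ℝ (Flex (Γ.induce (B i : Set V))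
        (fun x : (B i : Set V) => p x)) ≤ 6
  obtain ⟨p, hp⟩ := exists_common QQ
    (by
      rintro (_ | ⟨i, _ | _⟩)
      · exact hQ
      · exact stable_nonColAt (B i)
      · exact stable_flex_comp (Γ.induce (B i : Set V)) (fun x : (B i : Set V) => (x : V)) 6)
    (by
      rintro (_ | ⟨i, _ | _⟩)
      · exact hne
      · exact exists_nonColAt (h3 i)
      · have : ∃ q : ↥(B i : Set V) → E3, finrank ℝ (Flex (Γ.induce (B i : Set V)) q) ≤ 6 := by
          rcases hB.rigid i with ⟨h4, h5⟩ | ⟨h4, h5⟩
          · exact Pool.Agent.H26R.exists_of_genericallyRigid (by simpa using h4) h5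
          · refine exists_flex_triangle (by rw [← h4]; simp) ?_
            intro x y hxy
            exact h5 x.2 y.2 fun h => hxy (Subtype.ext h)
        obtain ⟨q, hq⟩ := this
        obtain ⟨p, hp⟩ := exists_restrict (B i : Set V) q
        refine ⟨p, ?_⟩
        change finrank ℝ (Flex (Γ.induce (B i : Set V)) (fun x : (B i : Set V) => p x)) ≤ 6
        rw [hp]
        exact hq)
  refine ⟨p, hp none, fun i v hv => ?_⟩
  have hn : ∀ S : Kil, (∀ x ∈ B i, ev (p x) S = 0) → S = 0 := hp (some (i, false))
  have hf : finrank ℝ (Flex (Γ.induce (B i : Set V)) (fun x : (B i : Set V) => p x)) ≤ 6 :=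
    hp (some (i, true))
  let q : ↥(B i : Set V) → E3 := fun x => p x
  have hker : LinearMap.ker (Pool.Agent.H26R.triv q) = ⊥ := by
    rw [LinearMap.ker_eq_bot']
    intro S hS
    exact hn S fun x hx => congrFun hS ⟨x, hx⟩
  have h1 : finrank ℝ (LinearMap.range (Pool.Agent.H26R.triv q)) = 6 := by
    rw [LinearMap.finrank_range_of_inj (LinearMap.ker_eq_bot.1 hker)]
    simp
  have h2 : LinearMap.range (Pool.Agent.H26R.triv q) = Flex (Γ.induce (B i : Set V)) q := by
    apply Submodule.eq_of_le_of_finrank_le (Pool.Agent.H26R.range_triv_le _ q)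
    rw [h1]
    exact hf
  have hmem : (fun x : (B i : Set V) => v x) ∈ Flex (Γ.induce (B i : Set V)) q := by
    rw [mem_Flex]
    intro x y hxy
    exact hv x x.2 y y.2 hxy
  rw [← h2] at hmem
  obtain ⟨S, hS⟩ := hmem
  refine ⟨S, fun x hx => ?_⟩
  exact (congrFun hS ⟨x, hx⟩).symm

/-- Infinitesimal rigidity of the whole graph is a stable predicate. -/
lemma stable_flex [DecidableEq V] (Γ : SimpleGraph V) (k : ℕ) :
    Stable fun p : V → E3 => finrank ℝ (Flex Γ p) ≤ k :=
  stable_flex_comp Γ id k

/-- Necessity of the partition condition. -/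
theorem cond_of_rigid {Γ : SimpleGraph V} {B : ι → Finset V} (hB : BodySystem Γ B)
    (hV : 4 ≤ Fintype.card V) (h : GenericallyRigid Γ) : Cond (bars Γ B) B := by
  classical
  obtain ⟨a, b, hab, hbars⟩ := hB.exists_ends
  rw [cond_iff hab _ hbars]
  intro s
  have hcard : ∀ i, 3 ≤ (B i).card := by
    intro i
    rcases hB.rigid i with h1 | h1
    · omega
    · omega
  obtain ⟨p, hp⟩ := exists_common (C := Bool)
    (fun c p => if c = true then NonCol B p else finrank ℝ (Flex Γ p) ≤ 6)
    (by
      rintro (_ | _)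
      · simpa using stable_flex Γ 6
      · simpa using NonCol.stable hcard)
    (by
      rintro (_ | _)
      · simpa using Pool.Agent.H26R.exists_of_genericallyRigid hV h
      · simpa using exists_nonCol hcard)
  have h1 : NonCol B p := by simpa using hp true
  have h2 : finrank ℝ (Flex Γ p) ≤ 6 := by simpa using hp false
  have h3 := valB_le a b (bars Γ B) hbars s p
  have h4 := finrank_ZB_le (Γ := Γ) hab s h1
  have h5 : (finrank ℝ (ZB a b (bars Γ B) s p) : ℤ) ≤ 6 := by
    exact_mod_cast h4.trans h2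
  exact h3.trans h5

/-- Sufficiency of the partition condition for a linear forest of bars. -/
theorem rigid_of_cond {Γ : SimpleGraph V} {B : ι → Finset V} (hB : BodySystem Γ B)
    (hV : 4 ≤ Fintype.card V) {L : SimpleGraph V} (hL : L ≤ bars Γ B) (hac : L.IsAcyclic)
    (hdeg : ∀ x, (L.neighborSet x).ncard ≤ 2) (h : Cond L B) : GenericallyRigid Γ := by
  classical
  obtain ⟨a, b, hab, hbars⟩ := hB.exists_ends
  have hLab : ∀ x y, L.Adj x y → a x = b x := fun x y hxy => hbars x y (hL hxy)
  rw [cond_iff hab L hLab] at h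
  obtain ⟨s, -, hs⟩ := bars_formula a b L hLab hac hdeg ⊥
  obtain ⟨p, hp, hbody⟩ := hB.exists_bodyRigid (GoodB a b) (GoodB.stable a b) (exists_goodB a b)
  apply Pool.Agent.H26R.genericallyRigid_of_exists hV
  refine ⟨p, ?_⟩
  have h1 : finrank ℝ (Flex Γ p) ≤ finrank ℝ (ZB a b L ⊥ p) := by
    apply finrank_Flex_le_ZB hab hL
    intro i v hv
    exact hbody i v fun x _ y _ hxy => Pool.Agent.H26R.mem_Flex.1 hv x y hxy
  rw [hp L ⊥] at h1
  have h2 : (zB a b L ⊥ : ℤ) ≤ 6 := hs.trans (h s)
  have h3 : zB a b L ⊥ ≤ 6 := by exact_mod_cast h2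
  exact h1.trans h3

end

end Pool.Agent.BJ
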