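import Pool.Agent.Lib.MP_37c7bf_BJ.CoverDefs
import Pool.Agent.Lib.MP_37c7bf_BJ.Points
import Pool.Agent.Lib.MP_37c7bf_BJ.Translate

/-!
From structures to graphs.
-/

open MeasureTheory Module Topology
open scoped RealInnerProductSpace

namespace Pool.Agent.BJ

open Pool.Agent.H26R (E3 crossE GenericallyRigid Flex)

section
variable {V : Type} [Fintype V]

omit [Fintype V] in
lemma hh_eq_jointRank (d : ℕ) : hh d = jointRank d := by
  rcases d with _ | _ | _ | d <;> simp [hh, jointRank]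

lemma corrN_eq_smallCorr (d : ℕ) : (corrN d : ℤ) = smallCorr d := by
  rcases d with _ | _ | _ | d <;> simp [corrN, smallCorr]

omit [Fintype V] in
/-- The two bodies of a vertex. -/
lemma exists_ends_of {ι : Type} {B : ι → Finset V} (hcov : ∀ x, ∃ i, x ∈ B i)
    (htwo : ∀ x i j k, x ∈ B i → x ∈ B j → x ∈ B k → i = j ∨ i = k ∨ j = k) :
    ∃ a b : V → ι, ∀ x i, x ∈ B i ↔ i = a x ∨ i = b x := by
  classical
  have h : ∀ x, ∃ q : ι × ι, ∀ i, x ∈ B i ↔ i = q.1 ∨ i = q.2 := by
    intro x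
    obtain ⟨i0, hi0⟩ := hcov x
    by_cases h1 : ∃ j, x ∈ B j ∧ j ≠ i0
    · obtain ⟨j, hj, hne⟩ := h1
      refine ⟨(i0, j), fun i => ⟨fun hi => ?_, ?_⟩⟩
      · rcases htwo x i i0 j hi hi0 hj with h2 | h2 | h2
        · exact Or.inl h2
        · exact Or.inr h2
        · exact absurd h2.symm hne
      · rintro (rfl | rfl)
        · exact hi0
        · exact hj
    · push Not at h1
      refine ⟨(i0, i0), fun i => ⟨fun hi => Or.inl (h1 i hi), ?_⟩⟩
      rintro (rfl | rfl)
      · exact hi0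
      · exact hi0
  choose q hq using h
  exact ⟨fun x => (q x).1, fun x => (q x).2, hq⟩

omit [Fintype V] in
/-- Bars end at vertices of one body. -/
lemma bars_ends {ι : Type} {Γ : SimpleGraph V} {B : ι → Finset V} {a b : V → ι}
    (hab : ∀ x i, x ∈ B i ↔ i = a x ∨ i = b x)
    (hcl : ∀ x i j, i ≠ j → x ∈ B i → x ∈ B j → ∀ y, Γ.Adj x y → y ∈ B i ∨ y ∈ B j) :
    ∀ x y, (bars Γ B).Adj x y → a x = b x := by
  intro x y hxy
  by_contra hne
  have ha : x ∈ B (a x) := (hab x _).2 (Or.inl rfl)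
  have hb : x ∈ B (b x) := (hab x _).2 (Or.inr rfl)
  rcases hcl x _ _ hne ha hb y hxy.1 with h | h
  · exact hxy.2 _ ⟨ha, h⟩
  · exact hxy.2 _ ⟨hb, h⟩

/-- The expected dimension and the freedom of a cover. -/
lemma valB_freedom {ι : Type} [Fintype ι] {B : ι → Finset V} {a b : V → ι}
    (hab : ∀ x i, x ∈ B i ↔ i = a x ∨ i = b x) (Γ : SimpleGraph V)
    (hL : ∀ x y, (bars Γ B).Adj x y → a x = b x) {m : ℕ} (f : ι → Fin m)
    (hf : Function.Surjective f) (s : Setoid ι) (hs : ∀ i j, s i j ↔ f i = f j)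
    (X : Fin m → Finset V) (hX : ∀ k x, x ∈ X k ↔ ∃ i, x ∈ B i ∧ f i = k) :
    valB a b (bars Γ B) s = freedom Γ X + ∑ i, smallCorr (X i).card := by
  classical
  rw [valB_eq hab (bars Γ B) hL f hf s hs, freedom, sub_add_cancel]
  congr 1
  refine Finset.sum_congr rfl fun q hq => ?_
  rw [Finset.mem_filter] at hq
  have hne : q.1 ≠ q.2 := hq.2.ne
  have h1 : jointNo B f q.1 q.2 = commonNo X q.1 q.2 := by
    obtain ⟨S, hS, hmem⟩ := jointNo_set B f q.1 q.2
    rw [hS]
    unfold commonNo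
    congr 1
    ext x
    rw [hmem, Finset.mem_inter, hX, hX]
  have h2 : barNo (bars Γ B) B f q.1 q.2 = crossNo Γ X q.1 q.2 := by
    obtain ⟨S, hS, hmem⟩ := barNo_set (bars Γ B) B f q.1 q.2
    rw [hS]
    unfold crossNo
    congr 1
    ext t
    rw [hmem, Finset.mem_filter, ← hX, ← hX]
    constructor
    · rintro ⟨hadj, ht1, ht2⟩
      refine ⟨Finset.mem_univ _, hadj.1, ht1, ht2, ?_⟩
      rintro k ⟨hk1, hk2⟩
      -- both ends lie on one body only
      have key : ∀ x y, (bars Γ B).Adj x y → ∀ k l, x ∈ X k → x ∈ X l → k = l := by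
        intro x y hxy k l hk hl
        rw [hX] at hk hl
        obtain ⟨i, hi, rfl⟩ := hk
        obtain ⟨j, hj, rfl⟩ := hl
        have hab' := hL x y hxy
        have hi' : i = a x := by
          rcases (hab x i).1 hi with h | h
          · exact h
          · rw [h, hab']
        have hj' : j = a x := by
          rcases (hab x j).1 hj with h | h
          · exact h
          · rw [h, hab']
        rw [hi', hj']
      exact hne ((key _ _ hadj _ _ ht1 hk1).trans (key _ _ hadj.symm _ _ ht2 hk2).symm)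
    · rintro ⟨-, hadj, ht1, ht2, hno⟩
      refine ⟨⟨hadj, fun i hi => ?_⟩, ht1, ht2⟩
      exact hno (f i) ⟨(hX _ _).2 ⟨i, hi.1, rfl⟩, (hX _ _).2 ⟨i, hi.2, rfl⟩⟩
  rw [h1, h2, hh_eq_jointRank]

/-- Motions of the bodies give flexes of the graph, up to motions fixing all points. -/
lemma finrank_ZB_le' {ι : Type} [Fintype ι] {Γ : SimpleGraph V} {B : ι → Finset V}
    {a b : V → ι} (hab : ∀ x i, x ∈ B i ↔ i = a x ∨ i = b x) (s : Setoid ι) {p : V → E3}
    (hp : GP p) :
    finrank ℝ (ZB a b (bars Γ B) s p) ≤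
      finrank ℝ (Flex Γ p) + ∑ i, corrN (B i).card := by
  classical
  have hval : ∀ S ∈ ZB a b (bars Γ B) s p, ∀ x i, x ∈ B i → vel a p S x = ev (p x) (S i) := by
    intro S hS x i hxi
    rw [vel_apply]
    rcases (hab x i).1 hxi with rfl | rfl
    · rfl
    · exact hS.1.2 x (Finset.mem_univ x)
  have hmap : ∀ S ∈ ZB a b (bars Γ B) s p, vel a p S ∈ Flex Γ p := by
    intro S hS
    rw [Pool.Agent.H26R.mem_Flex]
    intro x y hxy
    rw [real_inner_comm]
    by_cases hbar : (bars Γ B).Adj x y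
    · exact hS.2 x y hbar
    · have : ∃ i, x ∈ B i ∧ y ∈ B i := by
        by_contra hcon
        push Not at hcon
        exact hbar ⟨hxy, fun i hi => hcon i hi.1 hi.2⟩
      obtain ⟨i, hxi, hyi⟩ := this
      rw [hval S hS x i hxi, hval S hS y i hyi, inner_sub_left, ev_along, sub_self]
  have h1 := LinearMap.finrank_range_add_finrank_ker ((vel a p).restrict hmap)
  have h2 := Submodule.finrank_le (LinearMap.range ((vel a p).restrict hmap))
  have h3 : finrank ℝ (LinearMap.ker ((vel a p).restrict hmap)) ≤ ∑ i, corrN (B i).card := by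
    have hk : ∀ S : LinearMap.ker ((vel a p).restrict hmap), ∀ i,
        ((S : ZB a b (bars Γ B) s p) : ι → Kil) i ∈ fixK p (B i) := by
      rintro ⟨⟨S, hS⟩, h0⟩ i
      rw [mem_fixK]
      intro x hx
      change ev (p x) (S i) = 0
      rw [← hval S hS x i hx]
      exact congrFun (congrArg Subtype.val h0) x
    let g : LinearMap.ker ((vel a p).restrict hmap) →ₗ[ℝ] (∀ i, fixK p (B i)) :=
      LinearMap.pi fun i => LinearMap.codRestrict _
        (((LinearMap.proj (R := ℝ) (φ := fun _ : ι => Kil) i).comp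
          (Submodule.subtype _)).comp (Submodule.subtype _)) (fun S => hk S i)
    have hg : Function.Injective g := by
      rintro ⟨⟨S, hS⟩, h0⟩ ⟨⟨S', hS'⟩, h0'⟩ h
      apply Subtype.ext
      apply Subtype.ext
      funext i
      exact congrArg Subtype.val (congrFun h i)
    have h4 := LinearMap.finrank_le_finrank_of_injective hg
    rw [Module.finrank_pi_fintype] at h4
    refine h4.trans (le_of_eq ?_)
    exact Finset.sum_congr rfl fun i _ => hp.finrank_fixK (B i)
  omega

/-- Every cover gives a lower bound for the number of degrees of freedom, at all positions in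
general position. -/
theorem lower_cover (Γ : SimpleGraph V) {p : V → E3} (hp : GP p) {m : ℕ}
    {X : Fin m → Finset V} (hX : IsCover Γ X) : freedom Γ X ≤ finrank ℝ (Flex Γ p) := by
  classical
  obtain ⟨a, b, hab⟩ := exists_ends_of hX.cover hX.two
  have hL := bars_ends (Γ := Γ) hab hX.closed
  have h1 := valB_freedom hab Γ hL (id : Fin m → Fin m) Function.surjective_id ⊥
    (fun i j => Iff.rfl) X (fun k x => ⟨fun h => ⟨k, h, rfl⟩, by rintro ⟨i, hi, rfl⟩; exact hi⟩)
  have h2 := valB_le a b (bars Γ X) hL ⊥ p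
  have h3 := finrank_ZB_le' (Γ := Γ) hab ⊥ hp
  have h4 : (∑ i, (corrN (X i).card : ℤ)) = ∑ i, smallCorr (X i).card :=
    Finset.sum_congr rfl fun i _ => corrN_eq_smallCorr _
  rw [← h4] at h1
  zify at h3
  linarith

/-- Bodies, joints, bars and free vertices in a graph. -/
structure PointSystem {ι : Type} (Γ : SimpleGraph V) (B : ι → Finset V) : Prop where
  three : ∀ i, 3 ≤ (B i).card
  two : ∀ x i j k, x ∈ B i → x ∈ B j → x ∈ B k → i = j ∨ i = k ∨ j = k
  joint : ∀ x i j, i ≠ j → x ∈ B i → x ∈ B j → ∀ y, Γ.Adj x y → y ∈ B i ∨ y ∈ B j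
  one : ∀ x i, x ∈ B i → ((bars Γ B).neighborSet x).ncard ≤ 2
  free : ∀ x, (∀ i, x ∉ B i) → (Γ.neighborSet x).ncard ≤ 4

/-- The rotations of the free vertices. -/
lemma rot_bound {ι : Type} [Fintype ι] {a b : V → ι} {Fr : Set V} (hF : FreeSys a b Fr)
    (L : SimpleGraph V) (p : V → E3) :
    3 * Fr.ncard ≤ finrank ℝ ↥(ZB a b L ⊥ p ⊓ LinearMap.ker (vel a p)) := by
  classical
  have hN : ∀ v ∈ Fr, ∀ w ∈ Fr, a v = a w → v = w := fun v _ w hw h =>
    hF.alone w hw v (Or.inl h)
  have hval : ∀ (T : ∀ v : Fr, LinearMap.ker (ev (p v))) (x : V) (i : ι), (i = a x ∨ i = b x) →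
      ev (p x) (rotN a Fr p T i) = 0 := by
    intro T x i hi
    by_cases h : ∃ v ∈ Fr, a v = i
    · obtain ⟨v, hv, rfl⟩ := h
      have hxv : x = v := hF.alone v hv x (by
        rcases hi with h | h
        · exact Or.inl h.symm
        · exact Or.inr h.symm)
      subst hxv
      have h1 := rotN_of_mem hN (⟨x, hv⟩ : Fr) T
      change rotN a Fr p T (a x) = _ at h1
      rw [h1]
      exact (T ⟨x, hv⟩).2
    · push Not at h
      rw [rotN_of_not h, map_zero]
  have hinj : Function.Injective (rotN a Fr p) := by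
    intro T T' h
    funext v
    apply Subtype.ext
    rw [← rotN_of_mem hN v T, ← rotN_of_mem hN v T', h]
  have hK : finrank ℝ (LinearMap.range (rotN a Fr p)) = 3 * Fr.ncard := by
    rw [LinearMap.finrank_range_of_inj hinj, Module.finrank_pi_fintype]
    simp only [finrank_ker_ev, Finset.sum_const, smul_eq_mul, Finset.card_univ]
    rw [mul_comm, Set.ncard_eq_toFinset_card', Set.toFinset_card]
  rw [← hK]
  apply Submodule.finrank_mono
  rintro _ ⟨T, rfl⟩
  refine Submodule.mem_inf.2 ⟨?_, ?_⟩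
  · rw [mem_ZB, mem_Z]
    refine ⟨⟨fun u w huw => ?_, fun x _ => ?_⟩, fun x y _ => ?_⟩
    · rw [show u = w from huw]
    · rw [hval T x _ (Or.inl rfl), hval T x _ (Or.inr rfl)]
    · rw [hval T x _ (Or.inl rfl), hval T y _ (Or.inl rfl), sub_zero, inner_zero_left]
  · rw [LinearMap.mem_ker]
    funext x
    rw [vel_apply]
    exact hval T x _ (Or.inl rfl)

/-- Flexes come from motions of the bodies. -/
lemma Flex_le_map {ι : Type} [Fintype ι] {Γ : SimpleGraph V} {B : ι → Finset V} {a b : V → ι}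
    (hab : ∀ x i, x ∈ B i ↔ i = a x ∨ i = b x) {p : V → E3}
    (hp : ∀ i, ∀ v ∈ Flex Γ p, ∃ S : Kil, ∀ x ∈ B i, v x = ev (p x) S) :
    Flex Γ p ≤ (ZB a b (bars Γ B) ⊥ p).map (vel a p) := by
  classical
  intro v hv
  choose S hS using fun i => hp i v hv
  have ha : ∀ x, x ∈ B (a x) := fun x => (hab x _).2 (Or.inl rfl)
  have hb : ∀ x, x ∈ B (b x) := fun x => (hab x _).2 (Or.inr rfl)
  refine ⟨S, ⟨⟨?_, ?_⟩, ?_⟩, ?_⟩
  · intro u w huw
    have : u = w := huw
    rw [this]
  · intro x _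
    rw [← hS _ x (ha x), ← hS _ x (hb x)]
  · intro x y hxy
    rw [← hS _ x (ha x), ← hS _ y (ha y), real_inner_comm]
    exact Pool.Agent.H26R.mem_Flex.1 hv x y hxy.1
  · funext x
    rw [vel_apply, ← hS _ x (ha x)]

/-- The number of degrees of freedom and the motions of the bodies. -/
lemma finrank_Flex_add {ι : Type} [Fintype ι] {Γ : SimpleGraph V} {B : ι → Finset V}
    {a b : V → ι} (hab : ∀ x i, x ∈ B i ↔ i = a x ∨ i = b x) {Fr : Set V}
    (hF : FreeSys a b Fr) {p : V → E3}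
    (hp : ∀ i, ∀ v ∈ Flex Γ p, ∃ S : Kil, ∀ x ∈ B i, v x = ev (p x) S) :
    finrank ℝ (Flex Γ p) + 3 * Fr.ncard ≤ finrank ℝ (ZB a b (bars Γ B) ⊥ p) := by
  have h1 := LinearMap.finrank_range_add_finrank_ker
    ((vel a p).domRestrict (ZB a b (bars Γ B) ⊥ p))
  have h2 : finrank ℝ (LinearMap.ker ((vel a p).domRestrict (ZB a b (bars Γ B) ⊥ p))) =
      finrank ℝ ↥(ZB a b (bars Γ B) ⊥ p ⊓ LinearMap.ker (vel a p)) :=
    (finrank_inf_ker _ _).symm
  have h3 := rot_bound hF (bars Γ B) p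
  have h4 := Submodule.finrank_mono (Flex_le_map hab hp)
  rw [LinearMap.range_domRestrict, h2] at h1
  omega

/-- The structure of the free vertices in a cover. -/
structure Tidy {ι : Type} (Γ : SimpleGraph V) (B : ι → Finset V) {m : ℕ} (X : Fin m → Finset V) :
    Prop where
  one : ∀ x, (∀ i j, x ∈ B i → x ∈ B j → i = j) → ∀ k l, x ∈ X k → x ∈ X l → k = l
  free : ∀ x, (∀ i, x ∉ B i) → ∀ k, x ∈ X k → X k = {x} ∨ 3 ≤ {y | y ∈ X k ∧ Γ.Adj x y}.ncard

/-- The upper bound when the bodies are complete. -/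
theorem upper_clique {ι : Type} [Fintype ι] (Γ : SimpleGraph V) (B : ι → Finset V)
    (hB : PointSystem Γ B) (hcl : ∀ i, ∀ x ∈ B i, ∀ y ∈ B i, x ≠ y → Γ.Adj x y) :
    ∃ p : V → E3, ∃ (m : ℕ) (X : Fin m → Finset V), IsCover Γ X ∧ (∀ i, ∃ j, B i ⊆ X j) ∧
      Tidy Γ B X ∧ (finrank ℝ (Flex Γ p) : ℤ) ≤ freedom Γ X := by
  classical
  -- the free vertices become bodies
  let B' : ι ⊕ {v : V // ∀ i, v ∉ B i} → Finset V := Sum.elim B (fun v => {v.1})
  have hB'r : ∀ (v : {v : V // ∀ i, v ∉ B i}) x, x ∈ B' (Sum.inr v) ↔ x = v.1 :=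
    fun v x => Finset.mem_singleton
  have hcov : ∀ x, ∃ i, x ∈ B' i := by
    intro x
    by_cases h : ∃ i, x ∈ B i
    · obtain ⟨i, hi⟩ := h
      exact ⟨Sum.inl i, hi⟩
    · push Not at h
      exact ⟨Sum.inr ⟨x, h⟩, (hB'r _ _).2 rfl⟩
  have hfree : ∀ x (v : {v : V // ∀ i, v ∉ B i}), x ∈ B' (Sum.inr v) → ∀ i, x ∈ B' i →
      i = Sum.inr v := by
    intro x v hx i hi
    rw [hB'r] at hx
    subst hx
    rcases i with i | w
    · exact absurd hi (v.2 i)
    · rw [hB'r] at hi
      rw [Subtype.ext hi]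
  have htwo : ∀ x i j k, x ∈ B' i → x ∈ B' j → x ∈ B' k → i = j ∨ i = k ∨ j = k := by
    intro x i j k hi hj hk
    rcases i with i | v
    · rcases j with j | w
      · rcases k with k | u
        · rcases hB.two x i j k hi hj hk with h | h | h
          · left; rw [h]
          · right; left; rw [h]
          · right; right; rw [h]
        · exact Or.inl ((hfree x u hk _ hi).trans (hfree x u hk _ hj).symm)
      · exact Or.inr (Or.inl ((hfree x w hj _ hi).trans (hfree x w hj _ hk).symm))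
    · exact Or.inl (hfree x v hi _ hj).symm
  have hclosed : ∀ x i j, i ≠ j → x ∈ B' i → x ∈ B' j → ∀ y, Γ.Adj x y →
      y ∈ B' i ∨ y ∈ B' j := by
    intro x i j hij hi hj y hxy
    rcases i with i | v
    · rcases j with j | w
      · exact hB.joint x i j (fun h => hij (by rw [h])) hi hj y hxy
      · exact absurd (hfree x w hj _ hi) hij
    · exact absurd (hfree x v hi _ hj).symm hij
  obtain ⟨a, b, hab⟩ := exists_ends_of hcov htwo
  have hL := bars_ends (Γ := Γ) hab hclosed
  let Fr : Set V := fun v => ∀ i, v ∉ B i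
  have haF : ∀ v (hv : ∀ i, v ∉ B i), a v = Sum.inr ⟨v, hv⟩ := fun v hv =>
    hfree v ⟨v, hv⟩ ((hB'r _ _).2 rfl) _ ((hab v _).2 (Or.inl rfl))
  have hbF : ∀ v (hv : ∀ i, v ∉ B i), b v = Sum.inr ⟨v, hv⟩ := fun v hv =>
    hfree v ⟨v, hv⟩ ((hB'r _ _).2 rfl) _ ((hab v _).2 (Or.inr rfl))
  have hF : FreeSys a b Fr := by
    refine ⟨fun v hv => by rw [haF v hv, hbF v hv], fun v hv w hw => ?_⟩
    have h1 : w ∈ B' (a v) := by
      rcases hw with h | h
      · rw [← h]; exact (hab w _).2 (Or.inl rfl)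
      · rw [← h]; exact (hab w _).2 (Or.inr rfl)
    rw [haF v hv, hB'r] at h1
    exact h1
  have hC : Cls a Fr (bars Γ B') ⊥ := by
    refine ⟨fun v hv _ => ?_, fun v hv => ?_⟩
    · refine (Set.ncard_le_ncard ?_ (Set.toFinite _)).trans (hB.free v hv)
      intro y hy
      exact (show (bars Γ B').Adj v y from hy).1
    · have hvF : ¬ ∀ i, v ∉ B i := fun h => hv ⟨h, fun i hi => hi⟩
      push Not at hvF
      obtain ⟨i, hi⟩ := hvF
      refine (Set.ncard_le_ncard ?_ (Set.toFinite _)).trans (hB.one v i hi)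
      rintro y ⟨hy, -⟩
      exact ⟨hy.1, fun i hi => hy.2 (Sum.inl i) hi⟩
  have hR : Red a Fr (bars Γ B') ⊥ := fun v _ h => absurd (fun i hi => hi) h
  obtain ⟨s, -, hRs, hle⟩ := points hF (bars Γ B') hL ⊥ hC hR
  -- the classes
  let e : Quotient s ≃ Fin (Fintype.card (Quotient s)) := Fintype.equivFin _
  set f : ι ⊕ {v : V // ∀ i, v ∉ B i} → Fin (Fintype.card (Quotient s)) :=
    fun i => e (Quotient.mk s i) with hfdef
  have hs : ∀ i j, s i j ↔ f i = f j := by
    intro i j
    rw [hfdef]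
    change s i j ↔ e (Quotient.mk s i) = e (Quotient.mk s j)
    rw [e.injective.eq_iff, Quotient.eq]
  have hf : Function.Surjective f := by
    intro k
    obtain ⟨x, rfl⟩ := e.surjective k
    induction x using Quotient.inductionOn with
    | h x => exact ⟨x, rfl⟩
  let X : Fin (Fintype.card (Quotient s)) → Finset V := fun k =>
    Finset.univ.filter fun x => ∃ i, x ∈ B' i ∧ f i = k
  have hX : ∀ k x, x ∈ X k ↔ ∃ i, x ∈ B' i ∧ f i = k := by
    intro k x
    exact (Finset.mem_filter).trans (and_iff_right (Finset.mem_univ _))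
  have hcover : IsCover Γ X := by
    refine ⟨fun v => ?_, fun v i j k hi hj hk => ?_, fun v i j hij hi hj w hvw => ?_⟩
    · obtain ⟨i, hi⟩ := hcov v
      exact ⟨f i, (hX _ _).2 ⟨i, hi, rfl⟩⟩
    · obtain ⟨i', hi', rfl⟩ := (hX _ _).1 hi
      obtain ⟨j', hj', rfl⟩ := (hX _ _).1 hj
      obtain ⟨k', hk', rfl⟩ := (hX _ _).1 hk
      rcases htwo v i' j' k' hi' hj' hk' with h | h | h
      · left; rw [h]
      · right; left; rw [h]
      · right; right; rw [h]
    · obtain ⟨i', hi', rfl⟩ := (hX _ _).1 hi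
      obtain ⟨j', hj', rfl⟩ := (hX _ _).1 hj
      rcases hclosed v i' j' (fun h => hij (by rw [h])) hi' hj' w hvw with h | h
      · exact Or.inl ((hX _ _).2 ⟨i', h, rfl⟩)
      · exact Or.inr ((hX _ _).2 ⟨j', h, rfl⟩)
  have hval := valB_freedom hab Γ hL f hf s hs X hX
  -- isolated free vertices
  have hisoX : ∀ v (_ : ∀ i, v ∉ B i), Iso a s v → X (f (a v)) = {v} := by
    intro v hv hiso
    ext x
    rw [hX, Finset.mem_singleton]
    constructor
    · rintro ⟨i, hi, hfi⟩
      have h5 : i = a v := hiso i ((hs _ _).2 (by rw [hfi]))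
      rw [h5, haF v hv, hB'r] at hi
      exact hi
    · rintro rfl
      exact ⟨a x, (hab x _).2 (Or.inl rfl), rfl⟩
  have htidy : Tidy Γ B X := by
    refine ⟨fun x hx k l hk hl => ?_, fun x hx k hk => ?_⟩
    · obtain ⟨i, hi, rfl⟩ := (hX _ _).1 hk
      obtain ⟨j, hj, rfl⟩ := (hX _ _).1 hl
      have : i = j := by
        rcases i with i | v
        · rcases j with j | w
          · rw [hx i j hi hj]
          · exact hfree x w hj _ hi
        · exact (hfree x v hi _ hj).symm
      rw [this]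
    · obtain ⟨i, hi, rfl⟩ := (hX _ _).1 hk
      have hia : i = a x := by
        have hx' : x ∈ B' (Sum.inr ⟨x, hx⟩) := (hB'r _ _).2 rfl
        rw [haF x hx]
        exact hfree x ⟨x, hx⟩ hx' _ hi
      subst hia
      by_cases hiso : Iso a s x
      · exact Or.inl (hisoX x hx hiso)
      · right
        refine (hRs x hx hiso).trans (Set.ncard_le_ncard ?_ (Set.toFinite _))
        rintro y ⟨hy1, hy2⟩
        refine ⟨(hX _ _).2 ⟨a y, (hab y _).2 (Or.inl rfl), ((hs _ _).1 hy2).symm⟩, ?_⟩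
        exact hy1.1
  -- small classes
  have hsmall : (∑ k, smallCorr (X k).card) ≤ 3 * (nIso a Fr s : ℤ) := by
    set T : Finset V := Finset.univ.filter fun v => v ∈ Fr ∧ Iso a s v with hT
    have hTc : nIso a Fr s = T.card := by
      unfold nIso
      rw [Set.ncard_eq_toFinset_card']
      congr 1
      ext v
      simp [hT]
    have h1 : T.card = ∑ k, (T.filter fun v => f (a v) = k).card :=
      Finset.card_eq_sum_card_fiberwise fun v _ => Finset.mem_coe.2 (Finset.mem_univ _)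
    rw [hTc, h1]
    push_cast
    rw [Finset.mul_sum]
    refine Finset.sum_le_sum fun k _ => ?_
    by_cases h3 : 3 ≤ (X k).card
    · have h4 : smallCorr (X k).card = 0 := by
        obtain ⟨n, hn⟩ := Nat.exists_eq_add_of_le h3
        rw [hn, show 3 + n = n + 3 from add_comm _ _]
        rfl
      rw [h4]
      exact mul_nonneg (by norm_num) (Int.natCast_nonneg _)
    · obtain ⟨i, rfl⟩ := hf k
      rcases i with i | v
      · exfalso
        apply h3
        refine (hB.three i).trans (Finset.card_le_card ?_)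
        intro x hx
        exact (hX _ _).2 ⟨Sum.inl i, hx, rfl⟩
      · have hv : v.1 ∈ Fr := v.2
        have hav : a v.1 = Sum.inr v := haF v.1 v.2
        have hiso : Iso a s v.1 := by
          by_contra hn
          apply h3
          refine (hRs v.1 hv hn).trans ?_
          rw [Set.ncard_eq_toFinset_card']
          refine Finset.card_le_card ?_
          intro y hy
          rw [Set.mem_toFinset] at hy
          rw [hX]
          refine ⟨a y, (hab y _).2 (Or.inl rfl), ?_⟩
          rw [← hav]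
          exact ((hs _ _).1 hy.2).symm
        have hXv : X (f (Sum.inr v)) = {v.1} := by
          ext x
          rw [hX, Finset.mem_singleton]
          constructor
          · rintro ⟨i, hi, hfi⟩
            have h5 : i = a v.1 := hiso i ((hs _ _).2 (by rw [hfi, hav]))
            rw [h5, hav, hB'r] at hi
            exact hi
          · rintro rfl
            exact ⟨Sum.inr v, (hB'r _ _).2 rfl, rfl⟩
        have h6 : v.1 ∈ T.filter fun w => f (a w) = f (Sum.inr v) := by
          rw [Finset.mem_filter, hT, Finset.mem_filter]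
          exact ⟨⟨Finset.mem_univ _, hv, hiso⟩, by rw [hav]⟩
        have h7 : 1 ≤ (T.filter fun w => f (a w) = f (Sum.inr v)).card :=
          Finset.card_pos.2 ⟨_, h6⟩
        rw [hXv, Finset.card_singleton]
        change (3 : ℤ) ≤ _
        have h8 : (1 : ℤ) ≤ ((T.filter fun w => f (a w) = f (Sum.inr v)).card : ℤ) := by
          exact_mod_cast h7
        linarith
  -- the position
  obtain ⟨p, hp⟩ := exists_common (C := Bool)
    (fun c (p : V → E3) => cond c (GoodB a b p) (GP p))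
    (fun c => by cases c; exacts [GP.stable, GoodB.stable a b])
    (fun c => by cases c; exacts [exists_GP, exists_goodB a b])
  have hpG : GoodB a b p := hp true
  have hpP : GP p := hp false
  have hdim := finrank_Flex_add (Γ := Γ) (B := B') hab hF (p := p) (by
    rintro (i | w) q hq
    · refine hpP.clique (hB.three i) fun x hx y hy hxy => ?_
      exact Pool.Agent.H26R.mem_Flex.1 hq x y (hcl i x hx y hy hxy)
    · obtain ⟨S, hS⟩ := ev_surjective (p w.1) (q w.1)
      refine ⟨S, fun x hx => ?_⟩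
      rw [hB'r] at hx
      rw [hx, hS])
  rw [hpG] at hdim
  have hF0 : nIso a Fr ⊥ = Fr.ncard := by
    unfold nIso
    congr 1
    ext v
    exact ⟨fun h => h.1, fun h => ⟨h, fun i hi => hi⟩⟩
  rw [hF0] at hle
  refine ⟨p, _, X, hcover, fun i => ⟨f (Sum.inl i), fun x hx => (hX _ _).2 ⟨Sum.inl i, hx, rfl⟩⟩,
    htidy, ?_⟩
  zify at hdim
  linarith

/-- The graph with all edges inside the bodies added. -/
def fill {ι : Type} (Γ : SimpleGraph V) (B : ι → Finset V) : SimpleGraph V where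
  Adj x y := Γ.Adj x y ∨ (x ≠ y ∧ ∃ i, x ∈ B i ∧ y ∈ B i)
  symm := ⟨fun _ _ h => h.elim (fun h => Or.inl h.symm)
    fun ⟨h, i, hi⟩ => Or.inr ⟨h.symm, i, hi.symm⟩⟩
  loopless := ⟨fun _ h => h.elim (fun h => h.ne rfl) fun h => h.1 rfl⟩

omit [Fintype V] in
lemma bars_fill {ι : Type} (Γ : SimpleGraph V) (B : ι → Finset V) :
    bars (fill Γ B) B = bars Γ B := by
  ext x y
  constructor
  · rintro ⟨h | ⟨_, i, h⟩, h'⟩
    · exact ⟨h, h'⟩
    · exact absurd h (h' i)
  · rintro ⟨h, h'⟩
    exact ⟨Or.inl h, h'⟩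

omit [Fintype V] in
lemma PointSystem.fill {ι : Type} {Γ : SimpleGraph V} {B : ι → Finset V}
    (hB : PointSystem Γ B) : PointSystem (fill Γ B) B := by
  refine ⟨hB.three, hB.two, ?_, ?_, ?_⟩
  · intro x i j hij hi hj y h
    rcases h with h | ⟨_, k, hk⟩
    · exact hB.joint x i j hij hi hj y h
    · rcases hB.two x i j k hi hj hk.1 with h | rfl | rfl
      · exact absurd h hij
      · exact Or.inl hk.2
      · exact Or.inr hk.2
  · intro x i hi
    rw [bars_fill]
    exact hB.one x i hi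
  · intro x hx
    have h1 : (Pool.Agent.BJ.fill Γ B).neighborSet x = Γ.neighborSet x := by
      ext y
      constructor
      · rintro (h | ⟨_, i, h⟩)
        · exact h
        · exact absurd h.1 (hx i)
      · exact fun h => Or.inl h
    rw [h1]
    exact hB.free x hx

lemma freedom_fill {ι : Type} (Γ : SimpleGraph V) (B : ι → Finset V) {m : ℕ}
    {X : Fin m → Finset V} (hX : ∀ i, ∃ j, B i ⊆ X j) :
    freedom (fill Γ B) X = freedom Γ X := by
  classical
  have h1 : ∀ i j, crossNo (fill Γ B) X i j = crossNo Γ X i j := by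
    intro i j
    unfold crossNo
    congr 1
    ext q
    simp only [Finset.mem_filter, Finset.mem_univ, true_and]
    constructor
    · rintro ⟨h | ⟨_, k, h⟩, h2, h3, h4⟩
      · exact ⟨h, h2, h3, h4⟩
      · obtain ⟨l, hl⟩ := hX k
        exact absurd ⟨hl h.1, hl h.2⟩ (h4 l)
    · rintro ⟨h, h2⟩
      exact ⟨Or.inl h, h2⟩
  unfold freedom
  simp only [h1]

lemma inner_ev_sub (x y : E3) (T : Kil) : ⟪x - y, ev x T - ev y T⟫ = 0 := by
  have h1 : ev x T - ev y T = crossE T.1 (x - y) := by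
    have h2 : crossE T.1 x = crossE T.1 (x - y) + crossE T.1 y := by
      rw [← Pool.Agent.H26R.crossE_add_right, sub_add_cancel]
    rw [ev_apply, ev_apply, h2]
    abel
  rw [h1]
  exact Pool.Agent.H26R.inner_crossE_self _ _

lemma Flex_fill {ι : Type} (Γ : SimpleGraph V) (B : ι → Finset V) {p : V → E3}
    (h : ∀ i, ∀ q ∈ Flex Γ p, ∃ T : Kil, ∀ x ∈ B i, q x = ev (p x) T) :
    Flex (fill Γ B) p = Flex Γ p := by
  apply le_antisymm
  · intro q hq
    rw [Pool.Agent.H26R.mem_Flex] at hq ⊢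
    exact fun i j hij => hq i j (Or.inl hij)
  · intro q hq
    have hq' := hq
    rw [Pool.Agent.H26R.mem_Flex] at hq ⊢
    rintro x y (hxy | ⟨_, i, hx, hy⟩)
    · exact hq x y hxy
    · obtain ⟨T, hT⟩ := h i q hq'
      rw [hT x hx, hT y hy]
      exact inner_ev_sub _ _ _

lemma ae_Flex_le (Γ : SimpleGraph V) (p₀ : V → E3) :
    ∀ᵐ p : V → E3 ∂volume, finrank ℝ (Flex Γ p) ≤ finrank ℝ (Flex Γ p₀) :=
  Pool.Agent.H26R.ae_finrank_ker_le volume (Pool.Agent.H26R.rig Γ) p₀

/-- The rank formula for rigid bodies. -/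
theorem cover_formula {ι : Type} [Fintype ι] (Γ : SimpleGraph V) (B : ι → Finset V)
    (hB : PointSystem Γ B)
    (hrig : ∀ i, ∀ᵐ p : V → E3 ∂volume, ∀ q ∈ Flex Γ p, ∃ T : Kil, ∀ x ∈ B i,
      q x = ev (p x) T) :
    ∃ (m : ℕ) (X : Fin m → Finset V), IsCover Γ X ∧ (∀ i, ∃ j, B i ⊆ X j) ∧
      ∀ᵐ p : V → E3 ∂volume, (finrank ℝ (Flex Γ p) : ℤ) = freedom Γ X := by
  obtain ⟨p₀, m, X, hX, hBX, _, hle⟩ := upper_clique (fill Γ B) B hB.fill
    (fun i x hx y hy hxy => Or.inr ⟨hxy, i, hx, hy⟩)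
  have hX' : IsCover Γ X :=
    ⟨hX.cover, hX.two, fun v i j hij hi hj w hw => hX.closed v i j hij hi hj w (Or.inl hw)⟩
  refine ⟨m, X, hX', hBX, ?_⟩
  rw [freedom_fill Γ B hBX] at hle
  filter_upwards [ae_GP (V := V), ae_Flex_le (fill Γ B) p₀, ae_all_iff.2 hrig] with p h1 h2 h3
  rw [Flex_fill Γ B h3] at h2
  apply le_antisymm
  · have h4 : (finrank ℝ (Flex Γ p) : ℤ) ≤ finrank ℝ (Flex (fill Γ B) p₀) := by
      exact_mod_cast h2
    exact h4.trans hle
  · exact lower_cover Γ h1 hX'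

/-- The characterization of the number of degrees of freedom and of generic rigidity. -/
theorem cover_iff {ι : Type} [Fintype ι] (Γ : SimpleGraph V) (B : ι → Finset V)
    (hB : PointSystem Γ B)
    (hrig : ∀ i, ∀ᵐ p : V → E3 ∂volume, ∀ q ∈ Flex Γ p, ∃ T : Kil, ∀ x ∈ B i,
      q x = ev (p x) T) :
    (∀ᵐ p : V → E3 ∂volume, IsGreatest
      {x : ℤ | ∃ (m : ℕ) (X : Fin m → Finset V), IsCover Γ X ∧ x = freedom Γ X}
      (finrank ℝ (Flex Γ p) : ℤ)) ∧
    (4 ≤ Fintype.card V → (GenericallyRigid Γ ↔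
      ∀ (m : ℕ) (X : Fin m → Finset V), IsCover Γ X → freedom Γ X ≤ 6)) := by
  obtain ⟨m, X, hX, _, hae⟩ := cover_formula Γ B hB hrig
  constructor
  · filter_upwards [hae, ae_GP (V := V)] with p h1 h2
    refine ⟨⟨m, X, hX, h1⟩, ?_⟩
    rintro _ ⟨m', X', hX', rfl⟩
    exact lower_cover Γ h2 hX'
  · intro hV
    rw [Pool.Agent.H26R.genericallyRigid_iff hV]
    constructor
    · rintro ⟨p₀, hp₀⟩ m' X' hX'
      obtain ⟨p, h1, h2⟩ := ((ae_GP (V := V)).and (ae_Flex_le Γ p₀)).exists
      refine (lower_cover Γ h1 hX').trans ?_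
      exact_mod_cast h2.trans hp₀
    · intro h
      obtain ⟨p, hp⟩ := hae.exists
      refine ⟨p, ?_⟩
      have h1 := h m X hX
      rw [← hp] at h1
      exact_mod_cast h1

end

end Pool.Agent.BJ
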