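import Pool.Agent.Lib.MP_37c7bf_BJ.Pent
import Pool.Agent.Lib.MP_37c7bf_BJ.Cover

/-!
Systems of bodies with free vertices of degree five.
-/

open MeasureTheory Module Topology
open scoped RealInnerProductSpace

namespace Pool.Agent.BJ

open Pool.Agent.H26R (E3 crossE GenericallyRigid Flex)

section
variable {V : Type} [Fintype V]

/-- The degree is at most four, or five and every neighbour has at least two common neighbours
with `x`. -/
def Small (Γ : SimpleGraph V) (x : V) : Prop :=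
  (Γ.neighborSet x).ncard ≤ 4 ∨ ((Γ.neighborSet x).ncard = 5 ∧
    ∀ y, Γ.Adj x y → 2 ≤ {z | Γ.Adj x z ∧ Γ.Adj y z}.ncard)

/-- Bodies, joints, bars and free vertices in a graph. -/
structure FiveSystem {ι : Type} (Γ : SimpleGraph V) (B : ι → Finset V) : Prop where
  three : ∀ i, 3 ≤ (B i).card
  two : ∀ x i j k, x ∈ B i → x ∈ B j → x ∈ B k → i = j ∨ i = k ∨ j = k
  joint : ∀ x i j, i ≠ j → x ∈ B i → x ∈ B j → ∀ y, Γ.Adj x y → y ∈ B i ∨ y ∈ B j
  one : ∀ x i, x ∈ B i → ((bars Γ B).neighborSet x).ncard ≤ 2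
  free : ∀ x, (∀ i, x ∉ B i) → Small Γ x

/-- All flexes are rigid on `X`, for almost all positions. -/
def RigidOn (Γ : SimpleGraph V) (X : Finset V) : Prop :=
  ∀ᵐ p : V → E3 ∂volume, ∀ q ∈ Flex Γ p, ∃ T : Kil, ∀ x ∈ X, q x = ev (p x) T

lemma RigidOn.union {Γ : SimpleGraph V} {X Y : Finset V} [DecidableEq V] (hX : RigidOn Γ X)
    (hY : RigidOn Γ Y) (h3 : 3 ≤ (X ∩ Y).card) : RigidOn Γ (X ∪ Y) := by
  obtain ⟨x, hx, y, hy, z, hz, hxy, hxz, hyz⟩ := Finset.two_lt_card.1 h3
  rw [Finset.mem_inter] at hx hy hz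
  unfold RigidOn at *
  filter_upwards [hX, hY, ae_GP] with p h1 h2 hp q hq
  obtain ⟨T, hT⟩ := h1 q hq
  obtain ⟨S, hS⟩ := h2 q hq
  have key : T - S = 0 := by
    refine hp.eq_zero hxy hxz hyz ?_ ?_ ?_
    · rw [map_sub, ← hT x hx.1, ← hS x hx.2, sub_self]
    · rw [map_sub, ← hT y hy.1, ← hS y hy.2, sub_self]
    · rw [map_sub, ← hT z hz.1, ← hS z hz.2, sub_self]
  rw [sub_eq_zero] at key
  refine ⟨T, fun w hw => ?_⟩
  rcases Finset.mem_union.1 hw with h | h
  · exact hT w h
  · rw [key]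
    exact hS w h

open Classical in
/-- The wheel at `v`: the vertex `v` and its neighbours. -/
noncomputable def wh (Γ : SimpleGraph V) (v : V) : Finset V :=
  Finset.univ.filter fun x => x = v ∨ Γ.Adj v x

lemma mem_wh {Γ : SimpleGraph V} {v x : V} : x ∈ wh Γ v ↔ x = v ∨ Γ.Adj v x := by
  simp [wh]

lemma three_le_card_wh {Γ : SimpleGraph V} {v : V} (h5 : (Γ.neighborSet v).ncard = 5) :
    3 ≤ (wh Γ v).card := by
  have h1 : Γ.neighborSet v ⊆ ((wh Γ v : Finset V) : Set V) := fun x hx =>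
    mem_wh.2 (Or.inr hx)
  have h2 := Set.ncard_le_ncard h1 (Finset.finite_toSet _)
  rw [Set.ncard_coe_finset] at h2
  omega

lemma rigidOn_wh {Γ : SimpleGraph V} {v : V} (hW : WheelRigid Γ v) : RigidOn Γ (wh Γ v) := by
  unfold RigidOn
  unfold WheelRigid at hW
  filter_upwards [hW] with p hp q hq
  obtain ⟨T, h1, h2⟩ := hp q hq
  refine ⟨T, fun x hx => ?_⟩
  rcases mem_wh.1 hx with h | h
  · rw [h]
    exact h1
  · exact h2 x h

omit [Fintype V] in
/-- A neighbour of a free vertex lies in at most one body. -/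
lemma FiveSystem.one_body {ι : Type} {Γ : SimpleGraph V} {B : ι → Finset V}
    (hB : FiveSystem Γ B) {v x : V} (hv : ∀ i, v ∉ B i) (hx : Γ.Adj v x) {i j : ι}
    (hi : x ∈ B i) (hj : x ∈ B j) : i = j := by
  by_contra hne
  rcases hB.joint x i j hne hi hj v hx.symm with h | h
  · exact hv i h
  · exact hv j h

/-- The neighbours of a vertex of the wheel in a body with few vertices of the wheel. -/
lemma FiveSystem.nbr {ι : Type} {Γ : SimpleGraph V} {B : ι → Finset V}
    (hB : FiveSystem Γ B) {v x : V} (hv : ∀ i, v ∉ B i)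
    (h2 : ∀ y, Γ.Adj v y → 2 ≤ {z | Γ.Adj v z ∧ Γ.Adj y z}.ncard) (hx : Γ.Adj v x) {k : ι}
    (hk : x ∈ B k) (hc : {z | z ∈ B k ∧ Γ.Adj v z}.ncard ≤ 2) {y : V} (hy : Γ.Adj x y) :
    y ∈ B k ∨ y ∈ wh Γ v := by
  by_contra hcon
  push Not at hcon
  obtain ⟨hyk, hyw⟩ := hcon
  rw [mem_wh] at hyw
  push Not at hyw
  -- a common neighbour outside of the body
  obtain ⟨z, hz1, hz2, hz3⟩ : ∃ z, Γ.Adj v z ∧ Γ.Adj x z ∧ z ∉ B k := by
    by_contra hno
    push Not at hno
    have h3 : {z | Γ.Adj v z ∧ Γ.Adj x z} ⊆ {z | z ∈ B k ∧ Γ.Adj v z} \ {x} := by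
      intro z hz
      refine ⟨⟨hno z hz.1 hz.2, hz.1⟩, ?_⟩
      intro h
      exact hz.2.ne (Set.mem_singleton_iff.1 h).symm
    have h4 := Set.ncard_le_ncard h3 (Set.toFinite _)
    have h5 : ({z | z ∈ B k ∧ Γ.Adj v z} \ {x}).ncard + 1 = {z | z ∈ B k ∧ Γ.Adj v z}.ncard :=
      Set.ncard_sdiff_singleton_add_one (show x ∈ {z | z ∈ B k ∧ Γ.Adj v z} from ⟨hk, hx⟩)
        (Set.toFinite _)
    have h6 := h2 x hx
    omega
  have h3 : ({v, z, y} : Set V) ⊆ (bars Γ B).neighborSet x := by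
    intro w hw
    rcases hw with rfl | rfl | rfl
    · exact ⟨hx.symm, fun i hi => hv i hi.2⟩
    · refine ⟨hz2, fun i hi => hz3 ?_⟩
      rw [hB.one_body hv hx hk hi.1]
      exact hi.2
    · refine ⟨hy, fun i hi => hyk ?_⟩
      rw [hB.one_body hv hx hk hi.1]
      exact hi.2
  have h4 := Set.ncard_le_ncard h3 (Set.toFinite _)
  have h5 : ({v, z, y} : Set V).ncard = 3 := by
    refine Set.ncard_eq_three.2 ⟨v, z, y, hz1.ne, fun h => hyw.1 h.symm, ?_, rfl⟩
    rintro rfl
    exact hyw.2 hz1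
  have h6 := hB.one x k hk
  omega

/-- A vertex of small degree in the wheel has at most two neighbours outside of the wheel. -/
lemma ncard_out_le {Γ : SimpleGraph V} {v x : V}
    (h2 : ∀ y, Γ.Adj v y → 2 ≤ {z | Γ.Adj v z ∧ Γ.Adj y z}.ncard) (hx : x ∈ wh Γ v)
    (hs : Small Γ x) : {y | Γ.Adj x y ∧ y ∉ wh Γ v}.ncard ≤ 2 := by
  rcases mem_wh.1 hx with rfl | hx
  · have : {y | Γ.Adj x y ∧ y ∉ wh Γ x} = ∅ := by
      ext y
      simp only [Set.mem_ofPred_eq, Set.mem_empty_iff_false, iff_false, not_and, not_not]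
      exact fun h => mem_wh.2 (Or.inr h)
    rw [this, Set.ncard_empty]
    exact Nat.zero_le _
  · have hdeg : (Γ.neighborSet x).ncard ≤ 5 := by
      rcases hs with h | h
      · omega
      · omega
    have h3 := h2 x hx
    have h4 : v ∉ {z | Γ.Adj v z ∧ Γ.Adj x z} := fun h => h.1.ne rfl
    have h5 := Set.ncard_insert_of_notMem h4 (Set.toFinite _)
    have h6 : Disjoint {y | Γ.Adj x y ∧ y ∉ wh Γ v} (insert v {z | Γ.Adj v z ∧ Γ.Adj x z}) := by
      rw [Set.disjoint_left]
      rintro y ⟨-, hy⟩ hy'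
      apply hy
      rw [mem_wh]
      rcases hy' with h | h
      · exact Or.inl h
      · exact Or.inr h.1
    have h7 := Set.ncard_union_eq h6 (Set.toFinite _) (Set.toFinite _)
    have h8 : {y | Γ.Adj x y ∧ y ∉ wh Γ v} ∪ insert v {z | Γ.Adj v z ∧ Γ.Adj x z} ⊆
        Γ.neighborSet x := by
      rintro y (hy | hy | hy)
      · exact hy.1
      · rw [hy]
        exact hx.symm
      · exact hy.2
    have h9 := Set.ncard_le_ncard h8 (Set.toFinite _)
    omega

/-- The system obtained by putting the wheel into one of the bodies or by adding it. -/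
theorem fiveSystem_of {ι κ : Type} (Γ : SimpleGraph V) (B : ι → Finset V)
    (hB : FiveSystem Γ B) {v : V} (hv : ∀ i, v ∉ B i) (h5 : (Γ.neighborSet v).ncard = 5)
    (h2 : ∀ y, Γ.Adj v y → 2 ≤ {z | Γ.Adj v z ∧ Γ.Adj y z}.ncard)
    (B' : κ → Finset V) (o : κ) (e : ι → κ) (hb : ∀ j, B j ⊆ B' (e j))
    (hc : ∀ x k, x ∈ B' k → (∃ j, e j = k ∧ x ∈ B j) ∨ (k = o ∧ x ∈ wh Γ v))
    (hd : wh Γ v ⊆ B' o) (he : ∀ j, e j ≠ o → {z | z ∈ B j ∧ Γ.Adj v z}.ncard ≤ 2)
    (hf : ∀ k, k = o ∨ ∃ j, e j = k) : FiveSystem Γ B' := by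
  have hone : ∀ x ∈ wh Γ v, ∀ i j, x ∈ B i → x ∈ B j → i = j := by
    intro x hx i j hi hj
    rcases mem_wh.1 hx with rfl | hx
    · exact absurd hi (hv i)
    · exact hB.one_body hv hx hi hj
  have hbars : ∀ x, (bars Γ B').neighborSet x ⊆ (bars Γ B).neighborSet x := fun x y hy =>
    ⟨hy.1, fun i hi => hy.2 (e i) ⟨hb i hi.1, hb i hi.2⟩⟩
  -- a joint between the wheel and a body
  have hjt : ∀ x j, x ∈ B j → e j ≠ o → x ∈ wh Γ v → ∀ y, Γ.Adj x y → y ∈ B j ∨ y ∈ wh Γ v := by
    intro x j hxj hj hx y hy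
    rcases mem_wh.1 hx with h | hx'
    · rw [h] at hxj
      exact absurd hxj (hv j)
    · exact hB.nbr hv h2 hx' hxj (he j hj) hy
  refine ⟨?_, ?_, ?_, ?_, ?_⟩
  · intro k
    rcases hf k with rfl | ⟨j, rfl⟩
    · exact (three_le_card_wh h5).trans (Finset.card_le_card hd)
    · exact (hB.three j).trans (Finset.card_le_card (hb j))
  · intro x a b c ha hb' hc'
    rcases hc x a ha with ⟨i, rfl, hi⟩ | ⟨rfl, hx⟩
    · rcases hc x b hb' with ⟨j, rfl, hj⟩ | ⟨rfl, hx⟩
      · rcases hc x c hc' with ⟨k, rfl, hk⟩ | ⟨rfl, hx⟩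
        · rcases hB.two x i j k hi hj hk with h | h | h
          · exact Or.inl (by rw [h])
          · exact Or.inr (Or.inl (by rw [h]))
          · exact Or.inr (Or.inr (by rw [h]))
        · exact Or.inl (by rw [hone x hx i j hi hj])
      · rcases hc x c hc' with ⟨k, rfl, hk⟩ | ⟨rfl, -⟩
        · exact Or.inr (Or.inl (by rw [hone x hx i k hi hk]))
        · exact Or.inr (Or.inr rfl)
    · rcases hc x b hb' with ⟨j, rfl, hj⟩ | ⟨rfl, -⟩
      · rcases hc x c hc' with ⟨k, rfl, hk⟩ | ⟨rfl, -⟩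
        · exact Or.inr (Or.inr (by rw [hone x hx j k hj hk]))
        · exact Or.inr (Or.inl rfl)
      · exact Or.inl rfl
  · intro x a b hab ha hb' y hy
    rcases hc x a ha with ⟨i, rfl, hi⟩ | ⟨rfl, hx⟩
    · rcases hc x b hb' with ⟨j, rfl, hj⟩ | ⟨rfl, hx⟩
      · rcases hB.joint x i j (fun h => hab (by rw [h])) hi hj y hy with h | h
        · exact Or.inl (hb i h)
        · exact Or.inr (hb j h)
      · rcases hjt x i hi hab hx y hy with h | h
        · exact Or.inl (hb i h)
        · exact Or.inr (hd h)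
    · rcases hc x b hb' with ⟨j, rfl, hj⟩ | ⟨rfl, -⟩
      · rcases hjt x j hj (fun h => hab h.symm) hx y hy with h | h
        · exact Or.inr (hb j h)
        · exact Or.inl (hd h)
      · exact absurd rfl hab
  · intro x a ha
    by_cases hx : ∃ j, x ∈ B j
    · obtain ⟨j, hj⟩ := hx
      exact (Set.ncard_le_ncard (hbars x) (Set.toFinite _)).trans (hB.one x j hj)
    · push Not at hx
      rcases hc x a ha with ⟨i, -, hi⟩ | ⟨rfl, hxw⟩
      · exact absurd hi (hx i)
      · refine (Set.ncard_le_ncard ?_ (Set.toFinite _)).trans (ncard_out_le h2 hxw (hB.free x hx))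
        intro y hy
        exact ⟨hy.1, fun h => hy.2 a ⟨ha, hd h⟩⟩
  · intro x hx
    exact hB.free x fun i hi => hx (e i) (hb i hi)

/-- A rigid neighbourhood of a free vertex can be added to the bodies. -/
theorem add_wheel {ι : Type} [Fintype ι] (Γ : SimpleGraph V) (B : ι → Finset V)
    (hB : FiveSystem Γ B) (hrig : ∀ i, RigidOn Γ (B i)) {v : V} (hv : ∀ i, v ∉ B i)
    (h5 : (Γ.neighborSet v).ncard = 5) (hW : WheelRigid Γ v) :
    ∃ (κ : Type) (_ : Fintype κ) (B' : κ → Finset V), FiveSystem Γ B' ∧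
      (∀ i, RigidOn Γ (B' i)) ∧ (∀ i, ∃ j, B i ⊆ B' j) ∧ ∃ j, v ∈ B' j := by
  classical
  have h2 : ∀ y, Γ.Adj v y → 2 ≤ {z | Γ.Adj v z ∧ Γ.Adj y z}.ncard := by
    rcases hB.free v hv with h | h
    · omega
    · exact h.2
  have hvw : v ∈ wh Γ v := mem_wh.2 (Or.inl rfl)
  by_cases hex : ∃ i, 3 ≤ {z | z ∈ B i ∧ Γ.Adj v z}.ncard
  · obtain ⟨i, hi⟩ := hex
    refine ⟨ι, inferInstance, Function.update B i (B i ∪ wh Γ v), ?_, ?_, ?_, ?_⟩
    · refine fiveSystem_of Γ B hB hv h5 h2 _ i id ?_ ?_ ?_ ?_ ?_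
      · intro j
        by_cases hj : j = i
        · rw [hj, id, Function.update_self]
          exact Finset.subset_union_left
        · rw [id, Function.update_of_ne hj]
      · intro x k hx
        by_cases hk : k = i
        · rw [hk, Function.update_self, Finset.mem_union] at hx
          rcases hx with h | h
          · exact Or.inl ⟨i, hk.symm, h⟩
          · exact Or.inr ⟨hk, h⟩
        · rw [Function.update_of_ne hk] at hx
          exact Or.inl ⟨k, rfl, hx⟩
      · rw [Function.update_self]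
        exact Finset.subset_union_right
      · intro j hj
        have h6 : Disjoint {z | z ∈ B i ∧ Γ.Adj v z} {z | z ∈ B j ∧ Γ.Adj v z} := by
          rw [Set.disjoint_left]
          rintro z ⟨h7, h8⟩ ⟨h9, -⟩
          exact hj (hB.one_body hv h8 h9 h7)
        have h7 := Set.ncard_union_eq h6 (Set.toFinite _) (Set.toFinite _)
        have h8 : {z | z ∈ B i ∧ Γ.Adj v z} ∪ {z | z ∈ B j ∧ Γ.Adj v z} ⊆ Γ.neighborSet v := by
          rintro z (h | h)
          · exact h.2
          · exact h.2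
        have h9 := Set.ncard_le_ncard h8 (Set.toFinite _)
        omega
      · exact fun k => Or.inr ⟨k, rfl⟩
    · intro j
      by_cases hj : j = i
      · rw [hj, Function.update_self]
        refine (hrig i).union (rigidOn_wh hW) (hi.trans ?_)
        have h6 : {z | z ∈ B i ∧ Γ.Adj v z} ⊆ ((B i ∩ wh Γ v : Finset V) : Set V) := by
          intro z hz
          rw [Finset.mem_coe, Finset.mem_inter, mem_wh]
          exact ⟨hz.1, Or.inr hz.2⟩
        have h7 := Set.ncard_le_ncard h6 (Finset.finite_toSet _)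
        rwa [Set.ncard_coe_finset] at h7
      · rw [Function.update_of_ne hj]
        exact hrig j
    · intro j
      by_cases hj : j = i
      · refine ⟨i, ?_⟩
        rw [hj, Function.update_self]
        exact Finset.subset_union_left
      · refine ⟨j, ?_⟩
        rw [Function.update_of_ne hj]
    · refine ⟨i, ?_⟩
      rw [Function.update_self]
      exact Finset.mem_union_right _ hvw
  · push Not at hex
    refine ⟨Option ι, inferInstance, fun k => k.elim (wh Γ v) B, ?_, ?_, ?_, ?_⟩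
    · refine fiveSystem_of Γ B hB hv h5 h2 _ none some ?_ ?_ ?_ ?_ ?_
      · exact fun j => Finset.Subset.refl _
      · intro x k hx
        cases k with
        | none => exact Or.inr ⟨rfl, hx⟩
        | some k => exact Or.inl ⟨k, rfl, hx⟩
      · exact Finset.Subset.refl _
      · intro j _
        have := hex j
        omega
      · intro k
        cases k with
        | none => exact Or.inl rfl
        | some k => exact Or.inr ⟨k, rfl⟩
    · intro k
      cases k with
      | none => exact rigidOn_wh hW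
      | some k => exact hrig k
    · exact fun j => ⟨some j, Finset.Subset.refl _⟩
    · exact ⟨none, hvw⟩

lemma exists_closed_aux (Γ : SimpleGraph V) (n : ℕ) :
    ∀ (ι : Type) (_ : Fintype ι) (B : ι → Finset V), FiveSystem Γ B → (∀ i, RigidOn Γ (B i)) →
      {v | (∀ i, v ∉ B i) ∧ (Γ.neighborSet v).ncard = 5}.ncard ≤ n →
      ∃ (κ : Type) (_ : Fintype κ) (B' : κ → Finset V), FiveSystem Γ B' ∧
        (∀ i, RigidOn Γ (B' i)) ∧ (∀ i, ∃ j, B i ⊆ B' j) ∧
        ∀ v, (∀ i, v ∉ B' i) → (Γ.neighborSet v).ncard = 5 → ¬ WheelRigid Γ v := by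
  induction n with
  | zero =>
    intro ι _ B hB hrig hn
    refine ⟨ι, inferInstance, B, hB, hrig, fun i => ⟨i, subset_rfl⟩, fun v hv h5 _ => ?_⟩
    have h0 := Nat.le_zero.1 hn
    rw [Set.ncard_eq_zero (Set.toFinite _)] at h0
    exact (Set.eq_empty_iff_forall_notMem.1 h0 v) ⟨hv, h5⟩
  | succ n ih =>
    intro ι _ B hB hrig hn
    by_cases h : ∃ v, (∀ i, v ∉ B i) ∧ (Γ.neighborSet v).ncard = 5 ∧ WheelRigid Γ v
    · obtain ⟨v, hv, h5, hW⟩ := h
      obtain ⟨κ, _, B', h1, h2, h3, j, hj⟩ := add_wheel Γ B hB hrig hv h5 hW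
      have hlt : {v | (∀ i, v ∉ B' i) ∧ (Γ.neighborSet v).ncard = 5}.ncard <
          {v | (∀ i, v ∉ B i) ∧ (Γ.neighborSet v).ncard = 5}.ncard := by
        refine Set.ncard_lt_ncard ⟨fun x hx => ⟨fun i hi => ?_, hx.2⟩, fun hcon => ?_⟩
          (Set.toFinite _)
        · obtain ⟨k, hk⟩ := h3 i
          exact hx.1 k (hk hi)
        · exact (hcon (show v ∈ {v | (∀ i, v ∉ B i) ∧ (Γ.neighborSet v).ncard = 5} from
            ⟨hv, h5⟩)).1 j hj
      obtain ⟨μ, hμ, B'', g1, g2, g3, g4⟩ := ih κ inferInstance B' h1 h2 (by omega)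
      refine ⟨μ, hμ, B'', g1, g2, fun i => ?_, g4⟩
      obtain ⟨k, hk⟩ := h3 i
      obtain ⟨l, hl⟩ := g3 k
      exact ⟨l, hk.trans hl⟩
    · refine ⟨ι, inferInstance, B, hB, hrig, fun i => ⟨i, subset_rfl⟩, fun v hv h5 hW => ?_⟩
      exact h ⟨v, hv, h5, hW⟩

/-- There is a system of bodies without rigid neighbourhoods of free vertices of degree five. -/
theorem exists_closed {ι : Type} [Fintype ι] (Γ : SimpleGraph V) (B : ι → Finset V)
    (hB : FiveSystem Γ B) (hrig : ∀ i, RigidOn Γ (B i)) :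
    ∃ (κ : Type) (_ : Fintype κ) (B' : κ → Finset V), FiveSystem Γ B' ∧
      (∀ i, RigidOn Γ (B' i)) ∧ (∀ i, ∃ j, B i ⊆ B' j) ∧
      ∀ v, (∀ i, v ∉ B' i) → (Γ.neighborSet v).ncard = 5 → ¬ WheelRigid Γ v :=
  exists_closed_aux Γ _ ι inferInstance B hB hrig le_rfl

/-- The upper bound of `upper_clique` with a tidy cover. -/
theorem upper_tidy {ι : Type} [Fintype ι] (Γ : SimpleGraph V) (B : ι → Finset V)
    (hB : PointSystem Γ B) (hcl : ∀ i, ∀ x ∈ B i, ∀ y ∈ B i, x ≠ y → Γ.Adj x y) :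
    ∃ (m : ℕ) (X : Fin m → Finset V), IsCover Γ X ∧ (∀ i, ∃ j, B i ⊆ X j) ∧ Tidy Γ B X ∧
      (kF Γ : ℤ) ≤ freedom Γ X := by
  obtain ⟨p, m, X, h1, h2, h3, h4⟩ := upper_clique Γ B hB hcl
  exact ⟨m, X, h1, h2, h3, le_trans (by exact_mod_cast kF_le Γ p) h4⟩

open Classical in
/-- The number of neighbours of `v` in `X k`. -/
noncomputable def nbNo (Γ : SimpleGraph V) (v : V) {m : ℕ} (X : Fin m → Finset V) (k : Fin m) : ℕ :=
  ((X k).filter fun y => Γ.Adj v y).card

lemma sum_pairs_star {m : ℕ} (k₀ : Fin m) (n : Fin m → ℤ) (h0 : n k₀ = 0) :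
    ∑ q ∈ (Finset.univ : Finset (Fin m × Fin m)).filter (fun q => q.1 < q.2),
      ((if q.1 = k₀ then n q.2 else 0) + (if q.2 = k₀ then n q.1 else 0)) = ∑ k, n k := by
  rw [Finset.sum_filter, ← Finset.univ_product_univ, Finset.sum_product]
  have h1 : ∀ i j : Fin m, (if (i, j).1 < (i, j).2 then
      ((if (i, j).1 = k₀ then n (i, j).2 else 0) + (if (i, j).2 = k₀ then n (i, j).1 else 0))
      else 0) = (if i = k₀ then (if k₀ < j then n j else 0) else 0) +
        (if j = k₀ then (if i < k₀ then n i else 0) else 0) := by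
    intro i j
    dsimp only
    by_cases hi : i = k₀
    · subst hi
      by_cases hj : j = i
      · subst hj
        simp
      · by_cases hlt : i < j
        · simp [hlt, hj]
        · simp [hlt, hj]
    · by_cases hj : j = k₀
      · subst hj
        by_cases hlt : i < j
        · simp [hlt, hi]
        · simp [hlt, hi]
      · simp [hi, hj]
  simp only [h1, Finset.sum_add_distrib, Finset.sum_ite_eq', Finset.mem_univ, if_true]
  have h2 : ∑ i : Fin m, ∑ j : Fin m, (if i = k₀ then (if k₀ < j then n j else 0) else 0) =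
      ∑ j : Fin m, (if k₀ < j then n j else 0) := by
    rw [Finset.sum_comm]
    refine Finset.sum_congr rfl fun j _ => ?_
    rw [Finset.sum_ite_eq' Finset.univ k₀, if_pos (Finset.mem_univ _)]
  rw [h2, ← Finset.sum_add_distrib]
  refine Finset.sum_congr rfl fun j _ => ?_
  rcases lt_trichotomy j k₀ with h | h | h
  · rw [if_neg h.le.not_gt, if_pos h, zero_add]
  · subst h
    simp [h0]
  · rw [if_pos h, if_neg h.le.not_gt, add_zero]

/-- Adding a free vertex of degree at most five to a tidy cover. -/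
theorem cover_add {ι : Type} (Γ : SimpleGraph V) (B : ι → Finset V) (hB : FiveSystem Γ B)
    {v : V} (hv : ∀ i, v ∉ B i) (h5 : (Γ.neighborSet v).ncard ≤ 5) {m : ℕ}
    {X : Fin m → Finset V} (hX : IsCover (delV Γ v) X) (hT : Tidy (delV Γ v) B X) :
    IsCover Γ X ∧ Tidy Γ B X ∧
      freedom Γ X + ((Γ.neighborSet v).ncard : ℤ) = freedom (delV Γ v) X := by
  classical
  obtain ⟨k₀, hk₀⟩ := hX.cover v
  have hXk : X k₀ = {v} := by
    rcases hT.free v hv k₀ hk₀ with h | h
    · exact h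
    · have h0 : {y | y ∈ X k₀ ∧ (delV Γ v).Adj v y} = ∅ := by
        ext y
        simp only [Set.mem_ofPred_eq, delV_adj, Set.mem_empty_iff_false, iff_false]
        exact fun h => h.2.2.1 rfl
      rw [h0, Set.ncard_empty] at h
      omega
  have huv : ∀ k, v ∈ X k → k = k₀ := fun k hk =>
    hT.one v (fun i j hi _ => absurd hi (hv i)) k k₀ hk hk₀
  -- neighbours of `v` lie in one class
  have hone : ∀ u, Γ.Adj v u → ∀ k l, u ∈ X k → u ∈ X l → k = l := by
    intro u hu
    refine hT.one u ?_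
    intro i j hi hj
    by_contra hij
    rcases hB.joint u i j hij hi hj v hu.symm with h | h
    · exact hv i h
    · exact hv j h
  have hcov : IsCover Γ X := by
    refine ⟨hX.cover, hX.two, ?_⟩
    intro u i j hij hi hj w hw
    by_cases h1 : u = v
    · subst h1
      exact absurd ((huv i hi).trans (huv j hj).symm) hij
    · by_cases h2 : w = v
      · subst h2
        exact absurd (hone u hw.symm i j hi hj) hij
      · exact hX.closed u i j hij hi hj w (delV_adj.2 ⟨hw, h1, h2⟩)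
  refine ⟨hcov, ⟨hT.one, ?_⟩, ?_⟩
  · intro x hx k hk
    rcases hT.free x hx k hk with h | h
    · exact Or.inl h
    · right
      refine h.trans (Set.ncard_le_ncard ?_ (Set.toFinite _))
      intro y hy
      exact ⟨hy.1, (delV_adj.1 hy.2).1⟩
  -- the freedom
  have hn0 : nbNo Γ v X k₀ = 0 := by
    unfold nbNo
    rw [hXk, Finset.card_eq_zero, Finset.filter_eq_empty_iff]
    intro y hy
    rw [Finset.mem_singleton] at hy
    subst hy
    exact Γ.loopless.irrefl _
  have hle : ∀ k, nbNo Γ v X k ≤ 5 := by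
    intro k
    refine le_trans ?_ h5
    unfold nbNo
    rw [← Set.ncard_coe_finset]
    refine Set.ncard_le_ncard ?_ (Set.toFinite _)
    intro y hy
    rw [Finset.mem_coe, Finset.mem_filter] at hy
    exact hy.2
  have hsum : ∑ k, (nbNo Γ v X k : ℤ) = ((Γ.neighborSet v).ncard : ℤ) := by
    have h1 : (Γ.neighborSet v).ncard = ∑ k, nbNo Γ v X k := by
      have h2 : (Γ.neighborSet v) =
          (((Finset.univ : Finset (Fin m)).biUnion fun k => (X k).filter fun y => Γ.Adj v y :
            Finset V) : Set V) := by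
        ext y
        simp only [SimpleGraph.mem_neighborSet, Finset.coe_biUnion, Finset.mem_coe,
          Finset.mem_univ, Set.iUnion_true, Set.mem_iUnion, Finset.mem_filter]
        constructor
        · intro h
          obtain ⟨k, hk⟩ := hX.cover y
          exact ⟨k, hk, h⟩
        · rintro ⟨k, -, h⟩
          exact h
      rw [h2, Set.ncard_coe_finset, Finset.card_biUnion]
      · rfl
      · intro k _ l _ hkl
        refine Finset.disjoint_left.2 ?_
        intro y hy hy'
        rw [Finset.mem_filter] at hy hy'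
        exact hkl (hone y hy.2 k l hy.1 hy'.1)
    rw [h1]
    push_cast
    rfl
  -- cross edges
  have hcr1 : ∀ i j : Fin m, i < j → i ≠ k₀ → j ≠ k₀ →
      crossNo Γ X i j = crossNo (delV Γ v) X i j := by
    intro i j _ hi hj
    unfold crossNo
    congr 1
    ext q
    simp only [Finset.mem_filter, Finset.mem_univ, true_and, delV_adj]
    constructor
    · rintro ⟨h1, h2, h3, h4⟩
      refine ⟨⟨h1, ?_, ?_⟩, h2, h3, h4⟩
      · rintro rfl
        exact hi (huv i h2)
      · rintro rfl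
        exact hj (huv j h3)
    · rintro ⟨⟨h1, -, -⟩, h2, h3, h4⟩
      exact ⟨h1, h2, h3, h4⟩
  have hcr2 : ∀ j : Fin m, j ≠ k₀ → crossNo Γ X k₀ j = nbNo Γ v X j := by
    intro j hj
    unfold crossNo nbNo
    refine Finset.card_bij (fun q _ => q.2) ?_ ?_ ?_
    · intro q hq
      rw [Finset.mem_filter] at hq
      obtain ⟨-, h1, h2, h3, -⟩ := hq
      rw [hXk, Finset.mem_singleton] at h2
      rw [Finset.mem_filter]
      exact ⟨h3, h2 ▸ h1⟩
    · intro q hq q' hq' h
      rw [Finset.mem_filter] at hq hq'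
      obtain ⟨-, -, h2, -, -⟩ := hq
      obtain ⟨-, -, h2', -, -⟩ := hq'
      rw [hXk, Finset.mem_singleton] at h2 h2'
      exact Prod.ext (h2.trans h2'.symm) h
    · intro y hy
      rw [Finset.mem_filter] at hy
      refine ⟨(v, y), ?_, rfl⟩
      rw [Finset.mem_filter]
      refine ⟨Finset.mem_univ _, hy.2, hk₀, hy.1, ?_⟩
      rintro k ⟨h1, h2⟩
      rw [huv k h1, hXk, Finset.mem_singleton] at h2
      exact hy.2.ne h2.symm
  have hcr3 : ∀ i : Fin m, i ≠ k₀ → crossNo Γ X i k₀ = nbNo Γ v X i := by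
    intro i hi
    unfold crossNo nbNo
    refine Finset.card_bij (fun q _ => q.1) ?_ ?_ ?_
    · intro q hq
      rw [Finset.mem_filter] at hq
      obtain ⟨-, h1, h2, h3, -⟩ := hq
      rw [hXk, Finset.mem_singleton] at h3
      rw [Finset.mem_filter]
      exact ⟨h2, h3 ▸ h1.symm⟩
    · intro q hq q' hq' h
      rw [Finset.mem_filter] at hq hq'
      obtain ⟨-, -, -, h3, -⟩ := hq
      obtain ⟨-, -, -, h3', -⟩ := hq'
      rw [hXk, Finset.mem_singleton] at h3 h3'
      exact Prod.ext h (h3.trans h3'.symm)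
    · intro y hy
      rw [Finset.mem_filter] at hy
      refine ⟨(y, v), ?_, rfl⟩
      rw [Finset.mem_filter]
      refine ⟨Finset.mem_univ _, hy.2.symm, hy.1, hk₀, ?_⟩
      rintro k ⟨h1, h2⟩
      rw [huv k h2, hXk, Finset.mem_singleton] at h1
      exact hy.2.ne h1.symm
  have hdel : ∀ i j : Fin m, i = k₀ ∨ j = k₀ → crossNo (delV Γ v) X i j = 0 := by
    intro i j hij
    unfold crossNo
    rw [Finset.card_eq_zero, Finset.filter_eq_empty_iff]
    rintro q - ⟨h1, h2, h3, -⟩
    rw [delV_adj] at h1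
    rcases hij with h | h
    · rw [h, hXk, Finset.mem_singleton] at h2
      exact h1.2.1 h2
    · rw [h, hXk, Finset.mem_singleton] at h3
      exact h1.2.2 h3
  have hcom : ∀ i j : Fin m, i ≠ j → i = k₀ ∨ j = k₀ → commonNo X i j = 0 := by
    intro i j hne hij
    unfold commonNo
    rw [Finset.card_eq_zero, Finset.eq_empty_iff_forall_notMem]
    intro y hy
    rw [Finset.mem_inter] at hy
    rcases hij with h | h
    · have h2 := hy.1
      rw [h, hXk, Finset.mem_singleton] at h2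
      exact hne (h.trans (huv j (h2 ▸ hy.2)).symm)
    · have h2 := hy.2
      rw [h, hXk, Finset.mem_singleton] at h2
      exact hne ((huv i (h2 ▸ hy.1)).trans h.symm)
  have hterm : ∀ q ∈ (Finset.univ : Finset (Fin m × Fin m)).filter (fun q => q.1 < q.2),
      min 6 (jointRank (commonNo X q.1 q.2) + (crossNo Γ X q.1 q.2 : ℤ)) =
      min 6 (jointRank (commonNo X q.1 q.2) + (crossNo (delV Γ v) X q.1 q.2 : ℤ)) +
      ((if q.1 = k₀ then (nbNo Γ v X q.2 : ℤ) else 0) +
        (if q.2 = k₀ then (nbNo Γ v X q.1 : ℤ) else 0)) := by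
    rintro ⟨i, j⟩ hq
    rw [Finset.mem_filter] at hq
    obtain ⟨-, hlt⟩ := hq
    dsimp only at hlt ⊢
    by_cases hi : i = k₀
    · have hj : j ≠ k₀ := fun h => hlt.ne (hi.trans h.symm)
      rw [hcom i j hlt.ne (Or.inl hi), hdel i j (Or.inl hi), if_pos hi, if_neg hj, hi, hcr2 j hj]
      have := hle j
      simp only [jointRank]
      push_cast
      omega
    · by_cases hj : j = k₀
      · rw [hcom i j hlt.ne (Or.inr hj), hdel i j (Or.inr hj), if_neg hi, if_pos hj, hj, hcr3 i hi]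
        have := hle i
        simp only [jointRank]
        push_cast
        omega
      · rw [hcr1 i j hlt hi hj, if_neg hi, if_neg hj]
        ring
  unfold freedom
  rw [Finset.sum_congr rfl hterm, Finset.sum_add_distrib,
    sum_pairs_star k₀ (fun k => (nbNo Γ v X k : ℤ)) (by simp only [hn0]; rfl), hsum]
  ring


omit [Fintype V] in
lemma neighborSet_delV (Γ : SimpleGraph V) {u v : V} (huv : u ≠ v) (h : ¬ Γ.Adj u v) :
    (delV Γ v).neighborSet u = Γ.neighborSet u := by
  ext y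
  rw [SimpleGraph.mem_neighborSet, SimpleGraph.mem_neighborSet, delV_adj]
  constructor
  · exact fun hy => hy.1
  · intro hy
    refine ⟨hy, huv, ?_⟩
    rintro rfl
    exact h hy

/-- A free vertex of degree five in `delV Γ v` is not adjacent to `v`. -/
lemma FiveSystem.not_adj {ι : Type} {Γ : SimpleGraph V} {B : ι → Finset V}
    (hB : FiveSystem Γ B) {u v : V} (hu : ∀ i, u ∉ B i)
    (h5 : ((delV Γ v).neighborSet u).ncard = 5) :
    u ≠ v ∧ ¬ Γ.Adj u v ∧ (Γ.neighborSet u).ncard = 5 := by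
  have huv : u ≠ v := by
    rintro rfl
    have h1 : (delV Γ u).neighborSet u = ∅ := by
      ext y
      simp [delV_adj]
    rw [h1, Set.ncard_empty] at h5
    omega
  have hsub : (delV Γ v).neighborSet u ⊆ Γ.neighborSet u := fun y hy => delV_le Γ v hy
  have h6 := Set.ncard_le_ncard hsub (Set.toFinite _)
  have h7 : (Γ.neighborSet u).ncard = 5 := by
    rcases hB.free u hu with h | h
    · omega
    · exact h.1
  refine ⟨huv, fun hadj => ?_, h7⟩
  have h8 : (delV Γ v).neighborSet u = Γ.neighborSet u :=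
    Set.eq_of_subset_of_ncard_le hsub (by omega) (Set.toFinite _)
  have h9 : v ∈ (delV Γ v).neighborSet u := by rw [h8]; exact hadj
  exact (delV_adj.1 h9).2.2 rfl

lemma FiveSystem.delV {ι : Type} {Γ : SimpleGraph V} {B : ι → Finset V}
    (hB : FiveSystem Γ B) (v : V) : FiveSystem (delV Γ v) B := by
  refine ⟨hB.three, hB.two, ?_, ?_, ?_⟩
  · exact fun x i j hij hi hj y hy => hB.joint x i j hij hi hj y (delV_le Γ v hy)
  · intro x i hi
    refine (Set.ncard_le_ncard ?_ (Set.toFinite _)).trans (hB.one x i hi)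
    intro y hy
    exact ⟨delV_le Γ v hy.1, hy.2⟩
  · intro x hx
    by_cases h4 : ((Pool.Agent.BJ.delV Γ v).neighborSet x).ncard ≤ 4
    · exact Or.inl h4
    · have hsub : (Pool.Agent.BJ.delV Γ v).neighborSet x ⊆ Γ.neighborSet x :=
        fun y hy => delV_le Γ v hy
      have h6 := Set.ncard_le_ncard hsub (Set.toFinite _)
      have h7 : (Γ.neighborSet x).ncard ≤ 5 := by
        rcases hB.free x hx with h | h
        · omega
        · omega
      have h5 : ((Pool.Agent.BJ.delV Γ v).neighborSet x).ncard = 5 := by omega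
      obtain ⟨hxv, hadj, h8⟩ := hB.not_adj hx h5
      right
      refine ⟨h5, fun y hy => ?_⟩
      have hy' := delV_le Γ v hy
      rcases hB.free x hx with h | h
      · omega
      · refine (h.2 y hy').trans (Set.ncard_le_ncard ?_ (Set.toFinite _))
        rintro z ⟨hz1, hz2⟩
        have hzv : z ≠ v := by rintro rfl; exact hadj hz1
        exact ⟨delV_adj.2 ⟨hz1, hxv, hzv⟩, delV_adj.2 ⟨hz2, (delV_adj.1 hy).2.2, hzv⟩⟩

/-- The upper bound when no free vertex of degree five has a rigid neighbourhood. -/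
theorem upper_five {ι : Type} [Fintype ι] (Γ : SimpleGraph V) (B : ι → Finset V)
    (hB : FiveSystem Γ B) (hcl : ∀ i, ∀ x ∈ B i, ∀ y ∈ B i, x ≠ y → Γ.Adj x y)
    (hW : ∀ v, (∀ i, v ∉ B i) → (Γ.neighborSet v).ncard = 5 → ¬ WheelRigid Γ v) :
    ∃ (m : ℕ) (X : Fin m → Finset V), IsCover Γ X ∧ (∀ i, ∃ j, B i ⊆ X j) ∧ Tidy Γ B X ∧
      (kF Γ : ℤ) ≤ freedom Γ X := by
  obtain ⟨n, hn⟩ : ∃ n, {v | (∀ i, v ∉ B i) ∧ (Γ.neighborSet v).ncard = 5}.ncard = n := ⟨_, rfl⟩
  induction n using Nat.strong_induction_on generalizing Γ with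
  | _ n ih =>
  by_cases h0 : ∃ v, (∀ i, v ∉ B i) ∧ (Γ.neighborSet v).ncard = 5
  · obtain ⟨v, hv, h5⟩ := h0
    have hlt : {u | (∀ i, u ∉ B i) ∧ ((delV Γ v).neighborSet u).ncard = 5}.ncard < n := by
      rw [← hn]
      apply Set.ncard_lt_ncard _ (Set.toFinite _)
      have hsub : {u | (∀ i, u ∉ B i) ∧ ((delV Γ v).neighborSet u).ncard = 5} ⊆
          {u | (∀ i, u ∉ B i) ∧ (Γ.neighborSet u).ncard = 5} := by
        rintro u ⟨hu, hu5⟩
        exact ⟨hu, (hB.not_adj hu hu5).2.2⟩
      rw [Set.ssubset_iff_of_subset hsub]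
      refine ⟨v, ⟨hv, h5⟩, fun h => ?_⟩
      exact (hB.not_adj hv h.2).1 rfl
    obtain ⟨m, X, hX, hBX, hT, hle⟩ := ih _ hlt (delV Γ v) (hB.delV v)
      (fun i x hx y hy hxy => delV_adj.2 ⟨hcl i x hx y hy hxy,
        fun h => hv i (h ▸ hx), fun h => hv i (h ▸ hy)⟩)
      (by
        intro u hu hu5 hWu
        obtain ⟨huv, hadj, h6⟩ := hB.not_adj hu hu5
        apply hW u hu h6
        unfold WheelRigid at *
        filter_upwards [hWu] with p hp q hq
        obtain ⟨T, hT1, hT2⟩ := hp q (Flex_mono (delV_le Γ v) p hq)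
        refine ⟨T, hT1, fun x hx => hT2 x ?_⟩
        have h7 : x ∈ (delV Γ v).neighborSet u := by
          rw [neighborSet_delV Γ huv hadj]
          exact hx
        exact h7) rfl
    obtain ⟨h1, h2, h3⟩ := cover_add Γ B hB hv h5.le hX hT
    refine ⟨m, X, h1, hBX, h2, ?_⟩
    have h4 : kF Γ + 5 ≤ kF (delV Γ v) := by
      by_contra hcon
      apply hW v hv h5
      refine five Γ h5 ?_ (by omega)
      rcases hB.free v hv with h | h
      · omega
      · exact h.2
    have h6 : (kF Γ : ℤ) + 5 ≤ kF (delV Γ v) := by exact_mod_cast h4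
    rw [h5] at h3
    push_cast at h3
    linarith
  · push Not at h0
    refine upper_tidy Γ B ⟨hB.three, hB.two, hB.joint, hB.one, fun x hx => ?_⟩ hcl
    rcases hB.free x hx with h | h
    · exact h
    · exact absurd h.1 (h0 x hx)

/-- The system of bodies in the filled graph. -/
lemma FiveSystem.fill {ι : Type} {Γ : SimpleGraph V} {B : ι → Finset V}
    (hB : FiveSystem Γ B) : FiveSystem (fill Γ B) B := by
  have hns : ∀ x, (∀ i, x ∉ B i) → ∀ y, (Pool.Agent.BJ.fill Γ B).Adj x y ↔ Γ.Adj x y := by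
    intro x hx y
    constructor
    · rintro (h | ⟨_, i, h⟩)
      · exact h
      · exact absurd h.1 (hx i)
    · exact fun h => Or.inl h
  have hns' : ∀ x, (∀ i, x ∉ B i) →
      (Pool.Agent.BJ.fill Γ B).neighborSet x = Γ.neighborSet x := fun x hx => by
    ext y
    exact hns x hx y
  refine ⟨hB.three, hB.two, ?_, ?_, ?_⟩
  · intro x i j hij hi hj y h
    rcases h with h | ⟨_, k, hk⟩
    · exact hB.joint x i j hij hi hj y h
    · rcases hB.two x i j k hi hj hk.1 with h | rfl | rfl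
      · exact absurd h hij
      · exact Or.inl hk.2
      · exact Or.inr hk.2
  · intro x i hi
    rw [bars_fill]
    exact hB.one x i hi
  · intro x hx
    unfold Small
    rw [hns' x hx]
    rcases hB.free x hx with h | h
    · exact Or.inl h
    · refine Or.inr ⟨h.1, fun y hy => ?_⟩
      refine (h.2 y ((hns x hx y).1 hy)).trans (Set.ncard_le_ncard ?_ (Set.toFinite _))
      rintro z ⟨hz1, hz2⟩
      exact ⟨(hns x hx z).2 hz1, Or.inl hz2⟩

/-- The rank formula with free vertices of degree five. -/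
theorem five_formula {ι : Type} [Fintype ι] (Γ : SimpleGraph V) (B : ι → Finset V)
    (hB : FiveSystem Γ B) (hrig : ∀ i, RigidOn Γ (B i)) :
    ∃ (m : ℕ) (X : Fin m → Finset V), IsCover Γ X ∧ (∀ i, ∃ j, B i ⊆ X j) ∧
      ∀ᵐ p : V → E3 ∂volume, (finrank ℝ (Flex Γ p) : ℤ) = freedom Γ X := by
  obtain ⟨κ, _, B', hB', hrig', hBB', hW⟩ := exists_closed Γ B hB hrig
  have hae : ∀ᵐ p : V → E3 ∂volume, Flex (fill Γ B') p = Flex Γ p := by
    filter_upwards [ae_all_iff.2 hrig'] with p hp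
    exact Flex_fill Γ B' hp
  have hns' : ∀ x, (∀ i, x ∉ B' i) →
      (fill Γ B').neighborSet x = Γ.neighborSet x := fun x hx => by
    ext y
    constructor
    · rintro (h | ⟨_, i, h⟩)
      · exact h
      · exact absurd h.1 (hx i)
    · exact fun h => Or.inl h
  obtain ⟨m, X, hX, hBX, -, hle⟩ := upper_five (fill Γ B') B' hB'.fill
    (fun i x hx y hy hxy => Or.inr ⟨hxy, i, hx, hy⟩) (by
      intro v hv h5 hWv
      rw [hns' v hv] at h5
      apply hW v hv h5
      unfold WheelRigid at *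
      filter_upwards [hWv, hae] with p h1 h2 q hq
      rw [← h2] at hq
      obtain ⟨T, hT1, hT2⟩ := h1 q hq
      exact ⟨T, hT1, fun x hx => hT2 x (Or.inl hx)⟩)
  have hX' : IsCover Γ X :=
    ⟨hX.cover, hX.two, fun v i j hij hi hj w hw => hX.closed v i j hij hi hj w (Or.inl hw)⟩
  refine ⟨m, X, hX', fun i => ?_, ?_⟩
  · obtain ⟨j, hj⟩ := hBB' i
    obtain ⟨k, hk⟩ := hBX j
    exact ⟨k, hj.trans hk⟩
  · rw [freedom_fill Γ B' hBX] at hle
    filter_upwards [ae_goodF (V := V), hae] with p h1 h2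
    apply le_antisymm
    · rw [← h2, h1.2]
      exact hle
    · exact lower_cover Γ h1.1 hX'

/-- The characterization of the number of degrees of freedom and of generic rigidity. -/
theorem five_iff {ι : Type} [Fintype ι] (Γ : SimpleGraph V) (B : ι → Finset V)
    (hB : FiveSystem Γ B) (hrig : ∀ i, RigidOn Γ (B i)) :
    (∀ᵐ p : V → E3 ∂volume, IsGreatest
      {x : ℤ | ∃ (m : ℕ) (X : Fin m → Finset V), IsCover Γ X ∧ x = freedom Γ X}
      (finrank ℝ (Flex Γ p) : ℤ)) ∧
    (4 ≤ Fintype.card V → (GenericallyRigid Γ ↔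
      ∀ (m : ℕ) (X : Fin m → Finset V), IsCover Γ X → freedom Γ X ≤ 6)) := by
  obtain ⟨m, X, hX, _, hae⟩ := five_formula Γ B hB hrig
  constructor
  · filter_upwards [hae, ae_GP (V := V)] with p h1 h2
    refine ⟨⟨m, X, hX, h1⟩, ?_⟩
    rintro _ ⟨m', X', hX', rfl⟩
    exact lower_cover Γ h2 hX'
  · intro hV
    rw [Pool.Agent.H26R.genericallyRigid_iff hV]
    constructor
    · rintro ⟨p₀, hp₀⟩ m' X' hX'
      obtain ⟨p, h1, h2⟩ := ((ae_GP (V := V)).and (ae_Flex_le Γ p₀)).exists
      refine (lower_cover Γ h1 hX').trans ?_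
      exact_mod_cast h2.trans hp₀
    · intro h
      obtain ⟨p, hp⟩ := hae.exists
      refine ⟨p, ?_⟩
      have h1 := h m X hX
      rw [← hp] at h1
      exact_mod_cast h1

end

end Pool.Agent.BJ
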