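import Pool.Agent.Lib.MP_37c7bf_BJ.ClawT
import Pool.Agent.Lib.MP_37c7bf_BJ.Wheel

/-!
All claw-free graphs.
-/

open MeasureTheory Module Topology
open scoped RealInnerProductSpace

namespace Pool.Agent.BJ

open Pool.Agent.H26R (E3 crossE GenericallyRigid Flex)

section
variable {V : Type} [DecidableEq V] [Fintype V] {Γ : SimpleGraph V}

/-- The maximal clusters of a claw-free graph form a system of bodies. -/
theorem claw_fiveSystem (hcl : ClawFree Γ) : FiveSystem Γ (MaxCl.verts (Γ := Γ)) := by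
  refine ⟨?_, ?_, ?_, ?_, ?_⟩
  · rintro ⟨X, hX⟩
    exact le_trans (by norm_num) hX.prop.rx.1
  · rintro x ⟨X, hX⟩ ⟨Y, hY⟩ ⟨Z, hZ⟩ hx hy hz
    rcases not_three hcl hX hY hZ hx hy hz with h | h | h
    · exact Or.inl (Subtype.ext h)
    · exact Or.inr (Or.inl (Subtype.ext h))
    · exact Or.inr (Or.inr (Subtype.ext h))
  · rintro x ⟨X, hX⟩ ⟨Y, hY⟩ hne hx hy y hxy
    exact mem_or_mem hcl hX hY (fun h => hne (Subtype.ext h)) hx hy hxy
  · rintro x ⟨X, hX⟩ hx
    by_contra hcon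
    rw [not_le, Set.two_lt_ncard_iff] at hcon
    obtain ⟨a, b, c, ha, hb, hc, hab, hac, hbc⟩ := hcon
    rw [SimpleGraph.mem_neighborSet] at ha hb hc
    have hout : ∀ y, (bars Γ (MaxCl.verts (Γ := Γ))).Adj x y → y ∉ X :=
      fun y hy h => hy.2 ⟨X, hX⟩ ⟨hx, h⟩
    refine two_out hcl hX hx (fun Y hY hxY => ?_) ha.1 hb.1 hc.1 (hout a ha) (hout b hb)
      (hout c hc) hab hac hbc
    by_contra hne
    rcases mem_or_mem hcl hY hX hne hxY hx ha.1 with h1 | h1
    · exact ha.2 ⟨Y, hY⟩ ⟨hxY, h1⟩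
    · exact hout a ha h1
  · intro x hx
    have key : ∀ a b c, Γ.Adj x a → Γ.Adj x b → Γ.Adj x c → Γ.Adj a b → Γ.Adj a c →
        Γ.Adj b c → False := by
      intro a b c h1 h2 h3 h4 h6 h7
      obtain ⟨Y, hY, hxY, -⟩ := exists_max_four h1 h2 h3 h4 h6 h7
      exact hx ⟨Y, hY⟩ hxY
    have hfin : (Γ.neighborSet x).Finite := Set.toFinite _
    have hlt : (Γ.neighborSet x).ncard < 6 := by
      by_contra hge
      rw [not_lt] at hge
      have h6 : 6 ≤ hfin.toFinset.card := by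
        rw [← Set.ncard_eq_toFinset_card _ hfin]; exact hge
      obtain ⟨a, ha, b, hb, c, hc, hab, hac, hbc⟩ := triangle_of_six (Γ := Γ) h6 (by
        intro y hy z hz w hw hyz hyw hzw
        rw [Set.Finite.mem_toFinset] at hy hz hw
        exact hcl x y z w hy hz hw hyz hyw hzw)
      rw [Set.Finite.mem_toFinset] at ha hb hc
      exact key a b c ha hb hc hab hac hbc
    rcases Nat.lt_or_ge (Γ.neighborSet x).ncard 5 with h5 | h5
    · exact Or.inl (by omega)
    · refine Or.inr ⟨by omega, fun y hxy => ?_⟩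
      by_contra hcon
      rw [not_le] at hcon
      have hsub : Γ.neighborSet x ⊆ ({y} ∪ {z | Γ.Adj x z ∧ Γ.Adj y z}) ∪
          {z | Γ.Adj x z ∧ z ≠ y ∧ ¬ Γ.Adj y z} := by
        intro z hz
        rw [SimpleGraph.mem_neighborSet] at hz
        by_cases h1 : z = y
        · exact Or.inl (Or.inl h1)
        · by_cases h2 : Γ.Adj y z
          · exact Or.inl (Or.inr ⟨hz, h2⟩)
          · exact Or.inr ⟨hz, h1, h2⟩
      have h1 := Set.ncard_le_ncard hsub (Set.toFinite _)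
      have h2 := Set.ncard_union_le ({y} ∪ {z | Γ.Adj x z ∧ Γ.Adj y z})
        {z | Γ.Adj x z ∧ z ≠ y ∧ ¬ Γ.Adj y z}
      have h3 := Set.ncard_union_le ({y} : Set V) {z | Γ.Adj x z ∧ Γ.Adj y z}
      rw [Set.ncard_singleton] at h3
      have h4 : 2 < {z | Γ.Adj x z ∧ z ≠ y ∧ ¬ Γ.Adj y z}.ncard := by omega
      rw [Set.two_lt_ncard_iff] at h4
      obtain ⟨a, b, c, ha, hb, hc, hab, hac, hbc⟩ := h4
      have hadj : ∀ a b, Γ.Adj x a ∧ a ≠ y ∧ ¬ Γ.Adj y a → Γ.Adj x b ∧ b ≠ y ∧ ¬ Γ.Adj y b →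
          a ≠ b → Γ.Adj a b := by
        intro a b ha hb hab
        by_contra hn
        have h6 := hcl x y a b hxy ha.1 hb.1 ha.2.1.symm hb.2.1.symm hab
        rcases h6 with h6 | h6 | h6
        · exact ha.2.2 h6
        · exact hb.2.2 h6
        · exact hn h6
      exact key a b c ha.1 hb.1 hc.1 (hadj a b ha hb hab) (hadj a c ha hc hac)
        (hadj b c hb hc hbc)

/-- The characterization for claw-free graphs. -/
theorem claw_iff (hcl : ClawFree Γ) :
    (∀ᵐ p : V → E3 ∂volume, IsGreatest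
      {x : ℤ | ∃ (m : ℕ) (X : Fin m → Finset V), IsCover Γ X ∧ x = freedom Γ X}
      (finrank ℝ (Flex Γ p) : ℤ)) ∧
    (4 ≤ Fintype.card V → (GenericallyRigid Γ ↔
      ∀ (m : ℕ) (X : Fin m → Finset V), IsCover Γ X → freedom Γ X ≤ 6)) := by
  classical
  have hfin : Finite (MaxCl Γ) :=
    inferInstanceAs (Finite {X : Finset V // Maximal (Cluster Γ) X})
  cases nonempty_fintype (MaxCl Γ)
  exact five_iff Γ MaxCl.verts (claw_fiveSystem hcl) fun i =>
    ae_rigid_of_RX i.2.prop.rx.1 i.2.prop.rx.2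

end

end Pool.Agent.BJ
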