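import Pool.Agent.Lib.MP_37c7bf_BJ.Claw
import Pool.Agent.Lib.MP_37c7bf_BJ.Cover

/-!
Claw-free graphs.
-/

open MeasureTheory Module Topology
open scoped RealInnerProductSpace

namespace Pool.Agent.BJ

open Pool.Agent.H26R (E3 crossE GenericallyRigid Flex RX)

section
variable {V : Type} [DecidableEq V]

/-- The maximal clusters. -/
def MaxCl (Γ : SimpleGraph V) : Type := {X : Finset V // Maximal (Cluster Γ) X}

/-- The vertex set of a maximal cluster. -/
def MaxCl.verts {Γ : SimpleGraph V} (X : MaxCl Γ) : Finset V := X.1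

/-- Every vertex of degree five lies in a complete graph on four vertices. -/
def FiveInK4 (Γ : SimpleGraph V) : Prop :=
  ∀ v, (Γ.neighborSet v).ncard = 5 → ∃ x y z, Γ.Adj v x ∧ Γ.Adj v y ∧ Γ.Adj v z ∧
    Γ.Adj x y ∧ Γ.Adj x z ∧ Γ.Adj y z

variable [Fintype V] {Γ : SimpleGraph V}

/-- Vertex sets inducing infinitesimally rigid graphs move rigidly in every flex. -/
theorem ae_rigid_of_RX {Γ : SimpleGraph V} {X : Finset V} (h4 : 4 ≤ X.card)
    (h : RX Γ (X : Set V)) :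
    ∀ᵐ p : V → E3 ∂volume, ∀ q ∈ Flex Γ p, ∃ T : Kil, ∀ x ∈ X, q x = ev (p x) T := by
  obtain ⟨f⟩ : Nonempty (Fin 4 ↪ X) := by
    rw [Function.Embedding.nonempty_iff_card_le, Fintype.card_fin, Fintype.card_coe]
    exact h4
  have hne : ∀ i j : Fin 4, i ≠ j → (f i : V) ≠ f j := fun i j hij h =>
    hij (f.injective (Subtype.ext h))
  filter_upwards [h.ae, Pool.Agent.H26R.ae_spans (hne 0 1 (by decide)) (hne 0 2 (by decide))
    (hne 0 3 (by decide)) (hne 1 2 (by decide)) (hne 1 3 (by decide))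
    (hne 2 3 (by decide))] with p h1 h2 q hq
  have hs : Pool.Agent.H26R.Spans (fun x : ((X : Finset V) : Set V) => p x) :=
    ⟨⟨f 0, (f 0).2⟩, ⟨f 1, (f 1).2⟩, ⟨f 2, (f 2).2⟩, ⟨f 3, (f 3).2⟩, h2⟩
  have h3 := Pool.Agent.H26R.Flex_eq_range_triv hs h1
  have h5 : (fun x : ((X : Finset V) : Set V) => q x) ∈
      Flex (Γ.induce ((X : Finset V) : Set V)) (fun x : ((X : Finset V) : Set V) => p x) := by
    rw [Pool.Agent.H26R.mem_Flex] at hq ⊢
    exact fun i j hij => hq i j hij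
  rw [h3] at h5
  obtain ⟨z, hz⟩ := h5
  exact ⟨z, fun x hx => (congrFun hz ⟨x, hx⟩).symm⟩

/-- The maximal clusters of a claw-free graph form a system of bodies. -/
theorem claw_pointSystem (hcl : ClawFree Γ) (h5 : FiveInK4 Γ) :
    PointSystem Γ (MaxCl.verts (Γ := Γ)) := by
  refine ⟨?_, ?_, ?_, ?_, ?_⟩
  · rintro ⟨X, hX⟩
    exact le_trans (by norm_num) hX.prop.rx.1
  · rintro x ⟨X, hX⟩ ⟨Y, hY⟩ ⟨Z, hZ⟩ hx hy hz
    rcases not_three hcl hX hY hZ hx hy hz with h | h | h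
    · exact Or.inl (Subtype.ext h)
    · exact Or.inr (Or.inl (Subtype.ext h))
    · exact Or.inr (Or.inr (Subtype.ext h))
  · rintro x ⟨X, hX⟩ ⟨Y, hY⟩ hne hx hy y hxy
    exact mem_or_mem hcl hX hY (fun h => hne (Subtype.ext h)) hx hy hxy
  · rintro x ⟨X, hX⟩ hx
    by_contra hcon
    rw [not_le, Set.two_lt_ncard_iff] at hcon
    obtain ⟨a, b, c, ha, hb, hc, hab, hac, hbc⟩ := hcon
    rw [SimpleGraph.mem_neighborSet] at ha hb hc
    have hout : ∀ y, (bars Γ (MaxCl.verts (Γ := Γ))).Adj x y → y ∉ X :=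
      fun y hy h => hy.2 ⟨X, hX⟩ ⟨hx, h⟩
    refine two_out hcl hX hx (fun Y hY hxY => ?_) ha.1 hb.1 hc.1 (hout a ha) (hout b hb)
      (hout c hc) hab hac hbc
    by_contra hne
    rcases mem_or_mem hcl hY hX hne hxY hx ha.1 with h1 | h1
    · exact ha.2 ⟨Y, hY⟩ ⟨hxY, h1⟩
    · exact hout a ha h1
  · intro x hx
    by_contra hcon
    rw [not_le] at hcon
    have key : ∀ a b c, Γ.Adj x a → Γ.Adj x b → Γ.Adj x c → Γ.Adj a b → Γ.Adj a c →
        Γ.Adj b c → False := by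
      intro a b c h1 h2 h3 h4 h6 h7
      obtain ⟨Y, hY, hxY, -⟩ := exists_max_four h1 h2 h3 h4 h6 h7
      exact hx ⟨Y, hY⟩ hxY
    rcases Nat.lt_or_ge (Γ.neighborSet x).ncard 6 with hlt | hge
    · obtain ⟨a, b, c, h1, h2, h3, h4, h6, h7⟩ := h5 x (by omega)
      exact key a b c h1 h2 h3 h4 h6 h7
    · have hfin : (Γ.neighborSet x).Finite := Set.toFinite _
      have h6 : 6 ≤ hfin.toFinset.card := by
        rw [← Set.ncard_eq_toFinset_card _ hfin]; exact hge
      obtain ⟨a, ha, b, hb, c, hc, hab, hac, hbc⟩ := triangle_of_six (Γ := Γ) h6 (by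
        intro y hy z hz w hw hyz hyw hzw
        rw [Set.Finite.mem_toFinset] at hy hz hw
        exact hcl x y z w hy hz hw hyz hyw hzw)
      rw [Set.Finite.mem_toFinset] at ha hb hc
      exact key a b c ha hb hc hab hac hbc

/-- The characterization for claw-free graphs. -/
theorem claw_cover (hcl : ClawFree Γ) (h5 : FiveInK4 Γ) :
    (∀ᵐ p : V → E3 ∂volume, IsGreatest
      {x : ℤ | ∃ (m : ℕ) (X : Fin m → Finset V), IsCover Γ X ∧ x = freedom Γ X}
      (finrank ℝ (Flex Γ p) : ℤ)) ∧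
    (4 ≤ Fintype.card V → (GenericallyRigid Γ ↔
      ∀ (m : ℕ) (X : Fin m → Finset V), IsCover Γ X → freedom Γ X ≤ 6)) := by
  classical
  have hfin : Finite (MaxCl Γ) :=
    inferInstanceAs (Finite {X : Finset V // Maximal (Cluster Γ) X})
  cases nonempty_fintype (MaxCl Γ)
  exact cover_iff Γ MaxCl.verts (claw_pointSystem hcl h5) fun i =>
    ae_rigid_of_RX i.2.prop.rx.1 i.2.prop.rx.2

end

end Pool.Agent.BJ
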