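import Pool.Agent.Lib.MP_37c7bf_BJ.Weld

/-!
Counting: how `val` changes when a joint is removed, simple structures, bodies of low degree.
-/

set_option linter.unusedSectionVars false

open MeasureTheory Module Topology
open scoped RealInnerProductSpace

namespace Pool.Agent.BJ

open Pool.Agent.H26R (E3 crossE)

section
variable {ι J : Type} [Fintype ι] [DecidableEq J] {a b : J → ι} {E : Finset J} {r : Setoid ι}

open Classical in
lemma val_eq : val a b E r = 6 * (Nat.card (Quotient r) : ℤ) -
    ∑ e : Sym2 (Quotient r), if e.IsDiag then 0 else hh (dd a b E r e) := by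
  unfold val
  rw [Nat.card_eq_fintype_card]

lemma hh_zero : hh 0 = 0 := rfl

lemma hh_one : hh 1 = 3 := rfl

lemma val_empty : val a b ∅ r = 6 * (Nat.card (Quotient r) : ℤ) := by
  classical
  rw [val_eq]
  rw [Finset.sum_eq_zero, sub_zero]
  intro e _
  unfold dd
  rw [Finset.filter_empty, Finset.card_empty, hh_zero, ite_self]

lemma dd_erase_ne {j : J} {e : Sym2 (Quotient r)} (h : pr a b r j ≠ e) :
    dd a b (E.erase j) r e = dd a b E r e := by
  classical
  unfold dd
  rw [Finset.filter_erase, Finset.erase_eq_of_notMem]
  intro h2
  exact h (Finset.mem_filter.1 h2).2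

lemma dd_erase {j : J} (hj : j ∈ E) :
    dd a b E r (pr a b r j) = dd a b (E.erase j) r (pr a b r j) + 1 := by
  classical
  unfold dd
  rw [Finset.filter_erase]
  have h : j ∈ E.filter fun k => pr a b r k = pr a b r j := Finset.mem_filter.2 ⟨hj, rfl⟩
  exact (Finset.card_erase_add_one h).symm

lemma isDiag_pr {j : J} : (pr a b r j).IsDiag ↔ r (a j) (b j) := by
  unfold pr
  rw [Sym2.mk_isDiag_iff]
  exact Quotient.eq

/-- A joint inside a class does not count. -/
lemma val_erase_loop {j : J} (_hj : j ∈ E) (h : r (a j) (b j)) :
    val a b (E.erase j) r = val a b E r := by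
  classical
  rw [val_eq, val_eq]
  congr 1
  apply Finset.sum_congr rfl
  intro e _
  split_ifs with he
  · rfl
  · rw [dd_erase_ne]
    rintro rfl
    exact he (isDiag_pr.2 h)

/-- Removing a joint between different classes. -/
lemma val_erase {j : J} (hj : j ∈ E) (h : ¬ r (a j) (b j)) :
    val a b (E.erase j) r = val a b E r +
      (hh (dd a b (E.erase j) r (pr a b r j) + 1) - hh (dd a b (E.erase j) r (pr a b r j))) := by
  classical
  rw [val_eq, val_eq]
  have hd : ¬ (pr a b r j).IsDiag := fun h2 => h (isDiag_pr.1 h2)
  rw [← Finset.add_sum_erase _ _ (Finset.mem_univ (pr a b r j)),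
    ← Finset.add_sum_erase _ _ (Finset.mem_univ (pr a b r j))]
  have e1 : ∑ e ∈ Finset.univ.erase (pr a b r j),
      (if e.IsDiag then 0 else hh (dd a b (E.erase j) r e)) =
      ∑ e ∈ Finset.univ.erase (pr a b r j), (if e.IsDiag then 0 else hh (dd a b E r e)) := by
    apply Finset.sum_congr rfl
    intro e he
    rw [dd_erase_ne (Finset.ne_of_mem_erase he).symm]
  rw [e1, if_neg hd, if_neg hd, dd_erase hj]
  ring

/-- No joint inside a class, no two joints between the same classes. -/
def Simple (a b : J → ι) (E : Finset J) (r : Setoid ι) : Prop :=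
  (∀ j ∈ E, ¬ r (a j) (b j)) ∧ ∀ j ∈ E, ∀ k ∈ E, pr a b r j = pr a b r k → j = k

lemma val_simple (h : Simple a b E r) :
    val a b E r = 6 * (Nat.card (Quotient r) : ℤ) - 3 * (E.card : ℤ) := by
  classical
  induction E using Finset.induction_on with
  | empty => rw [val_empty]; simp
  | insert j E hj ih =>
    have hs : Simple a b E r :=
      ⟨fun k hk => h.1 k (Finset.mem_insert_of_mem hk), fun k hk l hl =>
        h.2 k (Finset.mem_insert_of_mem hk) l (Finset.mem_insert_of_mem hl)⟩
    have h1 := val_erase (a := a) (b := b) (r := r) (Finset.mem_insert_self j E)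
      (h.1 j (Finset.mem_insert_self j E))
    rw [Finset.erase_insert hj, ih hs] at h1
    have h2 : dd a b E r (pr a b r j) = 0 := by
      unfold dd
      rw [Finset.card_eq_zero, Finset.filter_eq_empty_iff]
      intro k hk hk2
      have := h.2 k (Finset.mem_insert_of_mem hk) j (Finset.mem_insert_self j E) hk2
      exact hj (this ▸ hk)
    rw [h2, zero_add, hh_one, hh_zero] at h1
    rw [Finset.card_insert_of_notMem hj]
    push_cast
    linarith

open Classical in
/-- The active joints at the class of the body `c`. -/
noncomputable def star (a b : J → ι) (E : Finset J) (r : Setoid ι) (c : ι) : Finset J :=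
  E.filter fun j => r c (a j) ∨ r c (b j)

lemma mem_pr {c : ι} {j : J} : (Quotient.mk r c) ∈ pr a b r j ↔ r c (a j) ∨ r c (b j) := by
  unfold pr
  rw [Sym2.mem_iff]
  constructor
  · rintro (h | h)
    · left; exact Quotient.exact h
    · right; exact Quotient.exact h
  · rintro (h | h)
    · left; exact Quotient.sound h
    · right; exact Quotient.sound h

open Classical in
/-- the number of active joints at a class -/
noncomputable def dg (a b : J → ι) (E : Finset J) (r : Setoid ι) (C : Quotient r) : ℕ :=
  (E.filter fun j => C ∈ pr a b r j).card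

lemma dg_mk (c : ι) : dg a b E r (Quotient.mk r c) = (star a b E r c).card := by
  classical
  unfold dg star
  congr 1
  apply Finset.filter_congr
  intro j _
  exact mem_pr

open Classical in
lemma sum_dg (h : ∀ j ∈ E, ¬ r (a j) (b j)) : ∑ C : Quotient r, dg a b E r C = 2 * E.card := by
  have h1 : ∑ C : Quotient r, dg a b E r C =
      ∑ C : Quotient r, ∑ j ∈ E, if C ∈ pr a b r j then 1 else 0 := by
    apply Finset.sum_congr rfl
    intro C _
    unfold dg
    rw [Finset.card_filter]
  rw [h1, Finset.sum_comm]
  have h2 : ∀ j ∈ E, (∑ C : Quotient r, if C ∈ pr a b r j then 1 else 0) = 2 := by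
    intro j hj
    have h3 := Sym2.card_toFinset_of_not_isDiag (pr a b r j) (fun h4 => h j hj (isDiag_pr.1 h4))
    rw [← h3, ← Finset.card_filter]
    congr 1
    ext C
    simp
  rw [Finset.sum_congr rfl h2, Finset.sum_const, smul_eq_mul, mul_comm]

/-- all classes with a joint merged -/
def merged (a b : J → ι) (E : Finset J) (r : Setoid ι) : Setoid ι where
  r x y := r x y ∨ (0 < dg a b E r (Quotient.mk r x) ∧ 0 < dg a b E r (Quotient.mk r y))
  iseqv := by
    refine ⟨fun x => Or.inl (r.refl x), ?_, ?_⟩
    · rintro x y (h | h)
      · exact Or.inl (r.symm h)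
      · exact Or.inr ⟨h.2, h.1⟩
    · rintro x y z (h | h) (h' | h')
      · exact Or.inl (r.trans h h')
      · right
        have e : Quotient.mk r x = Quotient.mk r y := Quotient.sound h
        rw [e]
        exact h'
      · right
        have e : Quotient.mk r y = Quotient.mk r z := Quotient.sound h'
        rw [← e]
        exact h
      · exact Or.inr ⟨h.1, h'.2⟩

open Classical in
lemma card_merged (hpos : ∃ c, 0 < dg a b E r (Quotient.mk r c)) :
    (Finset.univ.filter fun C : Quotient r => dg a b E r C = 0).card + 1 ≤
      Nat.card (Quotient (merged a b E r)) := by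
  let f : ι → Option {C : Quotient r // dg a b E r C = 0} := fun x =>
    if h : dg a b E r (Quotient.mk r x) = 0 then some ⟨Quotient.mk r x, h⟩ else none
  have hf : ∀ x y, merged a b E r x y → f x = f y := by
    rintro x y (h | h)
    · have e : Quotient.mk r x = Quotient.mk r y := Quotient.sound h
      simp only [f, e]
    · simp only [f, h.1.ne', h.2.ne', dite_false]
  let g : Quotient (merged a b E r) → Option {C : Quotient r // dg a b E r C = 0} :=
    Quotient.lift f hf
  have hg : Function.Surjective g := by
    rintro (_ | ⟨C, hC⟩)
    · obtain ⟨c, hc⟩ := hpos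
      refine ⟨Quotient.mk _ c, ?_⟩
      change f c = none
      simp only [f, hc.ne', dite_false]
    · induction C using Quotient.inductionOn with
      | h c =>
        refine ⟨Quotient.mk _ c, ?_⟩
        change f c = some _
        simp only [f, hC, dite_true]
  have h1 := Nat.card_le_card_of_surjective g hg
  have h2 : Nat.card (Option {C : Quotient r // dg a b E r C = 0}) =
      (Finset.univ.filter fun C : Quotient r => dg a b E r C = 0).card + 1 := by
    rw [Nat.card_eq_fintype_card, Fintype.card_option, Fintype.card_subtype]
  rw [← h2]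
  exact h1

/-- If no coarser partition has larger expected dimension, some class has one, two or three
joints. -/
theorem exists_low_degree (hs : Simple a b E r) (hne : E.Nonempty)
    (h : ∀ s, r ≤ s → val a b E s ≤ val a b E r) :
    ∃ c : ι, (star a b E r c).Nonempty ∧ (star a b E r c).card ≤ 3 := by
  classical
  by_contra hcon
  push Not at hcon
  have hle : r ≤ merged a b E r := fun x y hxy => Or.inl hxy
  have h1 := h _ hle
  -- all joints are loops in the merged structure
  have h2 : val a b E (merged a b E r) = 6 * (Nat.card (Quotient (merged a b E r)) : ℤ) := by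
    have key : ∀ F ⊆ E, val a b F (merged a b E r) = 6 * (Nat.card (Quotient (merged a b E r)) : ℤ) := by
      intro F
      induction F using Finset.induction_on with
      | empty => intro _; exact val_empty
      | insert j F hj ih =>
        intro hF
        have hjE : j ∈ E := hF (Finset.mem_insert_self j F)
        have hl : merged a b E r (a j) (b j) := by
          right
          constructor
          · unfold dg
            rw [Finset.card_pos]
            exact ⟨j, Finset.mem_filter.2 ⟨hjE, mem_pr.2 (Or.inl (r.refl _))⟩⟩
          · unfold dg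
            rw [Finset.card_pos]
            exact ⟨j, Finset.mem_filter.2 ⟨hjE, mem_pr.2 (Or.inr (r.refl _))⟩⟩
        have h3 := val_erase_loop (a := a) (b := b) (Finset.mem_insert_self j F) hl
        rw [Finset.erase_insert hj] at h3
        rw [← h3]
        exact ih (fun k hk => hF (Finset.mem_insert_of_mem hk))
    exact key E (Finset.Subset.refl E)
  have h3 := val_simple hs
  obtain ⟨j, hj⟩ := hne
  have h4 := card_merged (a := a) (b := b) (E := E) (r := r) ⟨a j, by
    unfold dg
    rw [Finset.card_pos]
    exact ⟨j, Finset.mem_filter.2 ⟨hj, mem_pr.2 (Or.inl (r.refl _))⟩⟩⟩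
  have h5 := sum_dg (a := a) (b := b) (E := E) (r := r) hs.1
  -- every class with a joint has at least four
  have h6 : 4 * (Finset.univ.filter fun C : Quotient r => ¬ dg a b E r C = 0).card ≤
      ∑ C : Quotient r, dg a b E r C := by
    have h7 : ∑ C ∈ Finset.univ.filter (fun C : Quotient r => ¬ dg a b E r C = 0), 4 ≤
        ∑ C ∈ Finset.univ.filter (fun C : Quotient r => ¬ dg a b E r C = 0), dg a b E r C := by
      apply Finset.sum_le_sum
      intro C hC
      have hC2 := (Finset.mem_filter.1 hC).2
      induction C using Quotient.inductionOn with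
      | h c =>
        rw [dg_mk] at hC2 ⊢
        have := hcon c (Finset.card_pos.1 (Nat.pos_of_ne_zero hC2))
        omega
    rw [Finset.sum_const, smul_eq_mul, mul_comm] at h7
    refine h7.trans ?_
    exact Finset.sum_le_sum_of_subset (Finset.filter_subset _ _)
  have h8 := Finset.card_filter_add_card_filter_not (s := (Finset.univ : Finset (Quotient r)))
    (fun C : Quotient r => dg a b E r C = 0)
  have h9 : Nat.card (Quotient r) = (Finset.univ : Finset (Quotient r)).card := by
    rw [Nat.card_eq_fintype_card]; rfl
  rw [← h9] at h8
  rw [h5] at h6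
  rw [h2, h3] at h1
  omega

end

end Pool.Agent.BJ
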