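import Pool.Agent.Lib.MP_37c7bf_co_helper26.Defs

/-!
Definitions used in the statements: covers of the vertex set of a graph and their freedom,
infinitesimal motions, rigid vertex sets, systems of bodies.
-/

set_option autoImplicit false

open MeasureTheory

namespace Pool.Agent.BJ

open Pool.Agent.H26R (E3 GenericallyRigid)

section
variable {V : Type}

/-- A cover of the vertex set of `Γ` by finite sets: every vertex lies in one or two of the sets,
and all neighbours of a vertex lying in two of them lie in the union of these two. -/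
structure IsCover (Γ : SimpleGraph V) {m : ℕ} (X : Fin m → Finset V) : Prop where
  cover : ∀ v, ∃ i, v ∈ X i
  two : ∀ v i j k, v ∈ X i → v ∈ X j → v ∈ X k → i = j ∨ i = k ∨ j = k
  closed : ∀ v i j, i ≠ j → v ∈ X i → v ∈ X j → ∀ w, Γ.Adj v w → w ∈ X i ∨ w ∈ X j

/-- The rank of `d` common vertices of two rigid bodies: 0, 3, 5, 6, 6, ... -/
def jointRank : ℕ → ℤ
  | 0 => 0
  | 1 => 3
  | 2 => 5
  | _ => 6

/-- The correction for small sets: 6, 3, 1, 0, 0, ... -/
def smallCorr : ℕ → ℤ
  | 0 => 6
  | 1 => 3
  | 2 => 1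
  | _ => 0

open Classical in
/-- The number of common vertices of two sets of the cover. -/
noncomputable def commonNo {m : ℕ} (X : Fin m → Finset V) (i j : Fin m) : ℕ :=
  (X i ∩ X j).card

open Classical in
/-- The number of edges from `X i` to `X j` which lie in no set of the cover. -/
noncomputable def crossNo [Fintype V] (Γ : SimpleGraph V) {m : ℕ} (X : Fin m → Finset V)
    (i j : Fin m) : ℕ :=
  (Finset.univ.filter fun q : V × V => Γ.Adj q.1 q.2 ∧ q.1 ∈ X i ∧ q.2 ∈ X j ∧
    ∀ k, ¬ (q.1 ∈ X k ∧ q.2 ∈ X k)).card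

/-- The freedom of a cover. -/
noncomputable def freedom [Fintype V] (Γ : SimpleGraph V) {m : ℕ} (X : Fin m → Finset V) : ℤ :=
  6 * (m : ℤ) - ∑ q ∈ (Finset.univ : Finset (Fin m × Fin m)).filter (fun q => q.1 < q.2),
    min 6 (jointRank (commonNo X q.1 q.2) + (crossNo Γ X q.1 q.2 : ℤ)) -
    ∑ i, smallCorr (X i).card

/-- `q` is an infinitesimal motion of the framework `(Γ, p)`. -/
def IsInfMotion (Γ : SimpleGraph V) (p q : V → E3) : Prop :=
  ∀ v w, Γ.Adj v w → inner ℝ (p v - p w) (q v - q w) = 0

/-- The space of infinitesimal motions of the framework `(Γ, p)`. -/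
def InfMotions (Γ : SimpleGraph V) (p : V → E3) : Submodule ℝ (V → E3) where
  carrier := {q | IsInfMotion Γ p q}
  add_mem' := by
    intro a b ha hb v w h
    have e : (a + b) v - (a + b) w = (a v - a w) + (b v - b w) := by
      simp only [Pi.add_apply]; abel
    rw [e, inner_add_right, ha v w h, hb v w h, add_zero]
  zero_mem' := by
    intro v w _
    simp
  smul_mem' := by
    intro r a ha v w h
    have e : (r • a) v - (r • a) w = r • (a v - a w) := by
      simp only [Pi.smul_apply, smul_sub]
    rw [e, inner_smul_right, ha v w h, mul_zero]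

/-- The number of infinitesimal degrees of freedom of the framework `(Γ, p)` (including the
motions of the whole space): the dimension of its space of infinitesimal motions. -/
noncomputable def dof (Γ : SimpleGraph V) (p : V → E3) : ℕ :=
  Module.finrank ℝ (InfMotions Γ p)

/-- The velocity at the point `x` of the infinitesimal rigid motion with angular velocity `ω`
and translation `t`. -/
noncomputable def rigidVelocity (ω t x : E3) : E3 :=
  WithLp.toLp 2 ![ω 1 * x 2 - ω 2 * x 1 + t 0, ω 2 * x 0 - ω 0 * x 2 + t 1,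
    ω 0 * x 1 - ω 1 * x 0 + t 2]

/-- The vertex set `B` is rigid in `Γ`: at almost all realizations every infinitesimal motion
of `Γ` is an infinitesimal rigid motion on `B`. -/
def RigidIn [Fintype V] (Γ : SimpleGraph V) (B : Finset V) : Prop :=
  ∀ᵐ p : V → E3 ∂volume, ∀ q : V → E3, IsInfMotion Γ p q → ∃ ω t : E3, ∀ v ∈ B,
    q v = rigidVelocity ω t (p v)

/-- A system of bodies, ball joints, bars and free vertices in the graph `Γ`: every body `B i`
has at least three vertices and is rigid; every vertex lies in at most two bodies; the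
neighbours of a vertex in two bodies lie in these bodies; a vertex in one body is joined to at
most two vertices with which it has no body in common; a vertex in no body has at most four
neighbours, or five neighbours each of which has at least two common neighbours with it. -/
structure Bodies [Fintype V] {ι : Type} (Γ : SimpleGraph V) (B : ι → Finset V) : Prop where
  three : ∀ i, 3 ≤ (B i).card
  rigid : ∀ i, Γ.IsClique (B i : Set V) ∨
    (4 ≤ (B i).card ∧ GenericallyRigid (Γ.induce (B i : Set V))) ∨ RigidIn Γ (B i)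
  two : ∀ v i j k, v ∈ B i → v ∈ B j → v ∈ B k → i = j ∨ i = k ∨ j = k
  joint : ∀ v i j, i ≠ j → v ∈ B i → v ∈ B j → ∀ w, Γ.Adj v w → w ∈ B i ∨ w ∈ B j
  bar : ∀ v i, v ∈ B i → {w | Γ.Adj v w ∧ ∀ j, ¬ (v ∈ B j ∧ w ∈ B j)}.ncard ≤ 2
  free : ∀ v, (∀ i, v ∉ B i) → (Γ.neighborSet v).ncard ≤ 4 ∨
    ((Γ.neighborSet v).ncard = 5 ∧ ∀ w, Γ.Adj v w → 2 ≤ {x | Γ.Adj v x ∧ Γ.Adj w x}.ncard)

end

end Pool.Agent.BJ
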