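import Pool.Agent.Lib.MP_37c7bf_BJ.LA

/-!
Bars at points of degree at most two.
-/

open MeasureTheory Module Topology
open scoped RealInnerProductSpace

namespace Pool.Agent.BJ

open Pool.Agent.H26R (E3 crossE)

section
variable {ι V : Type}

lemma cyc_mem_insert {c : Con V ι} {C : Set (Con V ι)} {p : V → E3} {S : ι → Kil} :
    S ∈ ZG (insert c C) p ↔ c.Holds p S ∧ S ∈ ZG C p := by
  constructor
  · intro h
    exact ⟨h c (Set.mem_insert _ _), fun d hd => h d (Set.mem_insert_of_mem _ hd)⟩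
  · rintro ⟨h1, h2⟩ d hd
    rcases hd with rfl | hd
    · exact h1
    · exact h2 d hd

lemma cyc_mem_single {c : Con V ι} {p : V → E3} {S : ι → Kil} :
    S ∈ ZG {c} p ↔ c.Holds p S := by
  constructor
  · intro h
    exact h c rfl
  · rintro h d rfl
    exact h

lemma cyc_bar {x y : V} (hxy : x ≠ y) {i j : ι} {p : V → E3} {S : ι → Kil} :
    (Con.bar x y i j).Holds p S ↔ ⟪ev (p y) (S i - S j), p x - p y⟫ = 0 := by
  rw [← ev_along, ← bar_eq_inner]
  exact ⟨fun h => h hxy, fun h _ => h⟩

/-- The difference of the motions of two bodies. -/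
noncomputable def cyc_phi (A C : ι) : (ι → Kil) →ₗ[ℝ] Kil :=
  LinearMap.proj (R := ℝ) (φ := fun _ : ι => Kil) A - LinearMap.proj C

lemma cyc_phi_apply (A C : ι) (S : ι → Kil) : cyc_phi A C S = S A - S C := rfl

end

section
variable {ι V : Type} [Finite ι] [Finite V] {C0 : Set (Con V ι)}

/-- A point of body `C` on no constraint which is fixed relative to body `A`. -/
theorem leaf0 {y : V} {A C : ι} (h0 : ∀ c ∈ C0, c.Avoids y)
    (h : Imp C0 {.joint y A C}) : Imp C0 {.weld A C} := by
  classical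
  intro p hp S hS
  rw [cyc_mem_single]
  change S A = S C
  by_contra hne
  obtain ⟨t, ht, ht'⟩ := ((GoodG.stable (ι := ι) p hp y).and
    (ae_ev_ne (sub_ne_zero.2 hne))).exists
  rw [← ZG_update h0 p t] at hS
  have h1 := cyc_mem_single.1 (h _ ht hS)
  have h2 : ev (Function.update p y t y) (S A) = ev (Function.update p y t y) (S C) := h1
  rw [Function.update_self] at h2
  apply ht'
  rw [map_sub, h2, sub_self]

/-- A point of body `C` on at most one bar which is fixed relative to body `A`. -/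
theorem leaf1 {y y' : V} (hne : y ≠ y') {A C C' : ι} (h0 : ∀ c ∈ C0, c.Avoids y)
    (h : Imp (insert (.bar y y' C C') C0) {.joint y A C}) :
    Imp (insert (.bar y y' C C') C0) {.weld A C} := by
  classical
  obtain ⟨p, hp⟩ := exists_goodG (V := V) (ι := ι)
  set K := ZG C0 p with hK
  set W := K.map (cyc_phi A C) with hW
  have hkey : ∀ t, GoodG ι (Function.update p y t) →
      finrank ℝ W ≤ finrank ℝ ↥(W ⊓ LinearMap.ker (ev t)) + 1 := by
    intro t ht
    have h3 : (K ⊓ LinearMap.ker (barf t (p y') C C')).map (cyc_phi A C) ≤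
        W ⊓ LinearMap.ker (ev t) := by
      rintro _ ⟨S, ⟨hS, hlS⟩, rfl⟩
      refine ⟨⟨S, hS, rfl⟩, ?_⟩
      have hlS' : barf t (p y') C C' S = 0 := hlS
      rw [barf_apply] at hlS'
      have hS2 : S ∈ ZG (insert (.bar y y' C C') C0) (Function.update p y t) := by
        rw [cyc_mem_insert]
        refine ⟨fun _ => ?_, ?_⟩
        · rw [Function.update_self, Function.update_of_ne hne.symm]
          exact hlS'
        · rw [ZG_update h0]
          exact hS
      have h4 : ev (Function.update p y t y) (S A) = ev (Function.update p y t y) (S C) :=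
        cyc_mem_single.1 (h _ ht hS2)
      rw [Function.update_self] at h4
      rw [SetLike.mem_coe, LinearMap.mem_ker, cyc_phi_apply, map_sub, h4, sub_self]
    calc finrank ℝ W ≤
          finrank ℝ ((K ⊓ LinearMap.ker (barf t (p y') C C')).map (cyc_phi A C)) + 1 :=
          finrank_map_inf_ker K _ _
      _ ≤ _ := by
          have := Submodule.finrank_mono h3
          omega
  have hgen : ∀ᵐ t : E3 ∂volume, GoodG ι (Function.update p y t) ∧
      W ⊓ LinearMap.ker (ev t) = ⊥ := by
    by_cases hW2 : finrank ℝ W ≤ 2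
    · filter_upwards [GoodG.stable (ι := ι) p hp y, eval_two W hW2] with t ht ht'
      exact ⟨ht, ht'⟩
    · exfalso
      by_cases hW3 : finrank ℝ W = 3
      · obtain ⟨t, ht, ht'⟩ := ((GoodG.stable (ι := ι) p hp y).and (eval_three W hW3)).exists
        have := hkey t ht
        omega
      · obtain ⟨t, ht, ht'⟩ := ((GoodG.stable (ι := ι) p hp y).and
          (eval_four W (by omega))).exists
        have := hkey t ht
        omega
  obtain ⟨t, ht, hbot⟩ := hgen.exists
  refine Imp.of_one ht fun S hS => ?_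
  have h4 : ev (Function.update p y t y) (S A) = ev (Function.update p y t y) (S C) :=
    cyc_mem_single.1 (h _ ht hS)
  rw [Function.update_self] at h4
  have h5 : cyc_phi A C S ∈ W ⊓ LinearMap.ker (ev t) := by
    refine ⟨⟨S, ?_, rfl⟩, ?_⟩
    · rw [SetLike.mem_coe, hK, ← ZG_update h0 p t]
      exact (cyc_mem_insert.1 hS).2
    · rw [SetLike.mem_coe, LinearMap.mem_ker, cyc_phi_apply, map_sub, h4, sub_self]
  rw [hbot, Submodule.mem_bot, cyc_phi_apply] at h5
  rw [cyc_mem_single]
  exact sub_eq_zero.1 h5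

/-- Almost every point is not in a given translate of a proper subspace. -/
lemma cyc_notMem {M : Submodule ℝ E3} (hM : M ≠ ⊤) (c : E3) :
    ∀ᵐ v : E3 ∂volume, v - c ∉ M := by
  have h1 : volume ((fun v : E3 => v - c) ⁻¹' (M : Set E3)) = 0 :=
    (measurePreserving_sub_right (volume : Measure E3) c).quasiMeasurePreserving.preimage_null
      (Measure.addHaar_submodule _ M hM)
  rw [ae_iff]
  simp only [not_not]
  exact h1

lemma cyc_ne {e : E3} (he : e ≠ 0) (c : E3) : ∀ᵐ u : E3 ∂volume, ⟪e, u - c⟫ ≠ 0 := by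
  have h1 : (LinearMap.ker (innerₛₗ ℝ e) : Submodule ℝ E3) ≠ ⊤ := by
    intro h
    have h2 : e ∈ LinearMap.ker (innerₛₗ ℝ e) := by
      rw [h]
      exact Submodule.mem_top
    have h3 : ⟪e, e⟫ = 0 := h2
    exact he (inner_self_eq_zero.1 h3)
  filter_upwards [cyc_notMem h1 c] with u hu h
  exact hu h

/-- Two linearly independent vectors: their common orthogonal complement is a line. -/
lemma cyc_orth {d : E3} (hd : d ≠ 0) (c : E3) :
    ∀ᵐ v : E3 ∂volume, ∀ Y : Submodule ℝ E3,
      (∀ a ∈ Y, ⟪a, d⟫ = 0 ∧ ⟪a, v - c⟫ = 0) → finrank ℝ Y ≤ 1 := by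
  have h2 : (Submodule.span ℝ {d} : Submodule ℝ E3) ≠ ⊤ := by
    intro h
    have h4 := finrank_span_le_card (R := ℝ) ({d} : Set E3)
    simp only [Set.toFinset_singleton, Finset.card_singleton] at h4
    rw [h, finrank_top, finrank_euclideanSpace_fin] at h4
    omega
  filter_upwards [cyc_notMem h2 c] with v hv Y hY
  have hli : LinearIndependent ℝ ![d, v - c] := by
    rw [LinearIndependent.pair_iff' hd]
    intro t ht
    exact hv (Submodule.mem_span_singleton.2 ⟨t, ht⟩)
  have h3 : finrank ℝ (Submodule.span ℝ (Set.range ![d, v - c])) = 2 := by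
    rw [finrank_span_eq_card hli, Fintype.card_fin]
  have h4 : Y ≤ (Submodule.span ℝ (Set.range ![d, v - c]))ᗮ := by
    intro a ha
    rw [Submodule.mem_orthogonal]
    intro w hw
    induction hw using Submodule.span_induction with
    | mem w hw =>
      obtain ⟨i, rfl⟩ := hw
      rw [real_inner_comm]
      fin_cases i
      · exact (hY a ha).1
      · exact (hY a ha).2
    | zero => exact inner_zero_left _
    | add w w' _ _ h5 h6 => rw [inner_add_left, h5, h6, add_zero]
    | smul t w _ h5 => rw [real_inner_smul_left, h5, mul_zero]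
  have h5 := Submodule.finrank_mono h4
  have h6 := Submodule.finrank_add_finrank_orthogonal (Submodule.span ℝ (Set.range ![d, v - c]))
  rw [h3, finrank_euclideanSpace_fin] at h6
  omega

/-- One half of the argument: velocities of the point `y` relative to the body `A` form a line. -/
lemma cyc_line {x y x' y' : V} (hxy : x ≠ y) (hxx' : x ≠ x') (hxy' : x ≠ y') (hyx' : y ≠ x')
    (hyy' : y ≠ y') (hx'y' : x' ≠ y') {A C A' C' : ι}
    (hx : ∀ c ∈ C0, c.Avoids x) (hy : ∀ c ∈ C0, c.Avoids y)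
    (H : ∀ p, GoodG ι p → ∀ S ∈ ZG (insert (.bar y y' C C') C0) p,
      (⟪ev (p x') (S A - S A'), p x - p x'⟫ = 0 ↔ ⟪ev (p y) (S A - S C), p x - p y⟫ = 0))
    (hW : ¬ Imp (insert (.bar y y' C C') C0) {.weld A C}) :
    ∀ p, GoodG ι p → ∃ e : E3, e ≠ 0 ∧ ∀ S ∈ ZG (insert (.bar y y' C C') C0) p,
      ∃ t : ℝ, ev (p y) (S A - S C) = t • e := by
  classical
  set D : Set (Con V ι) := insert (.bar y y' C C') C0 with hD
  have hDx : ∀ c ∈ D, c.Avoids x := by
    rintro c (rfl | hc)
    · exact ⟨hxy.symm, hxy'.symm⟩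
    · exact hx c hc
  -- the velocities of `y` do not vanish
  have step0 : ∀ p, GoodG ι p → ∃ S ∈ ZG D p, ev (p y) (S A - S C) ≠ 0 := by
    intro p hp
    by_contra hcon
    push Not at hcon
    apply hW
    apply leaf1 hyy' hy
    refine Imp.of_one hp fun S hS => ?_
    rw [cyc_mem_single]
    change ev (p y) (S A) = ev (p y) (S C)
    have := hcon S hS
    rwa [map_sub, sub_eq_zero] at this
  -- the linear maps
  let α : ∀ p : V → E3, ZG D p →ₗ[ℝ] E3 := fun p =>
    ((ev (p x')).comp (cyc_phi A A')).comp (ZG D p).subtype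
  let G : ∀ p : V → E3, ZG D p →ₗ[ℝ] E3 := fun p =>
    ((ev (p y)).comp (cyc_phi A C)).comp (ZG D p).subtype
  have hα : ∀ p (S : ZG D p), α p S = ev (p x') (S.1 A - S.1 A') := fun _ _ => rfl
  have hG : ∀ p (S : ZG D p), G p S = ev (p y) (S.1 A - S.1 C) := fun _ _ => rfl
  have hla : ∀ p, GoodG ι p →
      (∃ (η : ZG D p →ₗ[ℝ] ℝ) (e f : E3), (∀ S, α p S = η S • f) ∧ ∀ S, G p S = η S • e) ∨
      ∃ c : ℝ, c ≠ 0 ∧ (∀ S, G p S = c • α p S) ∧ ∀ S, ⟪α p S, p x' - p y⟫ = 0 := by
    intro p hp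
    have h1 : ∀ᵐ u : E3 ∂volume, ∀ S : ZG D p, ⟪α p S, u - p x'⟫ = 0 →
        ⟪G p S, u - p y⟫ = 0 := by
      filter_upwards [GoodG.stable (ι := ι) p hp x] with u hu S hS
      have h2 : S.1 ∈ ZG D (Function.update p x u) := by
        rw [ZG_update hDx]
        exact S.2
      have h3 := H _ hu S.1 h2
      rw [Function.update_self, Function.update_of_ne hxx'.symm,
        Function.update_of_ne hxy.symm] at h3
      exact h3.1 hS
    rcases la (α p) (G p) (fun h => hyx' (hp.1 h).symm) h1 with h2 | h2 | h2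
    · exfalso
      obtain ⟨S, hS, hne⟩ := step0 p hp
      exact hne (LinearMap.congr_fun h2 ⟨S, hS⟩)
    · exact Or.inl h2
    · exact Or.inr h2
  -- the rank of `α` is constant
  have hrank : ∀ p, GoodG ι p → finrank ℝ (LinearMap.range (α p)) +
      zG (insert (.joint x' A A') D) = zG D := by
    intro p hp
    have h1 := LinearMap.finrank_range_add_finrank_ker (α p)
    rw [hp.2 D] at h1
    rw [← h1, ← hp.2 (insert (.joint x' A A') D)]
    congr 1
    rw [← finrank_inf_ker]
    apply congrArg (fun M : Submodule ℝ (ι → Kil) => finrank ℝ M)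
    ext S
    rw [cyc_mem_insert, Submodule.mem_inf, LinearMap.mem_ker, and_comm]
    refine and_congr_right fun _ => ?_
    change ev (p x') (S A) = ev (p x') (S A') ↔ ev (p x') (S A - S A') = 0
    rw [map_sub, sub_eq_zero]
  have hle : ∀ p, GoodG ι p → finrank ℝ (LinearMap.range (α p)) ≤ 1 := by
    by_contra hcon
    push Not at hcon
    obtain ⟨p0, hp0, h2⟩ := hcon
    have hge : ∀ p, GoodG ι p → 2 ≤ finrank ℝ (LinearMap.range (α p)) := by
      intro p hp
      have := hrank p hp
      have := hrank p0 hp0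
      omega
    have hspan : ∀ (p : V → E3) (M : Submodule ℝ (ι → Kil)) (f : E3), ZG D p ≤ M →
        (∀ S ∈ M, ∃ t : ℝ, ev (p x') (S A - S A') = t • f) →
        finrank ℝ (LinearMap.range (α p)) ≤ 1 := by
      intro p M f hM hf
      have h3 : LinearMap.range (α p) ≤ Submodule.span ℝ {f} := by
        rintro _ ⟨S, rfl⟩
        obtain ⟨t, ht⟩ := hf S.1 (hM S.2)
        rw [hα, ht]
        exact Submodule.smul_mem _ _ (Submodule.mem_span_singleton_self _)
      have h4 := Submodule.finrank_mono h3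
      have h5 := finrank_span_le_card (R := ℝ) ({f} : Set E3)
      simp only [Set.toFinset_singleton, Finset.card_singleton] at h5
      omega
    have hthird : ∀ p, GoodG ι p → ∀ S ∈ ZG D p,
        ⟪ev (p x') (S A - S A'), p x' - p y⟫ = 0 := by
      intro p hp S hS
      rcases hla p hp with ⟨η, e, f, h3, -⟩ | ⟨c, -, -, h3⟩
      · exfalso
        have := hspan p (ZG D p) f le_rfl fun S hS => ⟨η ⟨S, hS⟩, h3 ⟨S, hS⟩⟩
        have := hge p hp
        omega
      · exact h3 ⟨S, hS⟩
    have hle0 : ZG D p0 ≤ ZG C0 p0 := ZG_anti (Set.subset_insert _ _) p0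
    let β' : ZG C0 p0 →ₗ[ℝ] E3 := ((ev (p0 y')).comp (cyc_phi C C')).comp (ZG C0 p0).subtype
    let α' : ZG C0 p0 →ₗ[ℝ] E3 := ((ev (p0 x')).comp (cyc_phi A A')).comp (ZG C0 p0).subtype
    have h3 : ∀ᵐ v : E3 ∂volume, ∀ S : ZG C0 p0, ⟪β' S, v - p0 y'⟫ = 0 →
        ⟪α' S, v - p0 x'⟫ = 0 := by
      filter_upwards [GoodG.stable (ι := ι) p0 hp0 y] with v hv S hS
      have h4 : S.1 ∈ ZG D (Function.update p0 y v) := by
        rw [hD, cyc_mem_insert, cyc_bar hyy', Function.update_self,
          Function.update_of_ne hyy'.symm, ZG_update hy]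
        exact ⟨hS, S.2⟩
      have h5 := hthird _ hv S.1 h4
      rw [Function.update_self, Function.update_of_ne hyx'.symm] at h5
      rw [← neg_sub, inner_neg_right]
      change -⟪ev (p0 x') (S.1 A - S.1 A'), p0 x' - v⟫ = 0
      rw [h5, neg_zero]
    have hge0 := hge p0 hp0
    rcases la β' α' (fun h => hx'y' (hp0.1 h).symm) h3 with h4 | ⟨η, e, f, -, h4⟩ | ⟨c, -, h4, h5⟩
    · have := hspan p0 (ZG C0 p0) 0 hle0 fun S hS => ⟨0, by
        have h5 := LinearMap.congr_fun h4 ⟨S, hS⟩
        have h6 : ev (p0 x') (S A - S A') = 0 := h5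
        rw [h6, smul_zero]⟩
      omega
    · have := hspan p0 (ZG C0 p0) e hle0 fun S hS => ⟨η ⟨S, hS⟩, h4 ⟨S, hS⟩⟩
      omega
    · have hd : p0 y' - p0 x' ≠ 0 := fun h => hx'y' (hp0.1 (sub_eq_zero.1 h)).symm
      obtain ⟨v, hv, hv'⟩ := ((GoodG.stable (ι := ι) p0 hp0 y).and
        (cyc_orth hd (p0 y'))).exists
      have h6 := hv' (LinearMap.range (α (Function.update p0 y v))) (by
        rintro _ ⟨⟨S, h8⟩, rfl⟩
        rw [hα, Function.update_of_ne hyx'.symm]
        have h7 : ZG C0 (Function.update p0 y v) = ZG C0 p0 := ZG_update hy p0 v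
        rw [hD, cyc_mem_insert, cyc_bar hyy', Function.update_self,
          Function.update_of_ne hyy'.symm, h7] at h8
        have h9 : ev (p0 x') (S A - S A') = c • ev (p0 y') (S C - S C') :=
          h4 ⟨S, h8.2⟩
        have h10 : ⟪ev (p0 y') (S C - S C'), p0 y' - p0 x'⟫ = 0 := h5 ⟨S, h8.2⟩
        change ⟪ev (p0 x') (S A - S A'), p0 y' - p0 x'⟫ = 0 ∧
          ⟪ev (p0 x') (S A - S A'), v - p0 y'⟫ = 0
        rw [h9, real_inner_smul_left, real_inner_smul_left, h10, h8.1, mul_zero]
        exact ⟨rfl, rfl⟩)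
      have h7 := hge _ hv
      omega
  -- conclusion
  intro p hp
  obtain ⟨S0, hS0, hne⟩ := step0 p hp
  rcases hla p hp with ⟨η, e, f, -, h3⟩ | ⟨c, hc, h3, -⟩
  · refine ⟨e, ?_, fun S hS => ⟨η ⟨S, hS⟩, h3 ⟨S, hS⟩⟩⟩
    rintro rfl
    apply hne
    have := h3 ⟨S0, hS0⟩
    rw [smul_zero] at this
    exact this
  · obtain ⟨f, hf⟩ := finrank_le_one_iff.1 (hle p hp)
    refine ⟨f.1, ?_, fun S hS => ?_⟩
    · intro hf0
      apply hne
      obtain ⟨t, ht⟩ := hf ⟨α p ⟨S0, hS0⟩, ⟨_, rfl⟩⟩
      have h4 : t • f.1 = α p ⟨S0, hS0⟩ := congrArg Subtype.val ht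
      have h5 := h3 ⟨S0, hS0⟩
      rw [← h4, hf0, smul_zero, smul_zero] at h5
      exact h5
    · obtain ⟨t, ht⟩ := hf ⟨α p ⟨S, hS⟩, ⟨_, rfl⟩⟩
      have h4 : t • f.1 = α p ⟨S, hS⟩ := congrArg Subtype.val ht
      have h5 := h3 ⟨S, hS⟩
      rw [← h4, smul_smul] at h5
      exact ⟨_, h5⟩

/-- Three bars of a path: if each of them is implied by the others, the bodies at the ends of the
middle bar are welded. -/
theorem cyc {x y x' y' : V} (hxy : x ≠ y) (hxx' : x ≠ x') (hxy' : x ≠ y') (hyx' : y ≠ x')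
    (hyy' : y ≠ y') (hx'y' : x' ≠ y') {A C A' C' : ι}
    (hx : ∀ c ∈ C0, c.Avoids x) (hy : ∀ c ∈ C0, c.Avoids y)
    (h3 : Imp (insert (.bar x x' A A') (insert (.bar y y' C C') C0)) {.bar x y A C})
    (h1 : Imp (insert (.bar x y A C) (insert (.bar y y' C C') C0)) {.bar x x' A A'})
    (h2 : Imp (insert (.bar x y A C) (insert (.bar x x' A A') C0)) {.bar y y' C C'}) :
    Imp (insert (.bar x y A C) (insert (.bar x x' A A') (insert (.bar y y' C C') C0)))
      {.weld A C} := by
  classical
  set E : Set (Con V ι) :=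
    insert (.bar x y A C) (insert (.bar x x' A A') (insert (.bar y y' C C') C0)) with hE
  by_contra hcon
  have hne : ∀ p, GoodG ι p → ∃ S ∈ ZG E p, S A ≠ S C := by
    intro p hp
    by_contra h
    push Not at h
    exact hcon (Imp.of_one hp fun S hS => cyc_mem_single.2 (h S hS))
  have hmem : ∀ p S, S ∈ ZG E p ↔ ⟪ev (p y) (S A - S C), p x - p y⟫ = 0 ∧
      ⟪ev (p x') (S A - S A'), p x - p x'⟫ = 0 ∧ ⟪ev (p y') (S C - S C'), p y - p y'⟫ = 0 ∧
      S ∈ ZG C0 p := by
    intro p S
    rw [hE, cyc_mem_insert, cyc_mem_insert, cyc_mem_insert, cyc_bar hxy, cyc_bar hxx',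
      cyc_bar hyy']
  have hsymm : ∀ (p : V → E3) (S : ι → Kil),
      ⟪ev (p y) (S A - S C), p x - p y⟫ = 0 ↔ ⟪ev (p x) (S C - S A), p y - p x⟫ = 0 := by
    intro p S
    rw [← ev_along, ← neg_sub (S C) (S A), ← neg_sub (p y) (p x), map_neg, inner_neg_neg]
  -- the two halves
  have lx := cyc_line hxy hxx' hxy' hyx' hyy' hx'y' (A := A) (C := C) (A' := A') (C' := C')
    hx hy (by
      intro p hp S hS
      constructor
      · intro h
        have h4 := cyc_mem_single.1 (h3 p hp (cyc_mem_insert.2 ⟨(cyc_bar hxx').2 h, hS⟩))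
        exact (cyc_bar hxy).1 h4
      · intro h
        have h4 := cyc_mem_single.1 (h1 p hp (cyc_mem_insert.2 ⟨(cyc_bar hxy).2 h, hS⟩))
        exact (cyc_bar hxx').1 h4) (by
      intro h
      exact hcon fun p hp => (ZG_anti ((Set.subset_insert _ _).trans
        (Set.subset_insert _ _)) p).trans (h p hp))
  have ly := cyc_line hxy.symm hyy' hyx' hxy' hxx' hx'y'.symm (A := C) (C := A) (A' := C')
    (C' := A') hy hx (by
      intro p hp S hS
      have hS' := cyc_mem_insert.1 hS
      constructor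
      · intro h
        have h4 := cyc_mem_single.1 (h3 p hp (cyc_mem_insert.2 ⟨hS'.1,
          cyc_mem_insert.2 ⟨(cyc_bar hyy').2 h, hS'.2⟩⟩))
        exact (hsymm p S).1 ((cyc_bar hxy).1 h4)
      · intro h
        have h4 := cyc_mem_single.1 (h2 p hp (cyc_mem_insert.2 ⟨(cyc_bar hxy).2
          ((hsymm p S).2 h), hS⟩))
        exact (cyc_bar hyy').1 h4) (by
      intro h
      refine hcon fun p hp S hS => ?_
      have h4 := (hmem p S).1 hS
      have h5 := cyc_mem_single.1 (h p hp (cyc_mem_insert.2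
        ⟨(cyc_bar hxx').2 h4.2.1, h4.2.2.2⟩))
      have h6 : S C = S A := h5
      exact cyc_mem_single.2 h6.symm)
  have hDx : ∀ c ∈ (insert (.bar y y' C C') C0 : Set (Con V ι)), c.Avoids x := by
    rintro c (rfl | hc)
    · exact ⟨hxy.symm, hxy'.symm⟩
    · exact hx c hc
  have hDy : ∀ c ∈ (insert (.bar x x' A A') C0 : Set (Con V ι)), c.Avoids y := by
    rintro c (rfl | hc)
    · exact ⟨hxy, hyx'.symm⟩
    · exact hy c hc
  obtain ⟨p, hp⟩ := exists_goodG (V := V) (ι := ι)
  -- the joints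
  have jy : Imp E {.joint y A C} := by
    obtain ⟨e, he, hle⟩ := lx p hp
    obtain ⟨u, hu, hu'⟩ := ((GoodG.stable (ι := ι) p hp x).and (cyc_ne he (p y))).exists
    refine Imp.of_one hu fun S hS => ?_
    have h4 := (hmem _ S).1 hS
    have h5 : S ∈ ZG (insert (.bar y y' C C') C0) (Function.update p x u) :=
      cyc_mem_insert.2 ⟨(cyc_bar hyy').2 h4.2.2.1, h4.2.2.2⟩
    rw [ZG_update hDx] at h5
    obtain ⟨t, ht⟩ := hle S h5
    have h6 := h4.1
    rw [Function.update_self, Function.update_of_ne hxy.symm, ht, real_inner_smul_left] at h6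
    have h7 := (mul_eq_zero.1 h6).resolve_right hu'
    rw [h7, zero_smul, map_sub, sub_eq_zero] at ht
    rw [cyc_mem_single]
    change ev (Function.update p x u y) (S A) = ev (Function.update p x u y) (S C)
    rw [Function.update_of_ne hxy.symm]
    exact ht
  have jx : Imp E {.joint x A C} := by
    obtain ⟨e, he, hle⟩ := ly p hp
    obtain ⟨u, hu, hu'⟩ := ((GoodG.stable (ι := ι) p hp y).and (cyc_ne he (p x))).exists
    refine Imp.of_one hu fun S hS => ?_
    have h4 := (hmem _ S).1 hS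
    have h5 : S ∈ ZG (insert (.bar x x' A A') C0) (Function.update p y u) :=
      cyc_mem_insert.2 ⟨(cyc_bar hxx').2 h4.2.1, h4.2.2.2⟩
    rw [ZG_update hDy] at h5
    obtain ⟨t, ht⟩ := hle S h5
    have h6 := (hsymm _ S).1 h4.1
    rw [Function.update_self, Function.update_of_ne hxy, ht, real_inner_smul_left] at h6
    have h7 := (mul_eq_zero.1 h6).resolve_right hu'
    rw [h7, zero_smul, map_sub, sub_eq_zero] at ht
    rw [cyc_mem_single]
    change ev (Function.update p y u x) (S A) = ev (Function.update p y u x) (S C)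
    rw [Function.update_of_ne hxy]
    exact ht.symm
  -- the space of relative motions of `A` and `C`
  set U0 := (ZG C0 p).map (cyc_phi A C) with hU0
  have hkey : ∀ v, GoodG ι (Function.update p y v) →
      finrank ℝ U0 ≤ finrank ℝ ↥(U0 ⊓ LinearMap.ker (ev v)) + 2 := by
    intro v hv
    obtain ⟨e, he, hle⟩ := lx _ hv
    set M := (ZG C0 p ⊓ LinearMap.ker (barf v (p y') C C')).map (cyc_phi A C) with hM
    have h4 : finrank ℝ U0 ≤ finrank ℝ M + 1 := finrank_map_inf_ker _ _ _
    have h5 : M.map (ev v) ≤ Submodule.span ℝ {e} := by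
      rintro _ ⟨_, ⟨S, ⟨hS, hlS⟩, rfl⟩, rfl⟩
      have hlS' : barf v (p y') C C' S = 0 := hlS
      rw [barf_apply] at hlS'
      have hS2 : S ∈ ZG (insert (.bar y y' C C') C0) (Function.update p y v) := by
        rw [cyc_mem_insert]
        refine ⟨fun _ => ?_, ?_⟩
        · rw [Function.update_self, Function.update_of_ne hyy'.symm]
          exact hlS'
        · rw [ZG_update hy]
          exact hS
      obtain ⟨t, ht⟩ := hle S hS2
      rw [Function.update_self] at ht
      rw [cyc_phi_apply, ht]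
      exact Submodule.smul_mem _ _ (Submodule.mem_span_singleton_self _)
    have h6 := Submodule.finrank_mono h5
    have h7 := finrank_span_le_card (R := ℝ) ({e} : Set E3)
    simp only [Set.toFinset_singleton, Finset.card_singleton] at h7
    have h8 := finrank_map_ev M v
    have h9 : M ≤ U0 := Submodule.map_mono inf_le_left
    have h10 : finrank ℝ ↥(M ⊓ LinearMap.ker (ev v)) ≤ finrank ℝ ↥(U0 ⊓ LinearMap.ker (ev v)) :=
      Submodule.finrank_mono (inf_le_inf_right _ h9)
    omega
  have hU3 : finrank ℝ U0 ≤ 3 := by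
    by_contra h
    obtain ⟨v, hv, hv'⟩ := ((GoodG.stable (ι := ι) p hp y).and
      (eval_four U0 (by omega))).exists
    have := hkey v hv
    omega
  have hX : ∀ᵐ u : E3 ∂volume, finrank ℝ ↥(U0 ⊓ LinearMap.ker (ev u)) ≤ 1 := by
    by_cases h : finrank ℝ U0 ≤ 2
    · filter_upwards [eval_two U0 h] with u hu
      rw [hu, finrank_bot]
      omega
    · exact eval_three U0 (by omega)
  obtain ⟨u, hu, huX⟩ := ((GoodG.stable (ι := ι) p hp x).and hX).exists
  obtain ⟨v, hv, hvX⟩ := ((GoodG.stable (ι := ι) _ hu y).and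
    (eval_two (U0 ⊓ LinearMap.ker (ev u)) (by omega))).exists
  obtain ⟨S, hS, hSne⟩ := hne _ hv
  apply hSne
  have h4 := ((hmem _ S).1 hS).2.2.2
  rw [ZG_update hy, ZG_update hx] at h4
  have h5 : ev (Function.update (Function.update p x u) y v x) (S A) =
      ev (Function.update (Function.update p x u) y v x) (S C) :=
    cyc_mem_single.1 (jx _ hv hS)
  rw [Function.update_of_ne hxy, Function.update_self] at h5
  have h6 : ev (Function.update (Function.update p x u) y v y) (S A) =
      ev (Function.update (Function.update p x u) y v y) (S C) :=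
    cyc_mem_single.1 (jy _ hv hS)
  rw [Function.update_self] at h6
  have h7 : cyc_phi A C S ∈ (U0 ⊓ LinearMap.ker (ev u)) ⊓ LinearMap.ker (ev v) := by
    refine ⟨⟨⟨S, h4, rfl⟩, ?_⟩, ?_⟩
    · rw [SetLike.mem_coe, LinearMap.mem_ker, cyc_phi_apply, map_sub, h5, sub_self]
    · rw [SetLike.mem_coe, LinearMap.mem_ker, cyc_phi_apply, map_sub, h6, sub_self]
  rw [hvX, Submodule.mem_bot, cyc_phi_apply] at h7
  exact sub_eq_zero.1 h7

end

end Pool.Agent.BJ
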