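import Pool.Agent.Lib.MP_37c7bf_co_helper26.Kernel

/-!
Bodies in three-space linked by ball joints, every joint linking two bodies: definitions.

`ι` is the set of bodies, `J` the set of joints, the joint `j` links the bodies `a j` and `b j`
and sits at the point `p j`.  All statements concern a set `E` of active joints and an equivalence
relation `r` on the bodies (equivalent bodies are welded together).
-/

open MeasureTheory Module Topology
open scoped RealInnerProductSpace

namespace Pool.Agent.BJ

open Pool.Agent.H26R (E3 crossE)

/-- Infinitesimal motions of a rigid body: angular velocity and translation. -/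
abbrev Kil : Type := E3 × E3

/-- The velocity at the point `x` under the infinitesimal motion `S`. -/
noncomputable def ev (x : E3) : Kil →ₗ[ℝ] E3 where
  toFun S := crossE S.1 x + S.2
  map_add' S T := by
    rw [Prod.fst_add, Prod.snd_add, Pool.Agent.H26R.crossE_add_left]; abel
  map_smul' c S := by
    rw [Prod.smul_fst, Prod.smul_snd, Pool.Agent.H26R.crossE_smul_left, RingHom.id_apply, smul_add]

lemma ev_apply (x : E3) (S : Kil) : ev x S = crossE S.1 x + S.2 := rfl

section

variable {ι J : Type}

/-- The infinitesimal motions of the structure: families of motions of the bodies, equal on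
welded bodies and giving the same velocity to both sides of every active joint. -/
noncomputable def Z (a b : J → ι) (E : Finset J) (r : Setoid ι) (p : J → E3) :
    Submodule ℝ (ι → Kil) where
  carrier := {S | (∀ u v, r u v → S u = S v) ∧
    ∀ j ∈ E, ev (p j) (S (a j)) = ev (p j) (S (b j))}
  add_mem' := by
    rintro S T ⟨h1, h2⟩ ⟨h3, h4⟩
    refine ⟨fun u v h => ?_, fun j hj => ?_⟩
    · rw [Pi.add_apply, Pi.add_apply, h1 u v h, h3 u v h]
    · rw [Pi.add_apply, Pi.add_apply, map_add, map_add, h2 j hj, h4 j hj]
  zero_mem' := ⟨fun _ _ _ => rfl, fun _ _ => rfl⟩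
  smul_mem' := by
    rintro c S ⟨h1, h2⟩
    refine ⟨fun u v h => ?_, fun j hj => ?_⟩
    · rw [Pi.smul_apply, Pi.smul_apply, h1 u v h]
    · rw [Pi.smul_apply, Pi.smul_apply, map_smul, map_smul, h2 j hj]

lemma mem_Z {a b : J → ι} {E : Finset J} {r : Setoid ι} {p : J → E3} {S : ι → Kil} :
    S ∈ Z a b E r p ↔ (∀ u v, r u v → S u = S v) ∧
      ∀ j ∈ E, ev (p j) (S (a j)) = ev (p j) (S (b j)) := Iff.rfl

/-- The least dimension of the space of motions. -/
noncomputable def zdim (a b : J → ι) (E : Finset J) (r : Setoid ι) : ℕ :=
  sInf (Set.range fun p : J → E3 => finrank ℝ (Z a b E r p))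

/-- Positions of the joints for which all spaces of motions have least dimension. -/
def Good (a b : J → ι) (p : J → E3) : Prop :=
  ∀ E r, finrank ℝ (Z a b E r p) = zdim a b E r

/-- Welding the bodies `u` and `v`. -/
def weld (r : Setoid ι) (u v : ι) : Setoid ι :=
  r ⊔ Relation.EqvGen.setoid fun x y => x = u ∧ y = v

/-- The space of relative motions of `u` and `v`. -/
noncomputable def U (a b : J → ι) (E : Finset J) (r : Setoid ι) (p : J → E3) (u v : ι) :
    Submodule ℝ Kil :=
  (Z a b E r p).map (LinearMap.proj (R := ℝ) (φ := fun _ : ι => Kil) u - LinearMap.proj v)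

/-- Rank of the constraint given by `d` joints between two bodies: 0, 3, 5, 6, 6, ... -/
def hh (d : ℕ) : ℤ := if d = 0 then 0 else if d = 1 then 3 else if d = 2 then 5 else 6

/-- The (unordered) pair of classes linked by the joint `j`. -/
def pr (a b : J → ι) (r : Setoid ι) (j : J) : Sym2 (Quotient r) :=
  s(Quotient.mk r (a j), Quotient.mk r (b j))

open Classical in
/-- The number of active joints between the two classes of the pair `e`. -/
noncomputable def dd (a b : J → ι) (E : Finset J) (r : Setoid ι) (e : Sym2 (Quotient r)) : ℕ :=
  (E.filter fun j => pr a b r j = e).card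

open Classical in
/-- The expected dimension `6 (number of classes) - sum of h(d)` over all pairs of classes. -/
noncomputable def val [Fintype ι] (a b : J → ι) (E : Finset J) (r : Setoid ι) : ℤ :=
  6 * (Fintype.card (Quotient r) : ℤ) -
    ∑ e : Sym2 (Quotient r), if e.IsDiag then 0 else hh (dd a b E r e)

end

end Pool.Agent.BJ
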