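import Pool.Agent.Lib.MP_37c7bf_BJ.Affine

/-!
Evaluation of spaces of infinitesimal motions at generic points.
-/

open MeasureTheory Module Topology
open scoped RealInnerProductSpace

namespace Pool.Agent.BJ

open Pool.Agent.H26R (E3 crossE)

/-- `⟪ev x S, y - x⟫` is antisymmetric in `x`, `y`. -/
lemma ev_symm (S : Kil) (x y : E3) : ⟪ev x S, y - x⟫ = -⟪ev y S, x - y⟫ := by
  rw [Pool.Agent.H26R.inner_E3, Pool.Agent.H26R.inner_E3, ev_apply, ev_apply]
  simp [crossE]
  ring

lemma ev_along (S : Kil) (x y : E3) : ⟪ev x S, x - y⟫ = ⟪ev y S, x - y⟫ := by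
  rw [Pool.Agent.H26R.inner_E3, Pool.Agent.H26R.inner_E3, ev_apply, ev_apply]
  simp [crossE]
  ring

lemma finrank_Kil : finrank ℝ Kil = 6 := by
  rw [Module.finrank_prod, finrank_euclideanSpace_fin]

lemma crossE_zero_left (x : E3) : crossE 0 x = 0 := by
  ext k; fin_cases k <;> simp [crossE]

lemma crossE_zero_right (x : E3) : crossE x 0 = 0 := by
  ext k; fin_cases k <;> simp [crossE]

lemma crossE_self (x : E3) : crossE x x = 0 := by
  ext k; fin_cases k <;> simp [crossE] <;> ring

lemma crossE_swap (x y : E3) : crossE x y = - crossE y x := by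
  ext k; fin_cases k <;> simp [crossE] <;> ring

lemma ev_surjective (x : E3) : Function.Surjective (ev x) := by
  intro t
  refine ⟨(0, t), ?_⟩
  rw [ev_apply]
  simp only
  rw [crossE_zero_left, zero_add]

lemma finrank_ker_ev (x : E3) : finrank ℝ (LinearMap.ker (ev x)) = 3 := by
  have h := LinearMap.finrank_range_add_finrank_ker (ev x)
  rw [LinearMap.range_eq_top.2 (ev_surjective x), finrank_top, finrank_euclideanSpace_fin,
    finrank_Kil] at h
  omega

/-- vectors with zero cross product are parallel -/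
lemma exists_smul_of_crossE {a d : E3} (hd : d ≠ 0) (h : crossE a d = 0) : ∃ c : ℝ, a = c • d := by
  have h0 := congrArg (fun z : E3 => z 0) h
  have h1 := congrArg (fun z : E3 => z 1) h
  have h2 := congrArg (fun z : E3 => z 2) h
  simp [crossE] at h0 h1 h2
  have hn : d 0 * d 0 + d 1 * d 1 + d 2 * d 2 ≠ 0 := by
    intro h3
    apply hd
    have e0 : d 0 = 0 := by nlinarith [mul_self_nonneg (d 0), mul_self_nonneg (d 1), mul_self_nonneg (d 2)]
    have e1 : d 1 = 0 := by nlinarith [mul_self_nonneg (d 0), mul_self_nonneg (d 1), mul_self_nonneg (d 2)]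
    have e2 : d 2 = 0 := by nlinarith [mul_self_nonneg (d 0), mul_self_nonneg (d 1), mul_self_nonneg (d 2)]
    apply Pool.Agent.H26R.e3_ext
    intro k
    fin_cases k
    · exact e0
    · exact e1
    · exact e2
  refine ⟨(a 0 * d 0 + a 1 * d 1 + a 2 * d 2) / (d 0 * d 0 + d 1 * d 1 + d 2 * d 2), ?_⟩
  ext k
  fin_cases k
  · simp only [Fin.zero_eta, Fin.isValue, PiLp.smul_apply, smul_eq_mul]
    rw [div_mul_eq_mul_div, eq_div_iff hn]
    linear_combination d 1 * h2 - d 2 * h1
  · simp only [Fin.mk_one, Fin.isValue, PiLp.smul_apply, smul_eq_mul]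
    rw [div_mul_eq_mul_div, eq_div_iff hn]
    linear_combination d 2 * h0 - d 0 * h2
  · simp only [Fin.reduceFinMk, Fin.isValue, PiLp.smul_apply, smul_eq_mul]
    rw [div_mul_eq_mul_div, eq_div_iff hn]
    linear_combination d 0 * h1 - d 1 * h0

/-- Two joints at different points leave one degree of freedom. -/
lemma finrank_ker_ev_two {x y : E3} (h : x ≠ y) :
    finrank ℝ ↥(LinearMap.ker (ev x) ⊓ LinearMap.ker (ev y)) = 1 := by
  have hd : x - y ≠ 0 := sub_ne_zero.2 h
  have e : LinearMap.ker (ev x) ⊓ LinearMap.ker (ev y) =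
      Submodule.span ℝ {((x - y, - crossE (x - y) x) : Kil)} := by
    apply le_antisymm
    · rintro S ⟨h1, h2⟩
      rw [SetLike.mem_coe, LinearMap.mem_ker, ev_apply] at h1 h2
      have h3 : crossE S.1 (x - y) = 0 := by
        have e1 : crossE S.1 (x - y) = (crossE S.1 x + S.2) - (crossE S.1 y + S.2) := by
          ext k; fin_cases k <;> simp [crossE] <;> ring
        rw [e1, h1, h2, sub_zero]
      obtain ⟨c, hc⟩ := exists_smul_of_crossE hd h3
      rw [Submodule.mem_span_singleton]
      refine ⟨c, ?_⟩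
      apply Prod.ext
      · simp only [Prod.smul_mk]
        exact hc.symm
      · simp only [Prod.smul_mk]
        have h4 : S.2 = - crossE S.1 x := by
          rw [eq_neg_iff_add_eq_zero, add_comm]; exact h1
        rw [h4, hc, Pool.Agent.H26R.crossE_smul_left, smul_neg]
    · rw [Submodule.span_singleton_le_iff_mem]
      constructor
      · rw [SetLike.mem_coe, LinearMap.mem_ker, ev_apply]
        simp
      · rw [SetLike.mem_coe, LinearMap.mem_ker, ev_apply]
        ext k
        fin_cases k <;> simp [crossE] <;> ring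
  rw [e]
  apply finrank_span_singleton
  intro h0
  apply hd
  exact congrArg Prod.fst h0

lemma finrank_map_ev (W : Submodule ℝ Kil) (x : E3) :
    finrank ℝ ↥(W.map (ev x)) + finrank ℝ ↥(W ⊓ LinearMap.ker (ev x)) = finrank ℝ W := by
  have h := LinearMap.finrank_range_add_finrank_ker ((ev x).domRestrict W)
  have h1 : LinearMap.range ((ev x).domRestrict W) = W.map (ev x) := by
    rw [LinearMap.domRestrict, LinearMap.range_comp, Submodule.range_subtype]
  have h2 : finrank ℝ (LinearMap.ker ((ev x).domRestrict W)) =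
      finrank ℝ ↥(W ⊓ LinearMap.ker (ev x)) := by
    have e : W ⊓ LinearMap.ker (ev x) =
        (LinearMap.ker ((ev x).domRestrict W)).map W.subtype := by
      rw [LinearMap.domRestrict, LinearMap.ker_comp, Submodule.map_comap_subtype]
    rw [e, Submodule.finrank_map_subtype_eq]
  rw [h1, h2] at h
  exact h

lemma finrank_le_inf_add_three (W : Submodule ℝ Kil) (x : E3) :
    finrank ℝ W ≤ finrank ℝ ↥(W ⊓ LinearMap.ker (ev x)) + 3 := by
  have h := finrank_map_ev W x
  have h1 : finrank ℝ ↥(W.map (ev x)) ≤ 3 := by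
    have := Submodule.finrank_le (W.map (ev x))
    rwa [finrank_euclideanSpace_fin] at this
  omega

/-- From one point to almost all points. -/
lemma ae_of_exists (W : Submodule ℝ Kil) (x₀ : E3) (h : W ⊓ LinearMap.ker (ev x₀) = ⊥) :
    ∀ᵐ x : E3 ∂volume, W ⊓ LinearMap.ker (ev x) = ⊥ := by
  filter_upwards [ae_finrank_inf_ker_ev W x₀] with x hx
  rw [h, finrank_bot] at hx
  exact Submodule.finrank_eq_zero.1 (Nat.le_zero.1 hx)

lemma exists_ev_ne {S : Kil} (hS : S ≠ 0) : ∃ x : E3, ev x S ≠ 0 := by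
  by_contra hcon
  push Not at hcon
  apply hS
  have h0 := hcon 0
  rw [ev_apply, crossE_zero_right, zero_add] at h0
  have h1 := hcon (EuclideanSpace.single 0 1)
  have h2 := hcon (EuclideanSpace.single 1 1)
  rw [ev_apply, h0, add_zero] at h1 h2
  have a1 := congrArg (fun z : E3 => z 1) h1
  have a2 := congrArg (fun z : E3 => z 2) h1
  have a3 := congrArg (fun z : E3 => z 2) h2
  simp [crossE] at a1 a2 a3
  apply Prod.ext
  · simp only [Prod.fst_zero]
    apply Pool.Agent.H26R.e3_ext
    intro k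
    fin_cases k
    · simpa using a3
    · simpa using a2
    · simpa using a1
  · simpa using h0

/-- A nonzero motion moves almost every point. -/
lemma ae_ev_ne {S : Kil} (hS : S ≠ 0) : ∀ᵐ x : E3 ∂volume, ev x S ≠ 0 := by
  obtain ⟨x₀, h0⟩ := exists_ev_ne hS
  have h1 : Submodule.span ℝ {S} ⊓ LinearMap.ker (ev x₀) = ⊥ := by
    rw [eq_bot_iff]
    rintro T ⟨h2, h3⟩
    rw [SetLike.mem_coe, Submodule.mem_span_singleton] at h2
    obtain ⟨c, rfl⟩ := h2
    rw [SetLike.mem_coe, LinearMap.mem_ker, map_smul, smul_eq_zero] at h3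
    rcases h3 with h3 | h3
    · rw [h3, zero_smul]; exact Submodule.zero_mem _
    · exact absurd h3 h0
  filter_upwards [ae_of_exists _ x₀ h1] with x hx hx0
  apply hS
  have : S ∈ Submodule.span ℝ {S} ⊓ LinearMap.ker (ev x) :=
    ⟨Submodule.mem_span_singleton_self S, hx0⟩
  rw [hx] at this
  simpa using this

lemma crossE_crossE_same (a b x : E3) :
    crossE (crossE a x) (crossE b x) = ⟪x, crossE a b⟫ • x := by
  ext k
  rw [PiLp.smul_apply, Pool.Agent.H26R.inner_E3]
  fin_cases k <;> simp [crossE] <;> ring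

/-- a nonzero translation and a rotation are independent somewhere -/
lemma exists_cross_ne_aux {t' : E3} (ht : t' ≠ 0) (S : Kil)
    (h : ∀ x : E3, crossE t' (ev x S) = 0) : ∃ c : ℝ, S = c • ((0, t') : Kil) := by
  have h0 := h 0
  rw [ev_apply, crossE_zero_right, zero_add] at h0
  have hx : ∀ x, crossE t' (crossE S.1 x) = 0 := by
    intro x
    have h1 := h x
    rw [ev_apply, Pool.Agent.H26R.crossE_add_right, h0, add_zero] at h1
    exact h1
  have ha := hx (EuclideanSpace.single 0 1)
  have hb := hx (EuclideanSpace.single 1 1)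
  have hc := hx (EuclideanSpace.single 2 1)
  have a0 := congrArg (fun z : E3 => z 0) ha
  have a1 := congrArg (fun z : E3 => z 1) ha
  have a2 := congrArg (fun z : E3 => z 2) ha
  have b0 := congrArg (fun z : E3 => z 0) hb
  have b1 := congrArg (fun z : E3 => z 1) hb
  have b2 := congrArg (fun z : E3 => z 2) hb
  have c0 := congrArg (fun z : E3 => z 0) hc
  have c1 := congrArg (fun z : E3 => z 1) hc
  have c2 := congrArg (fun z : E3 => z 2) hc
  simp [crossE] at a0 a1 a2 b0 b1 b2 c0 c1 c2
  have P : ∀ j k : Fin 3, t' j * S.1 k = 0 := by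
    intro j k
    fin_cases j <;> fin_cases k <;> simp only [Fin.zero_eta, Fin.mk_one, Fin.reduceFinMk, Fin.isValue]
    · linarith
    · exact mul_eq_zero.2 a1
    · exact mul_eq_zero.2 a2
    · exact mul_eq_zero.2 b0
    · linarith
    · exact mul_eq_zero.2 b2
    · exact mul_eq_zero.2 c0
    · exact mul_eq_zero.2 c1
    · linarith
  have hS1 : S.1 = 0 := by
    obtain ⟨j, hj⟩ : ∃ j, t' j ≠ 0 := by
      by_contra hcon
      push Not at hcon
      exact ht (Pool.Agent.H26R.e3_ext hcon)
    apply Pool.Agent.H26R.e3_ext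
    intro k
    exact (mul_eq_zero.1 (P j k)).resolve_left hj
  obtain ⟨c, hc⟩ := exists_smul_of_crossE ht (show crossE S.2 t' = 0 by
    rw [crossE_swap, h0, neg_zero])
  refine ⟨c, ?_⟩
  apply Prod.ext
  · simp [hS1]
  · simp [hc]

lemma exists_cross_ne {S T : Kil} (h : LinearIndependent ℝ ![S, T]) :
    ∃ x : E3, crossE (ev x S) (ev x T) ≠ 0 := by
  by_contra hcon
  push Not at hcon
  rw [LinearIndependent.pair_iff] at h
  -- the quadratic part
  have hq : ∀ x : E3, ⟪x, crossE S.1 T.1⟫ • x = 0 := by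
    intro x
    have h1 := hcon x
    have h2 := hcon (-x)
    have h3 := hcon 0
    have e : (2 : ℝ) • (⟪x, crossE S.1 T.1⟫ • x) = crossE (ev x S) (ev x T) +
        crossE (ev (-x) S) (ev (-x) T) - (2 : ℝ) • crossE (ev 0 S) (ev 0 T) := by
      rw [← crossE_crossE_same]
      simp only [ev_apply]
      ext k
      fin_cases k <;> simp [crossE] <;> ring
    rw [h1, h2, h3, smul_zero, add_zero, sub_zero] at e
    exact (smul_eq_zero.1 e).resolve_left (by norm_num)
  have hn : crossE S.1 T.1 = 0 := by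
    rcases smul_eq_zero.1 (hq (crossE S.1 T.1)) with h1 | h1
    · exact inner_self_eq_zero.1 h1
    · exact h1
  -- a translation in the span
  have key : ∀ a b : ℝ, (a, b) ≠ (0, 0) → (a • S + b • T).1 = 0 →
      ∀ R : Kil, (∀ x, crossE (ev x (a • S + b • T)) (ev x R) = 0) →
      ∃ c : ℝ, R = c • (a • S + b • T) := by
    intro a b hab h1 R hR
    have h2 : a • S + b • T = ((0, (a • S + b • T).2) : Kil) := Prod.ext h1 rfl
    have ht : (a • S + b • T).2 ≠ 0 := by
      intro h3
      apply hab
      have := h a b (Prod.ext h1 h3)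
      rw [this.1, this.2]
    obtain ⟨c, hc⟩ := exists_cross_ne_aux ht R (by
      intro x
      have h4 := hR x
      rw [ev_apply x (a • S + b • T), h1, crossE_zero_left, zero_add] at h4
      exact h4)
    exact ⟨c, by rw [hc, ← h2]⟩
  have hcr : ∀ (a b : ℝ) (x : E3), crossE (ev x (a • S + b • T)) (ev x T) = 0 := by
    intro a b x
    rw [map_add, map_smul, map_smul, Pool.Agent.H26R.crossE_add_left,
      Pool.Agent.H26R.crossE_smul_left, Pool.Agent.H26R.crossE_smul_left, hcon x, crossE_self,
      smul_zero, smul_zero, add_zero]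
  have hcr' : ∀ (a b : ℝ) (x : E3), crossE (ev x (a • S + b • T)) (ev x S) = 0 := by
    intro a b x
    rw [map_add, map_smul, map_smul, Pool.Agent.H26R.crossE_add_left,
      Pool.Agent.H26R.crossE_smul_left, Pool.Agent.H26R.crossE_smul_left, crossE_self,
      crossE_swap (ev x T), hcon x, neg_zero, smul_zero, smul_zero, add_zero]
  by_cases hT : T.1 = 0
  · -- `T` is a translation
    have e1 : (((0 : ℝ) • S + (1 : ℝ) • T) : Kil).1 = 0 := by
      rw [zero_smul, one_smul, zero_add]; exact hT
    obtain ⟨c, hc⟩ := key 0 1 (by simp) e1 S (hcr' 0 1)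
    rw [zero_smul, one_smul, zero_add] at hc
    have := h 1 (-c) (by rw [hc, one_smul, neg_smul, add_neg_cancel])
    exact one_ne_zero this.1
  · obtain ⟨c, hc⟩ := exists_smul_of_crossE hT hn
    have e1 : (((1 : ℝ) • S + (-c) • T) : Kil).1 = 0 := by
      simp [hc]
    obtain ⟨c', hc'⟩ := key 1 (-c) (by simp) e1 T (hcr 1 (-c))
    have h5 := h (c' * 1) (c' * (-c) - 1) (by
      rw [sub_smul, mul_smul, mul_smul, one_smul, one_smul]
      rw [one_smul, smul_add] at hc'
      rw [← add_sub_assoc, ← hc', sub_self])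
    rcases h5 with ⟨h6, h7⟩
    rw [mul_one] at h6
    rw [h6] at h7
    norm_num at h7

lemma eval_two_aux (W : Submodule ℝ Kil) (h : finrank ℝ W ≤ 2) :
    ∃ x : E3, W ⊓ LinearMap.ker (ev x) = ⊥ := by
  rcases Nat.lt_or_ge (finrank ℝ W) 2 with h2 | h2
  · rcases Nat.eq_zero_or_pos (finrank ℝ W) with h0 | h0
    · refine ⟨0, ?_⟩
      rw [Submodule.finrank_eq_zero.1 h0, bot_inf_eq]
    · have h1 : finrank ℝ W = 1 := by omega
      obtain ⟨S, hS0, hS⟩ := finrank_eq_one_iff'.1 h1
      obtain ⟨x, hx⟩ := exists_ev_ne (S := (S : Kil)) (fun h3 => hS0 (Subtype.ext h3))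
      refine ⟨x, ?_⟩
      rw [eq_bot_iff]
      rintro T ⟨h3, h4⟩
      obtain ⟨c, hc⟩ := hS ⟨T, h3⟩
      have hc' : c • (S : Kil) = T := congrArg Subtype.val hc
      rw [SetLike.mem_coe, LinearMap.mem_ker, ← hc', map_smul, smul_eq_zero] at h4
      rcases h4 with h4 | h4
      · rw [← hc', h4, zero_smul]; exact Submodule.zero_mem _
      · exact absurd h4 hx
  · have h3 : finrank ℝ W = 2 := le_antisymm h h2
    let b := Module.finBasisOfFinrankEq ℝ W h3
    have hli : LinearIndependent ℝ ![(b 0 : Kil), (b 1 : Kil)] := by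
      have h4 := b.linearIndependent.map' W.subtype (Submodule.ker_subtype W)
      have e : ![(b 0 : Kil), (b 1 : Kil)] = W.subtype ∘ b := by
        funext i
        fin_cases i <;> rfl
      rw [e]
      exact h4
    obtain ⟨x, hx⟩ := exists_cross_ne hli
    refine ⟨x, ?_⟩
    rw [eq_bot_iff]
    rintro T ⟨h4, h5⟩
    have h6 := b.sum_repr ⟨T, h4⟩
    rw [Fin.sum_univ_two] at h6
    have h7 : (b.repr ⟨T, h4⟩ 0) • (b 0 : Kil) + (b.repr ⟨T, h4⟩ 1) • (b 1 : Kil) = T :=
      congrArg Subtype.val h6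
    set α := b.repr ⟨T, h4⟩ 0
    set β := b.repr ⟨T, h4⟩ 1
    rw [SetLike.mem_coe, LinearMap.mem_ker, ← h7, map_add, map_smul, map_smul] at h5
    have h8 : α • crossE (ev x (b 0)) (ev x (b 1)) = 0 := by
      have e : crossE (α • ev x (b 0) + β • ev x (b 1)) (ev x (b 1)) =
          α • crossE (ev x (b 0)) (ev x (b 1)) := by
        rw [Pool.Agent.H26R.crossE_add_left, Pool.Agent.H26R.crossE_smul_left,
          Pool.Agent.H26R.crossE_smul_left, crossE_self, smul_zero, add_zero]
      rw [← e, h5, crossE_zero_left]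
    have h9 : β • crossE (ev x (b 0)) (ev x (b 1)) = 0 := by
      have e : crossE (ev x (b 0)) (α • ev x (b 0) + β • ev x (b 1)) =
          β • crossE (ev x (b 0)) (ev x (b 1)) := by
        rw [Pool.Agent.H26R.crossE_add_right, Pool.Agent.H26R.crossE_smul_right,
          Pool.Agent.H26R.crossE_smul_right, crossE_self, smul_zero, zero_add]
      rw [← e, h5, crossE_zero_right]
    rw [smul_eq_zero] at h8 h9
    have hα := h8.resolve_right hx
    have hβ := h9.resolve_right hx
    rw [← h7, hα, hβ, zero_smul, zero_smul, add_zero]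
    exact Submodule.zero_mem _

/-- Two independent motions are independent at almost every point. -/
lemma eval_two (W : Submodule ℝ Kil) (h : finrank ℝ W ≤ 2) :
    ∀ᵐ x : E3 ∂volume, W ⊓ LinearMap.ker (ev x) = ⊥ := by
  obtain ⟨x₀, h0⟩ := eval_two_aux W h
  exact ae_of_exists W x₀ h0

lemma eval_three (W : Submodule ℝ Kil) (h : finrank ℝ W = 3) :
    ∀ᵐ x : E3 ∂volume, finrank ℝ ↥(W ⊓ LinearMap.ker (ev x)) ≤ 1 := by
  let b := Module.finBasisOfFinrankEq ℝ W h
  have hb : LinearIndependent ℝ (fun i => (b i : Kil)) :=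
    b.linearIndependent.map' W.subtype (Submodule.ker_subtype W)
  have hli : LinearIndependent ℝ ![(b 0 : Kil), (b 1 : Kil)] := by
    have h4 := hb.comp (![0, 1] : Fin 2 → Fin 3) (by decide)
    have e : ![(b 0 : Kil), (b 1 : Kil)] = (fun i => (b i : Kil)) ∘ (![0, 1] : Fin 2 → Fin 3) := by
      funext i
      fin_cases i <;> rfl
    rw [e]
    exact h4
  set W' : Submodule ℝ Kil := Submodule.span ℝ (Set.range ![(b 0 : Kil), (b 1 : Kil)]) with hW'
  have h2 : finrank ℝ W' = 2 := by
    rw [hW', finrank_span_eq_card hli, Fintype.card_fin]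
  have hle : W' ≤ W := by
    rw [hW', Submodule.span_le]
    rintro _ ⟨i, rfl⟩
    fin_cases i
    · exact (b 0).2
    · exact (b 1).2
  filter_upwards [eval_two W' h2.le] with x hx
  have h3 := Submodule.finrank_sup_add_finrank_inf_eq (W ⊓ LinearMap.ker (ev x)) W'
  have h4 : W ⊓ LinearMap.ker (ev x) ⊓ W' = ⊥ := by
    rw [eq_bot_iff, ← hx]
    exact le_inf inf_le_right (inf_le_left.trans inf_le_right)
  have h5 : finrank ℝ ↥(W ⊓ LinearMap.ker (ev x) ⊔ W') ≤ finrank ℝ W :=
    Submodule.finrank_mono (sup_le inf_le_left hle)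
  rw [h4, finrank_bot, h2] at h3
  omega

/-- the reciprocal product -/
noncomputable def recip : Kil →ₗ[ℝ] Module.Dual ℝ Kil :=
  LinearMap.mk₂ ℝ (fun A S : Kil => ⟪A.2, S.1⟫ + ⟪A.1, S.2⟫)
    (fun A B S => by
      simp only [Prod.fst_add, Prod.snd_add, inner_add_left]; ring)
    (fun c A S => by
      simp only [Prod.smul_fst, Prod.smul_snd, real_inner_smul_left, smul_eq_mul]; ring)
    (fun A S T => by
      simp only [Prod.fst_add, Prod.snd_add, inner_add_right]; ring)
    (fun c A S => by
      simp only [Prod.smul_fst, Prod.smul_snd, real_inner_smul_right, smul_eq_mul]; ring)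

lemma recip_apply (A S : Kil) : recip A S = ⟪A.2, S.1⟫ + ⟪A.1, S.2⟫ := rfl

lemma recip_injective : Function.Injective recip := by
  rw [← LinearMap.ker_eq_bot, LinearMap.ker_eq_bot']
  intro A hA
  have h1 := LinearMap.congr_fun hA ((A.2, 0) : Kil)
  have h2 := LinearMap.congr_fun hA ((0, A.1) : Kil)
  rw [recip_apply, LinearMap.zero_apply] at h1 h2
  simp only [inner_zero_right, add_zero, zero_add] at h1 h2
  exact Prod.ext (inner_self_eq_zero.1 h2) (inner_self_eq_zero.1 h1)

/-- Four independent motions span all velocities at almost every point. -/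
lemma eval_four (W : Submodule ℝ Kil) (h : 4 ≤ finrank ℝ W) :
    ∀ᵐ x : E3 ∂volume, finrank ℝ ↥(W ⊓ LinearMap.ker (ev x)) + 3 = finrank ℝ W := by
  set V : Submodule ℝ Kil := W.dualAnnihilator.comap recip with hV
  have hVd : finrank ℝ V ≤ 2 := by
    have h1 := Subspace.finrank_add_finrank_dualAnnihilator_eq W
    rw [finrank_Kil] at h1
    have h2 : finrank ℝ V ≤ finrank ℝ W.dualAnnihilator := by
      have h3 : finrank ℝ (V.map recip) = finrank ℝ V :=
        (Submodule.equivMapOfInjective recip recip_injective V).finrank_eq.symm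
      rw [← h3]
      exact Submodule.finrank_mono (Submodule.map_comap_le _ _)
    omega
  filter_upwards [eval_two V hVd] with x hx
  have hmap : W.map (ev x) = ⊤ := by
    by_contra hne
    have hne' : W.map (ev x) < ⊤ := lt_top_iff_ne_top.2 hne
    have h1 : (W.map (ev x))ᗮ ≠ ⊥ := by
      intro h2
      rw [Submodule.orthogonal_eq_bot_iff] at h2
      exact hne h2
    obtain ⟨n, hn, hn0⟩ := Submodule.exists_mem_ne_zero_of_ne_bot h1
    rw [Submodule.mem_orthogonal] at hn
    have hmem : ((n, - crossE n x) : Kil) ∈ V ⊓ LinearMap.ker (ev x) := by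
      constructor
      · rw [SetLike.mem_coe, hV, Submodule.mem_comap, Submodule.mem_dualAnnihilator]
        intro S hS
        rw [recip_apply]
        have h2 := hn (ev x S) (Submodule.mem_map_of_mem hS)
        rw [ev_apply, Pool.Agent.H26R.inner_E3] at h2
        rw [Pool.Agent.H26R.inner_E3, Pool.Agent.H26R.inner_E3]
        simp [crossE] at h2 ⊢
        linear_combination h2
      · rw [SetLike.mem_coe, LinearMap.mem_ker, ev_apply]
        simp
    rw [hx, Submodule.mem_bot] at hmem
    exact hn0 (congrArg Prod.fst hmem)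
  have h1 := finrank_map_ev W x
  rw [hmap, finrank_top, finrank_euclideanSpace_fin] at h1
  omega

end Pool.Agent.BJ
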