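import Pool.Agent.Lib.MP_37c7bf_BJ.ClawF

/-!
The final theorems.
-/

open MeasureTheory Module Topology
open scoped RealInnerProductSpace

namespace Pool.Agent.BJ

open Pool.Agent.H26R (E3 crossE GenericallyRigid Flex RX)

section
variable {V : Type}

lemma InfMotions_eq (Γ : SimpleGraph V) (p : V → E3) : InfMotions Γ p = Flex Γ p := by
  ext q
  rw [Pool.Agent.H26R.mem_Flex]
  exact Iff.rfl

lemma dof_eq (Γ : SimpleGraph V) (p : V → E3) : dof Γ p = finrank ℝ (Flex Γ p) := by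
  rw [dof, InfMotions_eq]

lemma rigidVelocity_eq (ω t x : E3) : rigidVelocity ω t x = ev x (ω, t) := by
  rw [ev_apply]
  ext k
  fin_cases k <;> simp [rigidVelocity, crossE]

variable [Fintype V]

lemma RigidIn.rigidOn {Γ : SimpleGraph V} {B : Finset V} (h : RigidIn Γ B) : RigidOn Γ B := by
  unfold RigidIn at h
  unfold RigidOn
  filter_upwards [h] with p hp q hq
  obtain ⟨ω, t, h1⟩ := hp q (by rw [← InfMotions_eq] at hq; exact hq)
  exact ⟨(ω, t), fun x hx => by rw [h1 x hx, rigidVelocity_eq]⟩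

lemma rigidOn_clique {Γ : SimpleGraph V} {B : Finset V} (h3 : 3 ≤ B.card)
    (h : Γ.IsClique (B : Set V)) : RigidOn Γ B := by
  unfold RigidOn
  filter_upwards [ae_GP (V := V)] with p hp q hq
  rw [Pool.Agent.H26R.mem_Flex] at hq
  exact hp.clique h3 fun x hx y hy hxy => hq x y (h hx hy hxy)

lemma rigidOn_induce {Γ : SimpleGraph V} {B : Finset V} (h4 : 4 ≤ B.card)
    (h : GenericallyRigid (Γ.induce (B : Set V))) : RigidOn Γ B := by
  classical
  have hcard : 4 ≤ Fintype.card ((B : Finset V) : Set V) := by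
    rw [← Nat.card_eq_fintype_card, Nat.card_coe_set_eq, Set.ncard_coe_finset]
    exact h4
  obtain ⟨p, hp⟩ := Pool.Agent.H26R.exists_of_genericallyRigid hcard h
  exact ae_rigid_of_RX h4 ((Pool.Agent.H26R.RX_iff _ _).2 ⟨p, hp⟩)

lemma Bodies.fiveSystem {ι : Type} {Γ : SimpleGraph V} {B : ι → Finset V} (hB : Bodies Γ B) :
    FiveSystem Γ B :=
  ⟨hB.three, hB.two, hB.joint, fun x i hi => hB.bar x i hi, hB.free⟩

lemma Bodies.rigidOn {ι : Type} {Γ : SimpleGraph V} {B : ι → Finset V} (hB : Bodies Γ B)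
    (i : ι) : RigidOn Γ (B i) := by
  rcases hB.rigid i with h | h | h
  · exact rigidOn_clique (hB.three i) h
  · exact rigidOn_induce h.1 h.2
  · exact h.rigidOn

/-- The theorem for systems of bodies. -/
theorem bodies_main {ι : Type} [Fintype ι] (Γ : SimpleGraph V) (B : ι → Finset V)
    (hB : Bodies Γ B) :
    (∀ᵐ p : V → E3 ∂volume,
      (∀ (m : ℕ) (X : Fin m → Finset V), IsCover Γ X → freedom Γ X ≤ dof Γ p) ∧
      ∃ (m : ℕ) (X : Fin m → Finset V), IsCover Γ X ∧ (∀ i, ∃ j, B i ⊆ X j) ∧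
        freedom Γ X = dof Γ p) ∧
    (4 ≤ Fintype.card V → (GenericallyRigid Γ ↔
      ∀ (m : ℕ) (X : Fin m → Finset V), IsCover Γ X → (∀ i, ∃ j, B i ⊆ X j) →
        freedom Γ X ≤ 6)) := by
  obtain ⟨m, X, hX, hBX, hae⟩ := five_formula Γ B hB.fiveSystem hB.rigidOn
  constructor
  · filter_upwards [hae, ae_GP (V := V)] with p h1 h2
    rw [dof_eq]
    exact ⟨fun m' X' hX' => lower_cover Γ h2 hX', m, X, hX, hBX, h1.symm⟩
  · intro hV
    rw [Pool.Agent.H26R.genericallyRigid_iff hV]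
    constructor
    · rintro ⟨p₀, hp₀⟩ m' X' hX' _
      obtain ⟨p, h1, h2⟩ := ((ae_GP (V := V)).and (ae_Flex_le Γ p₀)).exists
      refine (lower_cover Γ h1 hX').trans ?_
      exact_mod_cast h2.trans hp₀
    · intro h
      obtain ⟨p, hp⟩ := hae.exists
      refine ⟨p, ?_⟩
      have h1 := h m X hX hBX
      rw [← hp] at h1
      exact_mod_cast h1

/-- The theorem for claw-free graphs. -/
theorem claw_main (Γ : SimpleGraph V)
    (hcl : ∀ v x y z, Γ.Adj v x → Γ.Adj v y → Γ.Adj v z → x ≠ y → x ≠ z → y ≠ z →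
      Γ.Adj x y ∨ Γ.Adj x z ∨ Γ.Adj y z) :
    (∀ᵐ p : V → E3 ∂volume, IsGreatest
      {x : ℤ | ∃ (m : ℕ) (X : Fin m → Finset V), IsCover Γ X ∧ x = freedom Γ X}
      (dof Γ p : ℤ)) ∧
    (4 ≤ Fintype.card V → (GenericallyRigid Γ ↔
      ∀ (m : ℕ) (X : Fin m → Finset V), IsCover Γ X → freedom Γ X ≤ 6)) := by
  classical
  obtain ⟨h1, h2⟩ := claw_iff (Γ := Γ) hcl
  refine ⟨?_, h2⟩
  filter_upwards [h1] with p hp
  rw [dof_eq]
  exact hp

end

end Pool.Agent.BJ
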