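import Pool.Agent.Lib.MP_37c7bf_BJ.Bars

/-!
Points in general position.
-/

open MeasureTheory Module Topology
open scoped RealInnerProductSpace

namespace Pool.Agent.BJ

open Pool.Agent.H26R (E3 crossE)

section
variable {V : Type}

/-- General position: distinct points, no three collinear, no four coplanar. -/
def GP (p : V → E3) : Prop :=
  Function.Injective p ∧
  (∀ x y z : V, x ≠ y → x ≠ z → y ≠ z → LinearIndependent ℝ ![p y - p x, p z - p x]) ∧
  ∀ x y z w : V, x ≠ y → x ≠ z → x ≠ w → y ≠ z → y ≠ w → z ≠ w →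
    LinearIndependent ℝ ![p y - p x, p z - p x, p w - p x]

/-- The condition of general position for the points `x` and `y i`. -/
def LIc {k : ℕ} (x : V) (y : Fin k → V) (p : V → E3) : Prop :=
  LinearIndependent ℝ (fun i => p (y i) - p x)

lemma LIc_iff_ker {k : ℕ} (x : V) (y : Fin k → V) (p : V → E3) : LIc x y p ↔
    finrank ℝ (LinearMap.ker (Fintype.linearCombination ℝ (fun i => p (y i) - p x))) = 0 := by
  rw [Submodule.finrank_eq_zero, LinearMap.ker_eq_bot]
  exact linearIndependent_iff_injective_fintypeLinearCombination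

/-- The linear combinations as a linear function of the vectors. -/
noncomputable def lcomb (k : ℕ) : (Fin k → E3) →ₗ[ℝ] (Fin k → ℝ) →ₗ[ℝ] E3 :=
  LinearMap.mk₂ ℝ (fun v c => ∑ i, c i • v i)
    (by intro v w c
        change ∑ i, c i • (v i + w i) = _
        simp only [smul_add, Finset.sum_add_distrib])
    (by intro r v c
        change ∑ i, c i • (r • v i) = _
        rw [Finset.smul_sum]
        exact Finset.sum_congr rfl fun i _ => smul_comm _ _ _)
    (by intro v c d
        change ∑ i, (c i + d i) • v i = _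
        simp only [add_smul, Finset.sum_add_distrib])
    (by intro r v c
        change ∑ i, (r * c i) • v i = _
        rw [Finset.smul_sum]
        exact Finset.sum_congr rfl fun i _ => mul_smul _ _ _)

lemma lcomb_eq {k : ℕ} (v : Fin k → E3) : Fintype.linearCombination ℝ v = lcomb k v := by
  apply LinearMap.ext
  intro c
  rfl

lemma LIc_stable [DecidableEq V] {k : ℕ} (x : V) (y : Fin k → V) : Stable (LIc x y) := by
  intro p hp j
  have haff : IsAff (fun t : E3 => Fintype.linearCombination ℝ
      (fun i => Function.update p j t (y i) - Function.update p j t x)) := by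
    have hv : ∀ v : V, ∃ (w0 : E3) (l : E3 →ₗ[ℝ] E3), ∀ t, Function.update p j t v = w0 + l t := by
      intro v
      by_cases h : v = j
      · exact ⟨0, LinearMap.id, fun t => by rw [h, Function.update_self]; simp⟩
      · exact ⟨p v, 0, fun t => by rw [Function.update_of_ne h]; simp⟩
    choose w0 l hw using hv
    refine ⟨lcomb k (fun i => w0 (y i) - w0 x),
      (lcomb k).comp (LinearMap.pi fun i => l (y i) - l x), fun t => ?_⟩
    change Fintype.linearCombination ℝ
      (fun i => Function.update p j t (y i) - Function.update p j t x) = _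
    rw [lcomb_eq, LinearMap.comp_apply, ← map_add]
    congr 1
    funext i
    rw [hw, hw, Pi.add_apply, LinearMap.pi_apply, LinearMap.sub_apply]
    abel
  filter_upwards [haff.ae (p j)] with t ht
  rw [LIc_iff_ker] at hp ⊢
  beta_reduce at ht
  rw [Function.update_eq_self] at ht
  omega

lemma LIc_ae [Fintype V] {k : ℕ} (x : V) (y : Fin k → V) {p₀ : V → E3} (h0 : LIc x y p₀) :
    ∀ᵐ p : V → E3 ∂volume, LIc x y p := by
  have h := ae_finrank_ker_affine (volume : Measure (V → E3)) 0
    ((lcomb k).comp (LinearMap.pi fun i => LinearMap.proj (R := ℝ) (φ := fun _ : V => E3) (y i) -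
      LinearMap.proj x)) p₀
  filter_upwards [h] with p hp
  rw [LIc_iff_ker] at h0 ⊢
  rw [lcomb_eq] at h0 ⊢
  rw [zero_add, zero_add] at hp
  have h1 : finrank ℝ (LinearMap.ker (lcomb k (fun i => p (y i) - p x))) ≤
    finrank ℝ (LinearMap.ker (lcomb k (fun i => p₀ (y i) - p₀ x))) := hp
  omega

/-- A position satisfying one condition. -/
lemma exists_LIc (k : Fin 4) (x : V) (y : Fin k → V) (hy : Function.Injective y)
    (hx : ∀ i, y i ≠ x) : ∃ p : V → E3, LIc x y p := by
  classical
  have hk : (k : ℕ) ≤ 3 := by omega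
  refine ⟨fun v => if h : ∃ i, y i = v then
    EuclideanSpace.basisFun (Fin 3) ℝ (Fin.castLE hk h.choose) else 0, ?_⟩
  have h1 : (fun i => (fun v => if h : ∃ i, y i = v then
      EuclideanSpace.basisFun (Fin 3) ℝ (Fin.castLE hk h.choose) else (0 : E3)) (y i) -
      (fun v => if h : ∃ i, y i = v then
      EuclideanSpace.basisFun (Fin 3) ℝ (Fin.castLE hk h.choose) else (0 : E3)) x) =
      (fun i => EuclideanSpace.basisFun (Fin 3) ℝ i) ∘ (Fin.castLE hk) := by
    funext i
    have hi : ∃ j, y j = y i := ⟨i, rfl⟩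
    have h2 : hi.choose = i := hy hi.choose_spec
    have h3 : ¬ ∃ j, y j = x := fun ⟨j, hj⟩ => hx j hj
    simp only [dif_pos hi, dif_neg h3, sub_zero, h2, Function.comp_apply]
  unfold LIc
  rw [h1]
  exact (EuclideanSpace.basisFun (Fin 3) ℝ).orthonormal.linearIndependent.comp _
    (Fin.castLE_injective hk)

lemma GP_iff (p : V → E3) : GP p ↔ ∀ (k : Fin 4) (x : V) (y : Fin k → V),
    Function.Injective y → (∀ i, y i ≠ x) → LIc x y p := by
  constructor
  · rintro ⟨h1, h2, h3⟩ k x y hy hx
    fin_cases k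
    · unfold LIc
      exact linearIndependent_empty_type
    · unfold LIc
      exact (linearIndependent_unique_iff (R := ℝ) (ι := Fin 1)
        (v := fun i : Fin 1 => p (y i) - p x)).2 (sub_ne_zero.2 fun h => hx _ (h1 h))
    · have h4 := h2 x (y 0) (y 1) (hx 0).symm (hx 1).symm (fun h => by
        have := hy h; simp at this)
      unfold LIc
      convert h4 using 1
      funext i
      fin_cases i <;> rfl
    · have h4 := h3 x (y 0) (y 1) (y 2) (hx 0).symm (hx 1).symm (hx 2).symm
        (fun h => by have := hy h; simp at this) (fun h => by have := hy h; simp at this)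
        (fun h => by have := hy h; simp at this)
      unfold LIc
      convert h4 using 1
      funext i
      fin_cases i <;> rfl
  · intro h
    refine ⟨?_, ?_, ?_⟩
    · intro u v huv
      by_contra hne
      have h1 := h 1 u (fun _ => v) (fun i j _ => Subsingleton.elim (α := Fin 1) i j)
        (fun _ h => hne h.symm)
      unfold LIc at h1
      have h2 := h1.ne_zero (⟨0, by decide⟩ : Fin ((1 : Fin 4) : ℕ))
      exact h2 (sub_eq_zero.2 huv.symm)
    · intro x y z hxy hxz hyz
      have h1 := h 2 x ![y, z] (by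
        intro i j hij
        fin_cases i <;> fin_cases j <;> simp_all) (by
        intro i
        fin_cases i
        · exact hxy.symm
        · exact hxz.symm)
      unfold LIc at h1
      have e : (fun i : Fin 2 => p ((![y, z] : Fin 2 → V) i) - p x) =
          ![p y - p x, p z - p x] := by
        funext i
        fin_cases i <;> rfl
      rw [← e]
      exact h1
    · intro x y z w hxy hxz hxw hyz hyw hzw
      have h1 := h 3 x ![y, z, w] (by
        intro i j hij
        fin_cases i <;> fin_cases j <;> simp_all) (by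
        intro i
        fin_cases i
        · exact hxy.symm
        · exact hxz.symm
        · exact hxw.symm)
      unfold LIc at h1
      have e : (fun i : Fin 3 => p ((![y, z, w] : Fin 3 → V) i) - p x) =
          ![p y - p x, p z - p x, p w - p x] := by
        funext i
        fin_cases i <;> rfl
      rw [← e]
      exact h1

lemma GP.stable [Finite V] [DecidableEq V] : Stable (GP (V := V)) := by
  intro p hp j
  rw [GP_iff] at hp
  have h : ∀ᵐ t : E3 ∂volume, ∀ c : (k : Fin 4) × V × (Fin k → V),
      Function.Injective c.2.2 → (∀ i, c.2.2 i ≠ c.2.1) →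
        LIc c.2.1 c.2.2 (Function.update p j t) := by
    refine ae_all_iff.2 fun c => ?_
    by_cases h1 : Function.Injective c.2.2
    · by_cases h2 : ∀ i, c.2.2 i ≠ c.2.1
      · filter_upwards [LIc_stable c.2.1 c.2.2 p (hp c.1 c.2.1 c.2.2 h1 h2) j] with t ht
        exact fun _ _ => ht
      · exact Filter.Eventually.of_forall fun t _ h => absurd h h2
    · exact Filter.Eventually.of_forall fun t h => absurd h h1
  filter_upwards [h] with t ht
  rw [GP_iff]
  exact fun k x y h1 h2 => ht ⟨k, x, y⟩ h1 h2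

lemma exists_GP [Finite V] : ∃ p : V → E3, GP p := by
  classical
  obtain ⟨p, hp⟩ := exists_common (C := (k : Fin 4) × V × (Fin k → V))
    (fun c p => Function.Injective c.2.2 → (∀ i, c.2.2 i ≠ c.2.1) → LIc c.2.1 c.2.2 p)
    (fun c => by
      intro p hp j
      by_cases h1 : Function.Injective c.2.2
      · by_cases h2 : ∀ i, c.2.2 i ≠ c.2.1
        · filter_upwards [LIc_stable c.2.1 c.2.2 p (hp h1 h2) j] with t ht
          exact fun _ _ => ht
        · exact Filter.Eventually.of_forall fun t _ h => absurd h h2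
      · exact Filter.Eventually.of_forall fun t h => absurd h h1)
    (fun c => by
      by_cases h1 : Function.Injective c.2.2
      · by_cases h2 : ∀ i, c.2.2 i ≠ c.2.1
        · obtain ⟨p, hp⟩ := exists_LIc c.1 c.2.1 c.2.2 h1 h2
          exact ⟨p, fun _ _ => hp⟩
        · exact ⟨0, fun _ h => absurd h h2⟩
      · exact ⟨0, fun h => absurd h h1⟩)
  refine ⟨p, (GP_iff p).2 fun k x y h1 h2 => hp ⟨k, x, y⟩ h1 h2⟩

lemma ae_GP [Fintype V] : ∀ᵐ p : V → E3 ∂volume, GP p := by
  obtain ⟨p₀, h0⟩ := exists_GP (V := V)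
  rw [GP_iff] at h0
  have h : ∀ᵐ p : V → E3 ∂volume, ∀ c : (k : Fin 4) × V × (Fin k → V),
      Function.Injective c.2.2 → (∀ i, c.2.2 i ≠ c.2.1) → LIc c.2.1 c.2.2 p := by
    refine ae_all_iff.2 fun c => ?_
    by_cases h1 : Function.Injective c.2.2
    · by_cases h2 : ∀ i, c.2.2 i ≠ c.2.1
      · filter_upwards [LIc_ae c.2.1 c.2.2 (h0 c.1 c.2.1 c.2.2 h1 h2)] with t ht
        exact fun _ _ => ht
      · exact Filter.Eventually.of_forall fun t _ h => absurd h h2
    · exact Filter.Eventually.of_forall fun t h => absurd h h1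
  filter_upwards [h] with p hp
  rw [GP_iff]
  exact fun k x y h1 h2 => hp ⟨k, x, y⟩ h1 h2

lemma crossE_ne_zero_of_li {u v : E3} (h : LinearIndependent ℝ ![u, v]) : crossE u v ≠ 0 := by
  intro h1
  have hv : v ≠ 0 := by
    have := h.ne_zero 1
    simpa using this
  obtain ⟨c, hc⟩ := exists_smul_of_crossE hv h1
  rw [LinearIndependent.pair_iff] at h
  have := h 1 (-c) (by rw [hc]; module)
  exact one_ne_zero this.1

lemma crossE_sub_right (a x y : E3) : crossE a (x - y) = crossE a x - crossE a y := by
  ext k; fin_cases k <;> simp [crossE] <;> ring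

/-- A motion fixing three points in general position is zero. -/
lemma GP.eq_zero {p : V → E3} (hp : GP p) {x y z : V} (hxy : x ≠ y) (hxz : x ≠ z) (hyz : y ≠ z)
    {T : Kil} (hx : ev (p x) T = 0) (hy : ev (p y) T = 0) (hz : ev (p z) T = 0) : T = 0 := by
  have hli := hp.2.1 x y z hxy hxz hyz
  rw [ev_apply] at hx hy hz
  have h1 : crossE (p y - p x) T.1 = 0 := by
    rw [crossE_swap, crossE_sub_right, eq_neg_of_add_eq_zero_left hx,
      eq_neg_of_add_eq_zero_left hy, sub_self, neg_zero]
  have h2 : crossE (p z - p x) T.1 = 0 := by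
    rw [crossE_swap, crossE_sub_right, eq_neg_of_add_eq_zero_left hx,
      eq_neg_of_add_eq_zero_left hz, sub_self, neg_zero]
  have h3 : T.1 = 0 := by
    by_contra hne
    obtain ⟨c, hc⟩ := exists_smul_of_crossE hne h1
    obtain ⟨d, hd⟩ := exists_smul_of_crossE hne h2
    have h4 := hli.ne_zero 0
    rw [LinearIndependent.pair_iff] at hli
    have h5 := hli d (-c) (by rw [hc, hd]; module)
    have h6 : c = 0 := by simpa using h5.2
    apply h4
    simp [hc, h6]
  rw [h3, crossE_zero_left, zero_add] at hx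
  exact Prod.ext h3 hx

/-- The motions fixing a set of points. -/
noncomputable def fixK (p : V → E3) (X : Finset V) : Submodule ℝ Kil :=
  ⨅ x ∈ X, LinearMap.ker (ev (p x))

lemma mem_fixK {p : V → E3} {X : Finset V} {T : Kil} :
    T ∈ fixK p X ↔ ∀ x ∈ X, ev (p x) T = 0 := by
  simp [fixK]

/-- Dimension of the space of motions fixing `n` points. -/
def corrN : ℕ → ℕ
  | 0 => 6
  | 1 => 3
  | 2 => 1
  | _ => 0

lemma GP.finrank_fixK {p : V → E3} (hp : GP p) (X : Finset V) :
    finrank ℝ (fixK p X) = corrN X.card := by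
  classical
  rcases Nat.lt_or_ge 2 X.card with h | h
  · obtain ⟨x, hx, y, hy, z, hz, hxy, hxz, hyz⟩ := Finset.two_lt_card.1 h
    have h1 : fixK p X = ⊥ := by
      rw [eq_bot_iff]
      intro T hT
      rw [mem_fixK] at hT
      exact (Submodule.mem_bot ℝ).2 (hp.eq_zero hxy hxz hyz (hT x hx) (hT y hy) (hT z hz))
    obtain ⟨n, hn⟩ : ∃ n, X.card = n + 3 := ⟨X.card - 3, by omega⟩
    rw [h1, finrank_bot, hn]
    rfl
  · have h3 : X.card = 0 ∨ X.card = 1 ∨ X.card = 2 := by omega
    rcases h3 with h3 | h3 | h3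
    · rw [h3]
      rw [Finset.card_eq_zero] at h3
      have : fixK p X = ⊤ := by
        rw [eq_top_iff]
        intro T _
        rw [mem_fixK, h3]
        simp
      rw [this, finrank_top, finrank_Kil]
      rfl
    · rw [h3]
      obtain ⟨x, rfl⟩ := Finset.card_eq_one.1 h3
      have : fixK p {x} = LinearMap.ker (ev (p x)) := by
        ext T
        rw [mem_fixK]
        simp
      rw [this, finrank_ker_ev]
      rfl
    · rw [h3]
      obtain ⟨x, y, hxy, rfl⟩ := Finset.card_eq_two.1 h3
      have : fixK p {x, y} = LinearMap.ker (ev (p x)) ⊓ LinearMap.ker (ev (p y)) := by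
        ext T
        rw [mem_fixK]
        simp
      rw [this, finrank_ker_ev_two (fun h => hxy (hp.1 h))]
      rfl

/-- Velocities of a triangle satisfying the bar conditions come from an angular velocity. -/
lemma exists_omega {u v a b : E3} (h : LinearIndependent ℝ ![u, v]) (hu : ⟪u, a⟫ = 0)
    (hv : ⟪v, b⟫ = 0) (huv : ⟪u - v, a - b⟫ = 0) :
    ∃ ω : E3, crossE ω u = a ∧ crossE ω v = b := by
  have hn := crossE_ne_zero_of_li h
  have hs : ⟪u, b⟫ + ⟪v, a⟫ = 0 := by
    simp only [inner_sub_left, inner_sub_right] at huv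
    linarith
  set n := crossE u v with hn'
  have hnn : ⟪n, n⟫ ≠ 0 := by
    rw [real_inner_self_eq_norm_sq]
    exact pow_ne_zero 2 (norm_ne_zero_iff.2 hn)
  refine ⟨(⟪n, n⟫)⁻¹ • (⟪a, v⟫ • n + ⟪b, n⟫ • u - ⟪a, n⟫ • v), ?_, ?_⟩
  · rw [Pool.Agent.H26R.crossE_smul_left, inv_smul_eq_iff₀ hnn, hn']
    simp only [Pool.Agent.H26R.inner_E3] at hu hv hs ⊢
    ext k
    fin_cases k
    · simp [crossE]
      linear_combination (-(v 1 * (u 0 * v 1 - u 1 * v 0) - v 2 * (u 2 * v 0 - u 0 * v 2))) * hu
    · simp [crossE]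
      linear_combination (-(v 2 * (u 1 * v 2 - u 2 * v 1) - v 0 * (u 0 * v 1 - u 1 * v 0))) * hu
    · simp [crossE]
      linear_combination (-(v 0 * (u 2 * v 0 - u 0 * v 2) - v 1 * (u 1 * v 2 - u 2 * v 1))) * hu
  · rw [Pool.Agent.H26R.crossE_smul_left, inv_smul_eq_iff₀ hnn, hn']
    simp only [Pool.Agent.H26R.inner_E3] at hu hv hs ⊢
    ext k
    fin_cases k
    · simp [crossE]
      linear_combination ((u 2 * v 0 - u 0 * v 2) * v 2 - (u 0 * v 1 - u 1 * v 0) * v 1) * hs +
        (u 1 * (u 0 * v 1 - u 1 * v 0) - u 2 * (u 2 * v 0 - u 0 * v 2)) * hv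
    · simp [crossE]
      linear_combination ((u 0 * v 1 - u 1 * v 0) * v 0 - (u 1 * v 2 - u 2 * v 1) * v 2) * hs +
        (u 2 * (u 1 * v 2 - u 2 * v 1) - u 0 * (u 0 * v 1 - u 1 * v 0)) * hv
    · simp [crossE]
      linear_combination ((u 1 * v 2 - u 2 * v 1) * v 1 - (u 2 * v 0 - u 0 * v 2) * v 0) * hs +
        (u 0 * (u 2 * v 0 - u 0 * v 2) - u 1 * (u 1 * v 2 - u 2 * v 1)) * hv

/-- Infinitesimal motions of a complete graph on at least three points in general position. -/
theorem GP.clique {p : V → E3} (hp : GP p) {B : Finset V} (hB : 3 ≤ B.card) {q : V → E3}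
    (h : ∀ x ∈ B, ∀ y ∈ B, x ≠ y → ⟪p x - p y, q x - q y⟫ = 0) :
    ∃ T : Kil, ∀ x ∈ B, q x = ev (p x) T := by
  classical
  obtain ⟨x, hx, y, hy, z, hz, hxy, hxz, hyz⟩ := Finset.two_lt_card.1 hB
  obtain ⟨ω, h1, h2⟩ := exists_omega (u := p y - p x) (v := p z - p x) (a := q y - q x)
    (b := q z - q x) (hp.2.1 x y z hxy hxz hyz) (h y hy x hx hxy.symm) (h z hz x hx hxz.symm) (by
      have := h y hy z hz hyz
      rwa [sub_sub_sub_cancel_right, sub_sub_sub_cancel_right])
  rw [crossE_sub_right] at h1 h2
  have ex : q x = ev (p x) ((ω, q x - crossE ω (p x)) : Kil) := by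
    rw [ev_apply]
    simp
  have ey : q y = ev (p y) ((ω, q x - crossE ω (p x)) : Kil) := by
    rw [ev_apply]
    rw [sub_eq_sub_iff_add_eq_add] at h1
    change q y = crossE ω (p y) + (q x - crossE ω (p x))
    rw [add_sub, h1]
    abel
  have ez : q z = ev (p z) ((ω, q x - crossE ω (p x)) : Kil) := by
    rw [ev_apply]
    rw [sub_eq_sub_iff_add_eq_add] at h2
    change q z = crossE ω (p z) + (q x - crossE ω (p x))
    rw [add_sub, h2]
    abel
  refine ⟨(ω, q x - crossE ω (p x)), ?_⟩
  generalize ((ω, q x - crossE ω (p x)) : Kil) = T at *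
  intro w hw
  by_cases hwx : w = x
  · rw [hwx, ex]
  by_cases hwy : w = y
  · rw [hwy, ey]
  by_cases hwz : w = z
  · rw [hwz, ez]
  have key : ∀ s ∈ B, w ≠ s → q s = ev (p s) T → ⟪p s - p w, q w - ev (p w) T⟫ = 0 := by
    intro s hs hws hqs
    have e1 := h s hs w hw hws.symm
    have e2 := ev_along T (p s) (p w)
    rw [hqs] at e1
    have e3 : q w - ev (p w) T = (ev (p s) T - ev (p w) T) - (ev (p s) T - q w) := by abel
    rw [e3, inner_sub_right, e1, sub_zero, inner_sub_right, real_inner_comm, e2,
      real_inner_comm, sub_self]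
  have hli := hp.2.2 w x y z hwx hwy hwz hxy hxz hyz
  have hspan : Submodule.span ℝ (Set.range ![p x - p w, p y - p w, p z - p w]) = ⊤ :=
    hli.span_eq_top_of_card_eq_finrank (by simp)
  have hd : ∀ v : E3, ⟪v, q w - ev (p w) T⟫ = 0 := by
    intro v
    have hv : v ∈ Submodule.span ℝ (Set.range ![p x - p w, p y - p w, p z - p w]) := by
      rw [hspan]; trivial
    induction hv using Submodule.span_induction with
    | mem v hv =>
      obtain ⟨i, rfl⟩ := hv
      fin_cases i
      · exact key x hx hwx ex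
      · exact key y hy hwy ey
      · exact key z hz hwz ez
    | zero => simp
    | add a b _ _ ha hb => rw [inner_add_left, ha, hb, add_zero]
    | smul c a _ ha => rw [real_inner_smul_left, ha, mul_zero]
  have := hd (q w - ev (p w) T)
  rw [inner_self_eq_zero, sub_eq_zero] at this
  exact this

end

end Pool.Agent.BJ
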