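import Pool.Agent.Lib.MP_37c7bf_BJ.Bars

/-!
General systems of joint, bar and weld constraints, and generic implication between them.
-/

open MeasureTheory Module Topology
open scoped RealInnerProductSpace

namespace Pool.Agent.BJ

open Pool.Agent.H26R (E3 crossE)

/-- Elementary constraints: the bodies `i`, `j` agree at the point `x`; the bar from the point
`x` of body `i` to the point `y` of body `j`; the bodies `i`, `j` are welded. -/
inductive Con (V ι : Type) : Type
  | joint (x : V) (i j : ι)
  | bar (x y : V) (i j : ι)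
  | weld (i j : ι)

section
variable {ι V : Type}

/-- The constraint holds for the motions `S` at the positions `p`. -/
def Con.Holds (p : V → E3) (S : ι → Kil) : Con V ι → Prop
  | .joint x i j => ev (p x) (S i) = ev (p x) (S j)
  | .bar x y i j => x ≠ y → ⟪ev (p x) (S i) - ev (p y) (S j), p x - p y⟫ = 0
  | .weld i j => S i = S j

/-- The constraint does not depend on the position of `x`. -/
def Con.Avoids (x : V) : Con V ι → Prop
  | .joint y i j => y ≠ x ∨ i = j
  | .bar y z _ _ => y ≠ x ∧ z ≠ x
  | .weld _ _ => True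

/-- The space of families of motions satisfying the constraints. -/
noncomputable def ZG (C : Set (Con V ι)) (p : V → E3) : Submodule ℝ (ι → Kil) where
  carrier := {S | ∀ c ∈ C, c.Holds p S}
  add_mem' := by
    intro S T hS hT c hc
    have h1 := hS c hc
    have h2 := hT c hc
    cases c with
    | joint x i j =>
      simp only [Con.Holds, Pi.add_apply, map_add] at *
      rw [h1, h2]
    | bar x y i j =>
      simp only [Con.Holds, Pi.add_apply, map_add] at *
      intro h
      rw [add_sub_add_comm, inner_add_left, h1 h, h2 h, add_zero]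
    | weld i j =>
      simp only [Con.Holds, Pi.add_apply] at *
      rw [h1, h2]
  zero_mem' := by
    intro c _
    cases c <;> simp [Con.Holds]
  smul_mem' := by
    intro t S hS c hc
    have h1 := hS c hc
    cases c with
    | joint x i j =>
      simp only [Con.Holds, Pi.smul_apply, map_smul] at *
      rw [h1]
    | bar x y i j =>
      simp only [Con.Holds, Pi.smul_apply, map_smul] at *
      intro h
      rw [← smul_sub, real_inner_smul_left, h1 h, mul_zero]
    | weld i j =>
      simp only [Con.Holds, Pi.smul_apply] at *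
      rw [h1]

lemma mem_ZG {C : Set (Con V ι)} {p : V → E3} {S : ι → Kil} :
    S ∈ ZG C p ↔ ∀ c ∈ C, c.Holds p S := Iff.rfl

lemma ZG_union (C D : Set (Con V ι)) (p : V → E3) : ZG (C ∪ D) p = ZG C p ⊓ ZG D p := by
  ext S
  rw [Submodule.mem_inf, mem_ZG, mem_ZG, mem_ZG]
  exact ⟨fun h => ⟨fun c hc => h c (Or.inl hc), fun c hc => h c (Or.inr hc)⟩,
    fun h c hc => hc.elim (h.1 c) (h.2 c)⟩

lemma ZG_anti {C D : Set (Con V ι)} (h : C ⊆ D) (p : V → E3) : ZG D p ≤ ZG C p :=
  fun _ hS c hc => hS c (h hc)

lemma Con.holds_update [DecidableEq V] {c : Con V ι} {x : V} (h : c.Avoids x)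
    (p : V → E3) (t : E3) (S : ι → Kil) :
    c.Holds (Function.update p x t) S ↔ c.Holds p S := by
  cases c with
  | joint y i j =>
    simp only [Con.Avoids] at h
    simp only [Con.Holds]
    rcases h with h | h
    · rw [Function.update_of_ne h]
    · subst h
      simp
  | bar y z i j =>
    simp only [Con.Avoids] at h
    simp only [Con.Holds]
    rw [Function.update_of_ne h.1, Function.update_of_ne h.2]
  | weld i j => exact Iff.rfl

/-- Constraints avoiding `x` do not see the position of `x`. -/
lemma ZG_update [DecidableEq V] {C : Set (Con V ι)} {x : V} (h : ∀ c ∈ C, c.Avoids x)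
    (p : V → E3) (t : E3) : ZG C (Function.update p x t) = ZG C p := by
  ext S
  rw [mem_ZG, mem_ZG]
  exact ⟨fun hS c hc => (Con.holds_update (h c hc) p t S).1 (hS c hc),
    fun hS c hc => (Con.holds_update (h c hc) p t S).2 (hS c hc)⟩

/-- The least dimension. -/
noncomputable def zG (C : Set (Con V ι)) : ℕ :=
  sInf (Set.range fun p : V → E3 => finrank ℝ (ZG C p))

variable (ι) in
/-- Injective positions for which all spaces have least dimension. -/
def GoodG (p : V → E3) : Prop :=
  Function.Injective p ∧ ∀ C : Set (Con V ι), finrank ℝ (ZG C p) = zG C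

lemma zG_le (C : Set (Con V ι)) (p : V → E3) : zG C ≤ finrank ℝ (ZG C p) := Nat.sInf_le ⟨p, rfl⟩

/-- The difference of the motions of two bodies. -/
noncomputable def difp (i j : ι) : (ι → Kil) →ₗ[ℝ] Kil :=
  LinearMap.proj (R := ℝ) (φ := fun _ : ι => Kil) i - LinearMap.proj j

lemma difp_apply (i j : ι) (S : ι → Kil) : difp i j S = S i - S j := rfl

open Classical in
/-- The equation of a constraint. -/
noncomputable def ceq (p : V → E3) : Con V ι → ((ι → Kil) →ₗ[ℝ] (Kil × (E3 × ℝ)))
  | .joint x i j => (0 : (ι → Kil) →ₗ[ℝ] Kil).prod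
      (((ev (p x)).comp (difp i j)).prod (0 : (ι → Kil) →ₗ[ℝ] ℝ))
  | .bar x y i j => if x = y then 0 else (0 : (ι → Kil) →ₗ[ℝ] Kil).prod
      ((0 : (ι → Kil) →ₗ[ℝ] E3).prod (barf (p x) (p y) i j))
  | .weld i j => (difp i j).prod (0 : (ι → Kil) →ₗ[ℝ] (E3 × ℝ))

lemma ceq_eq_zero (p : V → E3) (c : Con V ι) (S : ι → Kil) :
    ceq p c S = 0 ↔ c.Holds p S := by
  classical
  cases c with
  | joint x i j =>
    change ((0 : Kil), (ev (p x) (difp i j S), (0 : ℝ))) = 0 ↔ ev (p x) (S i) = ev (p x) (S j)
    rw [difp_apply, map_sub, ← sub_eq_zero (a := ev (p x) (S i))]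
    simp [Prod.ext_iff]
  | bar x y i j =>
    by_cases h : x = y
    · simp [ceq, Con.Holds, h]
    · have e : ceq p (Con.bar x y i j) = (0 : (ι → Kil) →ₗ[ℝ] Kil).prod
          ((0 : (ι → Kil) →ₗ[ℝ] E3).prod (barf (p x) (p y) i j)) := by
        simp only [ceq, h, if_false]
      rw [e]
      change ((0 : Kil), ((0 : E3), barf (p x) (p y) i j S)) = 0 ↔ _
      rw [Prod.mk_eq_zero, Prod.mk_eq_zero, barf_apply]
      simp [Con.Holds, h]
  | weld i j =>
    change (difp i j S, (0 : E3 × ℝ)) = 0 ↔ S i = S j
    rw [Prod.mk_eq_zero, difp_apply, sub_eq_zero]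
    simp

lemma ceq_affine [DecidableEq V] (p : V → E3) (j : V) (c : Con V ι) :
    IsAff (fun x : E3 => ceq (Function.update p j x) c) := by
  cases c with
  | joint x i k =>
    by_cases h : x = j
    · subst h
      simp only [ceq, Function.update_self]
      exact (IsAff.const _).prod ((IsAff.ev_comp _).prod (IsAff.const _))
    · simp only [ceq, Function.update_of_ne h]
      exact IsAff.const _
  | bar x y i k =>
    by_cases hxy : x = y
    · simp only [ceq, hxy, if_true]
      exact IsAff.const _
    · simp only [ceq, hxy, if_false]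
      refine (IsAff.const _).prod ((IsAff.const _).prod ?_)
      by_cases h1 : x = j
      · subst h1
        simp only [Function.update_self, Function.update_of_ne (Ne.symm hxy)]
        exact barf_affine _ _ _
      · by_cases h2 : y = j
        · subst h2
          simp only [Function.update_self, Function.update_of_ne h1, barf_symm (p x)]
          exact barf_affine _ _ _
        · simp only [Function.update_of_ne h1, Function.update_of_ne h2]
          exact IsAff.const _
  | weld i k => exact IsAff.const _

open Classical in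
/-- The equations of a system of constraints. -/
noncomputable def geq (C : Set (Con V ι)) (p : V → E3) :
    (ι → Kil) →ₗ[ℝ] (Con V ι → Kil × (E3 × ℝ)) :=
  LinearMap.pi fun c => if c ∈ C then ceq p c else 0

lemma ZG_eq_ker (C : Set (Con V ι)) (p : V → E3) : ZG C p = LinearMap.ker (geq C p) := by
  classical
  ext S
  rw [mem_ZG, LinearMap.mem_ker]
  constructor
  · intro h
    funext c
    unfold geq
    rw [LinearMap.pi_apply]
    split_ifs with hc
    · exact (ceq_eq_zero p c S).2 (h c hc)
    · rfl
  · intro h c hc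
    have h1 := congrFun h c
    unfold geq at h1
    rw [LinearMap.pi_apply, if_pos hc] at h1
    exact (ceq_eq_zero p c S).1 h1

lemma geq_affine [DecidableEq V] (C : Set (Con V ι)) (p : V → E3) (j : V) :
    IsAff (fun x : E3 => geq C (Function.update p j x)) := by
  classical
  refine IsAff.pi fun c => ?_
  by_cases h : c ∈ C
  · simp only [h, if_true]
    exact ceq_affine p j c
  · simp only [h, if_false]
    exact IsAff.const _

lemma stableG_aux [Finite ι] [DecidableEq V] (C : Set (Con V ι)) :
    Stable (fun p => finrank ℝ (ZG C p) = zG C) := by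
  intro p hp j
  filter_upwards [(geq_affine C p j).ae (p j)] with x hx
  rw [← ZG_eq_ker, ← ZG_eq_ker, Function.update_eq_self, hp] at hx
  exact le_antisymm hx (zG_le C _)

lemma stable_injective [Finite V] [DecidableEq V] :
    Stable (fun p : V → E3 => Function.Injective p) := by
  intro p hp j
  have hfin : (Set.range p).Finite := Set.finite_range p
  have h1 : ∀ᵐ x : E3 ∂volume, x ∉ Set.range p := hfin.countable.ae_notMem _
  filter_upwards [h1] with x hx
  intro u v huv
  by_cases hu : u = j
  · subst hu
    by_cases hv : v = u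
    · exact hv.symm
    · rw [Function.update_self, Function.update_of_ne hv] at huv
      exact absurd ⟨v, huv.symm⟩ hx
  · by_cases hv : v = j
    · subst hv
      rw [Function.update_self, Function.update_of_ne hu] at huv
      exact absurd ⟨u, huv⟩ hx
    · rw [Function.update_of_ne hu, Function.update_of_ne hv] at huv
      exact hp huv

lemma exists_injective [Finite V] : ∃ p : V → E3, Function.Injective p := by
  obtain ⟨n, ⟨e⟩⟩ := Finite.exists_equiv_fin V
  refine ⟨fun v => Infinite.natEmbedding E3 (e v), fun u v h => ?_⟩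
  exact e.injective (Fin.ext ((Infinite.natEmbedding E3).injective h))

instance finite_con [Finite ι] [Finite V] : Finite (Con V ι) := by
  apply Finite.of_injective (β := (V × ι × ι) ⊕ ((V × V × ι × ι) ⊕ (ι × ι)))
    (fun c => match c with
      | .joint x i j => Sum.inl (x, i, j)
      | .bar x y i j => Sum.inr (Sum.inl (x, y, i, j))
      | .weld i j => Sum.inr (Sum.inr (i, j)))
  intro c d h
  cases c <;> cases d <;> simp_all

lemma GoodG.stable [Finite ι] [Finite V] [DecidableEq V] : Stable (GoodG (V := V) ι) := by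
  intro p hp j
  have h1 : ∀ᵐ x : E3 ∂volume, ∀ C : Set (Con V ι),
      finrank ℝ (ZG C (Function.update p j x)) = zG C :=
    ae_all_iff.2 fun C => stableG_aux C p (hp.2 C) j
  filter_upwards [h1, stable_injective p hp.1 j] with x hx hx'
  exact ⟨hx', hx⟩

lemma exists_goodG [Finite ι] [Finite V] : ∃ p : V → E3, GoodG ι p := by
  classical
  obtain ⟨p, hp⟩ := exists_common (C := Option (Set (Con V ι)))
    (fun o p => match o with
      | none => Function.Injective p
      | some C => finrank ℝ (ZG C p) = zG C)
    (fun o => match o with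
      | none => stable_injective
      | some C => stableG_aux C)
    (fun o => match o with
      | none => exists_injective
      | some C => Nat.sInf_mem (Set.range_nonempty _))
  exact ⟨p, hp none, fun C => hp (some C)⟩

/-- Generic implication between systems of constraints. -/
def Imp (C D : Set (Con V ι)) : Prop := ∀ p, GoodG ι p → ZG C p ≤ ZG D p

/-- Generic implication can be tested at one good position. -/
lemma Imp.of_one [Finite ι] [Finite V] {C D : Set (Con V ι)} {p : V → E3} (hp : GoodG ι p)
    (h : ZG C p ≤ ZG D p) : Imp C D := by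
  intro q hq
  have h1 : zG (C ∪ D) = zG C := by
    rw [← hp.2, ← hp.2, ZG_union, inf_eq_left.2 h]
  have h2 : ZG (C ∪ D) q = ZG C q :=
    Submodule.eq_of_le_of_finrank_eq (ZG_anti Set.subset_union_left q) (by
      rw [hq.2, hq.2, h1])
  rw [ZG_union] at h2
  exact inf_eq_left.1 h2

/-- The constraints of `ZB`. -/
def con (a b : V → ι) (L : SimpleGraph V) (r : Setoid ι) : Set (Con V ι) :=
  {c | (∃ i j, r i j ∧ c = .weld i j) ∨ (∃ x, c = .joint x (a x) (b x)) ∨
    ∃ x y, L.Adj x y ∧ c = .bar x y (a x) (a y)}

lemma ZB_eq_ZG [Fintype V] (a b : V → ι) (L : SimpleGraph V) (r : Setoid ι) (p : V → E3) :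
    ZB a b L r p = ZG (con a b L r) p := by
  ext S
  rw [mem_ZB, mem_Z, mem_ZG]
  constructor
  · rintro ⟨⟨h1, h2⟩, h3⟩ c hc
    rcases hc with ⟨i, j, hij, rfl⟩ | ⟨x, rfl⟩ | ⟨x, y, hxy, rfl⟩
    · exact h1 i j hij
    · exact h2 x (Finset.mem_univ x)
    · exact fun _ => h3 x y hxy
  · intro h
    refine ⟨⟨fun i j hij => ?_, fun x _ => ?_⟩, fun x y hxy => ?_⟩
    · exact h (.weld i j) (Or.inl ⟨i, j, hij, rfl⟩)
    · exact h (.joint x (a x) (b x)) (Or.inr (Or.inl ⟨x, rfl⟩))
    · exact h (.bar x y (a x) (a y)) (Or.inr (Or.inr ⟨x, y, hxy, rfl⟩)) hxy.ne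

lemma zB_eq_zG [Fintype V] (a b : V → ι) (L : SimpleGraph V) (r : Setoid ι) :
    zB a b L r = zG (con a b L r) := by
  unfold zB zG
  congr 2
  funext p
  rw [ZB_eq_ZG]

lemma GoodG.goodB [Fintype V] {a b : V → ι} {p : V → E3} (hp : GoodG ι p) : GoodB a b p := by
  intro L r
  rw [ZB_eq_ZG, zB_eq_zG]
  exact hp.2 _

end

end Pool.Agent.BJ
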