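import Pool.Agent.Lib.MP_37c7bf_BJ.Gen

/-!
Linear algebra: two linear maps to three-space such that, for almost all points `u`, the first
scalar condition implies the second one.
-/

open MeasureTheory Module Topology
open scoped RealInnerProductSpace

namespace Pool.Agent.BJ

open Pool.Agent.H26R (E3 crossE)

/-- If the product of two linear functionals vanishes, one of them vanishes. -/
lemma la_prod {f g : E3} (h : ∀ w : E3, ⟪f, w⟫ * ⟪g, w⟫ = 0) (hf : f ≠ 0) : g = 0 := by
  have hff : ⟪f, f⟫ ≠ 0 := fun h0 => hf (inner_self_eq_zero.1 h0)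
  have h1 : ⟪g, f⟫ = 0 := (mul_eq_zero.1 (h f)).resolve_left hff
  have h2 : ⟪f, g⟫ = 0 := by rw [real_inner_comm]; exact h1
  have h3 := h (f + g)
  rw [inner_add_right, inner_add_right, h1, h2, add_zero, zero_add] at h3
  exact inner_self_eq_zero.1 ((mul_eq_zero.1 h3).resolve_left hff)

theorem la {Y : Type*} [AddCommGroup Y] [Module ℝ Y] (α G : Y →ₗ[ℝ] E3) {c1 c2 : E3}
    (hc : c1 ≠ c2)
    (h : ∀ᵐ u : E3 ∂volume, ∀ S, ⟪α S, u - c1⟫ = 0 → ⟪G S, u - c2⟫ = 0) :
    G = 0 ∨
    (∃ (η : Y →ₗ[ℝ] ℝ) (e f : E3), (∀ S, α S = η S • f) ∧ ∀ S, G S = η S • e) ∨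
    ∃ c : ℝ, c ≠ 0 ∧ (∀ S, G S = c • α S) ∧ ∀ S, ⟪α S, c1 - c2⟫ = 0 := by
  have hQ : ∀ (S S' : Y) (u : E3),
      ⟪α S, u - c1⟫ * ⟪G S', u - c2⟫ - ⟪α S', u - c1⟫ * ⟪G S, u - c2⟫ = 0 := by
    intro S S'
    have hcont : Continuous fun u : E3 =>
        ⟪α S, u - c1⟫ * ⟪G S', u - c2⟫ - ⟪α S', u - c1⟫ * ⟪G S, u - c2⟫ := by fun_prop
    have h1 : (fun u : E3 =>
        ⟪α S, u - c1⟫ * ⟪G S', u - c2⟫ - ⟪α S', u - c1⟫ * ⟪G S, u - c2⟫) =ᵐ[volume]
        fun _ => (0 : ℝ) := by
      filter_upwards [h] with u hu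
      have h2 := hu (⟪α S, u - c1⟫ • S' - ⟪α S', u - c1⟫ • S) (by
        rw [map_sub, map_smul, map_smul, inner_sub_left, real_inner_smul_left,
          real_inner_smul_left]
        ring)
      rw [map_sub, map_smul, map_smul, inner_sub_left, real_inner_smul_left,
        real_inner_smul_left] at h2
      exact h2
    exact congrFun ((hcont.ae_eq_iff_eq volume continuous_const).1 h1)
  have q : ∀ (S S' : Y) (w : E3), ⟪α S, w⟫ * ⟪G S', w⟫ = ⟪α S', w⟫ * ⟪G S, w⟫ ∧
      ⟪α S, w⟫ * ⟪G S', c1 - c2⟫ = ⟪α S', w⟫ * ⟪G S, c1 - c2⟫ := by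
    intro S S' w
    have h1 := hQ S S' (c1 + w)
    have h2 := hQ S S' (c1 - w)
    have e1 : c1 + w - c1 = w := by abel
    have e2 : c1 + w - c2 = w + (c1 - c2) := by abel
    have e3 : c1 - w - c1 = -w := by abel
    have e4 : c1 - w - c2 = -w + (c1 - c2) := by abel
    rw [e1, e2, inner_add_right, inner_add_right] at h1
    rw [e3, e4, inner_add_right, inner_add_right, inner_neg_right, inner_neg_right,
      inner_neg_right, inner_neg_right] at h2
    constructor <;> linarith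
  by_cases hα : ∀ S, α S = 0
  · left
    apply LinearMap.ext
    intro S
    have hcont : Continuous fun u : E3 => ⟪G S, u - c2⟫ := by fun_prop
    have h1 : (fun u : E3 => ⟪G S, u - c2⟫) =ᵐ[volume] fun _ => (0 : ℝ) := by
      filter_upwards [h] with u hu
      exact hu S (by rw [hα, inner_zero_left])
    have h2 := congrFun ((hcont.ae_eq_iff_eq volume continuous_const).1 h1) (c2 + G S)
    have e1 : c2 + G S - c2 = G S := by abel
    change ⟪G S, c2 + G S - c2⟫ = 0 at h2
    rw [e1] at h2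
    exact inner_self_eq_zero.1 h2
  · push Not at hα
    obtain ⟨S1, hS1⟩ := hα
    by_cases hg : ∃ c : ℝ, G S1 = c • α S1
    · obtain ⟨c, hc'⟩ := hg
      have hG : ∀ S, G S = c • α S := by
        intro S
        have h1 : ∀ w, ⟪α S1, w⟫ * ⟪c • α S - G S, w⟫ = 0 := by
          intro w
          have h2 := (q S S1 w).1
          rw [hc', real_inner_smul_left] at h2
          rw [inner_sub_left, real_inner_smul_left]
          linarith
        exact (sub_eq_zero.1 (la_prod h1 hS1)).symm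
      by_cases hc0 : c = 0
      · left
        apply LinearMap.ext
        intro S
        rw [hG, hc0, zero_smul]
        rfl
      · by_cases hd : ∀ S, ⟪α S, c1 - c2⟫ = 0
        · exact Or.inr (Or.inr ⟨c, hc0, hG, hd⟩)
        · push Not at hd
          obtain ⟨S', hS'⟩ := hd
          right
          left
          have h6 : ∀ S, α S = ((⟪α S', c1 - c2⟫)⁻¹ • (innerₛₗ ℝ (c1 - c2)).comp α) S •
              α S' := by
            intro S
            have h1 : ⟪α S', c1 - c2⟫ • α S - ⟪α S, c1 - c2⟫ • α S' = 0 := by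
              apply inner_self_eq_zero (𝕜 := ℝ).1
              have h2 := (q S S' (⟪α S', c1 - c2⟫ • α S - ⟪α S, c1 - c2⟫ • α S')).2
              rw [hG, hG, real_inner_smul_left, real_inner_smul_left] at h2
              have h3 : c * (⟪α S', c1 - c2⟫ *
                  ⟪α S, ⟪α S', c1 - c2⟫ • α S - ⟪α S, c1 - c2⟫ • α S'⟫ -
                  ⟪α S, c1 - c2⟫ *
                  ⟪α S', ⟪α S', c1 - c2⟫ • α S - ⟪α S, c1 - c2⟫ • α S'⟫) = 0 := by linarith
              have h4 := (mul_eq_zero.1 h3).resolve_left hc0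
              nth_rewrite 1 [inner_sub_left]
              rw [real_inner_smul_left, real_inner_smul_left]
              exact h4
            have h5 : ((⟪α S', c1 - c2⟫)⁻¹ • (innerₛₗ ℝ (c1 - c2)).comp α) S =
                (⟪α S', c1 - c2⟫)⁻¹ * ⟪α S, c1 - c2⟫ := by
              rw [← real_inner_comm (α S)]
              rfl
            rw [h5, mul_smul, ← sub_eq_zero.1 h1, smul_smul, inv_mul_cancel₀ hS', one_smul]
          refine ⟨_, c • α S', α S', h6, fun S => ?_⟩
          rw [hG S, smul_comm _ c, ← h6 S]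
    · -- `α` has rank one
      have hff : ⟪α S1, α S1⟫ ≠ 0 := fun h0 => hS1 (inner_self_eq_zero.1 h0)
      have key : ∀ a : E3, (∀ w, ⟪α S1, w⟫ = 0 → ⟪a, w⟫ * ⟪G S1, w⟫ = 0) →
          a = (⟪α S1, a⟫ / ⟪α S1, α S1⟫) • α S1 := by
        intro a ha
        have hg' : G S1 - (⟪α S1, G S1⟫ / ⟪α S1, α S1⟫) • α S1 ≠ 0 := fun h0 =>
          hg ⟨_, sub_eq_zero.1 h0⟩
        have h1 : ∀ w, ⟪G S1 - (⟪α S1, G S1⟫ / ⟪α S1, α S1⟫) • α S1, w⟫ *
            ⟪a - (⟪α S1, a⟫ / ⟪α S1, α S1⟫) • α S1, w⟫ = 0 := by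
          intro w
          have h2 := ha (w - (⟪α S1, w⟫ / ⟪α S1, α S1⟫) • α S1) (by
            rw [inner_sub_right, real_inner_smul_right, div_mul_cancel₀ _ hff, sub_self])
          have e1 : ∀ b : E3, ⟪b - (⟪α S1, b⟫ / ⟪α S1, α S1⟫) • α S1, w⟫ =
              ⟪b, w - (⟪α S1, w⟫ / ⟪α S1, α S1⟫) • α S1⟫ := by
            intro b
            rw [inner_sub_left, inner_sub_right, real_inner_smul_left, real_inner_smul_right,
              real_inner_comm (α S1) b]
            ring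
          rw [e1, e1, mul_comm]
          exact h2
        exact sub_eq_zero.1 (la_prod h1 hg')
      right
      left
      refine ⟨(⟪α S1, α S1⟫)⁻¹ • (innerₛₗ ℝ (α S1)).comp α, G S1, α S1, ?_⟩
      have h5 : ∀ S, ((⟪α S1, α S1⟫)⁻¹ • (innerₛₗ ℝ (α S1)).comp α) S =
          ⟪α S1, α S⟫ / ⟪α S1, α S1⟫ := by
        intro S
        rw [div_eq_inv_mul]
        rfl
      have h6 : ∀ S, α S = (⟪α S1, α S⟫ / ⟪α S1, α S1⟫) • α S1 := by
        intro S
        refine key _ fun w hw => ?_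
        rw [(q S S1 w).1, hw, zero_mul]
      refine ⟨fun S => by rw [h5]; exact h6 S, fun S => ?_⟩
      rw [h5]
      have h7 : ∀ w, ⟪α S1, w⟫ * ⟪(⟪α S1, α S⟫ / ⟪α S1, α S1⟫) • G S1 - G S, w⟫ = 0 := by
        intro w
        have h8 := (q S S1 w).1
        rw [h6 S, real_inner_smul_left] at h8
        rw [inner_sub_left, real_inner_smul_left]
        linarith
      exact (sub_eq_zero.1 (la_prod h7 hS1)).symm

end Pool.Agent.BJ
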