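import Pool.Agent.Lib.MP_37c7bf_BJ.Upper
import Pool.Agent.Lib.MP_37c7bf_BJ.Comb

/-!
No nontrivial linear relation `S u - S w = c (S v - S w)` holds at all good positions.
-/

open MeasureTheory Module Topology
open scoped RealInnerProductSpace

namespace Pool.Agent.BJ

open Pool.Agent.H26R (E3 crossE)

section LemRAux

variable {ι J : Type} [Fintype ι] [Fintype J] (a b : J → ι)

/-- Hypothesis on the expected dimension for all smaller or coarser structures. -/
def LForm (E : Finset J) (r : Setoid ι) : Prop :=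
  ∀ E' ⊆ E, ∀ r', r ≤ r' → ∃ s, r' ≤ s ∧ (zdim a b E' r' : ℤ) ≤ val a b E' s

def LRel (c : ℝ) (u v w : ι) (E : Finset J) (r : Setoid ι) : Prop :=
  ∀ p, Good a b p → ∀ S ∈ Z a b E r p, S u - S w = c • (S v - S w)

def LCon (v w : ι) (E : Finset J) (r : Setoid ι) : Prop :=
  ∀ p, Good a b p → ∀ S ∈ Z a b E r p, S v = S w

omit [Fintype J] in
lemma LForm.mono {E E' : Finset J} {r r' : Setoid ι} (h : LForm a b E r) (hE : E' ⊆ E)
    (hr : r ≤ r') : LForm a b E' r' :=
  fun F hF s hs => h F (hF.trans hE) s (hr.trans hs)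

/-- Subspaces of relative motions: the heart of the deletion step. -/
lemma lemR_spaces {R Ub : Submodule ℝ Kil} (hlt : R < Ub) {m : ℕ} (hm : 1 ≤ m)
    (h : ∀ᵐ x : E3 ∂volume, Ub ⊓ LinearMap.ker (ev x) ≤ R ∧
      finrank ℝ ↥(Ub ⊓ LinearMap.ker (ev x)) = m) : m = 1 ∧ 4 ≤ finrank ℝ Ub := by
  have hfin : finrank ℝ R < finrank ℝ Ub := Submodule.finrank_lt_finrank_of_lt hlt
  have key : ∀ x : E3, Ub ⊓ LinearMap.ker (ev x) ≤ R →
      Ub ⊓ LinearMap.ker (ev x) = R ⊓ LinearMap.ker (ev x) := by
    intro x hx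
    apply le_antisymm
    · exact le_inf hx inf_le_right
    · exact inf_le_inf_right _ hlt.le
  rcases Nat.lt_or_ge (finrank ℝ R) 3 with h2 | h3
  · exfalso
    obtain ⟨x, ⟨hx1, hx2⟩, hx3⟩ := (h.and (eval_two R (by omega))).exists
    rw [key x hx1, hx3, finrank_bot] at hx2
    omega
  · rcases Nat.lt_or_ge (finrank ℝ R) 4 with h4 | h4
    · obtain ⟨x, ⟨hx1, hx2⟩, hx3⟩ := (h.and (eval_three R (by omega))).exists
      rw [key x hx1] at hx2
      omega
    · exfalso
      obtain ⟨x, ⟨⟨hx1, hx2⟩, hx3⟩, hx4⟩ :=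
        ((h.and (eval_four R h4)).and (eval_four Ub (by omega))).exists
      rw [hx2] at hx4
      rw [key x hx1] at hx2
      omega

/-- Deletion of a joint where the relation fails. -/
lemma lemR_delete [DecidableEq J] {c : ℝ} {u v w : ι} {E : Finset J} {r : Setoid ι}
    (hrel : LRel a b c u v w E r)
    (h1 : ∀ s, r < s → zdim a b E s < zdim a b E r) {j : J} (hj : j ∈ E)
    {p₀ : J → E3} (hp₀ : Good a b p₀)
    (hfail : ∃ S ∈ Z a b (E.erase j) r p₀, S u - S w ≠ c • (S v - S w)) :
    ¬ r (a j) (b j) ∧ zdim a b E r = zdim a b E (weld r (a j) (b j)) + 1 ∧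
      4 ≤ finrank ℝ (U a b (E.erase j) r p₀ (a j) (b j)) := by
  obtain ⟨S₀, hS₀, hne⟩ := hfail
  have hins : insert j (E.erase j) = E := Finset.insert_erase hj
  have hnl : ¬ r (a j) (b j) := by
    intro hr
    apply hne
    apply hrel p₀ hp₀
    rw [← hins, mem_Z_insert]
    refine ⟨hS₀, ?_⟩
    rw [(mem_Z.1 hS₀).1 _ _ hr, sub_self, map_zero]
  -- the difference map
  set δ : (ι → Kil) →ₗ[ℝ] Kil :=
    LinearMap.proj (R := ℝ) (φ := fun _ : ι => Kil) (a j) - LinearMap.proj (b j) with hδ
  have hδa : ∀ S : ι → Kil, δ S = S (a j) - S (b j) := fun S => rfl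
  set ρ : (ι → Kil) →ₗ[ℝ] Kil :=
    LinearMap.proj (R := ℝ) (φ := fun _ : ι => Kil) u -
      LinearMap.proj (R := ℝ) (φ := fun _ : ι => Kil) w -
      c • (LinearMap.proj (R := ℝ) (φ := fun _ : ι => Kil) v -
        LinearMap.proj (R := ℝ) (φ := fun _ : ι => Kil) w) with hρ
  have hρa : ∀ S : ι → Kil, ρ S = S u - S w - c • (S v - S w) := fun S => rfl
  set R : Submodule ℝ Kil := (Z a b (E.erase j) r p₀ ⊓ LinearMap.ker ρ).map δ with hR
  set Ub : Submodule ℝ Kil := U a b (E.erase j) r p₀ (a j) (b j) with hUb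
  have hUb' : Ub = (Z a b (E.erase j) r p₀).map δ := rfl
  have hcongr : ∀ x : E3, Z a b (E.erase j) r (Function.update p₀ j x) =
      Z a b (E.erase j) r p₀ := by
    intro x
    apply Z_congr
    intro k hk
    rw [Function.update_of_ne (Finset.ne_of_mem_erase hk)]
  have hgood := Good.stable a b p₀ hp₀ j
  have hZx : ∀ x : E3, ∀ S, S ∈ Z a b E r (Function.update p₀ j x) ↔
      S ∈ Z a b (E.erase j) r p₀ ∧ ev x (S (a j) - S (b j)) = 0 := by
    intro x S
    conv_lhs => rw [← hins]
    rw [mem_Z_insert, hcongr, Function.update_self]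
  -- motions killed at good points satisfy the relation
  have hker : ∀ x : E3, Good a b (Function.update p₀ j x) → ∀ S ∈ Z a b (E.erase j) r p₀,
      ev x (S (a j) - S (b j)) = 0 → S ∈ LinearMap.ker ρ := by
    intro x hx S hS h0
    have := hrel _ hx S ((hZx x S).2 ⟨hS, h0⟩)
    rw [LinearMap.mem_ker, hρa, this, sub_self]
  obtain ⟨x₁, hx₁⟩ := hgood.exists
  have hlt : R < Ub := by
    apply lt_of_le_of_ne
    · rw [hUb']
      exact Submodule.map_mono inf_le_left
    · intro heq
      apply hne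
      have hmem : δ S₀ ∈ R := by
        rw [heq, hUb']
        exact Submodule.mem_map_of_mem hS₀
      obtain ⟨S', ⟨hS'1, hS'2⟩, hS'3⟩ := hmem
      have hd : S₀ - S' ∈ LinearMap.ker ρ := by
        apply hker x₁ hx₁ _ (Submodule.sub_mem _ hS₀ hS'1)
        have : δ (S₀ - S') = 0 := by rw [map_sub, hS'3, sub_self]
        rw [hδa] at this
        rw [this, map_zero]
      have h3 : S₀ ∈ LinearMap.ker ρ := by
        have := Submodule.add_mem _ hd hS'2
        rwa [sub_add_cancel] at this
      rw [LinearMap.mem_ker, hρa, sub_eq_zero] at h3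
      exact h3
  have hw := h1 _ (lt_weld hnl)
  have hae : ∀ᵐ x : E3 ∂volume, Ub ⊓ LinearMap.ker (ev x) ≤ R ∧
      finrank ℝ ↥(Ub ⊓ LinearMap.ker (ev x)) =
        zdim a b E r - zdim a b E (weld r (a j) (b j)) := by
    filter_upwards [hgood] with x hx
    constructor
    · rintro T ⟨hT1, hT2⟩
      rw [hUb'] at hT1
      obtain ⟨S, hS, rfl⟩ := hT1
      refine ⟨S, ⟨hS, hker x hx S hS ?_⟩, rfl⟩
      exact hT2
    · have e1 := finrank_Z_eq (a := a) (b := b) (E := E) (r := r)
        (p := Function.update p₀ j x) (a j) (b j)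
      rw [hx E r, hx E (weld r (a j) (b j))] at e1
      have e2 : U a b E r (Function.update p₀ j x) (a j) (b j) =
          Ub ⊓ LinearMap.ker (ev x) := by
        have := U_insert (a := a) (b := b) (E := E.erase j) (r := r)
          (p := Function.update p₀ j x) (j := j)
        rw [hins, Function.update_self] at this
        rw [this, hUb]
        congr 1
        unfold U
        rw [hcongr]
      rw [e2] at e1
      omega
  have := lemR_spaces hlt (by omega) hae
  exact ⟨hnl, by omega, this.2⟩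

omit [Fintype ι] [Fintype J] in
/-- No two joints between the same two classes. -/
lemma lemR_no_parallel [DecidableEq J] {E : Finset J} {r : Setoid ι} {j k : J} (hk : k ∈ E)
    (hjk : k ≠ j) (hpr : pr a b r k = pr a b r j) {p₀ : J → E3}
    (h4 : 4 ≤ finrank ℝ (U a b (E.erase j) r p₀ (a j) (b j))) : False := by
  have hk' : k ∈ E.erase j := Finset.mem_erase.2 ⟨hjk, hk⟩
  have hle : U a b (E.erase j) r p₀ (a j) (b j) ≤ LinearMap.ker (ev (p₀ k)) := by
    intro T hT
    obtain ⟨S, hS, rfl⟩ := mem_U.1 hT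
    rw [LinearMap.mem_ker]
    have hjt : ev (p₀ k) (S (a k) - S (b k)) = 0 := by
      rw [map_sub, (mem_Z.1 hS).2 k hk', sub_self]
    unfold pr at hpr
    rw [Sym2.eq_iff] at hpr
    rcases hpr with ⟨h1, h2⟩ | ⟨h1, h2⟩
    · have e1 := (mem_Z.1 hS).1 _ _ (Quotient.exact h1)
      have e2 := (mem_Z.1 hS).1 _ _ (Quotient.exact h2)
      rw [← e1, ← e2]
      exact hjt
    · have e1 := (mem_Z.1 hS).1 _ _ (Quotient.exact h1)
      have e2 := (mem_Z.1 hS).1 _ _ (Quotient.exact h2)
      rw [← e1, ← e2, ← neg_sub, map_neg, hjt, neg_zero]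
  have := Submodule.finrank_mono hle
  rw [finrank_ker_ev] at this
  omega

/-- The structure in which all joints are welded. -/
def weldAll (E : Finset J) (r : Setoid ι) : Setoid ι :=
  r ⊔ Relation.EqvGen.setoid fun x y => ∃ j ∈ E, x = a j ∧ y = b j

omit [Fintype ι] [Fintype J] in
lemma mem_Z_weldAll {E : Finset J} {r : Setoid ι} {p : J → E3} {S : ι → Kil} :
    S ∈ Z a b ∅ (weldAll a b E r) p ↔
      (∀ x y, r x y → S x = S y) ∧ ∀ j ∈ E, S (a j) = S (b j) := by
  constructor
  · intro h
    have h1 := (mem_Z.1 h).1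
    refine ⟨fun x y hxy => h1 x y ?_, fun j hj => h1 _ _ ?_⟩
    · exact (le_sup_left : r ≤ weldAll a b E r) hxy
    · apply (le_sup_right : _ ≤ weldAll a b E r)
      exact Relation.EqvGen.rel _ _ ⟨j, hj, rfl, rfl⟩
  · rintro ⟨h1, h2⟩
    refine mem_Z.2 ⟨fun x y hxy => ?_, fun j hj => absurd hj (Finset.notMem_empty j)⟩
    have hle : weldAll a b E r ≤ Setoid.ker S := by
      apply sup_le
      · intro x y h
        exact h1 x y h
      · intro x y h
        induction h with
        | rel x y h =>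
          obtain ⟨j, hj, rfl, rfl⟩ := h
          exact h2 j hj
        | refl x => rfl
        | symm x y _ ih => exact ih.symm
        | trans x y z _ _ ih1 ih2 => exact ih1.trans ih2
    exact hle hxy

/-- One step of the induction. -/
lemma lemR_step {c : ℝ} (hc0 : c ≠ 0) (hc1 : c ≠ 1) {u v w : ι} {E : Finset J} {r : Setoid ι}
    (IH1 : ∀ s, r < s → LForm a b E s → LRel a b c u v w E s → LCon a b v w E s)
    (IH2 : ∀ E', E' ⊂ E → LForm a b E' r → LRel a b c u v w E' r → LCon a b v w E' r)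
    (hform : LForm a b E r) (hrel : LRel a b c u v w E r) : LCon a b v w E r := by
  classical
  intro p₁ hp₁ S₁ hS₁
  by_contra hne
  -- (i)
  have h1 : ∀ s, r < s → zdim a b E s < zdim a b E r := by
    intro s hs
    apply lt_of_le_of_ne (zdim_mono (Finset.Subset.refl E) hs.le)
    intro heq
    have hZ : ∀ p, Good a b p → Z a b E s p = Z a b E r p := fun p hp =>
      Good.Z_eq (Finset.Subset.refl E) hs.le heq hp
    have := IH1 s hs (hform.mono a b (Finset.Subset.refl E) hs.le)
      (fun p hp S hS => hrel p hp S (by rw [← hZ p hp]; exact hS)) p₁ hp₁ S₁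
      (by rw [hZ p₁ hp₁]; exact hS₁)
    exact hne this
  -- (ii)
  have h2 : (zdim a b E r : ℤ) = val a b E r := by
    obtain ⟨s, hs, hle⟩ := hform E (Finset.Subset.refl E) r le_rfl
    have hup : ∀ t, val a b E t ≤ zdim a b E t := by
      intro t
      have := val_le a b E t p₁
      rwa [hp₁ E t] at this
    rcases eq_or_lt_of_le hs with rfl | hlt
    · exact le_antisymm hle (hup _)
    · exfalso
      have e1 := h1 s hlt
      have e2 := hup s
      omega
  -- (iii)
  have hrS₁ := hrel p₁ hp₁ S₁ hS₁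
  have hvw : ¬ r v w := fun h => hne ((mem_Z.1 hS₁).1 _ _ h)
  have huw : ¬ r u w := by
    intro h
    rw [(mem_Z.1 hS₁).1 _ _ h, sub_self] at hrS₁
    have := (smul_eq_zero.1 hrS₁.symm).resolve_left hc0
    exact hne (sub_eq_zero.1 this)
  have huv : ¬ r u v := by
    intro h
    rw [(mem_Z.1 hS₁).1 _ _ h] at hrS₁
    have h0 : (1 - c) • (S₁ v - S₁ w) = 0 := by
      rw [sub_smul, one_smul, ← hrS₁, sub_self]
    have := (smul_eq_zero.1 h0).resolve_left (sub_ne_zero.2 (Ne.symm hc1))
    exact hne (sub_eq_zero.1 this)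
  -- (iv)
  have hEne : E.Nonempty := by
    rw [Finset.nonempty_iff_ne_empty]
    rintro rfl
    obtain ⟨T, hT⟩ : ∃ T : Kil, T ≠ 0 := by
      refine ⟨(EuclideanSpace.single 0 1, 0), ?_⟩
      intro h
      have h1 := congrArg Prod.fst h
      have h2 := congrArg (fun x : E3 => x 0) h1
      simp at h2
    set S : ι → Kil := fun x => if r x v then T else 0 with hS
    have hSZ : S ∈ Z a b ∅ r p₁ := by
      refine mem_Z.2 ⟨fun x y hxy => ?_, fun j hj => absurd hj (Finset.notMem_empty j)⟩
      have : r x v ↔ r y v := ⟨fun h => r.trans' (r.symm' hxy) h, fun h => r.trans' hxy h⟩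
      simp only [hS, this]
    have := hrel p₁ hp₁ S hSZ
    have e1 : S u = 0 := if_neg huv
    have e2 : S v = T := if_pos (r.refl' v)
    have e3 : S w = 0 := if_neg fun h => hvw (r.symm' h)
    rw [e1, e2, e3, sub_zero, sub_zero] at this
    exact hT ((smul_eq_zero.1 this.symm).resolve_left hc0)
  -- (v)
  have h5 : ∀ j ∈ E, ∃ p₀, Good a b p₀ ∧
      ∃ S ∈ Z a b (E.erase j) r p₀, S u - S w ≠ c • (S v - S w) := by
    intro j hj
    by_contra hcon
    push Not at hcon
    have := IH2 (E.erase j) (Finset.erase_ssubset hj)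
      (hform.mono a b (Finset.erase_subset j E) le_rfl) hcon p₁ hp₁ S₁
      (Z_mono (Finset.erase_subset j E) le_rfl hS₁)
    exact hne this
  have h6 : ∀ j ∈ E, ¬ r (a j) (b j) ∧ zdim a b E r = zdim a b E (weld r (a j) (b j)) + 1 := by
    intro j hj
    obtain ⟨p₀, hp₀, hfail⟩ := h5 j hj
    have := lemR_delete a b hrel h1 hj hp₀ hfail
    exact ⟨this.1, this.2.1⟩
  have hsimple : Simple a b E r := by
    refine ⟨fun j hj => (h6 j hj).1, fun j hj k hk hpr => ?_⟩
    by_contra hjk
    obtain ⟨p₀, hp₀, hfail⟩ := h5 j hj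
    have := lemR_delete a b hrel h1 hj hp₀ hfail
    exact lemR_no_parallel a b hk (Ne.symm hjk) hpr.symm this.2.2
  -- (vii)
  set δ : (ι → Kil) →ₗ[ℝ] Kil :=
    LinearMap.proj (R := ℝ) (φ := fun _ : ι => Kil) v -
      LinearMap.proj (R := ℝ) (φ := fun _ : ι => Kil) w with hδ
  have hδa : ∀ S : ι → Kil, δ S = S v - S w := fun S => rfl
  set N : Submodule ℝ (ι → Kil) := Z a b E r p₁ ⊓ LinearMap.ker δ with hN
  have hmemN : ∀ S, S ∈ N ↔ S ∈ Z a b E r p₁ ∧ S v = S w := by
    intro S
    rw [hN, Submodule.mem_inf, LinearMap.mem_ker, hδa, sub_eq_zero]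
  have hNlt : N < Z a b E r p₁ := by
    apply lt_of_le_of_ne inf_le_left
    intro h
    have : S₁ ∈ N := by
      rw [hN, h]
      exact hS₁
    exact hne ((hmemN S₁).1 this).2
  have hNfin : finrank ℝ N < zdim a b E r := by
    rw [← hp₁ E r]
    exact Submodule.finrank_lt_finrank_of_lt hNlt
  have hNeq : ∀ j ∈ E, Z a b E (weld r (a j) (b j)) p₁ = N := by
    intro j hj
    have hle : Z a b E (weld r (a j) (b j)) p₁ ≤ N := by
      intro S hS
      rw [hmemN]
      refine ⟨Z_mono (Finset.Subset.refl E) (le_weld _ _ _) hS, ?_⟩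
      refine IH1 _ (lt_weld (h6 j hj).1)
        (hform.mono a b (Finset.Subset.refl E) (le_weld _ _ _)) ?_ p₁ hp₁ S hS
      intro p hp T hT
      exact hrel p hp T (Z_mono (Finset.Subset.refl E) (le_weld _ _ _) hT)
    apply Submodule.eq_of_le_of_finrank_le hle
    rw [hp₁ E (weld r (a j) (b j))]
    have := (h6 j hj).2
    omega
  have hNall : N = Z a b ∅ (weldAll a b E r) p₁ := by
    obtain ⟨j₀, hj₀⟩ := hEne
    ext S
    rw [mem_Z_weldAll]
    constructor
    · intro hS
      refine ⟨fun x y hxy => (mem_Z.1 ((hmemN S).1 hS).1).1 x y hxy, fun j hj => ?_⟩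
      rw [← hNeq j hj] at hS
      exact (mem_Z.1 hS).1 _ _ (weld_rel _ _ _)
    · rintro ⟨hS1, hS2⟩
      rw [← hNeq j₀ hj₀, mem_Z_weld]
      refine ⟨mem_Z.2 ⟨hS1, fun j hj => by rw [hS2 j hj]⟩, hS2 j₀ hj₀⟩
  obtain ⟨j₀, hj₀⟩ := hEne
  have e1 : finrank ℝ N = 6 * Nat.card (Quotient (weldAll a b E r)) := by
    rw [hNall, finrank_Z_empty]
  have e2 : finrank ℝ N = zdim a b E (weld r (a j₀) (b j₀)) := by
    rw [← hNeq j₀ hj₀, hp₁]
  have e3 := (h6 j₀ hj₀).2
  have e4 := val_simple hsimple
  omega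

end LemRAux

theorem lemR {ι J : Type} [Fintype ι] [Fintype J] (a b : J → ι) {c : ℝ} (hc0 : c ≠ 0)
    (hc1 : c ≠ 1) (E : Finset J) (r : Setoid ι)
    (hform : ∀ E' ⊆ E, ∀ r', r ≤ r' → ∃ s, r' ≤ s ∧ (zdim a b E' r' : ℤ) ≤ val a b E' s)
    (u v w : ι)
    (hrel : ∀ p, Good a b p → ∀ S ∈ Z a b E r p, S u - S w = c • (S v - S w)) :
    ∀ p, Good a b p → ∀ S ∈ Z a b E r p, S v = S w := by
  have main : ∀ n : ℕ, ∀ r : Setoid ι, Nat.card (Quotient r) = n → ∀ m : ℕ, ∀ E : Finset J,
      E.card = m → LForm a b E r → LRel a b c u v w E r → LCon a b v w E r := by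
    intro n
    induction n using Nat.strong_induction_on with
    | _ n ihn =>
      intro r hr m
      induction m using Nat.strong_induction_on with
      | _ m ihm =>
        intro E hE hf hre
        refine lemR_step a b hc0 hc1 ?_ ?_ hf hre
        · intro s hs hf' hre'
          refine ihn (Nat.card (Quotient s)) ?_ s rfl E.card E rfl hf' hre'
          rw [← hr]
          exact card_quotient_lt hs
        · intro E' hE' hf' hre'
          refine ihm E'.card ?_ E' rfl hf' hre'
          rw [← hE]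
          exact Finset.card_lt_card hE'
  exact main _ r rfl _ E rfl hform hrel

/-- The constant in such a relation does not depend on the position. -/
theorem relation_const {ι J : Type} [Fintype ι] [Fintype J] (a b : J → ι) (E : Finset J)
    (r : Setoid ι) (u v w : ι) (hU : ∀ p, Good a b p → 3 ≤ finrank ℝ (U a b E r p v w))
    (c : (J → E3) → ℝ)
    (hrel : ∀ p, Good a b p → ∀ S ∈ Z a b E r p, S u - S w = c p • (S v - S w))
    {p q : J → E3} (hp : Good a b p) (hq : Good a b q) : c p = c q := by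
  classical
  refine (Good.stable a b).const c ?_ hp hq
  clear hp hq p q
  intro p hp j x hx
  set δ : (ι → Kil) →ₗ[ℝ] Kil :=
    LinearMap.proj (R := ℝ) (φ := fun _ : ι => Kil) v -
      LinearMap.proj (R := ℝ) (φ := fun _ : ι => Kil) w with hδ
  have hδa : ∀ S : ι → Kil, δ S = S v - S w := fun S => rfl
  have hUd : U a b E r p v w = (Z a b E r p).map δ := rfl
  by_contra hcne
  -- motions good for both positions have `S v = S w`
  have hboth : ∀ S ∈ Z a b E r p, S ∈ Z a b E r (Function.update p j x) → δ S = 0 := by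
    intro S h1 h2
    have e1 := hrel p hp S h1
    have e2 := hrel _ hx S h2
    rw [e1] at e2
    have : (c p - c (Function.update p j x)) • (S v - S w) = 0 := by
      rw [sub_smul, e2, sub_self]
    exact (smul_eq_zero.1 this).resolve_left (sub_ne_zero.2 (Ne.symm hcne))
  have hU3 := hU p hp
  by_cases hxp : x = p j
  · apply hcne
    rw [hxp, Function.update_eq_self]
  -- the evaluation
  set φ : (ι → Kil) →ₗ[ℝ] E3 := (ev x).comp
    (LinearMap.proj (R := ℝ) (φ := fun _ : ι => Kil) (a j) -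
      LinearMap.proj (R := ℝ) (φ := fun _ : ι => Kil) (b j)) with hφ
  have hφa : ∀ S : ι → Kil, φ S = ev x (S (a j) - S (b j)) := fun S => rfl
  by_cases hj : j ∈ E
  · set W := Z a b E r p with hW
    -- the image of `φ` lies in a plane
    set P : Submodule ℝ E3 := LinearMap.ker (innerₛₗ ℝ (x - p j)) with hP
    have hPfin : finrank ℝ P ≤ 2 := by
      have h0 : x - p j ≠ 0 := sub_ne_zero.2 hxp
      have hlt : P < ⊤ := by
        rw [lt_top_iff_ne_top]
        intro h
        have : x - p j ∈ P := by rw [h]; trivial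
        rw [hP, LinearMap.mem_ker] at this
        have h2 : ⟪x - p j, x - p j⟫ = (0:ℝ) := this
        exact h0 (inner_self_eq_zero.1 h2)
      have := Submodule.finrank_lt_finrank_of_lt hlt
      rw [finrank_top] at this
      have h3 : finrank ℝ E3 = 3 := by simp [E3]
      omega
    have hmap : W.map φ ≤ P := by
      rintro y ⟨S, hS, rfl⟩
      rw [hφa, hP, LinearMap.mem_ker]
      have e1 := ev_along (S (a j) - S (b j)) x (p j)
      have e2 : ev (p j) (S (a j) - S (b j)) = 0 := by
        rw [map_sub, (mem_Z.1 hS).2 j hj, sub_self]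
      rw [e2, inner_zero_left] at e1
      rw [innerₛₗ_apply_apply, real_inner_comm]
      exact e1
    have hker : W ⊓ LinearMap.ker φ ≤ W ⊓ LinearMap.ker δ := by
      rintro S ⟨h1, h2⟩
      refine ⟨h1, hboth S h1 ?_⟩
      refine mem_Z.2 ⟨(mem_Z.1 h1).1, fun k hk => ?_⟩
      rcases eq_or_ne k j with rfl | hkj
      · rw [Function.update_self]
        have h3 : ev x (S (a k) - S (b k)) = 0 := h2
        rw [map_sub, sub_eq_zero] at h3
        exact h3
      · rw [Function.update_of_ne hkj]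
        exact (mem_Z.1 h1).2 k hk
    have rk : ∀ {V : Type} [AddCommGroup V] [Module ℝ V] (f : (ι → Kil) →ₗ[ℝ] V),
        finrank ℝ ↥(W.map f) + finrank ℝ ↥(W ⊓ LinearMap.ker f) = finrank ℝ W := by
      intro V _ _ f
      have h := LinearMap.finrank_range_add_finrank_ker (f.domRestrict W)
      rw [LinearMap.range_domRestrict] at h
      rw [LinearMap.ker_domRestrict] at h
      rw [← h, ← Submodule.map_comap_subtype, Submodule.finrank_map_subtype_eq]
    have r1 := rk φ
    have r2 := rk δ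
    have r3 := Submodule.finrank_mono hker
    have r4 := (Submodule.finrank_mono hmap).trans hPfin
    rw [hUd] at hU3
    omega
  · have hZeq : Z a b E r (Function.update p j x) = Z a b E r p := by
      apply Z_congr
      intro k hk
      rw [Function.update_of_ne]
      rintro rfl
      exact hj hk
    have : U a b E r p v w = ⊥ := by
      rw [hUd, eq_bot_iff]
      rintro y ⟨S, hS, rfl⟩
      exact hboth S hS (by rw [hZeq]; exact hS)
    rw [this, finrank_bot] at hU3
    omega

end Pool.Agent.BJ
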