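import Pool.Agent.Lib.MP_37c7bf_BJ.Tri

/-!
The rank formula for bars at points of one body, at most two leaving bars at every point.
-/

open MeasureTheory Module Topology
open scoped RealInnerProductSpace

set_option linter.unusedSectionVars false

namespace Pool.Agent.BJ

open Pool.Agent.H26R (E3 crossE)

section
variable {V : Type} [Fintype V]

/-- All bars at `x` and `y` removed. -/
def Max2.strip (L : SimpleGraph V) (x y : V) : SimpleGraph V :=
  L.deleteEdges {e | x ∈ e ∨ y ∈ e}

lemma Max2.strip_adj {L : SimpleGraph V} {x y u v : V} :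
    (Max2.strip L x y).Adj u v ↔ L.Adj u v ∧ u ≠ x ∧ v ≠ x ∧ u ≠ y ∧ v ≠ y := by
  unfold Max2.strip
  rw [SimpleGraph.deleteEdges_adj]
  simp only [Set.mem_ofPred_eq, Sym2.mem_iff]
  constructor
  · rintro ⟨h, h'⟩
    push Not at h'
    exact ⟨h, fun e => h'.1.1 e.symm, fun e => h'.1.2 e.symm, fun e => h'.2.1 e.symm,
      fun e => h'.2.2 e.symm⟩
  · rintro ⟨h, h1, h2, h3, h4⟩
    refine ⟨h, ?_⟩
    push Not
    exact ⟨⟨fun e => h1 e.symm, fun e => h2 e.symm⟩, fun e => h3 e.symm, fun e => h4 e.symm⟩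

lemma Max2.avoids {ι : Type} {a b : V → ι} {L : SimpleGraph V} {r : Setoid ι} {x : V}
    (hx : a x = b x) (hL : ∀ u v, L.Adj u v → u ≠ x ∧ v ≠ x) :
    ∀ c ∈ con a b L r, c.Avoids x := by
  rintro c (⟨i, j, -, rfl⟩ | ⟨y, rfl⟩ | ⟨u, v, huv, rfl⟩)
  · trivial
  · by_cases h : y = x
    · subst h; exact Or.inr hx
    · exact Or.inl h
  · exact hL u v huv

lemma Max2.mem_insert {ι : Type} {c : Con V ι} {C : Set (Con V ι)} {p : V → E3} {S : ι → Kil} :
    S ∈ ZG (insert c C) p ↔ c.Holds p S ∧ S ∈ ZG C p := by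
  rw [mem_ZG, mem_ZG]
  simp only [Set.mem_insert_iff, forall_eq_or_imp]

lemma Max2.mem_single {ι : Type} {c : Con V ι} {p : V → E3} {S : ι → Kil} :
    S ∈ ZG ({c} : Set (Con V ι)) p ↔ c.Holds p S := by
  rw [mem_ZG]
  simp only [Set.mem_singleton_iff, forall_eq]

/-- The bar constraint at an edge holds for all motions. -/
lemma Max2.holds {ι : Type} {a b : V → ι} {L : SimpleGraph V} {r : Setoid ι} {p : V → E3}
    {S : ι → Kil} (hS : S ∈ ZB a b L r p) {x y : V} (h : L.Adj x y) :
    (Con.bar x y (a x) (a y)).Holds p S := fun _ => hS.2 x y h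

/-- Membership when the bars at `x` and `y` are among three given bars. -/
lemma Max2.mem_ZB {ι : Type} {a b : V → ι} {L : SimpleGraph V} {r : Setoid ι} {x y : V}
    {p : V → E3} {S : ι → Kil} (hS : S ∈ ZG (con a b (Max2.strip L x y) r) p)
    (L' : SimpleGraph V) (hle : L' ≤ L)
    (h : ∀ u v, L'.Adj u v → u = x ∨ u = y → (Con.bar u v (a u) (a v)).Holds p S) :
    S ∈ ZB a b L' r p := by
  rw [← ZB_eq_ZG] at hS
  refine ⟨hS.1, fun u v huv => ?_⟩
  by_cases hu : u = x ∨ u = y
  · exact h u v huv hu huv.ne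
  · by_cases hv : v = x ∨ v = y
    · rw [bar_symm]
      exact h v u huv.symm hv huv.ne.symm
    · push Not at hu hv
      exact hS.2 u v (Max2.strip_adj.2 ⟨hle huv, hu.1, hv.1, hu.2, hv.2⟩)

lemma Max2.of_mem {ι : Type} {a b : V → ι} {L L' : SimpleGraph V} {r : Setoid ι} {x y : V}
    {p : V → E3} {S : ι → Kil} (hS : S ∈ ZB a b L' r p) (hle : Max2.strip L x y ≤ L') :
    S ∈ ZG (con a b (Max2.strip L x y) r) p := by
  rw [← ZB_eq_ZG]
  exact ZB_mono hle le_rfl hS

/-- The case of a path of three bars. -/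
lemma Max2.path {ι : Type} [Fintype ι] {a b : V → ι} {L : SimpleGraph V} {r : Setoid ι}
    (hL : ∀ u w, L.Adj u w → a u = b u) {x y x' y' : V} (hxy : L.Adj x y) (hxx' : L.Adj x x')
    (hyy' : L.Adj y y') (hne : x' ≠ y') (hx'y : x' ≠ y) (hy'x : y' ≠ x)
    (hx : ∀ w, L.Adj x w → w = y ∨ w = x') (hy : ∀ w, L.Adj y w → w = x ∨ w = y')
    (hweld : zB a b L (weld r (a x) (a y)) < zB a b L r)
    (hred : ∀ u w, L.Adj u w → zB a b (L.deleteEdges {s(u, w)}) r = zB a b L r) : False := by
  classical
  -- redundant bars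
  have hred' : ∀ u w, L.Adj u w → ∀ p, GoodG ι p →
      ZB a b (L.deleteEdges {s(u, w)}) r p ≤ ZB a b L r p := by
    intro u w huw p hp
    have hpB : GoodB a b p := hp.goodB
    have h1 : ZB a b L r p = ZB a b (L.deleteEdges {s(u, w)}) r p := by
      apply Submodule.eq_of_le_of_finrank_eq (ZB_mono (SimpleGraph.deleteEdges_le _) le_rfl)
      rw [hpB, hpB, hred u w huw]
    exact h1.ge
  set C0 := con a b (Max2.strip L x y) r with hC0
  have hax : ∀ c ∈ C0, c.Avoids x := Max2.avoids (hL x y hxy) fun u v huv =>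
    ⟨(Max2.strip_adj.1 huv).2.1, (Max2.strip_adj.1 huv).2.2.1⟩
  have hay : ∀ c ∈ C0, c.Avoids y := Max2.avoids (hL y x hxy.symm) fun u v huv =>
    ⟨(Max2.strip_adj.1 huv).2.2.2.1, (Max2.strip_adj.1 huv).2.2.2.2⟩
  -- general principle
  have key : ∀ u w, L.Adj u w → ∀ p, GoodG ι p → ∀ S, S ∈ ZG C0 p →
      (∀ v v', (L.deleteEdges {s(u, w)}).Adj v v' → v = x ∨ v = y →
        (Con.bar v v' (a v) (a v')).Holds p S) → (Con.bar u w (a u) (a w)).Holds p S := by
    intro u w huw p hp S hS h
    have h1 := Max2.mem_ZB hS (L.deleteEdges {s(u, w)}) (SimpleGraph.deleteEdges_le _) h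
    exact Max2.holds (hred' u w huw p hp h1) huw
  have hadj : ∀ {u w v v' : V}, (L.deleteEdges {s(u, w)}).Adj v v' → v = x ∨ v = y →
      (v = x ∧ v' = y) ∨ (v = x ∧ v' = x') ∨ (v = y ∧ v' = x) ∨ (v = y ∧ v' = y') := by
    intro u w v v' h hv
    have h' := (SimpleGraph.deleteEdges_adj.1 h).1
    rcases hv with rfl | rfl
    · rcases hx v' h' with e | e
      · exact Or.inl ⟨rfl, e⟩
      · exact Or.inr (Or.inl ⟨rfl, e⟩)
    · rcases hy v' h' with e | e
      · exact Or.inr (Or.inr (Or.inl ⟨rfl, e⟩))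
      · exact Or.inr (Or.inr (Or.inr ⟨rfl, e⟩))
  have hsymm : ∀ {u w : V} {p : V → E3} {S : ι → Kil},
      (Con.bar u w (a u) (a w)).Holds p S → (Con.bar w u (a w) (a u)).Holds p S := by
    intro u w p S h hne
    rw [bar_symm]
    exact h hne.symm
  have h3 : Imp (insert (.bar x x' (a x) (a x')) (insert (.bar y y' (a y) (a y')) C0))
      {.bar x y (a x) (a y)} := by
    intro p hp S hS
    rw [Max2.mem_insert, Max2.mem_insert] at hS
    rw [Max2.mem_single]
    refine key x y hxy p hp S hS.2.2 fun v v' hvv' hv => ?_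
    rcases hadj hvv' hv with ⟨rfl, rfl⟩ | ⟨rfl, rfl⟩ | ⟨rfl, rfl⟩ | ⟨rfl, rfl⟩
    · exact absurd rfl (SimpleGraph.deleteEdges_adj.1 hvv').2
    · exact hS.1
    · exact absurd Sym2.eq_swap (SimpleGraph.deleteEdges_adj.1 hvv').2
    · exact hS.2.1
  have h1 : Imp (insert (.bar x y (a x) (a y)) (insert (.bar y y' (a y) (a y')) C0))
      {.bar x x' (a x) (a x')} := by
    intro p hp S hS
    rw [Max2.mem_insert, Max2.mem_insert] at hS
    rw [Max2.mem_single]
    refine key x x' hxx' p hp S hS.2.2 fun v v' hvv' hv => ?_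
    rcases hadj hvv' hv with ⟨rfl, rfl⟩ | ⟨rfl, rfl⟩ | ⟨rfl, rfl⟩ | ⟨rfl, rfl⟩
    · exact hS.1
    · exact absurd rfl (SimpleGraph.deleteEdges_adj.1 hvv').2
    · exact hsymm hS.1
    · exact hS.2.1
  have h2 : Imp (insert (.bar x y (a x) (a y)) (insert (.bar x x' (a x) (a x')) C0))
      {.bar y y' (a y) (a y')} := by
    intro p hp S hS
    rw [Max2.mem_insert, Max2.mem_insert] at hS
    rw [Max2.mem_single]
    refine key y y' hyy' p hp S hS.2.2 fun v v' hvv' hv => ?_
    rcases hadj hvv' hv with ⟨rfl, rfl⟩ | ⟨rfl, rfl⟩ | ⟨rfl, rfl⟩ | ⟨rfl, rfl⟩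
    · exact hS.1
    · exact hS.2.1
    · exact hsymm hS.1
    · exact absurd rfl (SimpleGraph.deleteEdges_adj.1 hvv').2
  have hcyc := cyc hxy.ne hxx'.ne hy'x.symm hx'y.symm hyy'.ne hne hax hay h3 h1 h2
  obtain ⟨p, hp⟩ := exists_goodG (ι := ι) (V := V)
  have hpB : GoodB a b p := hp.goodB
  have hle : ZB a b L r p ≤ ZB a b L (weld r (a x) (a y)) p := by
    intro S hS
    rw [mem_ZB_weld]
    refine ⟨hS, ?_⟩
    have h4 := hcyc p hp (x := S) (by
      rw [Max2.mem_insert, Max2.mem_insert, Max2.mem_insert]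
      exact ⟨Max2.holds hS hxy, Max2.holds hS hxx', Max2.holds hS hyy',
        Max2.of_mem hS (SimpleGraph.deleteEdges_le _)⟩)
    rw [Max2.mem_single] at h4
    exact h4
  have h5 := Submodule.finrank_mono hle
  rw [hpB, hpB] at h5
  omega

/-- The rank formula for bars of maximum degree two. -/
theorem max2_aux {ι : Type} [Fintype ι] (a b : V → ι) (L : SimpleGraph V)
    (hL : ∀ x y, L.Adj x y → a x = b x) (hdeg : ∀ x, (L.neighborSet x).ncard ≤ 2)
    (r : Setoid ι) : ∃ s, r ≤ s ∧ (zB a b L r : ℤ) ≤ valB a b L s := by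
  classical
  suffices H : ∀ n m : ℕ, ∀ (ι : Type) (_ : Fintype ι) (a b : V → ι) (L : SimpleGraph V)
      (r : Setoid ι), (∀ x y, L.Adj x y → a x = b x) → (∀ x, (L.neighborSet x).ncard ≤ 2) →
      L.edgeSet.ncard = n → Nat.card (Quotient r) = m →
      ∃ s, r ≤ s ∧ (zB a b L r : ℤ) ≤ valB a b L s from
    H _ _ ι _ a b L r hL hdeg rfl rfl
  clear hL hdeg r
  intro n
  induction n using Nat.strong_induction_on with
  | _ n ihn =>
    intro m
    induction m using Nat.strong_induction_on with
    | _ m ihm =>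
      intro ι _ a b L r hL hdeg hn hm
      -- deleting edges
      have hdel : ∀ L' : SimpleGraph V, L' ≤ L → (∃ e, e ∈ L.edgeSet ∧ e ∉ L'.edgeSet) →
          L'.edgeSet.ncard < n := by
        rintro L' hle' ⟨e, he, he'⟩
        rw [← hn]
        apply Set.ncard_lt_ncard _ (Set.toFinite _)
        rw [Set.ssubset_iff_exists]
        exact ⟨SimpleGraph.edgeSet_mono hle', e, he, he'⟩
      have hdel1 : ∀ x y, L.Adj x y → (L.deleteEdges {s(x, y)}).edgeSet.ncard < n := by
        intro x y hxy
        refine hdel _ (SimpleGraph.deleteEdges_le _) ⟨s(x, y), hxy, ?_⟩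
        rw [SimpleGraph.edgeSet_deleteEdges]
        exact fun h => h.2 rfl
      have hdL : ∀ L' : SimpleGraph V, L' ≤ L → ∀ x y, L'.Adj x y → a x = b x :=
        fun L' h x y hxy => hL x y (h hxy)
      have hdd : ∀ L' : SimpleGraph V, L' ≤ L → ∀ x, (L'.neighborSet x).ncard ≤ 2 :=
        fun L' h z => (Set.ncard_le_ncard (fun w hw => h hw) (Set.toFinite _)).trans (hdeg z)
      by_cases hbot : L = ⊥
      · subst hbot
        obtain ⟨s, hs, h⟩ := rank_formula a b Finset.univ r
        refine ⟨s, hs, ?_⟩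
        rw [valB_bot]
        have h1 : zB a b ⊥ r = zdim a b Finset.univ r := by
          unfold zB zdim
          congr 2
          funext p
          have : ZB a b ⊥ r p = Z a b Finset.univ r p := by
            ext S
            rw [mem_ZB]
            exact ⟨fun h => h.1, fun h => ⟨h, fun x y hxy => absurd hxy (by simp)⟩⟩
          rw [this]
        rw [h1]
        exact h
      -- a bar inside a class
      by_cases hin : ∃ x y, L.Adj x y ∧ r (a x) (a y)
      · obtain ⟨x, y, hxy, hr⟩ := hin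
        have hle' : L.deleteEdges {s(x, y)} ≤ L := SimpleGraph.deleteEdges_le _
        obtain ⟨s, hs, h⟩ := ihn _ (hdel1 x y hxy) _ ι _ a b (L.deleteEdges {s(x, y)}) r
          (hdL _ hle') (hdd _ hle') rfl rfl
        refine ⟨s, hs, ?_⟩
        rw [← valB_del_loop a b s hxy (hs hr)]
        refine le_trans ?_ h
        exact_mod_cast zB_mono hle' le_rfl
      push Not at hin
      -- a larger equivalence relation with the same dimension
      by_cases hw : ∃ s, r < s ∧ zB a b L s = zB a b L r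
      · obtain ⟨s, hs, hzs⟩ := hw
        obtain ⟨s', hs', h⟩ := ihm _ (hm ▸ card_quotient_lt hs) ι _ a b L s hL hdeg hn rfl
        exact ⟨s', hs.le.trans hs', hzs ▸ h⟩
      have hweld : ∀ s, r < s → zB a b L s < zB a b L r := by
        intro s hs
        push Not at hw
        exact lt_of_le_of_ne (zB_mono le_rfl hs.le) (hw s hs)
      -- an independent bar
      by_cases hi : ∃ x y, L.Adj x y ∧ zB a b L r < zB a b (L.deleteEdges {s(x, y)}) r
      · obtain ⟨x, y, hxy, hlt⟩ := hi
        have hle' : L.deleteEdges {s(x, y)} ≤ L := SimpleGraph.deleteEdges_le _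
        obtain ⟨s, hs, h⟩ := ihn _ (hdel1 x y hxy) _ ι _ a b (L.deleteEdges {s(x, y)}) r
          (hdL _ hle') (hdd _ hle') rfl rfl
        refine ⟨s, hs, ?_⟩
        have h2 := valB_del_le a b s hxy
        have h3 : (zB a b L r : ℤ) + 1 ≤ zB a b (L.deleteEdges {s(x, y)}) r := by
          exact_mod_cast hlt
        linarith
      have hred : ∀ u w, L.Adj u w → zB a b (L.deleteEdges {s(u, w)}) r = zB a b L r := by
        intro u w huw
        push Not at hi
        exact le_antisymm (hi u w huw) (zB_mono (SimpleGraph.deleteEdges_le _) le_rfl)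
      exfalso
      -- no leaf
      have hnoleaf : ∀ x y, L.Adj x y → ∃ z, L.Adj y z ∧ z ≠ x := by
        intro x y hxy
        by_contra hcon
        push Not at hcon
        by_cases hw' : zB a b (L.deleteEdges {s(x, y)}) (weld r (a x) (a y)) <
            zB a b (L.deleteEdges {s(x, y)}) r
        · have h1 := zB_lt hL hdeg hxy hcon hw'
          rw [hred x y hxy] at h1
          exact lt_irrefl _ h1
        · have heq : zB a b (L.deleteEdges {s(x, y)}) (weld r (a x) (a y)) =
              zB a b (L.deleteEdges {s(x, y)}) r :=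
            le_antisymm (zB_mono le_rfl (le_weld _ _ _)) (not_lt.1 hw')
          obtain ⟨p, hp⟩ := exists_goodB a b
          have h1 : ZB a b (L.deleteEdges {s(x, y)}) (weld r (a x) (a y)) p =
              ZB a b (L.deleteEdges {s(x, y)}) r p := by
            apply Submodule.eq_of_le_of_finrank_eq (ZB_mono le_rfl (le_weld _ _ _))
            rw [hp, hp, heq]
          have h2 : ZB a b L (weld r (a x) (a y)) p = ZB a b L r p := by
            ext S
            rw [mem_ZB_del hxy, mem_ZB_del hxy, h1]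
          have h3 : zB a b L (weld r (a x) (a y)) = zB a b L r := by
            rw [← hp, ← hp, h2]
          have h4 := hweld _ (lt_weld (hin x y hxy))
          rw [h3] at h4
          exact lt_irrefl _ h4
      -- exactly two neighbours
      have htwo : ∀ x y z, L.Adj x y → L.Adj x z → y ≠ z → ∀ w, L.Adj x w → w = y ∨ w = z := by
        intro x y z hxy hxz hyz w hxw
        by_contra hc
        push Not at hc
        have h3 : ({y, z, w} : Set V) ⊆ L.neighborSet x := by
          rintro u (rfl | rfl | rfl)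
          · exact hxy
          · exact hxz
          · exact hxw
        have h4 : ({y, z, w} : Set V).ncard = 3 := by
          rw [Set.ncard_eq_three]
          exact ⟨y, z, w, hyz, hc.1.symm, hc.2.symm, rfl⟩
        have h5 := Set.ncard_le_ncard h3 (Set.toFinite _)
        have := hdeg x
        omega
      obtain ⟨x, y, hxy⟩ := SimpleGraph.ne_bot_iff_exists_adj.1 hbot
      obtain ⟨y', hyy', hy'x⟩ := hnoleaf x y hxy
      obtain ⟨x', hxx', hx'y⟩ := hnoleaf y x hxy.symm
      have hx := htwo x y x' hxy hxx' hx'y.symm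
      have hy := htwo y x y' hxy.symm hyy' hy'x.symm
      by_cases hne : x' = y'
      · subst hne
        have hz := htwo x' x y hxx'.symm hyy'.symm hxy.ne
        refine tri a b L r hL hxy hyy' hxx' hx hy hz (hin x y hxy) (hin y x' hyy')
          (hin x x' hxx') hweld hred ?_
        have hle' : L.deleteEdges {s(x, y), s(y, x'), s(x, x')} ≤ L :=
          SimpleGraph.deleteEdges_le _
        refine ihn _ (hdel _ hle' ⟨s(x, y), hxy, ?_⟩) _ (Option ι) inferInstance (aT a)
          (bT b x y x') (L.deleteEdges {s(x, y), s(y, x'), s(x, x')}) (rT r) ?_ (hdd _ hle')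
          rfl rfl
        · rw [SimpleGraph.edgeSet_deleteEdges]
          exact fun h => h.2 (Or.inl rfl)
        · intro u w huw
          rw [SimpleGraph.deleteEdges_adj] at huw
          obtain ⟨huw, hnot⟩ := huw
          have hu : ¬ (u = x ∨ u = y ∨ u = x') := by
            rintro (rfl | rfl | rfl)
            · rcases hx w huw with rfl | rfl
              · exact hnot (Or.inl rfl)
              · exact hnot (Or.inr (Or.inr rfl))
            · rcases hy w huw with rfl | rfl
              · exact hnot (Or.inl Sym2.eq_swap)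
              · exact hnot (Or.inr (Or.inl rfl))
            · rcases hz w huw with rfl | rfl
              · exact hnot (Or.inr (Or.inr Sym2.eq_swap))
              · exact hnot (Or.inr (Or.inl Sym2.eq_swap))
          unfold aT bT
          rw [if_neg hu, hL u w huw]
      · exact Max2.path hL hxy hxx' hyy' hne hx'y hy'x hx hy
          (hweld _ (lt_weld (hin x y hxy))) hred

/-- The rank formula when at most two bars leave the class of every point. -/
theorem max2 {ι : Type} [Fintype ι] (a b : V → ι) (L : SimpleGraph V)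
    (hL : ∀ x y, L.Adj x y → a x = b x) (r : Setoid ι)
    (hdeg : ∀ x, {y | L.Adj x y ∧ ¬ r (a x) (a y)}.ncard ≤ 2) :
    ∃ s, r ≤ s ∧ (zB a b L r : ℤ) ≤ valB a b L s := by
  classical
  let L1 : SimpleGraph V :=
    { Adj := fun x y => L.Adj x y ∧ ¬ r (a x) (a y)
      symm := ⟨fun x y h => ⟨h.1.symm, fun h' => h.2 (r.symm h')⟩⟩
      loopless := ⟨fun _ h => h.1.ne rfl⟩ }
  have hle : L1 ≤ L := fun x y h => h.1
  obtain ⟨s, hs, h⟩ := max2_aux a b L1 (fun x y h => hL x y h.1) hdeg r
  refine ⟨s, hs, ?_⟩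
  rw [valB_congr a b L L1 s fun x y hxy => ⟨fun h => ⟨h, fun h' => hxy (hs h')⟩, fun h => h.1⟩]
  refine le_trans ?_ h
  have : zB a b L r ≤ zB a b L1 r := zB_mono hle le_rfl
  exact_mod_cast this

end

end Pool.Agent.BJ
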