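import Pool.Agent.Lib.MP_37c7bf_BJ.Free

/-!
Vertices of degree five whose neighbours have two common neighbours with them.
-/

open MeasureTheory Module Topology
open scoped RealInnerProductSpace

namespace Pool.Agent.BJ

open Pool.Agent.H26R (E3 crossE GenericallyRigid Flex)

lemma five_la_sum (f : Fin 5 → ℝ) {a b c d g : Fin 5} (hab : a ≠ b) (hac : a ≠ c) (had : a ≠ d)
    (hag : a ≠ g) (hbc : b ≠ c) (hbd : b ≠ d) (hbg : b ≠ g) (hcd : c ≠ d) (hcg : c ≠ g)
    (hdg : d ≠ g) : ∑ x, f x = f a + f b + f c + f d + f g := by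
  have hu : (Finset.univ : Finset (Fin 5)) = {a, b, c, d, g} := by
    symm
    apply Finset.eq_univ_of_card
    rw [Finset.card_insert_of_notMem (by simp [hab, hac, had, hag]),
      Finset.card_insert_of_notMem (by simp [hbc, hbd, hbg]),
      Finset.card_insert_of_notMem (by simp [hcd, hcg]),
      Finset.card_insert_of_notMem (by simp [hdg]), Finset.card_singleton]
    simp
  rw [hu, Finset.sum_insert (by simp [hab, hac, had, hag]),
    Finset.sum_insert (by simp [hbc, hbd, hbg]), Finset.sum_insert (by simp [hcd, hcg]),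
    Finset.sum_insert (by simp [hdg]), Finset.sum_singleton]
  ring

lemma five_la_zero {b b' d d' x x' : ℝ} (hD : b * d' - b' * d ≠ 0) (h1 : x * b' = x' * b)
    (h2 : x * d' = x' * d) : x = 0 ∧ x' = 0 := by
  constructor
  · have : x * (b * d' - b' * d) = 0 := by linear_combination b * h2 - d * h1
    rcases mul_eq_zero.1 this with h | h
    · exact h
    · exact absurd h hD
  · have : x' * (b * d' - b' * d) = 0 := by linear_combination b' * h2 - d' * h1
    rcases mul_eq_zero.1 this with h | h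
    · exact h
    · exact absurd h hD

lemma five_la_or {b b' d d' x x' y y' : ℝ} (hD : b * d' - b' * d ≠ 0) (h1 : x * b' = x' * b)
    (h2 : y * d' = y' * d) (h3 : x * y' = x' * y) : (x = 0 ∧ x' = 0) ∨ (y = 0 ∧ y' = 0) := by
  by_cases hy : y = 0 ∧ y' = 0
  · exact Or.inr hy
  · left
    apply five_la_zero hD h1
    -- (y, y') is a nonzero multiple of (d, d')
    by_cases hy0 : y = 0
    · have hy' : y' ≠ 0 := fun h => hy ⟨hy0, h⟩
      have hd : d = 0 := by
        have : y' * d = 0 := by rw [← h2, hy0, zero_mul]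
        rcases mul_eq_zero.1 this with h | h
        · exact absurd h hy'
        · exact h
      have hx : x = 0 := by
        have : x * y' = 0 := by rw [h3, hy0, mul_zero]
        rcases mul_eq_zero.1 this with h | h
        · exact h
        · exact absurd h hy'
      rw [hx, hd]; ring
    · have : y * (x * d' - x' * d) = 0 := by linear_combination x * h2 + d * h3
      rcases mul_eq_zero.1 this with h | h
      · exact absurd h hy0
      · linarith

/-- Linear algebra behind vertices of degree five. -/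
theorem five_la {α : Fin 5 → ℝ} (hα : ∀ i, α i ≠ 0) {e e' : Fin 5 → Fin 5 → ℝ}
    (hs : ∀ i j, e i j = e j i) (hs' : ∀ i j, e' i j = e' j i)
    (hd : ∀ i, e i i = 0) (hd' : ∀ i, e' i i = 0)
    (h2 : ∀ i, ∃ j k, j ≠ i ∧ k ≠ i ∧ j ≠ k ∧ e i j = 0 ∧ e' i j = 0 ∧ e i k = 0 ∧ e' i k = 0)
    (h : ∀ l : Fin 5 → ℝ, ∑ i, l i = 1 →
      (∑ i, ∑ j, l i * l j * e i j) * (∑ i, ∑ j, l i * α j * e' i j) =
        (∑ i, ∑ j, l i * l j * e' i j) * (∑ i, ∑ j, l i * α j * e i j)) :
    ∀ i j k m, e i j * e' k m = e' i j * e k m := by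
  set g : Fin 5 → ℝ := fun i => ∑ j, α j * e i j with hg
  set g' : Fin 5 → ℝ := fun i => ∑ j, α j * e' i j with hg'
  -- the identity for all `l` with nonzero sum
  have key : ∀ l : Fin 5 → ℝ, ∑ i, l i ≠ 0 →
      (∑ i, l i * ∑ j, l j * e i j) * (∑ i, l i * g' i) =
        (∑ i, l i * ∑ j, l j * e' i j) * (∑ i, l i * g i) := by
    intro l hl
    set s := ∑ i, l i with hsd
    have h1 := h (fun i => s⁻¹ * l i) (by rw [← Finset.mul_sum, ← hsd]; exact inv_mul_cancel₀ hl)
    have q1 : ∀ f : Fin 5 → Fin 5 → ℝ, ∑ i, ∑ j, (s⁻¹ * l i) * (s⁻¹ * l j) * f i j =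
        s⁻¹ * s⁻¹ * ∑ i, l i * ∑ j, l j * f i j := by
      intro f
      simp only [Finset.mul_sum]
      exact Finset.sum_congr rfl fun i _ => Finset.sum_congr rfl fun j _ => by ring
    have q2 : ∀ f : Fin 5 → Fin 5 → ℝ, ∑ i, ∑ j, (s⁻¹ * l i) * α j * f i j =
        s⁻¹ * ∑ i, l i * ∑ j, α j * f i j := by
      intro f
      simp only [Finset.mul_sum]
      exact Finset.sum_congr rfl fun i _ => Finset.sum_congr rfl fun j _ => by ring
    rw [q1, q1, q2, q2] at h1
    have hs0 : s⁻¹ * s⁻¹ * s⁻¹ ≠ 0 := by positivity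
    apply mul_left_cancel₀ hs0
    linear_combination h1
  have key3 : ∀ (a b c : ℝ) (i j k : Fin 5), a + b + c ≠ 0 →
      (a * (a * e i i + b * e i j + c * e i k) + b * (a * e j i + b * e j j + c * e j k) +
        c * (a * e k i + b * e k j + c * e k k)) * (a * g' i + b * g' j + c * g' k) =
      (a * (a * e' i i + b * e' i j + c * e' i k) + b * (a * e' j i + b * e' j j + c * e' j k) +
        c * (a * e' k i + b * e' k j + c * e' k k)) * (a * g i + b * g j + c * g k) := by
    intro a b c i j k habc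
    have hl : ∀ f : Fin 5 → ℝ, ∑ x, (a * (if x = i then 1 else 0) + b * (if x = j then 1 else 0) +
        c * (if x = k then 1 else 0)) * f x = a * f i + b * f j + c * f k := by
      intro f
      simp [add_mul, Finset.sum_add_distrib]
    have := key (fun x => a * (if x = i then 1 else 0) + b * (if x = j then 1 else 0) +
        c * (if x = k then 1 else 0)) (by
          have := hl (fun _ => 1)
          simp only [mul_one] at this
          rw [this]; exact habc)
    simp only [hl] at this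
    exact this
  have ha : ∀ i j, e i j * g' i = e' i j * g i ∧ e i j * g' j = e' i j * g j := by
    intro i j
    have k1 := key3 1 1 0 i j j (by norm_num)
    have k2 := key3 1 2 0 i j j (by norm_num)
    simp only [hd, hd', hs j i, hs' j i] at k1 k2
    constructor
    · linear_combination k1 - k2 / 4
    · linear_combination k2 / 4 - k1 / 2
  have hb : ∀ i j k, (e i j * g' k - e' i j * g k) + (e i k * g' j - e' i k * g j) +
      (e j k * g' i - e' j k * g i) = 0 := by
    intro i j k
    have k1 := key3 1 1 1 i j k (by norm_num)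
    simp only [hd, hd', hs j i, hs' j i, hs k i, hs' k i, hs k j, hs' k j] at k1
    linear_combination k1 / 2 - (ha i j).1 - (ha i j).2 - (ha i k).1 - (ha i k).2 -
      (ha j k).1 - (ha j k).2
  -- pairs with a common index
  have h1 : ∀ i j k, e i j * e' i k = e' i j * e i k := by
    intro i j k
    by_cases hjk : j = k
    · subst hjk; ring
    by_cases hij : i = j
    · subst hij; rw [hd, hd']; ring
    by_cases hik : i = k
    · subst hik; rw [hd, hd']; ring
    obtain ⟨m, n, hmi, hni, hmn, em, em', en, en'⟩ := h2 i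
    by_cases hmj : m = j
    · subst hmj; rw [em, em']; ring
    by_cases hmk : m = k
    · subst hmk; rw [em, em']; ring
    by_cases hnj : n = j
    · subst hnj; rw [en, en']; ring
    by_cases hnk : n = k
    · subst hnk; rw [en, en']; ring
    have g1 : g i = α j * e i j + α k * e i k := by
      rw [hg]
      simp only
      rw [five_la_sum (fun x => α x * e i x) hij hik (Ne.symm hmi) (Ne.symm hni) hjk (Ne.symm hmj)
        (Ne.symm hnj) (Ne.symm hmk) (Ne.symm hnk) hmn]
      simp only [hd, em, en]; ring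
    have g2 : g' i = α j * e' i j + α k * e' i k := by
      rw [hg']
      simp only
      rw [five_la_sum (fun x => α x * e' i x) hij hik (Ne.symm hmi) (Ne.symm hni) hjk (Ne.symm hmj)
        (Ne.symm hnj) (Ne.symm hmk) (Ne.symm hnk) hmn]
      simp only [hd', em', en']; ring
    have h3 := (ha i j).1
    rw [g1, g2] at h3
    apply mul_left_cancel₀ (hα k)
    linear_combination h3
  have h1' : ∀ i j k m, (i = k ∨ i = m ∨ j = k ∨ j = m) → e i j * e' k m = e' i j * e k m := by
    rintro i j k m (h | h | h | h)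
    · subst h; exact h1 i j m
    · subst h; rw [hs k, hs' k]; exact h1 i j k
    · subst h; rw [hs i, hs' i]; exact h1 j i m
    · subst h; rw [hs i, hs' i, hs k, hs' k]; exact h1 j i k
  intro i j k m
  by_cases hik : i = k
  · exact h1' i j k m (Or.inl hik)
  by_cases him : i = m
  · exact h1' i j k m (Or.inr (Or.inl him))
  by_cases hjk : j = k
  · exact h1' i j k m (Or.inr (Or.inr (Or.inl hjk)))
  by_cases hjm : j = m
  · exact h1' i j k m (Or.inr (Or.inr (Or.inr hjm)))
  by_cases hij : i = j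
  · subst hij; rw [hd, hd']; ring
  by_cases hkm : k = m
  · subst hkm; rw [hd, hd']; ring
  obtain ⟨n, hni, hnj, hnk, hnm⟩ : ∃ n, n ≠ i ∧ n ≠ j ∧ n ≠ k ∧ n ≠ m := by
    revert i j k m; decide
  by_contra hne
  have hD : e i j * e' k m - e' i j * e k m ≠ 0 := sub_ne_zero.2 hne
  obtain ⟨ik, ik'⟩ := five_la_zero hD (h1' i k i j (by simp)) (h1' i k k m (by simp))
  obtain ⟨im, im'⟩ := five_la_zero hD (h1' i m i j (by simp)) (h1' i m k m (by simp))
  obtain ⟨jk, jk'⟩ := five_la_zero hD (h1' j k i j (by simp)) (h1' j k k m (by simp))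
  obtain ⟨jm, jm'⟩ := five_la_zero hD (h1' j m i j (by simp)) (h1' j m k m (by simp))
  have c1 : (e i n = 0 ∧ e' i n = 0) ∨ (e k n = 0 ∧ e' k n = 0) :=
    five_la_or hD (h1' i n i j (by simp)) (h1' k n k m (by simp)) (h1' i n k n (by simp))
  rcases c1 with ⟨x, x'⟩ | ⟨y, y'⟩
  · -- `g i = α j * e i j`
    have g1 : g i = α j * e i j := by
      rw [hg]
      simp only
      rw [five_la_sum (fun x => α x * e i x) hij hik him (Ne.symm hni) hjk hjm
        (Ne.symm hnj) hkm (Ne.symm hnk) (Ne.symm hnm)]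
      simp only [hd, ik, im, x]; ring
    have g2 : g' i = α j * e' i j := by
      rw [hg']
      simp only
      rw [five_la_sum (fun x => α x * e' i x) hij hik him (Ne.symm hni) hjk hjm
        (Ne.symm hnj) hkm (Ne.symm hnk) (Ne.symm hnm)]
      simp only [hd', ik', im', x']; ring
    have h3 := hb k m i
    rw [hs k i, hs' k i, hs m i, hs' m i, ik, ik', im, im', g1, g2] at h3
    have : α j * (e i j * e' k m - e' i j * e k m) = 0 := by linear_combination -h3
    rcases mul_eq_zero.1 this with h | h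
    · exact hα j h
    · exact hD h
  · have g1 : g k = α m * e k m := by
      rw [hg]
      simp only
      rw [five_la_sum (fun x => α x * e k x) hij hik him (Ne.symm hni) hjk hjm
        (Ne.symm hnj) hkm (Ne.symm hnk) (Ne.symm hnm)]
      simp only [hd, hs k i, hs k j, ik, jk, y]; ring
    have g2 : g' k = α m * e' k m := by
      rw [hg']
      simp only
      rw [five_la_sum (fun x => α x * e' k x) hij hik him (Ne.symm hni) hjk hjm
        (Ne.symm hnj) hkm (Ne.symm hnk) (Ne.symm hnm)]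
      simp only [hd', hs' k i, hs' k j, ik', jk', y']; ring
    have h3 := hb i j k
    rw [ik, ik', jk, jk', g1, g2] at h3
    have : α m * (e i j * e' k m - e' i j * e k m) = 0 := by linear_combination h3
    rcases mul_eq_zero.1 this with h | h
    · exact hα m h
    · exact hD h

section
variable {V : Type} [Fintype V]

/-- The least dimension of the space of flexes. -/
noncomputable def kF (Γ : SimpleGraph V) : ℕ :=
  sInf (Set.range fun p : V → E3 => finrank ℝ (Flex Γ p))

lemma kF_le (Γ : SimpleGraph V) (p : V → E3) : kF Γ ≤ finrank ℝ (Flex Γ p) :=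
  Nat.sInf_le ⟨p, rfl⟩

/-- General position, and all spaces of flexes have least dimension. -/
def GoodF (p : V → E3) : Prop := GP p ∧ ∀ Γ : SimpleGraph V, finrank ℝ (Flex Γ p) = kF Γ

lemma ae_goodF : ∀ᵐ p : V → E3 ∂volume, GoodF p := by
  have h : ∀ Γ : SimpleGraph V, ∀ᵐ p : V → E3 ∂volume, finrank ℝ (Flex Γ p) = kF Γ := by
    intro Γ
    obtain ⟨p₀, hp₀⟩ : kF Γ ∈ Set.range fun p : V → E3 => finrank ℝ (Flex Γ p) :=
      Nat.sInf_mem (Set.range_nonempty _)
    have h1 : ∀ᵐ p : V → E3 ∂volume, finrank ℝ (Flex Γ p) ≤ finrank ℝ (Flex Γ p₀) :=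
      Pool.Agent.H26R.ae_finrank_ker_le volume (Pool.Agent.H26R.rig Γ) p₀
    filter_upwards [h1] with p hp
    exact le_antisymm (hp.trans hp₀.le) (kF_le Γ p)
  have hfin : Finite (SimpleGraph V) :=
    Finite.of_injective (fun Γ : SimpleGraph V => Γ.Adj) fun Γ Γ' h => SimpleGraph.ext h
  filter_upwards [ae_GP (V := V), ae_all_iff.2 h] with p h1 h2
  exact ⟨h1, h2⟩

/-- A graph without edges at `v` does not see the position of `v`. -/
lemma Flex_delV_update [DecidableEq V] (Γ : SimpleGraph V) (v : V) (p : V → E3) (t : E3) :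
    Flex (delV Γ v) (Function.update p v t) = Flex (delV Γ v) p := by
  ext S
  rw [Pool.Agent.H26R.mem_Flex, Pool.Agent.H26R.mem_Flex]
  refine forall_congr' fun i => forall_congr' fun j => ?_
  refine forall_congr' fun hij => ?_
  obtain ⟨-, hi, hj⟩ := delV_adj.1 hij
  rw [Function.update_of_ne hi, Function.update_of_ne hj]

omit [Fintype V] in
/-- Bars at a vertex without edges, in independent directions. -/
lemma Flex_cut [Finite V] {Γ Γ' : SimpleGraph V} {v : V} {p : V → E3}
    (hΓ' : ∀ x y, Γ'.Adj x y → x ≠ v ∧ y ≠ v) {k : ℕ} (n : Fin k → V) (hn : ∀ i, n i ≠ v)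
    (hind : LinearIndependent ℝ fun i => p v - p (n i)) (hle : Flex Γ p ≤ Flex Γ' p)
    (hadj : ∀ i, Γ.Adj v (n i)) : finrank ℝ (Flex Γ p) + k ≤ finrank ℝ (Flex Γ' p) := by
  classical
  have hF : Fintype V := Fintype.ofFinite V
  let Φ : (V → E3) →ₗ[ℝ] (Fin k → ℝ) := LinearMap.pi fun i =>
    (innerₛₗ ℝ (p v - p (n i))).comp
      (LinearMap.proj (R := ℝ) (φ := fun _ : V => E3) v - LinearMap.proj (n i))
  have hΦ : ∀ S i, Φ S i = ⟪p v - p (n i), S v - S (n i)⟫ := fun S i => rfl
  have hsurj : LinearMap.range (Φ.domRestrict (Flex Γ' p)) = ⊤ := by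
    rw [LinearMap.range_eq_top]
    intro c
    obtain ⟨u, hu⟩ := exists_inner_eq hind c
    have hmem : (Pi.single v u : V → E3) ∈ Flex Γ' p := by
      rw [Pool.Agent.H26R.mem_Flex]
      intro i j hij
      obtain ⟨hi, hj⟩ := hΓ' i j hij
      rw [Pi.single_eq_of_ne hi, Pi.single_eq_of_ne hj, sub_zero, inner_zero_right]
    refine ⟨⟨Pi.single v u, hmem⟩, ?_⟩
    funext i
    rw [LinearMap.domRestrict_apply]
    change Φ (Pi.single v u) i = c i
    rw [hΦ, Pi.single_eq_same, Pi.single_eq_of_ne (hn i), sub_zero, real_inner_comm, hu]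
  have h1 := LinearMap.finrank_range_add_finrank_ker (Φ.domRestrict (Flex Γ' p))
  rw [hsurj, finrank_top, Module.finrank_fin_fun] at h1
  have h2 : finrank ℝ (Flex Γ p) ≤ finrank ℝ (LinearMap.ker (Φ.domRestrict (Flex Γ' p))) := by
    have h3 : Flex Γ p ≤ (LinearMap.ker (Φ.domRestrict (Flex Γ' p))).map (Flex Γ' p).subtype := by
      intro S hS
      refine ⟨⟨S, hle hS⟩, ?_, rfl⟩
      rw [SetLike.mem_coe, LinearMap.mem_ker, LinearMap.domRestrict_apply]
      funext i
      change Φ S i = 0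
      rw [hΦ]
      exact Pool.Agent.H26R.mem_Flex.1 hS _ _ (hadj i)
    have h6 := Submodule.finrank_mono h3
    rwa [Submodule.finrank_map_subtype_eq] at h6
  omega

/-- One-extension for graphs. -/
theorem one_ext (Γ : SimpleGraph V) {v x y : V} (hx : Γ.Adj v x) (hy : Γ.Adj v y) (hxy : x ≠ y)
    (h4 : 4 ≤ (Γ.neighborSet v).ncard) :
    kF Γ + 3 ≤ kF (delV Γ v ⊔ SimpleGraph.edge x y) := by
  classical
  obtain ⟨p, hgp, hp⟩ := (ae_goodF (V := V)).exists
  -- two further neighbours
  obtain ⟨z, hz, hzx, hzy⟩ : ∃ z, Γ.Adj v z ∧ z ≠ x ∧ z ≠ y := by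
    by_contra! hcon
    have h1 : Γ.neighborSet v ⊆ {x, y} := by
      intro z hz
      by_cases h : z = x
      · exact Or.inl h
      · exact Or.inr (hcon z hz h)
    have h2 := (Set.ncard_le_ncard h1 (Set.toFinite _)).trans (ncard_pair_le' x y)
    omega
  obtain ⟨w, hw, hwx, hwy, hwz⟩ : ∃ w, Γ.Adj v w ∧ w ≠ x ∧ w ≠ y ∧ w ≠ z := by
    by_contra! hcon
    have h1 : Γ.neighborSet v ⊆ {x, y, z} := by
      intro w hw
      by_cases h : w = x
      · exact Or.inl h
      · by_cases h' : w = y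
        · exact Or.inr (Or.inl h')
        · exact Or.inr (Or.inr (hcon w hw h h'))
    have h2 := Set.ncard_le_ncard h1 (Set.toFinite _)
    have h3 : ({x, y, z} : Set V).ncard ≤ 3 := by
      have := Set.ncard_insert_le x ({y, z} : Set V)
      have := ncard_pair_le' y z
      omega
    omega
  set Γ1 := delV Γ v ⊔ SimpleGraph.edge x y with hΓ1
  have hΓ1v : ∀ a b, Γ1.Adj a b → a ≠ v ∧ b ≠ v := by
    intro a b h
    rw [hΓ1, SimpleGraph.sup_adj] at h
    rcases h with h | h
    · exact (delV_adj.1 h).2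
    · rw [SimpleGraph.edge_adj] at h
      rcases h.1 with ⟨rfl, rfl⟩ | ⟨rfl, rfl⟩
      · exact ⟨hx.ne', hy.ne'⟩
      · exact ⟨hy.ne', hx.ne'⟩
  set m : E3 := (1 / 2 : ℝ) • (p x + p y) with hm
  set p' : V → E3 := Function.update p v m with hp'
  have hpv : p' v = m := Function.update_self _ _ _
  have hpo : ∀ a, a ≠ v → p' a = p a := fun a ha => Function.update_of_ne ha _ _
  have hcongr : Flex Γ1 p' = Flex Γ1 p := by
    ext S
    rw [Pool.Agent.H26R.mem_Flex, Pool.Agent.H26R.mem_Flex]
    refine forall_congr' fun i => forall_congr' fun j => ?_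
    refine forall_congr' fun hij => ?_
    obtain ⟨hi, hj⟩ := hΓ1v i j hij
    rw [hpo i hi, hpo j hj]
  have h1 : kF Γ ≤ finrank ℝ (Flex Γ p') := kF_le Γ p'
  have h2 : finrank ℝ (Flex Γ p') + 3 ≤ finrank ℝ (Flex Γ1 p') := by
    refine Flex_cut hΓ1v (k := 3) ![x, z, w] ?_ ?_ ?_ ?_
    · intro i
      fin_cases i
      · exact hx.ne'
      · exact hz.ne'
      · exact hw.ne'
    · have hind := hgp.2.2 x y z w hxy hzx.symm hwx.symm hzy.symm hwy.symm hwz.symm
      rw [Fintype.linearIndependent_iff] at hind ⊢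
      intro g hg
      have e : ∑ i, (![(g 0 + g 1 + g 2) / 2, -g 1, -g 2] : Fin 3 → ℝ) i •
          (![p y - p x, p z - p x, p w - p x] : Fin 3 → E3) i = 0 := by
        rw [← hg]
        simp only [Fin.sum_univ_three, Matrix.cons_val_zero, Matrix.cons_val_one,
          Matrix.cons_val_two, Matrix.head_cons, Matrix.tail_cons]
        rw [hpv, hpo x hx.ne', hpo z hz.ne', hpo w hw.ne', hm]
        module
      have h0 := hind _ e
      have g1 : g 1 = 0 := by simpa using h0 1
      have g2 : g 2 = 0 := by simpa using h0 2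
      have g0 : g 0 = 0 := by
        have := h0 0
        simp only [Matrix.cons_val_zero] at this
        rw [g1, g2] at this
        linarith
      intro i
      fin_cases i
      · exact g0
      · exact g1
      · exact g2
    · intro S hS
      rw [Pool.Agent.H26R.mem_Flex] at hS ⊢
      intro a b hab
      rw [hΓ1, SimpleGraph.sup_adj] at hab
      rcases hab with h | h
      · exact hS _ _ (delV_adj.1 h).1
      · have hxy' : ⟪p' x - p' y, S x - S y⟫ = 0 := by
          have e1 := hS v x hx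
          have e2 := hS v y hy
          rw [hpv] at e1 e2
          have d1 : m - p' x = (-1 / 2 : ℝ) • (p' x - p' y) := by
            rw [hpo x hx.ne', hpo y hy.ne', hm]
            module
          have d2 : m - p' y = (1 / 2 : ℝ) • (p' x - p' y) := by
            rw [hpo x hx.ne', hpo y hy.ne', hm]
            module
          rw [d1, real_inner_smul_left] at e1
          rw [d2, real_inner_smul_left] at e2
          have e3 : ⟪p' x - p' y, S x - S y⟫ =
              ⟪p' x - p' y, S v - S y⟫ - ⟪p' x - p' y, S v - S x⟫ := by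
            rw [← inner_sub_right]
            congr 1
            abel
          rw [e3]
          linarith
        rw [SimpleGraph.edge_adj] at h
        rcases h.1 with ⟨rfl, rfl⟩ | ⟨rfl, rfl⟩
        · exact hxy'
        · rw [← inner_neg_neg, neg_sub, neg_sub]
          exact hxy'
    · intro i
      fin_cases i
      · exact hx
      · exact hz
      · exact hw
  rw [hcongr, hp Γ1] at h2
  omega

/-- Four points in general position are affinely independent. -/
private lemma dep_four {p : V → E3} (hp : GP p) {x y z u : V} (hxy : x ≠ y) (hxz : x ≠ z)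
    (hxu : x ≠ u) (hyz : y ≠ z) (hyu : y ≠ u) (hzu : z ≠ u) {a b c d : ℝ}
    (h0 : a + b + c + d = 0) (h1 : a • p x + b • p y + c • p z + d • p u = 0) :
    a = 0 ∧ b = 0 ∧ c = 0 ∧ d = 0 := by
  have h := Fintype.linearIndependent_iff.1 (hp.2.2 x y z u hxy hxz hxu hyz hyu hzu) ![b, c, d]
  have h2 : ∑ i, (![b, c, d] : Fin 3 → ℝ) i • (![p y - p x, p z - p x, p u - p x] : Fin 3 → E3) i
      = 0 := by
    have h3 : ∑ i, (![b, c, d] : Fin 3 → ℝ) i •
        (![p y - p x, p z - p x, p u - p x] : Fin 3 → E3) i =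
        b • (p y - p x) + c • (p z - p x) + d • (p u - p x) := by
      rw [Fin.sum_univ_three]
      rfl
    rw [h3, ← h1, show a = -(b + c + d) by linarith]
    module
  have h3 := h h2
  have hb : b = 0 := h3 0
  have hc : c = 0 := h3 1
  have hd : d = 0 := h3 2
  refine ⟨?_, hb, hc, hd⟩
  rw [hb, hc, hd] at h0
  linarith

private lemma dep_key {p : V → E3} (hp : GP p) {w : Fin 5 → V} (hw : Function.Injective w)
    {β : Fin 5 → ℝ} (h0 : ∑ i, β i = 0) (h1 : ∑ i, β i • p (w i) = 0) {j : Fin 5}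
    (hj : β j = 0) : ∀ i, β i = 0 := by
  rw [Fin.sum_univ_five] at h0 h1
  have hn : ∀ i k : Fin 5, i ≠ k → w i ≠ w k := fun i k hik h => hik (hw h)
  have main : β 0 = 0 ∧ β 1 = 0 ∧ β 2 = 0 ∧ β 3 = 0 ∧ β 4 = 0 := by
    fin_cases j
    · have hj' : β 0 = 0 := hj
      rw [hj'] at h0 h1
      rw [zero_smul, zero_add] at h1
      rw [zero_add] at h0
      obtain ⟨h2, h3, h4, h5⟩ := dep_four hp (hn 1 2 (by decide)) (hn 1 3 (by decide))
        (hn 1 4 (by decide)) (hn 2 3 (by decide)) (hn 2 4 (by decide)) (hn 3 4 (by decide)) h0 h1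
      exact ⟨hj', h2, h3, h4, h5⟩
    · have hj' : β 1 = 0 := hj
      rw [hj'] at h0 h1
      rw [zero_smul, add_zero] at h1
      rw [add_zero] at h0
      obtain ⟨h2, h3, h4, h5⟩ := dep_four hp (hn 0 2 (by decide)) (hn 0 3 (by decide))
        (hn 0 4 (by decide)) (hn 2 3 (by decide)) (hn 2 4 (by decide)) (hn 3 4 (by decide)) h0 h1
      exact ⟨h2, hj', h3, h4, h5⟩
    · have hj' : β 2 = 0 := hj
      rw [hj'] at h0 h1
      rw [zero_smul, add_zero] at h1
      rw [add_zero] at h0
      obtain ⟨h2, h3, h4, h5⟩ := dep_four hp (hn 0 1 (by decide)) (hn 0 3 (by decide))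
        (hn 0 4 (by decide)) (hn 1 3 (by decide)) (hn 1 4 (by decide)) (hn 3 4 (by decide)) h0 h1
      exact ⟨h2, h3, hj', h4, h5⟩
    · have hj' : β 3 = 0 := hj
      rw [hj'] at h0 h1
      rw [zero_smul, add_zero] at h1
      rw [add_zero] at h0
      obtain ⟨h2, h3, h4, h5⟩ := dep_four hp (hn 0 1 (by decide)) (hn 0 2 (by decide))
        (hn 0 4 (by decide)) (hn 1 2 (by decide)) (hn 1 4 (by decide)) (hn 2 4 (by decide)) h0 h1
      exact ⟨h2, h3, h4, hj', h5⟩
    · have hj' : β 4 = 0 := hj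
      rw [hj'] at h0 h1
      rw [zero_smul, add_zero] at h1
      rw [add_zero] at h0
      obtain ⟨h2, h3, h4, h5⟩ := dep_four hp (hn 0 1 (by decide)) (hn 0 2 (by decide))
        (hn 0 3 (by decide)) (hn 1 2 (by decide)) (hn 1 3 (by decide)) (hn 2 3 (by decide)) h0 h1
      exact ⟨h2, h3, h4, h5, hj'⟩
  obtain ⟨m0, m1, m2, m3, m4⟩ := main
  intro i
  fin_cases i
  exacts [m0, m1, m2, m3, m4]

/-- The affine dependency of five points in general position. -/
lemma GP.exists_dep {p : V → E3} (hp : GP p) {w : Fin 5 → V} (hw : Function.Injective w) :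
    ∃ α : Fin 5 → ℝ, (∀ i, α i ≠ 0) ∧ ∑ i, α i = 0 ∧ ∑ i, α i • p (w i) = 0 ∧
      ∀ β : Fin 5 → ℝ, ∑ i, β i = 0 → ∑ i, β i • p (w i) = 0 → ∃ c : ℝ, ∀ i, β i = c * α i := by
  have hnot : ¬ LinearIndependent ℝ (fun i : Fin 4 => p (w i.succ) - p (w 0)) := by
    intro hli
    have h1 := hli.fintype_card_le_finrank
    rw [finrank_euclideanSpace, Fintype.card_fin, Fintype.card_fin] at h1
    omega
  obtain ⟨g, hg, i0, hi0⟩ := Fintype.not_linearIndependent_iff.1 hnot
  set α : Fin 5 → ℝ := Fin.cons (-∑ i, g i) g with hα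
  have hα0 : ∑ i, α i = 0 := by
    rw [Fin.sum_univ_succ]
    simp [hα]
  have hα1 : ∑ i, α i • p (w i) = 0 := by
    rw [Fin.sum_univ_succ]
    simp only [hα, Fin.cons_zero, Fin.cons_succ]
    rw [← hg]
    simp only [smul_sub, Finset.sum_sub_distrib]
    rw [← Finset.sum_smul, neg_smul]
    abel
  have hne : ∀ i, α i ≠ 0 := by
    intro i hi
    have h1 := dep_key hp hw hα0 hα1 hi i0.succ
    rw [hα, Fin.cons_succ] at h1
    exact hi0 h1
  refine ⟨α, hne, hα0, hα1, fun β hβ0 hβ1 => ⟨β 0 / α 0, ?_⟩⟩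
  have h2 := dep_key hp hw (β := fun i => β i - β 0 / α 0 * α i) (j := 0) ?_ ?_ ?_
  · intro i
    exact sub_eq_zero.1 (h2 i)
  · rw [Finset.sum_sub_distrib, ← Finset.mul_sum, hβ0, hα0, mul_zero, sub_zero]
  · simp only [sub_smul, mul_smul, Finset.sum_sub_distrib]
    rw [← Finset.smul_sum, hβ1, hα1, smul_zero, sub_zero]
  · rw [div_mul_cancel₀ _ (hne 0), sub_self]

/-- The functionals of the five bars. -/
noncomputable def barF (M : Submodule ℝ (V → E3)) (v : V) (w : Fin 5 → V) (d : Fin 5 → E3) :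
    M →ₗ[ℝ] (Fin 5 → ℝ) :=
  LinearMap.pi fun i => (innerₛₗ ℝ (d i)).comp
    ((LinearMap.proj (R := ℝ) (φ := fun _ : V => E3) v - LinearMap.proj (w i)).comp M.subtype)

omit [Fintype V] in
lemma barF_apply (M : Submodule ℝ (V → E3)) (v : V) (w : Fin 5 → V) (d : Fin 5 → E3) (S : M)
    (i : Fin 5) : barF M v w d S i = ⟪d i, (S : V → E3) v - (S : V → E3) (w i)⟫ := rfl

/-- Five bars which do not lower the dimension by five are dependent. -/
lemma exists_barF_dep {M N : Submodule ℝ (V → E3)} {v : V} {w : Fin 5 → V} {d : Fin 5 → E3}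
    (hMN : ∀ S ∈ N, S ∈ M ∧ ∀ i, ⟪d i, S v - S (w i)⟫ = 0)
    (hNM : ∀ S ∈ M, (∀ i, ⟪d i, S v - S (w i)⟫ = 0) → S ∈ N)
    (h : finrank ℝ M < finrank ℝ N + 5) :
    ∃ μ : Fin 5 → ℝ, μ ≠ 0 ∧ ∀ S ∈ M, ∑ i, μ i * ⟪d i, S v - S (w i)⟫ = 0 := by
  have hker : (LinearMap.ker (barF M v w d)).map M.subtype = N := by
    ext S
    constructor
    · rintro ⟨T, hT, rfl⟩
      refine hNM _ T.2 fun i => ?_
      have h1 := congrFun (show barF M v w d T = 0 from hT) i
      rwa [barF_apply] at h1
    · intro hS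
      obtain ⟨h1, h2⟩ := hMN S hS
      refine ⟨⟨S, h1⟩, ?_, rfl⟩
      show barF M v w d ⟨S, h1⟩ = 0
      funext i
      rw [barF_apply]
      exact h2 i
  have hfin : finrank ℝ (LinearMap.ker (barF M v w d)) = finrank ℝ N := by
    rw [← hker]
    exact (Submodule.finrank_map_subtype_eq M _).symm
  have hr := LinearMap.finrank_range_add_finrank_ker (barF M v w d)
  have hlt : LinearMap.range (barF M v w d) < ⊤ := by
    rw [lt_top_iff_ne_top]
    intro htop
    rw [htop, finrank_top, Module.finrank_fin_fun] at hr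
    omega
  obtain ⟨f, hf0, hf⟩ := Submodule.exists_le_ker_of_lt_top _ hlt
  refine ⟨fun i => f (Pi.single i 1), ?_, ?_⟩
  · intro h0
    apply hf0
    refine LinearMap.pi_ext' fun i => ?_
    ext
    simpa using congrFun h0 i
  · intro S hS
    have h1 : f (barF M v w d ⟨S, hS⟩) = 0 := hf ⟨_, rfl⟩
    rw [LinearMap.pi_apply_eq_sum_univ f] at h1
    rw [← h1]
    refine Finset.sum_congr rfl fun i _ => ?_
    have h2 : (Pi.single i (1 : ℝ) : Fin 5 → ℝ) = fun j => if i = j then 1 else 0 := by
      funext j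
      simp [Pi.single_apply, eq_comm]
    rw [barF_apply, smul_eq_mul, mul_comm, ← h2]

omit [Fintype V] in
lemma sum_ll (P S : Fin 5 → E3) {l : Fin 5 → ℝ} (hl : ∑ i, l i = 1) :
    ∑ i, ∑ j, l i * l j * ⟪P i - P j, S i - S j⟫ =
      -2 * ∑ i, l i * ⟪∑ j, l j • P j - P i, S i⟫ := by
  have h1 : ∀ i, ⟪∑ j, l j • P j - P i, S i⟫ = ∑ j, l j * ⟪P j - P i, S i⟫ := by
    intro i
    have h2 : ∑ j, l j • P j - P i = ∑ j, l j • (P j - P i) := by
      simp only [smul_sub, Finset.sum_sub_distrib]
      rw [← Finset.sum_smul, hl, one_smul]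
    rw [h2, sum_inner]
    exact Finset.sum_congr rfl fun j _ => by rw [real_inner_smul_left]
  have h3 : ∑ i, ∑ j, l i * l j * ⟪P i - P j, S i - S j⟫ =
      ∑ i, ∑ j, l i * (l j * ⟪P i - P j, S i⟫) + ∑ i, ∑ j, l i * (l j * ⟪P j - P i, S j⟫) := by
    rw [← Finset.sum_add_distrib]
    refine Finset.sum_congr rfl fun i _ => ?_
    rw [← Finset.sum_add_distrib]
    refine Finset.sum_congr rfl fun j _ => ?_
    rw [inner_sub_right, ← neg_sub (P i) (P j), inner_neg_left]
    ring
  have h4 : ∑ i, ∑ j, l i * (l j * ⟪P j - P i, S j⟫) =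
      ∑ i, ∑ j, l i * (l j * ⟪P i - P j, S i⟫) := by
    rw [Finset.sum_comm]
    refine Finset.sum_congr rfl fun i _ => Finset.sum_congr rfl fun j _ => ?_
    ring
  rw [h3, h4]
  simp only [h1, Finset.mul_sum]
  rw [← Finset.sum_add_distrib]
  refine Finset.sum_congr rfl fun i _ => ?_
  rw [← Finset.sum_add_distrib]
  refine Finset.sum_congr rfl fun j _ => ?_
  rw [← neg_sub (P i) (P j), inner_neg_left]
  ring

omit [Fintype V] in
lemma sum_la (P S : Fin 5 → E3) {l α : Fin 5 → ℝ} (hl : ∑ i, l i = 1) (hα0 : ∑ i, α i = 0)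
    (hα1 : ∑ i, α i • P i = 0) :
    ∑ i, ∑ j, l i * α j * ⟪P i - P j, S i - S j⟫ =
      -∑ i, α i * ⟪∑ j, l j • P j - P i, S i⟫ := by
  have h1 : ∀ i, ⟪∑ j, l j • P j - P i, S i⟫ = ∑ j, l j * ⟪P j - P i, S i⟫ := by
    intro i
    have h2 : ∑ j, l j • P j - P i = ∑ j, l j • (P j - P i) := by
      simp only [smul_sub, Finset.sum_sub_distrib]
      rw [← Finset.sum_smul, hl, one_smul]
    rw [h2, sum_inner]
    exact Finset.sum_congr rfl fun j _ => by rw [real_inner_smul_left]
  have h5 : ∀ i, ∑ j, l i * (α j * ⟪P i - P j, S i⟫) = 0 := by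
    intro i
    have h6 : ∑ j, α j • (P i - P j) = 0 := by
      simp only [smul_sub, Finset.sum_sub_distrib]
      rw [← Finset.sum_smul, hα0, zero_smul, hα1, sub_zero]
    have h7 : ∑ j, α j * ⟪P i - P j, S i⟫ = 0 := by
      have h8 : ∑ j, α j * ⟪P i - P j, S i⟫ = ⟪∑ j, α j • (P i - P j), S i⟫ := by
        rw [sum_inner]
        exact Finset.sum_congr rfl fun j _ => by rw [real_inner_smul_left]
      rw [h8, h6, inner_zero_left]
    rw [← Finset.mul_sum, h7, mul_zero]
  have h3 : ∑ i, ∑ j, l i * α j * ⟪P i - P j, S i - S j⟫ =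
      ∑ i, ∑ j, l i * (α j * ⟪P i - P j, S i⟫) - ∑ i, ∑ j, α j * (l i * ⟪P i - P j, S j⟫) := by
    rw [← Finset.sum_sub_distrib]
    refine Finset.sum_congr rfl fun i _ => ?_
    rw [← Finset.sum_sub_distrib]
    refine Finset.sum_congr rfl fun j _ => ?_
    rw [inner_sub_right]
    ring
  rw [h3, Finset.sum_congr rfl fun i _ => h5 i, Finset.sum_const_zero, zero_sub, Finset.sum_comm]
  simp only [h1, Finset.mul_sum]

/-- If the five bars at `v` are dependent at all positions of `v`, the rates of change of the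
distances between the neighbours of `v` satisfy quadratic relations. -/
theorem five_rel (Γ : SimpleGraph V) {v : V} {w : Fin 5 → V} (hw : Function.Injective w)
    (hN : ∀ x, Γ.Adj v x ↔ ∃ i, w i = x) (hk : kF (delV Γ v) < kF Γ + 5) {p : V → E3}
    (hp : GoodF p) {α : Fin 5 → ℝ} (hα0 : ∑ i, α i = 0) (hα1 : ∑ i, α i • p (w i) = 0)
    (hα2 : ∀ β : Fin 5 → ℝ, ∑ i, β i = 0 → ∑ i, β i • p (w i) = 0 → ∃ c : ℝ, ∀ i, β i = c * α i)
    {q q' : V → E3} (hq : q ∈ Flex (delV Γ v) p) (hq' : q' ∈ Flex (delV Γ v) p)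
    {l : Fin 5 → ℝ} (hl : ∑ i, l i = 1) :
    (∑ i, ∑ j, l i * l j * ⟪p (w i) - p (w j), q (w i) - q (w j)⟫) *
        (∑ i, ∑ j, l i * α j * ⟪p (w i) - p (w j), q' (w i) - q' (w j)⟫) =
      (∑ i, ∑ j, l i * l j * ⟪p (w i) - p (w j), q' (w i) - q' (w j)⟫) *
        (∑ i, ∑ j, l i * α j * ⟪p (w i) - p (w j), q (w i) - q (w j)⟫) := by
  classical
  have hwv : ∀ i, w i ≠ v := fun i h => by
    have h1 : Γ.Adj v (w i) := (hN _).2 ⟨i, rfl⟩
    exact h1.ne h.symm
  obtain ⟨t, ht⟩ : ∃ t, t = ∑ j, l j • p (w j) := ⟨_, rfl⟩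
  have hMN : ∀ S ∈ Flex Γ (Function.update p v t), S ∈ Flex (delV Γ v) p ∧
      ∀ i, ⟪t - p (w i), S v - S (w i)⟫ = 0 := by
    intro S hS
    rw [Pool.Agent.H26R.mem_Flex] at hS
    refine ⟨?_, fun i => ?_⟩
    · rw [← Flex_delV_update Γ v p t, Pool.Agent.H26R.mem_Flex]
      exact fun x y hxy => hS x y (delV_adj.1 hxy).1
    · have h1 := hS v (w i) ((hN _).2 ⟨i, rfl⟩)
      rwa [Function.update_self, Function.update_of_ne (hwv i)] at h1
  have hNM : ∀ S ∈ Flex (delV Γ v) p, (∀ i, ⟪t - p (w i), S v - S (w i)⟫ = 0) →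
      S ∈ Flex Γ (Function.update p v t) := by
    intro S hS h
    rw [← Flex_delV_update Γ v p t, Pool.Agent.H26R.mem_Flex] at hS
    rw [Pool.Agent.H26R.mem_Flex]
    intro x y hxy
    by_cases hx : x = v
    · subst hx
      obtain ⟨i, rfl⟩ := (hN y).1 hxy
      rw [Function.update_self, Function.update_of_ne (hwv i)]
      exact h i
    · by_cases hy : y = v
      · subst hy
        obtain ⟨i, rfl⟩ := (hN x).1 hxy.symm
        rw [Function.update_self, Function.update_of_ne (hwv i), ← neg_sub t, ← neg_sub (S y),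
          inner_neg_neg]
        exact h i
      · exact hS x y (delV_adj.2 ⟨hxy, hx, hy⟩)
  obtain ⟨μ, hμ0, hμ⟩ := exists_barF_dep hMN hNM (by
    have h1 := kF_le Γ (Function.update p v t)
    have h2 := hp.2 (delV Γ v)
    omega)
  have hμt : ∑ i, μ i • (t - p (w i)) = 0 := by
    refine ext_inner_right ℝ fun y => ?_
    have hS : Pi.single v y ∈ Flex (delV Γ v) p := by
      rw [Pool.Agent.H26R.mem_Flex]
      intro a b hab
      have h1 := delV_adj.1 hab
      rw [Pi.single_eq_of_ne h1.2.1, Pi.single_eq_of_ne h1.2.2, sub_zero, inner_zero_right]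
    have h1 := hμ _ hS
    rw [inner_zero_left, sum_inner, ← h1]
    refine Finset.sum_congr rfl fun i _ => ?_
    rw [real_inner_smul_left, Pi.single_eq_same, Pi.single_eq_of_ne (hwv i), sub_zero]
  obtain ⟨σ, hσ⟩ : ∃ σ, σ = ∑ i, μ i := ⟨_, rfl⟩
  have hμt' : σ • t = ∑ i, μ i • p (w i) := by
    simp only [smul_sub, Finset.sum_sub_distrib] at hμt
    rw [← Finset.sum_smul, ← hσ, sub_eq_zero] at hμt
    exact hμt
  obtain ⟨c, hc⟩ := hα2 (fun i => μ i - σ * l i)
    (by rw [Finset.sum_sub_distrib, ← Finset.mul_sum, hl, mul_one, ← hσ, sub_self])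
    (by
      simp only [sub_smul, Finset.sum_sub_distrib, mul_smul]
      rw [← Finset.smul_sum, ← ht, hμt', sub_self])
  have hμi : ∀ i, μ i = σ * l i + c * α i := fun i => by
    have h1 : μ i - σ * l i = c * α i := hc i
    linarith
  have hrel : ∀ S ∈ Flex (delV Γ v) p,
      σ * (∑ i, l i * ⟪t - p (w i), S (w i)⟫) + c * (∑ i, α i * ⟪t - p (w i), S (w i)⟫) = 0 := by
    intro S hS
    have h1 := hμ S hS
    have h2 : ∑ i, μ i * ⟪t - p (w i), S v⟫ = 0 := by
      have h3 := congrArg (fun x : E3 => ⟪x, S v⟫) hμt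
      simp only [sum_inner, inner_zero_left, real_inner_smul_left] at h3
      exact h3
    simp only [inner_sub_right, mul_sub, Finset.sum_sub_distrib] at h1
    rw [h2, zero_sub, neg_eq_zero] at h1
    rw [← h1, Finset.mul_sum, Finset.mul_sum, ← Finset.sum_add_distrib]
    refine Finset.sum_congr rfl fun i _ => ?_
    rw [hμi i]
    ring
  have hσc : σ ≠ 0 ∨ c ≠ 0 := by
    by_contra h
    push Not at h
    apply hμ0
    funext i
    rw [hμi i, h.1, h.2]
    simp
  have e1 := sum_ll (fun i => p (w i)) (fun i => q (w i)) hl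
  have e2 := sum_ll (fun i => p (w i)) (fun i => q' (w i)) hl
  have e3 := sum_la (fun i => p (w i)) (fun i => q (w i)) hl hα0 hα1
  have e4 := sum_la (fun i => p (w i)) (fun i => q' (w i)) hl hα0 hα1
  simp only [← ht] at e1 e2 e3 e4
  rw [e1, e2, e3, e4]
  have r1 := hrel q hq
  have r2 := hrel q' hq'
  generalize (∑ i, l i * ⟪t - p (w i), q (w i)⟫) = A at *
  generalize (∑ i, l i * ⟪t - p (w i), q' (w i)⟫) = A' at *
  generalize (∑ i, α i * ⟪t - p (w i), q (w i)⟫) = B at *
  generalize (∑ i, α i * ⟪t - p (w i), q' (w i)⟫) = B' at *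
  have h1 : A * B' = A' * B := by
    rcases hσc with h | h
    · apply mul_left_cancel₀ h
      linear_combination B' * r1 - B * r2
    · apply mul_left_cancel₀ h
      linear_combination A * r2 - A' * r1
  linear_combination 2 * h1

/-- The vertex `v` and its neighbours move rigidly. -/
def WheelRigid (Γ : SimpleGraph V) (v : V) : Prop :=
  ∀ᵐ p : V → E3 ∂volume, ∀ q ∈ Flex Γ p, ∃ T : Kil, q v = ev (p v) T ∧
    ∀ x, Γ.Adj v x → q x = ev (p x) T

omit [Fintype V] in
lemma inner_ev_sub' (x y : E3) (T : Kil) : ⟪x - y, ev x T - ev y T⟫ = 0 := by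
  have h1 : ev x T - ev y T = crossE T.1 (x - y) := by
    have h2 : crossE T.1 x = crossE T.1 (x - y) + crossE T.1 y := by
      rw [← Pool.Agent.H26R.crossE_add_right, sub_add_cancel]
    rw [ev_apply, ev_apply, h2]
    abel
  rw [h1]
  exact Pool.Agent.H26R.inner_crossE_self _ _

omit [Fintype V] in
lemma Flex_mono {Γ Γ' : SimpleGraph V} (h : Γ ≤ Γ') (p : V → E3) : Flex Γ' p ≤ Flex Γ p := by
  intro q hq
  rw [Pool.Agent.H26R.mem_Flex] at hq ⊢
  exact fun i j hij => hq i j (h hij)

omit [Fintype V] in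
lemma delV_le (Γ : SimpleGraph V) (v : V) : delV Γ v ≤ Γ := fun _ _ h => (delV_adj.1 h).1

/-- A vertex of degree five such that every neighbour has two common neighbours with it: its bars
are independent or its neighbourhood is rigid. -/
theorem five (Γ : SimpleGraph V) {v : V} (h5 : (Γ.neighborSet v).ncard = 5)
    (h2 : ∀ x, Γ.Adj v x → 2 ≤ {y | Γ.Adj v y ∧ Γ.Adj x y}.ncard)
    (hk : kF (delV Γ v) < kF Γ + 5) : WheelRigid Γ v := by
  classical
  -- enumerate the neighbours
  obtain ⟨w, hw, hwN⟩ := exists_neighbors (k := 5) (L := Γ) (v := v) h5.ge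
  have hN : ∀ x, Γ.Adj v x ↔ ∃ i, w i = x := by
    have h1 : Set.range w ⊆ Γ.neighborSet v := by
      rintro _ ⟨i, rfl⟩
      exact hwN i
    have h3 : (Set.range w).ncard = 5 := by
      rw [← Set.image_univ, Set.ncard_image_of_injective _ hw, Set.ncard_univ,
        Nat.card_eq_fintype_card, Fintype.card_fin]
    have h4 : Set.range w = Γ.neighborSet v :=
      Set.eq_of_subset_of_ncard_le h1 (by rw [h5, h3]) (Set.toFinite _)
    intro x
    constructor
    · intro hx
      have h6 : x ∈ Set.range w := by rw [h4]; exact hx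
      exact h6
    · rintro ⟨i, rfl⟩
      exact hwN i
  have hvw : ∀ i, w i ≠ v := fun i => (hwN i).ne'
  filter_upwards [ae_goodF (V := V)] with p hp q hq
  obtain ⟨α, hα, hα0, hα1, hα2⟩ := hp.1.exists_dep hw
  have hle : Flex Γ p ≤ Flex (delV Γ v) p := Flex_mono (delV_le Γ v) p
  -- the edges among the neighbours
  have hadj : ∀ i j, Γ.Adj (w i) (w j) → ∀ S ∈ Flex (delV Γ v) p,
      ⟪p (w i) - p (w j), S (w i) - S (w j)⟫ = 0 := by
    intro i j hij S hS
    rw [Pool.Agent.H26R.mem_Flex] at hS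
    exact hS _ _ (delV_adj.2 ⟨hij, hvw i, hvw j⟩)
  have hprop : ∀ S S', S ∈ Flex (delV Γ v) p → S' ∈ Flex (delV Γ v) p → ∀ i j k m,
      ⟪p (w i) - p (w j), S (w i) - S (w j)⟫ * ⟪p (w k) - p (w m), S' (w k) - S' (w m)⟫ =
      ⟪p (w i) - p (w j), S' (w i) - S' (w j)⟫ * ⟪p (w k) - p (w m), S (w k) - S (w m)⟫ := by
    intro S S' hS hS'
    have hsym : ∀ (R : V → E3) (i j : Fin 5), ⟪p (w i) - p (w j), R (w i) - R (w j)⟫ =
        ⟪p (w j) - p (w i), R (w j) - R (w i)⟫ := by
      intro R i j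
      rw [← neg_sub (p (w j)), ← neg_sub (R (w j)), inner_neg_neg]
    refine five_la (e := fun i j => ⟪p (w i) - p (w j), S (w i) - S (w j)⟫)
      (e' := fun i j => ⟪p (w i) - p (w j), S' (w i) - S' (w j)⟫) hα (hsym S) (hsym S')
      (fun i => by rw [sub_self, inner_zero_left]) (fun i => by rw [sub_self, inner_zero_left])
      ?_ ?_
    · intro i
      have h3 := h2 (w i) (hwN i)
      obtain ⟨y, z, hy, hz, hyz⟩ := (Set.one_lt_ncard_iff (Set.toFinite _)).1
        (show 1 < {y | Γ.Adj v y ∧ Γ.Adj (w i) y}.ncard by omega)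
      obtain ⟨j, rfl⟩ := (hN y).1 hy.1
      obtain ⟨k, rfl⟩ := (hN z).1 hz.1
      refine ⟨j, k, ?_, ?_, ?_, hadj i j hy.2 S hS, hadj i j hy.2 S' hS', hadj i k hz.2 S hS,
        hadj i k hz.2 S' hS'⟩
      · rintro rfl
        exact hy.2.ne rfl
      · rintro rfl
        exact hz.2.ne rfl
      · rintro rfl
        exact hyz rfl
    · intro l hl
      exact five_rel Γ hw hN hk hp hα0 hα1 hα2 hS hS' hl
  -- the rates vanish for the flexes of `Γ`
  have hzero : ∀ i j, ⟪p (w i) - p (w j), q (w i) - q (w j)⟫ = 0 := by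
    by_contra hcon
    push Not at hcon
    obtain ⟨i, j, hij⟩ := hcon
    have hne : i ≠ j := by
      rintro rfl
      apply hij
      rw [sub_self, inner_zero_left]
    have hwij : w i ≠ w j := fun h => hne (hw h)
    have hcov : Flex (delV Γ v) p ≤ Flex Γ p ⊔
        LinearMap.range (LinearMap.single ℝ (fun _ : V => E3) v) := by
      intro S hS
      obtain ⟨c, hc⟩ : ∃ c : ℝ, c = ⟪p (w i) - p (w j), S (w i) - S (w j)⟫ /
        ⟪p (w i) - p (w j), q (w i) - q (w j)⟫ := ⟨_, rfl⟩
      have hS'' : S - c • q ∈ Flex (delV Γ v) p :=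
        Submodule.sub_mem _ hS (Submodule.smul_mem _ _ (hle hq))
      have h0 : ∀ k m, ⟪p (w k) - p (w m), (S - c • q) (w k) - (S - c • q) (w m)⟫ = 0 := by
        intro k m
        have h3 : (S - c • q) (w k) - (S - c • q) (w m) =
            (S (w k) - S (w m)) - c • (q (w k) - q (w m)) := by
          simp only [Pi.sub_apply, Pi.smul_apply, smul_sub]
          abel
        rw [h3, inner_sub_right, inner_smul_right, hc]
        have h4 := hprop q S (hle hq) hS i j k m
        field_simp
        linarith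
      obtain ⟨T, hT⟩ := hp.1.clique (B := Finset.univ.image w) (q := S - c • q) (by
        rw [Finset.card_image_of_injective _ hw, Finset.card_univ, Fintype.card_fin]
        norm_num) (by
        intro x hx y hy _
        obtain ⟨k, -, rfl⟩ := Finset.mem_image.1 hx
        obtain ⟨m, -, rfl⟩ := Finset.mem_image.1 hy
        exact h0 k m)
      have hR : Function.update (S - c • q) v (ev (p v) T) ∈ Flex Γ p := by
        rw [Pool.Agent.H26R.mem_Flex] at hS'' ⊢
        have key : ∀ y, Γ.Adj v y → ⟪p v - p y, Function.update (S - c • q) v (ev (p v) T) v -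
            Function.update (S - c • q) v (ev (p v) T) y⟫ = 0 := by
          intro y hy
          obtain ⟨k, rfl⟩ := (hN y).1 hy
          rw [Function.update_self, Function.update_of_ne (hvw k),
            hT (w k) (Finset.mem_image_of_mem _ (Finset.mem_univ _))]
          exact inner_ev_sub' _ _ _
        intro x y hxy
        by_cases hx : x = v
        · subst hx
          exact key y hxy
        · by_cases hy : y = v
          · subst hy
            rw [← neg_sub (p y), ← neg_sub (Function.update (S - c • q) y (ev (p y) T) y),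
              inner_neg_neg]
            exact key x hxy.symm
          · rw [Function.update_of_ne hx, Function.update_of_ne hy]
            exact hS'' x y (delV_adj.2 ⟨hxy, hx, hy⟩)
      have hdec : S = (c • q + Function.update (S - c • q) v (ev (p v) T)) +
          LinearMap.single ℝ (fun _ : V => E3) v ((S - c • q) v - ev (p v) T) := by
        funext x
        rw [LinearMap.coe_single]
        by_cases hx : x = v
        · subst hx
          simp only [Pi.add_apply, Pi.smul_apply, Function.update_self, Pi.single_eq_same,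
            Pi.sub_apply]
          abel
        · simp only [Pi.add_apply, Pi.smul_apply, Function.update_of_ne hx, Pi.sub_apply,
            Pi.single_eq_of_ne hx]
          abel
      rw [hdec]
      exact Submodule.add_mem_sup (Submodule.add_mem _ (Submodule.smul_mem _ _ hq) hR) ⟨_, rfl⟩
    have h3 : finrank ℝ (LinearMap.range (LinearMap.single ℝ (fun _ : V => E3) v)) ≤ 3 := by
      refine (LinearMap.finrank_range_le _).trans ?_
      simp
    have h4 : kF (delV Γ v) ≤ kF Γ + 3 := by
      rw [← hp.2 (delV Γ v), ← hp.2 Γ]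
      refine (Submodule.finrank_mono hcov).trans ((Submodule.finrank_add_le_finrank_add_finrank
        _ _).trans ?_)
      omega
    have h6 := one_ext Γ (hwN i) (hwN j) hwij (by omega)
    have h7 : Flex (delV Γ v ⊔ SimpleGraph.edge (w i) (w j)) p ≤ Flex (delV Γ v) p :=
      Flex_mono le_sup_left p
    have h8 : Flex (delV Γ v ⊔ SimpleGraph.edge (w i) (w j)) p = Flex (delV Γ v) p := by
      apply Submodule.eq_of_le_of_finrank_le h7
      rw [hp.2, hp.2]
      omega
    have h9 := hle hq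
    rw [← h8, Pool.Agent.H26R.mem_Flex] at h9
    apply hij
    apply h9
    right
    rw [SimpleGraph.edge_adj]
    exact ⟨Or.inl ⟨rfl, rfl⟩, hwij⟩
  -- rigidity
  obtain ⟨T, hT⟩ := hp.1.clique (B := Finset.univ.image w) (q := q) (by
    rw [Finset.card_image_of_injective _ hw, Finset.card_univ, Fintype.card_fin]
    norm_num) (by
    intro x hx y hy _
    obtain ⟨k, -, rfl⟩ := Finset.mem_image.1 hx
    obtain ⟨m, -, rfl⟩ := Finset.mem_image.1 hy
    exact hzero k m)
  have hT' : ∀ i, q (w i) = ev (p (w i)) T := fun i =>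
    hT _ (Finset.mem_image_of_mem _ (Finset.mem_univ _))
  refine ⟨T, ?_, fun x hx => ?_⟩
  · have h3 := hp.1.indep (k := 3) le_rfl (v := v) (y := fun i => w (Fin.castLE (by norm_num) i))
      (fun i j h => Fin.castLE_injective _ (hw h)) (fun i => hvw _)
    have h4 : q v - ev (p v) T = 0 := by
      apply eq_zero_of_inner_indep h3
      intro i
      rw [Pool.Agent.H26R.mem_Flex] at hq
      have h6 := hq v _ (hwN (Fin.castLE (by norm_num) i))
      have h7 := inner_ev_sub' (p v) (p (w (Fin.castLE (by norm_num) i))) T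
      rw [hT'] at h6
      rw [real_inner_comm]
      have h8 : q v - ev (p v) T = (q v - ev (p (w (Fin.castLE (by norm_num) i))) T) -
          (ev (p v) T - ev (p (w (Fin.castLE (by norm_num) i))) T) := by abel
      rw [h8, inner_sub_right, h6, h7, sub_zero]
    exact sub_eq_zero.1 h4
  · obtain ⟨i, rfl⟩ := (hN x).1 hx
    exact hT' i

end

end Pool.Agent.BJ
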