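import Pool.Agent.Lib.MP_37c7bf_BJ.Eval

/-!
A body `c` that can move freely, attached by one, two or three joints to bodies `u`, `v`, `w`:
pure linear algebra.  `Y` is the space of motions of the structure without the joints at `c`.
-/

open MeasureTheory Module Topology
open scoped RealInnerProductSpace

namespace Pool.Agent.BJ

open Pool.Agent.H26R (E3 crossE inner_E3)

private lemma star_ext {x y : E3} (h0 : x 0 = y 0) (h1 : x 1 = y 1) (h2 : x 2 = y 2) : x = y := by
  ext k; fin_cases k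
  · exact h0
  · exact h1
  · exact h2

private lemma star_inner_self_ne {u : E3} (hu : u ≠ 0) : u 0 * u 0 + u 1 * u 1 + u 2 * u 2 ≠ 0 := by
  rw [← inner_E3]
  intro h
  exact hu (inner_self_eq_zero.1 h)

/-- `ω × u = p` has a solution when `p` is orthogonal to `u ≠ 0`. -/
private lemma star_solve_one {u p : E3} (hu : u ≠ 0) (hp : ⟪p, u⟫ = 0) :
    ∃ ω, crossE ω u = p := by
  have h2 := star_inner_self_ne hu
  set n : ℝ := u 0 * u 0 + u 1 * u 1 + u 2 * u 2 with hn
  rw [inner_E3] at hp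
  refine ⟨n⁻¹ • crossE u p, ?_⟩
  rw [Pool.Agent.H26R.crossE_smul_left]
  have key : crossE (crossE u p) u = n • p := by
    apply star_ext
    · simp [crossE, hn]; linear_combination (-u 0) * hp
    · simp [crossE, hn]; linear_combination (-u 1) * hp
    · simp [crossE, hn]; linear_combination (-u 2) * hp
  rw [key, smul_smul, inv_mul_cancel₀ h2, one_smul]

/-- The common solution of `ω × u = p`, `ω × v = q`. -/
private lemma star_solve_two {u v p q : E3} (hn : crossE u v ≠ 0) (hp : ⟪p, u⟫ = 0)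
    (hq : ⟪q, v⟫ = 0) (hpq : ⟪p, v⟫ + ⟪q, u⟫ = 0) : ∃ ω, crossE ω u = p ∧ crossE ω v = q := by
  have h2 := star_inner_self_ne hn
  set n : E3 := crossE u v with hn'
  set m : ℝ := n 0 * n 0 + n 1 * n 1 + n 2 * n 2 with hm
  have n0 : n 0 = u 1 * v 2 - u 2 * v 1 := by simp [hn', crossE]
  have n1 : n 1 = u 2 * v 0 - u 0 * v 2 := by simp [hn', crossE]
  have n2 : n 2 = u 0 * v 1 - u 1 * v 0 := by simp [hn', crossE]
  refine ⟨m⁻¹ • (⟪q, n⟫ • u + (-⟪p, n⟫) • v + ⟪p, v⟫ • n), ?_, ?_⟩
  · rw [Pool.Agent.H26R.crossE_smul_left]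
    have key : crossE (⟪q, n⟫ • u + (-⟪p, n⟫) • v + ⟪p, v⟫ • n) u = m • p := by
      simp only [inner_E3] at hp hq hpq ⊢
      apply star_ext
      · simp [crossE, hm, n0, n1, n2]
        linear_combination (-(v 1 * (u 0 * v 1 - u 1 * v 0) - v 2 * (u 2 * v 0 - u 0 * v 2))) * hp
      · simp [crossE, hm, n0, n1, n2]
        linear_combination (-(v 2 * (u 1 * v 2 - u 2 * v 1) - v 0 * (u 0 * v 1 - u 1 * v 0))) * hp
      · simp [crossE, hm, n0, n1, n2]
        linear_combination (-(v 0 * (u 2 * v 0 - u 0 * v 2) - v 1 * (u 1 * v 2 - u 2 * v 1))) * hp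
    rw [key, smul_smul, inv_mul_cancel₀ h2, one_smul]
  · rw [Pool.Agent.H26R.crossE_smul_left]
    have hpv : ⟪p, v⟫ = -⟪q, u⟫ := by linarith
    rw [hpv]
    have key : crossE (⟪q, n⟫ • u + (-⟪p, n⟫) • v + (-⟪q, u⟫) • n) v = m • q := by
      simp only [inner_E3] at hp hq hpq ⊢
      apply star_ext
      · simp [crossE, hm, n0, n1, n2]
        linear_combination ((u 0 * v 1 - u 1 * v 0) * u 1 - (u 2 * v 0 - u 0 * v 2) * u 2) * hq
      · simp [crossE, hm, n0, n1, n2]
        linear_combination ((u 1 * v 2 - u 2 * v 1) * u 2 - (u 0 * v 1 - u 1 * v 0) * u 0) * hq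
      · simp [crossE, hm, n0, n1, n2]
        linear_combination ((u 2 * v 0 - u 0 * v 2) * u 0 - (u 1 * v 2 - u 2 * v 1) * u 1) * hq
    rw [key, smul_smul, inv_mul_cancel₀ h2, one_smul]

/-- Vectors with vanishing cross product are parallel. -/
private lemma star_parallel {u v : E3} (hu : u ≠ 0) (h : crossE u v = 0) : ∃ μ : ℝ, v = μ • u := by
  have h2 := star_inner_self_ne hu
  have e0 : u 1 * v 2 - u 2 * v 1 = 0 := by
    have := congrArg (fun w : E3 => w 0) h
    simpa [crossE] using this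
  have e1 : u 2 * v 0 - u 0 * v 2 = 0 := by
    have := congrArg (fun w : E3 => w 1) h
    simpa [crossE] using this
  have e2 : u 0 * v 1 - u 1 * v 0 = 0 := by
    have := congrArg (fun w : E3 => w 2) h
    simpa [crossE] using this
  set n : ℝ := u 0 * u 0 + u 1 * u 1 + u 2 * u 2 with hn
  refine ⟨n⁻¹ * (u 0 * v 0 + u 1 * v 1 + u 2 * v 2), ?_⟩
  have key : n • v = (u 0 * v 0 + u 1 * v 1 + u 2 * v 2) • u := by
    apply star_ext
    · simp [hn]; linear_combination u 2 * e1 - u 1 * e2
    · simp [hn]; linear_combination u 0 * e2 - u 2 * e0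
    · simp [hn]; linear_combination u 1 * e0 - u 0 * e1
  rw [mul_smul, ← key, smul_smul, inv_mul_cancel₀ h2, one_smul]

section
variable {Y : Type*} [AddCommGroup Y] [Module ℝ Y] [FiniteDimensional ℝ Y]
  (C A B D : Y →ₗ[ℝ] Kil)

private lemma star_ev_trans (x α : E3) : ev x ((0 : E3), α) = α := by
  rw [ev_apply]
  have : crossE (0 : E3) x = 0 := by
    have := Pool.Agent.H26R.crossE_smul_left 0 0 x
    simpa using this
  simp [this]

lemma star_one (hfree : ∀ T : Kil, ∃ S : Y, C S = T ∧ A S = 0) (x : E3) :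
    finrank ℝ (LinearMap.ker ((ev x).comp (C - A))) + 3 = finrank ℝ Y := by
  have hsurj : Function.Surjective ((ev x).comp (C - A)) := by
    intro α
    obtain ⟨S, hS, hA⟩ := hfree ((0 : E3), α)
    refine ⟨S, ?_⟩
    rw [LinearMap.comp_apply, LinearMap.sub_apply, hS, hA, sub_zero, star_ev_trans]
  have h1 := LinearMap.finrank_range_add_finrank_ker ((ev x).comp (C - A))
  rw [LinearMap.range_eq_top.2 hsurj, finrank_top] at h1
  have h3 : finrank ℝ E3 = 3 := by simp [E3]
  omega

/-- Motions with prescribed velocities at two points. -/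
private lemma star_ev_two {x y α β : E3} (h : x ≠ y) (hab : ⟪α - β, x - y⟫ = 0) :
    ∃ T : Kil, ev x T = α ∧ ev y T = β := by
  obtain ⟨ω, hω⟩ := star_solve_one (sub_ne_zero.2 h) hab
  refine ⟨(ω, β - crossE ω y), ?_, ?_⟩
  · rw [ev_apply]
    have e : x = (x - y) + y := by abel
    have : crossE ω x = (α - β) + crossE ω y := by
      conv_lhs => rw [e]
      rw [Pool.Agent.H26R.crossE_add_right, hω]
    change crossE ω x + (β - crossE ω y) = α
    rw [this]; abel
  · rw [ev_apply]
    change crossE ω y + (β - crossE ω y) = β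
    abel

/-- Motions with prescribed velocities at three points. -/
private lemma star_ev_three {x y z α β γ : E3} (h : crossE (x - y) (y - z) ≠ 0)
    (h1 : ⟪α - β, x - y⟫ = 0) (h2 : ⟪β - γ, y - z⟫ = 0) (h3 : ⟪α - γ, x - z⟫ = 0) :
    ∃ T : Kil, ev x T = α ∧ ev y T = β ∧ ev z T = γ := by
  have hpq : ⟪α - β, y - z⟫ + ⟪β - γ, x - y⟫ = 0 := by
    simp only [inner_E3, PiLp.sub_apply] at h1 h2 h3 ⊢
    linear_combination h3 - h1 - h2
  obtain ⟨ω, hω1, hω2⟩ := star_solve_two h h1 h2 hpq
  refine ⟨(ω, β - crossE ω y), ?_, ?_, ?_⟩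
  · have e : x = (x - y) + y := by abel
    have : crossE ω x = (α - β) + crossE ω y := by
      conv_lhs => rw [e]
      rw [Pool.Agent.H26R.crossE_add_right, hω1]
    change crossE ω x + (β - crossE ω y) = α
    rw [this]; abel
  · change crossE ω y + (β - crossE ω y) = β
    abel
  · have e : y = (y - z) + z := by abel
    have : crossE ω y = (β - γ) + crossE ω z := by
      conv_lhs => rw [e]
      rw [Pool.Agent.H26R.crossE_add_right, hω2]
    change crossE ω z + (β - crossE ω y) = γ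
    rw [this]; abel

/-- Two joints: for suitable positions the six conditions are independent. -/
lemma star_two (hfree : ∀ T : Kil, ∃ S : Y, C S = T ∧ A S = 0 ∧ B S = 0)
    (hAB : ∃ S, A S ≠ B S) :
    ∃ x y : E3, finrank ℝ ↥(LinearMap.ker ((ev x).comp (C - A)) ⊓
      LinearMap.ker ((ev y).comp (C - B))) + 6 ≤ finrank ℝ Y := by
  obtain ⟨S0, hS0⟩ := hAB
  obtain ⟨x, hx⟩ := (ae_ev_ne (sub_ne_zero.2 hS0)).exists
  set w : E3 := ev x (A S0 - B S0) with hw
  refine ⟨x, x - w, ?_⟩
  set y : E3 := x - w with hy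
  have hxy : x ≠ y := by
    intro h
    apply hx
    have : x - y = w := by rw [hy]; abel
    rw [← this, ← h, sub_self]
  have hxyw : x - y = w := by rw [hy]; abel
  rw [← LinearMap.ker_prod]
  set Ψ : Y →ₗ[ℝ] E3 × E3 := ((ev x).comp (C - A)).prod ((ev y).comp (C - B)) with hΨ
  have hΨa : ∀ S, Ψ S = (ev x (C S - A S), ev y (C S - B S)) := fun S => rfl
  have hkey : ∀ S, ⟪(Ψ S).1 - (Ψ S).2, x - y⟫ = -⟪ev x (A S - B S), x - y⟫ := by
    intro S
    rw [hΨa]
    simp only [map_sub, inner_sub_left]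
    rw [ev_along (C S) x y, ev_along (B S) x y]
    ring
  have hsurj : Function.Surjective Ψ := by
    rintro ⟨α, β⟩
    have hne : ⟪(Ψ S0).1 - (Ψ S0).2, x - y⟫ ≠ 0 := by
      rw [hkey S0, ← hw, hxyw, neg_ne_zero]
      intro h
      exact hx (inner_self_eq_zero.1 h)
    set c : ℝ := ⟪α - β, x - y⟫ / ⟪(Ψ S0).1 - (Ψ S0).2, x - y⟫ with hc
    have h0 : ⟪(α - c • (Ψ S0).1) - (β - c • (Ψ S0).2), x - y⟫ = 0 := by
      have e : (α - c • (Ψ S0).1) - (β - c • (Ψ S0).2) =
          (α - β) - c • ((Ψ S0).1 - (Ψ S0).2) := by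
        rw [smul_sub]; abel
      rw [e, inner_sub_left, real_inner_smul_left, hc, div_mul_cancel₀ _ hne, sub_self]
    obtain ⟨T, hT1, hT2⟩ := star_ev_two hxy h0
    obtain ⟨S, hC, hA, hB⟩ := hfree T
    refine ⟨S + c • S0, ?_⟩
    rw [map_add, map_smul]
    have : Ψ S = (ev x T, ev y T) := by
      rw [hΨa, hC, hA, hB, sub_zero]
    rw [this, hT1, hT2]
    ext1
    · change α - c • (Ψ S0).1 + c • (Ψ S0).1 = α
      abel
    · change β - c • (Ψ S0).2 + c • (Ψ S0).2 = β
      abel
  have h1 := LinearMap.finrank_range_add_finrank_ker Ψ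
  rw [LinearMap.range_eq_top.2 hsurj, finrank_top] at h1
  have h3 : finrank ℝ (E3 × E3) = 6 := by simp [E3]
  omega

/-- Three joints: if the nine conditions are never independent, the three bars of the triangle
are dependent on the relative motions of `u`, `v` with respect to `w`. -/
lemma star_three (hfree : ∀ T : Kil, ∃ S : Y, C S = T ∧ A S = 0 ∧ B S = 0 ∧ D S = 0)
    (h : ∀ x y z : E3, finrank ℝ Y ≤ finrank ℝ ↥(LinearMap.ker ((ev x).comp (C - A)) ⊓
      LinearMap.ker ((ev y).comp (C - B)) ⊓ LinearMap.ker ((ev z).comp (C - D))) + 8)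
    (x y z : E3) :
    ∃ l : Fin 3 → ℝ, l ≠ 0 ∧ ∀ S : Y,
      l 0 * ⟪ev x (A S - B S), x - y⟫ + l 1 * ⟪ev y (B S - D S), y - z⟫ +
        l 2 * ⟪ev x (A S - D S), x - z⟫ = 0 := by
  by_cases hn : crossE (x - y) (y - z) = 0
  · by_cases hu : x - y = 0
    · refine ⟨![1, 0, 0], ?_, ?_⟩
      · intro h0
        have := congrFun h0 0
        simp at this
      · intro S
        simp [hu]
    · obtain ⟨μ, hμ⟩ := star_parallel hu hn
      refine ⟨![μ * (1 + μ), 1 + μ, -μ], ?_, ?_⟩
      · intro h0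
        have h1 := congrFun h0 1
        have h2 := congrFun h0 2
        simp at h1 h2
        rw [h2] at h1
        norm_num at h1
      · intro S
        have hxz : x - z = (1 + μ) • (x - y) := by
          rw [add_smul, one_smul, ← hμ]; abel
        rw [hxz, hμ]
        simp only [map_sub, inner_sub_left, real_inner_smul_right]
        rw [← ev_along (B S) x y, ← ev_along (D S) x y]
        simp
        ring
  · set Ψ : Y →ₗ[ℝ] (E3 × E3) × E3 := (((ev x).comp (C - A)).prod ((ev y).comp (C - B))).prod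
      ((ev z).comp (C - D)) with hΨ
    have hΨa : ∀ S, Ψ S = ((ev x (C S - A S), ev y (C S - B S)), ev z (C S - D S)) := fun S => rfl
    set Φ : Y →ₗ[ℝ] (Fin 3 → ℝ) := LinearMap.pi ![
      ((innerₛₗ ℝ (x - y)).comp ((ev x).comp (A - B))),
      ((innerₛₗ ℝ (y - z)).comp ((ev y).comp (B - D))),
      ((innerₛₗ ℝ (x - z)).comp ((ev x).comp (A - D)))] with hΦ
    have hΦ0 : ∀ S, Φ S 0 = ⟪ev x (A S - B S), x - y⟫ := by
      intro S
      simp only [hΦ, LinearMap.pi_apply, Matrix.cons_val_zero]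
      rw [real_inner_comm]; rfl
    have hΦ1 : ∀ S, Φ S 1 = ⟪ev y (B S - D S), y - z⟫ := by
      intro S
      simp only [hΦ, LinearMap.pi_apply, Matrix.cons_val_one]
      rw [real_inner_comm]; rfl
    have hΦ2 : ∀ S, Φ S 2 = ⟪ev x (A S - D S), x - z⟫ := by
      intro S
      simp only [hΦ, LinearMap.pi_apply, Matrix.cons_val]
      rw [real_inner_comm]; rfl
    have hk0 : ∀ S, ⟪(Ψ S).1.1 - (Ψ S).1.2, x - y⟫ = -Φ S 0 := by
      intro S
      rw [hΨa, hΦ0]
      simp only [map_sub, inner_sub_left]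
      rw [ev_along (C S) x y, ev_along (B S) x y]
      ring
    have hk1 : ∀ S, ⟪(Ψ S).1.2 - (Ψ S).2, y - z⟫ = -Φ S 1 := by
      intro S
      rw [hΨa, hΦ1]
      simp only [map_sub, inner_sub_left]
      rw [ev_along (C S) y z, ev_along (D S) y z]
      ring
    have hk2 : ∀ S, ⟪(Ψ S).1.1 - (Ψ S).2, x - z⟫ = -Φ S 2 := by
      intro S
      rw [hΨa, hΦ2]
      simp only [map_sub, inner_sub_left]
      rw [ev_along (C S) x z, ev_along (D S) x z]
      ring
    by_cases hsurj : Function.Surjective Φ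
    · exfalso
      have hs : Function.Surjective Ψ := by
        rintro ⟨⟨α, β⟩, γ⟩
        obtain ⟨S0, hS0⟩ := hsurj ![-⟪α - β, x - y⟫, -⟪β - γ, y - z⟫, -⟪α - γ, x - z⟫]
        have e0 : ⟪(Ψ S0).1.1 - (Ψ S0).1.2, x - y⟫ = ⟪α - β, x - y⟫ := by
          rw [hk0, hS0]; simp
        have e1 : ⟪(Ψ S0).1.2 - (Ψ S0).2, y - z⟫ = ⟪β - γ, y - z⟫ := by
          rw [hk1, hS0]; simp
        have e2 : ⟪(Ψ S0).1.1 - (Ψ S0).2, x - z⟫ = ⟪α - γ, x - z⟫ := by
          rw [hk2, hS0]; simp
        obtain ⟨T, hT1, hT2, hT3⟩ := star_ev_three (α := α - (Ψ S0).1.1) (β := β - (Ψ S0).1.2)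
          (γ := γ - (Ψ S0).2) hn
          (by
            have : (α - (Ψ S0).1.1) - (β - (Ψ S0).1.2) = (α - β) - ((Ψ S0).1.1 - (Ψ S0).1.2) := by
              abel
            rw [this, inner_sub_left, e0, sub_self])
          (by
            have : (β - (Ψ S0).1.2) - (γ - (Ψ S0).2) = (β - γ) - ((Ψ S0).1.2 - (Ψ S0).2) := by
              abel
            rw [this, inner_sub_left, e1, sub_self])
          (by
            have : (α - (Ψ S0).1.1) - (γ - (Ψ S0).2) = (α - γ) - ((Ψ S0).1.1 - (Ψ S0).2) := by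
              abel
            rw [this, inner_sub_left, e2, sub_self])
        obtain ⟨S, hC, hA, hB, hD⟩ := hfree T
        refine ⟨S + S0, ?_⟩
        rw [map_add]
        have : Ψ S = ((ev x T, ev y T), ev z T) := by
          rw [hΨa, hC, hA, hB, hD, sub_zero]
        rw [this, hT1, hT2, hT3]
        apply Prod.ext
        · apply Prod.ext
          · change α - (Ψ S0).1.1 + (Ψ S0).1.1 = α
            abel
          · change β - (Ψ S0).1.2 + (Ψ S0).1.2 = β
            abel
        · change γ - (Ψ S0).2 + (Ψ S0).2 = γ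
          abel
      have h1 := LinearMap.finrank_range_add_finrank_ker Ψ
      rw [LinearMap.range_eq_top.2 hs, finrank_top] at h1
      have h3 : finrank ℝ ((E3 × E3) × E3) = 9 := by simp [E3]
      have h4 := h x y z
      rw [← LinearMap.ker_prod, ← LinearMap.ker_prod] at h4
      change finrank ℝ Y ≤ finrank ℝ (LinearMap.ker Ψ) + 8 at h4
      omega
    · have hlt : LinearMap.range Φ < ⊤ := lt_top_iff_ne_top.2 fun h0 =>
        hsurj (LinearMap.range_eq_top.1 h0)
      obtain ⟨f, hf0, hf⟩ := Submodule.exists_le_ker_of_lt_top _ hlt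
      refine ⟨fun i => f (Pi.single i 1), ?_, ?_⟩
      · intro h0
        apply hf0
        apply LinearMap.pi_ext'
        intro i
        ext
        simpa using congrFun h0 i
      · intro S
        have h5 : f (Φ S) = 0 := by
          have : Φ S ∈ LinearMap.ker f := hf (LinearMap.mem_range_self Φ S)
          exact this
        have h6 : Φ S = Φ S 0 • Pi.single 0 1 + Φ S 1 • Pi.single 1 1 + Φ S 2 • Pi.single 2 1 := by
          ext i
          fin_cases i <;> simp
        rw [h6, map_add, map_add, map_smul, map_smul, map_smul, hΦ0, hΦ1, hΦ2] at h5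
        simp only [smul_eq_mul] at h5
        linarith

end

end Pool.Agent.BJ
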