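import Pool.Agent.Lib.MP_37c7bf_BJ.LemR
import Pool.Agent.Lib.MP_37c7bf_BJ.ClaimT
import Pool.Agent.Lib.MP_37c7bf_BJ.Star

/-!
The rank formula for bodies with ball joints.
-/

open MeasureTheory Module Topology
open scoped RealInnerProductSpace

namespace Pool.Agent.BJ

open Pool.Agent.H26R (E3 crossE)

section
variable {ι J : Type} [Fintype ι] [Fintype J] [DecidableEq J] {a b : J → ι}

lemma val_le_zdim (a b : J → ι) (E : Finset J) (r : Setoid ι) :
    val a b E r ≤ (zdim a b E r : ℤ) := by
  obtain ⟨p, hp⟩ := exists_good a b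
  rw [← hp E r]
  exact val_le a b E r p

lemma U_congr {E : Finset J} {r : Setoid ι} {p q : J → E3} (h : ∀ j ∈ E, p j = q j) (u v : ι) :
    U a b E r p u v = U a b E r q u v := by
  unfold U
  rw [Z_congr h]

variable {E : Finset J} {r : Setoid ι}

/-- The situation of a minimal counterexample. -/
structure Ctx (a b : J → ι) (E : Finset J) (r : Setoid ι) : Prop where
  ih1 : ∀ (E' : Finset J) s, r < s → ∃ t, s ≤ t ∧ (zdim a b E' s : ℤ) ≤ val a b E' t
  ih2 : ∀ E' : Finset J, E'.card < E.card → ∃ s, r ≤ s ∧ (zdim a b E' r : ℤ) ≤ val a b E' s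
  hlt : ∀ s, r ≤ s → val a b E s < (zdim a b E r : ℤ)

lemma Ctx.h1 (h : Ctx a b E r) {s : Setoid ι} (hs : r < s) : zdim a b E s < zdim a b E r := by
  obtain ⟨t, ht, hle⟩ := h.ih1 E s hs
  have := h.hlt t (hs.le.trans ht)
  omega

lemma Ctx.not_welded (h : Ctx a b E r) {E' : Finset J} (hE : E' ⊆ E) {p : J → E3}
    (hp : Good a b p) {s : Setoid ι} (hs : r < s) : Z a b E' s p ≠ Z a b E' r p := by
  intro heq
  have h2 : Z a b E s p = Z a b E r p := by
    apply le_antisymm
    · exact Z_mono (Finset.Subset.refl E) hs.le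
    · intro S hS
      have hS' : S ∈ Z a b E' s p := by
        rw [heq]
        exact Z_mono hE le_rfl hS
      exact ⟨(mem_Z.1 hS').1, (mem_Z.1 hS).2⟩
  have h3 := h.h1 hs
  rw [← hp E s, ← hp E r, h2] at h3
  exact lt_irrefl _ h3

lemma Ctx.not_welded' (h : Ctx a b E r) {E' : Finset J} (hE : E' ⊆ E) {p : J → E3}
    (hp : Good a b p) {u v : ι} (huv : ¬ r u v) : ∃ S ∈ Z a b E' r p, S u ≠ S v := by
  by_contra hcon
  push Not at hcon
  apply h.not_welded hE hp (lt_weld huv)
  apply le_antisymm (Z_mono (Finset.Subset.refl _) (le_weld r u v))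
  intro S hS
  rw [mem_Z_weld]
  exact ⟨hS, hcon S hS⟩

lemma Ctx.h2 (h : Ctx a b E r) {E' : Finset J} (hE : E' ⊆ E) (hc : E'.card < E.card) :
    (zdim a b E' r : ℤ) = val a b E' r := by
  obtain ⟨s, hs, hle⟩ := h.ih2 E' hc
  rcases eq_or_lt_of_le hs with rfl | hlt
  · exact le_antisymm hle (val_le_zdim a b E' r)
  · exfalso
    obtain ⟨p, hp⟩ := exists_good a b
    have h3 : zdim a b E' s = zdim a b E' r := by
      apply le_antisymm (zdim_mono (Finset.Subset.refl _) hs)
      have := val_le_zdim a b E' s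
      omega
    exact h.not_welded hE hp hlt (Good.Z_eq (Finset.Subset.refl _) hs h3 hp)

lemma Ctx.no_loop (h : Ctx a b E r) {j : J} (hj : j ∈ E) : ¬ r (a j) (b j) := by
  intro hloop
  have h1 := val_erase_loop hj hloop
  have h2 := h.h2 (Finset.erase_subset j E) (Finset.card_erase_lt_of_mem hj)
  have h3 := h.hlt r le_rfl
  have h4 : zdim a b E r ≤ zdim a b (E.erase j) r := zdim_mono (Finset.erase_subset j E) le_rfl
  omega

lemma hh_inc (d : ℕ) (h : 3 ≤ hh (d + 1) - hh d) : d = 0 := by
  unfold hh at h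
  split_ifs at h <;> omega

lemma hh_step : hh (0 + 1) - hh 0 = 3 := by norm_num [hh]

lemma Ctx.h4 (h : Ctx a b E r) {j : J} (hj : j ∈ E) :
    dd a b (E.erase j) r (pr a b r j) = 0 ∧ (zdim a b E r : ℤ) = val a b E r + 1 := by
  obtain ⟨p, hp⟩ := exists_good a b
  set E' := E.erase j with hE'
  have hins : insert j E' = E := Finset.insert_erase hj
  set W := U a b E' r p (a j) (b j) with hW
  -- a good position for the joint `j`
  have hev : ∀ᵐ x : E3 ∂volume, Good a b (Function.update p j x) ∧
      (finrank ℝ W ≤ 2 → W ⊓ LinearMap.ker (ev x) = ⊥) ∧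
      (finrank ℝ W = 3 → finrank ℝ ↥(W ⊓ LinearMap.ker (ev x)) ≤ 1) ∧
      (4 ≤ finrank ℝ W → finrank ℝ ↥(W ⊓ LinearMap.ker (ev x)) + 3 = finrank ℝ W) := by
    have h1 := Good.stable a b p hp j
    have h2 : ∀ᵐ x : E3 ∂volume, (finrank ℝ W ≤ 2 → W ⊓ LinearMap.ker (ev x) = ⊥) := by
      by_cases hc : finrank ℝ W ≤ 2
      · filter_upwards [eval_two W hc] with x hx _ using hx
      · exact Filter.Eventually.of_forall fun x hx => absurd hx hc
    have h3 : ∀ᵐ x : E3 ∂volume,
        (finrank ℝ W = 3 → finrank ℝ ↥(W ⊓ LinearMap.ker (ev x)) ≤ 1) := by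
      by_cases hc : finrank ℝ W = 3
      · filter_upwards [eval_three W hc] with x hx _ using hx
      · exact Filter.Eventually.of_forall fun x hx => absurd hx hc
    have h4 : ∀ᵐ x : E3 ∂volume,
        (4 ≤ finrank ℝ W → finrank ℝ ↥(W ⊓ LinearMap.ker (ev x)) + 3 = finrank ℝ W) := by
      by_cases hc : 4 ≤ finrank ℝ W
      · filter_upwards [eval_four W hc] with x hx _ using hx
      · exact Filter.Eventually.of_forall fun x hx => absurd hx hc
    filter_upwards [h1, h2, h3, h4] with x hx1 hx2 hx3 hx4
    exact ⟨hx1, hx2, hx3, hx4⟩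
  obtain ⟨x, hx1, hx2, hx3, hx4⟩ := hev.exists
  set q := Function.update p j x with hq
  have hqE : ∀ k ∈ E', p k = q k := by
    intro k hk
    rw [hq, Function.update_of_ne (Finset.ne_of_mem_erase hk)]
  have hqj : q j = x := by rw [hq, Function.update_self]
  have hWq : U a b E' r q (a j) (b j) = W := (U_congr hqE _ _).symm
  obtain ⟨hf, hw⟩ := finrank_Z_insert (a := a) (b := b) (E := E') (r := r) (p := q) j
  rw [hins] at hf hw
  rw [hWq, hqj] at hf
  have hg : finrank ℝ (Z a b E' r q) = finrank ℝ W +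
      finrank ℝ (Z a b E' (weld r (a j) (b j)) q) := by
    rw [finrank_Z_eq (a j) (b j), hWq]
  rw [← hw] at hg
  rw [hx1, hx1] at hf hg
  have hlt := h.h1 (lt_weld (h.no_loop hj))
  have hz' := h.h2 (Finset.erase_subset j E) (Finset.card_erase_lt_of_mem hj)
  have hval := val_erase hj (h.no_loop hj)
  have hgt := h.hlt r le_rfl
  rw [← hE'] at hz' hval
  -- cases
  have hcase : finrank ℝ ↥(W ⊓ LinearMap.ker (ev x)) + 2 ≤ finrank ℝ W := by
    rcases Nat.lt_or_ge (finrank ℝ W) 3 with hc | hc
    · exfalso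
      rw [hx2 (by omega), finrank_bot] at hf
      omega
    · rcases Nat.eq_or_lt_of_le hc with hc | hc
      · have := hx3 hc.symm
        omega
      · have := hx4 hc
        omega
  have h3 : 3 ≤ hh (dd a b E' r (pr a b r j) + 1) - hh (dd a b E' r (pr a b r j)) := by
    omega
  have hd := hh_inc _ h3
  refine ⟨hd, ?_⟩
  rw [hd, hh_step] at hval
  omega

lemma Ctx.simple (h : Ctx a b E r) : Simple a b E r := by
  refine ⟨fun j hj => h.no_loop hj, ?_⟩
  intro j hj k hk hjk
  by_contra hne
  have h0 := (h.h4 hj).1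
  unfold dd at h0
  classical
  rw [Finset.card_eq_zero, Finset.filter_eq_empty_iff] at h0
  exact h0 (Finset.mem_erase.2 ⟨fun h => hne h.symm, hk⟩) hjk.symm

lemma Simple.mono {E' : Finset J} (h : Simple a b E r) (hE : E' ⊆ E) : Simple a b E' r :=
  ⟨fun j hj => h.1 j (hE hj), fun j hj k hk => h.2 j (hE hj) k (hE hk)⟩

lemma Ctx.nonempty (h : Ctx a b E r) : E.Nonempty := by
  rw [Finset.nonempty_iff_ne_empty]
  rintro rfl
  obtain ⟨p, hp⟩ := exists_good a b
  have h1 := h.hlt r le_rfl
  rw [← hp ∅ r, finrank_Z_empty, val_empty] at h1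
  push_cast at h1
  exact lt_irrefl _ h1

/-! ### The body of low degree -/

open Classical in
/-- The end of the joint `j` different from the class of `c`. -/
noncomputable def oth (a b : J → ι) (r : Setoid ι) (c : ι) (j : J) : ι :=
  if r c (a j) then b j else a j

lemma mem_star {c : ι} {j : J} : j ∈ star a b E r c ↔ j ∈ E ∧ (r c (a j) ∨ r c (b j)) := by
  classical
  unfold star
  rw [Finset.mem_filter]

/-- The joint condition at a joint of the class of `c`. -/
lemma joint_iff {c : ι} {j : J} (hj : r c (a j) ∨ r c (b j)) {S : ι → Kil}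
    (hS : ∀ u v, r u v → S u = S v) (x : E3) :
    ev x (S (a j)) = ev x (S (b j)) ↔ ev x (S c - S (oth a b r c j)) = 0 := by
  classical
  unfold oth
  rw [map_sub, sub_eq_zero]
  split_ifs with h
  · rw [hS _ _ h]
  · have h' : r c (b j) := hj.resolve_left h
    rw [hS _ _ h']
    exact eq_comm

lemma oth_not_rel {c : ι} {j : J} (hj : r c (a j) ∨ r c (b j)) (hl : ¬ r (a j) (b j)) :
    ¬ r c (oth a b r c j) := by
  classical
  unfold oth
  split_ifs with h
  · intro h2
    exact hl (r.trans' (r.symm' h) h2)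
  · exact h

lemma pr_eq {c : ι} {j : J} (hj : r c (a j) ∨ r c (b j)) :
    pr a b r j = s(Quotient.mk r c, Quotient.mk r (oth a b r c j)) := by
  classical
  unfold pr oth
  split_ifs with h
  · rw [Quotient.sound (r.symm' h)]
  · have h' : r c (b j) := hj.resolve_left h
    rw [Quotient.sound (s := r) (r.symm' h'), Sym2.eq_swap]

/-- In a simple structure the other ends are in different classes. -/
lemma oth_ne (hs : Simple a b E r) {c : ι} {j k : J} (hj : j ∈ star a b E r c)
    (hk : k ∈ star a b E r c) (hne : j ≠ k) : ¬ r (oth a b r c j) (oth a b r c k) := by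
  intro h
  apply hne
  rw [mem_star] at hj hk
  apply hs.2 j hj.1 k hk.1
  rw [pr_eq hj.2, pr_eq hk.2, Quotient.sound (s := r) h]

/-- Motions of the whole structure in terms of motions of the structure without the star. -/
lemma mem_Z_star {c : ι} {p q : J → E3} (hpq : ∀ j ∈ E \ star a b E r c, p j = q j)
    {S : ι → Kil} : S ∈ Z a b E r q ↔ S ∈ Z a b (E \ star a b E r c) r p ∧
      ∀ j ∈ star a b E r c, ev (q j) (S c - S (oth a b r c j)) = 0 := by
  rw [mem_Z, mem_Z]
  constructor
  · rintro ⟨h1, h2⟩
    refine ⟨⟨h1, fun j hj => ?_⟩, fun j hj => ?_⟩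
    · rw [hpq j hj]
      exact h2 j (Finset.mem_sdiff.1 hj).1
    · rw [mem_star] at hj
      exact (joint_iff hj.2 h1 _).1 (h2 j hj.1)
  · rintro ⟨⟨h1, h2⟩, h3⟩
    refine ⟨h1, fun j hj => ?_⟩
    by_cases hjs : j ∈ star a b E r c
    · exact (joint_iff (mem_star.1 hjs).2 h1 _).2 (h3 j hjs)
    · have hj' : j ∈ E \ star a b E r c := Finset.mem_sdiff.2 ⟨hj, hjs⟩
      rw [← hpq j hj']
      exact h2 j hj'

open Classical in
/-- The body `c` can move freely if its joints are removed. -/
lemma free (a b : J → ι) (E : Finset J) (r : Setoid ι) (c : ι) (p : J → E3) (T : Kil) :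
    (fun x => if r c x then T else 0) ∈ Z a b (E \ star a b E r c) r p := by
  rw [mem_Z]
  constructor
  · intro u v huv
    have : r c u ↔ r c v := ⟨fun h => r.trans' h huv, fun h => r.trans' h (r.symm' huv)⟩
    simp only [this]
  · intro j hj
    rw [Finset.mem_sdiff, mem_star] at hj
    have h1 : ¬ r c (a j) := fun h => hj.2 ⟨hj.1, Or.inl h⟩
    have h2 : ¬ r c (b j) := fun h => hj.2 ⟨hj.1, Or.inr h⟩
    simp only [if_neg h1, if_neg h2]

lemma finrank_eq_of_mem_iff {M : Type*} [AddCommGroup M] [Module ℝ M] {Y N : Submodule ℝ M}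
    {K : Submodule ℝ Y} (h : ∀ S, S ∈ N ↔ ∃ hS : S ∈ Y, (⟨S, hS⟩ : Y) ∈ K) :
    finrank ℝ N = finrank ℝ K := by
  have : K.map Y.subtype = N := by
    ext S
    rw [h S]
    constructor
    · rintro ⟨T, hT, rfl⟩
      exact ⟨T.2, hT⟩
    · rintro ⟨hS, hK⟩
      exact ⟨⟨S, hS⟩, hK, rfl⟩
  rw [← this, Submodule.finrank_map_subtype_eq]

/-- The motion of the body `u`, on the space of motions. -/
noncomputable def at' (Y : Submodule ℝ (ι → Kil)) (u : ι) : Y →ₗ[ℝ] Kil :=
  (LinearMap.proj (R := ℝ) (φ := fun _ : ι => Kil) u).comp Y.subtype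

@[simp] lemma at'_apply (Y : Submodule ℝ (ι → Kil)) (u : ι) (S : Y) : at' Y u S = S.1 u := rfl

lemma Ctx.one (h : Ctx a b E r) {c : ι} {j : J} (hst : star a b E r c = {j}) : False := by
  classical
  obtain ⟨p, hp⟩ := exists_good a b
  set H := E \ star a b E r c with hH
  set Y := Z a b H r p with hY
  have hjs : j ∈ star a b E r c := by rw [hst]; exact Finset.mem_singleton_self j
  have hj := mem_star.1 hjs
  have hcj := oth_not_rel hj.2 (h.no_loop hj.1)
  have h1 := star_one (at' Y c) (at' Y (oth a b r c j)) (by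
    intro T
    refine ⟨⟨_, free a b E r c p T⟩, ?_, ?_⟩
    · change (if r c c then T else 0) = T
      rw [if_pos (r.refl' c)]
    · change (if r c (oth a b r c j) then T else 0) = 0
      rw [if_neg hcj]) (p j)
  have h2 : finrank ℝ (Z a b E r p) = finrank ℝ (LinearMap.ker ((ev (p j)).comp
      (at' Y c - at' Y (oth a b r c j)))) := by
    apply finrank_eq_of_mem_iff
    intro S
    rw [mem_Z_star (c := c) (p := p) (q := p) (fun _ _ => rfl), hst]
    constructor
    · rintro ⟨hS, hS2⟩
      refine ⟨by rw [hY, hH, hst]; exact hS, ?_⟩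
      exact hS2 j (Finset.mem_singleton_self j)
    · rintro ⟨hS, hS2⟩
      refine ⟨by rw [hY, hH, hst] at hS; exact hS, ?_⟩
      intro k hk
      rw [Finset.mem_singleton.1 hk]
      exact hS2
  have hcard : H.card + 1 = E.card := by
    rw [hH, hst, Finset.card_sdiff_of_subset (Finset.singleton_subset_iff.2 hj.1),
      Finset.card_singleton]
    have := Finset.card_pos.2 ⟨j, hj.1⟩
    omega
  have h3 := h.h2 (E' := H) Finset.sdiff_subset (by omega)
  have h4 := (h.h4 hj.1).2
  have h5 := val_simple h.simple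
  have h6 := val_simple (h.simple.mono (E' := H) Finset.sdiff_subset)
  rw [← h2, hp E r, hY, hp H r] at h1
  have h7 : (E.card : ℤ) = H.card + 1 := by omega
  omega

lemma card_sdiff_star {c : ι} {k : ℕ} (hk : (star a b E r c).card = k) :
    (E \ star a b E r c).card + k = E.card := by
  classical
  have hsub : star a b E r c ⊆ E := fun j hj => (mem_star.1 hj).1
  rw [← hk, Finset.card_sdiff_of_subset hsub]
  have := Finset.card_le_card hsub
  omega

lemma Ctx.two (h : Ctx a b E r) {c : ι} {j k : J} (hjk : j ≠ k)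
    (hst : star a b E r c = {j, k}) : False := by
  classical
  obtain ⟨p, hp⟩ := exists_good a b
  set H := E \ star a b E r c with hH
  set Y := Z a b H r p with hY
  have hjs : j ∈ star a b E r c := by rw [hst]; simp
  have hks : k ∈ star a b E r c := by rw [hst]; simp
  have hj := mem_star.1 hjs
  have hk := mem_star.1 hks
  have hcj := oth_not_rel hj.2 (h.no_loop hj.1)
  have hck := oth_not_rel hk.2 (h.no_loop hk.1)
  obtain ⟨S0, hS0, hne⟩ := h.not_welded' (E' := H) Finset.sdiff_subset hp
    (oth_ne h.simple hjs hks hjk)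
  obtain ⟨x, y, h1⟩ := star_two (at' Y c) (at' Y (oth a b r c j)) (at' Y (oth a b r c k)) (by
    intro T
    refine ⟨⟨_, free a b E r c p T⟩, ?_, ?_, ?_⟩
    · change (if r c c then T else 0) = T
      rw [if_pos (r.refl' c)]
    · change (if r c (oth a b r c j) then T else 0) = 0
      rw [if_neg hcj]
    · change (if r c (oth a b r c k) then T else 0) = 0
      rw [if_neg hck]) ⟨⟨S0, hS0⟩, hne⟩
  set q := Function.update (Function.update p j x) k y with hq
  have hqk : q k = y := by rw [hq, Function.update_self]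
  have hqj : q j = x := by
    rw [hq, Function.update_of_ne hjk, Function.update_self]
  have hqH : ∀ l ∈ E \ star a b E r c, p l = q l := by
    intro l hl
    rw [Finset.mem_sdiff, hst] at hl
    have hlj : l ≠ j := fun h => hl.2 (by rw [h]; simp)
    have hlk : l ≠ k := fun h => hl.2 (by rw [h]; simp)
    rw [hq, Function.update_of_ne hlk, Function.update_of_ne hlj]
  have h2 : finrank ℝ (Z a b E r q) = finrank ℝ ↥(LinearMap.ker ((ev x).comp
      (at' Y c - at' Y (oth a b r c j))) ⊓ LinearMap.ker ((ev y).comp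
      (at' Y c - at' Y (oth a b r c k)))) := by
    apply finrank_eq_of_mem_iff
    intro S
    rw [mem_Z_star hqH]
    constructor
    · rintro ⟨hS, hS2⟩
      refine ⟨hS, ?_, ?_⟩
      · have := hS2 j hjs
        rw [hqj] at this
        exact this
      · have := hS2 k hks
        rw [hqk] at this
        exact this
    · rintro ⟨hS, hS2, hS3⟩
      refine ⟨hS, ?_⟩
      intro l hl
      rw [hst] at hl
      rcases Finset.mem_insert.1 hl with rfl | hl
      · rw [hqj]; exact hS2
      · rw [Finset.mem_singleton.1 hl, hqk]; exact hS3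
  have hcard := card_sdiff_star (a := a) (b := b) (E := E) (r := r) (c := c) (k := 2)
    (by rw [hst, Finset.card_pair hjk])
  rw [← hH] at hcard
  have h3 := h.h2 (E' := H) Finset.sdiff_subset (by omega)
  have h4 := (h.h4 hj.1).2
  have h5 := val_simple h.simple
  have h6 := val_simple (h.simple.mono (E' := H) Finset.sdiff_subset)
  have h8 := zdim_le a b E r q
  rw [h2] at h8
  have h9 : finrank ℝ Y = zdim a b H r := by rw [hY, hp H r]
  rw [h9] at h1
  omega

/-- Welding the class of `c` and the three bodies at its joints. -/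
lemma Ctx.three_dim (h : Ctx a b E r) {c : ι} {j k l : J} (hjk : j ≠ k) (hjl : j ≠ l)
    (hkl : k ≠ l) (hst : star a b E r c = {j, k, l}) {p : J → E3} (hp : Good a b p) :
    (zdim a b (E \ star a b E r c) (weld (weld r (oth a b r c j) (oth a b r c l))
      (oth a b r c k) (oth a b r c l)) : ℤ) + 3 ≤ zdim a b (E \ star a b E r c) r := by
  classical
  set H := E \ star a b E r c with hH
  set u := oth a b r c j with hu
  set v := oth a b r c k with hv
  set w := oth a b r c l with hw
  set t := weld (weld r u w) v w with ht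
  have hjs : j ∈ star a b E r c := by rw [hst]; simp
  have hks : k ∈ star a b E r c := by rw [hst]; simp
  have hls : l ∈ star a b E r c := by rw [hst]; simp
  have hj := mem_star.1 hjs
  have hk := mem_star.1 hks
  have hl := mem_star.1 hls
  have huw : ¬ r u w := oth_ne h.simple hjs hls hjl
  have hrt : r < t := lt_of_lt_of_le (lt_weld huw) (le_weld _ _ _)
  have h1 := h.h1 hrt
  have hcard := card_sdiff_star (a := a) (b := b) (E := E) (r := r) (c := c) (k := 3)
    (by rw [hst, Finset.card_eq_three]; exact ⟨j, k, l, hjk, hjl, hkl, rfl⟩)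
  rw [← hH] at hcard
  have h3 := h.h2 (E' := H) Finset.sdiff_subset (by omega)
  have h4 := (h.h4 hj.1).2
  have h5 := val_simple h.simple
  have h6 := val_simple (h.simple.mono (E' := H) Finset.sdiff_subset)
  -- `zdim H t ≤ zdim E t + 6`
  have h7 : zdim a b H t ≤ zdim a b E t + 6 := by
    rw [← hp H t, ← hp E t]
    let f : Z a b H t p →ₗ[ℝ] Kil := at' _ c - at' _ u
    have hk1 : finrank ℝ (LinearMap.ker f) ≤ finrank ℝ (Z a b E t p) := by
      have hmap : ∀ S : LinearMap.ker f, (S.1.1 : ι → Kil) ∈ Z a b E t p := by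
        rintro ⟨⟨S, hS⟩, hS2⟩
        have hcu : S c = S u := by
          have : S c - S u = 0 := hS2
          rwa [sub_eq_zero] at this
        have htt := (mem_Z.1 hS).1
        have huw' : S u = S w := htt _ _ (le_weld _ _ _ (weld_rel r u w))
        have hvw' : S v = S w := htt _ _ (weld_rel _ v w)
        have hr : ∀ x y, r x y → S x = S y := fun x y hxy =>
          htt _ _ (le_weld _ _ _ (le_weld _ _ _ hxy))
        refine ⟨htt, fun m hm => ?_⟩
        by_cases hms : m ∈ star a b E r c
        · rw [joint_iff (mem_star.1 hms).2 hr]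
          have : S c - S (oth a b r c m) = 0 := by
            rw [sub_eq_zero]
            rw [hst] at hms
            rcases Finset.mem_insert.1 hms with rfl | hms
            · exact hcu
            · rcases Finset.mem_insert.1 hms with rfl | hms
              · rw [← hv, hvw', ← huw']; exact hcu
              · rw [Finset.mem_singleton.1 hms, ← hw, ← huw']; exact hcu
          rw [this, map_zero]
        · exact (mem_Z.1 hS).2 m (Finset.mem_sdiff.2 ⟨hm, hms⟩)
      let g : LinearMap.ker f →ₗ[ℝ] Z a b E t p :=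
        { toFun := fun S => ⟨S.1.1, hmap S⟩
          map_add' := fun _ _ => rfl
          map_smul' := fun _ _ => rfl }
      apply LinearMap.finrank_le_finrank_of_injective (f := g)
      intro S T hST
      apply Subtype.ext
      apply Subtype.ext
      exact congrArg (fun Q : Z a b E t p => Q.1) hST
    have hk2 := LinearMap.finrank_range_add_finrank_ker f
    have hk3 : finrank ℝ (LinearMap.range f) ≤ 6 := by
      refine (Submodule.finrank_le _).trans ?_
      simp [Kil]
    omega
  omega

lemma Ctx.three_rel (h : Ctx a b E r) {c : ι} {j k l : J} (hjk : j ≠ k) (hjl : j ≠ l)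
    (hkl : k ≠ l) (hst : star a b E r c = {j, k, l}) {p : J → E3} (hp : Good a b p) :
    ∃ cc : ℝ, cc ≠ 0 ∧ cc ≠ 1 ∧ (∀ S ∈ Z a b (E \ star a b E r c) r p,
      S (oth a b r c j) - S (oth a b r c l) = cc • (S (oth a b r c k) - S (oth a b r c l))) ∧
      3 ≤ finrank ℝ (U a b (E \ star a b E r c) r p (oth a b r c k) (oth a b r c l)) := by
  classical
  set H := E \ star a b E r c with hH
  set u := oth a b r c j with hu
  set v := oth a b r c k with hv
  set w := oth a b r c l with hw
  set Y := Z a b H r p with hY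
  have hjs : j ∈ star a b E r c := by rw [hst]; simp
  have hks : k ∈ star a b E r c := by rw [hst]; simp
  have hls : l ∈ star a b E r c := by rw [hst]; simp
  have hj := mem_star.1 hjs
  have hk := mem_star.1 hks
  have hl := mem_star.1 hls
  have hcu : ¬ r c u := oth_not_rel hj.2 (h.no_loop hj.1)
  have hcv : ¬ r c v := oth_not_rel hk.2 (h.no_loop hk.1)
  have hcw : ¬ r c w := oth_not_rel hl.2 (h.no_loop hl.1)
  have hcard := card_sdiff_star (a := a) (b := b) (E := E) (r := r) (c := c) (k := 3)
    (by rw [hst, Finset.card_eq_three]; exact ⟨j, k, l, hjk, hjl, hkl, rfl⟩)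
  rw [← hH] at hcard
  have h3 := h.h2 (E' := H) Finset.sdiff_subset (by omega)
  have h4 := (h.h4 hj.1).2
  have h5 := val_simple h.simple
  have h6 := val_simple (h.simple.mono (E' := H) Finset.sdiff_subset)
  have h9 : finrank ℝ Y = zdim a b H r := by rw [hY, hp H r]
  have hstar := star_three (at' Y c) (at' Y u) (at' Y v) (at' Y w) (by
    intro T
    refine ⟨⟨_, free a b E r c p T⟩, ?_, ?_, ?_, ?_⟩
    · change (if r c c then T else 0) = T
      rw [if_pos (r.refl' c)]
    · change (if r c u then T else 0) = 0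
      rw [if_neg hcu]
    · change (if r c v then T else 0) = 0
      rw [if_neg hcv]
    · change (if r c w then T else 0) = 0
      rw [if_neg hcw]) (by
    intro x y z
    set q := Function.update (Function.update (Function.update p j x) k y) l z with hq
    have hql : q l = z := by rw [hq, Function.update_self]
    have hqk : q k = y := by
      rw [hq, Function.update_of_ne hkl, Function.update_self]
    have hqj : q j = x := by
      rw [hq, Function.update_of_ne hjl, Function.update_of_ne hjk, Function.update_self]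
    have hqH : ∀ m ∈ E \ star a b E r c, p m = q m := by
      intro m hm
      rw [Finset.mem_sdiff, hst] at hm
      have hmj : m ≠ j := fun h => hm.2 (by rw [h]; simp)
      have hmk : m ≠ k := fun h => hm.2 (by rw [h]; simp)
      have hml : m ≠ l := fun h => hm.2 (by rw [h]; simp)
      rw [hq, Function.update_of_ne hml, Function.update_of_ne hmk, Function.update_of_ne hmj]
    have h2 : finrank ℝ (Z a b E r q) = finrank ℝ ↥(LinearMap.ker ((ev x).comp
        (at' Y c - at' Y u)) ⊓ LinearMap.ker ((ev y).comp (at' Y c - at' Y v)) ⊓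
        LinearMap.ker ((ev z).comp (at' Y c - at' Y w))) := by
      apply finrank_eq_of_mem_iff
      intro S
      rw [mem_Z_star hqH]
      constructor
      · rintro ⟨hS, hS2⟩
        refine ⟨hS, ⟨?_, ?_⟩, ?_⟩
        · have := hS2 j hjs
          rw [hqj] at this
          exact this
        · have := hS2 k hks
          rw [hqk] at this
          exact this
        · have := hS2 l hls
          rw [hql] at this
          exact this
      · rintro ⟨hS, ⟨hS2, hS3⟩, hS4⟩
        refine ⟨hS, ?_⟩
        intro m hm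
        rw [hst] at hm
        rcases Finset.mem_insert.1 hm with rfl | hm
        · rw [hqj]; exact hS2
        · rcases Finset.mem_insert.1 hm with rfl | hm
          · rw [hqk]; exact hS3
          · rw [Finset.mem_singleton.1 hm, hql]; exact hS4
    have h8 := zdim_le a b E r q
    rw [h2] at h8
    rw [h9]
    omega)
  -- the space of relative motions
  let g : Y →ₗ[ℝ] Kil × Kil := (at' Y u - at' Y w).prod (at' Y v - at' Y w)
  set W := LinearMap.range g with hWdef
  have hW3 : 3 ≤ finrank ℝ W := by
    have hdim := h.three_dim hjk hjl hkl hst hp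
    rw [← hH, ← hu, ← hv, ← hw, ← hp H r, ← hp H (weld (weld r u w) v w)] at hdim
    have hk2 := LinearMap.finrank_range_add_finrank_ker g
    have hk3 : finrank ℝ (Z a b H (weld (weld r u w) v w) p) = finrank ℝ (LinearMap.ker g) := by
      apply finrank_eq_of_mem_iff
      intro S
      rw [mem_Z_weld, mem_Z_weld]
      constructor
      · rintro ⟨⟨hS, h1⟩, h2⟩
        refine ⟨hS, ?_⟩
        change (S u - S w, S v - S w) = 0
        rw [h1, h2, sub_self]
        rfl
      · rintro ⟨hS, h1⟩
        have h1' : (S u - S w, S v - S w) = 0 := h1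
        rw [Prod.mk_eq_zero, sub_eq_zero, sub_eq_zero] at h1'
        exact ⟨⟨hS, h1'.1⟩, h1'.2⟩
    rw [← hY, hk3] at hdim
    rw [hWdef]
    omega
  obtain ⟨S1, hS1, hne1⟩ := h.not_welded' (E' := H) Finset.sdiff_subset hp
    (oth_ne h.simple hjs hls hjl)
  obtain ⟨S2, hS2, hne2⟩ := h.not_welded' (E' := H) Finset.sdiff_subset hp
    (oth_ne h.simple hks hls hkl)
  obtain ⟨S3, hS3, hne3⟩ := h.not_welded' (E' := H) Finset.sdiff_subset hp
    (oth_ne h.simple hjs hks hjk)
  obtain ⟨cc, hcc0, hcc1, hcc⟩ := claimT W hW3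
    ⟨_, ⟨⟨S1, hS1⟩, rfl⟩, fun h => hne1 (sub_eq_zero.1 h)⟩
    ⟨_, ⟨⟨S2, hS2⟩, rfl⟩, fun h => hne2 (sub_eq_zero.1 h)⟩
    ⟨_, ⟨⟨S3, hS3⟩, rfl⟩, fun h => hne3 (sub_left_injective h)⟩
    (by
      intro x y z
      obtain ⟨lam, hlam, hl2⟩ := hstar x y z
      refine ⟨lam, hlam, ?_⟩
      rintro _ ⟨S, rfl⟩
      have := hl2 S
      have e1 : (g S).1 - (g S).2 = at' Y u S - at' Y v S := by
        change (at' Y u S - at' Y w S) - (at' Y v S - at' Y w S) = _
        abel
      rw [e1]
      exact this)
  refine ⟨cc, hcc0, hcc1, ?_, ?_⟩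
  · intro S hS
    exact hcc (g ⟨S, hS⟩) ⟨⟨S, hS⟩, rfl⟩
  · -- `W` projects injectively to its second component
    have hmap : ∀ T : W, T.1.2 ∈ U a b H r p v w := by
      rintro ⟨_, ⟨S, rfl⟩⟩
      rw [mem_U]
      exact ⟨S.1, S.2, rfl⟩
    let f : W →ₗ[ℝ] U a b H r p v w :=
      { toFun := fun T => ⟨T.1.2, hmap T⟩
        map_add' := fun _ _ => rfl
        map_smul' := fun _ _ => rfl }
    refine hW3.trans ?_
    apply LinearMap.finrank_le_finrank_of_injective (f := f)
    rw [← LinearMap.ker_eq_bot, LinearMap.ker_eq_bot']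
    rintro ⟨T, hT⟩ h0
    have h2 : T.2 = 0 := congrArg (fun Q : U a b H r p v w => Q.1) h0
    have h1 := hcc T hT
    rw [h2, smul_zero] at h1
    apply Subtype.ext
    exact Prod.ext h1 h2

lemma Ctx.three (h : Ctx a b E r) {c : ι} {j k l : J} (hjk : j ≠ k) (hjl : j ≠ l)
    (hkl : k ≠ l) (hst : star a b E r c = {j, k, l}) : False := by
  classical
  obtain ⟨p0, hp0⟩ := exists_good a b
  choose! cc hc0 hc1 hrel hU using fun p (hp : Good a b p) => h.three_rel hjk hjl hkl hst hp
  have hks : k ∈ star a b E r c := by rw [hst]; simp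
  have hls : l ∈ star a b E r c := by rw [hst]; simp
  have hconst : ∀ p, Good a b p → cc p = cc p0 := fun p hp =>
    relation_const a b (E \ star a b E r c) r _ _ _ hU cc hrel hp hp0
  have hcard := card_sdiff_star (a := a) (b := b) (E := E) (r := r) (c := c) (k := 3)
    (by rw [hst, Finset.card_eq_three]; exact ⟨j, k, l, hjk, hjl, hkl, rfl⟩)
  have hfin := lemR a b (hc0 p0 hp0) (hc1 p0 hp0) (E \ star a b E r c) r (by
    intro E' hE' r' hr'
    rcases eq_or_lt_of_le hr' with rfl | hlt
    · have := Finset.card_le_card hE'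
      exact h.ih2 E' (by omega)
    · exact h.ih1 E' r' hlt) _ _ _ (by
    intro p hp S hS
    rw [← hconst p hp]
    exact hrel p hp S hS)
  obtain ⟨S2, hS2, hne2⟩ := h.not_welded' (E' := E \ star a b E r c) Finset.sdiff_subset hp0
    (oth_ne h.simple hks hls hkl)
  exact hne2 (hfin p0 hp0 S2 hS2)

lemma Ctx.false (h : Ctx a b E r) : False := by
  classical
  obtain ⟨j0, hj0⟩ := h.nonempty
  have h4 := (h.h4 hj0).2
  obtain ⟨c, hne, hc⟩ := exists_low_degree h.simple h.nonempty (by
    intro s hs
    have := h.hlt s hs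
    omega)
  have hpos := Finset.card_pos.2 hne
  have hcases : (star a b E r c).card = 1 ∨ (star a b E r c).card = 2 ∨
      (star a b E r c).card = 3 := by omega
  rcases hcases with h1 | h2 | h3
  · obtain ⟨j, hj⟩ := Finset.card_eq_one.1 h1
    exact h.one hj
  · obtain ⟨j, k, hjk, hst⟩ := Finset.card_eq_two.1 h2
    exact h.two hjk hst
  · obtain ⟨j, k, l, hjk, hjl, hkl, hst⟩ := Finset.card_eq_three.1 h3
    exact h.three hjk hjl hkl hst

end

/-- The rank formula for bodies with ball joints, every joint linking two bodies: the least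
dimension of the space of motions is at most the expected dimension for some coarser partition
(and at least that dimension for every partition by `val_le`). -/
theorem rank_formula {ι J : Type} [Fintype ι] [Fintype J] (a b : J → ι) (E : Finset J)
    (r : Setoid ι) : ∃ s, r ≤ s ∧ (zdim a b E r : ℤ) ≤ val a b E s := by
  classical
  suffices h : ∀ n k : ℕ, ∀ (E : Finset J) (r : Setoid ι), Nat.card (Quotient r) = n →
      E.card = k → ∃ s, r ≤ s ∧ (zdim a b E r : ℤ) ≤ val a b E s from h _ _ E r rfl rfl
  intro n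
  induction n using Nat.strong_induction_on with
  | _ n ihn =>
  intro k
  induction k using Nat.strong_induction_on with
  | _ k ihk =>
  intro E r hn hk
  by_contra hcon
  push Not at hcon
  have hctx : Ctx a b E r := by
    refine ⟨?_, ?_, hcon⟩
    · intro E' s hs
      exact ihn _ (by rw [← hn]; exact card_quotient_lt hs) _ E' s rfl rfl
    · intro E' hE'
      exact ihk _ (by rw [← hk]; exact hE') E' r hn rfl
  exact hctx.false

end Pool.Agent.BJ
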