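import Pool.Agent.Lib.MP_37c7bf_BJ.Bars

/-!
Counting for partitions of the bodies: colourings, coarsening, isolating a body.
-/

open MeasureTheory Module Topology
open scoped RealInnerProductSpace

namespace Pool.Agent.BJ

open Pool.Agent.H26R (E3 crossE)

section
variable {ι V κ κ' : Type} [Fintype V]

open Classical in
/-- The number of joints between the two colours of the pair `e`. -/
noncomputable def dC (a b : V → ι) (c : ι → κ) (e : Sym2 κ) : ℕ :=
  (Finset.univ.filter fun x : V => s(c (a x), c (b x)) = e).card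

open Classical in
/-- The number of bars between the two colours of the pair `e`. -/
noncomputable def fC (a : V → ι) (L : SimpleGraph V) (c : ι → κ) (e : Sym2 κ) : ℕ :=
  (Finset.univ.filter fun f : Sym2 V => f ∈ L.edgeSet ∧ Sym2.map (fun x => c (a x)) f = e).card

/-- The cost of a pair of colours. -/
noncomputable def pc (a b : V → ι) (L : SimpleGraph V) (c : ι → κ) (e : Sym2 κ) : ℤ :=
  min 6 (hh (dC a b c e) + fC a L c e)

open Classical in
/-- The cost of a colouring. -/
noncomputable def cost [Fintype κ] (a b : V → ι) (L : SimpleGraph V) (c : ι → κ) : ℤ :=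
  ∑ e : Sym2 κ, if e.IsDiag then 0 else pc a b L c e

theorem isDiag_map_iff {α β : Type*} {f : α → β} (hf : Function.Injective f) (e : Sym2 α) :
    (Sym2.map f e).IsDiag ↔ e.IsDiag := by
  induction e using Sym2.ind with
  | _ x y =>
  rw [Sym2.map_mk, Sym2.mk_isDiag_iff, Sym2.mk_isDiag_iff]
  exact ⟨fun h => hf h, fun h => by rw [h]⟩

theorem isDiag_map {α β : Type*} (f : α → β) {e : Sym2 α} (h : e.IsDiag) :
    (Sym2.map f e).IsDiag := by
  induction e using Sym2.ind with
  | _ x y =>
  rw [Sym2.mk_isDiag_iff] at h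
  rw [Sym2.map_mk, Sym2.mk_isDiag_iff, h]

theorem hh_cases (d : ℕ) : (d = 0 ∧ hh d = 0) ∨ (d = 1 ∧ hh d = 3) ∨ (d = 2 ∧ hh d = 5) ∨
    (3 ≤ d ∧ hh d = 6) := by
  unfold hh
  rcases Nat.lt_or_ge d 3 with h | h
  · interval_cases d <;> simp
  · right; right; right
    refine ⟨h, ?_⟩
    rw [if_neg (by omega), if_neg (by omega), if_neg (by omega)]

theorem hh_nn (d : ℕ) : 0 ≤ hh d := by
  rcases hh_cases d with h | h | h | h <;> omega

theorem FF_add (d d' f f' : ℕ) : min 6 (hh (d + d') + ((f + f' : ℕ) : ℤ)) ≤
    min 6 (hh d + (f : ℤ)) + min 6 (hh d' + (f' : ℤ)) := by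
  rcases hh_cases d with h | h | h | h <;> rcases hh_cases d' with h' | h' | h' | h' <;>
  rcases hh_cases (d + d') with h2 | h2 | h2 | h2 <;> omega

theorem FF_sum {α : Type*} (t : Finset α) (d f : α → ℕ) :
    min 6 (hh (∑ e ∈ t, d e) + ((∑ e ∈ t, f e : ℕ) : ℤ)) ≤
      ∑ e ∈ t, min 6 (hh (d e) + (f e : ℤ)) := by
  classical
  induction t using Finset.induction_on with
  | empty => simp [hh]
  | insert x t hx ih =>
    rw [Finset.sum_insert hx, Finset.sum_insert hx, Finset.sum_insert hx]
    exact (FF_add _ _ _ _).trans (add_le_add le_rfl ih)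

omit [Fintype V] in
theorem pc_nn [Fintype V] (a b : V → ι) (L : SimpleGraph V) (c : ι → κ) (e : Sym2 κ) :
    0 ≤ pc a b L c e := by
  unfold pc
  have := hh_nn (dC a b c e)
  omega

/-- `valB` in terms of a surjective colouring. -/
theorem valB_ker [Fintype ι] [Fintype κ] (a b : V → ι) (L : SimpleGraph V) (c : ι → κ)
    (hc : Function.Surjective c) (s : Setoid ι) (hs : ∀ i j, s i j ↔ c i = c j) :
    valB a b L s = 6 * (Fintype.card κ : ℤ) - cost a b L c := by

  classical
  let φ0 : Quotient s → κ := Quotient.lift c fun i j h => (hs i j).1 h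
  have hφ0 : ∀ i, φ0 (Quotient.mk s i) = c i := fun i => rfl
  have hinj : Function.Injective φ0 := by
    intro x y
    induction x using Quotient.inductionOn with
    | _ x =>
    induction y using Quotient.inductionOn with
    | _ y =>
    intro h
    exact Quotient.sound ((hs x y).2 h)
  have hsurj : Function.Surjective φ0 := by
    intro k
    obtain ⟨i, hi⟩ := hc k
    exact ⟨Quotient.mk s i, hi⟩
  have hcard : Fintype.card (Quotient s) = Fintype.card κ :=
    Fintype.card_of_bijective ⟨hinj, hsurj⟩
  have hbij : Function.Bijective (Sym2.map φ0) := by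
    refine ⟨Sym2.map.injective hinj, ?_⟩
    intro e
    induction e using Sym2.ind with
    | _ x y =>
    obtain ⟨x, rfl⟩ := hsurj x
    obtain ⟨y, rfl⟩ := hsurj y
    exact ⟨s(x, y), rfl⟩
  unfold valB cost
  rw [hcard]
  congr 1
  refine Fintype.sum_bijective (Sym2.map φ0) hbij _ _ fun e => ?_
  have hd : (Sym2.map φ0 e).IsDiag ↔ e.IsDiag := isDiag_map_iff hinj e
  by_cases he : e.IsDiag
  · rw [if_pos he, if_pos (hd.2 he)]
  · rw [if_neg he, if_neg (fun h => he (hd.1 h))]
    unfold pc
    have h1 : dC a b c (Sym2.map φ0 e) = dd a b Finset.univ s e := by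
      unfold dC dd
      congr 1
      refine Finset.filter_congr fun x _ => ?_
      constructor
      · intro h
        exact Sym2.map.injective hinj h
      · intro h
        rw [← h]
        rfl
    have h2 : fC a L c (Sym2.map φ0 e) = ff a L s e := by
      unfold fC ff
      congr 1
      refine Finset.filter_congr fun f _ => ?_
      have h3 : Sym2.map (fun x => c (a x)) f =
          Sym2.map φ0 (Sym2.map (fun x => Quotient.mk s (a x)) f) := by
        rw [Sym2.map_map]
        rfl
      rw [h3]
      constructor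
      · rintro ⟨h4, h5⟩
        exact ⟨h4, Sym2.map.injective hinj h5⟩
      · rintro ⟨h4, h5⟩
        exact ⟨h4, by rw [h5]⟩
    rw [h1, h2]

open Classical in
theorem card_fib {X : Type*} [Fintype κ] (t : Finset X) (m : X → Sym2 κ) (m' : X → Sym2 κ')
    (g : κ → κ') (hm : ∀ x, m' x = Sym2.map g (m x)) (e' : Sym2 κ') :
    (t.filter fun x : X => m' x = e').card =
      ∑ e ∈ Finset.univ.filter (fun e : Sym2 κ => Sym2.map g e = e'),
        (t.filter fun x : X => m x = e).card := by
  rw [Finset.card_eq_sum_card_fiberwise (f := m)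
    (t := Finset.univ.filter (fun e : Sym2 κ => Sym2.map g e = e'))]
  · refine Finset.sum_congr rfl fun e he => ?_
    congr 1
    ext x
    simp only [Finset.mem_filter, Finset.mem_univ, true_and] at he ⊢
    constructor
    · rintro ⟨⟨h1, h2⟩, h3⟩
      exact ⟨h1, h3⟩
    · rintro ⟨h1, h3⟩
      exact ⟨⟨h1, by rw [hm, h3]; exact he⟩, h3⟩
  · intro x hx
    simp only [Finset.coe_filter, Finset.mem_univ, true_and] at hx ⊢
    have := hx.2
    rw [hm] at this
    exact this

open Classical in
theorem dC_comp [Fintype κ] (a b : V → ι) (c : ι → κ) (g : κ → κ') (e' : Sym2 κ') :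
    dC a b (g ∘ c) e' =
      ∑ e ∈ Finset.univ.filter (fun e : Sym2 κ => Sym2.map g e = e'), dC a b c e :=
  card_fib Finset.univ (fun x => s(c (a x), c (b x))) _ g (fun _ => rfl) e'

open Classical in
theorem fC_eq (a : V → ι) (L : SimpleGraph V) (c : ι → κ) (e : Sym2 κ) :
    fC a L c e = ((Finset.univ.filter fun f : Sym2 V => f ∈ L.edgeSet).filter
      fun f => Sym2.map (fun x => c (a x)) f = e).card := by
  unfold fC
  rw [Finset.filter_filter]

open Classical in
theorem fC_comp [Fintype κ] (a : V → ι) (L : SimpleGraph V) (c : ι → κ) (g : κ → κ')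
    (e' : Sym2 κ') :
    fC a L (g ∘ c) e' =
      ∑ e ∈ Finset.univ.filter (fun e : Sym2 κ => Sym2.map g e = e'), fC a L c e := by
  simp only [fC_eq]
  exact card_fib _ (fun f => Sym2.map (fun x => c (a x)) f) _ g (fun f => by
    rw [Sym2.map_map]
    rfl) e'

open Classical in
/-- Coarsening a colouring: the pairs which are merged contribute their whole cost. -/
theorem cost_comp [Fintype κ] [Fintype κ'] (a b : V → ι) (L : SimpleGraph V) (c : ι → κ)
    (g : κ → κ') :
    cost a b L (g ∘ c) +
      ∑ e : Sym2 κ, (if e.IsDiag then 0 else if (Sym2.map g e).IsDiag then pc a b L c e else 0) ≤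
    cost a b L c := by

  classical
  have h1 : ∀ e' : Sym2 κ', pc a b L (g ∘ c) e' ≤
      ∑ e ∈ Finset.univ.filter (fun e : Sym2 κ => Sym2.map g e = e'), pc a b L c e := by
    intro e'
    unfold pc
    rw [dC_comp, fC_comp]
    exact FF_sum _ _ _
  have h2 : cost a b L (g ∘ c) ≤
      ∑ e : Sym2 κ, if (Sym2.map g e).IsDiag then 0 else pc a b L c e := by
    rw [← Finset.sum_fiberwise Finset.univ (Sym2.map g)]
    unfold cost
    refine Finset.sum_le_sum fun e' _ => ?_
    by_cases he : e'.IsDiag
    · rw [if_pos he]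
      refine Finset.sum_nonneg fun e _ => ?_
      split_ifs
      · exact le_rfl
      · exact pc_nn a b L c e
    · rw [if_neg he]
      refine (h1 e').trans (le_of_eq ?_)
      refine Finset.sum_congr rfl fun e he' => ?_
      rw [(Finset.mem_filter.1 he').2, if_neg he]
  refine (add_le_add h2 le_rfl).trans (le_of_eq ?_)
  unfold cost
  rw [← Finset.sum_add_distrib]
  refine Finset.sum_congr rfl fun e _ => ?_
  by_cases he : e.IsDiag
  · rw [if_pos he, if_pos he, if_pos (isDiag_map g he), add_zero]
  · rw [if_neg he, if_neg he]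
    by_cases he' : (Sym2.map g e).IsDiag
    · rw [if_pos he', if_pos he', zero_add]
    · rw [if_neg he', if_neg he', add_zero]

theorem weld_card [Fintype ι] (s : Setoid ι) (i j : ι) [Fintype (Quotient s)]
    [Fintype (Quotient (weld s i j))] :
    Fintype.card (Quotient s) ≤ Fintype.card (Quotient (weld s i j)) + 1 := by
  classical
  rw [← Fintype.card_option]
  let c' : ι → Quotient s := fun x =>
    if Quotient.mk s x = Quotient.mk s j then Quotient.mk s i else Quotient.mk s x
  have hle : weld s i j ≤ Setoid.ker c' := by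
    refine weld_le ?_ ?_
    · intro x y h
      change c' x = c' y
      have h1 : Quotient.mk s x = Quotient.mk s y := Quotient.sound h
      simp only [c', h1]
    · change c' i = c' j
      simp only [c', if_true]
      split_ifs <;> rfl
  let h : Quotient s → Option (Quotient (weld s i j)) := fun q =>
    if q = Quotient.mk s j then none else some (Quotient.mk _ q.out)
  refine Fintype.card_le_of_injective h ?_
  intro q q' hqq
  simp only [h] at hqq
  by_cases h1 : q = Quotient.mk s j
  · by_cases h2 : q' = Quotient.mk s j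
    · rw [h1, h2]
    · rw [if_pos h1, if_neg h2] at hqq
      exact absurd hqq.symm (by simp)
  · by_cases h2 : q' = Quotient.mk s j
    · rw [if_neg h1, if_pos h2] at hqq
      exact absurd hqq (by simp)
    · rw [if_neg h1, if_neg h2] at hqq
      have h3 := hle (Quotient.exact (Option.some_injective _ hqq))
      have h4 : c' q.out = c' q'.out := h3
      have h5 : Quotient.mk s q.out = q := Quotient.out_eq q
      have h6 : Quotient.mk s q'.out = q' := Quotient.out_eq q'
      simp only [c', h5, h6, if_neg h1, if_neg h2] at h4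
      exact h4

theorem exists_weld_map (s : Setoid ι) (i j : ι) :
    ∃ g : Quotient s → Quotient (weld s i j), ∀ x, g (Quotient.mk s x) = Quotient.mk _ x :=
  ⟨Quotient.lift (fun x => Quotient.mk _ x) fun _ _ h => Quotient.sound (le_weld s i j h),
    fun _ => rfl⟩

open Classical in
theorem valB_mk [Fintype ι] (a b : V → ι) (L : SimpleGraph V) (s : Setoid ι) :
    valB a b L s = 6 * (Fintype.card (Quotient s) : ℤ) - cost a b L (Quotient.mk s) :=
  valB_ker a b L (Quotient.mk s) (fun q => Quotient.exists_rep q) s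
    fun _ _ => ⟨fun h => Quotient.sound h, fun h => Quotient.exact h⟩

theorem dC_mk (a b : V → ι) (s : Setoid ι) (e : Sym2 (Quotient s)) :
    dC a b (Quotient.mk s) e = dd a b Finset.univ s e := by
  unfold dC dd
  congr!

theorem fC_mk (a : V → ι) (L : SimpleGraph V) (s : Setoid ι) (e : Sym2 (Quotient s)) :
    fC a L (Quotient.mk s) e = ff a L s e := by
  unfold fC ff
  congr!

open Classical in
/-- The total cost of the merged pairs. -/
noncomputable def satMrg [Fintype κ] (a b : V → ι) (L : SimpleGraph V) (c : ι → κ)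
    (g : κ → κ') : ℤ :=
  ∑ e : Sym2 κ, (if e.IsDiag then 0 else if (Sym2.map g e).IsDiag then pc a b L c e else 0)

theorem cost_comp' [Fintype κ] [Fintype κ'] (a b : V → ι) (L : SimpleGraph V) (c : ι → κ)
    (g : κ → κ') : cost a b L (g ∘ c) + satMrg a b L c g ≤ cost a b L c :=
  cost_comp a b L c g

theorem satMrg_nn [Fintype κ] (a b : V → ι) (L : SimpleGraph V) (c : ι → κ)
    (g : κ → κ') : 0 ≤ satMrg a b L c g := by
  classical
  refine Finset.sum_nonneg fun e _ => ?_
  split_ifs
  · exact le_rfl
  · exact pc_nn a b L _ e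
  · exact le_rfl

theorem le_satMrg [Fintype κ] (a b : V → ι) (L : SimpleGraph V) (c : ι → κ)
    (g : κ → κ') (e : Sym2 κ) (h1 : ¬ e.IsDiag) (h2 : (Sym2.map g e).IsDiag) :
    pc a b L c e ≤ satMrg a b L c g := by
  classical
  have h := Finset.single_le_sum (f := fun e : Sym2 κ =>
      (if e.IsDiag then (0 : ℤ) else if (Sym2.map g e).IsDiag
        then pc a b L c e else 0)) (fun e _ => by
        split_ifs
        · exact le_rfl
        · exact pc_nn a b L _ e
        · exact le_rfl) (Finset.mem_univ e)
  rw [if_neg h1, if_pos h2] at h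
  exact h

open Classical in
theorem valB_weld_aux [Fintype ι] (a b : V → ι) (L : SimpleGraph V) (s : Setoid ι) (i j : ι)
    (g : Quotient s → Quotient (weld s i j)) (hg : ∀ x, g (Quotient.mk s x) = Quotient.mk _ x) :
    6 * (Fintype.card (Quotient s) : ℤ) - 6 - cost a b L (Quotient.mk s) +
      satMrg a b L (Quotient.mk s) g ≤ valB a b L (weld s i j) := by
  rw [valB_mk a b L (weld s i j)]
  have h1 := cost_comp' a b L (Quotient.mk s) g
  have h2 : g ∘ Quotient.mk s = Quotient.mk (weld s i j) := by
    funext x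
    exact hg x
  rw [h2] at h1
  have h3 := weld_card s i j
  have h4 : (Fintype.card (Quotient s) : ℤ) ≤ Fintype.card (Quotient (weld s i j)) + 1 := by
    exact_mod_cast h3
  linarith

/-- Merging the classes of a saturated pair. -/
theorem valB_weld_of_sat [Fintype ι] (a b : V → ι) (L : SimpleGraph V) (s : Setoid ι) {i j : ι}
    (hij : ¬ s i j)
    (hsat : 6 ≤ hh (dd a b Finset.univ s s(Quotient.mk s i, Quotient.mk s j)) +
      (ff a L s s(Quotient.mk s i, Quotient.mk s j) : ℤ)) :
    valB a b L s ≤ valB a b L (weld s i j) := by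

  classical
  obtain ⟨g, hg⟩ := exists_weld_map s i j
  have hw := valB_weld_aux a b L s i j g hg
  have hmerge := le_satMrg a b L (Quotient.mk s) g s(Quotient.mk s i, Quotient.mk s j)
    (by
      rw [Sym2.mk_isDiag_iff]
      intro h
      exact hij (Quotient.exact h))
    (by
      rw [Sym2.map_mk, Sym2.mk_isDiag_iff, hg, hg]
      exact Quotient.sound (weld_rel s i j))
  have h6 : pc a b L (Quotient.mk s) s(Quotient.mk s i, Quotient.mk s j) = 6 := by
    unfold pc
    rw [dC_mk, fC_mk]
    exact min_eq_left hsat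
  rw [h6] at hmerge
  have hs := valB_mk a b L s
  linarith

/-- Merging two classes loses at most six. -/
theorem valB_weld [Fintype ι] (a b : V → ι) (L : SimpleGraph V) (s : Setoid ι) (i j : ι) :
    valB a b L s - 6 ≤ valB a b L (weld s i j) := by

  classical
  obtain ⟨g, hg⟩ := exists_weld_map s i j
  have hw := valB_weld_aux a b L s i j g hg
  have h0 := satMrg_nn a b L (Quotient.mk s) g
  have hs := valB_mk a b L s
  linarith

/-- Isolating the body `f`. -/
def iso (s : Setoid ι) (f : ι) : Setoid ι where
  r i j := i = j ∨ (s i j ∧ i ≠ f ∧ j ≠ f)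
  iseqv := by
    refine ⟨fun i => Or.inl rfl, ?_, ?_⟩
    · rintro i j (h | ⟨h, hi, hj⟩)
      · exact Or.inl h.symm
      · exact Or.inr ⟨s.symm h, hj, hi⟩
    · rintro i j k (h | ⟨h, hi, hj⟩) (h' | ⟨h', hi', hj'⟩)
      · exact Or.inl (h.trans h')
      · subst h; exact Or.inr ⟨h', hi', hj'⟩
      · subst h'; exact Or.inr ⟨h, hi, hj⟩
      · exact Or.inr ⟨s.trans h h', hi, hj'⟩

open Classical in
/-- Sum over the pairs of different colours. -/
noncomputable def ndSum [Fintype κ] (F : Sym2 κ → ℤ) : ℤ :=
  ∑ e : Sym2 κ, if e.IsDiag then 0 else F e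

open Classical in
/-- Sum over a fibre. -/
noncomputable def fibSum [Fintype κ] (g : κ → κ') (F : Sym2 κ → ℤ) (e : Sym2 κ') : ℤ :=
  ∑ e' ∈ Finset.univ.filter (fun e' : Sym2 κ => Sym2.map g e' = e), F e'

theorem dC_eq_zero {a b : V → ι} {c : ι → κ} {e : Sym2 κ}
    (h : ∀ x, s(c (a x), c (b x)) = e → False) : dC a b c e = 0 := by
  classical
  exact Finset.card_eq_zero.2 (Finset.eq_empty_of_forall_notMem fun x hx' =>
    h x (Finset.mem_filter.1 hx').2)

theorem fC_le_card {a : V → ι} {L : SimpleGraph V} {c : ι → κ} {e : Sym2 κ}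
    {t : Finset (Sym2 V)}
    (h : ∀ f, f ∈ L.edgeSet → Sym2.map (fun x => c (a x)) f = e → f ∈ t) :
    fC a L c e ≤ t.card := by
  classical
  refine Finset.card_le_card fun f hf => ?_
  obtain ⟨_, h1, h2⟩ := Finset.mem_filter.1 hf
  exact h f h1 h2

theorem fC_eq_fC {ι' κ' : Type} {a : V → ι} {L : SimpleGraph V} {c : ι → κ} {e : Sym2 κ}
    {a' : V → ι'} {L' : SimpleGraph V} {c' : ι' → κ'} {e' : Sym2 κ'}
    (h : ∀ f, (f ∈ L.edgeSet ∧ Sym2.map (fun x => c (a x)) f = e) ↔
      (f ∈ L'.edgeSet ∧ Sym2.map (fun x => c' (a' x)) f = e')) :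
    fC a L c e = fC a' L' c' e' := by
  classical
  unfold fC
  congr 1
  ext f
  rw [Finset.mem_filter, Finset.mem_filter]
  exact and_congr Iff.rfl (h f)

theorem fC_le_fC {a : V → ι} {L L' : SimpleGraph V} (c : ι → κ) (h : L ≤ L') (e : Sym2 κ) :
    fC a L c e ≤ fC a L' c e := by
  classical
  unfold fC
  refine Finset.card_le_card fun f hf => ?_
  obtain ⟨h2, h3, h4⟩ := Finset.mem_filter.1 hf
  exact Finset.mem_filter.2 ⟨h2, SimpleGraph.edgeSet_mono h h3, h4⟩

theorem fC_eq_zero {a : V → ι} {L : SimpleGraph V} {c : ι → κ} {e : Sym2 κ}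
    (h : ∀ f, f ∈ L.edgeSet → Sym2.map (fun x => c (a x)) f = e → False) :
    fC a L c e = 0 := by
  classical
  refine Finset.card_eq_zero.2 (Finset.eq_empty_of_forall_notMem fun f hf => ?_)
  exact h f (Finset.mem_filter.1 hf).2.1 (Finset.mem_filter.1 hf).2.2

theorem dC_eq_dC {ι' κ' : Type} {a b : V → ι} {c : ι → κ} {e : Sym2 κ}
    {a' b' : V → ι'} {c' : ι' → κ'} {e' : Sym2 κ'}
    (h : ∀ x, s(c (a x), c (b x)) = e ↔ s(c' (a' x), c' (b' x)) = e') :
    dC a b c e = dC a' b' c' e' := by
  classical
  unfold dC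
  congr 1
  ext x
  rw [Finset.mem_filter, Finset.mem_filter]
  exact and_congr Iff.rfl (h x)

theorem dC_eq_card {a b : V → ι} {c : ι → κ} {e : Sym2 κ} (P : V → Prop) [DecidablePred P]
    (h : ∀ x, s(c (a x), c (b x)) = e ↔ P x) :
    dC a b c e = (Finset.univ.filter P).card := by
  classical
  unfold dC
  congr 1
  ext x
  rw [Finset.mem_filter, Finset.mem_filter]
  exact and_congr Iff.rfl (h x)

theorem ndSum_congr [Fintype κ] {F F' : Sym2 κ → ℤ} (h : ∀ e, ¬ e.IsDiag → F e = F' e) :
    ndSum F = ndSum F' := by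
  refine Finset.sum_congr rfl fun e _ => ?_
  by_cases he : e.IsDiag
  · rw [if_pos he, if_pos he]
  · rw [if_neg he, if_neg he, h e he]

theorem ndSum_le [Fintype κ] {F F' : Sym2 κ → ℤ} (h : ∀ e, ¬ e.IsDiag → F e ≤ F' e) :
    ndSum F ≤ ndSum F' := by
  refine Finset.sum_le_sum fun e _ => ?_
  by_cases he : e.IsDiag
  · rw [if_pos he, if_pos he]
  · rw [if_neg he, if_neg he]
    exact h e he

theorem cost_eq [Fintype κ] (a b : V → ι) (L : SimpleGraph V) (c : ι → κ) :
    cost a b L c = ndSum (pc a b L c) := rfl

open Classical in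
theorem ndSum_getD [Fintype κ] (P0 : κ) (F : Sym2 (Option κ) → ℤ) :
    ndSum F = F s(none, some P0) + ndSum (fibSum (fun o : Option κ => o.getD P0) F) := by
  have h1 : ndSum (fibSum (fun o : Option κ => o.getD P0) F) =
      ∑ e' : Sym2 (Option κ),
        if (Sym2.map (fun o : Option κ => o.getD P0) e').IsDiag then 0 else F e' := by
    rw [← Finset.sum_fiberwise Finset.univ (Sym2.map (fun o : Option κ => o.getD P0))]
    refine Finset.sum_congr rfl fun e _ => ?_
    by_cases he : e.IsDiag
    · rw [if_pos he]
      symm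
      refine Finset.sum_eq_zero fun e' he' => ?_
      rw [(Finset.mem_filter.1 he').2, if_pos he]
    · rw [if_neg he]
      unfold fibSum
      refine Finset.sum_congr ?_ fun e' he' => ?_
      · ext e'
        simp only [Finset.mem_filter, Finset.mem_univ, true_and]
      · rw [(Finset.mem_filter.1 he').2, if_neg he]
  have h2 : F s(none, some P0) = ∑ e' : Sym2 (Option κ),
      if e'.IsDiag then 0 else
        if (Sym2.map (fun o : Option κ => o.getD P0) e').IsDiag then F e' else 0 := by
    rw [Finset.sum_eq_single s(none, some P0)]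
    · rw [if_neg (by rw [Sym2.mk_isDiag_iff]; simp), if_pos]
      rw [Sym2.map_mk, Sym2.mk_isDiag_iff]
      rfl
    · intro e' _ hne
      by_cases h3 : e'.IsDiag
      · rw [if_pos h3]
      · rw [if_neg h3]
        by_cases h4 : (Sym2.map (fun o : Option κ => o.getD P0) e').IsDiag
        · exfalso
          apply hne
          induction e' using Sym2.ind with
          | _ x y =>
          rw [Sym2.mk_isDiag_iff] at h3
          rw [Sym2.map_mk, Sym2.mk_isDiag_iff] at h4
          cases x with
          | none =>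
            cases y with
            | none => exact absurd rfl h3
            | some y =>
              have : P0 = y := h4
              rw [this]
          | some x =>
            cases y with
            | none =>
              have : x = P0 := h4
              rw [this, Sym2.eq_swap]
            | some y =>
              have : x = y := h4
              exact absurd (by rw [this]) h3
        · rw [if_neg h4]
    · intro h
      exact absurd (Finset.mem_univ _) h
  rw [h1, h2]
  unfold ndSum
  rw [← Finset.sum_add_distrib]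
  refine Finset.sum_congr ?_ fun e _ => ?_
  · ext e
    simp
  · by_cases he : e.IsDiag
    · rw [if_pos he, if_pos he, if_pos (isDiag_map _ he), add_zero]
    · rw [if_neg he, if_neg he]
      by_cases he' : (Sym2.map (fun o : Option κ => o.getD P0) e).IsDiag
      · rw [if_pos he', if_pos he', add_zero]
      · rw [if_neg he', if_neg he', zero_add]

theorem map_getD_some (P0 : κ) (e : Sym2 κ) :
    Sym2.map (fun o : Option κ => o.getD P0) (Sym2.map some e) = e := by
  rw [Sym2.map_map]
  have : ((fun o : Option κ => o.getD P0) ∘ some) = id := by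
    funext x
    rfl
  rw [this, Sym2.map_id]
  rfl

theorem eq_map_some_of {P0 : κ} {e : Sym2 κ} {e' : Sym2 (Option κ)}
    (h : Sym2.map (fun o : Option κ => o.getD P0) e' = e) (hn : none ∉ e') :
    e' = Sym2.map some e := by
  rw [← h]
  induction e' using Sym2.ind with
  | _ x y =>
  rw [Sym2.mem_iff] at hn
  push Not at hn
  obtain ⟨x, rfl⟩ := Option.ne_none_iff_exists'.1 hn.1.symm
  obtain ⟨y, rfl⟩ := Option.ne_none_iff_exists'.1 hn.2.symm
  rfl

theorem SAT2_cost [Fintype κ] (a b : V → ι) (L : SimpleGraph V) (c : ι → Option κ)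
    (c0 : ι → κ) (P0 : κ) (hcc : ∀ i, (c i).getD P0 = c0 i)
    (hd : ∀ e' : Sym2 (Option κ), none ∈ e' → ¬ e'.IsDiag → dC a b c e' = 0)
    (hun : ∀ e : Sym2 κ, ¬ e.IsDiag → hh (dC a b c0 e) + (fC a L c0 e : ℤ) ≤ 6) :
    cost a b L c ≤ cost a b L c0 + fC a L c s(none, some P0) := by
  classical
  have hcomp : (fun o : Option κ => o.getD P0) ∘ c = c0 := by
    funext i
    exact hcc i
  have hz : hh 0 = 0 := by
    unfold hh
    rw [if_pos rfl]
  rw [cost_eq, cost_eq]
  have h1 : ndSum (pc a b L c) ≤ ndSum (fun e' => hh (dC a b c e') + (fC a L c e' : ℤ)) :=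
    ndSum_le fun e' _ => min_le_right _ _
  refine h1.trans ?_
  rw [ndSum_getD P0, hd _ (by simp) (by rw [Sym2.mk_isDiag_iff]; simp), hz, zero_add, add_comm]
  refine add_le_add (ndSum_le fun e he => ?_) le_rfl
  have hfC := fC_comp a L c (fun o : Option κ => o.getD P0) e
  have hdC := dC_comp a b c (fun o : Option κ => o.getD P0) e
  rw [hcomp] at hfC hdC
  have hsingle : ∀ e' ∈ Finset.univ.filter
      (fun e' : Sym2 (Option κ) => Sym2.map (fun o : Option κ => o.getD P0) e' = e),
      e' ≠ Sym2.map some e → dC a b c e' = 0 := by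
    intro e' he' hne
    have he'' := (Finset.mem_filter.1 he').2
    refine hd e' ?_ ?_
    · by_contra hn
      exact hne (eq_map_some_of he'' hn)
    · intro h
      apply he
      rw [← he'']
      exact isDiag_map _ h
  have hmem : Sym2.map some e ∈ Finset.univ.filter
      (fun e' : Sym2 (Option κ) => Sym2.map (fun o : Option κ => o.getD P0) e' = e) :=
    Finset.mem_filter.2 ⟨Finset.mem_univ _, map_getD_some P0 e⟩
  have h2 : dC a b c0 e = dC a b c (Sym2.map some e) := by
    rw [hdC]
    refine Finset.sum_eq_single_of_mem _ ?_ ?_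
    · convert hmem
    · intro e' he' hne
      exact hsingle e' (by convert he') hne
  have h3 : fibSum (fun o : Option κ => o.getD P0)
      (fun e' => hh (dC a b c e') + (fC a L c e' : ℤ)) e =
      hh (dC a b c0 e) + (fC a L c0 e : ℤ) := by
    unfold fibSum
    rw [Finset.sum_add_distrib]
    congr 1
    · rw [h2]
      refine Finset.sum_eq_single_of_mem _ ?_ ?_
      · convert hmem
      · intro e' he' hne
        rw [hsingle e' (by convert he') hne, hz]
    · rw [hfC]
      push_cast
      rfl
  rw [h3]
  unfold pc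
  rw [min_eq_right (hun e he)]

/-- Isolating a free vertex from a class, no pair of classes being saturated: gain six minus the
number of bars inside the class. -/
theorem valB_iso [Fintype ι] (a b : V → ι) (L : SimpleGraph V) (s : Setoid ι) {v : V}
    (hv : a v = b v) (hv' : ∀ w, (a w = a v ∨ b w = a v) → w = v)
    (hL : ∀ x y, L.Adj x y → a x = b x)
    (hns : ∃ j, j ≠ a v ∧ s j (a v)) (hdeg : (L.neighborSet v).ncard ≤ 6)
    (hunsat : ∀ e : Sym2 (Quotient s), ¬ e.IsDiag →
      hh (dd a b Finset.univ s e) + (ff a L s e : ℤ) ≤ 6) :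
    valB a b L s + 6 - ({y | L.Adj v y ∧ s (a v) (a y)}.ncard : ℤ) ≤
      valB a b L (iso s (a v)) := by

  classical
  let c : ι → Option (Quotient s) := fun i => if i = a v then none else some (Quotient.mk s i)
  have hcf : c (a v) = none := if_pos rfl
  have hcn : ∀ i, i ≠ a v → c i = some (Quotient.mk s i) := fun i hi => if_neg hi
  have hcnone : ∀ i, c i = none → i = a v := by
    intro i hi
    by_contra h
    rw [hcn i h] at hi
    exact absurd hi (by simp)
  have hsurj : Function.Surjective c := by
    intro o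
    cases o with
    | none => exact ⟨a v, hcf⟩
    | some q =>
      obtain ⟨i, rfl⟩ := Quotient.exists_rep q
      by_cases hi : i = a v
      · obtain ⟨j, hj, hsj⟩ := hns
        refine ⟨j, ?_⟩
        rw [hcn j hj, hi]
        congr 1
        exact Quotient.sound hsj
      · exact ⟨i, hcn i hi⟩
  have hker : ∀ i j, iso s (a v) i j ↔ c i = c j := by
    intro i j
    constructor
    · rintro (h | ⟨h, hi, hj⟩)
      · rw [h]
      · rw [hcn i hi, hcn j hj]
        congr 1
        exact Quotient.sound h
    · intro h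
      by_cases hi : i = a v
      · rw [hi, hcf] at h
        left
        rw [hi, hcnone j h.symm]
      · by_cases hj : j = a v
        · rw [hj, hcf] at h
          exact absurd (hcnone i h) hi
        · rw [hcn i hi, hcn j hj] at h
          exact Or.inr ⟨Quotient.exact (Option.some_injective _ h), hi, hj⟩
  rw [valB_ker a b L c hsurj (iso s (a v)) hker, valB_mk a b L s, Fintype.card_option]
  have hcost := SAT2_cost a b L c (Quotient.mk s) (Quotient.mk s (a v)) (by
      intro i
      by_cases hi : i = a v
      · rw [hi, hcf]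
        rfl
      · rw [hcn i hi]
        rfl) (by
      intro e' hmem hnd
      refine dC_eq_zero fun x hx => ?_
      rw [← hx, Sym2.mem_iff] at hmem
      have hxv : x = v := by
        apply hv'
        rcases hmem with h | h
        · exact Or.inl (hcnone _ h.symm)
        · exact Or.inr (hcnone _ h.symm)
      apply hnd
      rw [← hx, hxv, ← hv]
      exact rfl) (by
      intro e he
      rw [dC_mk, fC_mk]
      exact hunsat e he)
  have hk : fC a L c s(none, some (Quotient.mk s (a v))) ≤
      {y | L.Adj v y ∧ s (a v) (a y)}.ncard := by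
    rw [Set.ncard_eq_toFinset_card' {y | L.Adj v y ∧ s (a v) (a y)}]
    refine le_trans (fC_le_card (t := Finset.image (fun y => s(v, y))
      {y | L.Adj v y ∧ s (a v) (a y)}.toFinset) ?_) Finset.card_image_le
    intro f hf1 hf2
    induction f using Sym2.ind with
    | _ x y =>
    rw [SimpleGraph.mem_edgeSet] at hf1
    rw [Sym2.map_mk, Sym2.eq_iff] at hf2
    rw [Finset.mem_image]
    rcases hf2 with ⟨h1, h2⟩ | ⟨h1, h2⟩
    · have hx : x = v := hv' x (Or.inl (hcnone _ h1))
      refine ⟨y, ?_, by rw [hx]⟩
      rw [Set.mem_toFinset]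
      refine ⟨hx ▸ hf1, ?_⟩
      have hy : a y ≠ a v := by
        intro h
        rw [h, hcf] at h2
        exact absurd h2 (by simp)
      rw [hcn _ hy] at h2
      exact s.symm (Quotient.exact (Option.some_injective _ h2))
    · have hy : y = v := hv' y (Or.inl (hcnone _ h2))
      refine ⟨x, ?_, by rw [hy, Sym2.eq_swap]⟩
      rw [Set.mem_toFinset]
      refine ⟨hy ▸ hf1.symm, ?_⟩
      have hx : a x ≠ a v := by
        intro h
        rw [h, hcf] at h1
        exact absurd h1 (by simp)
      rw [hcn _ hx] at h1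
      exact s.symm (Quotient.exact (Option.some_injective _ h1))
  have hk' : (fC a L c s(none, some (Quotient.mk s (a v))) : ℤ) ≤
      ({y | L.Adj v y ∧ s (a v) (a y)}.ncard : ℤ) := by exact_mod_cast hk
  push_cast
  linarith

theorem SAT3_fC (a : V → ι) (L L' : SimpleGraph V) (c : ι → κ) {x y : V}
    (hn : ¬ L.Adj x y) (hL' : ∀ u w, L'.Adj u w ↔ L.Adj u w ∨ s(u, w) = s(x, y))
    (e : Sym2 κ) :
    (e = s(c (a x), c (a y)) → fC a L' c e = fC a L c e + 1) ∧
      (e ≠ s(c (a x), c (a y)) → fC a L' c e = fC a L c e) := by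
  classical
  have h1 : ∀ f : Sym2 V, f ∈ L'.edgeSet ↔ f ∈ L.edgeSet ∨ f = s(x, y) := by
    intro f
    induction f using Sym2.ind with
    | _ u w =>
    rw [SimpleGraph.mem_edgeSet, SimpleGraph.mem_edgeSet]
    exact hL' u w
  unfold fC
  constructor
  · intro he
    have h2 : (Finset.univ.filter fun f : Sym2 V =>
        f ∈ L'.edgeSet ∧ Sym2.map (fun x => c (a x)) f = e) =
        insert s(x, y) (Finset.univ.filter fun f : Sym2 V =>
          f ∈ L.edgeSet ∧ Sym2.map (fun x => c (a x)) f = e) := by
      ext f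
      simp only [Finset.mem_filter, Finset.mem_univ, true_and, Finset.mem_insert, h1]
      constructor
      · rintro ⟨h | h, h'⟩
        · exact Or.inr ⟨h, h'⟩
        · exact Or.inl h
      · rintro (h | ⟨h, h'⟩)
        · refine ⟨Or.inr h, ?_⟩
          rw [h, he]
          rfl
        · exact ⟨Or.inl h, h'⟩
    rw [h2, Finset.card_insert_of_notMem]
    intro hmem
    exact hn (Finset.mem_filter.1 hmem).2.1
  · intro he
    congr 1
    ext f
    simp only [Finset.mem_filter, Finset.mem_univ, true_and, h1]
    constructor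
    · rintro ⟨h | h, h'⟩
      · exact ⟨h, h'⟩
      · exfalso
        apply he
        rw [← h', h]
        rfl
    · rintro ⟨h, h'⟩
      exact ⟨Or.inl h, h'⟩

theorem SAT3_cost [Fintype κ] (a b : V → ι) (L L' : SimpleGraph V) (c : ι → κ) (e0 : Sym2 κ)
    (he0 : ¬ e0.IsDiag)
    (hf : ∀ e, (e = e0 → fC a L' c e = fC a L c e + 1) ∧
      (e ≠ e0 → fC a L' c e = fC a L c e))
    (hun : hh (dC a b c e0) + (fC a L' c e0 : ℤ) ≤ 6) :
    cost a b L' c = cost a b L c + 1 := by
  classical
  have h1 : ∀ e : Sym2 κ, (if e.IsDiag then (0 : ℤ) else pc a b L' c e) =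
      (if e.IsDiag then 0 else pc a b L c e) + if e = e0 then 1 else 0 := by
    intro e
    by_cases hee : e = e0
    · rw [if_pos hee, hee, if_neg he0, if_neg he0]
      have h2 := (hf e0).1 rfl
      unfold pc
      rw [h2] at hun ⊢
      push_cast at hun ⊢
      rw [min_eq_right hun, min_eq_right (by linarith)]
      ring
    · rw [if_neg hee, add_zero]
      have h2 := (hf e).2 hee
      unfold pc
      rw [h2]
  unfold cost
  rw [Finset.sum_congr rfl fun e _ => h1 e, Finset.sum_add_distrib, Finset.sum_ite_eq' Finset.univ,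
    if_pos (Finset.mem_univ _)]

/-- Adding a bar between different classes which are not saturated costs one. -/
theorem valB_add_bar [Fintype ι] (a b : V → ι) (L L' : SimpleGraph V) (s : Setoid ι) {x y : V}
    (hxy : x ≠ y) (hn : ¬ L.Adj x y) (hL' : ∀ u w, L'.Adj u w ↔ L.Adj u w ∨ s(u, w) = s(x, y))
    (h : ¬ s (a x) (a y))
    (hunsat : hh (dd a b Finset.univ s s(Quotient.mk s (a x), Quotient.mk s (a y))) +
      (ff a L' s s(Quotient.mk s (a x), Quotient.mk s (a y)) : ℤ) ≤ 6) :
    valB a b L' s = valB a b L s - 1 := by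

  classical
  have he0 : ¬ (s(Quotient.mk s (a x), Quotient.mk s (a y)) : Sym2 (Quotient s)).IsDiag := by
    rw [Sym2.mk_isDiag_iff]
    intro h'
    exact h (Quotient.exact h')
  rw [valB_mk a b L' s, valB_mk a b L s]
  have hf := SAT3_fC a L L' (Quotient.mk s) hn hL'
  have key := SAT3_cost a b L L' (Quotient.mk s)
    s(Quotient.mk s (a x), Quotient.mk s (a y)) he0 hf (by
      rw [dC_mk, fC_mk]
      exact hunsat)
  linarith

/-- Bars inside the classes do not matter. -/
theorem valB_congr [Fintype ι] (a b : V → ι) (L L' : SimpleGraph V) (s : Setoid ι)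
    (h : ∀ x y, ¬ s (a x) (a y) → (L.Adj x y ↔ L'.Adj x y)) : valB a b L s = valB a b L' s := by

  classical
  rw [valB_mk a b L s, valB_mk a b L' s, cost_eq, cost_eq]
  congr 1
  refine ndSum_congr fun e he => ?_
  unfold pc
  have h1 : fC a L (Quotient.mk s) e = fC a L' (Quotient.mk s) e := by
    refine fC_eq_fC fun f => ?_
    have h2 : Sym2.map (fun x => Quotient.mk s (a x)) f = e →
        (f ∈ L.edgeSet ↔ f ∈ L'.edgeSet) := by
      intro hf
      induction f using Sym2.ind with
      | _ x y =>
      rw [SimpleGraph.mem_edgeSet, SimpleGraph.mem_edgeSet]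
      apply h
      intro hxy
      apply he
      rw [← hf, Sym2.map_mk, Sym2.mk_isDiag_iff]
      exact Quotient.sound hxy
    constructor
    · rintro ⟨h3, h4⟩
      exact ⟨(h2 h4).1 h3, h4⟩
    · rintro ⟨h3, h4⟩
      exact ⟨(h2 h4).2 h3, h4⟩
  rw [h1]

/-- Monotonicity in the bars. -/
theorem valB_anti [Fintype ι] (a b : V → ι) {L L' : SimpleGraph V} (s : Setoid ι) (h : L ≤ L') :
    valB a b L' s ≤ valB a b L s := by

  classical
  rw [valB_mk a b L s, valB_mk a b L' s, cost_eq, cost_eq]
  have h1 : ndSum (pc a b L (Quotient.mk s)) ≤ ndSum (pc a b L' (Quotient.mk s)) := by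
    refine ndSum_le fun e he => ?_
    unfold pc
    have h1 : fC a L (Quotient.mk s) e ≤ fC a L' (Quotient.mk s) e := fC_le_fC _ h e
    have h2 : (fC a L (Quotient.mk s) e : ℤ) ≤ fC a L' (Quotient.mk s) e := by exact_mod_cast h1
    exact min_le_min le_rfl (by linarith)
  linarith

end

/-! ### The triangle as a new body -/

section
variable {ι V : Type}

/-- The new first body function. -/
def aT (a : V → ι) : V → Option ι := fun w => some (a w)

open Classical in
/-- The new second body function: the points `x`, `y`, `z` lie on the new body. -/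
noncomputable def bT (b : V → ι) (x y z : V) : V → Option ι := fun w =>
  if w = x ∨ w = y ∨ w = z then none else some (b w)

/-- The setoid on `Option ι` extending `r`. -/
def rT (r : Setoid ι) : Setoid (Option ι) where
  r i j := (i = none ∧ j = none) ∨ ∃ u v, i = some u ∧ j = some v ∧ r u v
  iseqv := by
    refine ⟨?_, ?_, ?_⟩
    · rintro (_ | u)
      · exact Or.inl ⟨rfl, rfl⟩
      · exact Or.inr ⟨u, u, rfl, rfl, r.refl u⟩
    · rintro i j (⟨h, h'⟩ | ⟨u, v, h, h', huv⟩)
      · exact Or.inl ⟨h', h⟩
      · exact Or.inr ⟨v, u, h', h, r.symm huv⟩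
    · rintro i j k (⟨h, h'⟩ | ⟨u, v, h, h', huv⟩) (⟨g, g'⟩ | ⟨u', v', g, g', huv'⟩)
      · exact Or.inl ⟨h, g'⟩
      · rw [h'] at g; exact absurd g (by simp)
      · rw [h'] at g; exact absurd g (by simp)
      · refine Or.inr ⟨u, v', h, g', ?_⟩
        rw [h'] at g
        obtain rfl := Option.some_injective _ g
        exact r.trans huv huv'

theorem ndSum_option {κ : Type} [Fintype κ] (F : Sym2 (Option κ) → ℤ) :
    ndSum F = ndSum (fun e : Sym2 κ => F (Sym2.map some e)) + ∑ q : κ, F s(none, some q) := by
  classical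
  unfold ndSum
  rw [← Finset.sum_filter_not_add_sum_filter Finset.univ (fun e : Sym2 (Option κ) => none ∈ e)]
  congr 1
  · symm
    refine Finset.sum_nbij (Sym2.map some) ?_ ?_ ?_ ?_
    · intro e _
      rw [Finset.mem_filter]
      refine ⟨Finset.mem_univ _, ?_⟩
      rw [Sym2.mem_map]
      rintro ⟨x, _, hx⟩
      exact absurd hx (by simp)
    · intro e _ e' _ h
      exact Sym2.map.injective (Option.some_injective _) h
    · intro e he
      have he' := (Finset.mem_filter.1 he).2
      clear he
      induction e using Sym2.ind with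
      | _ x y =>
      rw [Sym2.mem_iff] at he'
      push Not at he'
      obtain ⟨x, rfl⟩ := Option.ne_none_iff_exists'.1 he'.1.symm
      obtain ⟨y, rfl⟩ := Option.ne_none_iff_exists'.1 he'.2.symm
      exact ⟨s(x, y), Finset.mem_coe.2 (Finset.mem_univ _), rfl⟩
    · intro e _
      have h := isDiag_map_iff (Option.some_injective κ) e
      by_cases he : e.IsDiag
      · rw [if_pos he, if_pos (h.2 he)]
      · rw [if_neg he, if_neg (fun h' => he (h.1 h'))]
  · have h1 : ∑ q : κ, F s(none, some q) =
        ∑ o : Option κ, if (s(none, o) : Sym2 (Option κ)).IsDiag then 0 else F s(none, o) := by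
      rw [Fintype.sum_option, if_pos (by rw [Sym2.mk_isDiag_iff]), zero_add]
      refine Finset.sum_congr rfl fun q _ => ?_
      rw [if_neg (by rw [Sym2.mk_isDiag_iff]; simp)]
    rw [h1]
    symm
    refine Finset.sum_nbij (fun o => s(none, o)) ?_ ?_ ?_ ?_
    · intro o _
      rw [Finset.mem_filter]
      exact ⟨Finset.mem_univ _, by simp⟩
    · intro o _ o' _ h
      exact Sym2.congr_right.1 h
    · intro e he
      have he' := (Finset.mem_filter.1 he).2
      obtain ⟨y, hy⟩ := he'
      exact ⟨y, Finset.mem_coe.2 (Finset.mem_univ _), hy.symm⟩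
    · intro o _
      by_cases ho : (s(none, o) : Sym2 (Option κ)).IsDiag
      · rw [if_pos ho, if_pos ho]
      · rw [if_neg ho, if_neg ho]

theorem SAT4_fC {κ : Type} [Fintype V] (a : V → ι) (L0 : SimpleGraph V) (c : ι → κ)
    (e : Sym2 κ) : fC (aT a) L0 (Option.map c) (Sym2.map some e) = fC a L0 c e := by
  refine fC_eq_fC fun f => ?_
  have h : Sym2.map (fun x => Option.map c (aT a x)) f =
      Sym2.map some (Sym2.map (fun x => c (a x)) f) := by
    rw [Sym2.map_map]
    rfl
  rw [h]
  constructor
  · rintro ⟨h1, h2⟩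
    exact ⟨h1, Sym2.map.injective (Option.some_injective _) h2⟩
  · rintro ⟨h1, h2⟩
    exact ⟨h1, by rw [h2]⟩

theorem SAT4_dC {κ : Type} [Fintype V] (a b : V → ι) (c : ι → κ) {x y z : V}
    (hx : a x = b x) (hy : a y = b y) (hz : a z = b z) (e : Sym2 κ) (he : ¬ e.IsDiag) :
    dC (aT a) (bT b x y z) (Option.map c) (Sym2.map some e) = dC a b c e := by
  classical
  refine dC_eq_dC fun w => ?_
  by_cases hw : w = x ∨ w = y ∨ w = z
  · have hb : bT b x y z w = none := if_pos hw
    rw [hb]
    constructor
    · intro h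
      exfalso
      have h1 : none ∈ Sym2.map some e := by
        rw [← h]
        exact Sym2.mem_mk_right _ _
      rw [Sym2.mem_map] at h1
      obtain ⟨u, _, hu⟩ := h1
      exact absurd hu (by simp)
    · intro h
      exfalso
      apply he
      rw [← h, Sym2.mk_isDiag_iff]
      rcases hw with rfl | rfl | rfl
      · rw [hx]
      · rw [hy]
      · rw [hz]
  · have hb : bT b x y z w = some (b w) := if_neg hw
    rw [hb]
    have h1 : (s(Option.map c (aT a w), Option.map c (some (b w))) : Sym2 (Option κ)) =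
        Sym2.map some s(c (a w), c (b w)) := rfl
    rw [h1]
    exact ⟨fun h => Sym2.map.injective (Option.some_injective _) h, fun h => by rw [h]⟩

open Classical in
theorem SAT4_pc {κ : Type} [Fintype V] (a b : V → ι) (L0 : SimpleGraph V) (c : ι → κ)
    {x y z : V} (hxy : x ≠ y) (hyz : y ≠ z) (hxz : x ≠ z) (h1 : c (a x) ≠ c (a y))
    (h2 : c (a y) ≠ c (a z)) (h3 : c (a x) ≠ c (a z)) (q : κ) :
    pc (aT a) (bT b x y z) L0 (Option.map c) s(none, some q) =
      (if q = c (a x) then 3 else 0) + (if q = c (a y) then 3 else 0) +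
        (if q = c (a z) then 3 else 0) := by
  have hf : fC (aT a) L0 (Option.map c) s(none, some q) = 0 := by
    refine fC_eq_zero fun f _ hf => ?_
    have h4 : none ∈ Sym2.map (fun x => Option.map c (aT a x)) f := by
      rw [hf]
      exact Sym2.mem_mk_left _ _
    rw [Sym2.mem_map] at h4
    obtain ⟨u, _, hu⟩ := h4
    exact absurd hu (by simp [aT])
  have hd : dC (aT a) (bT b x y z) (Option.map c) s(none, some q) =
      (Finset.univ.filter fun w : V => (w = x ∨ w = y ∨ w = z) ∧ c (a w) = q).card := by
    refine dC_eq_card (fun w : V => (w = x ∨ w = y ∨ w = z) ∧ c (a w) = q) fun w => ?_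
    by_cases hw : w = x ∨ w = y ∨ w = z
    · have hb : bT b x y z w = none := if_pos hw
      rw [hb]
      change (s(some (c (a w)), none) : Sym2 (Option κ)) = s(none, some q) ↔ _
      rw [Sym2.eq_swap, Sym2.congr_right]
      simp [hw]
    · have hb : bT b x y z w = some (b w) := if_neg hw
      rw [hb]
      change (s(some (c (a w)), some (c (b w))) : Sym2 (Option κ)) = s(none, some q) ↔ _
      rw [Sym2.eq_iff]
      simp [hw]
  unfold pc
  rw [hf, hd]
  by_cases e1 : q = c (a x)
  · have : (Finset.univ.filter fun w : V => (w = x ∨ w = y ∨ w = z) ∧ c (a w) = q) = {x} := by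
      ext w
      simp only [Finset.mem_filter, Finset.mem_univ, true_and, Finset.mem_singleton]
      constructor
      · rintro ⟨rfl | rfl | rfl, h⟩
        · rfl
        · exact absurd (by rw [h, e1]) h1
        · exact absurd (by rw [h, e1]) h3
      · rintro rfl
        exact ⟨Or.inl rfl, e1.symm⟩
    rw [this, Finset.card_singleton, if_pos e1, if_neg (by rw [e1]; exact h1),
      if_neg (by rw [e1]; exact h3)]
    simp [hh]
  by_cases e2 : q = c (a y)
  · have : (Finset.univ.filter fun w : V => (w = x ∨ w = y ∨ w = z) ∧ c (a w) = q) = {y} := by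
      ext w
      simp only [Finset.mem_filter, Finset.mem_univ, true_and, Finset.mem_singleton]
      constructor
      · rintro ⟨rfl | rfl | rfl, h⟩
        · exact absurd h.symm e1
        · rfl
        · exact absurd (by rw [h, e2]) h2
      · rintro rfl
        exact ⟨Or.inr (Or.inl rfl), e2.symm⟩
    rw [this, Finset.card_singleton, if_neg e1, if_pos e2, if_neg (by rw [e2]; exact h2)]
    simp [hh]
  by_cases e3 : q = c (a z)
  · have : (Finset.univ.filter fun w : V => (w = x ∨ w = y ∨ w = z) ∧ c (a w) = q) = {z} := by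
      ext w
      simp only [Finset.mem_filter, Finset.mem_univ, true_and, Finset.mem_singleton]
      constructor
      · rintro ⟨rfl | rfl | rfl, h⟩
        · exact absurd h.symm e1
        · exact absurd h.symm e2
        · rfl
      · rintro rfl
        exact ⟨Or.inr (Or.inr rfl), e3.symm⟩
    rw [this, Finset.card_singleton, if_neg e1, if_neg e2, if_pos e3]
    simp [hh]
  · have : (Finset.univ.filter fun w : V => (w = x ∨ w = y ∨ w = z) ∧ c (a w) = q) = ∅ := by
      refine Finset.eq_empty_of_forall_notMem fun w hw => ?_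
      obtain ⟨h, h'⟩ := (Finset.mem_filter.1 hw).2
      rcases h with rfl | rfl | rfl
      · exact e1 h'.symm
      · exact e2 h'.symm
      · exact e3 h'.symm
    rw [this, Finset.card_empty, if_neg e1, if_neg e2, if_neg e3]
    simp [hh]

theorem SAT4_sum {κ : Type} [Fintype κ] [Fintype V] (a b : V → ι) (L0 : SimpleGraph V) (c : ι → κ)
    {x y z : V} (hxy : x ≠ y) (hyz : y ≠ z) (hxz : x ≠ z) (h1 : c (a x) ≠ c (a y))
    (h2 : c (a y) ≠ c (a z)) (h3 : c (a x) ≠ c (a z)) :
    ∑ q : κ, pc (aT a) (bT b x y z) L0 (Option.map c) s(none, some q) = 9 := by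
  classical
  have e2 : ∀ q : κ, pc (aT a) (bT b x y z) L0 (Option.map c)
      s(none, some q) = (if q = c (a x) then 3 else 0) +
        (if q = c (a y) then 3 else 0) + (if q = c (a z) then 3 else 0) := by
    intro q
    convert SAT4_pc a b L0 c hxy hyz hxz h1 h2 h3 q
  rw [Finset.sum_congr rfl fun q _ => e2 q]
  rw [Finset.sum_add_distrib, Finset.sum_add_distrib, Finset.sum_ite_eq' Finset.univ,
    Finset.sum_ite_eq' Finset.univ, Finset.sum_ite_eq' Finset.univ, if_pos (Finset.mem_univ _),
    if_pos (Finset.mem_univ _), if_pos (Finset.mem_univ _)]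
  norm_num

/-- The three joints of the new body cost nine. -/
theorem valB_T [Fintype ι] [Fintype V] (a b : V → ι) (L0 : SimpleGraph V) (r : Setoid ι)
    {x y z : V} (hxy : x ≠ y) (hyz : y ≠ z) (hxz : x ≠ z) (hx : a x = b x) (hy : a y = b y)
    (hz : a z = b z) (h1 : ¬ r (a x) (a y)) (h2 : ¬ r (a y) (a z)) (h3 : ¬ r (a x) (a z)) :
    valB (aT a) (bT b x y z) L0 (rT r) = valB a b L0 r - 3 := by

  classical
  have hsurj : Function.Surjective (Option.map (Quotient.mk r)) := by
    intro o
    cases o with
    | none => exact ⟨none, rfl⟩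
    | some q =>
      obtain ⟨i, rfl⟩ := Quotient.exists_rep q
      exact ⟨some i, rfl⟩
  have hker : ∀ i j, rT r i j ↔ Option.map (Quotient.mk r) i = Option.map (Quotient.mk r) j := by
    intro i j
    constructor
    · rintro (⟨h, h'⟩ | ⟨u, v, h, h', huv⟩)
      · rw [h, h']
      · rw [h, h']
        change some _ = some _
        congr 1
        exact Quotient.sound huv
    · intro h
      cases i with
      | none =>
        cases j with
        | none => exact Or.inl ⟨rfl, rfl⟩
        | some j => exact absurd h (by simp)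
      | some i =>
        cases j with
        | none => exact absurd h (by simp)
        | some j =>
          exact Or.inr ⟨i, j, rfl, rfl, Quotient.exact (Option.some_injective _ h)⟩
  rw [valB_ker _ _ _ (Option.map (Quotient.mk r)) hsurj (rT r) hker, valB_mk a b L0 r,
    Fintype.card_option, cost_eq, cost_eq,
    ndSum_option]
  have e1 : ndSum (fun e => pc (aT a) (bT b x y z) L0 (Option.map (Quotient.mk r))
      (Sym2.map some e)) = ndSum (pc a b L0 (Quotient.mk r)) := by
    refine ndSum_congr fun e he => ?_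
    unfold pc
    rw [SAT4_dC a b (Quotient.mk r) hx hy hz e he, SAT4_fC]
  rw [e1, SAT4_sum a b L0 (Quotient.mk r) hxy hyz hxz (fun h => h1 (Quotient.exact h))
      (fun h => h2 (Quotient.exact h)) (fun h => h3 (Quotient.exact h))]
  push_cast
  ring

end

end Pool.Agent.BJ
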