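import Pool.Agent.Lib.MP_37c7bf_BJ.Cyc
import Pool.Agent.Lib.MP_37c7bf_BJ.Sat
import Pool.Agent.Lib.MP_37c7bf_BJ.Translate

/-!
A triangle of bars replaced by a body.
-/

open MeasureTheory Module Topology
open scoped RealInnerProductSpace

namespace Pool.Agent.BJ

open Pool.Agent.H26R (E3 crossE)

lemma tri_c0 (a x : E3) : crossE a x 0 = a 1 * x 2 - a 2 * x 1 := by simp [crossE]
lemma tri_c1 (a x : E3) : crossE a x 1 = a 2 * x 0 - a 0 * x 2 := by simp [crossE]
lemma tri_c2 (a x : E3) : crossE a x 2 = a 0 * x 1 - a 1 * x 0 := by simp [crossE]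

lemma tri_ext {x y : E3} (h0 : x 0 = y 0) (h1 : x 1 = y 1) (h2 : x 2 = y 2) : x = y := by
  ext k
  fin_cases k
  · exact h0
  · exact h1
  · exact h2

/-- Solving for the rotation vector of a triangle. -/
lemma tri_solve (d e P Q : E3) (hn : crossE d e ≠ 0)
    (h1 : ⟪P, d⟫ = 0) (h2 : ⟪Q, e⟫ = 0) (h3 : ⟪P, e⟫ + ⟪Q, d⟫ = 0) :
    ∃ ω : E3, crossE ω d = P ∧ crossE ω e = Q := by
  have hN : ⟪crossE d e, crossE d e⟫ ≠ 0 := fun h => hn (inner_self_eq_zero.1 h)
  rw [Pool.Agent.H26R.inner_E3] at h1 h2 h3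
  rw [Pool.Agent.H26R.inner_E3] at h3
  refine ⟨(⟪crossE d e, crossE d e⟫)⁻¹ • (⟪Q, crossE d e⟫ • d - ⟪P, crossE d e⟫ • e +
    ⟪P, e⟫ • crossE d e), ?_, ?_⟩
  · rw [Pool.Agent.H26R.crossE_smul_left, inv_smul_eq_iff₀ hN]
    apply tri_ext <;>
    simp only [tri_c0, tri_c1, tri_c2, PiLp.add_apply, PiLp.sub_apply, PiLp.smul_apply, smul_eq_mul,
      Pool.Agent.H26R.inner_E3]
    · linear_combination (-(e 1 * (d 0 * e 1 - d 1 * e 0) - e 2 * (d 2 * e 0 - d 0 * e 2))) * h1
    · linear_combination (-(e 2 * (d 1 * e 2 - d 2 * e 1) - e 0 * (d 0 * e 1 - d 1 * e 0))) * h1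
    · linear_combination (-(e 0 * (d 2 * e 0 - d 0 * e 2) - e 1 * (d 1 * e 2 - d 2 * e 1))) * h1
  · rw [Pool.Agent.H26R.crossE_smul_left, inv_smul_eq_iff₀ hN]
    apply tri_ext <;>
    simp only [tri_c0, tri_c1, tri_c2, PiLp.add_apply, PiLp.sub_apply, PiLp.smul_apply, smul_eq_mul,
      Pool.Agent.H26R.inner_E3]
    · linear_combination (-(e 1 * (d 0 * e 1 - d 1 * e 0) - e 2 * (d 2 * e 0 - d 0 * e 2))) * h3 -
        (((d 2 * e 0 - d 0 * e 2) * d 2 - (d 0 * e 1 - d 1 * e 0) * d 1)) * h2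
    · linear_combination (-(e 2 * (d 1 * e 2 - d 2 * e 1) - e 0 * (d 0 * e 1 - d 1 * e 0))) * h3 -
        (((d 0 * e 1 - d 1 * e 0) * d 0 - (d 1 * e 2 - d 2 * e 1) * d 2)) * h2
    · linear_combination (-(e 0 * (d 2 * e 0 - d 0 * e 2) - e 1 * (d 1 * e 2 - d 2 * e 1))) * h3 -
        (((d 1 * e 2 - d 2 * e 1) * d 1 - (d 2 * e 0 - d 0 * e 2) * d 0)) * h2

lemma tri_crossE_ne {d e : E3} (h : LinearIndependent ℝ ![d, e]) : crossE d e ≠ 0 := by
  intro h0
  rw [LinearIndependent.pair_iff] at h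
  have he : e ≠ 0 := by
    rintro rfl
    have := h 0 1 (by simp)
    exact one_ne_zero this.2
  obtain ⟨c, hc⟩ := exists_smul_of_crossE he h0
  have := h 1 (-c) (by rw [hc, one_smul, neg_smul, add_neg_cancel])
  exact one_ne_zero this.1

/-- Three velocities satisfying the three bar equations of a triangle come from one motion. -/
lemma tri_motion {X Y Z' vx vy vz : E3} (hp : LinearIndependent ℝ ![Y - X, Z' - X])
    (hxy : ⟪vx - vy, X - Y⟫ = 0) (hyz : ⟪vy - vz, Y - Z'⟫ = 0) (hxz : ⟪vx - vz, X - Z'⟫ = 0) :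
    ∃ T : Kil, ev X T = vx ∧ ev Y T = vy ∧ ev Z' T = vz := by
  have h1 : ⟪vy - vx, Y - X⟫ = 0 := by
    rw [← neg_sub vx vy, ← neg_sub X Y, inner_neg_neg]; exact hxy
  have h2 : ⟪vz - vx, Z' - X⟫ = 0 := by
    rw [← neg_sub vx vz, ← neg_sub X Z', inner_neg_neg]; exact hxz
  have h3 : ⟪vy - vx, Z' - X⟫ + ⟪vz - vx, Y - X⟫ = 0 := by
    have e1 : vy - vz = (vy - vx) - (vz - vx) := by abel
    have e2 : Y - Z' = (Y - X) - (Z' - X) := by abel
    rw [e1, e2, inner_sub_left, inner_sub_right (vy - vx) (Y - X) (Z' - X),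
      inner_sub_right (vz - vx) (Y - X) (Z' - X), h1, h2] at hyz
    linarith
  obtain ⟨ω, hω1, hω2⟩ := tri_solve _ _ _ _ (tri_crossE_ne hp) h1 h2 h3
  have e0 : ∀ W : E3, crossE ω W = crossE ω (W - X) + crossE ω X := by
    intro W
    rw [← Pool.Agent.H26R.crossE_add_right, sub_add_cancel]
  refine ⟨(ω, vx - crossE ω X), ?_, ?_, ?_⟩
  · rw [ev_apply]; simp
  · rw [ev_apply, e0 Y]
    simp only
    rw [hω1]; abel
  · rw [ev_apply, e0 Z']
    simp only
    rw [hω2]; abel

lemma tri_stable_and {J : Type} [DecidableEq J] {Q1 Q2 : (J → E3) → Prop} (h1 : Stable Q1)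
    (h2 : Stable Q2) : Stable fun p => Q1 p ∧ Q2 p :=
  fun p hp j => (h1 p hp.1 j).and (h2 p hp.2 j)

lemma tri_exists_and {J : Type} [Finite J] [DecidableEq J] {Q1 Q2 : (J → E3) → Prop}
    (h1 : Stable Q1) (h2 : Stable Q2) (e1 : ∃ p, Q1 p) (e2 : ∃ p, Q2 p) : ∃ p, Q1 p ∧ Q2 p := by
  obtain ⟨p, hp⟩ := exists_common (C := Bool) (fun c p => if c = true then Q1 p else Q2 p)
    (by
      rintro (_ | _)
      · simpa using h2
      · simpa using h1)
    (by
      rintro (_ | _)
      · simpa using e2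
      · simpa using e1)
  exact ⟨p, by simpa using hp true, by simpa using hp false⟩

/-- Non-collinearity in terms of linear independence. -/
lemma tri_linInd {X Y Z' : E3}
    (h : ∀ S : Kil, ev X S = 0 → ev Y S = 0 → ev Z' S = 0 → S = 0) :
    LinearIndependent ℝ ![Y - X, Z' - X] := by
  by_contra hcon
  obtain ⟨u, hu, h1, h2⟩ : ∃ u : E3, u ≠ 0 ∧ crossE u (Y - X) = 0 ∧ crossE u (Z' - X) = 0 := by
    by_cases hd : Y - X = 0
    · by_cases he : Z' - X = 0
      · refine ⟨EuclideanSpace.single 0 1, ?_, ?_, ?_⟩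
        · intro h0
          have := congrArg (fun z : E3 => z 0) h0
          simp at this
        · rw [hd, crossE_zero_right]
        · rw [he, crossE_zero_right]
      · exact ⟨Z' - X, he, by rw [hd, crossE_zero_right], crossE_self _⟩
    · refine ⟨Y - X, hd, crossE_self _, ?_⟩
      by_contra hne
      apply hcon
      rw [LinearIndependent.pair_iff]
      intro s t hst
      have h3 : crossE (Y - X) (s • (Y - X) + t • (Z' - X)) = 0 := by
        rw [hst, crossE_zero_right]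
      rw [Pool.Agent.H26R.crossE_add_right, Pool.Agent.H26R.crossE_smul_right,
        Pool.Agent.H26R.crossE_smul_right, crossE_self, smul_zero, zero_add] at h3
      have ht : t = 0 := (smul_eq_zero.1 h3).resolve_right hne
      rw [ht, zero_smul, add_zero] at hst
      exact ⟨(smul_eq_zero.1 hst).resolve_right hd, ht⟩
  have key : ∀ W : E3, crossE u (W - X) = 0 → ev W ((u, -crossE u X) : Kil) = 0 := by
    intro W hW
    rw [ev_apply]
    have e0 : crossE u W = crossE u (W - X) + crossE u X := by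
      rw [← Pool.Agent.H26R.crossE_add_right, sub_add_cancel]
    simp only
    rw [e0, hW]
    abel
  have h3 := h ((u, -crossE u X) : Kil) (key X (by rw [sub_self, crossE_zero_right]))
    (key Y h1) (key Z' h2)
  exact hu (congrArg Prod.fst h3)

section
variable {ι V : Type} [Fintype ι] [Fintype V]

/-- Every motion of the structure with the triangle of bars extends to the new body. -/
theorem tri_extend (a b : V → ι) (L : SimpleGraph V) (r : Setoid ι) {x y z : V}
    (hL : ∀ u w, L.Adj u w → a u = b u)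
    (hxy : L.Adj x y) (hyz : L.Adj y z) (hxz : L.Adj x z) {p : V → E3}
    (hp : LinearIndependent ℝ ![p y - p x, p z - p x]) {S : ι → Kil} (hS : S ∈ ZB a b L r p) :
    ∃ S' ∈ ZB (aT a) (bT b x y z) (L.deleteEdges {s(x, y), s(y, z), s(x, z)}) (rT r) p,
      ∀ i, S' (some i) = S i := by
  have _ := hL
  obtain ⟨⟨hS1, hS2⟩, hS3⟩ := hS
  obtain ⟨T, hTx, hTy, hTz⟩ := tri_motion hp (hS3 x y hxy) (hS3 y z hyz) (hS3 x z hxz)
  refine ⟨fun o => o.elim T S, ⟨⟨?_, ?_⟩, ?_⟩, fun i => rfl⟩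
  · rintro u v (⟨rfl, rfl⟩ | ⟨u', v', rfl, rfl, h⟩)
    · rfl
    · exact hS1 u' v' h
  · intro j _
    unfold aT bT
    simp only [Option.elim_some]
    by_cases hj : j = x ∨ j = y ∨ j = z
    · rw [if_pos hj]
      simp only [Option.elim_none]
      rcases hj with rfl | rfl | rfl
      · exact hTx.symm
      · exact hTy.symm
      · exact hTz.symm
    · rw [if_neg hj]
      exact hS2 j (Finset.mem_univ j)
  · intro u v huv
    exact hS3 u v (SimpleGraph.deleteEdges_adj.1 huv).1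

omit [Fintype V] in
lemma tri_exists_nonCol [DecidableEq V] {x y z : V} (hxy : x ≠ y) (hyz : y ≠ z) (hxz : x ≠ z) :
    ∃ p : V → E3, ∀ S : Kil, (∀ w ∈ ({x, y, z} : Finset V), ev (p w) S = 0) → S = 0 := by
  apply exists_nonColAt
  rw [Finset.card_eq_three.2 ⟨x, y, z, hxy, hxz, hyz, rfl⟩]

/-- Deleting a bar changes the dimension by at most one. -/
lemma tri_del_one (a b : V → ι) (L : SimpleGraph V) (r : Setoid ι) {x y : V} (hxy : L.Adj x y) :
    zB a b (L.deleteEdges {s(x, y)}) r ≤ zB a b L r + 1 := by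
  obtain ⟨p, hp⟩ := exists_goodB a b
  rw [← hp, ← hp]
  let l : (ι → Kil) →ₗ[ℝ] ℝ := barf (p x) (p y) (a x) (a y)
  have h1 : ZB a b L r p = ZB a b (L.deleteEdges {s(x, y)}) r p ⊓ LinearMap.ker l := by
    ext S
    rw [mem_ZB_del hxy, Submodule.mem_inf, LinearMap.mem_ker, barf_apply]
  have h2 := finrank_map_inf_ker (ZB a b (L.deleteEdges {s(x, y)}) r p) LinearMap.id l
  rw [Submodule.map_id, Submodule.map_id, ← h1] at h2
  exact h2

/-- If all motions agree on two bodies which are not welded, welding does not change the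
dimension. -/
lemma tri_no_agree {a b : V → ι} {L : SimpleGraph V} {r : Setoid ι} {p : V → E3}
    (hp : GoodB a b p) (hweld : ∀ s, r < s → zB a b L s < zB a b L r) {i j : ι} (hij : ¬ r i j)
    (h : ∀ S ∈ ZB a b L r p, S i = S j) : False := by
  have h1 : ZB a b L r p ≤ ZB a b L (weld r i j) p := fun S hS =>
    mem_ZB_weld.2 ⟨hS, h S hS⟩
  have h2 := Submodule.finrank_mono h1
  rw [hp, hp] at h2
  exact absurd (hweld _ (lt_weld hij)) (not_lt.2 h2)

/-- Step (b): a point of the triangle which is fixed relative to a body. -/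
lemma tri_leaf (a b : V → ι) (L : SimpleGraph V) (r : Setoid ι) {w w' w'' : V}
    (hL : ∀ u w, L.Adj u w → a u = b u) (h' : L.Adj w w') (h'' : L.Adj w w'')
    (hne : w' ≠ w'') (hw : ∀ u, L.Adj w u → u = w' ∨ u = w'')
    (hweld : ∀ s, r < s → zB a b L s < zB a b L r)
    (hred : zB a b (L.deleteEdges {s(w, w')}) r = zB a b L r) {i : ι} (hi : ¬ r i (a w))
    {p : V → E3} (hp : GoodB a b p) (hpG : GoodG ι p)
    (h : ∀ S ∈ ZB a b L r p, ev (p w) (S i) = ev (p w) (S (a w))) : False := by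
  set L' := L.deleteEdges {s(w, w')} with hL'
  have hle' : L' ≤ L := SimpleGraph.deleteEdges_le _
  have hZ : ZB a b L r p = ZB a b L' r p := by
    apply Submodule.eq_of_le_of_finrank_eq (ZB_mono hle' le_rfl)
    rw [hp, hp, hred]
  let L'' : SimpleGraph V := L'.deleteEdges {e | w ∈ e}
  have hle'' : L'' ≤ L' := SimpleGraph.deleteEdges_le _
  have hL''w : ∀ u v, L''.Adj u v → u ≠ w ∧ v ≠ w := by
    intro u v huv
    have h1 := (SimpleGraph.deleteEdges_adj.1 huv).2
    constructor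
    · rintro rfl
      exact h1 (Sym2.mem_mk_left _ _)
    · rintro rfl
      exact h1 (Sym2.mem_mk_right _ _)
  have hadj : L'.Adj w w'' := by
    rw [hL', SimpleGraph.deleteEdges_adj]
    refine ⟨h'', fun h1 => ?_⟩
    rcases Sym2.eq_iff.1 (Set.mem_singleton_iff.1 h1) with ⟨-, h2⟩ | ⟨h2, -⟩
    · exact hne h2.symm
    · exact h'.ne h2
  have hadj' : ∀ u, L'.Adj w u → u = w'' := by
    intro u hu
    rw [hL', SimpleGraph.deleteEdges_adj] at hu
    rcases hw u hu.1 with rfl | h1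
    · exact absurd rfl hu.2
    · exact h1
  have hmem : ∀ q : V → E3, ∀ S, S ∈ ZG (insert (.bar w w'' (a w) (a w'')) (con a b L'' r)) q ↔
      S ∈ ZB a b L' r q := by
    intro q S
    have h1 : S ∈ ZG (insert (.bar w w'' (a w) (a w'')) (con a b L'' r)) q ↔
        (w ≠ w'' → ⟪ev (q w) (S (a w)) - ev (q w'') (S (a w'')), q w - q w''⟫ = 0) ∧
        S ∈ ZB a b L'' r q := by
      rw [ZB_eq_ZG, mem_ZG, mem_ZG]
      constructor
      · intro h2
        exact ⟨h2 _ (Set.mem_insert _ _), fun c hc => h2 c (Set.mem_insert_of_mem _ hc)⟩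
      · rintro ⟨h2, h3⟩ c hc
        rcases Set.mem_insert_iff.1 hc with rfl | hc
        · exact h2
        · exact h3 c hc
    rw [h1]
    constructor
    · rintro ⟨h2, h3⟩
      refine ⟨h3.1, fun u v huv => ?_⟩
      by_cases hu : u = w
      · subst hu
        obtain rfl := hadj' v huv
        exact h2 huv.ne
      · by_cases hv : v = w
        · subst hv
          obtain rfl := hadj' u huv.symm
          rw [bar_symm]
          exact h2 huv.symm.ne
        · apply h3.2 u v
          refine SimpleGraph.deleteEdges_adj.2 ⟨huv, fun hm => ?_⟩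
          rcases Sym2.mem_iff.1 hm with h4 | h4
          · exact hu h4.symm
          · exact hv h4.symm
    · intro h2
      exact ⟨fun _ => h2.2 w w'' hadj, ZB_mono hle'' le_rfl h2⟩
  have hav : ∀ c ∈ con a b L'' r, c.Avoids w := by
    rintro c (⟨u, v, -, rfl⟩ | ⟨u, rfl⟩ | ⟨u, v, huv, rfl⟩)
    · trivial
    · by_cases hu : u = w
      · subst hu
        exact Or.inr (hL u w' h')
      · exact Or.inl hu
    · exact hL''w u v huv
  have hImp : Imp (insert (.bar w w'' (a w) (a w'')) (con a b L'' r)) {.joint w i (a w)} := by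
    apply Imp.of_one hpG
    intro S hS
    rw [hmem p S, ← hZ] at hS
    intro c hc
    obtain rfl := Set.mem_singleton_iff.1 hc
    exact h S hS
  have hImp' := leaf1 h''.ne hav hImp p hpG
  refine tri_no_agree hp hweld hi fun S hS => ?_
  rw [hZ, ← hmem p S] at hS
  exact hImp' hS _ (Set.mem_singleton _)

/-- The contradiction in the case of a triangle of bars. -/
theorem tri (a b : V → ι) (L : SimpleGraph V) (r : Setoid ι) {x y z : V}
    (hL : ∀ u w, L.Adj u w → a u = b u)
    (hxy : L.Adj x y) (hyz : L.Adj y z) (hxz : L.Adj x z)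
    (hx : ∀ w, L.Adj x w → w = y ∨ w = z) (hy : ∀ w, L.Adj y w → w = x ∨ w = z)
    (hz : ∀ w, L.Adj z w → w = x ∨ w = y)
    (h1 : ¬ r (a x) (a y)) (h2 : ¬ r (a y) (a z)) (h3 : ¬ r (a x) (a z))
    (hweld : ∀ s, r < s → zB a b L s < zB a b L r)
    (hred : ∀ u w, L.Adj u w → zB a b (L.deleteEdges {s(u, w)}) r = zB a b L r)
    (hIH : ∃ s', rT r ≤ s' ∧
      (zB (aT a) (bT b x y z) (L.deleteEdges {s(x, y), s(y, z), s(x, z)}) (rT r) : ℤ) ≤
        valB (aT a) (bT b x y z) (L.deleteEdges {s(x, y), s(y, z), s(x, z)}) s') : False := by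
  classical
  obtain ⟨s', hs', hval⟩ := hIH
  set L0 := L.deleteEdges {s(x, y), s(y, z), s(x, z)} with hL0
  -- the chain of deletions
  have hchain : L0 = ((L.deleteEdges {s(x, y)}).deleteEdges {s(y, z)}).deleteEdges {s(x, z)} := by
    rw [SimpleGraph.deleteEdges_deleteEdges, SimpleGraph.deleteEdges_deleteEdges, hL0]
    congr 1
  have hyz1 : (L.deleteEdges {s(x, y)}).Adj y z := by
    rw [SimpleGraph.deleteEdges_adj]
    refine ⟨hyz, fun h => ?_⟩
    rcases Sym2.eq_iff.1 (Set.mem_singleton_iff.1 h) with ⟨h4, -⟩ | ⟨-, h4⟩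
    · exact hxy.ne h4.symm
    · exact hxz.ne h4.symm
  have hxz1 : ((L.deleteEdges {s(x, y)}).deleteEdges {s(y, z)}).Adj x z := by
    rw [SimpleGraph.deleteEdges_adj, SimpleGraph.deleteEdges_adj]
    refine ⟨⟨hxz, fun h => ?_⟩, fun h => ?_⟩
    · rcases Sym2.eq_iff.1 (Set.mem_singleton_iff.1 h) with ⟨-, h4⟩ | ⟨h4, -⟩
      · exact hyz.ne h4.symm
      · exact hxy.ne h4
    · rcases Sym2.eq_iff.1 (Set.mem_singleton_iff.1 h) with ⟨h4, -⟩ | ⟨h4, -⟩
      · exact hxy.ne h4
      · exact hxz.ne h4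
  have hdim : zB a b L0 r ≤ zB a b L r + 2 := by
    have e1 := hred x y hxy
    have e2 := tri_del_one a b _ r hyz1
    have e3 := tri_del_one a b _ r hxz1
    rw [← hchain] at e3
    omega
  have hadj0 : ∀ u w, L0.Adj u w → u ≠ x ∧ u ≠ y ∧ u ≠ z := by
    intro u w huw
    rw [hL0, SimpleGraph.deleteEdges_adj] at huw
    obtain ⟨h4, h5⟩ := huw
    simp only [Set.mem_insert_iff, Set.mem_singleton_iff, not_or] at h5
    refine ⟨?_, ?_, ?_⟩
    · rintro rfl
      rcases hx w h4 with rfl | rfl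
      · exact h5.1 rfl
      · exact h5.2.2 rfl
    · rintro rfl
      rcases hy w h4 with rfl | rfl
      · exact h5.1 Sym2.eq_swap
      · exact h5.2.1 rfl
    · rintro rfl
      rcases hz w h4 with rfl | rfl
      · exact h5.2.2 Sym2.eq_swap
      · exact h5.2.1 Sym2.eq_swap
  have hL' : ∀ u w, L0.Adj u w → aT a u = bT b x y z u := by
    intro u w huw
    obtain ⟨h4, h5, h6⟩ := hadj0 u w huw
    unfold aT bT
    rw [if_neg (by tauto), hL u w (SimpleGraph.deleteEdges_le _ huw)]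
  -- a good position
  obtain ⟨p, ⟨hp, hp'⟩, hpG, hcol⟩ := tri_exists_and
    (tri_stable_and (GoodB.stable a b) (GoodB.stable (aT a) (bT b x y z)))
    (tri_stable_and (GoodG.stable (ι := ι) (V := V)) (stable_nonColAt {x, y, z}))
    (tri_exists_and (GoodB.stable a b) (GoodB.stable (aT a) (bT b x y z)) (exists_goodB _ _)
      (exists_goodB _ _))
    (tri_exists_and (GoodG.stable (ι := ι) (V := V)) (stable_nonColAt {x, y, z}) exists_goodG
      (tri_exists_nonCol hxy.ne hyz.ne hxz.ne))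
  have hlin : LinearIndependent ℝ ![p y - p x, p z - p x] := by
    apply tri_linInd
    intro S e1 e2 e3
    apply hcol S
    intro w hw
    simp only [Finset.mem_insert, Finset.mem_singleton] at hw
    rcases hw with rfl | rfl | rfl
    · exact e1
    · exact e2
    · exact e3
  -- the partition `s'` is forced
  have hlow := valB_le (aT a) (bT b x y z) L0 hL' s' p
  rw [hp'] at hlow
  have hmono : zB (aT a) (bT b x y z) L0 s' ≤ zB (aT a) (bT b x y z) L0 (rT r) :=
    zB_mono le_rfl hs'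
  have heq : ZB (aT a) (bT b x y z) L0 s' p = ZB (aT a) (bT b x y z) L0 (rT r) p := by
    apply Submodule.eq_of_le_of_finrank_le (ZB_mono le_rfl hs')
    rw [hp', hp']
    exact_mod_cast hval.trans hlow
  have hext : ∀ S ∈ ZB a b L r p, ∃ S' ∈ ZB (aT a) (bT b x y z) L0 s' p,
      ∀ i, S' (some i) = S i := by
    intro S hS
    rw [heq]
    exact tri_extend a b L r hL hxy hyz hxz hlin hS
  have hA : ∀ i j, s' (some i) (some j) → r i j := by
    intro i j hij
    by_contra hcon
    refine tri_no_agree hp hweld hcon fun S hS => ?_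
    obtain ⟨S', hS', hS1⟩ := hext S hS
    rw [← hS1, ← hS1]
    exact hS'.1.1 _ _ hij
  have hB : ∀ i, ¬ s' none (some i) := by
    intro i hi
    have hjoint : ∀ S ∈ ZB a b L r p, ∀ w, (w = x ∨ w = y ∨ w = z) →
        ev (p w) (S i) = ev (p w) (S (a w)) := by
      intro S hS w hw
      obtain ⟨S', hS', hS1⟩ := hext S hS
      have e1 := hS'.1.2 w (Finset.mem_univ w)
      have e2 := hS'.1.1 _ _ hi
      unfold aT bT at e1
      rw [if_pos hw, e2, hS1, hS1] at e1
      exact e1.symm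
    by_cases hix : r i (a x)
    · have hiy : ¬ r i (a y) := fun h => h1 (r.trans (r.symm hix) h)
      exact tri_leaf a b L r hL hxy.symm hyz hxz.ne hy hweld (hred y x hxy.symm) hiy hp hpG
        fun S hS => hjoint S hS y (Or.inr (Or.inl rfl))
    · exact tri_leaf a b L r hL hxy hxz hyz.ne hx hweld (hred x y hxy) hix hp hpG
        fun S hS => hjoint S hS x (Or.inl rfl)
  have hs'' : s' = rT r := by
    refine le_antisymm ?_ hs'
    rintro (_ | i) (_ | j) hij
    · exact Or.inl ⟨rfl, rfl⟩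
    · exact absurd hij (hB j)
    · exact absurd (s'.symm hij) (hB i)
    · exact Or.inr ⟨i, j, rfl, rfl, hA i j hij⟩
  rw [hs'', valB_T a b L0 r hxy.ne hyz.ne hxz.ne (hL x y hxy) (hL y z hyz) (hL z x hxz.symm)
    h1 h2 h3] at hval
  -- the restriction map
  have hres : finrank ℝ (ZB a b L r p) ≤ finrank ℝ (ZB (aT a) (bT b x y z) L0 (rT r) p) := by
    let R : (Option ι → Kil) →ₗ[ℝ] (ι → Kil) := LinearMap.funLeft ℝ Kil some
    have h4 : ZB a b L r p ≤ (ZB (aT a) (bT b x y z) L0 (rT r) p).map R := by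
      intro S hS
      obtain ⟨S', hS', hS1⟩ := hext S hS
      rw [heq] at hS'
      exact ⟨S', hS', funext fun i => hS1 i⟩
    exact (Submodule.finrank_mono h4).trans (Submodule.finrank_map_le _ _)
  rw [hp, hp'] at hres
  have hlow' := valB_le a b L0 (fun u w huw => hL u w (SimpleGraph.deleteEdges_le _ huw)) r p
  rw [hp] at hlow'
  have e1 : (zB a b L r : ℤ) ≤ zB (aT a) (bT b x y z) L0 (rT r) := by exact_mod_cast hres
  have e2 : (zB a b L0 r : ℤ) ≤ zB a b L r + 2 := by exact_mod_cast hdim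
  linarith

end

end Pool.Agent.BJ
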