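import Pool.Agent.Lib.MP_37c7bf_BJ.Affine

/-!
Welding bodies, adding joints: dimensions.
-/

open MeasureTheory Module Topology
open scoped RealInnerProductSpace

namespace Pool.Agent.BJ

open Pool.Agent.H26R (E3 crossE)

section
variable {ι J : Type} {a b : J → ι} {E : Finset J} {r s : Setoid ι} {p : J → E3}

lemma le_weld (r : Setoid ι) (u v : ι) : r ≤ weld r u v := le_sup_left

lemma weld_rel (r : Setoid ι) (u v : ι) : weld r u v u v := by
  have h : (Relation.EqvGen.setoid fun x y => x = u ∧ y = v) ≤ weld r u v := le_sup_right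
  exact h (Relation.EqvGen.rel _ _ ⟨rfl, rfl⟩)

lemma weld_le {u v : ι} (h : r ≤ s) (huv : s u v) : weld r u v ≤ s := by
  refine sup_le h ?_
  apply Setoid.eqvGen_le
  rintro x y ⟨rfl, rfl⟩
  exact huv

lemma lt_weld {u v : ι} (h : ¬ r u v) : r < weld r u v :=
  lt_of_le_not_ge (le_weld r u v) fun h1 => h (h1 (weld_rel r u v))

lemma Z_mono {E' : Finset J} (hE : E ⊆ E') (hr : r ≤ s) : Z a b E' s p ≤ Z a b E r p := by
  rintro S ⟨h1, h2⟩
  exact ⟨fun u v h => h1 u v (hr h), fun j hj => h2 j (hE hj)⟩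

lemma mem_Z_weld {u v : ι} {S : ι → Kil} :
    S ∈ Z a b E (weld r u v) p ↔ S ∈ Z a b E r p ∧ S u = S v := by
  constructor
  · intro h
    exact ⟨Z_mono (Finset.Subset.refl E) (le_weld r u v) h, h.1 u v (weld_rel r u v)⟩
  · rintro ⟨h1, h2⟩
    refine ⟨?_, h1.2⟩
    have h3 : weld r u v ≤ Setoid.ker S :=
      weld_le (fun {x y} h => Setoid.ker_def.2 (h1.1 x y h)) (Setoid.ker_def.2 h2)
    intro x y h
    exact Setoid.ker_def.1 (h3 h)

/-- Positions of inactive joints do not matter. -/
lemma Z_congr {q : J → E3} (h : ∀ j ∈ E, p j = q j) : Z a b E r p = Z a b E r q := by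
  ext S
  rw [mem_Z, mem_Z]
  refine and_congr_right fun _ => ?_
  refine forall₂_congr fun j hj => ?_
  rw [h j hj]

lemma mem_Z_insert [DecidableEq J] {j : J} {S : ι → Kil} :
    S ∈ Z a b (insert j E) r p ↔ S ∈ Z a b E r p ∧ ev (p j) (S (a j) - S (b j)) = 0 := by
  rw [mem_Z, mem_Z, map_sub, sub_eq_zero]
  constructor
  · rintro ⟨h1, h2⟩
    exact ⟨⟨h1, fun i hi => h2 i (Finset.mem_insert_of_mem hi)⟩,
      h2 j (Finset.mem_insert_self j E)⟩
  · rintro ⟨⟨h1, h2⟩, h3⟩
    refine ⟨h1, fun i hi => ?_⟩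
    rcases Finset.mem_insert.1 hi with rfl | hi
    · exact h3
    · exact h2 i hi

lemma mem_U {u v : ι} {T : Kil} : T ∈ U a b E r p u v ↔ ∃ S ∈ Z a b E r p, S u - S v = T := by
  unfold U
  rw [Submodule.mem_map]
  rfl

lemma U_insert [DecidableEq J] {j : J} :
    U a b (insert j E) r p (a j) (b j) =
      U a b E r p (a j) (b j) ⊓ LinearMap.ker (ev (p j)) := by
  ext T
  rw [Submodule.mem_inf, mem_U, mem_U, LinearMap.mem_ker]
  constructor
  · rintro ⟨S, hS, rfl⟩
    rw [mem_Z_insert] at hS
    exact ⟨⟨S, hS.1, rfl⟩, hS.2⟩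
  · rintro ⟨⟨S, hS, rfl⟩, h⟩
    exact ⟨S, mem_Z_insert.2 ⟨hS, h⟩, rfl⟩

lemma card_quotient_lt [Finite ι] (h : r < s) : Nat.card (Quotient s) < Nat.card (Quotient r) := by
  have hle := h.le
  let f : Quotient r → Quotient s := Quotient.map' id fun x y hxy => hle hxy
  have hf : Function.Surjective f := by
    intro y
    induction y using Quotient.inductionOn with
    | h y => exact ⟨Quotient.mk r y, rfl⟩
  rcases (Nat.card_le_card_of_surjective f hf).lt_or_eq with h1 | h1
  · exact h1
  · exfalso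
    have hb := hf.bijective_of_nat_card_le h1.ge
    apply h.not_ge
    intro x y hxy
    have h2 : f (Quotient.mk r x) = f (Quotient.mk r y) := Quotient.sound hxy
    exact Quotient.exact (hb.1 h2)

lemma finrank_KilW : finrank ℝ Kil = 6 := by
  rw [Module.finrank_prod, finrank_euclideanSpace_fin]

lemma finrank_Z_empty [Finite ι] : finrank ℝ (Z a b ∅ r p) = 6 * Nat.card (Quotient r) := by
  have _ := Fintype.ofFinite ι
  let f : (Quotient r → Kil) →ₗ[ℝ] (ι → Kil) :=
    { toFun := fun g u => g (Quotient.mk r u)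
      map_add' := fun _ _ => rfl
      map_smul' := fun _ _ => rfl }
  have hf : Function.Injective f := by
    intro g h hgh
    funext x
    induction x using Quotient.inductionOn with
    | h x => exact congrFun hgh x
  have hr : LinearMap.range f = Z a b ∅ r p := by
    ext S
    rw [LinearMap.mem_range, mem_Z]
    constructor
    · rintro ⟨g, rfl⟩
      refine ⟨fun u v h => ?_, fun j hj => absurd hj (Finset.notMem_empty j)⟩
      have h1 : Quotient.mk r u = Quotient.mk r v := Quotient.sound h
      change g (Quotient.mk r u) = g (Quotient.mk r v)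
      rw [h1]
    · rintro ⟨h1, -⟩
      exact ⟨fun x => Quotient.liftOn x S fun u v h => h1 u v h, rfl⟩
  have _ := Fintype.ofFinite (Quotient r)
  rw [← hr, LinearMap.finrank_range_of_inj hf, Module.finrank_pi_fintype, Finset.sum_const,
    finrank_KilW, Finset.card_univ, Nat.card_eq_fintype_card, smul_eq_mul, mul_comm]

section
variable [Finite ι] [Finite J]

omit [Finite J] in
lemma zdim_mono {E' : Finset J} (hE : E ⊆ E') (hr : r ≤ s) :
    zdim a b E' s ≤ zdim a b E r := by
  have hne : (Set.range fun p : J → E3 => finrank ℝ (Z a b E r p)).Nonempty :=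
    Set.range_nonempty _
  obtain ⟨q, hq⟩ := Nat.sInf_mem hne
  have h1 : zdim a b E' s ≤ finrank ℝ (Z a b E' s q) := Nat.sInf_le ⟨q, rfl⟩
  have h2 : finrank ℝ (Z a b E' s q) ≤ finrank ℝ (Z a b E r q) :=
    Submodule.finrank_mono (Z_mono hE hr)
  have h3 : finrank ℝ (Z a b E r q) = zdim a b E r := hq
  omega

omit [Finite J] in
/-- The dimension splits into the relative motions of `u`, `v` and the motions with `u`, `v`
welded. -/
lemma finrank_Z_eq (u v : ι) :
    finrank ℝ (Z a b E r p) = finrank ℝ (U a b E r p u v) +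
      finrank ℝ (Z a b E (weld r u v) p) := by
  let f : (ι → Kil) →ₗ[ℝ] Kil :=
    LinearMap.proj (R := ℝ) (φ := fun _ : ι => Kil) u - LinearMap.proj v
  have h1 := LinearMap.finrank_range_add_finrank_ker (f.domRestrict (Z a b E r p))
  have h2 : LinearMap.range (f.domRestrict (Z a b E r p)) = U a b E r p u v :=
    LinearMap.range_domRestrict _ _
  have hle : Z a b E (weld r u v) p ≤ Z a b E r p :=
    Z_mono (Finset.Subset.refl E) (le_weld r u v)
  have h3 : LinearMap.ker (f.domRestrict (Z a b E r p)) =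
      (Z a b E (weld r u v) p).comap (Z a b E r p).subtype := by
    ext S
    rw [LinearMap.mem_ker, Submodule.mem_comap, Submodule.subtype_apply, mem_Z_weld]
    change (S : ι → Kil) u - (S : ι → Kil) v = 0 ↔ _
    rw [sub_eq_zero]
    exact ⟨fun h => ⟨S.2, h⟩, fun h => h.2⟩
  have h4 : finrank ℝ ((Z a b E (weld r u v) p).comap (Z a b E r p).subtype) =
      finrank ℝ (Z a b E (weld r u v) p) :=
    (Submodule.comapSubtypeEquivOfLe hle).finrank_eq
  rw [h2, h3, h4] at h1
  exact h1.symm

omit [Finite J] in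
lemma finrank_Z_insert [DecidableEq J] (j : J) :
    finrank ℝ (Z a b (insert j E) r p) =
      finrank ℝ ↥(U a b E r p (a j) (b j) ⊓ LinearMap.ker (ev (p j))) +
        finrank ℝ (Z a b (insert j E) (weld r (a j) (b j)) p) ∧
    Z a b (insert j E) (weld r (a j) (b j)) p = Z a b E (weld r (a j) (b j)) p := by
  constructor
  · rw [finrank_Z_eq (a j) (b j), U_insert]
  · ext S
    rw [mem_Z_insert]
    constructor
    · exact fun h => h.1
    · intro h
      refine ⟨h, ?_⟩
      rw [(mem_Z_weld.1 h).2, sub_self, map_zero]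

omit [Finite J] in
/-- Two states with the same least dimension, one finer than the other, have the same motions at
good positions. -/
lemma Good.Z_eq {E' : Finset J} (hE : E ⊆ E') (hr : r ≤ s) (hz : zdim a b E' s = zdim a b E r)
    (hp : Good a b p) : Z a b E' s p = Z a b E r p :=
  Submodule.eq_of_le_of_finrank_eq (Z_mono hE hr) (by rw [hp, hp, hz])

end

end

end Pool.Agent.BJ
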