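import Pool.Agent.Lib.MP_37c7bf_BJ.Eval
import Pool.Agent.Lib.MP_37c7bf_BJ.Weld

/-!
The expected dimension is a lower bound for the dimension of the space of motions.
-/

open MeasureTheory Module Topology
open scoped RealInnerProductSpace

namespace Pool.Agent.BJ

open Pool.Agent.H26R (E3 crossE)

/-- Imposing that the image under `g` lies in `A` costs at most the codimension of `A`. -/
lemma finrank_inf_comap {M : Type*} [AddCommGroup M] [Module ℝ M] [FiniteDimensional ℝ M]
    (V : Submodule ℝ M) (g : M →ₗ[ℝ] Kil) (A : Submodule ℝ Kil) :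
    finrank ℝ V + finrank ℝ A ≤ finrank ℝ ↥(V ⊓ A.comap g) + 6 := by
  let h : V →ₗ[ℝ] (Kil ⧸ A) := (A.mkQ.comp g).domRestrict V
  have h1 := LinearMap.finrank_range_add_finrank_ker h
  have h2 : finrank ℝ (LinearMap.range h) ≤ finrank ℝ (Kil ⧸ A) :=
    Submodule.finrank_le _
  have h3 : finrank ℝ (Kil ⧸ A) + finrank ℝ A = 6 := by
    rw [Submodule.finrank_quotient_add_finrank, finrank_Kil]
  have h4 : LinearMap.ker h = (V ⊓ A.comap g).comap V.subtype := by
    ext S
    rw [LinearMap.mem_ker, Submodule.mem_comap, Submodule.subtype_apply, Submodule.mem_inf,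
      Submodule.mem_comap]
    change A.mkQ (g S) = 0 ↔ _
    rw [Submodule.mkQ_apply, Submodule.Quotient.mk_eq_zero]
    exact ⟨fun h => ⟨S.2, h⟩, fun h => h.2⟩
  have h5 : finrank ℝ ((V ⊓ A.comap g).comap V.subtype) = finrank ℝ ↥(V ⊓ A.comap g) :=
    (Submodule.comapSubtypeEquivOfLe inf_le_left).finrank_eq
  rw [h4, h5] at h1
  omega

lemma one_le_finrank_inf (x y : E3) :
    1 ≤ finrank ℝ ↥(LinearMap.ker (ev x) ⊓ LinearMap.ker (ev y)) := by
  by_cases h : x = y
  · subst h
    rw [inf_idem, finrank_ker_ev]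
    norm_num
  · rw [finrank_ker_ev_two h]

section

variable {ι J : Type} [Fintype ι] (a b : J → ι) (E : Finset J) (r : Setoid ι) (p : J → E3)

open Classical in
lemma upper_step (e : Sym2 (Quotient r)) (F : Finset (Sym2 (Quotient r))) :
    (finrank ℝ (Z a b (E.filter fun j => pr a b r j ∈ F) r p) : ℤ) ≤
      finrank ℝ (Z a b (E.filter fun j => pr a b r j ∈ insert e F) r p) +
        if e.IsDiag then 0 else hh (dd a b E r e) := by
  set E1 := E.filter fun j => pr a b r j ∈ F with hE1
  set E2 := E.filter fun j => pr a b r j ∈ insert e F with hE2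
  -- membership in the smaller space
  have hmem : ∀ S : ι → Kil, S ∈ Z a b E2 r p ↔ S ∈ Z a b E1 r p ∧
      ∀ j ∈ E, pr a b r j = e → ev (p j) (S (a j)) = ev (p j) (S (b j)) := by
    intro S
    rw [mem_Z, mem_Z]
    constructor
    · rintro ⟨h1, h2⟩
      refine ⟨⟨h1, fun j hj => h2 j ?_⟩, fun j hj he => h2 j ?_⟩
      · rw [hE1, Finset.mem_filter] at hj
        rw [hE2, Finset.mem_filter]
        exact ⟨hj.1, Finset.mem_insert_of_mem hj.2⟩
      · rw [hE2, Finset.mem_filter, he]
        exact ⟨hj, Finset.mem_insert_self _ _⟩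
    · rintro ⟨⟨h1, h2⟩, h3⟩
      refine ⟨h1, fun j hj => ?_⟩
      rw [hE2, Finset.mem_filter, Finset.mem_insert] at hj
      rcases hj with ⟨hjE, he | hF⟩
      · exact h3 j hjE he
      · exact h2 j (by rw [hE1, Finset.mem_filter]; exact ⟨hjE, hF⟩)
  by_cases hd : e.IsDiag
  · rw [if_pos hd, add_zero]
    have h1 : Z a b E2 r p = Z a b E1 r p := by
      ext S
      rw [hmem]
      refine ⟨fun h => h.1, fun h => ⟨h, fun j hj he => ?_⟩⟩
      have h2 : Quotient.mk r (a j) = Quotient.mk r (b j) := by
        rw [← he] at hd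
        exact Sym2.mk_isDiag_iff.1 hd
      rw [h.1 _ _ (Quotient.exact h2)]
    rw [h1]
  rw [if_neg hd]
  by_cases h0 : dd a b E r e = 0
  · have h1 : Z a b E2 r p = Z a b E1 r p := by
      ext S
      rw [hmem]
      refine ⟨fun h => h.1, fun h => ⟨h, fun j hj he => ?_⟩⟩
      exfalso
      have h2 : j ∈ E.filter fun j => pr a b r j = e := Finset.mem_filter.2 ⟨hj, he⟩
      unfold dd at h0
      rw [Finset.card_eq_zero.1 h0] at h2
      exact Finset.notMem_empty _ h2
    rw [h1, h0]
    simp [hh]
  -- a joint between the two classes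
  obtain ⟨j0, hj0⟩ : ∃ j0, j0 ∈ E.filter fun j => pr a b r j = e := by
    by_contra hno
    push Not at hno
    apply h0
    unfold dd
    rw [Finset.card_eq_zero]
    exact Finset.eq_empty_of_forall_notMem hno
  have hj0' := Finset.mem_filter.1 hj0
  let g : (ι → Kil) →ₗ[ℝ] Kil :=
    LinearMap.proj (R := ℝ) (φ := fun _ : ι => Kil) (a j0) - LinearMap.proj (b j0)
  have hg : ∀ S : ι → Kil, g S = S (a j0) - S (b j0) := fun _ => rfl
  -- the constraint of a joint between the two classes
  have hcon : ∀ S ∈ Z a b E1 r p, ∀ j ∈ E, pr a b r j = e →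
      (ev (p j) (S (a j)) = ev (p j) (S (b j)) ↔ ev (p j) (g S) = 0) := by
    intro S hS j hj he
    have h1 : pr a b r j = pr a b r j0 := he.trans hj0'.2.symm
    unfold pr at h1
    rw [hg, map_sub, sub_eq_zero]
    rcases Sym2.eq_iff.1 h1 with ⟨h2, h3⟩ | ⟨h2, h3⟩
    · rw [hS.1 _ _ (Quotient.exact h2), hS.1 _ _ (Quotient.exact h3)]
    · rw [hS.1 _ _ (Quotient.exact h2), hS.1 _ _ (Quotient.exact h3)]
      exact eq_comm
  -- the main estimate
  have hmain : ∀ A : Submodule ℝ Kil, (∀ T ∈ A, ∀ j ∈ E, pr a b r j = e → ev (p j) T = 0) →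
      finrank ℝ (Z a b E1 r p) + finrank ℝ A ≤ finrank ℝ (Z a b E2 r p) + 6 := by
    intro A hA
    refine (finrank_inf_comap (Z a b E1 r p) g A).trans ?_
    have h1 : Z a b E1 r p ⊓ A.comap g ≤ Z a b E2 r p := by
      rintro S ⟨h1, h2⟩
      rw [hmem]
      exact ⟨h1, fun j hj he => (hcon S h1 j hj he).2 (hA _ h2 j hj he)⟩
    have h2 := Submodule.finrank_mono h1
    omega
  have hddcard : dd a b E r e = (E.filter fun j => pr a b r j = e).card := rfl
  by_cases h1 : dd a b E r e = 1
  · obtain ⟨j1, hj1⟩ := Finset.card_eq_one.1 (hddcard.symm.trans h1)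
    have h2 := hmain (LinearMap.ker (ev (p j0))) (by
      intro T hT j hj he
      have h3 : j ∈ E.filter fun j => pr a b r j = e := Finset.mem_filter.2 ⟨hj, he⟩
      have h4 := hj0
      rw [hj1, Finset.mem_singleton] at h3 h4
      rw [h3, ← h4]
      exact hT)
    rw [finrank_ker_ev] at h2
    rw [h1]
    simp only [hh]
    norm_num
    omega
  by_cases h2 : dd a b E r e = 2
  · obtain ⟨j1, j2, -, hj12⟩ := Finset.card_eq_two.1 (hddcard.symm.trans h2)
    have h3 := hmain (LinearMap.ker (ev (p j1)) ⊓ LinearMap.ker (ev (p j2))) (by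
      intro T hT j hj he
      have h3 : j ∈ E.filter fun j => pr a b r j = e := Finset.mem_filter.2 ⟨hj, he⟩
      rw [hj12, Finset.mem_insert, Finset.mem_singleton] at h3
      rcases h3 with rfl | rfl
      · exact hT.1
      · exact hT.2)
    have h4 := one_le_finrank_inf (p j1) (p j2)
    rw [h2]
    simp only [hh]
    norm_num
    omega
  · have h3 := hmain ⊥ (by
      intro T hT j _ _
      rw [(Submodule.mem_bot ℝ).1 hT, map_zero])
    rw [finrank_bot] at h3
    have h4 : hh (dd a b E r e) = 6 := by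
      unfold hh
      rw [if_neg h0, if_neg h1, if_neg h2]
    rw [h4]
    omega

end

/-- Every structure has at least the expected dimension of motions, at all positions. -/
theorem val_le {ι J : Type} [Fintype ι] (a b : J → ι) (E : Finset J) (r : Setoid ι)
    (p : J → E3) : val a b E r ≤ finrank ℝ (Z a b E r p) := by
  classical
  have key : ∀ F : Finset (Sym2 (Quotient r)),
      (finrank ℝ (Z a b ∅ r p) : ℤ) ≤
        finrank ℝ (Z a b (E.filter fun j => pr a b r j ∈ F) r p) +
          ∑ e ∈ F, if e.IsDiag then 0 else hh (dd a b E r e) := by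
    intro F
    induction F using Finset.induction_on with
    | empty =>
      have h1 : (E.filter fun j => pr a b r j ∈ (∅ : Finset (Sym2 (Quotient r)))) = ∅ := by
        simp
      rw [h1]
      simp
    | insert e F he ih =>
      rw [Finset.sum_insert he]
      have h1 := upper_step a b E r p e F
      linarith
  have h1 := key Finset.univ
  have h2 : (E.filter fun j => pr a b r j ∈ (Finset.univ : Finset (Sym2 (Quotient r)))) = E := by
    simp
  rw [h2, finrank_Z_empty, Nat.card_eq_fintype_card] at h1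
  unfold val
  push_cast at h1
  linarith

end Pool.Agent.BJ
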